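import Pool.Agent.Work.MP_cb380d_ev.InterfaceA

/-! # Block HVA (helper70): frames -/

open Pool.IC Pool.GL Pool.TL Polynomial

namespace Pool.EV

theorem HVA_lead (n : ℕ) (y : Str) : lead (un n ++ false :: y) = n := by
  induction n with
  | zero => rfl
  | succ n ih =>
    have h : un (n + 1) ++ false :: y = true :: (un n ++ false :: y) := by
      simp [un, List.replicate_succ]
    rw [h]
    show lead (un n ++ false :: y) + 1 = n + 1
    rw [ih]

theorem HVA_rst (n : ℕ) (y : Str) : rst (un n ++ false :: y) = y := by
  unfold rst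
  rw [HVA_lead]
  have h : un n ++ false :: y = (un n ++ [false]) ++ y := by simp
  rw [h]
  exact List.drop_left' (by simp [un])

theorem HVA_hv (ν K : ℕ) (y : Str) : hv (frm ν K y) =
    (List.range ν).map fun j => ((y.drop (j * K)).take K).any id := by
  unfold hv frm
  rw [HVA_lead, HVA_rst, HVA_lead, HVA_rst]

theorem HVA_get (ν K : ℕ) (y : Str) (i : ℕ) : (frm ν K y)[ν + K + 2 + i]? = y[i]? := by
  have h : frm ν K y = (un ν ++ false :: (un K ++ [false])) ++ y := by simp [frm]
  rw [h, List.getElem?_append_right (by simp [un]; omega)]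
  congr 1
  simp [un]
  omega

theorem HVA_len (ν K : ℕ) (y : Str) : (frm ν K y).length = ν + K + 2 + y.length := by
  simp [frm, un]
  omega

theorem HVA_block (ν K : ℕ) (y : Str) (hy : y.length = ν * K) (l : ℕ) (hl : l < ν) :
    (((y.drop (l * K)).take K).any id = false ↔
      ∀ j, lo ν K l ≤ j → j < lo ν K l + K → (frm ν K y)[j]? = some false) := by
  have hlK : l * K + K ≤ ν * K := by
    calc l * K + K = (l + 1) * K := by ring
      _ ≤ ν * K := Nat.mul_le_mul_right K hl
  constructor
  · intro h j hj1 hj2
    unfold lo at hj1 hj2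
    obtain ⟨i, rfl⟩ : ∃ i, j = ν + K + 2 + (l * K + i) := ⟨j - (ν + K + 2 + l * K), by omega⟩
    rw [HVA_get]
    have hi : i < K := by omega
    have hlt : l * K + i < y.length := by omega
    rw [List.getElem?_eq_getElem hlt]
    rw [List.any_eq_false] at h
    have hm : y[l * K + i] ∈ (y.drop (l * K)).take K := by
      rw [List.mem_iff_getElem]
      refine ⟨i, by simp; omega, by simp⟩
    have h2 := h _ hm
    simpa using h2
  · intro h
    rw [List.any_eq_false]
    intro x hx
    obtain ⟨i, hi, rfl⟩ := List.mem_iff_getElem.1 hx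
    have hi' : i < K := by
      have := hi
      simp at this
      omega
    have h1 := h (ν + K + 2 + (l * K + i)) (by unfold lo; omega) (by unfold lo; omega)
    rw [HVA_get] at h1
    have hlt : l * K + i < y.length := by omega
    rw [List.getElem?_eq_getElem hlt] at h1
    simp only [Option.some.injEq] at h1
    simp [h1]

theorem p_HVA : Stmt_HVA := by
  constructor
  · rintro ν K z ⟨y, hy, rfl⟩
    refine ⟨by rw [HVA_len, hy], by rw [HVA_hv]; simp, fun l hl => ⟨?_, ?_⟩⟩
    · have hlK : l * K + K ≤ ν * K := by
        calc l * K + K = (l + 1) * K := by ring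
          _ ≤ ν * K := Nat.mul_le_mul_right K hl
      rw [HVA_len, hy]
      unfold lo
      omega
    · rw [← HVA_block ν K y hy l hl, HVA_hv, List.getElem?_map,
        List.getElem?_range hl]
      simp
  · intro ν K
    refine ⟨⟨_, by simp, rfl⟩, ?_⟩
    rw [HVA_hv]
    apply List.ext_getElem
    · simp
    · intro i h1 h2
      simp

end Pool.EV
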