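import Pool.Agent.Work.MP_cb380d_ev.InterfaceB
import Pool.Agent.Work.MP_af7a01_gl.B_COD

/-!
# Block NPD (helper12): from `InNP` to the typed form
-/

open Classical Pool.IC Pool.GL Pool.TL Polynomial

namespace Pool.EV

theorem p_NPD : Stmt_NPD := by
  rintro B L ⟨M, q, r, V, hout, hlen, hL⟩
  obtain ⟨R, hR, hRs⟩ := run
  have hid : FP {B} (fun _ (x : Str) => x) := lib.idn
  have hw : FP {B} (fun _ (x : Str) => un (q.eval x.length)) := una {B} q _ hid
  have harg : FP {B} (fun _ (x : Str) =>
      pr (un (q.eval x.length)) (pr (code M) (pr [] (pr (fs x) (sn x))))) :=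
    lib.pair hw (lib.pair (lib.const _) (lib.pair (lib.const _)
      (lib.pair (lib.fst hid) (lib.snd hid))))
  have hR' : FP {B} R := hR.mono (Set.subset_univ _)
  have h1 : FP {B} (fun B' (x : Str) =>
      (R B' (pr (un (q.eval x.length)) (pr (code M) (pr [] (pr (fs x) (sn x)))))).tail) :=
    lib.tail (lib.comp harg hR')
  have h2 : FP {B} (fun _ (x : Str) =>
      (R B (pr (un (q.eval x.length)) (pr (code M) (pr [] (pr (fs x) (sn x)))))).tail) :=
    h1.congr (fun B' hB' x => by rw [Set.mem_singleton_iff.1 hB'])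
  have key : ∀ y z : Str, (R B (pr (un (q.eval (pr y z).length))
      (pr (code M) (pr [] (pr (fs (pr y z)) (sn (pr y z))))))).tail = [decide ((y, z) ∈ V)] := by
    intro y z
    rw [hRs, p_COD, fs_pr, sn_pr]
    have h3 := out_mono (hout y z) (N := (un (q.eval (pr y z).length)).length) (by
      have e : (un (q.eval (pr y z).length)).length = q.eval (pr y z).length := by simp
      rw [e]
      exact poly_mono q (by rw [length_pr]; omega))
    rw [h3]
    rfl
  have h4 : PolyF B (fun p : Raw × Raw => decide ((p.1.s, p.2.s) ∈ V)) :=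
    PolyF.mk ⟨_, h2, fun a => key a.1.s a.2.s⟩
  have h5 : PolyF B (fun p : Str × Str => ((⟨p.1⟩ : Raw), (⟨p.2⟩ : Raw))) :=
    PolyF.pair (PolyF.toRaw (by fun_prop)) (PolyF.toRaw (by fun_prop))
  have h6 : PolyF B (fun p : Str × Str => decide ((p.1, p.2) ∈ V)) := PolyF.comp h4 h5
  refine ⟨fun p => decide ((p.1, p.2) ∈ V), r, h6, ?_, ?_⟩
  · intro y z h
    exact hlen y z (of_decide_eq_true h)
  · intro z
    rw [hL z]
    constructor
    · rintro ⟨y, hy⟩
      exact ⟨y, decide_eq_true hy⟩
    · rintro ⟨y, hy⟩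
      exact ⟨y, of_decide_eq_true hy⟩

end Pool.EV
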