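import Pool.Agent.Work.MP_cb380d_ev.InterfaceB

/-! Block NPE (helper20). -/

open Pool.IC Pool.GL Pool.TL Polynomial

namespace Pool.EV

theorem p_NPE (hP2I : Stmt_P2I) : Stmt_NPE := by
  intro B L V r hV hr hL
  have h1 : PolyF B (fun p : Raw × Raw => V (p.1.s, p.2.s)) := by fun_prop
  obtain ⟨F, hF, h2⟩ := h1.out
  obtain ⟨M, q, hM⟩ := hP2I B F hF
  refine ⟨M, q, r, {p | V p = true}, fun y z => ?_, fun y z hyz => hr y z hyz, fun z => ?_⟩
  · rw [hM y z]
    have h3 := h2 (⟨y⟩, ⟨z⟩)
    simp only [se_pair, se_raw, se_bool] at h3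
    rw [h3]
    have h4 : ∀ (b : Bool) (i : Decidable (b = true)), [b] = [@decide (b = true) i] := by
      intro b i
      cases b
      · rw [@decide_eq_false (false = true) i Bool.false_ne_true]
      · rw [@decide_eq_true (true = true) i rfl]
    exact congrArg some (h4 (V (y, z)) _)
  · rw [hL z]
    exact Iff.rfl

end Pool.EV
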