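import Pool.Agent.Work.MP_cb380d_ev.InterfaceB

/-!
# Block P2I: two input stacks
-/

open Pool.IC Pool.GL Pool.TL Polynomial

namespace Pool.EV

/-- The loop which marks. -/
def P2I_loop : Cmd :=
  Cmd.loop 4 (Cmd.branch 4 Cmd.skip
    (Cmd.seq (Cmd.pop 4) (Cmd.seq (Cmd.push 2 false) (Cmd.push 2 true)))
    (Cmd.seq (Cmd.pop 4) (Cmd.seq (Cmd.push 2 true) (Cmd.push 2 true))))

theorem P2I_loop_spec (B : Set Str) (l : Str) : ∀ d : Str,
    ExecLe B P2I_loop (IC.st [] [] d [] l [] []) (7 * l.length + 1)
      (IC.st [] [] (mark l.reverse ++ d) [] [] [] []) := by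
  unfold P2I_loop
  induction l with
  | nil =>
    intro d
    exact ExecLe.loop_nil (i := 4) (s := IC.st [] [] d [] [] [] []) rfl
  | cons b l ih =>
    intro d
    have h1 : ExecLe B (Cmd.branch 4 Cmd.skip
        (Cmd.seq (Cmd.pop 4) (Cmd.seq (Cmd.push 2 false) (Cmd.push 2 true)))
        (Cmd.seq (Cmd.pop 4) (Cmd.seq (Cmd.push 2 true) (Cmd.push 2 true))))
        (IC.st [] [] d [] (b :: l) [] []) 6 (IC.st [] [] (true :: b :: d) [] l [] []) := by
      refine ExecLe.branch_cons (i := 4) (b := b) (l := l) rfl ?_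
      cases b
      · exact (pop4 B [] [] d [] (false :: l) [] []).seq
          ((push2 B [] [] d [] l [] [] false).seq (push2 B [] [] (false :: d) [] l [] [] true))
      · exact (pop4 B [] [] d [] (true :: l) [] []).seq
          ((push2 B [] [] d [] l [] [] true).seq (push2 B [] [] (true :: d) [] l [] [] true))
    have h2 := ih (true :: b :: d)
    have h3 : mark (b :: l).reverse ++ d = mark l.reverse ++ true :: b :: d := by
      simp [mark]
    rw [h3]
    refine (ExecLe.loop_step (i := 4) (s := IC.st [] [] d [] (b :: l) [] []) ?_ h1 h2).mono ?_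
    · exact List.cons_ne_nil _ _
    · simp only [List.length_cons]
      omega

theorem p_P2I : Stmt_P2I := by
  intro B F hF
  obtain ⟨N1, q1, hN1, h1⟩ := tTOC {B} (fun _ => F) hF
  obtain ⟨c1, hc1⟩ := h1 2
  refine ⟨Cmd.seq (mv 1 4) (Cmd.seq (Cmd.push 2 false) (Cmd.seq P2I_loop c1)),
    C 20 * X + C 20 + q1.comp (C 2 * X + C 1), ?_⟩
  intro y z
  have e1 : ExecLe B (mv 1 4) (IC.st [] y z [] [] [] []) (5 * y.length + 1)
      (IC.st [] [] z [] y.reverse [] []) := by
    have h := mv_spec B (i := 1) (j := 4) (by omega) (IC.st [] y z [] [] [] [])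
    rw [upd1, upd4] at h
    have h' : (IC.st [] y z [] [] [] [] 1).reverse ++ IC.st [] y z [] [] [] [] 4 =
        y.reverse := List.append_nil _
    rw [h'] at h
    exact h
  have e2 := push2 B [] [] z [] y.reverse [] [] false
  have e3 := P2I_loop_spec B y.reverse (false :: z)
  rw [List.reverse_reverse, List.length_reverse] at e3
  have e4 : ExecLe B c1 (IC.st [] [] (mark y ++ false :: z) [] [] [] [])
      (q1.eval (mark y ++ false :: z).length) (IC.st [] [] [] (F (pr y z)) [] [] []) := by
    have h := hc1 B rfl (IC.st [] [] (mark y ++ false :: z) [] [] [] []) (fun j hj _ => by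
      rcases j with _ | _ | _ | _ | _ | _ | _ | j
      · omega
      · omega
      · omega
      all_goals rfl)
    rw [upd2, upd3] at h
    exact h
  have e := e1.seq (e2.seq (e3.seq e4))
  obtain ⟨m, hm, hE⟩ := e
  rw [← init_eq] at hE
  have hlen : (mark y ++ false :: z).length = 2 * y.length + z.length + 1 := length_pr y z
  have hq := eval_mono q1 (show (mark y ++ false :: z).length ≤ 2 * (y.length + z.length) + 1 by
    omega)
  have hm' : m ≤ (C 20 * X + C 20 + q1.comp (C 2 * X + C 1) : Polynomial ℕ).eval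
      (y.length + z.length) := by
    simp only [eval_add, eval_mul, eval_C, eval_X, eval_comp]
    omega
  rw [out_of_exec hE hm']
  rfl

end Pool.EV
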