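import Pool.Agent.Work.MP_cb380d_ev.InterfaceB

open Pool.IC Pool.GL Pool.TL Polynomial

namespace Pool.EV

/-- The step of the fold for `lead`. -/
def PLF_s (s : ℕ × Bool) (b : Bool) : ℕ × Bool := bif (s.2 && b) then (s.1 + 1, true) else (s.1, false)

theorem PLF_fold_false (z : Str) (n : ℕ) : z.foldl PLF_s (n, false) = (n, false) := by
  induction z with
  | nil => rfl
  | cons b z ih =>
    rw [List.foldl_cons]
    have : PLF_s (n, false) b = (n, false) := by simp [PLF_s]
    rw [this, ih]

theorem PLF_fold_true (z : Str) (n : ℕ) : (z.foldl PLF_s (n, true)).1 = n + lead z := by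
  induction z generalizing n with
  | nil => rfl
  | cons b z ih =>
    rw [List.foldl_cons]
    cases b with
    | false =>
      have : PLF_s (n, true) false = (n, false) := by simp [PLF_s]
      rw [this, PLF_fold_false]
      rfl
    | true =>
      have : PLF_s (n, true) true = (n + 1, true) := by simp [PLF_s]
      rw [this, ih]
      show n + 1 + lead z = n + (lead z + 1)
      omega

theorem PLF_lead (B : Set Str) : PolyF B lead := by
  have h1 : PolyF B (fun p : Str × (ℕ × Bool) × Bool => PLF_s p.2.1 p.2.2) := by
    unfold PLF_s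
    fun_prop
  have h2 : PolyF B (fun z : Str => z.foldl PLF_s (0, true)) := by
    refine PolyF.foldl_add (l := fun z : Str => z) (g := fun _ => ((0 : ℕ), true))
      (h := fun _ s b => PLF_s s b) (by fun_prop) (by fun_prop) h1 2 ?_
    intro z s b _
    obtain ⟨n, c⟩ := s
    cases c <;> cases b <;> simp [PLF_s] <;> omega
  have h3 : PolyF B (fun z : Str => (z.foldl PLF_s (0, true)).1) := by fun_prop
  refine h3.congrF fun z => ?_
  rw [PLF_fold_true]
  omega

theorem PLF_rst (B : Set Str) : PolyF B rst := by
  have h := PLF_lead B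
  have : PolyF B (fun z : Str => z.drop (lead z + 1)) := by fun_prop
  exact this

theorem PLF_dcd (B : Set Str) : PolyF B dcd := by
  have h := PLF_lead B
  have h2 := PLF_rst B
  have : PolyF B (fun w : Str => (rst w).take (lead w)) := by fun_prop
  exact this

theorem PLF_hv (B : Set Str) : PolyF B hv := by
  have h := PLF_lead B
  have h2 := PLF_rst B
  have h3 : PolyF B (fun p : Str × ℕ =>
      (((rst (rst p.1)).drop (p.2 * lead (rst p.1))).take (lead (rst p.1))).any id) := by
    refine PolyF.any (l := fun p : Str × ℕ =>
      ((rst (rst p.1)).drop (p.2 * lead (rst p.1))).take (lead (rst p.1)))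
      (f := fun _ b => id b) (by fun_prop) ?_
    show PolyF B (fun p : (Str × ℕ) × Bool => p.2)
    fun_prop
  have h4 : PolyF B (fun z : Str => (List.range (lead z)).map fun j =>
      (((rst (rst z)).drop (j * lead (rst z))).take (lead (rst z))).any id) :=
    PolyF.map (l := fun z : Str => List.range (lead z)) (f := fun (z : Str) (j : ℕ) =>
      (((rst (rst z)).drop (j * lead (rst z))).take (lead (rst z))).any id) (by fun_prop) h3
  exact h4

theorem PLF_parity (B : Set Str) : PolyF B parity := by
  have h : PolyF B (fun w : List Bool => w.foldl (fun a b => xor a b) false) := by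
    refine PolyF.foldl_add (l := fun w : List Bool => w) (g := fun _ => false)
      (h := fun _ a b => xor a b) (by fun_prop) (by fun_prop) (by fun_prop) 1 ?_
    intro w s b _
    simp
  exact h

theorem PLF_fd (B : Set Str) : PolyF B (fun p : Str × Str => fd p.1 p.2) := by
  have h : PolyF B (fun q : (Str × Str) × ℕ => decide (q.1.1[q.2]? ≠ q.1.2[q.2]?)) := by
    have h0 : PolyF B (fun q : (Str × Str) × ℕ => !(decide (q.1.1[q.2]? = q.1.2[q.2]?))) := by
      fun_prop
    refine h0.congrF fun q => ?_
    simp
  have h2 : PolyF B (fun p : Str × Str => ((List.range (p.1.length + p.2.length)).filter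
      fun b => decide (p.1[b]? ≠ p.2[b]?))) :=
    PolyF.filter (l := fun p : Str × Str => List.range (p.1.length + p.2.length))
      (f := fun (p : Str × Str) (b : ℕ) => decide (p.1[b]? ≠ p.2[b]?)) (by fun_prop) h
  have h3 : PolyF B (fun p : Str × Str => ((List.range (p.1.length + p.2.length)).filter
      fun b => decide (p.1[b]? ≠ p.2[b]?)).headD 0) :=
    PolyF.headD h2 (PolyF.const 0)
  exact h3

theorem PLF_frm (B : Set Str) :
    PolyF B (fun p : ℕ × ℕ => frm p.1 p.2 (List.replicate (p.1 * p.2) false)) := by
  have h : PolyF B (fun p : ℕ × ℕ => (List.replicate p.1 true : Str) ++ false ::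
      (List.replicate p.2 true ++ false :: List.replicate (p.1 * p.2) false)) := by fun_prop
  exact h

theorem PLF_wd (B : Set Str) : PolyF B (fun p : Str × ℕ => wd p.1 p.2) := by
  have h : PolyF B (fun p : Str × ℕ =>
      ((List.replicate p.1.length true : Str) ++ false :: p.1).map some) :=
    PolyF.map (l := fun p : Str × ℕ => (List.replicate p.1.length true : Str) ++ false :: p.1)
      (f := fun _ b => some b) (by fun_prop) (by fun_prop)
  have h2 : PolyF B (fun p : Str × ℕ =>
      ((List.replicate p.1.length true : Str) ++ false :: p.1).map some ++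
        List.replicate (p.2 - 2 - 2 * p.1.length) (none : Option Bool)) := by
    refine PolyF.append h ?_
    fun_prop
  exact h2

theorem PLF_zip (z u : Str) : List.zipWith xor z u =
    (List.range (z.length - (z.length - u.length))).map
      fun j => xor (z.getD j false) (u.getD j false) := by
  apply List.ext_getElem
  · simp only [List.length_zipWith, List.length_map, List.length_range]
    omega
  · intro i h1 h2
    have h3 : i < z.length ∧ i < u.length := by
      simp only [List.length_zipWith] at h1
      omega
    simp only [List.getElem_zipWith, List.getElem_map, List.getElem_range]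
    rw [List.getD_eq_getElem _ _ h3.1, List.getD_eq_getElem _ _ h3.2]

theorem PLF_add (B : Set Str) : PolyF B (fun p : Str × Str => add p.1 p.2) := by
  have h : PolyF B (fun p : Str × Str => (List.range (p.1.length - (p.1.length - p.2.length))).map
      fun j => xor (p.1.getD j false) (p.2.getD j false)) :=
    PolyF.map (l := fun p : Str × Str => List.range (p.1.length - (p.1.length - p.2.length)))
      (f := fun (p : Str × Str) (j : ℕ) => xor (p.1.getD j false) (p.2.getD j false))
      (by fun_prop) (by fun_prop)
  exact h.congrF fun p => (PLF_zip p.1 p.2).symm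

theorem PLF_plc (B : Set Str) : PolyF B (fun p : ℕ × ℕ × Str => plc p.1 p.2.1 p.2.2) := by
  have h : PolyF B (fun p : ℕ × ℕ × Str => (List.range p.1).map fun j =>
      if p.2.1 ≤ j then p.2.2.getD (j - p.2.1) false else false) :=
    PolyF.map (l := fun p : ℕ × ℕ × Str => List.range p.1)
      (f := fun (p : ℕ × ℕ × Str) (j : ℕ) =>
        if p.2.1 ≤ j then p.2.2.getD (j - p.2.1) false else false) (by fun_prop) (by fun_prop)
  exact h

theorem PLF_mod (z : Str) (v : ℕ) : z.modify v not =
    (List.range z.length).map fun j => if j = v then !(z.getD j false) else z.getD j false := by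
  apply List.ext_getElem
  · simp
  · intro i h1 h2
    have h3 : i < z.length := by simpa using h1
    simp only [List.getElem_map, List.getElem_range, List.getElem_modify]
    rw [List.getD_eq_getElem _ _ h3]
    by_cases h : i = v
    · rw [if_pos h, if_pos h.symm]
    · rw [if_neg h, if_neg (fun h' => h h'.symm)]

theorem PLF_modify (B : Set Str) : PolyF B (fun p : Str × ℕ => p.1.modify p.2 not) := by
  have h : PolyF B (fun p : Str × ℕ => (List.range p.1.length).map fun j =>
      if j = p.2 then !(p.1.getD j false) else p.1.getD j false) :=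
    PolyF.map (l := fun p : Str × ℕ => List.range p.1.length)
      (f := fun (p : Str × ℕ) (j : ℕ) =>
        if j = p.2 then !(p.1.getD j false) else p.1.getD j false) (by fun_prop) (by fun_prop)
  exact h.congrF fun p => (PLF_mod p.1 p.2).symm

theorem PLF_ev (B : Set Str) : PolyF B (fun p : ℕ × ℕ => ev p.1 p.2) := by
  have h : PolyF B (fun p : ℕ × ℕ => (List.range p.1).map fun j => decide (j = p.2)) :=
    PolyF.map (l := fun p : ℕ × ℕ => List.range p.1)
      (f := fun (p : ℕ × ℕ) (j : ℕ) => decide (j = p.2)) (by fun_prop) (by fun_prop)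
  exact h

theorem PLF_es (B : Set Str) (esc : Str × List ℕ × ℕ × ℕ → Str) (hesc : PolyF B esc) :
    PolyF B (fun p : Str × List ℕ × ℕ × ℕ => es esc p.1 p.2.1 p.2.2.1 p.2.2.2) := by
  have h1 : PolyF B (fun p : Str × List ℕ × ℕ × ℕ => esc (p.1, p.2.1, p.2.2.1, p.2.2.2)) := by
    fun_prop
  have h : PolyF B (fun p : Str × List ℕ × ℕ × ℕ =>
      if (esc (p.1, p.2.1, p.2.2.1, p.2.2.2)).length = p.1.length then
        esc (p.1, p.2.1, p.2.2.1, p.2.2.2) else p.1) := by fun_prop
  exact h

theorem p_PLF : Stmt_PLF := fun B =>
  ⟨PLF_lead B, PLF_rst B, PLF_hv B, PLF_dcd B, PLF_parity B, PLF_fd B, PLF_frm B, PLF_wd B,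
    PLF_add B, PLF_plc B, PLF_modify B, PLF_ev B, PLF_es B⟩

end Pool.EV
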