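import Pool.Agent.Work.MP_cb380d_ev.InterfaceF

/-! Block AVA (helper69): the potential of the bits is a martingale. -/

set_option autoImplicit false

open Pool.IC Pool.GL Pool.TL Polynomial

namespace Pool.EV

theorem AVA_le (t : ℕ) (b : Str) (T : Lits) : wga t b T ≤ 2 ^ t := by
  unfold wga
  split_ifs
  · exact Nat.zero_le _
  · exact Nat.pow_le_pow_right (by norm_num) (Nat.sub_le _ _)

theorem AVA_getD (b : Str) (o : Bool) (i : ℕ) (h : i < b.length) :
    (b ++ [o]).getD i false = b.getD i false := by
  rw [List.getD_append _ _ _ _ h]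

theorem AVA_any (b : Str) (o : Bool) (T : Lits) (h : ∀ l ∈ T, l.1 ≠ b.length) :
    (T.any fun l => decide (l.1 < (b ++ [o]).length) && decide ((b ++ [o]).getD l.1 false ≠ l.2)) =
      T.any fun l => decide (l.1 < b.length) && decide (b.getD l.1 false ≠ l.2) := by
  induction T with
  | nil => rfl
  | cons l T ih =>
    have h1 := h l List.mem_cons_self
    rw [List.any_cons, List.any_cons, ih fun l' hl' => h l' (List.mem_cons_of_mem _ hl')]
    congr 1
    rw [List.length_append, List.length_singleton]
    by_cases h2 : l.1 < b.length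
    · rw [AVA_getD b o _ h2]
      simp [h2, Nat.lt_succ_of_lt h2]
    · have h3 : ¬ l.1 < b.length + 1 := by omega
      simp [h2, h3]

theorem AVA_cnt (b : Str) (o : Bool) (T : Lits) (h : ∀ l ∈ T, l.1 ≠ b.length) :
    (T.filter fun l => decide ((b ++ [o]).length ≤ l.1)) =
      T.filter fun l => decide (b.length ≤ l.1) := by
  refine List.filter_congr fun l hl => ?_
  have h1 := h l hl
  rw [List.length_append, List.length_singleton]
  simp only [decide_eq_decide]
  omega

theorem AVA_same (t : ℕ) (b : Str) (o : Bool) (T : Lits) (h : ∀ l ∈ T, l.1 ≠ b.length) :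
    wga t (b ++ [o]) T = wga t b T := by
  unfold wga
  rw [AVA_any b o T h, AVA_cnt b o T h]

theorem AVA_split (p : ℕ) (T : Lits) : T.countP (fun l => decide (p ≤ l.1)) =
    T.countP (fun l => decide (l.1 = p)) + T.countP fun l => decide (p + 1 ≤ l.1) := by
  induction T with
  | nil => rfl
  | cons l T ih =>
    rw [List.countP_cons, List.countP_cons, List.countP_cons, ih]
    by_cases h1 : p ≤ l.1 <;> by_cases h2 : l.1 = p <;> by_cases h3 : p + 1 ≤ l.1 <;>
      simp [h1, h2, h3] <;> omega

theorem AVA_one (p : ℕ) (T : Lits) (hn : (T.map Prod.fst).Nodup) (v : Bool) (h : (p, v) ∈ T) :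
    T.countP (fun l => decide (l.1 = p)) = 1 := by
  have h1 : p ∈ T.map Prod.fst := List.mem_map.2 ⟨_, h, rfl⟩
  have h2 := List.count_eq_one_of_mem hn h1
  rw [List.count, List.countP_map] at h2
  rw [← h2]
  refine List.countP_congr fun l _ => ?_
  simp

theorem AVA_uniq (T : Lits) (hn : (T.map Prod.fst).Nodup) (l l' : ℕ × Bool) (h : l ∈ T)
    (h' : l' ∈ T) (he : l.1 = l'.1) : l = l' :=
  List.inj_on_of_nodup_map hn h h' he

theorem AVA_sum (t : ℕ) (b : Str) (T : Lits) (ht : T.length ≤ t) (hn : (T.map Prod.fst).Nodup)
    (v : Bool) (h : (b.length, v) ∈ T) :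
    wga t (b ++ [false]) T + wga t (b ++ [true]) T = 2 * wga t b T := by
  by_cases hv : ∃ l ∈ T, l.1 < b.length ∧ b.getD l.1 false ≠ l.2
  · obtain ⟨l, hl, h1, h2⟩ := hv
    have e0 : wga t b T = 0 := by
      unfold wga
      rw [if_pos]
      rw [List.any_eq_true]
      exact ⟨l, hl, by simp only [Bool.and_eq_true, decide_eq_true_eq]; exact ⟨h1, h2⟩⟩
    have e1 : ∀ o, wga t (b ++ [o]) T = 0 := by
      intro o
      unfold wga
      rw [if_pos]
      rw [List.any_eq_true]
      refine ⟨l, hl, ?_⟩
      simp only [Bool.and_eq_true, decide_eq_true_eq]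
      rw [AVA_getD b o _ h1, List.length_append, List.length_singleton]
      exact ⟨by omega, h2⟩
    rw [e0, e1, e1]
  · push Not at hv
    have e0 : wga t b T = 2 ^ (t - T.countP fun l => decide (b.length ≤ l.1)) := by
      unfold wga
      rw [if_neg, List.countP_eq_length_filter]
      rw [List.any_eq_true]
      rintro ⟨l, hl, h1⟩
      simp only [Bool.and_eq_true, decide_eq_true_eq] at h1
      exact h1.2 (hv l hl h1.1)
    have e1 : ∀ o, o ≠ v → wga t (b ++ [o]) T = 0 := by
      intro o ho
      unfold wga
      rw [if_pos]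
      rw [List.any_eq_true]
      refine ⟨_, h, ?_⟩
      simp only [Bool.and_eq_true, decide_eq_true_eq]
      refine ⟨by simp, ?_⟩
      simpa using ho
    have e2 : wga t (b ++ [v]) T = 2 ^ (t - T.countP fun l => decide (b.length + 1 ≤ l.1)) := by
      unfold wga
      rw [if_neg, List.countP_eq_length_filter]
      · rw [List.length_append, List.length_singleton]
      · rw [List.any_eq_true]
        rintro ⟨l, hl, h1⟩
        simp only [Bool.and_eq_true, decide_eq_true_eq] at h1
        obtain ⟨h1, h2⟩ := h1
        rw [List.length_append, List.length_singleton] at h1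
        by_cases h3 : l.1 = b.length
        · have h4 := AVA_uniq T hn l _ hl h h3
          apply h2
          rw [h4]
          simp
        · have h4 : l.1 < b.length := by omega
          rw [AVA_getD b v _ h4] at h2
          exact h2 (hv l hl h4)
    have h5 := AVA_split b.length T
    rw [AVA_one b.length T hn v h] at h5
    have h6 : T.countP (fun l => decide (b.length ≤ l.1)) ≤ T.length := List.countP_le_length
    have h7 : wga t (b ++ [v]) T = 2 * wga t b T := by
      rw [e2, e0, ← pow_succ']
      congr 1
      omega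
    cases v with
    | false => rw [h7, e1 true (by simp), add_zero]
    | true => rw [h7, e1 false (by simp), zero_add]

theorem AVA_prod (t : ℕ) (b : Str) : ∀ f : List Lits, f.Pairwise (fun T T' => dsj T T' = true) →
    (∀ T ∈ f, T.length ≤ t ∧ (T.map Prod.fst).Nodup) →
    (f.map fun T => 2 ^ (t + 1) - wga t (b ++ [false]) T).prod +
      (f.map fun T => 2 ^ (t + 1) - wga t (b ++ [true]) T).prod =
      2 * (f.map fun T => 2 ^ (t + 1) - wga t b T).prod
  | [], _, _ => rfl
  | T :: f, hp, hT => by
    rw [List.pairwise_cons] at hp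
    have h1 := hT T List.mem_cons_self
    simp only [List.map_cons, List.prod_cons]
    by_cases hc : ∃ v, (b.length, v) ∈ T
    · obtain ⟨v, hv⟩ := hc
      have h2 : ∀ o, ∀ T' ∈ f, wga t (b ++ [o]) T' = wga t b T' := by
        intro o T' hT'
        refine AVA_same t b o T' fun l hl he => ?_
        have h3 := hp.1 T' hT'
        unfold dsj at h3
        rw [List.all_eq_true] at h3
        have h4 := h3 _ hv
        rw [List.all_eq_true] at h4
        have h5 := h4 _ hl
        simp only [decide_eq_true_eq] at h5
        exact h5 he.symm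
      have h3 : ∀ o, (f.map fun T => 2 ^ (t + 1) - wga t (b ++ [o]) T) =
          f.map fun T => 2 ^ (t + 1) - wga t b T := by
        intro o
        refine List.map_congr_left fun T' hT' => ?_
        rw [h2 o T' hT']
      rw [h3, h3, ← add_mul, ← mul_assoc]
      congr 1
      have h4 := AVA_sum t b T h1.1 h1.2 v hv
      have h5 := AVA_le t b T
      have h6 := AVA_le t (b ++ [false]) T
      have h7 := AVA_le t (b ++ [true]) T
      rw [pow_succ]
      omega
    · have h2 : ∀ l ∈ T, l.1 ≠ b.length := by
        intro l hl he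
        exact hc ⟨l.2, by rw [← he]; exact hl⟩
      rw [AVA_same t b false T h2, AVA_same t b true T h2, ← mul_add,
        AVA_prod t b f hp.2 fun T' hT' => hT T' (List.mem_cons_of_mem _ hT')]
      ring

theorem p_AVA (hCPR : Stmt_CPR) : Stmt_AVA := by
  intro t cap fs b hfs
  have key : ∀ (b' : Str), ∀ f ∈ fs, cpr cap (f.map fun T => 2 ^ (t + 1) - wga t b' T) =
      (f.map fun T => 2 ^ (t + 1) - wga t b' T).prod := by
    intro b' f hf
    refine hCPR.2 cap (2 ^ (t + 1)) _ Nat.one_le_two_pow ?_ ?_
    · intro x hx
      simp only [List.mem_map] at hx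
      obtain ⟨T, -, rfl⟩ := hx
      exact Nat.sub_le _ _
    · rw [List.length_map]
      exact (hfs f hf).2.1
  unfold pta
  have e : ∀ b' : Str, (fs.map fun f => cpr cap (f.map fun T => 2 ^ (t + 1) - wga t b' T)) =
      fs.map fun f => (f.map fun T => 2 ^ (t + 1) - wga t b' T).prod := fun b' =>
    List.map_congr_left fun f hf => key b' f hf
  rw [e, e, e, ← List.sum_map_add, ← List.sum_map_mul_left]
  refine le_of_eq (congrArg List.sum (List.map_congr_left fun f hf => ?_))
  exact AVA_prod t b f (hfs f hf).1 (hfs f hf).2.2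

end Pool.EV
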