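import Pool.Agent.Work.MP_cb380d_ev.InterfaceF

/-!
# MP_cb380d_lc, CircuitReductions, PART F: block AVB (the potential of the kept offsets)
-/

open Pool.IC Pool.GL Pool.TL Polynomial

namespace Pool.EV

theorem AVB_range (n : ℕ) (f : ℕ → ℕ) :
    ((List.range n).map f).sum = ∑ o ∈ Finset.range n, f o := by
  induction n with
  | zero => simp
  | succ n ih => rw [List.range_succ, List.map_append, List.sum_append, ih,
      Finset.sum_range_succ]; simp

theorem AVB_prod (n : ℕ) (c : List ℕ) : ∀ H : List ℕ, H.Nodup →
    ∃ (R : ℕ) (O : Finset ℕ), (∀ q ∈ O, ∃ p ∈ H, p / n = c.length ∧ p % n = q) ∧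
      (∀ o, (H.map (wgb n (c ++ [o]))).prod = R * (if o ∈ O then n else 1)) ∧
      (H.map (wgb n c)).prod = R * 2 ^ O.card := by
  intro H
  induction H with
  | nil =>
    intro _
    refine ⟨1, ∅, ?_, ?_, ?_⟩
    · intro q hq
      exact absurd hq (Finset.notMem_empty q)
    · intro o
      simp
    · simp
  | cons p H ih =>
    intro hnd
    rw [List.nodup_cons] at hnd
    obtain ⟨R, O, h1, h2, h3⟩ := ih hnd.2
    rcases lt_trichotomy (p / n) c.length with hp | hp | hp
    · refine ⟨wgb n c p * R, O, ?_, ?_, ?_⟩
      · intro q hq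
        obtain ⟨p', hp', h4⟩ := h1 q hq
        exact ⟨p', List.mem_cons_of_mem _ hp', h4⟩
      · intro o
        have e : wgb n (c ++ [o]) p = wgb n c p := by
          unfold wgb
          rw [List.length_append, List.length_singleton, if_pos (by omega), if_pos hp,
            List.getD_append _ _ _ _ hp]
        rw [List.map_cons, List.prod_cons, h2 o, e, mul_assoc]
      · rw [List.map_cons, List.prod_cons, h3, mul_assoc]
    · have hnot : p % n ∉ O := by
        intro hmem
        obtain ⟨p', hp', h4, h5⟩ := h1 _ hmem
        have : p' = p := by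
          rw [← Nat.div_add_mod p' n, ← Nat.div_add_mod p n, h4, h5, hp]
        exact hnd.1 (this ▸ hp')
      refine ⟨R, insert (p % n) O, ?_, ?_, ?_⟩
      · intro q hq
        rcases Finset.mem_insert.1 hq with rfl | hq
        · exact ⟨p, List.mem_cons_self, hp, rfl⟩
        · obtain ⟨p', hp', h4⟩ := h1 q hq
          exact ⟨p', List.mem_cons_of_mem _ hp', h4⟩
      · intro o
        have e : wgb n (c ++ [o]) p = if o = p % n then n else 1 := by
          unfold wgb
          rw [List.length_append, List.length_singleton, if_pos (by omega),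
            List.getD_append_right _ _ _ _ (by omega), hp, Nat.sub_self]
          rfl
        rw [List.map_cons, List.prod_cons, h2 o, e]
        by_cases ho : o = p % n
        · rw [if_pos ho, if_neg (by rw [ho]; exact hnot),
            if_pos (by rw [ho]; exact Finset.mem_insert_self _ _), mul_one, mul_comm]
        · rw [if_neg ho, one_mul]
          congr 1
          have : o ∈ insert (p % n) O ↔ o ∈ O := by
            rw [Finset.mem_insert]
            exact ⟨fun h => h.resolve_left ho, Or.inr⟩
          simp only [this]
      · have e : wgb n c p = 2 := by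
          unfold wgb
          rw [if_neg (by omega)]
        rw [List.map_cons, List.prod_cons, h3, e, Finset.card_insert_of_notMem hnot, pow_succ]
        ring
    · refine ⟨2 * R, O, ?_, ?_, ?_⟩
      · intro q hq
        obtain ⟨p', hp', h4⟩ := h1 q hq
        exact ⟨p', List.mem_cons_of_mem _ hp', h4⟩
      · intro o
        have e : wgb n (c ++ [o]) p = 2 := by
          unfold wgb
          rw [List.length_append, List.length_singleton, if_neg (by omega)]
        rw [List.map_cons, List.prod_cons, h2 o, e, mul_assoc]
      · have e : wgb n c p = 2 := by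
          unfold wgb
          rw [if_neg (by omega)]
        rw [List.map_cons, List.prod_cons, h3, e, mul_assoc]

theorem AVB_one_le (n : ℕ) (hn : 0 < n) (c : List ℕ) (p : ℕ) : 1 ≤ wgb n c p := by
  unfold wgb
  split_ifs <;> omega

theorem AVB_cpr (hCPR : Stmt_CPR) (n cap : ℕ) (hn : 0 < n) (hcap : 1 ≤ cap) (c H : List ℕ) :
    cpr cap (H.map (wgb n c)) = min (H.map (wgb n c)).prod cap := by
  refine hCPR.1 cap _ hcap ?_
  intro x hx
  rw [List.mem_map] at hx
  obtain ⟨p, -, rfl⟩ := hx
  exact AVB_one_le n hn c p

theorem AVB_single (hCPR : Stmt_CPR) (n cap : ℕ) (hn : 0 < n) (hcap : 1 ≤ cap) (c H : List ℕ)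
    (hH : H.Nodup) : ((List.range n).map fun o => cpr cap (H.map (wgb n (c ++ [o])))).sum ≤
      n * cpr cap (H.map (wgb n c)) := by
  obtain ⟨R, O, -, h2, h3⟩ := AVB_prod n c H hH
  rw [AVB_range, AVB_cpr hCPR n cap hn hcap]
  have h4 : ∀ o ∈ Finset.range n, cpr cap (H.map (wgb n (c ++ [o]))) =
      min (R * (if o ∈ O then n else 1)) cap := by
    intro o _
    rw [AVB_cpr hCPR n cap hn hcap, h2 o]
  rw [Finset.sum_congr rfl h4, h3]
  have h5 : ∑ o ∈ Finset.range n, min (R * (if o ∈ O then n else 1)) cap ≤ n * cap := by
    have := Finset.sum_le_card_nsmul (Finset.range n)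
      (fun o => min (R * (if o ∈ O then n else 1)) cap) cap (fun o _ => min_le_right _ _)
    rwa [Finset.card_range, smul_eq_mul] at this
  have h6 : ∑ o ∈ Finset.range n, min (R * (if o ∈ O then n else 1)) cap ≤
      n * (R * 2 ^ O.card) := by
    calc ∑ o ∈ Finset.range n, min (R * (if o ∈ O then n else 1)) cap
        ≤ ∑ o ∈ Finset.range n, R * (1 + if o ∈ O then n else 0) := by
          apply Finset.sum_le_sum
          intro o _
          refine le_trans (min_le_left _ _) (Nat.mul_le_mul_left R ?_)
          split_ifs <;> omega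
      _ = R * (n + ∑ o ∈ Finset.range n, if o ∈ O then n else 0) := by
          rw [← Finset.mul_sum, Finset.sum_add_distrib, Finset.sum_const, Finset.card_range,
            smul_eq_mul, mul_one]
      _ ≤ R * (n + O.card * n) := by
          apply Nat.mul_le_mul_left
          apply Nat.add_le_add_left
          rw [Finset.sum_ite_mem, Finset.sum_const, smul_eq_mul]
          exact Nat.mul_le_mul_right _ (Finset.card_le_card Finset.inter_subset_right)
      _ = (n * R) * (O.card + 1) := by ring
      _ ≤ (n * R) * 2 ^ O.card := Nat.mul_le_mul_left _ Nat.lt_two_pow_self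
      _ = n * (R * 2 ^ O.card) := by ring
  rcases le_total (R * 2 ^ O.card) cap with h7 | h7
  · rw [min_eq_left h7]
    exact h6
  · rw [min_eq_right h7]
    exact h5

theorem p_AVB (hCPR : Stmt_CPR) : Stmt_AVB := by
  intro n cap Hs c hn hcap hHs
  induction Hs with
  | nil =>
    unfold ptb
    simp
  | cons H Hs ih =>
    have h1 := AVB_single hCPR n cap hn hcap c H (hHs H List.mem_cons_self)
    have h2 := ih fun H' hH' => hHs H' (List.mem_cons_of_mem _ hH')
    have e : ∀ c : List ℕ, ptb n cap (H :: Hs) c = cpr cap (H.map (wgb n c)) + ptb n cap Hs c := by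
      intro c
      unfold ptb
      rw [List.map_cons, List.sum_cons]
    rw [e c, mul_add]
    have e2 : ((List.range n).map fun o => ptb n cap (H :: Hs) (c ++ [o])).sum =
        ((List.range n).map fun o => cpr cap (H.map (wgb n (c ++ [o])))).sum +
        ((List.range n).map fun o => ptb n cap Hs (c ++ [o])).sum := by
      rw [AVB_range, AVB_range, AVB_range, ← Finset.sum_add_distrib]
      exact Finset.sum_congr rfl fun o _ => e _
    rw [e2]
    exact Nat.add_le_add h1 h2

end Pool.EV
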