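import Pool.Agent.Work.MP_cb380d_ev.InterfaceA

/-! Block BIT (helper78). -/

set_option autoImplicit false

open Pool.IC Pool.GL Pool.TL Polynomial

namespace Pool.EV

theorem BIT_succ (g : Str → Str) (esc : Str × List ℕ × ℕ × ℕ → Str)
    (ch : ℕ → Str → Str → ℕ → Bool) (ν K n : ℕ) :
    rn g esc ch ν K (n + 1) = stp g esc ch ν K (rn g esc ch ν K n) n := by
  simp only [rn, List.range_succ, List.foldl_append, List.foldl_cons, List.foldl_nil]

theorem BIT_chE (g : Str → Str) (w : List (Option Bool)) (l : ℕ) (z z' : Str) (b : ℕ) (c : Bool)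
    (h : w[l]? = some (some c)) : chE g w l z z' b = c := by
  simp only [chE, List.getD_eq_getElem?_getD, h, Option.getD_some]

theorem p_BIT : Stmt_BIT := by
  intro g esc w ν K n
  induction n with
  | zero =>
    refine ⟨rfl, ?_⟩
    intro l c hl
    omega
  | succ n ih =>
    obtain ⟨hlen, hval⟩ := ih
    rw [BIT_succ]
    refine ⟨?_, ?_⟩
    · simp only [stp, List.length_append, List.length_cons, List.length_nil, hlen]
    · intro l c hl hw
      simp only [stp]
      rcases Nat.lt_succ_iff_lt_or_eq.1 hl with h | h
      · rw [List.getElem?_append_left (by rw [hlen]; exact h)]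
        exact hval l c h hw
      · subst h
        rw [List.getElem?_append_right (by rw [hlen])]
        rw [hlen, Nat.sub_self]
        simp only [List.getElem?_cons_zero, Option.some.injEq]
        exact BIT_chE g w l _ _ _ c hw

end Pool.EV
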