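import Pool.Agent.Work.MP_cb380d_ev.InterfaceF

/-!
# Block BTC: the bits
-/

open Pool.IC Pool.GL Pool.TL Polynomial

namespace Pool.EV

theorem BTC_prod (t N : ℕ) (b : Str) (hb : b.length = N) : ∀ f : List Lits, (∀ T ∈ f, TOK N t T) →
    (f.map fun T => 2 ^ (t + 1) - wga t b T).prod * 2 ^ (f.filter fun T => tev b T).length =
      (2 ^ (t + 1)) ^ f.length := by
  intro f
  induction f with
  | nil => intro _; simp
  | cons T f ih =>
    intro hf
    have h1 := ih (fun T hT => hf T (List.mem_cons_of_mem _ hT))
    have hT := hf T List.mem_cons_self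
    rw [List.map_cons, List.prod_cons, List.length_cons, pow_succ (2 ^ (t + 1)) f.length]
    by_cases hv : tev b T = true
    · have hw : wga t b T = 2 ^ t := by
        unfold wga
        rw [if_neg, List.length_eq_zero_iff.2, Nat.sub_zero]
        · rw [List.filter_eq_nil_iff]
          intro l hl
          have := hT.2.2 l hl
          simp only [decide_eq_true_eq, not_le]
          omega
        · rw [List.any_eq_true]
          rintro ⟨l, hl, hl2⟩
          unfold tev at hv
          rw [List.all_eq_true] at hv
          have := hv l hl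
          simp only [Bool.and_eq_true, decide_eq_true_eq] at hl2 this
          exact hl2.2 this
      rw [hw, List.filter_cons_of_pos (by exact hv), List.length_cons]
      have : 2 ^ (t + 1) - 2 ^ t = 2 ^ t := by
        rw [pow_succ]; omega
      rw [this, ← h1]
      ring
    · have hw : wga t b T = 0 := by
        unfold wga
        rw [if_pos]
        rw [List.any_eq_true]
        unfold tev at hv
        rw [List.all_eq_true] at hv
        push Not at hv
        obtain ⟨l, hl, hl2⟩ := hv
        refine ⟨l, hl, ?_⟩
        have := hT.2.2 l hl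
        have hl3 : ¬ (b.getD l.1 false = l.2) := by simpa using hl2
        simp only [Bool.and_eq_true, decide_eq_true_eq]
        exact ⟨by omega, hl3⟩
      rw [hw, List.filter_cons_of_neg (by exact hv), Nat.sub_zero, ← h1]
      ring

theorem BTC_zero (t : ℕ) (T : Lits) : 1 ≤ wga t [] T := by
  unfold wga
  rw [if_neg]
  · exact Nat.one_le_two_pow
  · simp

theorem p_BTC (hCPR : Stmt_CPR) (hGRC : Stmt_GRC) (hAVA : Stmt_AVA) : Stmt_BTC := by
  intro t cap n h A fs hfs hcap hbig
  have hcp : ∀ (b : Str), ∀ f ∈ fs, cpr cap (f.map fun T => 2 ^ (t + 1) - wga t b T) =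
      (f.map fun T => 2 ^ (t + 1) - wga t b T).prod := by
    intro b f hf
    refine hCPR.2 cap (2 ^ (t + 1)) _ Nat.one_le_two_pow ?_ ?_
    · intro x hx
      rw [List.mem_map] at hx
      obtain ⟨T, -, rfl⟩ := hx
      exact Nat.sub_le _ _
    · rw [List.length_map, (hfs f hf).1]
      exact hcap
  obtain ⟨h1, h2, h3⟩ := hGRC 2 (n * n) (fun c => pta t cap fs (tob c)) two_pos
  have hlen : (bts t cap n fs).length = n * n := by
    unfold bts tob
    rw [List.length_map]
    exact h1
  refine ⟨hlen, ?_⟩
  have h4 : pta t cap fs (bts t cap n fs) ≤ pta t cap fs [] := by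
    refine h3 ?_
    intro c hc hc2
    have h5 := hAVA t cap fs (tob c) (fun f hf => ⟨(hfs f hf).2.1, by rw [(hfs f hf).1]; exact hcap,
      fun T hT => ⟨((hfs f hf).2.2 T hT).1, ((hfs f hf).2.2 T hT).2.1⟩⟩)
    have h6 : ((List.range 2).map fun o => pta t cap fs (tob (c ++ [o]))).sum =
        pta t cap fs (tob c ++ [false]) + pta t cap fs (tob c ++ [true]) := by
      have h7 : tob (c ++ [0]) = tob c ++ [false] := by
        unfold tob; simp
      have h8 : tob (c ++ [1]) = tob c ++ [true] := by
        unfold tob; simp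
      rw [← h7, ← h8]
      rfl
    exact h6.trans_le h5
  have h9 : pta t cap fs [] ≤ fs.length * (2 ^ (t + 1) - 1) ^ A := by
    unfold pta
    have : ∀ x ∈ (fs.map fun f => cpr cap (f.map fun T => 2 ^ (t + 1) - wga t [] T)),
        x ≤ (2 ^ (t + 1) - 1) ^ A := by
      intro x hx
      rw [List.mem_map] at hx
      obtain ⟨f, hf, rfl⟩ := hx
      rw [hcp [] f hf]
      have h10 := List.prod_le_pow_card (f.map fun T => 2 ^ (t + 1) - wga t [] T) (2 ^ (t + 1) - 1) ?_
      · rw [List.length_map, (hfs f hf).1] at h10
        exact h10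
      · intro y hy
        rw [List.mem_map] at hy
        obtain ⟨T, -, rfl⟩ := hy
        have := BTC_zero t T
        omega
    have h11 := List.sum_le_card_nsmul _ _ this
    rw [List.length_map, smul_eq_mul] at h11
    exact h11
  intro f hf
  have h12 : cpr cap (f.map fun T => 2 ^ (t + 1) - wga t (bts t cap n fs) T) ≤
      pta t cap fs (bts t cap n fs) := by
    unfold pta
    exact List.single_le_sum (fun x _ => Nat.zero_le x) _ (List.mem_map.2 ⟨f, hf, rfl⟩)
  rw [hcp _ f hf] at h12
  have h13 := BTC_prod t (n * n) (bts t cap n fs) hlen f (hfs f hf).2.2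
  rw [(hfs f hf).1] at h13
  set P := (f.map fun T => 2 ^ (t + 1) - wga t (bts t cap n fs) T).prod with hP
  have h14 : P * 2 ^ h ≤ P * 2 ^ (f.filter fun T => tev (bts t cap n fs) T).length := by
    rw [h13]
    exact (Nat.mul_le_mul_right _ (h12.trans (h4.trans h9))).trans hbig
  have hPpos : 0 < P := by
    rcases Nat.eq_zero_or_pos P with h0 | h0
    · rw [h0, zero_mul] at h13
      have : 0 < (2 ^ (t + 1)) ^ A := by positivity
      omega
    · exact h0
  have h15 := Nat.le_of_mul_le_mul_left h14 hPpos
  exact (Nat.pow_le_pow_iff_right (by norm_num)).1 h15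

end Pool.EV
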