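import Pool.Agent.Work.MP_cb380d_ev.InterfaceB

/-! # Block CBA (helper21) -/

open Pool.IC Pool.GL Pool.TL Polynomial

namespace Pool.EV

theorem CBA_bck_len (f f' g g' : Str → Str) (hf : ∀ x, x.length < (f x).length)
    (hg : ∀ y, y.length < (g y).length) (s s' : Bool × Str) (h : bck f f' g g' s = some s') :
    s'.2.length < s.2.length := by
  unfold bck at h
  split_ifs at h with h1 h2 h2
  · have h3 := Option.some.inj h
    rw [← h3]
    have h4 := hg (g' s.2)
    rw [h2] at h4
    exact h4
  · have h3 := Option.some.inj h
    rw [← h3]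
    have h4 := hf (f' s.2)
    rw [h2] at h4
    exact h4

theorem CBA_side (f f' g g' : Str → Str) (hf : ∀ x, x.length < (f x).length)
    (hg : ∀ y, y.length < (g y).length) :
    ∀ (k : ℕ) (s : Bool × Str), s.2.length < k → ∀ n m : ℕ, s.2.length + 1 ≤ n →
      s.2.length + 1 ≤ m → side f f' g g' n s = side f f' g g' m s := by
  intro k
  induction k with
  | zero => intro s hs; omega
  | succ k ih =>
    intro s hs n m hn hm
    obtain ⟨n, rfl⟩ : ∃ n', n = n' + 1 := ⟨n - 1, by omega⟩
    obtain ⟨m, rfl⟩ : ∃ m', m = m' + 1 := ⟨m - 1, by omega⟩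
    unfold side
    rcases hb : bck f f' g g' s with _ | s'
    · rfl
    · have hl := CBA_bck_len f f' g g' hf hg s s' hb
      exact ih s' (by omega) n m (by omega) (by omega)

theorem CBA_none (f f' g g' : Str → Str) (n : ℕ) (s : Bool × Str)
    (h : bck f f' g g' s = none) : side f f' g g' (n + 1) s = s.1 := by
  rw [side, h]

theorem CBA_some (f f' g g' : Str → Str) (hf : ∀ x, x.length < (f x).length)
    (hg : ∀ y, y.length < (g y).length) (s s' : Bool × Str) (h : bck f f' g g' s = some s') :
    side f f' g g' (s.2.length + 1) s = side f f' g g' (s'.2.length + 1) s' := by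
  have h1 : side f f' g g' (s.2.length + 1) s = side f f' g g' s.2.length s' := by
    rw [side, h]
  rw [h1]
  have hl := CBA_bck_len f f' g g' hf hg s s' h
  exact CBA_side f f' g g' hf hg _ s' (Nat.lt_succ_self _) _ _ (by omega) le_rfl

theorem p_CBA : Stmt_CBA := by
  intro A A' f f' g g' hf' hg' hf hg hA hA'
  have hF : ∀ x, side f f' g g' ((f x).length + 1) (false, f x) =
      side f f' g g' (x.length + 1) (true, x) := by
    intro x
    refine CBA_some f f' g g' hf hg (false, f x) (true, x) ?_
    simp [bck, hf']
  have hG : ∀ y, side f f' g g' ((g y).length + 1) (true, g y) =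
      side f f' g g' (y.length + 1) (false, y) := by
    intro y
    refine CBA_some f f' g g' hf hg (true, g y) (false, y) ?_
    simp [bck, hg']
  have hT : ∀ x, side f f' g g' (x.length + 1) (true, x) ≠ true → g (g' x) = x := by
    intro x h
    by_contra hne
    apply h
    rw [CBA_none]
    simp [bck, hne]
  have hN : ∀ y, side f f' g g' (y.length + 1) (false, y) = true → f (f' y) = y := by
    intro y h
    by_contra hne
    rw [CBA_none] at h
    · simp at h
    · simp [bck, hne]
  refine ⟨?_, ?_, ?_⟩
  · intro x
    by_cases h : side f f' g g' (x.length + 1) (true, x) = true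
    · have h1 : cbm f f' g g' x = f x := by unfold cbm; rw [if_pos h]
      rw [h1]
      unfold cbi
      rw [hF, if_pos h, hf']
    · have h1 : cbm f f' g g' x = g' x := by unfold cbm; rw [if_neg h]
      have h2 := hT x h
      have h3 := hG (g' x)
      rw [h2] at h3
      rw [h1]
      unfold cbi
      rw [← h3, if_neg h, h2]
  · intro y
    by_cases h : side f f' g g' (y.length + 1) (false, y) = true
    · have h1 : cbi f f' g g' y = f' y := by unfold cbi; rw [if_pos h]
      have h2 := hN y h
      have h3 := hF (f' y)
      rw [h2] at h3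
      rw [h1]
      unfold cbm
      rw [← h3, if_pos h, h2]
    · have h1 : cbi f f' g g' y = g y := by unfold cbi; rw [if_neg h]
      rw [h1]
      unfold cbm
      rw [hG, if_neg h, hg']
  · intro x
    by_cases h : side f f' g g' (x.length + 1) (true, x) = true
    · have h1 : cbm f f' g g' x = f x := by unfold cbm; rw [if_pos h]
      rw [h1]
      exact hA x
    · have h1 : cbm f f' g g' x = g' x := by unfold cbm; rw [if_neg h]
      have h2 := hT x h
      have h3 := hA' (g' x)
      rw [h2] at h3
      rw [h1]
      exact h3.symm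

end Pool.EV

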