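import Pool.Agent.Work.MP_cb380d_ev.InterfaceC

open Pool.IC Pool.GL Pool.TL Polynomial

namespace Pool.EV

theorem CBF_add_length (z u : Str) : (add z u).length ≤ z.length := by
  simp [add]

theorem CBF_fold_length (U : List Str) (s : Str) (l : List ℕ) (z : Str) :
    (l.foldl (fun z j => if s.getD j false then add z (U.getD j []) else z) z).length ≤
      z.length := by
  induction l generalizing z with
  | nil => simp
  | cons j l ih =>
    rw [List.foldl_cons]
    refine (ih _).trans ?_
    split_ifs
    · exact CBF_add_length _ _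
    · exact le_rfl

/-- CBF: the linear combination is computed in polynomial time. -/
theorem p_CBF (hPLF : Stmt_PLF) : Stmt_CBF := by
  intro B
  have hadd : PolyF B (fun p : Str × Str => add p.1 p.2) := (hPLF B).2.2.2.2.2.2.2.2.1
  have hstep : PolyF B (fun p : (ℕ × List Str × Str) × Str × ℕ =>
      if p.1.2.2.getD p.2.2 false then add p.2.1 (p.1.2.1.getD p.2.2 []) else p.2.1) := by
    have h1 : PolyF B (fun p : (ℕ × List Str × Str) × Str × ℕ =>
        add p.2.1 (p.1.2.1.getD p.2.2 [])) :=
      PolyF.comp (f := fun p : Str × Str => add p.1 p.2)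
        (g := fun p : (ℕ × List Str × Str) × Str × ℕ => (p.2.1, p.1.2.1.getD p.2.2 []))
        hadd (by fun_prop)
    have h2 : PolyF B (fun p : (ℕ × List Str × Str) × Str × ℕ =>
        bif p.1.2.2.getD p.2.2 false then add p.2.1 (p.1.2.1.getD p.2.2 []) else p.2.1) :=
      PolyF.cond (by fun_prop) h1 (by fun_prop)
    refine h2.congrF fun p => ?_
    cases p.1.2.2.getD p.2.2 false <;> simp
  unfold cmb
  refine PolyF.foldl (l := fun p : ℕ × List Str × Str => List.range p.2.1.length)
    (g := fun p => List.replicate p.1 false)
    (h := fun p z j => if p.2.2.getD j false then add z (p.2.1.getD j []) else z)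
    (by fun_prop) (by fun_prop) hstep (4 * X) ?_
  intro p j _
  have h1 := CBF_fold_length p.2.1 p.2.2 ((List.range p.2.1.length).take j)
    (List.replicate p.1 false)
  rw [List.length_replicate] at h1
  refine (sz_str _).trans_le ((Nat.mul_le_mul_left 4 h1).trans ?_)
  simp only [eval_mul, eval_ofNat, eval_X, sz_pair, sz_nat]
  omega

end Pool.EV
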