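import Pool.Agent.Work.MP_cb380d_ev.InterfaceB

/-! Block CBP (helper78). -/

set_option autoImplicit false

open Pool.IC Pool.GL Pool.TL Polynomial

namespace Pool.EV

/-- One backward step, with a total function. -/
def CBP_st (f f' g g' : Str → Str) (s : Bool × Str) : Bool × Str :=
  (bck f f' g g' s).getD s

theorem CBP_side (f f' g g' : Str → Str) : ∀ (n : ℕ) (s : Bool × Str),
    side f f' g g' n s = ((CBP_st f f' g g')^[n] s).1 := by
  intro n
  induction n with
  | zero => intro s; rfl
  | succ n ih =>
    intro s
    rw [Function.iterate_succ_apply]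
    unfold side
    cases h : bck f f' g g' s with
    | none =>
      have h1 : CBP_st f f' g g' s = s := by simp [CBP_st, h]
      have h2 : (CBP_st f f' g g')^[n] s = s := Function.iterate_fixed h1 n
      simp [h1, h2]
    | some s' =>
      have h1 : CBP_st f f' g g' s = s' := by simp [CBP_st, h]
      simp [h1, ih]

theorem CBP_st_eq (f f' g g' : Str → Str) (s : Bool × Str) : CBP_st f f' g g' s =
    if s.1 = true then (if g (g' s.2) = s.2 then (false, g' s.2) else s)
    else (if f (f' s.2) = s.2 then (true, f' s.2) else s) := by
  unfold CBP_st bck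
  split_ifs <;> rfl

theorem CBP_poly (B : Set Str) (f f' g g' : Str → Str) (hf : PolyF B f) (hf' : PolyF B f')
    (hg : PolyF B g) (hg' : PolyF B g') : PolyF B (CBP_st f f' g g') := by
  have h : PolyF B (fun s : Bool × Str =>
      if s.1 = true then (if g (g' s.2) = s.2 then (false, g' s.2) else s)
      else (if f (f' s.2) = s.2 then (true, f' s.2) else s)) := by
    fun_prop
  exact h.congrF fun s => (CBP_st_eq f f' g g' s).symm

theorem CBP_sz (f f' g g' : Str → Str) (hf : ∀ x, x.length < (f x).length)
    (hg : ∀ y, y.length < (g y).length) (s : Bool × Str) : sz (CBP_st f f' g g' s) ≤ sz s := by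
  rw [CBP_st_eq]
  obtain ⟨b, x⟩ := s
  cases b
  · simp only [Bool.false_eq_true, if_false]
    split_ifs with h
    · have := hf (f' x)
      rw [h] at this
      simp only [sz_pair, sz_bool, sz_str]
      omega
    · exact le_rfl
  · simp only [if_true]
    split_ifs with h
    · have := hg (g' x)
      rw [h] at this
      simp only [sz_pair, sz_bool, sz_str]
      omega
    · exact le_rfl

theorem CBP_iter (B : Set Str) (f f' g g' : Str → Str) (hf : PolyF B f) (hf' : PolyF B f')
    (hg : PolyF B g) (hg' : PolyF B g') (lf : ∀ x, x.length < (f x).length)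
    (lg : ∀ y, y.length < (g y).length) (b : Bool) :
    PolyF B (fun x : Str => side f f' g g' (x.length + 1) (b, x)) := by
  have hst := CBP_poly B f f' g g' hf hf' hg hg'
  have h1 : PolyF B (fun p : Str × (Bool × Str) => CBP_st f f' g g' p.2) :=
    PolyF.comp (f := CBP_st f f' g g') (g := fun p : Str × (Bool × Str) => p.2) hst (by fun_prop)
  have h2 := PolyF.iterate_add (B := B) (n := fun x : Str => x.length + 1)
    (g := fun x : Str => (b, x)) (h := fun (_ : Str) s => CBP_st f f' g g' s)
    (by fun_prop) (by fun_prop) h1 0 (fun a s => by
      simpa using CBP_sz f f' g g' lf lg s)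
  refine (PolyF.fst h2).congrF fun x => ?_
  rw [CBP_side]

theorem p_CBP : Stmt_CBP := by
  intro B f f' g g' hf hf' hg hg' lf lg
  constructor
  · have h := CBP_iter B f f' g g' hf hf' hg hg' lf lg true
    have h2 : PolyF B (fun x : Str =>
        if side f f' g g' (x.length + 1) (true, x) = true then f x else g' x) := by
      refine PolyF.ite' (c := fun x : Str => side f f' g g' (x.length + 1) (true, x) = true)
        ?_ hf hg'
      exact PolyF.eq h (PolyF.const true)
    exact h2
  · have h := CBP_iter B f f' g g' hf hf' hg hg' lf lg false
    have h2 : PolyF B (fun x : Str =>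
        if side f f' g g' (x.length + 1) (false, x) = true then f' x else g x) := by
      refine PolyF.ite' (c := fun x : Str => side f f' g g' (x.length + 1) (false, x) = true)
        ?_ hf' hg
      exact PolyF.eq h (PolyF.const true)
    exact h2

end Pool.EV
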