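import Pool.Agent.Work.MP_cb380d_ev.InterfaceF

/-! # Block CCC: all stages for all layers of the circuit -/

open Pool.IC Pool.GL Pool.TL Polynomial

namespace Pool.EV

theorem CCC_nmv_add (W W' n : ℕ) : nmv (W + W') n = nmv W (nmv W' n) := by
  unfold nmv
  rw [← pow_mul, pow_add, mul_comm]

theorem CCC_le_nmv (W n : ℕ) : n ≤ nmv W n := by
  unfold nmv
  exact Nat.le_self_pow (by positivity) n

theorem p_CCC (hPHC : Stmt_PHC) (hLYC : Stmt_LYC) (hDNC : Stmt_DNC) : Stmt_CCC := by
  obtain ⟨hP1, -, hP3, hP4, hP5⟩ := hPHC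
  intro D
  induction D with
  | zero =>
    intro t r
    refine ⟨[], t, 1, le_rfl, ?_⟩
    intro n hn G C hC hL hG
    have hC' : C = [] := List.length_eq_zero_iff.mp hC
    subst hC'
    have h0 : nmv (tst []) n = n := by simp [nmv, tst]
    rw [h0] at hG
    exact ⟨trivial, rfl, hG⟩
  | succ D ih =>
    intro t r
    obtain ⟨ps, t1, a1, ha1, hS⟩ := hLYC t r
    obtain ⟨pss, t', a2, ha2, hI⟩ := ih t1 (r * 2 ^ ps.length)
    refine ⟨(t, ps) :: pss, t', max a1 a2, le_trans ha1 (le_max_left _ _), ?_⟩
    intro n hn G C hC hL hG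
    have hn1 : a1 ≤ n := le_trans (le_max_left _ _) hn
    have hn2 : a2 ≤ n := le_trans (le_max_right _ _) hn
    obtain ⟨L, C', rfl⟩ : ∃ L C', C = L :: C' := by
      cases C with
      | nil => simp at hC
      | cons L C' => exact ⟨L, C', rfl⟩
    have hCl : C'.length = D := by simpa using hC
    have htst : tst ((t, ps) :: pss) = ps.length + tst pss := by simp [tst]
    have hn0 : nmv (tst ((t, ps) :: pss)) n = nmv ps.length (nmv (tst pss) n) := by
      rw [htst, CCC_nmv_add]
    rw [hn0] at hL hG
    set n1 := nmv (tst pss) n with hn1d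
    set Fs := dnl t (nmv ps.length n1) G L with hFs
    have hFl : Fs.length = L.length := by simp [hFs, dnl]
    obtain ⟨hD1, hD2⟩ := hDNC t (nmv ps.length n1) G L hG
    obtain ⟨hS1, hS2⟩ := hS n1 (le_trans hn1 (CCC_le_nmv _ _)) Fs
      (by rw [hFl]; exact hL L (by simp)) hD1
    set kbs := sts ps n1 Fs with hkbs
    have hkl : kbs.length = ps.length := hP5 ps n1 Fs
    set G' : Str → List Bool := fun u => lay L (G (phi kbs u)) with hG'
    have hG'e : ∀ u : Str, u.length = n1 → G' u = Fs.map (dev (phi kbs u)) := by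
      intro u hu
      have hl : (phi kbs u).length = nmv ps.length n1 := by rw [hP1, hkl, hu]
      exact (hD2 (phi kbs u) hl).symm
    have hJ : ∀ q, Jun t1 n1 fun u => (G' u).getD q false := by
      intro q
      by_cases hq : q < Fs.length
      · obtain ⟨J, hJc, hJ⟩ := hS2 Fs[q] (List.getElem_mem hq)
        refine ⟨J, hJc, fun x y hx hy hxy => ?_⟩
        have := hJ x y hx hy hxy
        simp only [hG'e x hx, hG'e y hy]
        rw [List.getD_eq_getElem _ _ (by simpa using hq),
          List.getD_eq_getElem _ _ (by simpa using hq), List.getElem_map, List.getElem_map]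
        exact this
      · refine ⟨∅, by simp, fun x y hx hy _ => ?_⟩
        simp only [hG'e x hx, hG'e y hy]
        rw [List.getD_eq_default _ _ (by simpa using hq),
          List.getD_eq_default _ _ (by simpa using hq)]
    obtain ⟨hI1, hI2, hI3⟩ := hI n hn2 G' C' hCl (by
      intro M hM
      refine le_trans (hL M (by simp [hM])) (le_of_eq ?_)
      show nmv ps.length n1 ^ r = n1 ^ (r * 2 ^ ps.length)
      unfold nmv
      rw [← pow_mul, mul_comm]) hJ
    have hcct : cct ((t, ps) :: pss) n G (L :: C') = kbs ++ cct pss n G' C' := rfl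
    rw [hcct]
    refine ⟨?_, ?_, ?_⟩
    · apply hP4
      · rw [hI2]; exact hS1
      · exact hI1
    · rw [List.length_append, hkl, hI2, htst]
    · intro q
      obtain ⟨J, hJc, hJ⟩ := hI3 q
      refine ⟨J, hJc, fun x y hx hy hxy => ?_⟩
      have := hJ x y hx hy hxy
      have hc : ∀ u : Str, circ (L :: C') (G (phi (kbs ++ cct pss n G' C') u)) =
          circ C' (G' (phi (cct pss n G' C') u)) := by
        intro u
        rw [hP3]
        rfl
      simp only [hc]
      exact this

end Pool.EV
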