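import Pool.Agent.Work.MP_cb380d_ev.InterfaceG

/-!
# Block CCP: all stages
-/

open Pool.IC Pool.GL Pool.TL Polynomial

namespace Pool.EV

theorem p_CCP (hTFP : Stmt_TFP) (hSSP : Stmt_SSP) (hRLP : Stmt_RLP) (hPHC : Stmt_PHC) :
    Stmt_CCP := by
  intro B pss
  obtain ⟨-, -, -, -, -, hlay, -, -⟩ := hTFP B
  obtain ⟨hnmv, hsts, hphi⟩ := hSSP B
  obtain ⟨-, -, -, -, hlen⟩ := hPHC
  induction pss with
  | nil =>
    intro γ _ G _
    show PolyF B (fun _ : γ × ℕ × List (List Lits) => ([] : List (List ℕ × Str)))
    fun_prop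
  | cons q pss ih =>
    intro γ _ G hG
    have hN : PolyF B (fun p : γ × ℕ × List (List Lits) => nmv (tst pss) p.2.1) := by
      have := hnmv (tst pss)
      fun_prop
    have hN2 : PolyF B (fun p : γ × ℕ × List (List Lits) =>
        nmv q.2.length (nmv (tst pss) p.2.1)) := by
      have := hnmv q.2.length
      fun_prop
    have hL : PolyF B (fun p : γ × ℕ × List (List Lits) => p.2.2.headD []) := by fun_prop
    have hD : PolyF B (fun p : γ × ℕ × List (List Lits) =>
        dnl q.1 (nmv q.2.length (nmv (tst pss) p.2.1)) (G p.1) (p.2.2.headD [])) := by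
      have h1 := hRLP B q.1 γ G hG
      exact h1.comp (g := fun p : γ × ℕ × List (List Lits) =>
        (p.1, nmv q.2.length (nmv (tst pss) p.2.1), p.2.2.headD [])) (by fun_prop)
    have hK : PolyF B (fun p : γ × ℕ × List (List Lits) => sts q.2 (nmv (tst pss) p.2.1)
        (dnl q.1 (nmv q.2.length (nmv (tst pss) p.2.1)) (G p.1) (p.2.2.headD []))) := by
      have h1 := hsts q.2
      exact h1.comp (g := fun p : γ × ℕ × List (List Lits) => (nmv (tst pss) p.2.1,
        dnl q.1 (nmv q.2.length (nmv (tst pss) p.2.1)) (G p.1) (p.2.2.headD []))) (by fun_prop)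
    -- the next values
    have hG' : PolyF B (fun p : (γ × List Lits × List (List ℕ × Str)) × Str =>
        lay p.1.2.1 (G p.1.1 (phi (p.1.2.2.take q.2.length) p.2))) := by
      have h1 : PolyF B (fun p : (γ × List Lits × List (List ℕ × Str)) × Str =>
          phi (p.1.2.2.take q.2.length) p.2) :=
        (hphi q.2.length).comp
          (g := fun p : (γ × List Lits × List (List ℕ × Str)) × Str => (p.1.2.2, p.2))
          (by fun_prop)
      have h2 : PolyF B (fun p : (γ × List Lits × List (List ℕ × Str)) × Str =>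
          G p.1.1 (phi (p.1.2.2.take q.2.length) p.2)) :=
        hG.comp (g := fun p : (γ × List Lits × List (List ℕ × Str)) × Str =>
          (p.1.1, phi (p.1.2.2.take q.2.length) p.2)) (by fun_prop)
      exact hlay.comp (g := fun p : (γ × List Lits × List (List ℕ × Str)) × Str =>
          (p.1.2.1, G p.1.1 (phi (p.1.2.2.take q.2.length) p.2))) (by fun_prop)
    have hI := ih (γ × List Lits × List (List ℕ × Str))
      (fun c u => lay c.2.1 (G c.1 (phi (c.2.2.take q.2.length) u))) hG'
    have hT : PolyF B (fun p : γ × ℕ × List (List Lits) => cct pss p.2.1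
        (fun u => lay (p.2.2.headD []) (G p.1 (phi ((sts q.2 (nmv (tst pss) p.2.1)
          (dnl q.1 (nmv q.2.length (nmv (tst pss) p.2.1)) (G p.1) (p.2.2.headD []))).take
            q.2.length) u))) p.2.2.tail) :=
      hI.comp (g := fun p : γ × ℕ × List (List Lits) =>
        ((p.1, p.2.2.headD [], sts q.2 (nmv (tst pss) p.2.1)
          (dnl q.1 (nmv q.2.length (nmv (tst pss) p.2.1)) (G p.1) (p.2.2.headD []))),
          p.2.1, p.2.2.tail)) (by fun_prop)
    have e : (fun p : γ × ℕ × List (List Lits) => cct (q :: pss) p.2.1 (G p.1) p.2.2) =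
        fun p : γ × ℕ × List (List Lits) => sts q.2 (nmv (tst pss) p.2.1)
          (dnl q.1 (nmv q.2.length (nmv (tst pss) p.2.1)) (G p.1) (p.2.2.headD [])) ++
          cct pss p.2.1 (fun u => lay (p.2.2.headD []) (G p.1 (phi ((sts q.2 (nmv (tst pss) p.2.1)
            (dnl q.1 (nmv q.2.length (nmv (tst pss) p.2.1)) (G p.1) (p.2.2.headD []))).take
              q.2.length) u))) p.2.2.tail := by
      funext p
      rw [List.take_of_length_le (hlen _ _ _).le]
      rfl
    rw [e]
    fun_prop

end Pool.EV
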