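import Pool.Agent.Work.MP_cb380d_ev.InterfaceD

/-! Block CEL (helper60): cells. -/

set_option autoImplicit false

open Pool.IC Pool.GL Pool.TL Polynomial

namespace Pool.EV

theorem p_CEL : Stmt_CEL := by
  intro p j
  induction j with
  | zero =>
    refine ⟨by simp [cells], by simp [cells], fun c => ?_⟩
    constructor
    · intro h
      have h' : c = [] := by simpa [cells] using h
      subst h'
      exact ⟨rfl, fun a ha => by simp at ha⟩
    · rintro ⟨h, -⟩
      rw [List.length_eq_zero_iff] at h
      subst h
      simp [cells]
  | succ j ih =>
    obtain ⟨h1, h2, h3⟩ := ih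
    refine ⟨?_, ?_, ?_⟩
    · simp only [cells, List.length_flatMap, List.length_map, h1, List.map_const',
        List.length_range, List.sum_replicate, smul_eq_mul]
      rw [pow_succ, mul_comm]
    · simp only [cells]
      rw [List.nodup_flatMap]
      refine ⟨fun a _ => h2.map fun c c' h => by simpa using h, ?_⟩
      refine (List.nodup_range (n := p - 1)).imp ?_
      intro a b hab c hc hc'
      simp only [List.mem_map] at hc hc'
      obtain ⟨u, -, rfl⟩ := hc
      obtain ⟨v, -, hv⟩ := hc'
      simp only [List.cons.injEq, Nat.add_right_cancel_iff] at hv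
      exact hab hv.1.symm
    · intro c
      simp only [cells, List.mem_flatMap, List.mem_range, List.mem_map]
      constructor
      · rintro ⟨a, ha, u, hu, rfl⟩
        obtain ⟨h4, h5⟩ := (h3 u).1 hu
        refine ⟨by simp [h4], ?_⟩
        intro b hb
        rcases List.mem_cons.1 hb with rfl | hb
        · omega
        · exact h5 b hb
      · rintro ⟨h4, h5⟩
        cases c with
        | nil => simp at h4
        | cons b u =>
          have h6 := h5 b List.mem_cons_self
          refine ⟨b - 1, by omega, u, (h3 u).2 ⟨by simpa using h4, fun a ha =>
            h5 a (List.mem_cons_of_mem _ ha)⟩, ?_⟩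
          rw [show b - 1 + 1 = b by omega]

end Pool.EV
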