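import Pool.Agent.Work.MP_cb380d_ev.InterfaceG

/-!
# MP_cb380d_lc, CircuitReductions, block CER
-/

open Pool.IC Pool.GL Pool.TL Polynomial

namespace Pool.EV

theorem p_CER (hTFP : Stmt_TFP) (hCNT : Stmt_CNT) (hPSC : Stmt_PSC) (hPSP : Stmt_PSP)
    (hSBD : Stmt_SBD) : Stmt_CER := by
  rintro B g ⟨m, D, s, crc, sets, hm, hcrc, hsets, hs, hD, hg⟩
  obtain ⟨p, hp⟩ := hcrc.size
  obtain ⟨pss, t', a, hcon, hlen, hjun⟩ := hPSC D crc p hD (by
    intro N L hL
    have h1 := sz_le_of_mem hL
    have h2 := length_le_sz L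
    have h3 := hp N
    rw [sz_nat] at h3
    omega)
  have hφ : PolyF B (psi pss a crc) := (hPSP B).2 pss a crc hcrc
  have hcirc : PolyF B (fun p : List (List Lits) × List Bool => circ p.1 p.2) :=
    (hTFP B).2.2.2.2.2.2.1
  have hcnt : PolyF B (fun p : List Bool × List Bool => cnt p.1 p.2) := (hTFP B).2.2.2.2.2.2.2
  have hll : ∀ z z' : Str, z'.length = z.length →
      (psi pss a crc z').length = (psi pss a crc z).length := by
    intro z z' h
    rw [hlen, hlen, h]
  refine ⟨psi pss a crc, a, hφ, hcon, m, t', 0, 1,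
    fun M => s (kap (tst pss) (M + a) + 1 + nmv (tst pss) (M + a)), fun _ => [],
    fun p => sets (psi pss a crc p.1, p.2),
    fun p => cnt p.1 (circ (crc (psi pss a crc p.2).length) (psi pss a crc p.2)),
    hm, one_pos, PolyF.const _, ?_, ?_, hSBD s (tst pss) a hs, ?_, ?_⟩
  · exact hsets.comp (PolyF.pair (hφ.comp (PolyF.fst PolyF.id)) (PolyF.snd PolyF.id))
  · have h1 : PolyF B (fun p : Str × Str => psi pss a crc p.2) :=
      hφ.comp (PolyF.snd PolyF.id)
    have h2 : PolyF B (fun p : Str × Str => (psi pss a crc p.2).length) := by fun_prop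
    have h3 : PolyF B (fun p : Str × Str =>
        circ (crc (psi pss a crc p.2).length) (psi pss a crc p.2)) :=
      hcirc.comp (PolyF.pair (hcrc.comp h2) h1)
    exact hcnt.comp (PolyF.pair (PolyF.fst PolyF.id) h3)
  · intro q N
    exact hCNT m t' N q (fun z => circ (crc (psi pss a crc z).length) (psi pss a crc z))
      (fun i => hjun N i)
  · intro z b
    refine ⟨by simp, ?_, ?_⟩
    · have h1 := (hg (psi pss a crc z) b).1
      rw [hlen z] at h1
      exact h1
    · intro z' hz' _ hq
      refine (hg (psi pss a crc z) b).2 (psi pss a crc z') (hll z z' hz') ?_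
      intro q hq'
      have h1 := hq q hq'
      simp only at h1
      rw [hll z z' hz'] at h1
      exact h1

end Pool.EV
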