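import Pool.Agent.Work.MP_cb380d_ev.InterfaceC

/-!
# Block CMB: linear combinations
-/

open Pool.IC Pool.GL Pool.TL Polynomial

namespace Pool.EV

theorem CMB_getD_ge {R : ℕ} {u : Str} (hu : u.length = R) {i : ℕ} (hi : R ≤ i) :
    u.getD i false = false := by
  rw [List.getD_eq_default _ _ (by omega)]

theorem CMB_len {R : ℕ} {u v : Str} (hu : u.length = R) (hv : v.length = R) :
    (add u v).length = R := by
  unfold add
  rw [List.length_zipWith, hu, hv, min_self]

theorem CMB_getD {R : ℕ} {u v : Str} (hu : u.length = R) (hv : v.length = R) (i : ℕ) :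
    (add u v).getD i false = xor (u.getD i false) (v.getD i false) := by
  by_cases hi : i < R
  · have h1 : i < (add u v).length := by rw [CMB_len hu hv]; exact hi
    rw [List.getD_eq_getElem _ _ h1, List.getD_eq_getElem _ _ (by omega : i < u.length),
      List.getD_eq_getElem _ _ (by omega : i < v.length)]
    exact List.getElem_zipWith (f := xor) (l := u) (l' := v)
  · rw [CMB_getD_ge (CMB_len hu hv) (by omega), CMB_getD_ge hu (by omega),
      CMB_getD_ge hv (by omega)]
    rfl

theorem CMB_ext {R : ℕ} {u v : Str} (hu : u.length = R) (hv : v.length = R)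
    (h : ∀ i, u.getD i false = v.getD i false) : u = v := by
  apply List.ext_getElem (by omega)
  intro i h1 h2
  have := h i
  rwa [List.getD_eq_getElem _ _ h1, List.getD_eq_getElem _ _ h2] at this

/-- partial results -/
def CMB_P (R : ℕ) (U : List Str) (s : Str) (n : ℕ) : Str :=
  (List.range n).foldl (fun z j => if s.getD j false then add z (U.getD j []) else z)
    (List.replicate R false)

theorem CMB_P_succ (R : ℕ) (U : List Str) (s : Str) (n : ℕ) :
    CMB_P R U s (n + 1) =
      if s.getD n false then add (CMB_P R U s n) (U.getD n []) else CMB_P R U s n := by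
  unfold CMB_P
  rw [List.range_succ, List.foldl_append]
  rfl

/-- the terms -/
def CMB_t (U : List Str) (s : Str) (i j : ℕ) : Bool :=
  s.getD j false && (U.getD j []).getD i false

theorem CMB_U {R : ℕ} {U : List Str} (hU : ∀ v ∈ U, v.length = R) {n : ℕ} (hn : n < U.length) :
    (U.getD n []).length = R := by
  rw [List.getD_eq_getElem _ _ hn]
  exact hU _ (List.getElem_mem hn)

theorem CMB_P_len {R : ℕ} {U : List Str} (hU : ∀ v ∈ U, v.length = R) (s : Str) {n : ℕ}
    (hn : n ≤ U.length) : (CMB_P R U s n).length = R := by
  induction n with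
  | zero => simp [CMB_P]
  | succ n ih =>
    rw [CMB_P_succ]
    have h1 := ih (by omega)
    by_cases h : s.getD n false = true
    · rw [if_pos h]
      exact CMB_len h1 (CMB_U hU (by omega))
    · rw [if_neg h]
      exact h1

theorem CMB_P_getD {R : ℕ} {U : List Str} (hU : ∀ v ∈ U, v.length = R) (s : Str) {n : ℕ}
    (hn : n < U.length) (i : ℕ) : (CMB_P R U s (n + 1)).getD i false =
      xor ((CMB_P R U s n).getD i false) (CMB_t U s i n) := by
  rw [CMB_P_succ]
  unfold CMB_t
  by_cases h : s.getD n false = true
  · rw [if_pos h, CMB_getD (CMB_P_len hU s (by omega)) (CMB_U hU hn), h, Bool.true_and]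
  · rw [if_neg h]
    rw [Bool.not_eq_true] at h
    rw [h, Bool.false_and, Bool.xor_false]

theorem CMB_P_zero (R : ℕ) (U : List Str) (s : Str) (i : ℕ) :
    (CMB_P R U s 0).getD i false = false := by
  have : CMB_P R U s 0 = List.replicate R false := rfl
  rw [this]
  by_cases hi : i < R
  · rw [List.getD_eq_getElem _ _ (by simpa using hi), List.getElem_replicate]
  · exact CMB_getD_ge (R := R) (by simp) (by omega)

/-- only one term -/
theorem CMB_one {R : ℕ} {U : List Str} (hU : ∀ v ∈ U, v.length = R) (s : Str) (a i : ℕ)
    (h : ∀ b < U.length, b ≠ a → CMB_t U s i b = false) {n : ℕ} (hn : n ≤ U.length) :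
    (CMB_P R U s n).getD i false = if a < n then CMB_t U s i a else false := by
  induction n with
  | zero => rw [CMB_P_zero]; simp
  | succ n ih =>
    rw [CMB_P_getD hU s (by omega), ih (by omega)]
    by_cases hna : n = a
    · subst hna
      simp
    · rw [h n (by omega) hna, Bool.xor_false]
      by_cases h1 : a < n
      · rw [if_pos h1, if_pos (by omega)]
      · rw [if_neg h1, if_neg (by omega)]

theorem CMB_add {R : ℕ} {U : List Str} (hU : ∀ v ∈ U, v.length = R) (s s' : Str)
    (hs : s.length = U.length) (hs' : s'.length = U.length) (i : ℕ) {n : ℕ}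
    (hn : n ≤ U.length) : (CMB_P R U (add s s') n).getD i false =
      xor ((CMB_P R U s n).getD i false) ((CMB_P R U s' n).getD i false) := by
  induction n with
  | zero => rw [CMB_P_zero, CMB_P_zero, CMB_P_zero]; rfl
  | succ n ih =>
    rw [CMB_P_getD hU _ (by omega), CMB_P_getD hU _ (by omega), CMB_P_getD hU _ (by omega),
      ih (by omega)]
    unfold CMB_t
    rw [CMB_getD hs hs']
    cases s.getD n false <;> cases s'.getD n false <;> cases (U.getD n []).getD i false <;>
      cases (CMB_P R U s n).getD i false <;> cases (CMB_P R U s' n).getD i false <;> rfl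

theorem p_CMB : Stmt_CMB := by
  intro R U hU
  have hc : ∀ s, cmb R U s = CMB_P R U s U.length := fun s => rfl
  refine ⟨?_, ?_, ?_, ?_, ?_⟩
  · intro s
    rw [hc]
    exact CMB_P_len hU s le_rfl
  · intro s s' hs hs'
    rw [hc, hc, hc]
    have l1 := CMB_P_len hU s le_rfl
    have l2 := CMB_P_len hU s' le_rfl
    apply CMB_ext (CMB_P_len hU _ le_rfl) (CMB_len l1 l2)
    intro i
    rw [CMB_getD l1 l2, CMB_add hU s s' hs hs' i le_rfl]
  · intro j hj
    rw [hc]
    apply CMB_ext (CMB_P_len hU _ le_rfl) (CMB_U hU hj)
    intro i
    have hev : ∀ b < U.length, (ev U.length j).getD b false = decide (b = j) := by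
      intro b hb
      unfold ev
      rw [List.getD_eq_getElem _ _ (by simpa using hb), List.getElem_map, List.getElem_range]
    rw [CMB_one hU _ j i ?_ le_rfl, if_pos hj]
    · unfold CMB_t
      rw [hev j hj]
      simp
    · intro b hb hbj
      unfold CMB_t
      rw [hev b hb]
      simp [hbj]
  · rw [hc]
    apply CMB_ext (CMB_P_len hU _ le_rfl) (by simp)
    intro i
    have hz : ∀ (N b : ℕ), (List.replicate N false : Str).getD b false = false := by
      intro N b
      by_cases hi : b < N
      · rw [List.getD_eq_getElem _ _ (by simpa using hi), List.getElem_replicate]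
      · exact CMB_getD_ge (R := N) (by simp) (by omega)
    rw [CMB_one hU _ U.length i ?_ le_rfl, if_neg (lt_irrefl _), hz]
    intro b hb _
    unfold CMB_t
    rw [hz, Bool.false_and]
  · intro G s hG hs htrue
    obtain ⟨a, ha, hsa⟩ := List.getElem_of_mem htrue
    have haU : a < U.length := by omega
    have hsa' : s.getD a false = true := by rw [List.getD_eq_getElem _ _ ha, hsa]
    obtain ⟨⟨j, hj1, hj2, hj3⟩, _⟩ := hG a haU
    have h1 : (CMB_P R U s U.length).getD j false = true := by
      rw [CMB_one hU s a j ?_ le_rfl, if_pos haU]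
      · unfold CMB_t
        rw [hsa', hj3]
        rfl
      · intro b hb hba
        unfold CMB_t
        have h2 : (U.getD b []).getD j false = false := by
          apply (hG b hb).2
          rcases Nat.lt_or_gt_of_ne hba with h | h
          · right
            exact (Nat.mul_le_mul_right G (by omega : b + 1 ≤ a)).trans hj1
          · left
            exact hj2.trans_le (Nat.mul_le_mul_right G (by omega : a + 1 ≤ b))
        rw [h2, Bool.and_false]
    rw [hc]
    have hlt : j < (CMB_P R U s U.length).length := by
      by_contra hcon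
      rw [List.getD_eq_default _ _ (by omega)] at h1
      exact absurd h1 (by decide)
    rw [List.getD_eq_getElem _ _ hlt] at h1
    rw [← h1]
    exact List.getElem_mem hlt

end Pool.EV
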