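import Pool.Agent.Work.MP_cb380d_ev.InterfaceD
import Pool.Agent.Work.MP_cb380d_ev.B_CMB

/-!
# Block CMS: supports of combinations
-/

open Pool.IC Pool.GL Pool.TL Polynomial

namespace Pool.EV

theorem CMS_lt {u : Str} {i : ℕ} (h : u.getD i false = true) : i < u.length := by
  by_contra hc
  rw [List.getD_eq_default _ _ (by omega)] at h
  exact absurd h (by decide)

theorem CMS_mem (u : Str) (i : ℕ) : i ∈ supp u ↔ u.getD i false = true := by
  unfold supp
  rw [Finset.mem_filter, Finset.mem_range]
  exact ⟨fun h => h.2, fun h => ⟨CMS_lt h, h⟩⟩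

theorem p_CMS (_ : Stmt_CMB) : Stmt_CMS := by
  intro R U s hU hD hs
  have hc : cmb R U s = CMB_P R U s U.length := rfl
  ext i
  rw [CMS_mem, Finset.mem_biUnion]
  constructor
  · intro h
    by_contra hcon
    have h1 : ∀ b < U.length, b ≠ U.length → CMB_t U s i b = false := by
      intro b _ _
      by_contra hb
      rw [Bool.not_eq_false] at hb
      unfold CMB_t at hb
      rw [Bool.and_eq_true] at hb
      exact hcon ⟨b, (CMS_mem _ _).2 hb.1, (CMS_mem _ _).2 hb.2⟩
    have h2 := CMB_one hU s U.length i h1 le_rfl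
    rw [if_neg (lt_irrefl _)] at h2
    rw [hc, h2] at h
    exact absurd h (by decide)
  · rintro ⟨a, ha, hai⟩
    rw [CMS_mem] at ha hai
    have haU : a < U.length := by
      have := CMS_lt ha
      omega
    have h1 : ∀ b < U.length, b ≠ a → CMB_t U s i b = false := by
      intro b hb hba
      unfold CMB_t
      rw [hD a haU b hb (Ne.symm hba) i hai, Bool.and_false]
    rw [hc, CMB_one hU s a i h1 le_rfl, if_pos haU]
    unfold CMB_t
    rw [ha, hai]
    rfl

end Pool.EV
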