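import Pool.Agent.Work.MP_cb380d_ev.InterfaceF

open Pool.IC Pool.GL Pool.TL Polynomial

namespace Pool.EV

theorem CNB_foldl (w : List Bool) : ∀ a : Bool, w.foldl xor a = xor a (w.foldl xor false) := by
  induction w with
  | nil => intro a; simp
  | cons b w ih =>
    intro a
    rw [List.foldl_cons, List.foldl_cons, ih (xor a b), ih (xor false b)]
    cases a <;> cases b <;> simp

theorem CNB_append (a b : List Bool) : parity (a ++ b) = xor (parity a) (parity b) := by
  unfold parity
  rw [List.foldl_append, CNB_foldl b]

theorem CNB_add (a : List Bool) : ∀ b : List Bool, a.length = b.length →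
    parity (add a b) = xor (parity a) (parity b) := by
  induction a with
  | nil =>
    intro b hb
    have : b = [] := List.eq_nil_of_length_eq_zero hb.symm
    subst this
    rfl
  | cons x a ih =>
    intro b hb
    cases b with
    | nil => exact absurd hb (by simp)
    | cons y b =>
      have h := ih b (by simpa using hb)
      have e1 : add (x :: a) (y :: b) = [xor x y] ++ add a b := rfl
      have e2 : parity (x :: a) = xor x (parity a) := by
        have := CNB_append [x] a
        simpa [parity] using this
      have e3 : parity (y :: b) = xor y (parity b) := by
        have := CNB_append [y] b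
        simpa [parity] using this
      have e4 : parity [xor x y] = xor x y := by simp [parity]
      rw [e1, CNB_append, h, e2, e3, e4]
      cases x <;> cases y <;> cases parity a <;> cases parity b <;> rfl

theorem CNB_take (κ : ℕ) (z : List Bool) (k : ℕ) : parity (z.take (k * κ)) =
    parity ((List.range k).map fun j => parity ((z.drop (j * κ)).take κ)) := by
  induction k with
  | zero => simp
  | succ k ih =>
    rw [List.range_succ, List.map_append, CNB_append, ← ih, Nat.succ_mul, List.take_add,
      CNB_append]
    congr 1
    simp [parity]

/-- CNB -/
theorem p_CNB : Stmt_CNB := by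
  refine ⟨?_, ?_, ?_⟩
  · intro κ s n y _
    unfold cnb
    refine List.map_congr_left ?_
    intro l hl
    rw [List.mem_range] at hl
    rw [CNB_take κ (y.drop (l * (s * κ))) s]
    congr 1
    have hle : l * s + s ≤ n * s := by
      have := Nat.mul_le_mul_right s (Nat.succ_le_of_lt hl)
      rw [Nat.succ_mul] at this
      exact this
    refine List.ext_getElem ?_ ?_
    · simp
      omega
    · intro j h1 h2
      simp only [List.getElem_map, List.getElem_range, List.getElem_take, List.getElem_drop,
        List.drop_drop]
      congr 3
      ring
  · intro κ n y y' hy
    unfold cnb
    have e : add ((List.range n).map fun l => parity ((y.drop (l * κ)).take κ))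
        ((List.range n).map fun l => parity ((y'.drop (l * κ)).take κ)) =
        (List.range n).map fun l => xor (parity ((y.drop (l * κ)).take κ))
          (parity ((y'.drop (l * κ)).take κ)) := by
      unfold add
      rw [List.zipWith_map, List.zipWith_self]
    rw [e]
    refine List.map_congr_left ?_
    intro l _
    rw [← CNB_add _ _ (by simp [hy])]
    congr 1
    unfold add
    rw [List.drop_zipWith, List.take_zipWith]
  · intro n y hy
    unfold cnb
    refine List.ext_getElem ?_ ?_
    · simp [hy]
    · intro l h1 h2
      simp only [List.getElem_map, List.getElem_range, Nat.mul_one]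
      have e : (y.drop l).take 1 = [y[l]] := by
        rw [List.drop_eq_getElem_cons h2]
        rfl
      rw [e]
      unfold parity
      rw [List.foldl_cons, List.foldl_nil, Bool.false_xor]

end Pool.EV
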