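import Pool.Agent.Work.MP_cb380d_ev.InterfaceF

/-! # Block CNT: numbers of true gates (helper71) -/

open Pool.IC Pool.GL Pool.TL Polynomial

namespace Pool.EV

theorem CNT_len (p : ℕ → Bool) (k : ℕ) :
    ((List.range k).filter p).length = ∑ i ∈ Finset.range k, (p i).toNat := by
  induction k with
  | zero => simp
  | succ k ih =>
    rw [List.range_succ, List.filter_append, List.length_append, ih, Finset.sum_range_succ]
    congr 1
    cases h : p k <;> simp [h]

theorem p_CNT (hJMP : Stmt_JMP) : Stmt_CNT := by
  intro m t n q W hW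
  have h1 : ∀ i : ℕ, ∃ c : Finset ℕ → ZMod m, ∀ z : Str, z.length = n →
      ((((W z).getD i false).toNat : ℕ) : ZMod m) =
        ∑ T ∈ (supp z).powerset.filter (fun T => T.card ≤ t), c T :=
    fun i => hJMP m t n _ (hW i)
  choose c hc using h1
  refine ⟨fun T => ∑ i ∈ Finset.range q.length, if q.getD i false then c i T else 0, ?_⟩
  intro z hz
  show ((cnt q (W z) : ℕ) : ZMod m) = _
  unfold cnt
  rw [CNT_len, Nat.cast_sum, Finset.sum_comm]
  refine Finset.sum_congr rfl fun i _ => ?_
  cases hq : q.getD i false
  · simp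
  · simp only [Bool.true_and, if_true]
    exact hc i z hz

end Pool.EV
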