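import Pool.Agent.Work.MP_cb380d_ev.InterfaceF
import Pool.Agent.Work.MP_cb380d_ev.B_HVA

/-!
# Block CNX: the contents
-/

open Pool.IC Pool.GL Pool.TL Polynomial

namespace Pool.EV

theorem CNX_filter (κ n : ℕ) (hκ : 0 < κ) :
    (List.range (n * κ)).filter (fun l => decide ((l + 1) * κ ≤ n * κ)) = List.range n := by
  have h1 : n * κ = n + (n * κ - n) := by
    have : n * 1 ≤ n * κ := Nat.mul_le_mul_left n hκ
    omega
  have h2 : List.range (n * κ) = List.range n ++ (List.range (n * κ - n)).map (n + ·) := by
    conv_lhs => rw [h1]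
    exact List.range_add
  rw [h2, List.filter_append]
  have h3 : (List.range n).filter (fun l => decide ((l + 1) * κ ≤ n * κ)) = List.range n := by
    rw [List.filter_eq_self]
    intro l hl
    rw [List.mem_range] at hl
    exact decide_eq_true (Nat.mul_le_mul_right κ hl)
  have h4 : ((List.range (n * κ - n)).map (n + ·)).filter
      (fun l => decide ((l + 1) * κ ≤ n * κ)) = [] := by
    rw [List.filter_eq_nil_iff]
    intro l hl
    rw [List.mem_map] at hl
    obtain ⟨j, _, rfl⟩ := hl
    intro h
    have h5 := of_decide_eq_true h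
    have h6 := Nat.le_of_mul_le_mul_right h5 hκ
    omega
  rw [h3, h4, List.append_nil]

theorem CNX_one (κ n : ℕ) (y : Str) (hκ : 0 < κ) (hy : y.length = n * κ) :
    con (un κ ++ false :: y) = cnb κ n y := by
  unfold con cnb
  rw [HVA_lead, HVA_rst, hy, CNX_filter κ n hκ]

theorem CNX_cnb (v : Str) : cnb 1 v.length v = v := by
  unfold cnb
  apply List.ext_getElem
  · simp
  · intro i h1 h2
    have h3 : List.take 1 (List.drop i v) = [v[i]] := by
      rw [List.drop_eq_getElem_cons h2]
      rfl
    rw [List.getElem_map, List.getElem_range, Nat.mul_one, h3]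
    show List.foldl xor false [v[i]] = v[i]
    simp only [List.foldl_cons, List.foldl_nil, Bool.false_xor]

theorem p_CNX : Stmt_CNX := by
  refine ⟨fun κ n y hκ hy => CNX_one κ n y hκ hy, fun v => ?_, fun z => ?_⟩
  · have h := CNX_one 1 v.length v Nat.one_pos (by rw [Nat.mul_one])
    rw [CNX_cnb] at h
    exact h
  · unfold con
    rw [List.length_map]
    refine (List.length_filter_le _ _).trans ?_
    rw [List.length_range]
    unfold rst
    rw [List.length_drop]
    exact Nat.sub_le _ _

end Pool.EV
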