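import Pool.Agent.Work.MP_cb380d_ev.InterfaceG

/-!
# Block CPP: the capped product in polynomial time
-/

open Pool.IC Pool.GL Pool.TL Polynomial

namespace Pool.EV

theorem CPP_bound (cap : ℕ) (l : List ℕ) (a : ℕ) (ha : a ≤ cap + 1) :
    l.foldl (fun a x => min (a * x) cap) a ≤ cap + 1 := by
  induction l generalizing a with
  | nil => exact ha
  | cons x l ih => exact ih _ (le_trans (min_le_right _ _) (Nat.le_succ _))

theorem p_CPP (hDVF : Stmt_DVF) : Stmt_CPP := by
  intro B
  have hmin := (hDVF B).2.2.1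
  have hstep : PolyF B (fun p : (ℕ × List ℕ) × ℕ × ℕ => min (p.2.1 * p.2.2) p.1.1) :=
    PolyF.comp (f := fun q : ℕ × ℕ => min q.1 q.2)
      (g := fun p : (ℕ × List ℕ) × ℕ × ℕ => (p.2.1 * p.2.2, p.1.1)) hmin (by fun_prop)
  refine PolyF.foldl (l := fun p : ℕ × List ℕ => p.2) (g := fun _ => 1)
    (h := fun p a x => min (a * x) p.1) (by fun_prop) (by fun_prop) hstep (X + 1) ?_
  intro p j _
  have h1 := CPP_bound p.1 (p.2.take j) 1 (by omega)
  have h2 : p.1 ≤ sz p := by
    rw [sz_pair, sz_nat]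
    omega
  rw [sz_nat]
  simp only [eval_add, eval_X, eval_one]
  omega

end Pool.EV
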