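import Pool.Agent.Work.MP_cb380d_ev.InterfaceF

/-! # MP_cb380d_lc, PART F: block CPR (the capped product) -/

set_option autoImplicit false

open Pool.IC Pool.GL Pool.TL Polynomial

namespace Pool.EV

lemma CPR_prod_pos (l : List ℕ) (h : ∀ x ∈ l, 1 ≤ x) : 1 ≤ l.prod := by
  induction l with
  | nil => simp
  | cons x l ih =>
    rw [List.prod_cons]
    exact Nat.mul_pos (h x (List.mem_cons_self ..)) (ih fun y hy => h y (List.mem_cons_of_mem _ hy))

lemma CPR_one (cap : ℕ) (l : List ℕ) : ∀ a : ℕ, a ≤ cap → (∀ x ∈ l, 1 ≤ x) →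
    l.foldl (fun a x => min (a * x) cap) a = min (a * l.prod) cap := by
  induction l with
  | nil =>
    intro a ha _
    simp [ha]
  | cons x l ih =>
    intro a ha hl
    have hP : 1 ≤ l.prod := CPR_prod_pos l fun y hy => hl y (List.mem_cons_of_mem _ hy)
    rw [List.foldl_cons, List.prod_cons,
      ih _ (min_le_right _ _) (fun y hy => hl y (List.mem_cons_of_mem _ hy)), ← mul_assoc]
    rcases le_total (a * x) cap with h | h
    · rw [min_eq_left h]
    · have h1 : cap ≤ cap * l.prod := Nat.le_mul_of_pos_right _ hP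
      have h2 : cap ≤ a * x * l.prod := h.trans (Nat.le_mul_of_pos_right _ hP)
      rw [min_eq_right h, min_eq_right h1, min_eq_right h2]

lemma CPR_two (cap c : ℕ) (hc : 1 ≤ c) (l : List ℕ) : ∀ k a : ℕ, a ≤ c ^ k →
    (∀ x ∈ l, x ≤ c) → c ^ (k + l.length) ≤ cap →
    l.foldl (fun a x => min (a * x) cap) a = a * l.prod := by
  induction l with
  | nil =>
    intro k a _ _ _
    simp
  | cons x l ih =>
    intro k a ha hl hcap
    rw [List.length_cons] at hcap
    have h1 : a * x ≤ c ^ (k + 1) := by
      rw [pow_succ]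
      exact Nat.mul_le_mul ha (hl x (List.mem_cons_self ..))
    have h2 : c ^ (k + 1) ≤ cap :=
      (Nat.pow_le_pow_right hc (by omega)).trans hcap
    rw [List.foldl_cons, List.prod_cons, min_eq_left (h1.trans h2),
      ih (k + 1) (a * x) h1 (fun y hy => hl y (List.mem_cons_of_mem _ hy))
        (by rwa [show k + 1 + l.length = k + (l.length + 1) by omega]), mul_assoc]

theorem p_CPR : Stmt_CPR := by
  refine ⟨fun cap l hcap hl => ?_, fun cap c l hc hl hcap => ?_⟩
  · have := CPR_one cap l 1 hcap hl
    rw [one_mul] at this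
    exact this
  · have := CPR_two cap c hc l 0 1 (by simp) hl (by rwa [Nat.zero_add])
    rw [one_mul] at this
    exact this

end Pool.EV
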