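import Pool.Agent.Work.MP_cb380d_ev.InterfaceG

/-! # Block CTL (MP_cb380d_lc, helper95) -/

open Pool.IC Pool.GL Pool.TL Polynomial

namespace Pool.EV

theorem p_CTL (h1 : Stmt_PHC) : Stmt_CTL := by
  intro pss
  induction pss with
  | nil =>
    intro n G C
    rfl
  | cons q pss ih =>
    intro n G C
    have h2 := h1.2.2.2.2
    show (sts q.2 (nmv (tst pss) n)
        (dnl q.1 (nmv q.2.length (nmv (tst pss) n)) G (C.headD [])) ++
      cct pss n (fun u => lay (C.headD []) (G (phi (sts q.2 (nmv (tst pss) n)
        (dnl q.1 (nmv q.2.length (nmv (tst pss) n)) G (C.headD []))) u))) C.tail).length = _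
    rw [List.length_append, h2, ih]
    simp only [tst, List.map_cons, List.sum_cons]

end Pool.EV
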