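import Pool.Agent.Work.MP_cb380d_ev.InterfaceF

/-! # Block CUB (MP_cb380d, circuits) -/

open Pool.IC Pool.GL Pool.TL Polynomial

namespace Pool.EV

theorem CUB_len (h : ℕ) : ∀ K : List ℕ, (cub h K).length ≤ 2 ^ h := by
  induction h with
  | zero => intro K; simp [cub]
  | succ h ih =>
    intro K
    unfold cub
    split
    · simp [Nat.one_le_two_pow]
    · rw [List.length_flatMap]
      have h1 := ih K.tail
      simp only [List.length_cons, List.length_nil, List.map_const', List.sum_replicate]
      rw [pow_succ]
      simp only [smul_eq_mul]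
      omega

theorem CUB_mem (h : ℕ) : ∀ K : List ℕ, K.length ≤ h →
    (∀ α ∈ cub h K, α.map Prod.fst = K) ∧
      ∀ x : Str, (K.map fun q => (q, x.getD q false)) ∈ cub h K := by
  induction h with
  | zero =>
    intro K hK
    have : K = [] := List.length_eq_zero_iff.1 (Nat.le_zero.1 hK)
    subst this
    simp [cub]
  | succ h ih =>
    intro K hK
    cases K with
    | nil => simp [cub]
    | cons k K =>
      have hK' : K.length ≤ h := by simpa using hK
      obtain ⟨h1, h2⟩ := ih K hK'
      constructor
      · intro α hα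
        simp only [cub, List.isEmpty_cons, Bool.false_eq_true, if_false, List.tail_cons,
          List.mem_flatMap, List.headD_cons, List.mem_cons, List.not_mem_nil, or_false] at hα
        obtain ⟨β, hβ, h3 | h3⟩ := hα
        · rw [h3, List.map_cons, h1 β hβ]
        · rw [h3, List.map_cons, h1 β hβ]
      · intro x
        simp only [cub, List.isEmpty_cons, Bool.false_eq_true, if_false, List.tail_cons,
          List.mem_flatMap, List.headD_cons, List.mem_cons, List.not_mem_nil, or_false,
          List.map_cons]
        refine ⟨_, h2 x, ?_⟩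
        cases x.getD k false
        · exact Or.inl rfl
        · exact Or.inr rfl

theorem CUB_lku_mem (α : Lits) (q : ℕ) (c : Bool) (h : lku α q = some c) : (q, c) ∈ α := by
  unfold lku at h
  have h1 := List.mem_of_head? h
  rw [List.mem_map] at h1
  obtain ⟨l, hl, hc⟩ := h1
  rw [List.mem_filter] at hl
  obtain ⟨hl1, hl2⟩ := hl
  have : l.1 = q := of_decide_eq_true hl2
  rw [← this, ← hc]
  exact hl1

theorem CUB_lku_ne (α : Lits) (q : ℕ) (h : q ∈ α.map Prod.fst) : lku α q ≠ none := by
  unfold lku
  intro h1
  rw [List.head?_eq_none_iff, List.map_eq_nil_iff, List.filter_eq_nil_iff] at h1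
  rw [List.mem_map] at h
  obtain ⟨l, hl, hq⟩ := h
  exact h1 l hl (decide_eq_true hq)

theorem p_CUB : Stmt_CUB := by
  refine ⟨CUB_len, CUB_mem, CUB_lku_mem, CUB_lku_ne, ?_⟩
  intro α q c hnd hm
  have h1 : lku α q ≠ none := CUB_lku_ne α q (List.mem_map_of_mem (f := Prod.fst) hm)
  obtain ⟨c', hc'⟩ := Option.ne_none_iff_exists'.1 h1
  have h2 := CUB_lku_mem α q c' hc'
  have h3 : (q, c') = (q, c) := by
    have hinj := List.inj_on_of_nodup_map hnd
    exact hinj h2 hm rfl
  have h4 : c' = c := (Prod.mk.inj h3).2
  rw [hc', h4]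

end Pool.EV
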