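import Pool.Agent.Work.MP_cb380d_ev.InterfaceC

open Pool.IC Pool.GL Pool.TL Polynomial

namespace Pool.EV

theorem DAF_len (r : ℕ) (s u : Str) (hs : s.length = r) (hu : u.length = r) :
    (add s u).length = r := by
  unfold add
  simp [hs, hu]

theorem DAF_congr (r n : ℕ) : ∀ F F' : Str → Bool, (∀ s : Str, s.length = r → F s = F' s) →
    DegLE r n F → DegLE r n F' := by
  induction n with
  | zero =>
    intro F F' h hF z z' hz hz'
    rw [← h z hz, ← h z' hz']
    exact hF z z' hz hz'
  | succ n ih =>
    intro F F' h hF u hu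
    refine ih _ _ ?_ (hF u hu)
    intro s hs
    show xor (F (add s u)) (F s) = xor (F' (add s u)) (F' s)
    rw [h s hs, h _ (DAF_len r s u hs hu)]

theorem p_DAF : Stmt_DAF := by
  intro r R F φ ψ hφ hψ hadd
  constructor
  · intro n
    induction n generalizing F with
    | zero =>
      intro hF z z' hz hz'
      exact hF _ _ (hφ z hz) (hφ z' hz')
    | succ n ih =>
      intro hF u hu
      refine DAF_congr r n _ _ ?_ (ih _ (hF (ψ u) (hψ u hu)))
      intro s hs
      show xor (F (add (φ s) (ψ u))) (F (φ s)) = xor (F (φ (add s u))) (F (φ s))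
      rw [hadd s u hs hu]
  · intro t
    induction t with
    | nil => intro s _ _; rfl
    | cons u t ih =>
      intro s ht hs
      have hu : u.length = r := ht u (by simp)
      have ht' : ∀ v ∈ t, v.length = r := fun v hv => ht v (by simp [hv])
      show xor (dv (fun s => F (φ s)) t (add s u)) (dv (fun s => F (φ s)) t s) =
        xor (dv F (t.map ψ) (add (φ s) (ψ u))) (dv F (t.map ψ) (φ s))
      rw [ih _ ht' (DAF_len r s u hs hu), ih _ ht' hs, hadd s u hs hu]

end Pool.EV
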