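import Pool.Agent.Work.MP_cb380d_ev.InterfaceA

open Pool.IC Pool.GL Pool.TL Polynomial

namespace Pool.EV

theorem DEC_succ (g : Str → Str) (esc : Str × List ℕ × ℕ × ℕ → Str)
    (ch : ℕ → Str → Str → ℕ → Bool) (ν K n : ℕ) :
    rn g esc ch ν K (n + 1) = stp g esc ch ν K (rn g esc ch ν K n) n := by
  unfold rn
  rw [List.range_succ, List.foldl_append, List.foldl_cons, List.foldl_nil]

theorem DEC_stp (g : Str → Str) (esc : Str × List ℕ × ℕ × ℕ → Str)
    (ch ch' : ℕ → Str → Str → ℕ → Bool) (ν K n : ℕ) (s : St)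
    (h : ch' n s.1 (es esc s.1 s.2.1 (lo ν K (n + 1)) K)
        (fd (g s.1) (g (es esc s.1 s.2.1 (lo ν K (n + 1)) K))) =
      ch n s.1 (es esc s.1 s.2.1 (lo ν K (n + 1)) K)
        (fd (g s.1) (g (es esc s.1 s.2.1 (lo ν K (n + 1)) K)))) :
    stp g esc ch' ν K s n = stp g esc ch ν K s n := by
  unfold stp
  rw [h]

theorem p_DEC (hRNS : Stmt_RNS) (hRNI : Stmt_RNI) (hKEP : Stmt_KEP) : Stmt_DEC := by
  intro g esc ch ν K n D hE hS
  induction n with
  | zero => intro _; simp [rn]
  | succ n ih =>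
    intro hn
    have ih' := ih (by omega)
    rw [DEC_succ, DEC_succ, ih']
    have hInv := hRNI g esc ch ν K n D hE hS (by omega)
    obtain ⟨_, h2, _, _⟩ := hRNS g esc ch ν K n D _ hE hS hInv (by omega)
    have hk := hKEP g esc ch ν K (n + 1) D hE hS hn
    rw [DEC_succ] at hk
    have hk' := hk (fd (g (rn g esc ch ν K n).1) (g (es esc (rn g esc ch ν K n).1
      (rn g esc ch ν K n).2.1 (lo ν K (n + 1)) K))) (by
        unfold stp
        exact List.mem_cons_self)
    apply DEC_stp
    generalize rn g esc ch ν K n = s at *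
    unfold stp at hk'
    simp only at hk'
    unfold chD
    cases hc : ch n s.1 (es esc s.1 s.2.1 (lo ν K (n + 1)) K)
        (fd (g s.1) (g (es esc s.1 s.2.1 (lo ν K (n + 1)) K))) with
    | true =>
      rw [hc] at hk'
      simp only [cond_true] at hk'
      exact decide_eq_true hk'
    | false =>
      rw [hc] at hk'
      simp only [cond_false] at hk'
      apply decide_eq_false
      rw [hk']
      exact h2

end Pool.EV
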