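import Pool.Agent.Work.MP_cb380d_ev.InterfaceC

/-! Block DIR (helper20). -/

open Pool.IC Pool.GL Pool.TL Polynomial

namespace Pool.EV

theorem DIR_tup (U : List Str) : ∀ (d : ℕ), (tup U d).length = U.length ^ d ∧
    ∀ t : List Str, t ∈ tup U d ↔ t.length = d ∧ ∀ v ∈ t, v ∈ U := by
  intro d
  induction d with
  | zero =>
    refine ⟨by simp [tup], fun t => ?_⟩
    rw [tup, List.mem_singleton]
    constructor
    · rintro rfl
      exact ⟨rfl, by simp⟩
    · rintro ⟨h, -⟩
      exact List.eq_nil_of_length_eq_zero h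
  | succ d ih =>
    obtain ⟨ih1, ih2⟩ := ih
    refine ⟨?_, fun t => ?_⟩
    · rw [tup, List.length_flatMap]
      have : (U.map fun u => ((tup U d).map fun t => u :: t).length) =
          List.replicate U.length (U.length ^ d) := by
        rw [List.eq_replicate_iff]
        refine ⟨by simp, fun b hb => ?_⟩
        obtain ⟨u, -, rfl⟩ := List.mem_map.1 hb
        rw [List.length_map, ih1]
      rw [this, List.sum_replicate, smul_eq_mul, pow_succ, Nat.mul_comm]
    · rw [tup, List.mem_flatMap]
      constructor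
      · rintro ⟨u, hu, ht⟩
        obtain ⟨s, hs, rfl⟩ := List.mem_map.1 ht
        obtain ⟨h1, h2⟩ := (ih2 s).1 hs
        refine ⟨by rw [List.length_cons, h1], fun v hv => ?_⟩
        rcases List.mem_cons.1 hv with rfl | hv
        · exact hu
        · exact h2 v hv
      · rintro ⟨h1, h2⟩
        cases t with
        | nil => simp at h1
        | cons u s =>
          refine ⟨u, h2 u List.mem_cons_self, List.mem_map.2 ⟨s, (ih2 s).2 ⟨?_, ?_⟩, rfl⟩⟩
          · rw [List.length_cons] at h1; omega
          · exact fun v hv => h2 v (List.mem_cons_of_mem _ hv)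

theorem DIR_plc_length (R p : ℕ) (v : Str) : (plc R p v).length = R := by
  unfold plc; simp

theorem DIR_plc_getD (R p : ℕ) (v : Str) (j : ℕ) : (plc R p v).getD j false =
    if j < R ∧ p ≤ j then v.getD (j - p) false else false := by
  unfold plc
  by_cases hj : j < R
  · rw [List.getD_eq_getElem?_getD, List.getElem?_map, List.getElem?_range hj]
    by_cases hp : p ≤ j
    · simp [hj, hp]
    · simp [hp]
  · rw [List.getD_eq_getElem?_getD, List.getElem?_eq_none (by simp; omega)]
    simp [hj]

theorem DIR_getD_add (u v : Str) (h : u.length = v.length) (k : ℕ) :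
    (add u v).getD k false = xor (u.getD k false) (v.getD k false) := by
  unfold add
  by_cases hk : k < u.length
  · have hk' : k < v.length := h ▸ hk
    rw [List.getD_eq_getElem _ _ (by simp [hk, hk']), List.getD_eq_getElem _ _ hk,
      List.getD_eq_getElem _ _ hk', List.getElem_zipWith]
  · have hk' : ¬ k < v.length := h ▸ hk
    rw [List.getD_eq_default _ _ (by simp; omega), List.getD_eq_default _ _ (by omega),
      List.getD_eq_default _ _ (by omega)]
    rfl

theorem DIR_ext (u v : Str) (h : u.length = v.length)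
    (h2 : ∀ k, u.getD k false = v.getD k false) : u = v := by
  refine List.ext_getElem h fun k h1 h3 => ?_
  have := h2 k
  rw [List.getD_eq_getElem _ _ h1, List.getD_eq_getElem _ _ h3] at this
  exact this

theorem DIR_plc_add (R p : ℕ) (u v : Str) (h : u.length = v.length) :
    plc R p (add u v) = add (plc R p u) (plc R p v) := by
  refine DIR_ext _ _ ?_ fun k => ?_
  · rw [DIR_plc_length]
    unfold add
    rw [List.length_zipWith, DIR_plc_length, DIR_plc_length, Nat.min_self]
  · rw [DIR_getD_add _ _ (by rw [DIR_plc_length, DIR_plc_length]), DIR_plc_getD, DIR_plc_getD,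
      DIR_plc_getD]
    by_cases hk : k < R ∧ p ≤ k
    · rw [if_pos hk, if_pos hk, if_pos hk, DIR_getD_add u v h]
    · rw [if_neg hk, if_neg hk, if_neg hk]
      rfl

theorem p_DIR (hSLV : Stmt_SLV) (hDV1 : Stmt_DV1) (hDV2 : Stmt_DV2) : Stmt_DIR := by
  intro F d m R G r hF hG hR
  obtain ⟨-, -, hdvn⟩ := hDV1
  obtain ⟨-, -, hadd⟩ := hDV2
  set W : ℕ → List Str := fun a => (dirs F d m R G)^[a] [] with hW
  set Q : ℕ → List (ℕ × List Str) := fun a =>
    (List.range m).flatMap fun i => (tup (W a) d).map fun t => (i, t) with hQ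
  set φ : ℕ → (ℕ × List Str) → Str → Bool := fun a q v =>
    dvn (F q.1) (d + 1) (plc R ((W a).length * G) v :: q.2) (List.replicate R false) with hφ
  set w : ℕ → Str := fun a => plc R ((W a).length * G) (slv G (Q a) (φ a)) with hw
  have hW0 : W 0 = [] := rfl
  have hWs : ∀ a, W (a + 1) = W a ++ [w a] := by
    intro a
    show (dirs F d m R G)^[a + 1] [] = _
    rw [Function.iterate_succ_apply']
    rfl
  have hWr : ∀ a, W a = (List.range a).map w := by
    intro a
    induction a with
    | zero => rfl
    | succ a ih => rw [hWs, ih, List.range_succ, List.map_append, List.map_cons, List.map_nil]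
  have hWl : ∀ a, (W a).length = a := fun a => by rw [hWr a, List.length_map, List.length_range]
  have hwl : ∀ a, (w a).length = R := fun a => DIR_plc_length _ _ _
  have hWmem : ∀ a, ∀ v ∈ W a, v.length = R := by
    intro a v hv
    rw [hWr a] at hv
    obtain ⟨b, -, rfl⟩ := List.mem_map.1 hv
    exact hwl b
  have hWget : ∀ a b, b < a → (W a).getD b [] = w b := by
    intro a b hb
    rw [hWr a, List.getD_eq_getElem?_getD, List.getElem?_map, List.getElem?_range hb]
    rfl
  -- the new vectors
  have hQmem : ∀ a, ∀ q, q ∈ Q a ↔ q.1 < m ∧ q.2.length = d ∧ ∀ v ∈ q.2, v ∈ W a := by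
    intro a q
    rw [hQ]
    simp only [List.mem_flatMap, List.mem_range, List.mem_map]
    constructor
    · rintro ⟨i, hi, t, ht, rfl⟩
      exact ⟨hi, ((DIR_tup (W a) d).2 t).1 ht⟩
    · rintro ⟨h1, h2⟩
      exact ⟨q.1, h1, q.2, ((DIR_tup (W a) d).2 q.2).2 h2, rfl⟩
  have hQl : ∀ a, (Q a).length = m * a ^ d := by
    intro a
    rw [hQ]
    simp only
    rw [List.length_flatMap]
    have : ((List.range m).map fun i => ((tup (W a) d).map fun t => (i, t)).length) =
        List.replicate m (a ^ d) := by
      rw [List.eq_replicate_iff]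
      refine ⟨by simp, fun b hb => ?_⟩
      obtain ⟨u, -, rfl⟩ := List.mem_map.1 hb
      rw [List.length_map, (DIR_tup (W a) d).1, hWl]
    rw [this, List.sum_replicate, smul_eq_mul]
  have hφdv : ∀ a, ∀ q ∈ Q a, ∀ v : Str, φ a q v =
      dv (F q.1) (plc R ((W a).length * G) v :: q.2) (List.replicate R false) := by
    intro a q hq v
    have h1 := hdvn (F q.1) (plc R ((W a).length * G) v :: q.2) (List.replicate R false)
    rw [List.length_cons, ((hQmem a q).1 hq).2.1] at h1
    exact h1
  have hS : ∀ a < r, (slv G (Q a) (φ a)).length = G ∧ true ∈ slv G (Q a) (φ a) ∧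
      ∀ q ∈ Q a, φ a q (slv G (Q a) (φ a)) = false := by
    intro a ha
    refine hSLV _ G (Q a) (φ a) ?_ ?_
    · intro q hq u v hu hv
      obtain ⟨h1, h2, h3⟩ := (hQmem a q).1 hq
      rw [hφdv a q hq, hφdv a q hq, hφdv a q hq, DIR_plc_add _ _ _ _ (hu.trans hv.symm)]
      exact hadd R d (F q.1) q.2 _ _ _ (hF q.1 h1) h2 (fun v hv => hWmem a v (h3 v hv))
        (DIR_plc_length _ _ _) (DIR_plc_length _ _ _) (List.length_replicate)
    · rw [hQl]
      refine lt_of_le_of_lt ?_ hG
      exact Nat.mul_le_mul_left _ (Nat.pow_le_pow_left ha.le _)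
  have hdir : dir F d m R G r = W r := rfl
  rw [hdir]
  refine ⟨hWl r, hWmem r, ?_, ?_⟩
  · intro a ha
    obtain ⟨h1, h2, -⟩ := hS a ha
    have hle : (a + 1) * G ≤ R := (Nat.mul_le_mul_right _ (Nat.succ_le_of_lt ha)).trans hR
    have hexp : (a + 1) * G = a * G + G := by ring
    rw [hWget r a ha]
    have hwg : ∀ j, (w a).getD j false =
        if j < R ∧ a * G ≤ j then (slv G (Q a) (φ a)).getD (j - a * G) false else false := by
      intro j
      show (plc R ((W a).length * G) (slv G (Q a) (φ a))).getD j false = _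
      rw [DIR_plc_getD, hWl a]
    constructor
    · obtain ⟨k, hk, hk2⟩ := List.getElem_of_mem h2
      refine ⟨a * G + k, by omega, by omega, ?_⟩
      rw [hwg, if_pos ⟨by omega, by omega⟩, Nat.add_sub_cancel_left,
        List.getD_eq_getElem _ _ hk, hk2]
    · intro j hj
      rw [hwg]
      by_cases hc : j < R ∧ a * G ≤ j
      · rw [if_pos hc, List.getD_eq_default _ _ (by rw [h1]; omega)]
      · rw [if_neg hc]
  · intro i hi a ha js hjs hjs2
    obtain ⟨-, -, h3⟩ := hS a ha
    rw [hWget r a ha]
    have hmap : (js.map fun j => (W r).getD j []) = js.map w := by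
      refine List.map_congr_left fun j hj => ?_
      exact hWget r j ((hjs2 j hj).trans ha)
    rw [hmap]
    have hmem : (i, js.map w) ∈ Q a := by
      rw [hQmem]
      refine ⟨hi, by rw [List.length_map, hjs], fun v hv => ?_⟩
      obtain ⟨j, hj, rfl⟩ := List.mem_map.1 hv
      rw [hWr a]
      exact List.mem_map.2 ⟨j, List.mem_range.2 (hjs2 j hj), rfl⟩
    have h4 := h3 _ hmem
    rw [hφdv a _ hmem] at h4
    exact h4

end Pool.EV
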