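import Pool.Agent.Work.MP_cb380d_ev.InterfaceD

/-! Block DMC (helper33, after B_DIR of helper20). -/

open Pool.IC Pool.GL Pool.TL Polynomial

namespace Pool.EV

theorem DMC_plc_length (R p : ℕ) (v : Str) : (plc R p v).length = R := by
  unfold plc; simp

theorem DMC_plc_getD (R p : ℕ) (v : Str) (j : ℕ) : (plc R p v).getD j false =
    if j < R ∧ p ≤ j then v.getD (j - p) false else false := by
  unfold plc
  by_cases hj : j < R
  · rw [List.getD_eq_getElem?_getD, List.getElem?_map, List.getElem?_range hj]
    by_cases hp : p ≤ j
    · simp [hj, hp]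
    · simp [hp]
  · rw [List.getD_eq_getElem?_getD, List.getElem?_eq_none (by simp; omega)]
    simp [hj]

theorem DMC_take (w : ℕ → Str) (a b : ℕ) (hb : b ≤ a) :
    ((List.range a).map w).take b = (List.range b).map w := by
  rw [← List.map_take, List.take_range, Nat.min_eq_left hb]

theorem DMC_getD (w : ℕ → Str) (a b : ℕ) (hb : b < a) :
    ((List.range a).map w).getD b [] = w b := by
  rw [List.getD_eq_getElem?_getD, List.getElem?_map, List.getElem?_range hb]
  rfl

/-- The members of `sld`. -/
theorem DMC_sld (w : ℕ → Str) : ∀ (d a : ℕ), ∀ t ∈ sld d ((List.range a).map w),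
    ∃ js : List ℕ, t = js.map w ∧ js.length = d ∧ (js.Pairwise fun x y => y < x) ∧
      ∀ j ∈ js, j < a := by
  intro d
  induction d with
  | zero =>
    intro a t ht
    rw [sld, List.mem_singleton] at ht
    exact ⟨[], by rw [ht]; rfl, rfl, List.Pairwise.nil, by simp⟩
  | succ d ih =>
    intro a t ht
    rw [sld, List.mem_flatMap] at ht
    obtain ⟨b, hb, ht⟩ := ht
    rw [List.mem_range, List.length_map, List.length_range] at hb
    obtain ⟨t', ht', rfl⟩ := List.mem_map.1 ht
    rw [DMC_take w a b hb.le] at ht'
    obtain ⟨js, h1, h2, h3, h4⟩ := ih b t' ht'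
    refine ⟨b :: js, ?_, ?_, ?_, ?_⟩
    · rw [DMC_getD w a b hb, h1]
      rfl
    · rw [List.length_cons, h2]
    · exact List.pairwise_cons.2 ⟨h4, h3⟩
    · intro j hj
      rcases List.mem_cons.1 hj with rfl | hj
      · exact hb
      · exact (h4 j hj).trans hb

/-- The number of the members of `sld`. -/
theorem DMC_card (w : ℕ → Str) : ∀ (d a : ℕ), (sld d ((List.range a).map w)).length ≤ a ^ d := by
  intro d
  induction d with
  | zero =>
    intro a
    simp [sld]
  | succ d ih =>
    intro a
    rw [sld, List.length_flatMap]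
    have h1 : ∀ x ∈ ((List.range ((List.range a).map w).length).map fun b =>
        ((sld d (((List.range a).map w).take b)).map fun t =>
          ((List.range a).map w).getD b [] :: t).length), x ≤ a ^ d := by
      intro x hx
      obtain ⟨b, hb, rfl⟩ := List.mem_map.1 hx
      rw [List.mem_range, List.length_map, List.length_range] at hb
      rw [List.length_map, DMC_take w a b hb.le]
      exact (ih b).trans (Nat.pow_le_pow_left hb.le _)
    have h2 := List.sum_le_card_nsmul _ _ h1
    rw [pow_succ, Nat.mul_comm]
    simp only [List.length_map, List.length_range, smul_eq_mul] at h2 ⊢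
    exact h2

/-- The position of a pair in the list. -/
theorem DMC_pos {α : Type} (l : List α) (k : ℕ) (hk : k < l.length) : ∀ (M i : ℕ), i < M →
    ∃ x < M * l.length, ∀ g : ℕ → α → ℕ,
      ((List.range M).flatMap fun i => l.map (g i)).getD x 0 = g i l[k] := by
  intro M
  induction M with
  | zero => intro i hi; omega
  | succ M ih =>
    intro i hi
    have hl : ∀ g : ℕ → α → ℕ,
        ((List.range M).flatMap fun i => l.map (g i)).length = M * l.length := by
      intro g
      rw [List.length_flatMap]
      have : ((List.range M).map fun i => (l.map (g i)).length) = List.replicate M l.length := by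
        rw [List.eq_replicate_iff]
        refine ⟨by simp, fun b hb => ?_⟩
        obtain ⟨u, -, rfl⟩ := List.mem_map.1 hb
        rw [List.length_map]
      rw [this, List.sum_replicate, smul_eq_mul]
    have hsplit : ∀ g : ℕ → α → ℕ, ((List.range (M + 1)).flatMap fun i => l.map (g i)) =
        ((List.range M).flatMap fun i => l.map (g i)) ++ l.map (g M) := by
      intro g
      rw [List.range_succ, List.flatMap_append, List.flatMap_cons, List.flatMap_nil,
        List.append_nil]
    by_cases him : i < M
    · obtain ⟨x, hx, h⟩ := ih i him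
      refine ⟨x, ?_, fun g => ?_⟩
      · rw [Nat.succ_mul]
        omega
      · rw [hsplit, List.getD_append _ _ _ _ (by rw [hl]; exact hx)]
        exact h g
    · have hiM : i = M := by omega
      subst hiM
      refine ⟨i * l.length + k, ?_, fun g => ?_⟩
      · rw [Nat.succ_mul]
        omega
      · rw [hsplit, List.getD_append_right _ _ _ _ (by rw [hl]; omega), hl,
          Nat.add_sub_cancel_left, List.getD_eq_getElem _ _ (by rw [List.length_map]; exact hk),
          List.getElem_map]

theorem DMC_sum {β : Type} [AddCommMonoid β] (f : ℕ → β) : ∀ n : ℕ,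
    ((List.range n).map f).sum = ∑ i ∈ Finset.range n, f i := by
  intro n
  induction n with
  | zero => simp
  | succ n ih => rw [List.range_succ, List.map_append, List.sum_append, ih,
      Finset.sum_range_succ]; simp

theorem DMC_mem_supp (z : Str) (i : ℕ) : i ∈ supp z ↔ z.getD i false = true := by
  unfold supp
  rw [Finset.mem_filter, Finset.mem_range]
  constructor
  · exact fun h => h.2
  · intro h
    refine ⟨?_, h⟩
    by_contra hc
    rw [List.getD_eq_default _ _ (by omega)] at h
    exact Bool.noConfusion h

theorem p_DMC (hZMC : Stmt_ZMC) (hNZB : Stmt_NZB) (hRS2 : Stmt_RS2) : Stmt_DMC := by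
  intro ps F m d M R G r hps hm hm0 hF hG hR
  obtain ⟨-, hmono, -⟩ := hNZB ps
  set W : ℕ → List Str := fun a => (dims ps F m d M R G)^[a] [] with hW
  set I : ℕ → List (List ℕ) := fun a =>
    (List.range G).map fun v => (List.range M).flatMap fun i => (sld d (W a)).map fun t =>
      dmn m (F i) (d + 1) (ev R ((W a).length * G + v) :: t) (List.replicate R false) % m with hI
  set δ : ℕ → Str := fun a => zsm ps (M * (sld d (W a)).length) (I a) with hδ
  set w : ℕ → Str := fun a => plc R ((W a).length * G) (δ a) with hw
  have hW0 : W 0 = [] := rfl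
  have hWs : ∀ a, W (a + 1) = W a ++ [w a] := by
    intro a
    show (dims ps F m d M R G)^[a + 1] [] = _
    rw [Function.iterate_succ_apply']
    rfl
  have hWr : ∀ a, W a = (List.range a).map w := by
    intro a
    induction a with
    | zero => rfl
    | succ a ih => rw [hWs, ih, List.range_succ, List.map_append, List.map_cons, List.map_nil]
  have hWl : ∀ a, (W a).length = a := fun a => by rw [hWr a, List.length_map, List.length_range]
  have hwl : ∀ a, (w a).length = R := fun a => DMC_plc_length _ _ _
  have hWmem : ∀ a, ∀ v ∈ W a, v.length = R := by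
    intro a v hv
    rw [hWr a] at hv
    obtain ⟨b, -, rfl⟩ := List.mem_map.1 hv
    exact hwl b
  have hWget : ∀ a b, b < a → (W a).getD b [] = w b := by
    intro a b hb
    rw [hWr a]
    exact DMC_getD w a b hb
  have hIl : ∀ a, (I a).length = G := by
    intro a
    show ((List.range G).map _).length = G
    rw [List.length_map, List.length_range]
  have hLa : ∀ a ≤ r, M * (sld d (W a)).length ≤ M * r ^ d := by
    intro a ha
    refine Nat.mul_le_mul_left _ ?_
    rw [hWr a]
    exact (DMC_card w d a).trans (Nat.pow_le_pow_left ha _)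
  have hnz : ∀ a ≤ r, nzm ps (M * (sld d (W a)).length) ≤ G := fun a ha =>
    (hmono _ _ (hLa a ha)).trans hG
  have hδ3 : ∀ a ≤ r, (δ a).length ≤ G ∧ true ∈ δ a ∧
      ∀ x < M * (sld d (W a)).length, m ∣ ssum (I a) (δ a) x := by
    intro a ha
    obtain ⟨h1, h2, h3⟩ := hZMC ps (M * (sld d (W a)).length) (I a) hps
      (by rw [hIl]; exact hnz a ha)
    refine ⟨?_, h2, ?_⟩
    · show (zsm ps (M * (sld d (W a)).length) (I a)).length ≤ G
      rw [h1]
      exact hnz a ha
    · rw [hm] at h3
      exact h3
  have hwg : ∀ a j, (w a).getD j false =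
      if j < R ∧ a * G ≤ j then (δ a).getD (j - a * G) false else false := by
    intro a j
    show (plc R ((W a).length * G) (δ a)).getD j false = _
    rw [DMC_plc_getD, hWl a]
  have hle : ∀ a < r, (a + 1) * G ≤ R := fun a ha =>
    (Nat.mul_le_mul_right _ (Nat.succ_le_of_lt ha)).trans hR
  have hgrp : ∀ a < r, (∃ j, a * G ≤ j ∧ j < (a + 1) * G ∧ (w a).getD j false = true) ∧
      ∀ j, j < a * G ∨ (a + 1) * G ≤ j → (w a).getD j false = false := by
    intro a ha
    obtain ⟨h1, h2, -⟩ := hδ3 a ha.le
    have hle' := hle a ha
    have hexp : (a + 1) * G = a * G + G := by ring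
    constructor
    · obtain ⟨k, hk, hk2⟩ := List.getElem_of_mem h2
      refine ⟨a * G + k, by omega, by omega, ?_⟩
      rw [hwg, if_pos ⟨by omega, by omega⟩, Nat.add_sub_cancel_left,
        List.getD_eq_getElem _ _ hk, hk2]
    · intro j hj
      rw [hwg]
      by_cases hc : j < R ∧ a * G ≤ j
      · rw [if_pos hc, List.getD_eq_default _ _ (by omega)]
      · rw [if_neg hc]
  have hsub : ∀ a < r, ∀ j ∈ supp (w a), a * G ≤ j ∧ j < (a + 1) * G := by
    intro a ha j hj
    rw [DMC_mem_supp] at hj
    by_contra hc
    have h2 : j < a * G ∨ (a + 1) * G ≤ j := by omega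
    rw [(hgrp a ha).2 j h2] at hj
    exact Bool.noConfusion hj
  have hdis : ∀ a b, a < r → b < a → Disjoint (supp (w a)) (supp (w b)) := by
    intro a b ha hb
    rw [Finset.disjoint_left]
    intro j hj hj'
    have h1 := (hsub a ha j hj).1
    have h2 := (hsub b (hb.trans ha) j hj').2
    have h3 : (b + 1) * G ≤ a * G := Nat.mul_le_mul_right _ hb
    omega
  have hdir : dirm ps F m d M R G r = W r := rfl
  rw [hdir]
  refine ⟨hWl r, hWmem r, ?_, ?_⟩
  · intro a ha
    rw [hWget r a ha]
    exact hgrp a ha
  · intro i hi t ht
    rw [sld, List.mem_flatMap] at ht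
    obtain ⟨a, ha, ht⟩ := ht
    rw [List.mem_range, hWl] at ha
    obtain ⟨t', ht', rfl⟩ := List.mem_map.1 ht
    rw [hWr r, DMC_take w r a ha.le, ← hWr a] at ht'
    rw [hWget r a ha]
    have ht'' := ht'
    rw [hWr a] at ht''
    obtain ⟨js, g1, g2, g3, g4⟩ := DMC_sld w d a t' ht''
    have htl : t'.length = d := by rw [g1, List.length_map, g2]
    have htm : ∀ v ∈ t', v.length = R := by
      intro v hv
      rw [g1] at hv
      obtain ⟨b, -, rfl⟩ := List.mem_map.1 hv
      exact hwl b
    have hpw : (w a :: t').Pairwise (fun u v => Disjoint (supp u) (supp v)) := by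
      rw [List.pairwise_cons]
      constructor
      · intro v hv
        rw [g1] at hv
        obtain ⟨b, hb, rfl⟩ := List.mem_map.1 hv
        exact hdis a b ha (g4 b hb)
      · rw [g1, List.pairwise_map]
        refine List.Pairwise.imp_of_mem ?_ g3
        intro x y hx hy hxy
        exact hdis x y ((g4 x hx).trans ha) hxy
    rw [hRS2 m R d (F i) hm0 (hF i hi) (w a) t' htl (hwl a) htm hpw]
    -- the sum over the support
    obtain ⟨f, hf⟩ : ∃ f : ℕ → ℕ, f = fun v =>
      dmn m (F i) (d + 1) (ev R v :: t') (List.replicate R false) := ⟨_, rfl⟩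
    obtain ⟨k, hk, hk2⟩ := List.getElem_of_mem ht'
    obtain ⟨x, hx, hx2⟩ := DMC_pos (sld d (W a)) k hk M i hi
    have hIx : ∀ v < G, ((I a).getD v []).getD x 0 = f (a * G + v) % m := by
      intro v hv
      have h1 : (I a).getD v [] = (List.range M).flatMap fun i => (sld d (W a)).map fun t =>
          dmn m (F i) (d + 1) (ev R ((W a).length * G + v) :: t) (List.replicate R false) % m := by
        show ((List.range G).map _).getD v [] = _
        rw [List.getD_eq_getElem?_getD, List.getElem?_map, List.getElem?_range hv]
        rfl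
      rw [h1]
      have h2 := hx2 (fun i t => dmn m (F i) (d + 1) (ev R ((W a).length * G + v) :: t)
        (List.replicate R false) % m)
      rw [h2, hk2, hf, hWl a]
    have hss : (ssum (I a) (δ a) x : ZMod m) =
        ∑ v ∈ Finset.range G, if (δ a).getD v false = true then (f (a * G + v) : ZMod m)
          else 0 := by
      unfold ssum
      rw [hIl, DMC_sum, Nat.cast_sum]
      refine Finset.sum_congr rfl fun v hv => ?_
      rw [Finset.mem_range] at hv
      by_cases hc : (δ a).getD v false = true
      · rw [if_pos hc, if_pos hc, hIx v hv, ZMod.natCast_mod]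
      · rw [if_neg hc, if_neg hc, Nat.cast_zero]
    have hzero : (ssum (I a) (δ a) x : ZMod m) = 0 := by
      rw [ZMod.natCast_eq_zero_iff]
      exact (hδ3 a ha.le).2.2 x hx
    have hsupp : supp (w a) = ((Finset.range G).filter fun v => (δ a).getD v false = true).map
        (addLeftEmbedding (a * G)) := by
      have hle' := hle a ha
      have hexp : (a + 1) * G = a * G + G := by ring
      ext j
      rw [DMC_mem_supp, Finset.mem_map]
      constructor
      · intro hj
        obtain ⟨h1, h2⟩ := hsub a ha j ((DMC_mem_supp _ _).2 hj)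
        refine ⟨j - a * G, ?_, ?_⟩
        · rw [Finset.mem_filter, Finset.mem_range]
          refine ⟨by omega, ?_⟩
          rw [hwg, if_pos ⟨by omega, h1⟩] at hj
          exact hj
        · rw [addLeftEmbedding_apply]
          omega
      · rintro ⟨v, hv, rfl⟩
        rw [Finset.mem_filter, Finset.mem_range] at hv
        rw [addLeftEmbedding_apply, hwg, if_pos ⟨by omega, by omega⟩, Nat.add_sub_cancel_left]
        exact hv.2
    rw [hsupp, Finset.sum_map, Finset.sum_filter]
    rw [hss] at hzero
    refine Eq.trans ?_ hzero
    refine Finset.sum_congr rfl fun v hv => ?_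
    rw [addLeftEmbedding_apply, hf]

end Pool.EV
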