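import Pool.Agent.Work.MP_cb380d_ev.InterfaceD

/-! Block DMP of THEOREM EV, part D (helper9): the directions in polynomial time. -/

set_option autoImplicit false

open Pool.IC Pool.GL Pool.TL Polynomial

namespace Pool.EV

theorem DMP_dmn (hPLF : Stmt_PLF) (B : Set Str) (γ : Type) [SE γ] (m : ℕ) (F : γ → Str → ℕ)
    (hF : PolyF B (fun p : γ × Str => F p.1 p.2)) (n : ℕ) :
    PolyF B (fun p : γ × List Str × Str => dmn m (F p.1) n p.2.1 p.2.2) := by
  obtain ⟨-, -, -, -, -, -, -, -, hadd, -⟩ := hPLF B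
  induction n with
  | zero =>
    exact PolyF.comp (f := fun p : γ × Str => F p.1 p.2)
      (g := fun p : γ × List Str × Str => (p.1, p.2.2)) hF (by fun_prop)
  | succ n ih =>
    have ha : PolyF B (fun p : γ × List Str × Str => add p.2.2 (p.2.1.headD [])) :=
      PolyF.comp (f := fun p : Str × Str => add p.1 p.2)
        (g := fun p : γ × List Str × Str => (p.2.2, p.2.1.headD [])) hadd (by fun_prop)
    have h1 : PolyF B (fun p : γ × List Str × Str =>
        dmn m (F p.1) n p.2.1.tail (add p.2.2 (p.2.1.headD []))) :=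
      PolyF.comp (f := fun p : γ × List Str × Str => dmn m (F p.1) n p.2.1 p.2.2)
        (g := fun p : γ × List Str × Str => (p.1, p.2.1.tail, add p.2.2 (p.2.1.headD []))) ih
        (by fun_prop)
    have h2 : PolyF B (fun p : γ × List Str × Str => dmn m (F p.1) n p.2.1.tail p.2.2) :=
      PolyF.comp (f := fun p : γ × List Str × Str => dmn m (F p.1) n p.2.1 p.2.2)
        (g := fun p : γ × List Str × Str => (p.1, p.2.1.tail, p.2.2)) ih (by fun_prop)
    have h3 : PolyF B (fun p : γ × List Str × Str =>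
        dmn m (F p.1) n p.2.1.tail (add p.2.2 (p.2.1.headD [])) +
          (m - 1) * dmn m (F p.1) n p.2.1.tail p.2.2) := by fun_prop
    exact h3

theorem DMP_sld (B : Set Str) (n : ℕ) : PolyF B (fun U : List Str => sld n U) := by
  induction n with
  | zero =>
    have h : PolyF B (fun _ : List Str => ([[]] : List (List Str))) := by fun_prop
    exact h
  | succ n ih =>
    have h1 : PolyF B (fun q : List Str × ℕ =>
        (sld n (q.1.take q.2)).map fun t => q.1.getD q.2 [] :: t) := by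
      refine PolyF.map (l := fun q : List Str × ℕ => sld n (q.1.take q.2))
        (f := fun (q : List Str × ℕ) (t : List Str) => q.1.getD q.2 [] :: t) ?_ (by fun_prop)
      exact PolyF.comp (f := fun U : List Str => sld n U)
        (g := fun q : List Str × ℕ => q.1.take q.2) ih (by fun_prop)
    have h2 : PolyF B (fun U : List Str => (List.range U.length).flatMap fun a =>
        (sld n (U.take a)).map fun t => U.getD a [] :: t) := by
      refine PolyF.flatMap (l := fun U : List Str => List.range U.length)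
        (f := fun (U : List Str) (a : ℕ) => (sld n (U.take a)).map fun t => U.getD a [] :: t)
        (by fun_prop) ?_
      exact h1
    exact h2

theorem DMP_length_plc (R p : ℕ) (v : Str) : (plc R p v).length = R := by
  simp [plc]

theorem DMP_sz (ps : List (ℕ × ℕ × List (List ℕ))) (F : ℕ → Str → ℕ) (m d M R G : ℕ)
    (U : List Str) : sz (dims ps F m d M R G U) = sz U + (8 * R + 2) := by
  unfold dims
  rw [sz_append, sz_cons, sz_nil, sz_str, DMP_length_plc]
  omega

theorem p_DMP (hPLF : Stmt_PLF) (hMDV : Stmt_MDV) (hZMP : Stmt_ZMP) : Stmt_DMP := by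
  intro B ps hps γ _ F m d hF
  have hP := hPLF B
  have hplc : PolyF B (fun p : ℕ × ℕ × Str => plc p.1 p.2.1 p.2.2) :=
    hP.2.2.2.2.2.2.2.2.2.1
  have hev : PolyF B (fun p : ℕ × ℕ => ev p.1 p.2) := hP.2.2.2.2.2.2.2.2.2.2.2.1
  have hmod : PolyF B (fun a : ℕ => a % m) := (hMDV B m).1
  have hzsm : PolyF B (fun q : ℕ × List (List ℕ) => zsm ps q.1 q.2) := (hZMP B ps hps).2.1
  have hF' : PolyF B (fun p : (γ × ℕ) × Str => F p.1.1 p.1.2 p.2) :=
    PolyF.comp (f := fun p : γ × ℕ × Str => F p.1 p.2.1 p.2.2)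
      (g := fun p : (γ × ℕ) × Str => (p.1.1, p.1.2, p.2)) hF (by fun_prop)
  have hD := DMP_dmn hPLF B (γ × ℕ) m (fun q s => F q.1 q.2 s) hF' (d + 1)
  have hT := DMP_sld B d
  -- unit vector
  have hE : PolyF B (fun y : ((((γ × ℕ × ℕ × ℕ × ℕ) × List Str) × ℕ) × ℕ) × List Str =>
      ev y.1.1.1.1.2.2.1 (y.1.1.1.2.length * y.1.1.1.1.2.2.2.1 + y.1.1.2)) :=
    PolyF.comp (f := fun p : ℕ × ℕ => ev p.1 p.2)
      (g := fun y : ((((γ × ℕ × ℕ × ℕ × ℕ) × List Str) × ℕ) × ℕ) × List Str =>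
        (y.1.1.1.1.2.2.1, y.1.1.1.2.length * y.1.1.1.1.2.2.2.1 + y.1.1.2)) hev (by fun_prop)
  -- one entry
  have hN : PolyF B (fun y : ((((γ × ℕ × ℕ × ℕ × ℕ) × List Str) × ℕ) × ℕ) × List Str =>
      dmn m (fun s => F y.1.1.1.1.1 y.1.2 s) (d + 1)
        (ev y.1.1.1.1.2.2.1 (y.1.1.1.2.length * y.1.1.1.1.2.2.2.1 + y.1.1.2) :: y.2)
        (List.replicate y.1.1.1.1.2.2.1 false)) :=
    PolyF.comp (f := fun p : (γ × ℕ) × List Str × Str =>
        dmn m (fun s => F p.1.1 p.1.2 s) (d + 1) p.2.1 p.2.2)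
      (g := fun y : ((((γ × ℕ × ℕ × ℕ × ℕ) × List Str) × ℕ) × ℕ) × List Str =>
        ((y.1.1.1.1.1, y.1.2),
          ev y.1.1.1.1.2.2.1 (y.1.1.1.2.length * y.1.1.1.1.2.2.2.1 + y.1.1.2) :: y.2,
          List.replicate y.1.1.1.1.2.2.1 false)) hD (by fun_prop)
  have hN' : PolyF B (fun y : ((((γ × ℕ × ℕ × ℕ × ℕ) × List Str) × ℕ) × ℕ) × List Str =>
      dmn m (fun s => F y.1.1.1.1.1 y.1.2 s) (d + 1)
        (ev y.1.1.1.1.2.2.1 (y.1.1.1.2.length * y.1.1.1.1.2.2.2.1 + y.1.1.2) :: y.2)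
        (List.replicate y.1.1.1.1.2.2.1 false) % m) :=
    PolyF.comp (f := fun a : ℕ => a % m)
      (g := fun y : ((((γ × ℕ × ℕ × ℕ × ℕ) × List Str) × ℕ) × ℕ) × List Str =>
      dmn m (fun s => F y.1.1.1.1.1 y.1.2 s) (d + 1)
        (ev y.1.1.1.1.2.2.1 (y.1.1.1.2.length * y.1.1.1.1.2.2.2.1 + y.1.1.2) :: y.2)
        (List.replicate y.1.1.1.1.2.2.1 false)) hmod hN
  have hM1 : PolyF B (fun y : (((γ × ℕ × ℕ × ℕ × ℕ) × List Str) × ℕ) × ℕ =>
      (sld d y.1.1.2).map fun t =>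
        dmn m (fun s => F y.1.1.1.1 y.2 s) (d + 1)
        (ev y.1.1.1.2.2.1 (y.1.1.2.length * y.1.1.1.2.2.2.1 + y.1.2) :: t)
        (List.replicate y.1.1.1.2.2.1 false) % m) := by
    refine PolyF.map (l := fun y : (((γ × ℕ × ℕ × ℕ × ℕ) × List Str) × ℕ) × ℕ => sld d y.1.1.2)
      (f := fun y t =>
        dmn m (fun s => F y.1.1.1.1 y.2 s) (d + 1)
        (ev y.1.1.1.2.2.1 (y.1.1.2.length * y.1.1.1.2.2.2.1 + y.1.2) :: t)
        (List.replicate y.1.1.1.2.2.1 false) % m) ?_ hN'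
    exact PolyF.comp (f := fun U : List Str => sld d U)
      (g := fun y : (((γ × ℕ × ℕ × ℕ × ℕ) × List Str) × ℕ) × ℕ => y.1.1.2) hT (by fun_prop)
  have hM2 : PolyF B (fun y : ((γ × ℕ × ℕ × ℕ × ℕ) × List Str) × ℕ =>
      (List.range y.1.1.2.1).flatMap fun i => (sld d y.1.2).map fun t =>
        dmn m (fun s => F y.1.1.1 i s) (d + 1)
        (ev y.1.1.2.2.1 (y.1.2.length * y.1.1.2.2.2.1 + y.2) :: t)
        (List.replicate y.1.1.2.2.1 false) % m) := by
    refine PolyF.flatMap (l := fun y : ((γ × ℕ × ℕ × ℕ × ℕ) × List Str) × ℕ =>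
        List.range y.1.1.2.1)
      (f := fun y i => (sld d y.1.2).map fun t =>
        dmn m (fun s => F y.1.1.1 i s) (d + 1)
        (ev y.1.1.2.2.1 (y.1.2.length * y.1.1.2.2.2.1 + y.2) :: t)
        (List.replicate y.1.1.2.2.1 false) % m) (by fun_prop) hM1
  have hM3 : PolyF B (fun y : (γ × ℕ × ℕ × ℕ × ℕ) × List Str =>
      (List.range y.1.2.2.2.1).map fun v => (List.range y.1.2.1).flatMap fun i =>
        (sld d y.2).map fun t =>
        dmn m (fun s => F y.1.1 i s) (d + 1)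
        (ev y.1.2.2.1 (y.2.length * y.1.2.2.2.1 + v) :: t)
        (List.replicate y.1.2.2.1 false) % m) := by
    refine PolyF.map (l := fun y : (γ × ℕ × ℕ × ℕ × ℕ) × List Str => List.range y.1.2.2.2.1)
      (f := fun y v => (List.range y.1.2.1).flatMap fun i =>
        (sld d y.2).map fun t =>
        dmn m (fun s => F y.1.1 i s) (d + 1)
        (ev y.1.2.2.1 (y.2.length * y.1.2.2.2.1 + v) :: t)
        (List.replicate y.1.2.2.1 false) % m) (by fun_prop) hM2
  have hT' : PolyF B (fun y : (γ × ℕ × ℕ × ℕ × ℕ) × List Str => sld d y.2) :=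
    PolyF.comp (f := fun U : List Str => sld d U)
      (g := fun y : (γ × ℕ × ℕ × ℕ × ℕ) × List Str => y.2) hT (by fun_prop)
  have hZ : PolyF B (fun y : (γ × ℕ × ℕ × ℕ × ℕ) × List Str =>
      zsm ps (y.1.2.1 * (sld d y.2).length) ((List.range y.1.2.2.2.1).map fun v =>
        (List.range y.1.2.1).flatMap fun i =>
        (sld d y.2).map fun t =>
        dmn m (fun s => F y.1.1 i s) (d + 1)
        (ev y.1.2.2.1 (y.2.length * y.1.2.2.2.1 + v) :: t)
        (List.replicate y.1.2.2.1 false) % m)) :=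
    PolyF.comp (f := fun q : ℕ × List (List ℕ) => zsm ps q.1 q.2)
      (g := fun y : (γ × ℕ × ℕ × ℕ × ℕ) × List Str =>
        (y.1.2.1 * (sld d y.2).length, (List.range y.1.2.2.2.1).map fun v =>
        (List.range y.1.2.1).flatMap fun i =>
        (sld d y.2).map fun t =>
        dmn m (fun s => F y.1.1 i s) (d + 1)
        (ev y.1.2.2.1 (y.2.length * y.1.2.2.2.1 + v) :: t)
        (List.replicate y.1.2.2.1 false) % m)) hzsm
      (PolyF.pair (by fun_prop) hM3)
  have hV : PolyF B (fun y : (γ × ℕ × ℕ × ℕ × ℕ) × List Str =>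
      plc y.1.2.2.1 (y.2.length * y.1.2.2.2.1)
        (zsm ps (y.1.2.1 * (sld d y.2).length) ((List.range y.1.2.2.2.1).map fun v =>
        (List.range y.1.2.1).flatMap fun i =>
        (sld d y.2).map fun t =>
        dmn m (fun s => F y.1.1 i s) (d + 1)
        (ev y.1.2.2.1 (y.2.length * y.1.2.2.2.1 + v) :: t)
        (List.replicate y.1.2.2.1 false) % m))) :=
    PolyF.comp (f := fun p : ℕ × ℕ × Str => plc p.1 p.2.1 p.2.2)
      (g := fun y : (γ × ℕ × ℕ × ℕ × ℕ) × List Str =>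
        (y.1.2.2.1, y.2.length * y.1.2.2.2.1,
        zsm ps (y.1.2.1 * (sld d y.2).length) ((List.range y.1.2.2.2.1).map fun v =>
        (List.range y.1.2.1).flatMap fun i =>
        (sld d y.2).map fun t =>
        dmn m (fun s => F y.1.1 i s) (d + 1)
        (ev y.1.2.2.1 (y.2.length * y.1.2.2.2.1 + v) :: t)
        (List.replicate y.1.2.2.1 false) % m))) hplc
      (PolyF.pair (by fun_prop) (PolyF.pair (by fun_prop) hZ))
  have hstep : PolyF B (fun x : (γ × ℕ × ℕ × ℕ × ℕ) × List Str =>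
      dims ps (F x.1.1) m d x.1.2.1 x.1.2.2.1 x.1.2.2.2.1 x.2) := by
    unfold dims
    exact PolyF.append (by fun_prop) (PolyF.cons hV (PolyF.const _))
  refine PolyF.iterate_add (n := fun p : γ × ℕ × ℕ × ℕ × ℕ => p.2.2.2.2)
    (g := fun _ => ([] : List Str))
    (h := fun p U => dims ps (F p.1) m d p.2.1 p.2.2.1 p.2.2.2.1 U)
    (by fun_prop) (by fun_prop) hstep (8 * X + 2) ?_
  intro p U
  rw [DMP_sz]
  obtain ⟨c, M, R, G, r⟩ := p
  simp only [sz_pair, sz_nat, eval_add, eval_mul, eval_ofNat, eval_X]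
  omega

end Pool.EV
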