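import Pool.Agent.Work.MP_cb380d_ev.InterfaceF

/-! # MP_cb380d_lc, part F, block DNC (helper94) -/

open Pool.IC Pool.GL Pool.TL Polynomial

namespace Pool.EV

theorem DNC_pnt_length (n : ℕ) (α : Lits) : (pnt n α).length = n := by
  simp [pnt]

theorem DNC_pnt_getD (n : ℕ) (α : Lits) (i : ℕ) (hi : i < n) :
    (pnt n α).getD i false = decide (lku α i = some true) := by
  rw [List.getD_eq_getElem _ _ (by rw [DNC_pnt_length]; exact hi)]
  simp [pnt]

theorem DNC_key (hCUB : Stmt_CUB) (hRLC : Stmt_RLC) (t n : ℕ) (g : Str → Bool)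
    (hg : Jun t n g) (s : Bool) (x : Str) (hx : x.length = n) :
    (((cub t (rel t n g)).filter fun α => xor (g (pnt n α)) s).any (tev x)) =
      xor (g x) s := by
  obtain ⟨hlen, hnd, hlt, hag⟩ := hRLC t n g hg
  obtain ⟨-, hc1, hc2, hc3, hc4⟩ := hCUB
  obtain ⟨hc1, hc5⟩ := hc1 t (rel t n g) hlen
  have hval : ∀ α ∈ cub t (rel t n g), tev x α = true → g (pnt n α) = g x := by
    intro α hα hx1
    apply hag _ _ (DNC_pnt_length n α) hx
    intro i hi
    have h1 : i ∈ α.map Prod.fst := by rw [hc1 α hα]; exact hi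
    obtain ⟨⟨j, c⟩, hj, hji⟩ := List.mem_map.1 h1
    simp only at hji
    subst hji
    have h2 : lku α j = some c := hc4 α j c (by rw [hc1 α hα]; exact hnd) hj
    rw [DNC_pnt_getD n α j (hlt j hi), h2]
    unfold tev at hx1
    rw [List.all_eq_true] at hx1
    have h3 := hx1 (j, c) hj
    simp only [decide_eq_true_eq] at h3
    rw [h3]
    cases c <;> simp
  have hx0 := hc5 x
  have hx0t : tev x ((rel t n g).map fun q => (q, x.getD q false)) = true := by
    unfold tev
    rw [List.all_eq_true]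
    intro l hl
    obtain ⟨q, -, rfl⟩ := List.mem_map.1 hl
    simp
  rw [Bool.eq_iff_iff, List.any_eq_true]
  constructor
  · rintro ⟨α, hα, hαx⟩
    rw [List.mem_filter] at hα
    rw [hval α hα.1 hαx] at hα
    exact hα.2
  · intro h
    refine ⟨_, List.mem_filter.2 ⟨hx0, ?_⟩, hx0t⟩
    rw [hval _ hx0 hx0t]
    exact h

theorem p_DNC (hCUB : Stmt_CUB) (hRLC : Stmt_RLC) : Stmt_DNC := by
  intro t n G L hJ
  constructor
  · intro F hF T hT
    unfold dnl at hF
    obtain ⟨gt, -, rfl⟩ := List.mem_map.1 hF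
    obtain ⟨l, -, hl⟩ := List.mem_flatMap.1 hT
    rw [List.mem_filter] at hl
    obtain ⟨hlen, hnd, hlt, -⟩ := hRLC t n _ (hJ l.1)
    obtain ⟨-, hc1, -⟩ := hCUB
    have h1 := (hc1 t _ hlen).1 T hl.1
    refine ⟨?_, ?_, ?_⟩
    · have h2 : (T.map Prod.fst).length ≤ t := by rw [h1]; exact hlen
      simpa using h2
    · rw [h1]; exact hnd
    · intro a ha
      apply hlt
      rw [← h1]
      exact List.mem_map_of_mem ha
  · intro x hx
    unfold dnl lay
    rw [List.map_map]
    refine List.map_congr_left fun gt _ => ?_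
    simp only [Function.comp_apply, dev]
    rw [List.any_flatMap]
    congr 1
    funext l
    exact DNC_key hCUB hRLC t n (fun x => (G x).getD l.1 false) (hJ l.1) l.2 x hx

end Pool.EV
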