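import Pool.Agent.Work.MP_cb380d_ev.InterfaceC

/-! Block DRP (helper60): the good directions in polynomial time. -/

set_option autoImplicit false

open Pool.IC Pool.GL Pool.TL Polynomial

namespace Pool.EV

theorem DRP_length_plc (R p : ℕ) (v : Str) : (plc R p v).length = R := by
  simp [plc]

theorem DRP_sz (F : ℕ → Str → Bool) (d m R G : ℕ) (U : List Str) :
    sz (dirs F d m R G U) = sz U + (8 * R + 2) := by
  unfold dirs
  rw [sz_append, sz_cons, sz_nil, sz_str, DRP_length_plc]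
  omega

theorem p_DRP (hPLF : Stmt_PLF) (hSLP : Stmt_SLP) (hDVP : Stmt_DVP) : Stmt_DRP := by
  intro B γ _ F d hF
  obtain ⟨-, -, -, -, -, -, -, -, -, hplc, -⟩ := hPLF B
  have hF' : PolyF B (fun p : (γ × ℕ) × Str => F p.1.1 p.1.2 p.2) :=
    PolyF.comp (f := fun p : γ × ℕ × Str => F p.1 p.2.1 p.2.2)
      (g := fun p : (γ × ℕ) × Str => (p.1.1, p.1.2, p.2)) hF (by fun_prop)
  have hD := (hDVP B (γ × ℕ) (fun q s => F q.1 q.2 s) (d + 1) hF').1
  have hT := (hDVP B (γ × ℕ) (fun q s => F q.1 q.2 s) d hF').2.1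
  -- the list of conditions
  have hQ : PolyF B (fun x : (γ × ℕ × ℕ × ℕ × ℕ) × List Str =>
      (List.range x.1.2.1).flatMap fun i => (tup x.2 d).map fun t => (i, t)) := by
    refine PolyF.flatMap (l := fun x : (γ × ℕ × ℕ × ℕ × ℕ) × List Str => List.range x.1.2.1)
      (f := fun x i => (tup x.2 d).map fun t => (i, t)) (by fun_prop) ?_
    refine PolyF.map (l := fun p : ((γ × ℕ × ℕ × ℕ × ℕ) × List Str) × ℕ => tup p.1.2 d)
      (f := fun p t => (p.2, t)) ?_ (by fun_prop)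
    exact PolyF.comp (f := fun U : List Str => tup U d)
      (g := fun p : ((γ × ℕ × ℕ × ℕ × ℕ) × List Str) × ℕ => p.1.2) hT (by fun_prop)
  -- the functionals
  have hP : PolyF B (fun x : ((γ × ℕ × ℕ × ℕ × ℕ) × List Str) × (ℕ × List Str) × Str =>
      plc x.1.1.2.2.1 (x.1.2.length * x.1.1.2.2.2.1) x.2.2) :=
    PolyF.comp (f := fun p : ℕ × ℕ × Str => plc p.1 p.2.1 p.2.2)
      (g := fun x : ((γ × ℕ × ℕ × ℕ × ℕ) × List Str) × (ℕ × List Str) × Str =>
        (x.1.1.2.2.1, x.1.2.length * x.1.1.2.2.2.1, x.2.2)) hplc (by fun_prop)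
  have hL : PolyF B (fun x : ((γ × ℕ × ℕ × ℕ × ℕ) × List Str) × (ℕ × List Str) × Str =>
      dvn (fun s => F x.1.1.1 x.2.1.1 s) (d + 1)
        (plc x.1.1.2.2.1 (x.1.2.length * x.1.1.2.2.2.1) x.2.2 :: x.2.1.2)
        (List.replicate x.1.1.2.2.1 false)) :=
    PolyF.comp (f := fun p : (γ × ℕ) × List Str × Str =>
        dvn (fun s => F p.1.1 p.1.2 s) (d + 1) p.2.1 p.2.2)
      (g := fun x : ((γ × ℕ × ℕ × ℕ × ℕ) × List Str) × (ℕ × List Str) × Str =>
        ((x.1.1.1, x.2.1.1),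
          plc x.1.1.2.2.1 (x.1.2.length * x.1.1.2.2.2.1) x.2.2 :: x.2.1.2,
          List.replicate x.1.1.2.2.1 false)) hD (by fun_prop)
  -- the solver
  have hS : PolyF B (fun x : (γ × ℕ × ℕ × ℕ × ℕ) × List Str => slv x.1.2.2.2.1
      ((List.range x.1.2.1).flatMap fun i => (tup x.2 d).map fun t => (i, t))
      (fun q v => dvn (F x.1.1 q.1) (d + 1)
        (plc x.1.2.2.1 (x.2.length * x.1.2.2.2.1) v :: q.2)
        (List.replicate x.1.2.2.1 false))) :=
    hSLP B (ℕ × List Str) ((γ × ℕ × ℕ × ℕ × ℕ) × List Str) (fun x => x.1.2.2.2.1)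
      (fun x => (List.range x.1.2.1).flatMap fun i => (tup x.2 d).map fun t => (i, t))
      (fun x q v => dvn (F x.1.1 q.1) (d + 1)
        (plc x.1.2.2.1 (x.2.length * x.1.2.2.2.1) v :: q.2)
        (List.replicate x.1.2.2.1 false)) (by fun_prop) hQ hL
  have hV : PolyF B (fun x : (γ × ℕ × ℕ × ℕ × ℕ) × List Str =>
      plc x.1.2.2.1 (x.2.length * x.1.2.2.2.1) (slv x.1.2.2.2.1
        ((List.range x.1.2.1).flatMap fun i => (tup x.2 d).map fun t => (i, t))
        (fun q v => dvn (F x.1.1 q.1) (d + 1)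
          (plc x.1.2.2.1 (x.2.length * x.1.2.2.2.1) v :: q.2)
          (List.replicate x.1.2.2.1 false)))) :=
    PolyF.comp (f := fun p : ℕ × ℕ × Str => plc p.1 p.2.1 p.2.2)
      (g := fun x : (γ × ℕ × ℕ × ℕ × ℕ) × List Str =>
        (x.1.2.2.1, x.2.length * x.1.2.2.2.1, slv x.1.2.2.2.1
        ((List.range x.1.2.1).flatMap fun i => (tup x.2 d).map fun t => (i, t))
        (fun q v => dvn (F x.1.1 q.1) (d + 1)
          (plc x.1.2.2.1 (x.2.length * x.1.2.2.2.1) v :: q.2)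
          (List.replicate x.1.2.2.1 false)))) hplc (by fun_prop)
  have hstep : PolyF B (fun x : (γ × ℕ × ℕ × ℕ × ℕ) × List Str =>
      dirs (F x.1.1) d x.1.2.1 x.1.2.2.1 x.1.2.2.2.1 x.2) := by
    unfold dirs
    exact PolyF.append (by fun_prop) (PolyF.cons hV (PolyF.const _))
  refine PolyF.iterate_add (n := fun p : γ × ℕ × ℕ × ℕ × ℕ => p.2.2.2.2)
    (g := fun _ => ([] : List Str))
    (h := fun p U => dirs (F p.1) d p.2.1 p.2.2.1 p.2.2.2.1 U)
    (by fun_prop) (by fun_prop) hstep (8 * X + 2) ?_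
  intro p U
  rw [DRP_sz]
  obtain ⟨c, m, R, G, r⟩ := p
  simp only [sz_pair, sz_nat, eval_add, eval_mul, eval_ofNat, eval_X]
  omega

end Pool.EV
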