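import Pool.Agent.Work.MP_cb380d_ev.InterfaceC

set_option autoImplicit false

open Pool.IC Pool.GL Pool.TL Polynomial

namespace Pool.EV

lemma DTZ_len {N : ℕ} {z u : Str} (hz : z.length = N) (hu : u.length = N) :
    (add z u).length = N := by
  unfold add
  rw [List.length_zipWith, hz, hu, Nat.min_self]

lemma DTZ_ev_len (r j : ℕ) : (ev r j).length = r := by
  unfold ev
  rw [List.length_map, List.length_range]

/-- the first `k` bits of `u` -/
def DTZ_tr (r : ℕ) (u : Str) (k : ℕ) : Str :=
  (List.range r).map fun i => decide (i < k) && u.getD i false

lemma DTZ_tr_len (r : ℕ) (u : Str) (k : ℕ) : (DTZ_tr r u k).length = r := by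
  unfold DTZ_tr
  rw [List.length_map, List.length_range]

lemma DTZ_tr_zero (r : ℕ) (u : Str) : DTZ_tr r u 0 = List.replicate r false := by
  unfold DTZ_tr
  apply List.ext_getElem
  · simp
  · intro i h1 h2
    simp

lemma DTZ_tr_full (r : ℕ) (u : Str) (h : u.length = r) : DTZ_tr r u r = u := by
  unfold DTZ_tr
  apply List.ext_getElem
  · simp [h]
  · intro i h1 h2
    have h3 : i < r := by rw [← h]; exact h2
    simp [h3, List.getElem?_eq_getElem h2]

lemma DTZ_tr_succ (r : ℕ) (u : Str) (k : ℕ) : DTZ_tr r u (k + 1) =
    if u.getD k false = true then add (DTZ_tr r u k) (ev r k) else DTZ_tr r u k := by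
  split_ifs with h
  · unfold DTZ_tr add ev
    apply List.ext_getElem
    · simp
    · intro i h1 h2
      simp only [List.getElem_map, List.getElem_range, List.getElem_zipWith]
      rcases lt_trichotomy i k with h3 | h3 | h3
      · have h4 : i < k + 1 := by omega
        have h5 : i ≠ k := by omega
        rw [decide_eq_true h3, decide_eq_true h4, decide_eq_false h5]
        cases u.getD i false <;> rfl
      · subst h3
        rw [h, decide_eq_true (Nat.lt_succ_self i), decide_eq_false (lt_irrefl i),
          decide_eq_true rfl]
        rfl
      · have h4 : ¬ i < k + 1 := by omega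
        have h5 : i ≠ k := by omega
        have h6 : ¬ i < k := by omega
        rw [decide_eq_false h6, decide_eq_false h4, decide_eq_false h5]
        rfl
  · unfold DTZ_tr
    apply List.map_congr_left
    intro i _
    rcases lt_trichotomy i k with h3 | h3 | h3
    · have h4 : i < k + 1 := by omega
      rw [decide_eq_true h3, decide_eq_true h4]
    · subst h3
      have h7 : u.getD i false = false := by simpa using h
      rw [h7, Bool.and_false, Bool.and_false]
    · have h4 : ¬ i < k + 1 := by omega
      have h6 : ¬ i < k := by omega
      rw [decide_eq_false h6, decide_eq_false h4]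

theorem p_DTZ (hDV1 : Stmt_DV1) (hDV2 : Stmt_DV2) : Stmt_DTZ := by
  intro r d G hG hyp
  set Z : Str := List.replicate r false with hZ
  have hZl : Z.length = r := List.length_replicate
  obtain ⟨hperm, hdup, hadd⟩ := hDV2
  have hc := (hDV1.2.1 r (d + 1) G).1 hG
  have hmapl : ∀ js : List ℕ, ∀ v ∈ js.map (ev r), v.length = r := by
    intro js v hv
    obtain ⟨j, _, rfl⟩ := List.mem_map.1 hv
    exact DTZ_ev_len r j
  -- step 1
  have h1 : ∀ js : List ℕ, js.length = d + 1 → (∀ j ∈ js, j < r) →
      dv G (js.map (ev r)) Z = false := by
    intro js hjs hjr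
    have hne : js.toFinset.Nonempty := by
      rw [List.toFinset_nonempty_iff]
      intro h
      rw [h] at hjs
      simp at hjs
    obtain ⟨a, ha, hmax⟩ := js.toFinset.exists_max_image id hne
    rw [List.mem_toFinset] at ha
    have hp : js.Perm (a :: js.erase a) := List.perm_cons_erase ha
    have hp' := hp.map (ev r)
    rw [hperm r G _ _ Z hp' (hmapl js) hZl, List.map_cons]
    have hlen : (js.erase a).length = d := by
      rw [List.length_erase_of_mem ha, hjs]
      rfl
    by_cases h2 : a ∈ js.erase a
    · have hp2 : (js.erase a).Perm (a :: (js.erase a).erase a) := List.perm_cons_erase h2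
      have hp3 : (ev r a :: (js.erase a).map (ev r)).Perm
          (ev r a :: ev r a :: ((js.erase a).erase a).map (ev r)) := (hp2.map (ev r)).cons _
      rw [hperm r G _ _ Z hp3 (fun v hv => by
        rcases List.mem_cons.1 hv with rfl | hv
        · exact DTZ_ev_len r a
        · exact hmapl _ v hv) hZl]
      exact hdup r G _ _ Z (hmapl _) (DTZ_ev_len r a) hZl
    · refine hyp a (hjr a ha) _ hlen fun j hj => ?_
      have h3 : j ∈ js := List.mem_of_mem_erase hj
      have h4 : j ≤ a := hmax j (List.mem_toFinset.2 h3)
      have h5 : j ≠ a := fun h => h2 (h ▸ hj)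
      omega
  -- step 2
  have h2 : ∀ (t : List Str) (js : List ℕ), t.length + js.length = d + 1 →
      (∀ v ∈ t, v.length = r) → (∀ j ∈ js, j < r) → dv G (t ++ js.map (ev r)) Z = false := by
    intro t
    induction t with
    | nil =>
      intro js hl _ hj
      exact h1 js (by simpa using hl) hj
    | cons u t ih =>
      intro js hl ht hj
      have htl : ∀ v ∈ t, v.length = r := fun v hv => ht v (List.mem_cons_of_mem _ hv)
      have htall : ∀ v ∈ t ++ js.map (ev r), v.length = r := by
        intro v hv
        rcases List.mem_append.1 hv with hv | hv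
        · exact htl v hv
        · exact hmapl js v hv
      have hlen : (t ++ js.map (ev r)).length = d := by
        rw [List.length_append, List.length_map]
        rw [List.length_cons] at hl
        omega
      have hunit : ∀ k < r, dv G (ev r k :: (t ++ js.map (ev r))) Z = false := by
        intro k hk
        have hp : (ev r k :: (t ++ js.map (ev r))).Perm (t ++ (k :: js).map (ev r)) := by
          rw [List.map_cons]
          exact List.perm_middle.symm
        rw [hperm r G _ _ Z hp (fun v hv => by
          rcases List.mem_cons.1 hv with rfl | hv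
          · exact DTZ_ev_len r k
          · exact htall v hv) hZl]
        refine ih (k :: js) ?_ htl ?_
        · rw [List.length_cons] at hl ⊢
          omega
        · intro j hj'
          rcases List.mem_cons.1 hj' with rfl | hj'
          · exact hk
          · exact hj j hj'
      have hsum : ∀ u v : Str, u.length = r → v.length = r →
          dv G (u :: (t ++ js.map (ev r))) Z = false → dv G (v :: (t ++ js.map (ev r))) Z = false →
          dv G (add u v :: (t ++ js.map (ev r))) Z = false := by
        intro u v hu hv h3 h4
        rw [hadd r d G _ u v Z hG hlen htall hu hv hZl, h3, h4]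
        rfl
      have hzero : dv G (Z :: (t ++ js.map (ev r))) Z = false := by
        have h3 := hadd r d G (t ++ js.map (ev r)) Z Z Z hG hlen htall hZl hZl hZl
        have h4 : add Z Z = Z := by
          rw [hZ]
          unfold add
          rw [List.zipWith_replicate]
          simp
        rw [h4] at h3
        rw [h3]
        cases dv G (Z :: (t ++ js.map (ev r))) Z <;> rfl
      have htr : ∀ k ≤ r, dv G (DTZ_tr r u k :: (t ++ js.map (ev r))) Z = false := by
        intro k
        induction k with
        | zero => intro _; rw [DTZ_tr_zero]; exact hzero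
        | succ k ihk =>
          intro hk
          rw [DTZ_tr_succ]
          split_ifs
          · exact hsum _ _ (DTZ_tr_len r u k) (DTZ_ev_len r k) (ihk (by omega)) (hunit k hk)
          · exact ihk (by omega)
      have h5 := htr r le_rfl
      rw [DTZ_tr_full r u (ht u List.mem_cons_self)] at h5
      exact h5
  -- step 3
  refine (hDV1.2.1 r d G).2 fun t ht htr z z' hz hz' => ?_
  have hu : (add z z').length = r := DTZ_len hz hz'
  have hall : ∀ v ∈ add z z' :: t, v.length = r := fun v hv => by
    rcases List.mem_cons.1 hv with rfl | hv
    · exact hu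
    · exact htr v hv
  have h3 := h2 (add z z' :: t) [] (by simp [ht]) hall (fun j hj => absurd hj List.not_mem_nil)
  rw [List.map_nil, List.append_nil] at h3
  have h4 := hc (add z z' :: t) (by simp [ht]) hall z' Z hz' hZl
  rw [h3] at h4
  have h5 : add z' (add z z') = z := by
    unfold add
    apply List.ext_getElem
    · simp only [List.length_zipWith]
      omega
    · intro i h1 h2
      simp only [List.getElem_zipWith]
      cases z[i]'(by omega) <;> cases z'[i]'(by omega) <;> rfl
  change xor (dv G t (add z' (add z z'))) (dv G t z') = false at h4
  rw [h5] at h4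
  cases h6 : dv G t z <;> cases h7 : dv G t z' <;> rw [h6, h7] at h4 <;> simp at h4 ⊢

end Pool.EV
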