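import Pool.Agent.Work.MP_cb380d_ev.InterfaceC

set_option autoImplicit false

open Pool.IC Pool.GL Pool.TL Polynomial

namespace Pool.EV

lemma DV1_len {z u : Str} (h : z.length = u.length) : (add z u).length = z.length := by
  unfold add
  rw [List.length_zipWith, h, Nat.min_self]

lemma DV1_rcomm (z u v : Str) : add (add z u) v = add (add z v) u := by
  unfold add
  apply List.ext_getElem
  · simp only [List.length_zipWith]
    omega
  · intro i h1 h2
    simp only [List.getElem_zipWith]
    cases z[i]'(by simp only [List.length_zipWith] at h1; omega) <;>
    cases u[i]'(by simp only [List.length_zipWith] at h1; omega) <;>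
    cases v[i]'(by simp only [List.length_zipWith] at h1; omega) <;> rfl

lemma DV1_one (F : Str → Bool) (t : List Str) (u z : Str) :
    dv (fun z => xor (F (add z u)) (F z)) t z = dv F (u :: t) z := by
  induction t generalizing z with
  | nil => rfl
  | cons v t ih =>
    change xor (dv (fun z => xor (F (add z u)) (F z)) t (add z v))
      (dv (fun z => xor (F (add z u)) (F z)) t z) = _
    rw [ih, ih]
    change xor (xor (dv F t (add (add z v) u)) (dv F t (add z v)))
      (xor (dv F t (add z u)) (dv F t z)) =
      xor (xor (dv F t (add (add z u) v)) (dv F t (add z u)))
      (xor (dv F t (add z v)) (dv F t z))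
    rw [DV1_rcomm z v u]
    cases dv F t (add (add z u) v) <;> cases dv F t (add z v) <;> cases dv F t (add z u) <;>
      cases dv F t z <;> rfl

theorem p_DV1 : Stmt_DV1 := by
  refine ⟨fun N F t u z _ _ _ => DV1_one F t u z, ?_, ?_⟩
  · intro N n
    induction n with
    | zero =>
      intro F
      constructor
      · intro h t ht _ z z' hz hz'
        rw [List.length_eq_zero_iff.1 ht]
        exact h z z' hz hz'
      · intro h z z' hz hz'
        exact h [] rfl (fun v hv => absurd hv List.not_mem_nil) z z' hz hz'
    | succ n ih =>
      intro F
      constructor
      · intro h t ht htN z z' hz hz'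
        cases t with
        | nil => simp at ht
        | cons u t =>
          have h1 := (ih _).1 (h u (htN u List.mem_cons_self)) t (by simpa using ht)
            (fun v hv => htN v (List.mem_cons_of_mem _ hv)) z z' hz hz'
          rw [DV1_one, DV1_one] at h1
          exact h1
      · intro h u hu
        refine (ih _).2 fun t ht htN z z' hz hz' => ?_
        rw [DV1_one, DV1_one]
        refine h (u :: t) (by simp [ht]) (fun v hv => ?_) z z' hz hz'
        rcases List.mem_cons.1 hv with rfl | hv
        · exact hu
        · exact htN v hv
  · intro F t
    induction t with
    | nil => intro z; rfl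
    | cons u t ih =>
      intro z
      change xor (dvn F t.length t (add z u)) (dvn F t.length t z) = _
      rw [ih, ih]
      rfl

end Pool.EV
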