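import Pool.Agent.Work.MP_cb380d_ev.InterfaceC

set_option autoImplicit false

open Pool.IC Pool.GL Pool.TL Polynomial

namespace Pool.EV

lemma DV2_len {N : ℕ} {z u : Str} (hz : z.length = N) (hu : u.length = N) :
    (add z u).length = N := by
  unfold add
  rw [List.length_zipWith, hz, hu, Nat.min_self]

lemma DV2_rcomm (z u v : Str) : add (add z u) v = add (add z v) u := by
  unfold add
  apply List.ext_getElem
  · simp only [List.length_zipWith]
    omega
  · intro i h1 h2
    simp only [List.getElem_zipWith]
    cases z[i]'(by simp only [List.length_zipWith] at h1; omega) <;>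
    cases u[i]'(by simp only [List.length_zipWith] at h1; omega) <;>
    cases v[i]'(by simp only [List.length_zipWith] at h1; omega) <;> rfl

lemma DV2_assoc (z u v : Str) : add z (add u v) = add (add z v) u := by
  unfold add
  apply List.ext_getElem
  · simp only [List.length_zipWith]
    omega
  · intro i h1 h2
    simp only [List.getElem_zipWith]
    cases z[i]'(by simp only [List.length_zipWith] at h1; omega) <;>
    cases u[i]'(by simp only [List.length_zipWith] at h1; omega) <;>
    cases v[i]'(by simp only [List.length_zipWith] at h1; omega) <;> rfl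

lemma DV2_cancel {z u : Str} (h : z.length = u.length) : add (add z u) u = z := by
  unfold add
  apply List.ext_getElem
  · simp only [List.length_zipWith]
    omega
  · intro i h1 h2
    simp only [List.getElem_zipWith]
    cases z[i] <;> cases u[i]'(by omega) <;> rfl

theorem p_DV2 (hDV1 : Stmt_DV1) : Stmt_DV2 := by
  refine ⟨?_, ?_, ?_⟩
  · intro N F t t' z hp
    induction hp generalizing z with
    | nil => intro _ _; rfl
    | cons u _ ih =>
      intro ht hz
      change xor (dv F _ (add z u)) (dv F _ z) = xor (dv F _ (add z u)) (dv F _ z)
      rw [ih (add z u) (fun v hv => ht v (List.mem_cons_of_mem _ hv))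
        (DV2_len hz (ht u List.mem_cons_self)),
        ih z (fun v hv => ht v (List.mem_cons_of_mem _ hv)) hz]
    | swap u v t =>
      intro ht hz
      change xor (xor (dv F t (add (add z v) u)) (dv F t (add z v)))
        (xor (dv F t (add z u)) (dv F t z)) =
        xor (xor (dv F t (add (add z u) v)) (dv F t (add z u)))
        (xor (dv F t (add z v)) (dv F t z))
      rw [DV2_rcomm z v u]
      cases dv F t (add (add z u) v) <;> cases dv F t (add z v) <;> cases dv F t (add z u) <;>
        cases dv F t z <;> rfl
    | trans h1 _ ih1 ih2 =>
      intro ht hz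
      rw [ih1 z ht hz, ih2 z (fun v hv => ht v (h1.symm.subset hv)) hz]
  · intro N F t u z _ hu hz
    change xor (xor (dv F t (add (add z u) u)) (dv F t (add z u)))
        (xor (dv F t (add z u)) (dv F t z)) = false
    rw [DV2_cancel (hz.trans hu.symm)]
    cases dv F t z <;> cases dv F t (add z u) <;> rfl
  · intro N d F t u v z hF htd ht hu hv hz
    have h1 := ((hDV1.2.1 N (d + 1) F).1 hF) (u :: t) (by simp [htd]) (fun w hw => by
      rcases List.mem_cons.1 hw with rfl | hw
      · exact hu
      · exact ht w hw) (add z v) z (DV2_len hz hv) hz
    change xor (dv F t (add z (add u v))) (dv F t z) =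
      xor (dv F (u :: t) z) (xor (dv F t (add z v)) (dv F t z))
    rw [← h1, DV2_assoc]
    change xor (dv F t (add (add z v) u)) (dv F t z) =
      xor (xor (dv F t (add (add z v) u)) (dv F t (add z v))) (xor (dv F t (add z v)) (dv F t z))
    cases dv F t (add (add z v) u) <;> cases dv F t (add z v) <;> cases dv F t z <;> rfl

end Pool.EV
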