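import Pool.Agent.Work.MP_cb380d_ev.InterfaceG

open Pool.IC Pool.GL Pool.TL Polynomial

namespace Pool.EV

theorem DVF_len (m k : ℕ) :
    ((List.range m).filter fun i => decide (i < k)).length = m - (m - k) := by
  induction m with
  | zero => simp
  | succ m ih =>
    rw [List.range_succ, List.filter_append, List.length_append, ih]
    by_cases h : m < k
    · simp [h]
      omega
    · simp [h]
      omega

theorem DVF_div (p n : ℕ) : (if n = 0 then 0 else
    ((List.range p).filter fun i => decide ((i + 1) * n ≤ p)).length) = p / n := by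
  by_cases h : n = 0
  · rw [if_pos h, h, Nat.div_zero]
  · rw [if_neg h]
    have hn : 0 < n := Nat.pos_of_ne_zero h
    have e : (fun i : ℕ => decide ((i + 1) * n ≤ p)) = fun i : ℕ => decide (i < p / n) := by
      funext i
      rw [decide_eq_decide, ← Nat.le_div_iff_mul_le hn]
      exact Nat.succ_le_iff
    rw [e, DVF_len, Nat.sub_sub_self (Nat.div_le_self p n)]

theorem DVF_d (B : Set Str) : PolyF B (fun p : ℕ × ℕ => p.1 / p.2) := by
  have h : PolyF B (fun q : (ℕ × ℕ) × ℕ => decide ((q.2 + 1) * q.1.2 ≤ q.1.1)) := by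
    fun_prop
  have h2 : PolyF B (fun p : ℕ × ℕ => ((List.range p.1).filter
      fun i => decide ((i + 1) * p.2 ≤ p.1))) :=
    PolyF.filter (l := fun p : ℕ × ℕ => List.range p.1)
      (f := fun (p : ℕ × ℕ) (i : ℕ) => decide ((i + 1) * p.2 ≤ p.1)) (by fun_prop) h
  have h3 : PolyF B (fun p : ℕ × ℕ => if p.2 = 0 then 0 else ((List.range p.1).filter
      fun i => decide ((i + 1) * p.2 ≤ p.1)).length) := by
    fun_prop
  exact h3.congrF fun p => DVF_div p.1 p.2

theorem DVF_m (B : Set Str) : PolyF B (fun p : ℕ × ℕ => p.1 % p.2) := by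
  have hd := DVF_d B
  have h : PolyF B (fun p : ℕ × ℕ => p.1 - p.2 * (p.1 / p.2)) := by fun_prop
  refine h.congrF fun p => ?_
  have := Nat.div_add_mod p.1 p.2
  omega

theorem DVF_min (B : Set Str) : PolyF B (fun p : ℕ × ℕ => min p.1 p.2) := by
  have h : PolyF B (fun p : ℕ × ℕ => p.1 - (p.1 - p.2)) := by fun_prop
  refine h.congrF fun p => ?_
  omega

/-- The step of the iteration for the logarithm. -/
def DVF_s (n : ℕ) (s : ℕ × ℕ) : ℕ × ℕ := if 2 * s.1 ≤ n then (2 * s.1, s.2 + 1) else s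

theorem DVF_le (n k : ℕ) : 2 * 2 ^ k ≤ n ↔ k + 1 ≤ Nat.log 2 n := by
  by_cases hn : n = 0
  · subst hn
    have : 0 < 2 ^ k := Nat.pow_pos (by norm_num)
    simp
  · rw [← Nat.pow_succ']
    exact (Nat.le_log_iff_pow_le (by norm_num) hn).symm

theorem DVF_it (n j : ℕ) : (DVF_s n)^[j] (1, 0) =
    (2 ^ min j (Nat.log 2 n), min j (Nat.log 2 n)) := by
  induction j with
  | zero => simp
  | succ j ih =>
    rw [Function.iterate_succ_apply', ih]
    unfold DVF_s
    simp only
    by_cases h : j + 1 ≤ Nat.log 2 n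
    · have e : min j (Nat.log 2 n) = j := by omega
      have e' : min (j + 1) (Nat.log 2 n) = j + 1 := by omega
      rw [e, e', if_pos ((DVF_le n j).2 h), Nat.pow_succ']
    · have e : min j (Nat.log 2 n) = Nat.log 2 n := by omega
      have e' : min (j + 1) (Nat.log 2 n) = Nat.log 2 n := by omega
      rw [e, e', if_neg]
      rw [DVF_le]
      omega

theorem DVF_log (B : Set Str) : PolyF B (fun n : ℕ => Nat.log 2 n) := by
  have h1 : PolyF B (fun p : ℕ × (ℕ × ℕ) => DVF_s p.1 p.2) := by
    unfold DVF_s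
    fun_prop
  have h2 : PolyF B (fun n : ℕ => (DVF_s n)^[n] (1, 0)) := by
    refine PolyF.iterate_add (n := fun n : ℕ => n) (g := fun _ => ((1 : ℕ), (0 : ℕ)))
      (h := DVF_s) (by fun_prop) (by fun_prop) h1 (X + 1) ?_
    intro n s
    obtain ⟨x, k⟩ := s
    unfold DVF_s
    split_ifs with h
    · simp only [sz_pair, sz_nat, eval_add, eval_X, eval_one] at h ⊢
      omega
    · omega
  have h3 : PolyF B (fun n : ℕ => ((DVF_s n)^[n] (1, 0)).2) := by fun_prop
  refine h3.congrF fun n => ?_
  rw [DVF_it]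
  have := Nat.log_le_self 2 n
  simp only
  omega

theorem p_DVF : Stmt_DVF := fun B => ⟨DVF_d B, DVF_m B, DVF_min B, DVF_log B⟩

end Pool.EV
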