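import Pool.Agent.Work.MP_cb380d_ev.InterfaceC

open Pool.IC Pool.GL Pool.TL Polynomial

namespace Pool.EV

theorem DVP_dvn (hPLF : Stmt_PLF) (B : Set Str) (γ : Type) [SE γ] (F : γ → Str → Bool)
    (hF : PolyF B (fun p : γ × Str => F p.1 p.2)) (n : ℕ) :
    PolyF B (fun p : γ × List Str × Str => dvn (F p.1) n p.2.1 p.2.2) := by
  obtain ⟨-, -, -, -, -, -, -, -, hadd, -⟩ := hPLF B
  induction n with
  | zero =>
    exact PolyF.comp (f := fun p : γ × Str => F p.1 p.2)
      (g := fun p : γ × List Str × Str => (p.1, p.2.2)) hF (by fun_prop)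
  | succ n ih =>
    have ha : PolyF B (fun p : γ × List Str × Str => add p.2.2 (p.2.1.headD [])) :=
      PolyF.comp (f := fun p : Str × Str => add p.1 p.2)
        (g := fun p : γ × List Str × Str => (p.2.2, p.2.1.headD [])) hadd (by fun_prop)
    have h1 : PolyF B (fun p : γ × List Str × Str =>
        dvn (F p.1) n p.2.1.tail (add p.2.2 (p.2.1.headD []))) :=
      PolyF.comp (f := fun p : γ × List Str × Str => dvn (F p.1) n p.2.1 p.2.2)
        (g := fun p : γ × List Str × Str => (p.1, p.2.1.tail, add p.2.2 (p.2.1.headD []))) ih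
        (by fun_prop)
    have h2 : PolyF B (fun p : γ × List Str × Str => dvn (F p.1) n p.2.1.tail p.2.2) :=
      PolyF.comp (f := fun p : γ × List Str × Str => dvn (F p.1) n p.2.1 p.2.2)
        (g := fun p : γ × List Str × Str => (p.1, p.2.1.tail, p.2.2)) ih (by fun_prop)
    have h3 : PolyF B (fun p : γ × List Str × Str =>
        xor (dvn (F p.1) n p.2.1.tail (add p.2.2 (p.2.1.headD [])))
          (dvn (F p.1) n p.2.1.tail p.2.2)) := by fun_prop
    exact h3

theorem DVP_tup (B : Set Str) (n : ℕ) : PolyF B (fun U : List Str => tup U n) := by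
  induction n with
  | zero =>
    have h : PolyF B (fun _ : List Str => ([[]] : List (List Str))) := by fun_prop
    exact h
  | succ n ih =>
    have h1 : PolyF B (fun q : List Str × Str => (tup q.1 n).map fun t => q.2 :: t) := by
      refine PolyF.map (f := fun (q : List Str × Str) (t : List Str) => q.2 :: t) ?_ ?_
      · exact PolyF.comp (f := fun U : List Str => tup U n) (g := fun q : List Str × Str => q.1) ih
          (by fun_prop)
      · fun_prop
    have h2 : PolyF B (fun U : List Str => U.flatMap fun u => (tup U n).map fun t => u :: t) := by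
      refine PolyF.flatMap (f := fun (U : List Str) (u : Str) => (tup U n).map fun t => u :: t) ?_ ?_
      · fun_prop
      · exact h1
    exact h2

theorem DVP_kd (B : Set Str) (n : ℕ) : PolyF B (fun m : ℕ => kd n m) := by
  induction n with
  | zero =>
    have h : PolyF B (fun _ : ℕ => 1) := by fun_prop
    exact h
  | succ n ih =>
    have h1 : PolyF B (fun m : ℕ => kd n m ^ n) := PolyF.pow ih n
    have h2 : PolyF B (fun m : ℕ => kd n m * (m * kd n m ^ n + 1)) := by fun_prop
    exact h2

theorem p_DVP (hPLF : Stmt_PLF) : Stmt_DVP := by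
  intro B γ _ F n hF
  exact ⟨DVP_dvn hPLF B γ F hF n, DVP_tup B n, DVP_kd B n⟩

end Pool.EV
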