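import Pool.Agent.Work.MP_cb380d_ev.InterfaceA

/-!
# MP_cb380d_lc, EvasiveReductions, block ESC
-/

open Pool.IC Pool.GL Pool.TL Polynomial

namespace Pool.EV

theorem p_ESC (hT : Stmt_THR) : Stmt_ESC := by
  intro B g p hev
  obtain ⟨c, k, esc, hk, hpf, H⟩ := hev
  obtain ⟨t, a, E, hE, ha, hthr⟩ := hT c k p hk
  refine ⟨esc, t, a, E, hpf, hE, ha, fun ν hν => ?_⟩
  obtain ⟨h1, h2, h3⟩ := hthr ν hν
  refine ⟨⟨by omega, h1, ?_⟩, h3⟩
  intro z T a' hz hTl ha' hzero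
  have hlt : (c * (T.length + 1)) ^ (c * k) * z.length ^ (k - 1) < (ν ^ t) ^ k := by
    refine lt_of_le_of_lt ?_ h2
    rw [hz]
    refine Nat.mul_le_mul (Nat.pow_le_pow_left ?_ _) le_rfl
    exact Nat.mul_le_mul le_rfl (by omega)
  obtain ⟨e1, e2, e3, e4⟩ := H z T a' (ν ^ t) ha' hzero hlt
  have hes : es esc z T a' (ν ^ t) = esc (z, T, a', ν ^ t) := by
    unfold es
    rw [if_pos e1]
  rw [hes]
  exact ⟨e1, e2, e3, e4⟩

end Pool.EV
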