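import Pool.Agent.Work.MP_cb380d_ev.InterfaceG

/-! # Block EV0: the prefix `true :: false ::` -/

open Pool.IC Pool.GL Pool.TL Polynomial

namespace Pool.EV

theorem EV0_num {c k T N K : ℕ} (hk : 0 < k) (hKN : K ≤ N)
    (h : ((c + 3) * (T + 1)) ^ ((c + 3) * k) * N ^ (k - 1) < K ^ k) :
    (c * (T + 1)) ^ (c * k) * (N + 2) ^ (k - 1) < K ^ k := by
  have hK : 0 < K := by
    rcases Nat.eq_zero_or_pos K with h0 | h0
    · rw [h0, Nat.zero_pow hk] at h
      exact absurd h (Nat.not_lt_zero _)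
    · exact h0
  refine lt_of_le_of_lt ?_ h
  have h1 : (N + 2) ^ (k - 1) ≤ 3 ^ (k - 1) * N ^ (k - 1) := by
    rw [← mul_pow]
    exact Nat.pow_le_pow_left (by omega) _
  have h2 : (c * (T + 1)) ^ (c * k) * 3 ^ (k - 1) ≤
      ((c + 3) * (T + 1)) ^ ((c + 3) * k) := by
    have e1 : (c + 3) * k = c * k + 3 * k := by ring
    rw [e1, pow_add]
    refine Nat.mul_le_mul ?_ ?_
    · exact Nat.pow_le_pow_left (Nat.mul_le_mul_right _ (by omega)) _
    · calc 3 ^ (k - 1) ≤ 3 ^ (3 * k) := Nat.pow_le_pow_right (by norm_num) (by omega)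
        _ ≤ ((c + 3) * (T + 1)) ^ (3 * k) := Nat.pow_le_pow_left (by nlinarith) _
  calc (c * (T + 1)) ^ (c * k) * (N + 2) ^ (k - 1)
      ≤ (c * (T + 1)) ^ (c * k) * (3 ^ (k - 1) * N ^ (k - 1)) := Nat.mul_le_mul_left _ h1
    _ = (c * (T + 1)) ^ (c * k) * 3 ^ (k - 1) * N ^ (k - 1) := by ring
    _ ≤ _ := Nat.mul_le_mul_right _ h2

theorem EV0_two (e z1 : Str) (a K : ℕ) (z : Str) (hz : z1 = true :: false :: z)
    (hl : e.length = z1.length)
    (h : ∀ j, j < a + 2 ∨ a + 2 + K ≤ j → e[j]? = z1[j]?) : e = true :: false :: e.drop 2 := by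
  subst hz
  have h0 := h 0 (by omega)
  have h1 := h 1 (by omega)
  match e, hl, h0, h1 with
  | [], hl, _, _ => simp at hl
  | [x], hl, _, _ => simp at hl
  | x :: y :: e', _, h0, h1 =>
    simp only [List.getElem?_cons_zero, Option.some.injEq] at h0
    simp only [List.getElem?_cons_succ, List.getElem?_cons_zero, Option.some.injEq] at h1
    rw [h0, h1]
    rfl

theorem p_EV0 : Stmt_EV0 := by
  intro B g hg
  obtain ⟨c, k, esc, hk, hP, hE⟩ := hg
  refine ⟨c + 3, k, fun p => (esc (true :: false :: p.1, p.2.1, p.2.2.1 + 2, p.2.2.2)).drop 2,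
    hk, by fun_prop, ?_⟩
  intro z T a K haK hz hK
  have hKN : K ≤ z.length := by omega
  obtain ⟨h1, h2, h3, h4⟩ := hE (true :: false :: z) T (a + 2) K
    (by simp only [List.length_cons]; omega)
    (by
      intro j hj1 hj2
      obtain ⟨i, rfl⟩ : ∃ i, j = i + 2 := ⟨j - 2, by omega⟩
      simp only [List.getElem?_cons_succ]
      exact hz i (by omega) (by omega))
    (by
      simp only [List.length_cons]
      exact EV0_num hk hKN hK)
  have he := EV0_two _ _ a K z rfl h1 h3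
  simp only
  generalize esc (true :: false :: z, T, a + 2, K) = e at h1 h2 h3 h4 he ⊢
  refine ⟨?_, ?_, ?_, ?_⟩
  · rw [List.length_drop, h1]
    simp
  · intro h
    apply h2
    rw [he, h]
  · intro j hj
    rw [List.getElem?_drop, h3 (2 + j) (by omega), Nat.add_comm 2 j]
    simp only [List.getElem?_cons_succ]
  · intro b hb
    rw [← he]
    exact h4 b hb

end Pool.EV
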