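import Pool.Agent.Work.MP_cb380d_ev.InterfaceB

open Pool.IC Pool.GL Pool.TL Polynomial

namespace Pool.EV

/-- The list of the good positions. -/
def EVA_pos (g : Str → Str) (p : Str × List ℕ × ℕ × ℕ) : List ℕ :=
  ((List.range p.2.2.2).map fun i => p.2.2.1 + i).filter fun v =>
    p.2.1.all fun b => decide ((g (p.1.modify v not))[b]? = (g p.1)[b]?)

/-- The procedure. -/
def EVA_esc (g : Str → Str) (p : Str × List ℕ × ℕ × ℕ) : Str :=
  p.1.modify ((EVA_pos g p).headD p.2.2.1) not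

theorem EVA_polyPos (hPLF : Stmt_PLF) (B : Set Str) (g : Str → Str) (hg : PolyF B g) :
    PolyF B (EVA_pos g) := by
  obtain ⟨-, -, -, -, -, -, -, -, -, -, hmod, -⟩ := hPLF B
  have h1 : PolyF B (fun p : Str × List ℕ × ℕ × ℕ => (List.range p.2.2.2).map fun i => p.2.2.1 + i) := by
    refine PolyF.map (f := fun (p : Str × List ℕ × ℕ × ℕ) i => p.2.2.1 + i) (by fun_prop) ?_
    fun_prop
  refine PolyF.filter (f := fun (p : Str × List ℕ × ℕ × ℕ) v =>
    p.2.1.all fun b => decide ((g (p.1.modify v not))[b]? = (g p.1)[b]?)) h1 ?_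
  refine PolyF.all (f := fun (q : (Str × List ℕ × ℕ × ℕ) × ℕ) b =>
    decide ((g (q.1.1.modify q.2 not))[b]? = (g q.1.1)[b]?)) (by fun_prop) ?_
  have h2 : PolyF B (fun r : ((Str × List ℕ × ℕ × ℕ) × ℕ) × ℕ => r.1.1.1.modify r.1.2 not) :=
    PolyF.comp (f := fun p : Str × ℕ => p.1.modify p.2 not)
      (g := fun r : ((Str × List ℕ × ℕ × ℕ) × ℕ) × ℕ => (r.1.1.1, r.1.2)) hmod (by fun_prop)
  have h3 : PolyF B (fun r : ((Str × List ℕ × ℕ × ℕ) × ℕ) × ℕ => g (r.1.1.1.modify r.1.2 not)) :=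
    hg.comp h2
  have h4 : PolyF B (fun r : ((Str × List ℕ × ℕ × ℕ) × ℕ) × ℕ => g r.1.1.1) :=
    hg.comp (by fun_prop)
  fun_prop

theorem EVA_polyEsc (hPLF : Stmt_PLF) (B : Set Str) (g : Str → Str) (hg : PolyF B g) :
    PolyF B (EVA_esc g) := by
  have hp := EVA_polyPos hPLF B g hg
  obtain ⟨-, -, -, -, -, -, -, -, -, -, hmod, -⟩ := hPLF B
  have h1 : PolyF B (fun p : Str × List ℕ × ℕ × ℕ => (EVA_pos g p).headD p.2.2.1) := by
    fun_prop
  exact PolyF.comp (f := fun p : Str × ℕ => p.1.modify p.2 not)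
    (g := fun p : Str × List ℕ × ℕ × ℕ => (p.1, (EVA_pos g p).headD p.2.2.1)) hmod (by fun_prop)

theorem EVA_arith (C k t s K N : ℕ) (hk : 0 < k) (hK : K ≤ t * s) (hs : s ^ k ≤ C * N ^ (k - 1)) :
    K ^ k ≤ ((C + 1) * (t + 1)) ^ ((C + 1) * k) * N ^ (k - 1) := by
  have h1 : K ^ k ≤ t ^ k * (C * N ^ (k - 1)) := by
    calc K ^ k ≤ (t * s) ^ k := Nat.pow_le_pow_left hK k
      _ = t ^ k * s ^ k := mul_pow _ _ _
      _ ≤ t ^ k * (C * N ^ (k - 1)) := Nat.mul_le_mul_left _ hs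
  have h2 : C * t ^ k ≤ ((C + 1) * (t + 1)) ^ ((C + 1) * k) := by
    have hm : 1 ≤ (C + 1) * (t + 1) := Nat.mul_pos (Nat.succ_pos _) (Nat.succ_pos _)
    calc C * t ^ k ≤ (C + 1) ^ k * (t + 1) ^ k := by
          refine Nat.mul_le_mul ?_ (Nat.pow_le_pow_left (Nat.le_succ t) k)
          calc C ≤ C + 1 := Nat.le_succ _
            _ = (C + 1) ^ 1 := (pow_one _).symm
            _ ≤ (C + 1) ^ k := Nat.pow_le_pow_right (Nat.succ_pos _) hk
      _ = ((C + 1) * (t + 1)) ^ k := (mul_pow _ _ _).symm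
      _ ≤ ((C + 1) * (t + 1)) ^ ((C + 1) * k) :=
          Nat.pow_le_pow_right hm (Nat.le_mul_of_pos_left k (Nat.succ_pos C))
  calc K ^ k ≤ t ^ k * (C * N ^ (k - 1)) := h1
    _ = (C * t ^ k) * N ^ (k - 1) := by ring
    _ ≤ _ := Nat.mul_le_mul_right _ h2

theorem EVA_exists (g : Str → Str) (C k : ℕ) (hk : 0 < k)
    (hlow : ∀ (z : Str) (b : ℕ),
      ((Finset.range z.length).filter fun v => (g (z.modify v not))[b]? ≠ (g z)[b]?).card ^ k ≤
        C * z.length ^ (k - 1)) (z : Str) (T : List ℕ) (a K : ℕ) (haK : a + K ≤ z.length)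
    (hlt : ((C + 1) * (T.length + 1)) ^ ((C + 1) * k) * z.length ^ (k - 1) < K ^ k) :
    ∃ v, a ≤ v ∧ v < a + K ∧ ∀ b ∈ T, (g (z.modify v not))[b]? = (g z)[b]? := by
  classical
  by_contra hcon
  push Not at hcon
  have hK0 : 0 < K := by
    rcases Nat.eq_zero_or_pos K with h | h
    · subst h
      rw [Nat.zero_pow hk] at hlt
      exact absurd hlt (Nat.not_lt_zero _)
    · exact h
  set S : ℕ → Finset ℕ := fun b =>
    (Finset.range z.length).filter fun v => (g (z.modify v not))[b]? ≠ (g z)[b]? with hS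
  have hcov : Finset.Ico a (a + K) ⊆ T.toFinset.biUnion S := by
    intro v hv
    rw [Finset.mem_Ico] at hv
    obtain ⟨b, hbT, hb⟩ := hcon v hv.1 hv.2
    rw [Finset.mem_biUnion]
    refine ⟨b, List.mem_toFinset.2 hbT, ?_⟩
    rw [hS, Finset.mem_filter, Finset.mem_range]
    exact ⟨by omega, hb⟩
  have hsum : K ≤ ∑ b ∈ T.toFinset, (S b).card := by
    calc K = (Finset.Ico a (a + K)).card := by rw [Nat.card_Ico]; omega
      _ ≤ (T.toFinset.biUnion S).card := Finset.card_le_card hcov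
      _ ≤ ∑ b ∈ T.toFinset, (S b).card := Finset.card_biUnion_le
  have hT : T.toFinset.Nonempty := by
    rw [Finset.nonempty_iff_ne_empty]
    intro h
    rw [h, Finset.sum_empty] at hsum
    omega
  have hb : ∃ b ∈ T.toFinset, K ≤ T.length * (S b).card := by
    by_contra hno
    push Not at hno
    have h1 : ∑ b ∈ T.toFinset, T.length * (S b).card < ∑ b ∈ T.toFinset, K :=
      Finset.sum_lt_sum_of_nonempty hT hno
    rw [← Finset.mul_sum, Finset.sum_const, smul_eq_mul] at h1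
    have h2 : T.toFinset.card * K ≤ T.length * K := Nat.mul_le_mul_right _ (List.toFinset_card_le T)
    have h3 : T.length * K ≤ T.length * ∑ b ∈ T.toFinset, (S b).card := Nat.mul_le_mul_left _ hsum
    omega
  obtain ⟨b, -, hb⟩ := hb
  exact absurd (EVA_arith C k T.length (S b).card K z.length hk hb (hlow z b)) (not_le.2 hlt)

theorem EVA_head {l : List ℕ} {d : ℕ} (h : l ≠ []) : l.headD d ∈ l := by
  cases l with
  | nil => exact absurd rfl h
  | cons x l => simp

theorem p_EVA (hPLF : Stmt_PLF) : Stmt_EVA := by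
  intro B g hg hlow
  obtain ⟨C, k, hk, hlow⟩ := hlow
  refine ⟨C + 1, k, EVA_esc g, hk, EVA_polyEsc hPLF B g hg, ?_⟩
  intro z T a K haK hz hlt
  obtain ⟨v0, h1, h2, h3⟩ := EVA_exists g C k hk hlow z T a K haK hlt
  have hmem0 : v0 ∈ EVA_pos g (z, T, a, K) := by
    unfold EVA_pos
    rw [List.mem_filter]
    refine ⟨List.mem_map.2 ⟨v0 - a, List.mem_range.2 (by simp only; omega), by simp only; omega⟩, ?_⟩
    rw [List.all_eq_true]
    intro b hb
    exact decide_eq_true (h3 b hb)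
  have hne : EVA_pos g (z, T, a, K) ≠ [] := List.ne_nil_of_mem hmem0
  have hmem : (EVA_pos g (z, T, a, K)).headD a ∈ EVA_pos g (z, T, a, K) := EVA_head hne
  set v := (EVA_pos g (z, T, a, K)).headD a with hv
  have hesc : EVA_esc g (z, T, a, K) = z.modify v not := rfl
  unfold EVA_pos at hmem
  rw [List.mem_filter] at hmem
  obtain ⟨hm1, hm2⟩ := hmem
  obtain ⟨i, hi, hiv⟩ := List.mem_map.1 hm1
  rw [List.mem_range] at hi
  simp only at hi hiv
  rw [List.all_eq_true] at hm2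
  have hva : a ≤ v := by omega
  have hvK : v < a + K := by omega
  rw [hesc]
  refine ⟨List.length_modify _ _ _, ?_, ?_, ?_⟩
  · intro heq
    have h4 : (z.modify v not)[v]? = z[v]? := by rw [heq]
    rw [List.getElem?_modify, hz v hva hvK] at h4
    simp at h4
  · intro j hj
    rw [List.getElem?_modify]
    have hne : v ≠ j := by omega
    simp [hne]
  · intro b hb
    exact of_decide_eq_true (hm2 b hb)

end Pool.EV
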