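import Pool.Agent.Work.MP_cb380d_ev.InterfaceB

/-!
# MP_cb380d_lc, EvasiveReductions, block EVB: parity certificates give evasive reductions
-/

open Pool.IC Pool.GL Pool.TL Polynomial

namespace Pool.EV

theorem EVB_length_add (u v : Str) (h : v.length = u.length) : (add u v).length = u.length := by
  unfold add
  rw [List.length_zipWith, h, min_self]

theorem EVB_getD_add (u v : Str) (h : v.length = u.length) (i : ℕ) :
    (add u v).getD i false = xor (u.getD i false) (v.getD i false) := by
  induction u generalizing v i with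
  | nil =>
    have hv : v = [] := List.length_eq_zero_iff.1 h
    subst hv
    simp [add]
  | cons a u ih =>
    cases v with
    | nil => simp at h
    | cons b v =>
      have h' : v.length = u.length := by simpa using h
      cases i with
      | zero => simp [add]
      | succ i =>
        have := ih v h' i
        unfold add at this ⊢
        simpa using this

theorem EVB_length_plc (R p : ℕ) (v : Str) : (plc R p v).length = R := by
  unfold plc
  rw [List.length_map, List.length_range]

theorem EVB_getD_plc (R p : ℕ) (v : Str) (i : ℕ) (hi : i < R) :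
    (plc R p v).getD i false = if p ≤ i then v.getD (i - p) false else false := by
  unfold plc
  rw [List.getD_eq_getElem?_getD, List.getElem?_map, List.getElem?_range hi]
  rfl

theorem EVB_plc_add (R p : ℕ) (u v : Str) (h : v.length = u.length) :
    plc R p (add u v) = add (plc R p u) (plc R p v) := by
  unfold plc
  unfold add
  rw [List.zipWith_map_left, List.zipWith_map_right, List.zipWith_self]
  refine List.map_congr_left fun j _ => ?_
  have h1 := EVB_getD_add u v h (j - p)
  unfold add at h1
  by_cases hj : p ≤ j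
  · rw [if_pos hj, if_pos hj, if_pos hj, h1]
  · rw [if_neg hj, if_neg hj, if_neg hj]
    rfl

theorem EVB_par_add (u v : Str) (h : v.length = u.length) (S : List ℕ) :
    par (add u v) S = xor (par u S) (par v S) := by
  induction S with
  | nil => rfl
  | cons i S ih =>
    show xor ((add u v).getD i false) (par (add u v) S) =
      xor (xor (u.getD i false) (par u S)) (xor (v.getD i false) (par v S))
    rw [ih, EVB_getD_add u v h]
    generalize u.getD i false = a1
    generalize v.getD i false = a2
    generalize par u S = a3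
    generalize par v S = a4
    cases a1 <;> cases a2 <;> cases a3 <;> cases a4 <;> rfl

theorem EVB_par_foldl (z : Str) (S : List ℕ) : ∀ acc : Bool,
    S.foldl (fun (acc : Bool) i => xor (z.getD i false) acc) acc = xor (par z S) acc := by
  induction S with
  | nil =>
    intro acc
    show acc = xor false acc
    cases acc <;> rfl
  | cons i S ih =>
    intro acc
    rw [List.foldl_cons, ih]
    show xor (par z S) (xor (z.getD i false) acc) = xor (xor (z.getD i false) (par z S)) acc
    generalize z.getD i false = a1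
    generalize par z S = a2
    cases a1 <;> cases a2 <;> cases acc <;> rfl

theorem EVB_par_poly (B : Set Str) : PolyF B (fun p : Str × List ℕ => par p.1 p.2) := by
  have h : PolyF B (fun p : Str × List ℕ =>
      p.2.foldl (fun (acc : Bool) i => xor (p.1.getD i false) acc) false) := by
    refine PolyF.foldl_add (l := fun p : Str × List ℕ => p.2) (g := fun _ => false)
      (h := fun (p : Str × List ℕ) (acc : Bool) i => xor (p.1.getD i false) acc)
      (by fun_prop) (by fun_prop) (by fun_prop) 0 ?_
    intro a s b _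
    simp
  refine h.congrF fun p => ?_
  rw [EVB_par_foldl]
  cases par p.1 p.2 <;> rfl

theorem EVB_length_flatMap {β γ : Type} (T : List β) (f : β → List γ) (M : ℕ)
    (h : ∀ b ∈ T, (f b).length ≤ M) : (T.flatMap f).length ≤ T.length * M := by
  induction T with
  | nil => simp
  | cons b T ih =>
    have h1 := ih fun c hc => h c (List.mem_cons_of_mem _ hc)
    have h2 := h b (List.mem_cons_self)
    rw [List.flatMap_cons, List.length_append, List.length_cons, Nat.succ_mul]
    omega

/-- the procedure -/
def EVB_esc (cert : Str × ℕ → List (List ℕ)) (x : Str × List ℕ × ℕ × ℕ) : Str :=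
  add x.1 (plc x.1.length x.2.2.1 (slv x.2.2.2 (x.2.1.flatMap fun b => cert (x.1, b))
    (fun S v => par (plc x.1.length x.2.2.1 v) S)))

theorem EVB_poly (hPLF : Stmt_PLF) (hSLP : Stmt_SLP) (B : Set Str)
    (cert : Str × ℕ → List (List ℕ)) (hc : PolyF B cert) : PolyF B (EVB_esc cert) := by
  obtain ⟨-, -, -, -, -, -, -, -, hadd, hplc, -, -, -⟩ := hPLF B
  have hpar := EVB_par_poly B
  have hQ : PolyF B (fun x : Str × List ℕ × ℕ × ℕ => x.2.1.flatMap fun b => cert (x.1, b)) := by
    refine PolyF.flatMap (l := fun x : Str × List ℕ × ℕ × ℕ => x.2.1)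
      (f := fun (x : Str × List ℕ × ℕ × ℕ) b => cert (x.1, b)) (by fun_prop) ?_
    exact PolyF.comp (f := cert) (g := fun p : (Str × List ℕ × ℕ × ℕ) × ℕ => (p.1.1, p.2)) hc
      (by fun_prop)
  have hF : PolyF B (fun p : (Str × List ℕ × ℕ × ℕ) × List ℕ × Str =>
      par (plc p.1.1.length p.1.2.2.1 p.2.2) p.2.1) := by
    refine PolyF.comp (f := fun p : Str × List ℕ => par p.1 p.2)
      (g := fun p : (Str × List ℕ × ℕ × ℕ) × List ℕ × Str =>
        (plc p.1.1.length p.1.2.2.1 p.2.2, p.2.1)) hpar (PolyF.pair ?_ (by fun_prop))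
    exact PolyF.comp (f := fun p : ℕ × ℕ × Str => plc p.1 p.2.1 p.2.2)
      (g := fun p : (Str × List ℕ × ℕ × ℕ) × List ℕ × Str =>
        (p.1.1.length, p.1.2.2.1, p.2.2)) hplc (by fun_prop)
  have hS := hSLP B (List ℕ) (Str × List ℕ × ℕ × ℕ) (fun x => x.2.2.2)
    (fun x => x.2.1.flatMap fun b => cert (x.1, b))
    (fun x S v => par (plc x.1.length x.2.2.1 v) S) (by fun_prop) hQ hF
  refine PolyF.comp (f := fun p : Str × Str => add p.1 p.2)
    (g := fun x : Str × List ℕ × ℕ × ℕ => (x.1, plc x.1.length x.2.2.1
      (slv x.2.2.2 (x.2.1.flatMap fun b => cert (x.1, b))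
        (fun S v => par (plc x.1.length x.2.2.1 v) S)))) hadd (PolyF.pair (by fun_prop) ?_)
  exact PolyF.comp (f := fun p : ℕ × ℕ × Str => plc p.1 p.2.1 p.2.2)
    (g := fun x : Str × List ℕ × ℕ × ℕ => (x.1.length, x.2.2.1,
      slv x.2.2.2 (x.2.1.flatMap fun b => cert (x.1, b))
        (fun S v => par (plc x.1.length x.2.2.1 v) S))) hplc
    (PolyF.pair (by fun_prop) (PolyF.pair (by fun_prop) hS))

theorem EVB_count (C k N K t M : ℕ) (hk : 0 < k) (hM : M ^ k ≤ C * N ^ (k - 1))
    (hK : ((C + 1) * (t + 1)) ^ ((C + 1) * k) * N ^ (k - 1) < K ^ k) : t * M < K := by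
  by_contra hcon
  push Not at hcon
  have h1 : K ^ k ≤ (t * M) ^ k := Nat.pow_le_pow_left hcon k
  have h2 : (t * M) ^ k ≤ t ^ k * (C * N ^ (k - 1)) := by
    rw [mul_pow]
    exact Nat.mul_le_mul_left _ hM
  have h3 : C * t ^ k ≤ ((C + 1) * (t + 1)) ^ ((C + 1) * k) := by
    have h4 : ((C + 1) * (t + 1)) ^ k ≤ ((C + 1) * (t + 1)) ^ ((C + 1) * k) := by
      refine Nat.pow_le_pow_right (by positivity) ?_
      exact Nat.le_mul_of_pos_left k (by omega)
    refine le_trans ?_ h4
    rw [mul_pow]
    refine Nat.mul_le_mul ?_ (Nat.pow_le_pow_left (by omega) k)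
    calc C ≤ (C + 1) ^ 1 := by rw [pow_one]; exact Nat.le_succ C
      _ ≤ (C + 1) ^ k := Nat.pow_le_pow_right (by omega) hk
  have h5 : t ^ k * (C * N ^ (k - 1)) ≤
      ((C + 1) * (t + 1)) ^ ((C + 1) * k) * N ^ (k - 1) := by
    calc t ^ k * (C * N ^ (k - 1)) = C * t ^ k * N ^ (k - 1) := by ring
      _ ≤ _ := Nat.mul_le_mul_right _ h3
  omega

theorem p_EVB (hPLF : Stmt_PLF) (hSLV : Stmt_SLV) (hSLP : Stmt_SLP) : Stmt_EVB := by
  intro B g _ hg
  obtain ⟨C, k, cert, hk, hcert, hpc⟩ := hg
  refine ⟨C + 1, k, EVB_esc cert, hk, EVB_poly hPLF hSLP B cert hcert, ?_⟩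
  intro z T a K haK hz0 hK
  obtain ⟨Q, hQ⟩ : ∃ Q : List (List ℕ), Q = T.flatMap fun b => cert (z, b) := ⟨_, rfl⟩
  obtain ⟨F, hF⟩ : ∃ F : List ℕ → Str → Bool, F = fun S v => par (plc z.length a v) S := ⟨_, rfl⟩
  have hadd : ∀ q ∈ Q, ∀ u v : Str, u.length = K → v.length = K →
      F q (add u v) = xor (F q u) (F q v) := by
    intro q _ u v hu hv
    rw [hF]
    show par (plc z.length a (add u v)) q =
      xor (par (plc z.length a u) q) (par (plc z.length a v) q)
    rw [EVB_plc_add _ _ u v (by rw [hu, hv]), EVB_par_add]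
    rw [EVB_length_plc, EVB_length_plc]
  have hKpos : 0 < K := by
    by_contra h0
    have h1 : K = 0 := by omega
    rw [h1, Nat.zero_pow hk] at hK
    exact Nat.not_lt_zero _ hK
  have hlen : Q.length < K := by
    rcases Nat.eq_zero_or_pos T.length with hT | hT
    · have : T = [] := List.length_eq_zero_iff.1 hT
      rw [hQ, this]
      simpa using hKpos
    · obtain ⟨b, hb, hmax⟩ : ∃ b ∈ T, ∀ c ∈ T, (cert (z, c)).length ≤ (cert (z, b)).length := by
        have hne : T ≠ [] := by
          intro h
          rw [h] at hT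
          simp at hT
        obtain ⟨b, hb, hb2⟩ := Finset.exists_max_image T.toFinset
          (fun c => (cert (z, c)).length) (by
            obtain ⟨c, l, hcl⟩ := List.exists_cons_of_ne_nil hne
            exact ⟨c, by rw [hcl]; simp⟩)
        exact ⟨b, List.mem_toFinset.1 hb, fun c hc => hb2 c (List.mem_toFinset.2 hc)⟩
      have h1 := EVB_length_flatMap T (fun c => cert (z, c)) _ hmax
      rw [hQ]
      exact lt_of_le_of_lt h1 (EVB_count C k z.length K T.length _ hk (hpc z b).1 hK)
  obtain ⟨h1, h2, h3⟩ := hSLV (List ℕ) K Q F hadd hlen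
  obtain ⟨d, hd⟩ : ∃ d : Str, d = slv K Q F := ⟨_, rfl⟩
  rw [← hd] at h1 h2 h3
  have hesc : EVB_esc cert (z, T, a, K) = add z (plc z.length a d) := by
    rw [hd, hQ, hF]
    rfl
  have hlp := EVB_length_plc z.length a d
  have hl : (add z (plc z.length a d)).length = z.length := EVB_length_add _ _ hlp
  rw [hesc]
  refine ⟨hl, ?_, ?_, ?_⟩
  · intro heq
    obtain ⟨i, hi, hi2⟩ := List.getElem_of_mem h2
    have hiK : i < K := by rw [← h1]; exact hi
    have h4 := EVB_getD_add z (plc z.length a d) hlp (a + i)
    rw [heq, EVB_getD_plc _ _ _ _ (by omega), if_pos (Nat.le_add_right a i),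
      Nat.add_sub_cancel_left] at h4
    have h5 : d.getD i false = true := by
      rw [List.getD_eq_getElem _ _ hi, hi2]
    rw [h5] at h4
    revert h4
    cases z.getD (a + i) false <;> decide
  · intro j hj
    by_cases hjz : j < z.length
    · have h4 := EVB_getD_add z (plc z.length a d) hlp j
      have h5 : (plc z.length a d).getD j false = false := by
        rw [EVB_getD_plc _ _ _ _ hjz]
        rcases hj with hj | hj
        · rw [if_neg (by omega)]
        · rw [if_pos (by omega)]
          exact List.getD_eq_default _ _ (by omega)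
      rw [h5, Bool.xor_false, List.getD_eq_getElem _ _ hjz,
        List.getD_eq_getElem _ _ (by rw [hl]; exact hjz)] at h4
      rw [List.getElem?_eq_getElem hjz, List.getElem?_eq_getElem (by rw [hl]; exact hjz), h4]
    · rw [List.getElem?_eq_none (by omega), List.getElem?_eq_none (by omega)]
  · intro b hb
    refine (hpc z b).2 _ hl ?_
    intro S hS
    rw [EVB_par_add _ _ hlp]
    have h4 : par (plc z.length a d) S = false := by
      have h5 := h3 S (by rw [hQ]; exact List.mem_flatMap.2 ⟨b, hb, hS⟩)
      rw [hF] at h5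
      exact h5
    rw [h4, Bool.xor_false]

end Pool.EV
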