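import Pool.Agent.Work.MP_cb380d_ev.InterfaceC

set_option autoImplicit false

open Pool.IC Pool.GL Pool.TL Polynomial

namespace Pool.EV

theorem EVC_len_add (N : ℕ) (z u : Str) (hz : z.length = N) (hu : u.length = N) :
    (add z u).length = N := by
  unfold add
  rw [List.length_zipWith, hz, hu, Nat.min_self]

theorem EVC_get_add (N : ℕ) (z u : Str) (hz : z.length = N) (hu : u.length = N) (i : ℕ) :
    (add z u).getD i false = xor (z.getD i false) (u.getD i false) := by
  have h0 := EVC_len_add N z u hz hu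
  by_cases hi : i < N
  · have h1 : i < (add z u).length := by omega
    have h2 : i < z.length := by omega
    have h3 : i < u.length := by omega
    rw [List.getD_eq_getElem _ _ h1, List.getD_eq_getElem _ _ h2, List.getD_eq_getElem _ _ h3]
    unfold add
    rw [List.getElem_zipWith]
  · rw [List.getD_eq_default _ _ (by omega), List.getD_eq_default _ _ (by omega),
      List.getD_eq_default _ _ (by omega)]
    rfl

theorem EVC_len_plc (R p : ℕ) (v : Str) : (plc R p v).length = R := by
  unfold plc
  rw [List.length_map, List.length_range]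

theorem EVC_get_plc (R p : ℕ) (v : Str) (j : ℕ) :
    (plc R p v).getD j false = if j < R then (if p ≤ j then v.getD (j - p) false else false)
      else false := by
  split_ifs with h1 h2
  · rw [List.getD_eq_getElem _ _ (by rw [EVC_len_plc]; exact h1)]
    unfold plc
    rw [List.getElem_map, List.getElem_range, if_pos h2]
  · rw [List.getD_eq_getElem _ _ (by rw [EVC_len_plc]; exact h1)]
    unfold plc
    rw [List.getElem_map, List.getElem_range, if_neg h2]
  · rw [List.getD_eq_default _ _ (by rw [EVC_len_plc]; omega)]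

theorem EVC_ext (x y : Str) (hl : x.length = y.length)
    (h : ∀ i, x.getD i false = y.getD i false) : x = y := by
  refine List.ext_getElem hl fun i h1 h2 => ?_
  have := h i
  rw [List.getD_eq_getElem _ _ h1, List.getD_eq_getElem _ _ h2] at this
  exact this

theorem EVC_get_zero (K i : ℕ) : (List.replicate K false).getD i false = false := by
  by_cases h : i < K
  · rw [List.getD_eq_getElem _ _ (by rw [List.length_replicate]; exact h)]
    exact List.getElem_replicate _
  · rw [List.getD_eq_default _ _ (by rw [List.length_replicate]; omega)]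

theorem EVC_plc_add (N a K : ℕ) (v u : Str) (hv : v.length = K) (hu : u.length = K) :
    plc N a (add v u) = add (plc N a v) (plc N a u) := by
  refine EVC_ext _ _ ?_ fun i => ?_
  · rw [EVC_len_plc, EVC_len_add N _ _ (EVC_len_plc _ _ _) (EVC_len_plc _ _ _)]
  · rw [EVC_get_add N _ _ (EVC_len_plc _ _ _) (EVC_len_plc _ _ _), EVC_get_plc, EVC_get_plc,
      EVC_get_plc]
    split_ifs with h1 h2
    · exact EVC_get_add K v u hv hu _
    · rfl
    · rfl

theorem EVC_add_assoc (N : ℕ) (x y z : Str) (hx : x.length = N) (hy : y.length = N)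
    (hz : z.length = N) : add x (add y z) = add (add x y) z := by
  refine EVC_ext _ _ ?_ fun i => ?_
  · rw [EVC_len_add N _ _ hx (EVC_len_add N _ _ hy hz),
      EVC_len_add N _ _ (EVC_len_add N _ _ hx hy) hz]
  · rw [EVC_get_add N _ _ hx (EVC_len_add N _ _ hy hz),
      EVC_get_add N _ _ (EVC_len_add N _ _ hx hy) hz, EVC_get_add N _ _ hy hz,
      EVC_get_add N _ _ hx hy, Bool.xor_assoc]

theorem EVC_phi_zero (z : Str) (a K : ℕ) :
    add z (plc z.length a (List.replicate K false)) = z := by
  refine EVC_ext _ _ ?_ fun i => ?_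
  · exact EVC_len_add z.length _ _ rfl (EVC_len_plc _ _ _)
  · rw [EVC_get_add z.length _ _ rfl (EVC_len_plc _ _ _), EVC_get_plc, EVC_get_zero]
    split_ifs <;> simp

/-- `s[j]?` is determined by the length and the value. -/
theorem EVC_getE (x y : Str) (hl : x.length = y.length) (j : ℕ)
    (h : x.getD j false = y.getD j false) : x[j]? = y[j]? := by
  by_cases hj : j < x.length
  · have hj' : j < y.length := by omega
    rw [List.getD_eq_getElem _ _ hj, List.getD_eq_getElem _ _ hj'] at h
    rw [List.getElem?_eq_getElem hj, List.getElem?_eq_getElem hj', h]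
  · rw [List.getElem?_eq_none (by omega), List.getElem?_eq_none (by omega)]

/-- a symbol is determined by its indicator functions -/
theorem EVC_sym (x y : Str) (b : ℕ) (h1 : (x[b]?).isSome = (y[b]?).isSome)
    (h2 : x.getD b false = y.getD b false) : x[b]? = y[b]? := by
  rw [List.getD_eq_getElem?_getD, List.getD_eq_getElem?_getD] at h2
  cases hx : x[b]? with
  | none =>
    cases hy : y[b]? with
    | none => rfl
    | some v => rw [hx, hy] at h1; simp at h1
  | some u =>
    cases hy : y[b]? with
    | none => rw [hx, hy] at h1; simp at h1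
    | some v =>
      rw [hx, hy] at h2
      simpa using h2

/-- The functions. -/
def EVC_F (g : Str → Str) (c : Str × List ℕ × ℕ) (i : ℕ) (v : Str) : Bool :=
  bif decide (i < c.2.1.length) then
    ((g (add c.1 (plc c.1.length c.2.2 v)))[c.2.1.getD i 0]?).isSome
  else (g (add c.1 (plc c.1.length c.2.2 v))).getD (c.2.1.getD (i - c.2.1.length) 0) false

/-- The procedure. -/
def EVC_esc (g : Str → Str) (d : ℕ) (p : Str × List ℕ × ℕ × ℕ) : Str :=
  add p.1 (plc p.1.length p.2.2.1
    (sol d (EVC_F g (p.1, p.2.1, p.2.2.1)) (2 * p.2.1.length) p.2.2.2))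

theorem EVC_polyF (hPLF : Stmt_PLF) (B : Set Str) (g : Str → Str) (hg : PolyF B g) :
    PolyF B (fun p : (Str × List ℕ × ℕ) × ℕ × Str => EVC_F g p.1 p.2.1 p.2.2) := by
  obtain ⟨-, -, -, -, -, -, -, -, hadd, hplc, -⟩ := hPLF B
  have h1 : PolyF B (fun p : (Str × List ℕ × ℕ) × ℕ × Str =>
      plc p.1.1.length p.1.2.2 p.2.2) :=
    PolyF.comp (f := fun p : ℕ × ℕ × Str => plc p.1 p.2.1 p.2.2)
      (g := fun p : (Str × List ℕ × ℕ) × ℕ × Str => (p.1.1.length, p.1.2.2, p.2.2))
      hplc (by fun_prop)
  have h2 : PolyF B (fun p : (Str × List ℕ × ℕ) × ℕ × Str =>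
      add p.1.1 (plc p.1.1.length p.1.2.2 p.2.2)) :=
    PolyF.comp (f := fun p : Str × Str => add p.1 p.2)
      (g := fun p : (Str × List ℕ × ℕ) × ℕ × Str =>
        (p.1.1, plc p.1.1.length p.1.2.2 p.2.2)) hadd (by fun_prop)
  have h3 : PolyF B (fun p : (Str × List ℕ × ℕ) × ℕ × Str =>
      g (add p.1.1 (plc p.1.1.length p.1.2.2 p.2.2))) := hg.comp h2
  have h4 : PolyF B (fun p : (Str × List ℕ × ℕ) × ℕ × Str => p.1.2.1.getD p.2.1 0) := by
    fun_prop
  have h5 : PolyF B (fun p : (Str × List ℕ × ℕ) × ℕ × Str =>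
      p.1.2.1.getD (p.2.1 - p.1.2.1.length) 0) := by
    fun_prop
  unfold EVC_F
  refine PolyF.cond (by fun_prop) ?_ ?_
  · exact PolyF.isSome (PolyF.getElemOpt h3 h4)
  · exact PolyF.getD h5 h3 (PolyF.const false)

theorem EVC_polyE (hPLF : Stmt_PLF) (hSOP : Stmt_SOP) (B : Set Str) (g : Str → Str)
    (hg : PolyF B g) (d : ℕ) : PolyF B (EVC_esc g d) := by
  have hs := hSOP B d (Str × List ℕ × ℕ) (EVC_F g) (EVC_polyF hPLF B g hg)
  obtain ⟨-, -, -, -, -, -, -, -, hadd, hplc, -⟩ := hPLF B
  have h1 : PolyF B (fun p : Str × List ℕ × ℕ × ℕ =>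
      sol d (EVC_F g (p.1, p.2.1, p.2.2.1)) (2 * p.2.1.length) p.2.2.2) :=
    PolyF.comp (f := fun p : (Str × List ℕ × ℕ) × ℕ × ℕ => sol d (EVC_F g p.1) p.2.1 p.2.2)
      (g := fun p : Str × List ℕ × ℕ × ℕ =>
        ((p.1, p.2.1, p.2.2.1), 2 * p.2.1.length, p.2.2.2)) hs (by fun_prop)
  have h2 : PolyF B (fun p : Str × List ℕ × ℕ × ℕ => plc p.1.length p.2.2.1
      (sol d (EVC_F g (p.1, p.2.1, p.2.2.1)) (2 * p.2.1.length) p.2.2.2)) :=
    PolyF.comp (f := fun p : ℕ × ℕ × Str => plc p.1 p.2.1 p.2.2)
      (g := fun p : Str × List ℕ × ℕ × ℕ => (p.1.length, p.2.2.1,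
        sol d (EVC_F g (p.1, p.2.1, p.2.2.1)) (2 * p.2.1.length) p.2.2.2)) hplc (by fun_prop)
  exact PolyF.comp (f := fun p : Str × Str => add p.1 p.2)
    (g := fun p : Str × List ℕ × ℕ × ℕ => (p.1, plc p.1.length p.2.2.1
      (sol d (EVC_F g (p.1, p.2.1, p.2.2.1)) (2 * p.2.1.length) p.2.2.2))) hadd (by fun_prop)

theorem EVC_arith (c₀ n N K x : ℕ) (h1 : x ≤ (c₀ * (2 * n + 1)) ^ c₀)
    (h2 : ((2 * c₀ + 1) * (n + 1)) ^ ((2 * c₀ + 1) * 1) * N ^ (1 - 1) < K ^ 1) : x ≤ K := by
  have h3 : c₀ * (2 * n + 1) ≤ (2 * c₀ + 1) * (n + 1) := by nlinarith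
  have h4 : (c₀ * (2 * n + 1)) ^ c₀ ≤ ((2 * c₀ + 1) * (n + 1)) ^ c₀ := Nat.pow_le_pow_left h3 _
  have h5 : ((2 * c₀ + 1) * (n + 1)) ^ c₀ ≤ ((2 * c₀ + 1) * (n + 1)) ^ (2 * c₀ + 1) :=
    Nat.pow_le_pow_right (Nat.mul_pos (Nat.succ_pos _) (Nat.succ_pos _)) (by omega)
  rw [mul_one, Nat.sub_self, pow_zero, mul_one, pow_one] at h2
  omega

theorem p_EVC (hPLF : Stmt_PLF) (hMVP : Stmt_MVP) (hDAF : Stmt_DAF) (hSOL : Stmt_SOL)
    (hKDB : Stmt_KDB) (hSOP : Stmt_SOP) : Stmt_EVC := by
  intro B g hg hbd
  obtain ⟨d, hd⟩ := hbd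
  obtain ⟨c₀, hc₀⟩ := hKDB d
  refine ⟨2 * c₀ + 1, 1, EVC_esc g d, Nat.one_pos, EVC_polyE hPLF hSOP B g hg d, ?_⟩
  intro z T a K haK hz hlt
  have hkd : kd d (2 * T.length) ≤ K := EVC_arith c₀ T.length z.length K _ (hc₀ _) hlt
  -- degrees
  have hdeg : ∀ i, DegLE K d (EVC_F g (z, T, a) i) := by
    intro i
    have key : ∀ G : Str → Bool, IsPoly z.length d G →
        DegLE K d (fun s => G (add z (plc z.length a s))) := by
      intro G hG
      refine (hDAF K z.length G (fun s => add z (plc z.length a s))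
        (fun s => plc z.length a s) ?_ ?_ ?_).1 d (hMVP z.length d G hG)
      · intro s _
        exact EVC_len_add z.length _ _ rfl (EVC_len_plc _ _ _)
      · intro s _
        exact EVC_len_plc _ _ _
      · intro s u hs hu
        show add z (plc z.length a (add s u)) = add (add z (plc z.length a s)) (plc z.length a u)
        rw [EVC_plc_add z.length a K s u hs hu,
          EVC_add_assoc z.length _ _ _ rfl (EVC_len_plc _ _ _) (EVC_len_plc _ _ _)]
    by_cases hi : i < T.length
    · have e : EVC_F g (z, T, a) i = fun s =>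
          (fun w : Str => ((g w)[T.getD i 0]?).isSome) (add z (plc z.length a s)) := by
        funext s
        show (bif decide (i < T.length) then _ else _) = _
        rw [decide_eq_true hi, cond_true]
      rw [e]
      exact key _ (hd z.length _).1
    · have e : EVC_F g (z, T, a) i = fun s =>
          (fun w : Str => (g w).getD (T.getD (i - T.length) 0) false)
            (add z (plc z.length a s)) := by
        funext s
        show (bif decide (i < T.length) then _ else _) = _
        rw [decide_eq_false hi, cond_false]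
      rw [e]
      exact key _ (hd z.length _).2
  obtain ⟨hδl, hδt, hδ⟩ := hSOL d (EVC_F g (z, T, a)) (2 * T.length) K hkd (fun i _ => hdeg i)
  have hesc : EVC_esc g d (z, T, a, K) = add z (plc z.length a
      (sol d (EVC_F g (z, T, a)) (2 * T.length) K)) := rfl
  rw [hesc]
  set δ := sol d (EVC_F g (z, T, a)) (2 * T.length) K with hδdef
  have hlen : (add z (plc z.length a δ)).length = z.length :=
    EVC_len_add z.length _ _ rfl (EVC_len_plc _ _ _)
  have hget : ∀ j, (add z (plc z.length a δ)).getD j false =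
      xor (z.getD j false) (if j < z.length then (if a ≤ j then δ.getD (j - a) false else false)
        else false) := by
    intro j
    rw [EVC_get_add z.length _ _ rfl (EVC_len_plc _ _ _), EVC_get_plc]
  refine ⟨hlen, ?_, ?_, ?_⟩
  · intro heq
    obtain ⟨j, hj, hjt⟩ := List.getElem_of_mem hδt
    have h1 := hget (a + j)
    rw [heq, if_pos (by omega), if_pos (by omega), Nat.add_sub_cancel_left,
      List.getD_eq_getElem _ _ hj, hjt] at h1
    cases h2 : z.getD (a + j) false <;> rw [h2] at h1 <;> simp at h1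
  · intro j hj
    refine EVC_getE _ _ hlen j ?_
    rw [hget]
    split_ifs with h1 h2
    · rw [List.getD_eq_default δ _ (by omega)]
      exact Bool.xor_false _
    · exact Bool.xor_false _
    · exact Bool.xor_false _
  · intro b hb
    obtain ⟨i, hi, hib⟩ := List.getElem_of_mem hb
    have hib' : T.getD i 0 = b := by rw [List.getD_eq_getElem _ _ hi, hib]
    have e1 := hδ i (by omega)
    have e2 := hδ (i + T.length) (by omega)
    have f1 : ∀ s : Str, EVC_F g (z, T, a) i s =
        ((g (add z (plc z.length a s)))[b]?).isSome := by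
      intro s
      show (bif decide (i < T.length) then
        ((g (add z (plc z.length a s)))[T.getD i 0]?).isSome else _) = _
      rw [decide_eq_true hi, cond_true, hib']
    have f2 : ∀ s : Str, EVC_F g (z, T, a) (i + T.length) s =
        (g (add z (plc z.length a s))).getD b false := by
      intro s
      show (bif decide (i + T.length < T.length) then _ else
        (g (add z (plc z.length a s))).getD (T.getD (i + T.length - T.length) 0) false) = _
      rw [decide_eq_false (by omega), cond_false, Nat.add_sub_cancel, hib']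
    rw [f1, f1, EVC_phi_zero] at e1
    rw [f2, f2, EVC_phi_zero] at e2
    exact EVC_sym _ _ b e1 e2

end Pool.EV
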