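import Pool.Agent.Work.MP_cb380d_ev.InterfaceD
import Pool.Agent.Work.MP_cb380d_ev.B_EVC

set_option autoImplicit false

open Pool.IC Pool.GL Pool.TL Polynomial

namespace Pool.EV

/-- The names of the polynomials. -/
def EVM_Q (cert : Str × ℕ → List Str) (z : Str) (T : List ℕ) : List Str :=
  T.flatMap fun b => cert (z, b)

/-- The functions. -/
def EVM_F (Φ : Str × Str → ℕ) (c : Str × List Str × ℕ) (i : ℕ) (v : Str) : ℕ :=
  Φ (c.2.1.getD i [], add c.1 (plc c.1.length c.2.2 v))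

/-- The procedure. -/
def EVM_esc (ps : List (ℕ × ℕ × List (List ℕ))) (m d : ℕ) (cert : Str × ℕ → List Str)
    (Φ : Str × Str → ℕ) (p : Str × List ℕ × ℕ × ℕ) : Str :=
  add p.1 (plc p.1.length p.2.2.1
    (solm ps m d (EVM_F Φ (p.1, EVM_Q cert p.1 p.2.1, p.2.2.1)) (EVM_Q cert p.1 p.2.1).length
      p.2.2.2))

theorem EVM_polyF (hPLF : Stmt_PLF) (B : Set Str) (Φ : Str × Str → ℕ) (hΦ : PolyF B Φ) :
    PolyF B (fun p : (Str × List Str × ℕ) × ℕ × Str => EVM_F Φ p.1 p.2.1 p.2.2) := by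
  obtain ⟨-, -, -, -, -, -, -, -, hadd, hplc, -⟩ := hPLF B
  have h1 : PolyF B (fun p : (Str × List Str × ℕ) × ℕ × Str =>
      plc p.1.1.length p.1.2.2 p.2.2) :=
    PolyF.comp (f := fun p : ℕ × ℕ × Str => plc p.1 p.2.1 p.2.2)
      (g := fun p : (Str × List Str × ℕ) × ℕ × Str => (p.1.1.length, p.1.2.2, p.2.2))
      hplc (by fun_prop)
  have h2 : PolyF B (fun p : (Str × List Str × ℕ) × ℕ × Str =>
      add p.1.1 (plc p.1.1.length p.1.2.2 p.2.2)) :=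
    PolyF.comp (f := fun p : Str × Str => add p.1 p.2)
      (g := fun p : (Str × List Str × ℕ) × ℕ × Str =>
        (p.1.1, plc p.1.1.length p.1.2.2 p.2.2)) hadd (by fun_prop)
  have h4 : PolyF B (fun p : (Str × List Str × ℕ) × ℕ × Str => p.1.2.1.getD p.2.1 []) := by
    fun_prop
  unfold EVM_F
  exact PolyF.comp (f := Φ) (g := fun p : (Str × List Str × ℕ) × ℕ × Str =>
    (p.1.2.1.getD p.2.1 [], add p.1.1 (plc p.1.1.length p.1.2.2 p.2.2))) hΦ (by fun_prop)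

theorem EVM_polyE (hPLF : Stmt_PLF) (hSMP : Stmt_SMP) (B : Set Str)
    (ps : List (ℕ × ℕ × List (List ℕ))) (hps : ∀ q ∈ ps, 0 < q.1) (m d : ℕ)
    (cert : Str × ℕ → List Str) (Φ : Str × Str → ℕ) (hc : PolyF B cert) (hΦ : PolyF B Φ) :
    PolyF B (EVM_esc ps m d cert Φ) := by
  have hs := hSMP B ps hps m d (Str × List Str × ℕ) (EVM_F Φ) (EVM_polyF hPLF B Φ hΦ)
  obtain ⟨-, -, -, -, -, -, -, -, hadd, hplc, -⟩ := hPLF B
  have hQ : PolyF B (fun p : Str × List ℕ × ℕ × ℕ => EVM_Q cert p.1 p.2.1) := by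
    unfold EVM_Q
    refine PolyF.flatMap ?_ ?_
    · fun_prop
    · exact PolyF.comp (f := cert) (g := fun p : (Str × List ℕ × ℕ × ℕ) × ℕ => (p.1.1, p.2)) hc
        (by fun_prop)
  have h1 : PolyF B (fun p : Str × List ℕ × ℕ × ℕ =>
      solm ps m d (EVM_F Φ (p.1, EVM_Q cert p.1 p.2.1, p.2.2.1)) (EVM_Q cert p.1 p.2.1).length
        p.2.2.2) :=
    PolyF.comp (f := fun p : (Str × List Str × ℕ) × ℕ × ℕ =>
        solm ps m d (EVM_F Φ p.1) p.2.1 p.2.2)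
      (g := fun p : Str × List ℕ × ℕ × ℕ =>
        ((p.1, EVM_Q cert p.1 p.2.1, p.2.2.1), (EVM_Q cert p.1 p.2.1).length, p.2.2.2)) hs
      (by fun_prop)
  have h2 : PolyF B (fun p : Str × List ℕ × ℕ × ℕ => plc p.1.length p.2.2.1
      (solm ps m d (EVM_F Φ (p.1, EVM_Q cert p.1 p.2.1, p.2.2.1)) (EVM_Q cert p.1 p.2.1).length
        p.2.2.2)) :=
    PolyF.comp (f := fun p : ℕ × ℕ × Str => plc p.1 p.2.1 p.2.2)
      (g := fun p : Str × List ℕ × ℕ × ℕ => (p.1.length, p.2.2.1,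
        solm ps m d (EVM_F Φ (p.1, EVM_Q cert p.1 p.2.1, p.2.2.1)) (EVM_Q cert p.1 p.2.1).length
        p.2.2.2)) hplc (by fun_prop)
  exact PolyF.comp (f := fun p : Str × Str => add p.1 p.2)
    (g := fun p : Str × List ℕ × ℕ × ℕ => (p.1, plc p.1.length p.2.2.1
      (solm ps m d (EVM_F Φ (p.1, EVM_Q cert p.1 p.2.1, p.2.2.1)) (EVM_Q cert p.1 p.2.1).length
        p.2.2.2))) hadd (by fun_prop)

theorem EVM_lenQ (cert : Str × ℕ → List Str) (z : Str) (T : List ℕ) (S : ℕ)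
    (h : ∀ b, (cert (z, b)).length ≤ S) : (EVM_Q cert z T).length ≤ T.length * S := by
  induction T with
  | nil => simp [EVM_Q]
  | cons b T ih =>
    have h1 : EVM_Q cert z (b :: T) = cert (z, b) ++ EVM_Q cert z T := by
      simp [EVM_Q]
    rw [h1, List.length_append, List.length_cons, Nat.add_mul, one_mul]
    have := h b
    omega

theorem EVM_arith (C₀ C S t N K x q : ℕ) (hx : x ≤ (C₀ * (q + 1)) ^ C₀) (hq : q ≤ t * S)
    (hS : S ^ (2 * C₀) ≤ C * N + C) (hKN : K ≤ N)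
    (h : ((C₀ + 2 ^ (2 * C₀) * (2 * C + 1) + 1) * (t + 1)) ^
      ((C₀ + 2 ^ (2 * C₀) * (2 * C + 1) + 1) * 2) * N ^ (2 - 1) < K ^ 2) : x ≤ K := by
  set C₁ := 2 ^ (2 * C₀) * (2 * C + 1) with hC₁
  set c := C₀ + C₁ + 1 with hc
  have hK : 0 < K := by
    rcases Nat.eq_zero_or_pos K with h0 | h0
    · rw [h0] at h; simp at h
    · exact h0
  have hN : 1 ≤ N := le_trans hK hKN
  have hS1 : (S + 1) ^ (2 * C₀) ≤ C₁ * N := by
    have h1 : (S + 1) ^ (2 * C₀) ≤ 2 ^ (2 * C₀) * (S ^ (2 * C₀) + 1) := by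
      rcases Nat.eq_zero_or_pos S with h0 | h0
      · rw [h0, Nat.zero_add, one_pow]
        have h2 : 1 ≤ 2 ^ (2 * C₀) := Nat.one_le_two_pow
        nlinarith [Nat.zero_le (0 ^ (2 * C₀))]
      · calc (S + 1) ^ (2 * C₀) ≤ (2 * S) ^ (2 * C₀) := Nat.pow_le_pow_left (by omega) _
          _ = 2 ^ (2 * C₀) * S ^ (2 * C₀) := by rw [mul_pow]
          _ ≤ 2 ^ (2 * C₀) * (S ^ (2 * C₀) + 1) := Nat.mul_le_mul_left _ (by omega)
    calc (S + 1) ^ (2 * C₀) ≤ 2 ^ (2 * C₀) * (S ^ (2 * C₀) + 1) := h1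
      _ ≤ 2 ^ (2 * C₀) * ((2 * C + 1) * N) := by
          apply Nat.mul_le_mul_left
          nlinarith
      _ = C₁ * N := by rw [hC₁]; ring
  have hx2 : x ^ 2 ≤ (C₀ * (t + 1)) ^ (2 * C₀) * (C₁ * N) := by
    calc x ^ 2 ≤ ((C₀ * (q + 1)) ^ C₀) ^ 2 := Nat.pow_le_pow_left hx 2
      _ = (C₀ * (q + 1)) ^ (2 * C₀) := by rw [← pow_mul, mul_comm C₀ 2]
      _ ≤ (C₀ * (t + 1) * (S + 1)) ^ (2 * C₀) := by
          apply Nat.pow_le_pow_left
          rw [mul_assoc]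
          apply Nat.mul_le_mul_left
          nlinarith
      _ = (C₀ * (t + 1)) ^ (2 * C₀) * (S + 1) ^ (2 * C₀) := by rw [mul_pow]
      _ ≤ (C₀ * (t + 1)) ^ (2 * C₀) * (C₁ * N) := Nat.mul_le_mul_left _ hS1
  have hb0 : 0 < c * (t + 1) := Nat.mul_pos (by omega) (Nat.succ_pos _)
  have hbig : (C₀ * (t + 1)) ^ (2 * C₀) * C₁ ≤ (c * (t + 1)) ^ (c * 2) := by
    have h1 : c * 2 = 2 * C₀ + (2 * C₁ + 2) := by rw [hc]; ring
    rw [h1, pow_add]
    apply Nat.mul_le_mul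
    · exact Nat.pow_le_pow_left (Nat.mul_le_mul_right _ (by omega)) _
    · calc C₁ ≤ c := by omega
        _ ≤ c * (t + 1) := Nat.le_mul_of_pos_right _ (Nat.succ_pos _)
        _ ≤ (c * (t + 1)) ^ (2 * C₁ + 2) := Nat.le_self_pow (by omega) _
  have h2 : x ^ 2 < K ^ 2 := by
    calc x ^ 2 ≤ (C₀ * (t + 1)) ^ (2 * C₀) * (C₁ * N) := hx2
      _ = (C₀ * (t + 1)) ^ (2 * C₀) * C₁ * N ^ (2 - 1) := by
          rw [show 2 - 1 = 1 from rfl, pow_one]; ring
      _ ≤ (c * (t + 1)) ^ (c * 2) * N ^ (2 - 1) := Nat.mul_le_mul_right _ hbig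
      _ < K ^ 2 := h
  exact (lt_of_pow_lt_pow_left₀ 2 (Nat.zero_le K) h2).le

theorem p_EVM (hPLF : Stmt_PLF) (hFAC : Stmt_FAC) (hNZB : Stmt_NZB) (hSMC : Stmt_SMC)
    (hSMP : Stmt_SMP) (hSUB : Stmt_SUB) : Stmt_EVM := by
  intro B g hg hmc
  obtain ⟨m, d, s, cert, Φ, hm, hcert, hΦ, hs, hpoly, hmain⟩ := hmc
  obtain ⟨ps, hps, hprod⟩ := hFAC m hm
  obtain ⟨-, -, hkm⟩ := hNZB ps
  obtain ⟨-, C₀, hC₀⟩ := hkm d
  obtain ⟨C, hC⟩ := hs (2 * C₀)
  have hps0 : ∀ q ∈ ps, 0 < q.1 := fun q hq => (hps q hq).1.pos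
  refine ⟨C₀ + 2 ^ (2 * C₀) * (2 * C + 1) + 1, 2, EVM_esc ps m d cert Φ, by norm_num,
    EVM_polyE hPLF hSMP B ps hps0 m d cert Φ hcert hΦ, ?_⟩
  intro z T a K haK hz hlt
  set Q := EVM_Q cert z T with hQ
  have hQlen : Q.length ≤ T.length * s z.length :=
    EVM_lenQ cert z T _ (fun b => (hmain z b).1)
  have hkd : km ps d Q.length ≤ K :=
    EVM_arith C₀ C (s z.length) T.length z.length K _ Q.length (hC₀ _) hQlen (hC _) (by omega) hlt
  obtain ⟨hδl, hδt, hδ⟩ := hSMC ps m d (EVM_F Φ (z, Q, a)) Q.length K hps hprod hm hkd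
    (fun i _ => hSUB m z.length d a K (fun w => Φ (Q.getD i [], w)) z (hpoly _ _) rfl haK hz)
  have hesc : EVM_esc ps m d cert Φ (z, T, a, K) = add z (plc z.length a
      (solm ps m d (EVM_F Φ (z, Q, a)) Q.length K)) := rfl
  rw [hesc]
  set δ := solm ps m d (EVM_F Φ (z, Q, a)) Q.length K with hδdef
  have hlen : (add z (plc z.length a δ)).length = z.length :=
    EVC_len_add z.length _ _ rfl (EVC_len_plc _ _ _)
  have hget : ∀ j, (add z (plc z.length a δ)).getD j false =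
      xor (z.getD j false) (if j < z.length then (if a ≤ j then δ.getD (j - a) false else false)
        else false) := by
    intro j
    rw [EVC_get_add z.length _ _ rfl (EVC_len_plc _ _ _), EVC_get_plc]
  refine ⟨hlen, ?_, ?_, ?_⟩
  · intro heq
    obtain ⟨j, hj, hjt⟩ := List.getElem_of_mem hδt
    have h1 := hget (a + j)
    rw [heq, if_pos (by omega), if_pos (by omega), Nat.add_sub_cancel_left,
      List.getD_eq_getElem _ _ hj, hjt] at h1
    cases h2 : z.getD (a + j) false <;> rw [h2] at h1 <;> simp at h1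
  · intro j hj
    refine EVC_getE _ _ hlen j ?_
    rw [hget]
    split_ifs with h1 h2
    · rw [List.getD_eq_default δ _ (by omega)]
      exact Bool.xor_false _
    · exact Bool.xor_false _
    · exact Bool.xor_false _
  · intro b hb
    refine (hmain z b).2 _ hlen ?_
    intro q hq
    have hqQ : q ∈ Q := by
      rw [hQ]
      unfold EVM_Q
      exact List.mem_flatMap.2 ⟨b, hb, hq⟩
    obtain ⟨i, hi, hiq⟩ := List.getElem_of_mem hqQ
    have hiq' : Q.getD i [] = q := by rw [List.getD_eq_getElem _ _ hi, hiq]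
    have e1 := hδ i hi
    have f1 : ∀ v : Str, EVM_F Φ (z, Q, a) i v = Φ (q, add z (plc z.length a v)) := by
      intro v
      show Φ (Q.getD i [], add z (plc z.length a v)) = _
      rw [hiq']
    rw [f1, f1, EVC_phi_zero] at e1
    exact e1

end Pool.EV
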