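import Pool.Agent.Work.MP_cb380d_ev.InterfaceE

/-!
# MP_cb380d_lc, EvasiveReductions, block EVX (helper73): certificates of parities and polynomials
-/

open Pool.IC Pool.GL Pool.TL Polynomial

namespace Pool.EV

/-! ### Strings -/

theorem EVX_len_add (N : ℕ) (z u : Str) (hz : z.length = N) (hu : u.length = N) :
    (add z u).length = N := by
  unfold add
  rw [List.length_zipWith, hz, hu, Nat.min_self]

theorem EVX_get_add (N : ℕ) (z u : Str) (hz : z.length = N) (hu : u.length = N) (i : ℕ) :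
    (add z u).getD i false = xor (z.getD i false) (u.getD i false) := by
  have h0 := EVX_len_add N z u hz hu
  by_cases hi : i < N
  · have h1 : i < (add z u).length := by omega
    have h2 : i < z.length := by omega
    have h3 : i < u.length := by omega
    rw [List.getD_eq_getElem _ _ h1, List.getD_eq_getElem _ _ h2, List.getD_eq_getElem _ _ h3]
    exact List.getElem_zipWith
  · rw [List.getD_eq_default _ _ (by omega), List.getD_eq_default _ _ (by omega),
      List.getD_eq_default _ _ (by omega)]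
    rfl

theorem EVX_ext (x y : Str) (hl : x.length = y.length)
    (h : ∀ i, x.getD i false = y.getD i false) : x = y := by
  refine List.ext_getElem hl fun i h1 h2 => ?_
  have := h i
  rw [List.getD_eq_getElem _ _ h1, List.getD_eq_getElem _ _ h2] at this
  exact this

theorem EVX_get_zero (K i : ℕ) : (List.replicate K false).getD i false = false := by
  by_cases h : i < K
  · rw [List.getD_eq_getElem _ _ (by rw [List.length_replicate]; exact h)]
    exact List.getElem_replicate _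
  · rw [List.getD_eq_default _ _ (by rw [List.length_replicate]; omega)]

theorem EVX_add_zero (z : Str) : add z (List.replicate z.length false) = z := by
  refine EVX_ext _ _ ?_ fun i => ?_
  · exact EVX_len_add z.length _ _ rfl List.length_replicate
  · rw [EVX_get_add z.length _ _ rfl List.length_replicate, EVX_get_zero]
    exact Bool.xor_false _

/-- `s[j]?` is determined by the length and the value. -/
theorem EVX_getE (x y : Str) (hl : x.length = y.length) (j : ℕ)
    (h : x.getD j false = y.getD j false) : x[j]? = y[j]? := by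
  by_cases hj : j < x.length
  · have hj' : j < y.length := by omega
    rw [List.getD_eq_getElem _ _ hj, List.getD_eq_getElem _ _ hj'] at h
    rw [List.getElem?_eq_getElem hj, List.getElem?_eq_getElem hj', h]
  · rw [List.getElem?_eq_none (by omega), List.getElem?_eq_none (by omega)]

theorem EVX_mem_supp (u : Str) (j : ℕ) : j ∈ supp u ↔ u.getD j false = true := by
  unfold supp
  rw [Finset.mem_filter, Finset.mem_range]
  constructor
  · exact fun h => h.2
  · intro h
    refine ⟨?_, h⟩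
    by_contra hj
    rw [List.getD_eq_default _ _ (by omega)] at h
    exact Bool.false_ne_true h

/-! ### The procedure -/

/-- the parities -/
def EVX_P (sets : Str × ℕ → List (List ℕ)) (p : Str × List ℕ × ℕ × ℕ) : List (List ℕ) :=
  p.2.1.flatMap fun b => sets (p.1, b)

/-- the names -/
def EVX_Q (names : Str × ℕ → List Str) (p : Str × List ℕ × ℕ × ℕ) : List Str :=
  p.2.1.flatMap fun b => names (p.1, b)

/-- the functions -/
def EVX_F (Φ : Str × Str → ℕ) (c : Str × List Str × List Str) (i : ℕ) (s : Str) : ℕ :=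
  Φ (c.2.1.getD i [], add c.1 (cmb c.1.length c.2.2 s))

/-- the vectors -/
def EVX_U (ps : List (ℕ × ℕ × List (List ℕ))) (d : ℕ) (sets : Str × ℕ → List (List ℕ))
    (names : Str × ℕ → List Str) (p : Str × List ℕ × ℕ × ℕ) : List Str :=
  usets p.1.length p.2.2.1 ((EVX_P sets p).length + 1) (km ps d (EVX_Q names p).length)
    (EVX_P sets p)

/-- the coefficients -/
def EVX_σ (ps : List (ℕ × ℕ × List (List ℕ))) (m d : ℕ) (sets : Str × ℕ → List (List ℕ))
    (names : Str × ℕ → List Str) (Φ : Str × Str → ℕ) (p : Str × List ℕ × ℕ × ℕ) : Str :=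
  solm ps m d (EVX_F Φ (p.1, EVX_Q names p, EVX_U ps d sets names p)) (EVX_Q names p).length
    (km ps d (EVX_Q names p).length)

/-- the procedure -/
def EVX_esc (ps : List (ℕ × ℕ × List (List ℕ))) (m d : ℕ) (sets : Str × ℕ → List (List ℕ))
    (names : Str × ℕ → List Str) (Φ : Str × Str → ℕ) (p : Str × List ℕ × ℕ × ℕ) : Str :=
  add p.1 (cmb p.1.length (EVX_U ps d sets names p) (EVX_σ ps m d sets names Φ p))

theorem EVX_polyP {B : Set Str} {sets : Str × ℕ → List (List ℕ)} (h : PolyF B sets) :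
    PolyF B (EVX_P sets) := by
  unfold EVX_P
  refine PolyF.flatMap (l := fun p : Str × List ℕ × ℕ × ℕ => p.2.1)
    (f := fun (p : Str × List ℕ × ℕ × ℕ) b => sets (p.1, b)) (by fun_prop) ?_
  exact PolyF.comp (f := sets)
    (g := fun q : (Str × List ℕ × ℕ × ℕ) × ℕ => (q.1.1, q.2)) h (by fun_prop)

theorem EVX_polyQ {B : Set Str} {names : Str × ℕ → List Str} (h : PolyF B names) :
    PolyF B (EVX_Q names) := by
  unfold EVX_Q
  refine PolyF.flatMap (l := fun p : Str × List ℕ × ℕ × ℕ => p.2.1)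
    (f := fun (p : Str × List ℕ × ℕ × ℕ) b => names (p.1, b)) (by fun_prop) ?_
  exact PolyF.comp (f := names)
    (g := fun q : (Str × List ℕ × ℕ × ℕ) × ℕ => (q.1.1, q.2)) h (by fun_prop)

theorem EVX_polyK (hZMP : Stmt_ZMP) {B : Set Str} {ps : List (ℕ × ℕ × List (List ℕ))}
    (hps : ∀ q ∈ ps, 0 < q.1) (d : ℕ) {names : Str × ℕ → List Str} (hn : PolyF B names) :
    PolyF B (fun p => km ps d (EVX_Q names p).length) := by
  have h1 := EVX_polyQ hn
  exact PolyF.comp (f := fun M : ℕ => km ps d M) (g := fun p => (EVX_Q names p).length)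
    ((hZMP B ps hps).2.2 d) (PolyF.length h1)

theorem EVX_polyU (hZMP : Stmt_ZMP) (hUPF : Stmt_UPF) {B : Set Str}
    {ps : List (ℕ × ℕ × List (List ℕ))} (hps : ∀ q ∈ ps, 0 < q.1) (d : ℕ)
    {sets : Str × ℕ → List (List ℕ)} {names : Str × ℕ → List Str} (hs : PolyF B sets)
    (hn : PolyF B names) : PolyF B (EVX_U ps d sets names) := by
  have h1 := EVX_polyP hs
  have h2 := EVX_polyK hZMP hps d hn
  have h3 : PolyF B (fun p : Str × List ℕ × ℕ × ℕ => (EVX_P sets p).length + 1) := by fun_prop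
  unfold EVX_U
  refine PolyF.comp (f := fun q : ℕ × ℕ × ℕ × ℕ × List (List ℕ) =>
      usets q.1 q.2.1 q.2.2.1 q.2.2.2.1 q.2.2.2.2)
    (g := fun p : Str × List ℕ × ℕ × ℕ => (p.1.length, p.2.2.1, (EVX_P sets p).length + 1,
      km ps d (EVX_Q names p).length, EVX_P sets p)) (hUPF B) ?_
  exact PolyF.pair (by fun_prop) (PolyF.pair (by fun_prop) (PolyF.pair h3 (PolyF.pair h2 h1)))

theorem EVX_polyF (hPLF : Stmt_PLF) (hCBF : Stmt_CBF) {B : Set Str} {Φ : Str × Str → ℕ}
    (hΦ : PolyF B Φ) :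
    PolyF B (fun p : (Str × List Str × List Str) × ℕ × Str => EVX_F Φ p.1 p.2.1 p.2.2) := by
  obtain ⟨-, -, -, -, -, -, -, -, hadd, -⟩ := hPLF B
  have h1 : PolyF B (fun p : (Str × List Str × List Str) × ℕ × Str =>
      cmb p.1.1.length p.1.2.2 p.2.2) :=
    PolyF.comp (f := fun p : ℕ × List Str × Str => cmb p.1 p.2.1 p.2.2)
      (g := fun p : (Str × List Str × List Str) × ℕ × Str => (p.1.1.length, p.1.2.2, p.2.2))
      (hCBF B) (by fun_prop)
  have h2 : PolyF B (fun p : (Str × List Str × List Str) × ℕ × Str =>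
      add p.1.1 (cmb p.1.1.length p.1.2.2 p.2.2)) :=
    PolyF.comp (f := fun p : Str × Str => add p.1 p.2)
      (g := fun p : (Str × List Str × List Str) × ℕ × Str =>
        (p.1.1, cmb p.1.1.length p.1.2.2 p.2.2)) hadd (PolyF.pair (by fun_prop) h1)
  have h3 : PolyF B (fun p : (Str × List Str × List Str) × ℕ × Str =>
      p.1.2.1.getD p.2.1 []) := by fun_prop
  unfold EVX_F
  exact PolyF.comp (f := Φ) (g := fun p : (Str × List Str × List Str) × ℕ × Str =>
    (p.1.2.1.getD p.2.1 [], add p.1.1 (cmb p.1.1.length p.1.2.2 p.2.2))) hΦ (PolyF.pair h3 h2)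

theorem EVX_polyE (hPLF : Stmt_PLF) (hCBF : Stmt_CBF) (hZMP : Stmt_ZMP) (hSMP : Stmt_SMP)
    (hUPF : Stmt_UPF) {B : Set Str} {ps : List (ℕ × ℕ × List (List ℕ))}
    (hps : ∀ q ∈ ps, 0 < q.1) (m d : ℕ) {sets : Str × ℕ → List (List ℕ)}
    {names : Str × ℕ → List Str} {Φ : Str × Str → ℕ} (hs : PolyF B sets) (hn : PolyF B names)
    (hΦ : PolyF B Φ) : PolyF B (EVX_esc ps m d sets names Φ) := by
  have hU := EVX_polyU hZMP hUPF hps d hs hn
  have hK := EVX_polyK hZMP hps d hn
  have hQ := EVX_polyQ hn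
  have hS := hSMP B ps hps m d (Str × List Str × List Str) (EVX_F Φ) (EVX_polyF hPLF hCBF hΦ)
  have h1 : PolyF B (EVX_σ ps m d sets names Φ) := by
    unfold EVX_σ
    refine PolyF.comp (f := fun p : (Str × List Str × List Str) × ℕ × ℕ =>
        solm ps m d (EVX_F Φ p.1) p.2.1 p.2.2)
      (g := fun p : Str × List ℕ × ℕ × ℕ => ((p.1, EVX_Q names p, EVX_U ps d sets names p),
        (EVX_Q names p).length, km ps d (EVX_Q names p).length)) hS ?_
    exact PolyF.pair (PolyF.pair (by fun_prop) (PolyF.pair hQ hU))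
      (PolyF.pair (PolyF.length hQ) hK)
  obtain ⟨-, -, -, -, -, -, -, -, hadd, -⟩ := hPLF B
  have h2 : PolyF B (fun p : Str × List ℕ × ℕ × ℕ =>
      cmb p.1.length (EVX_U ps d sets names p) (EVX_σ ps m d sets names Φ p)) :=
    PolyF.comp (f := fun p : ℕ × List Str × Str => cmb p.1 p.2.1 p.2.2)
      (g := fun p : Str × List ℕ × ℕ × ℕ => (p.1.length, EVX_U ps d sets names p,
        EVX_σ ps m d sets names Φ p)) (hCBF B)
      (PolyF.pair (by fun_prop) (PolyF.pair hU h1))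
  unfold EVX_esc
  exact PolyF.comp (f := fun p : Str × Str => add p.1 p.2)
    (g := fun p : Str × List ℕ × ℕ × ℕ => (p.1, cmb p.1.length (EVX_U ps d sets names p)
      (EVX_σ ps m d sets names Φ p))) hadd (PolyF.pair (by fun_prop) h2)

/-! ### Counting -/

theorem EVX_sum {f : ℕ → ℕ} {k Y : ℕ} (hk : 0 < k) (T : List ℕ)
    (h : ∀ b ∈ T, f b ^ k ≤ Y) : (T.map f).sum ^ k ≤ T.length ^ k * Y := by
  have h1 : ∃ M, (∀ b ∈ T, f b ≤ M) ∧ M ^ k ≤ Y := by
    induction T with
    | nil => exact ⟨0, by simp, by rw [Nat.zero_pow hk]; exact Nat.zero_le _⟩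
    | cons b T ih =>
      obtain ⟨M, hM1, hM2⟩ := ih fun b hb => h b (List.mem_cons_of_mem _ hb)
      refine ⟨max (f b) M, ?_, ?_⟩
      · intro c hc
        rcases List.mem_cons.1 hc with rfl | hc
        · exact le_max_left _ _
        · exact (hM1 c hc).trans (le_max_right _ _)
      · rcases le_total (f b) M with hb | hb
        · rw [max_eq_right hb]
          exact hM2
        · rw [max_eq_left hb]
          exact h b List.mem_cons_self
  obtain ⟨M, hM1, hM2⟩ := h1
  have h2 : (T.map f).sum ≤ T.length * M := by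
    have := List.sum_le_card_nsmul (T.map f) M (fun x hx => by
      obtain ⟨b, hb, rfl⟩ := List.mem_map.1 hx
      exact hM1 b hb)
    rwa [List.length_map, smul_eq_mul] at this
  calc (T.map f).sum ^ k ≤ (T.length * M) ^ k := Nat.pow_le_pow_left h2 k
    _ = T.length ^ k * M ^ k := Nat.mul_pow _ _ _
    _ ≤ T.length ^ k * Y := Nat.mul_le_mul_left _ hM2

theorem EVX_succ_pow (a k : ℕ) : (a + 1) ^ k ≤ 2 ^ k * (a ^ k + 1) := by
  rcases Nat.eq_zero_or_pos a with rfl | ha
  · have h1 : 1 ≤ 2 ^ k := Nat.one_le_two_pow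
    simp only [zero_add, one_pow]
    nlinarith [Nat.zero_le ((0 : ℕ) ^ k)]
  · calc (a + 1) ^ k ≤ (2 * a) ^ k := Nat.pow_le_pow_left (by omega) k
      _ = 2 ^ k * a ^ k := Nat.mul_pow _ _ _
      _ ≤ 2 ^ k * (a ^ k + 1) := Nat.mul_le_mul_left _ (Nat.le_succ _)

/-- the arithmetic -/
theorem EVX_arith {k C c₀ C' n N S p q r K : ℕ} (hk : 0 < k) (hN : 0 < N)
    (hp : p ^ k ≤ n ^ k * (C * N ^ (k - 1))) (hq : q ≤ n * S)
    (hS : S ^ (2 * k * c₀) ≤ C' * N + C') (hr : r ≤ (c₀ * (q + 1)) ^ c₀)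
    (hK : ((c₀ + 2 ^ (2 * k * c₀) * (2 * C' + 1) + 2 ^ k * (C + 1) + 2) * (n + 1)) ^
      ((c₀ + 2 ^ (2 * k * c₀) * (2 * C' + 1) + 2 ^ k * (C + 1) + 2) * (2 * k)) *
      N ^ (2 * k - 1) < K ^ (2 * k)) : r * (p + 1) < K := by
  set e := 2 * k * c₀ with he
  set C₁ := 2 ^ e * (2 * C' + 1) with hC₁
  set C₂ := 2 ^ k * (C + 1) with hC₂
  set c := c₀ + C₁ + C₂ + 2 with hc
  have hNk : 1 ≤ N ^ (k - 1) := Nat.one_le_pow _ _ hN
  have hn1 : 1 ≤ (n + 1) ^ k := Nat.one_le_pow _ _ (Nat.succ_pos _)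
  -- the parities
  have h1 : (p + 1) ^ k ≤ C₂ * (n + 1) ^ k * N ^ (k - 1) := by
    have h2 : p ^ k + 1 ≤ (C + 1) * (n + 1) ^ k * N ^ (k - 1) := by
      have h3 : n ^ k ≤ (n + 1) ^ k := Nat.pow_le_pow_left (Nat.le_succ _) k
      have h4 : n ^ k * (C * N ^ (k - 1)) ≤ (n + 1) ^ k * (C * N ^ (k - 1)) :=
        Nat.mul_le_mul_right _ h3
      have h5 : 1 ≤ (n + 1) ^ k * N ^ (k - 1) := Nat.mul_pos hn1 hNk
      calc p ^ k + 1 ≤ (n + 1) ^ k * (C * N ^ (k - 1)) + (n + 1) ^ k * N ^ (k - 1) :=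
            Nat.add_le_add (hp.trans h4) h5
        _ = (C + 1) * (n + 1) ^ k * N ^ (k - 1) := by ring
    calc (p + 1) ^ k ≤ 2 ^ k * (p ^ k + 1) := EVX_succ_pow p k
      _ ≤ 2 ^ k * ((C + 1) * (n + 1) ^ k * N ^ (k - 1)) := Nat.mul_le_mul_left _ h2
      _ = C₂ * (n + 1) ^ k * N ^ (k - 1) := by rw [hC₂]; ring
  -- the polynomials
  have h2 : (S + 1) ^ e ≤ C₁ * N := by
    have h3 : S ^ e + 1 ≤ (2 * C' + 1) * N := by nlinarith
    calc (S + 1) ^ e ≤ 2 ^ e * (S ^ e + 1) := EVX_succ_pow S e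
      _ ≤ 2 ^ e * ((2 * C' + 1) * N) := Nat.mul_le_mul_left _ h3
      _ = C₁ * N := by rw [hC₁]; ring
  have h3 : r ^ (2 * k) ≤ (c₀ * (n + 1)) ^ e * (C₁ * N) := by
    have h4 : q + 1 ≤ (n + 1) * (S + 1) := by nlinarith
    calc r ^ (2 * k) ≤ ((c₀ * (q + 1)) ^ c₀) ^ (2 * k) := Nat.pow_le_pow_left hr _
      _ = (c₀ * (q + 1)) ^ e := by rw [← pow_mul, he]; congr 1; ring
      _ ≤ (c₀ * ((n + 1) * (S + 1))) ^ e := Nat.pow_le_pow_left (Nat.mul_le_mul_left _ h4) _
      _ = (c₀ * (n + 1)) ^ e * (S + 1) ^ e := by rw [← mul_assoc, Nat.mul_pow]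
      _ ≤ (c₀ * (n + 1)) ^ e * (C₁ * N) := Nat.mul_le_mul_left _ h2
  -- the product
  have h4 : (r * (p + 1)) ^ (2 * k) ≤
      ((c₀ * (n + 1)) ^ e * (n + 1) ^ (2 * k) * (C₁ * C₂ ^ 2)) * N ^ (2 * k - 1) := by
    have h5 : (p + 1) ^ (2 * k) ≤ (C₂ * (n + 1) ^ k * N ^ (k - 1)) ^ 2 := by
      rw [mul_comm 2 k, pow_mul]
      exact Nat.pow_le_pow_left h1 2
    have h6 : N ^ (2 * k - 1) = N * (N ^ (k - 1)) ^ 2 := by
      rw [← pow_mul, ← pow_succ']
      congr 1
      omega
    calc (r * (p + 1)) ^ (2 * k) = r ^ (2 * k) * (p + 1) ^ (2 * k) := Nat.mul_pow _ _ _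
      _ ≤ ((c₀ * (n + 1)) ^ e * (C₁ * N)) * (C₂ * (n + 1) ^ k * N ^ (k - 1)) ^ 2 :=
          Nat.mul_le_mul h3 h5
      _ = _ := by
          rw [h6, mul_comm 2 k, pow_mul (n + 1) k 2]
          ring
  have h5 : (c₀ * (n + 1)) ^ e * (n + 1) ^ (2 * k) * (C₁ * C₂ ^ 2) ≤
      (c * (n + 1)) ^ (c * (2 * k)) := by
    have hc1 : 1 ≤ c * (n + 1) := Nat.mul_pos (by omega) (Nat.succ_pos _)
    have hC₂1 : 1 ≤ C₂ := Nat.mul_pos (Nat.pow_pos (by norm_num)) (Nat.succ_pos _)
    have g1 : (c₀ * (n + 1)) ^ e ≤ (c * (n + 1)) ^ e :=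
      Nat.pow_le_pow_left (Nat.mul_le_mul_right _ (by omega)) _
    have g2 : (n + 1) ^ (2 * k) ≤ (c * (n + 1)) ^ (2 * k) :=
      Nat.pow_le_pow_left (Nat.le_mul_of_pos_left _ (by omega)) _
    have g3 : C₁ * C₂ ^ 2 ≤ (c * (n + 1)) ^ 3 := by
      have g4 : c ≤ c * (n + 1) := Nat.le_mul_of_pos_right _ (Nat.succ_pos _)
      have g5 : C₁ ≤ c * (n + 1) := le_trans (by omega) g4
      have g6 : C₂ ≤ c * (n + 1) := le_trans (by omega) g4
      calc C₁ * C₂ ^ 2 ≤ (c * (n + 1)) * (c * (n + 1)) ^ 2 :=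
            Nat.mul_le_mul g5 (Nat.pow_le_pow_left g6 2)
        _ = (c * (n + 1)) ^ 3 := by ring
    calc (c₀ * (n + 1)) ^ e * (n + 1) ^ (2 * k) * (C₁ * C₂ ^ 2) ≤
          (c * (n + 1)) ^ e * (c * (n + 1)) ^ (2 * k) * (c * (n + 1)) ^ 3 :=
            Nat.mul_le_mul (Nat.mul_le_mul g1 g2) g3
      _ = (c * (n + 1)) ^ (e + 2 * k + 3) := by rw [← pow_add, ← pow_add]
      _ ≤ (c * (n + 1)) ^ (c * (2 * k)) := by
          refine Nat.pow_le_pow_right hc1 ?_
          have g7 : (c₀ + 3) * (2 * k) ≤ c * (2 * k) := Nat.mul_le_mul_right _ (by omega)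
          have g8 : (c₀ + 3) * (2 * k) = 2 * k * c₀ + 2 * k + 4 * k := by ring
          omega
  have h6 : (r * (p + 1)) ^ (2 * k) < K ^ (2 * k) :=
    lt_of_le_of_lt (h4.trans (Nat.mul_le_mul_right _ h5)) hK
  exact lt_of_pow_lt_pow_left₀ _ (Nat.zero_le _) h6

/-! ### The theorem -/

theorem p_EVX (hPLF : Stmt_PLF) (hCBF : Stmt_CBF) (hCMB : Stmt_CMB) (hFAC : Stmt_FAC)
    (hNZB : Stmt_NZB) (hSMC : Stmt_SMC) (hZMP : Stmt_ZMP) (hSMP : Stmt_SMP) (hCMS : Stmt_CMS)
    (hUST : Stmt_UST) (hUPF : Stmt_UPF) (hRS4 : Stmt_RS4) : Stmt_EVX := by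
  intro B g _ hC
  obtain ⟨m, d, C, k, s, sets, names, Φ, hm, hk, hsets, hnames, hΦ, hs, hdeg, hcert⟩ := hC
  obtain ⟨ps, hps, hprod⟩ := hFAC m hm
  have hps0 : ∀ q ∈ ps, 0 < q.1 := fun q hq => (hps q hq).1.pos
  obtain ⟨-, -, hkm⟩ := hNZB ps
  obtain ⟨-, c₀, hc₀⟩ := hkm d
  obtain ⟨C', hC'⟩ := hs (2 * k * c₀)
  refine ⟨c₀ + 2 ^ (2 * k * c₀) * (2 * C' + 1) + 2 ^ k * (C + 1) + 2, 2 * k,
    EVX_esc ps m d sets names Φ, by omega,
    EVX_polyE hPLF hCBF hZMP hSMP hUPF hps0 m d hsets hnames hΦ, ?_⟩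
  intro z T a K haK hz hlt
  have hK0 : 0 < K := by
    rcases Nat.eq_zero_or_pos K with h | h
    · rw [h, Nat.zero_pow (by omega : 0 < 2 * k)] at hlt
      exact absurd hlt (Nat.not_lt_zero _)
    · exact h
  have hN : 0 < z.length := by omega
  set P := T.flatMap fun b => sets (z, b) with hPdef
  set Q := T.flatMap fun b => names (z, b) with hQdef
  set r := km ps d Q.length with hrdef
  set U := usets z.length a (P.length + 1) r P with hUdef
  set σ := solm ps m d (EVX_F Φ (z, Q, U)) Q.length r with hσdef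
  have hesc : EVX_esc ps m d sets names Φ (z, T, a, K) = add z (cmb z.length U σ) := rfl
  rw [hesc]
  -- the bound
  have hP : P.length ^ k ≤ T.length ^ k * (C * z.length ^ (k - 1)) := by
    have h1 : P.length = (T.map fun b => (sets (z, b)).length).sum := by
      rw [hPdef, List.length_flatMap]
    rw [h1]
    exact EVX_sum hk T fun b _ => (hcert z b).1
  have hQ : Q.length ≤ T.length * s z.length := by
    have h1 : Q.length = (T.map fun b => (names (z, b)).length).sum := by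
      rw [hQdef, List.length_flatMap]
    rw [h1]
    have := List.sum_le_card_nsmul (T.map fun b => (names (z, b)).length) (s z.length)
      (fun x hx => by
        obtain ⟨b, hb, rfl⟩ := List.mem_map.1 hx
        exact (hcert z b).2.1)
    rwa [List.length_map, smul_eq_mul] at this
  have hrG : r * (P.length + 1) < K :=
    EVX_arith hk hN hP hQ (hC' z.length) (hc₀ Q.length) hlt
  -- the vectors
  obtain ⟨hU1, hU2, hU3, hU4⟩ := hUST z.length a (P.length + 1) r P (Nat.lt_succ_self _)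
    (by omega)
  have hUl : ∀ v ∈ U, v.length = z.length := fun v hv => (hU2 v hv).1
  have hdisj : ∀ v ∈ U, Disjoint (supp z) (supp v) := by
    intro v hv
    rw [Finset.disjoint_left]
    intro j hj hj'
    obtain ⟨h1, h2⟩ := (hU2 v hv).2.2 j hj'
    have h3 := hz j h1 (by omega)
    rw [EVX_mem_supp, List.getD_eq_getElem?_getD, h3] at hj
    exact Bool.false_ne_true hj
  obtain ⟨hc1, -, -, hc4, -⟩ := hCMB z.length U hUl
  -- the coefficients
  have hmod : ∀ i < Q.length, IsModPoly m r d (EVX_F Φ (z, Q, U) i) := by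
    intro i _
    have h1 := hRS4 m z.length d (fun z' => Φ (Q.getD i [], z')) U z (hdeg _ _) rfl hUl hU3 hdisj
    rw [hU1] at h1
    exact h1
  obtain ⟨hσ1, hσ2, hσ3⟩ := hSMC ps m d (EVX_F Φ (z, Q, U)) Q.length r hps hprod hm le_rfl hmod
  have hσU : σ.length = U.length := by rw [hσ1, hU1]
  have hsupp := hCMS z.length U σ hUl hU3 hσU
  have hlen : (add z (cmb z.length U σ)).length = z.length :=
    EVX_len_add z.length _ _ rfl (hc1 σ)
  have hget : ∀ j, (add z (cmb z.length U σ)).getD j false =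
      xor (z.getD j false) ((cmb z.length U σ).getD j false) := fun j =>
    EVX_get_add z.length _ _ rfl (hc1 σ) j
  have hin : ∀ j, (cmb z.length U σ).getD j false = true → a ≤ j ∧ j < a + K := by
    intro j hj
    rw [← EVX_mem_supp, hsupp, Finset.mem_biUnion] at hj
    obtain ⟨i, hi, hij⟩ := hj
    have hi' : i < U.length := by
      rw [← hσU]
      by_contra hcon
      rw [EVX_mem_supp, List.getD_eq_default _ _ (by omega)] at hi
      exact Bool.false_ne_true hi
    rw [List.getD_eq_getElem _ _ hi'] at hij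
    obtain ⟨h1, h2⟩ := (hU2 _ (List.getElem_mem hi')).2.2 j hij
    exact ⟨h1, by omega⟩
  refine ⟨hlen, ?_, ?_, ?_⟩
  · intro heq
    obtain ⟨i, hi, hit⟩ := List.getElem_of_mem hσ2
    have hi' : i < U.length := by rw [← hσU]; exact hi
    obtain ⟨j, hj⟩ := (hU2 _ (List.getElem_mem hi')).2.1
    have h1 : j ∈ supp (cmb z.length U σ) := by
      rw [hsupp, Finset.mem_biUnion]
      refine ⟨i, ?_, ?_⟩
      · rw [EVX_mem_supp, List.getD_eq_getElem _ _ hi]
        exact hit
      · rw [List.getD_eq_getElem _ _ hi']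
        exact hj
    rw [EVX_mem_supp] at h1
    have h2 := hget j
    rw [heq, h1] at h2
    cases h3 : z.getD j false <;> rw [h3] at h2 <;> simp at h2
  · intro j hj
    refine EVX_getE _ _ hlen j ?_
    rw [hget]
    cases h1 : (cmb z.length U σ).getD j false with
    | false => exact Bool.xor_false _
    | true =>
      have := hin j h1
      omega
  · intro b hb
    refine (hcert z b).2.2 _ hlen ?_ ?_
    · intro S hS
      exact hU4 z σ S rfl (List.mem_flatMap.2 ⟨b, hb, hS⟩)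
    · intro q hq
      have hqQ : q ∈ Q := List.mem_flatMap.2 ⟨b, hb, hq⟩
      obtain ⟨i, hi, hiq⟩ := List.getElem_of_mem hqQ
      have h1 := hσ3 i hi
      have h2 : ∀ t : Str, EVX_F Φ (z, Q, U) i t = Φ (q, add z (cmb z.length U t)) := by
        intro t
        show Φ (Q.getD i [], add z (cmb z.length U t)) = _
        rw [List.getD_eq_getElem _ _ hi, hiq]
      rw [h2, h2] at h1
      have h3 : cmb z.length U (List.replicate r false) = List.replicate z.length false := by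
        rw [← hU1]
        exact hc4
      rw [h3, EVX_add_zero] at h1
      exact h1

end Pool.EV
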