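import Pool.Agent.Work.MP_cb380d_ev.InterfaceD

/-! Block FAC: every modulus is a product of good primes. -/

open Pool.IC Pool.GL Pool.TL Polynomial

namespace Pool.EV

theorem FAC_list (hXEX : Stmt_XEX) : ∀ l : List ℕ, (∀ p ∈ l, p.Prime) →
    ∃ ps : List (ℕ × ℕ × List (List ℕ)), (∀ q ∈ ps, XGood q) ∧ ps.map (fun q => q.1) = l := by
  intro l
  induction l with
  | nil =>
    intro _
    exact ⟨[], by simp, by simp⟩
  | cons p l ih =>
    intro h
    obtain ⟨ps, h1, h2⟩ := ih (fun q hq => h q (List.mem_cons_of_mem _ hq))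
    obtain ⟨k, X, hX⟩ := hXEX p (h p (by simp))
    refine ⟨(p, k, X) :: ps, ?_, ?_⟩
    · intro q hq
      rcases List.mem_cons.1 hq with rfl | hq
      · exact hX
      · exact h1 q hq
    · simp [h2]

theorem p_FAC (hXEX : Stmt_XEX) : Stmt_FAC := by
  intro m hm
  obtain ⟨ps, h1, h2⟩ := FAC_list hXEX m.primeFactorsList
    (fun p hp => Nat.prime_of_mem_primeFactorsList hp)
  exact ⟨ps, h1, by rw [h2]; exact Nat.prod_primeFactorsList hm.ne'⟩

end Pool.EV
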