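import Pool.Agent.Work.MP_cb380d_ev.InterfaceF

open Pool.IC Pool.GL Pool.TL Polynomial

namespace Pool.EV

theorem FAM_dsj_iff (T T' : Lits) :
    dsj T T' = true ↔ ∀ l ∈ T, ∀ l' ∈ T', l.1 ≠ l'.1 := by
  simp only [dsj, List.all_eq_true, decide_eq_true_eq]

theorem FAM_dsj_symm {T T' : Lits} (h : dsj T T' = true) : dsj T' T = true := by
  rw [FAM_dsj_iff] at h ⊢
  intro l hl l' hl' h'
  exact h l' hl' l hl h'.symm

theorem FAM_fam_append (F : List Lits) (T : Lits) :
    fam (F ++ [T]) = if (fam F).all (dsj T) = true then fam F ++ [T] else fam F := by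
  simp only [fam, List.foldl_append, List.foldl_cons, List.foldl_nil]

theorem FAM_inv (F : List Lits) : (∀ T ∈ fam F, T ∈ F) ∧
    (fam F).Pairwise (fun T T' => dsj T T' = true) ∧
    ∀ T ∈ F, T = [] ∨ ∃ T' ∈ fam F, ∃ l ∈ T, ∃ l' ∈ T', l.1 = l'.1 := by
  induction F using List.reverseRecOn with
  | nil => exact ⟨fun T hT => hT, List.Pairwise.nil, fun T hT => by simp at hT⟩
  | append_singleton F T ih =>
    obtain ⟨h1, h2, h3⟩ := ih
    rw [FAM_fam_append]
    by_cases hall : (fam F).all (dsj T) = true
    · rw [if_pos hall]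
      rw [List.all_eq_true] at hall
      refine ⟨?_, ?_, ?_⟩
      · intro T' hT'
        rw [List.mem_append] at hT' ⊢
        exact hT'.imp (h1 T') id
      · rw [List.pairwise_append]
        refine ⟨h2, List.pairwise_singleton _ _, ?_⟩
        intro a ha b hb
        rw [List.mem_singleton] at hb
        subst hb
        exact FAM_dsj_symm (hall a ha)
      · intro T' hT'
        rw [List.mem_append, List.mem_singleton] at hT'
        rcases hT' with hT' | hT'
        · rcases h3 T' hT' with h | ⟨S, hS, h⟩
          · exact Or.inl h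
          · exact Or.inr ⟨S, List.mem_append_left _ hS, h⟩
        · subst hT'
          cases hT : T' with
          | nil => exact Or.inl rfl
          | cons l L =>
            refine Or.inr ⟨l :: L, ?_, l, List.mem_cons_self, l, List.mem_cons_self, rfl⟩
            exact List.mem_append_right _ (List.mem_singleton.2 rfl)
    · rw [if_neg hall]
      refine ⟨fun T' hT' => List.mem_append_left _ (h1 T' hT'), h2, ?_⟩
      intro T' hT'
      rw [List.mem_append, List.mem_singleton] at hT'
      rcases hT' with hT' | hT'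
      · exact h3 T' hT'
      · subst hT'
        right
        rw [List.all_eq_true] at hall
        push Not at hall
        obtain ⟨S, hS, hd⟩ := hall
        rw [Ne, FAM_dsj_iff] at hd
        push Not at hd
        obtain ⟨l, hl, l', hl', h⟩ := hd
        exact ⟨S, hS, l, hl, l', hl', h⟩

theorem FAM_length_flatMap_le {t : ℕ} (L : List Lits) (h : ∀ T ∈ L, T.length ≤ t) :
    (L.flatMap fun T => T.map Prod.fst).length ≤ t * L.length := by
  induction L with
  | nil => simp
  | cons T L ih =>
    rw [List.flatMap_cons, List.length_append, List.length_map, List.length_cons]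
    have h1 := ih fun S hS => h S (List.mem_cons_of_mem _ hS)
    have h2 := h T List.mem_cons_self
    rw [Nat.mul_succ]
    omega

theorem p_FAM : Stmt_FAM := by
  intro n t A F hF
  obtain ⟨h1, h2, h3⟩ := FAM_inv F
  have hsub : ((fam F).take A).Sublist (fam F) := List.take_sublist _ _
  have hmem : ∀ T ∈ (fam F).take A, TOK n t T := fun T hT => hF T (h1 T (hsub.subset hT))
  refine ⟨h1, h2, ?_, ?_, ?_, ?_⟩
  · unfold hs
    rw [List.nodup_flatMap]
    refine ⟨fun T hT => (hmem T hT).2.1, ?_⟩
    refine (h2.sublist hsub).imp ?_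
    intro a b hab
    rw [FAM_dsj_iff] at hab
    intro p hp hq
    rw [List.mem_map] at hp hq
    obtain ⟨l, hl, rfl⟩ := hp
    obtain ⟨l', hl', h⟩ := hq
    exact hab l hl l' hl' h.symm
  · unfold hs
    refine (FAM_length_flatMap_le _ fun T hT => (hmem T hT).1).trans ?_
    exact Nat.mul_le_mul_left t (by rw [List.length_take]; exact min_le_left _ _)
  · intro p hp
    unfold hs at hp
    rw [List.mem_flatMap] at hp
    obtain ⟨T, hT, hp⟩ := hp
    rw [List.mem_map] at hp
    obtain ⟨l, hl, rfl⟩ := hp
    exact (hmem T hT).2.2 l hl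
  · intro hA T hT
    rcases h3 T hT with h | ⟨S, hS, l, hl, l', hl', h⟩
    · exact Or.inl h
    · refine Or.inr ⟨l, hl, ?_⟩
      unfold hs
      rw [List.take_of_length_le hA, List.mem_flatMap]
      exact ⟨S, hS, List.mem_map.2 ⟨l', hl', h.symm⟩⟩

end Pool.EV
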