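import Pool.Agent.Work.MP_cb380d_ev.InterfaceA

open Pool.IC Pool.GL Pool.TL Polynomial

namespace Pool.EV

theorem FDD_headD (l : List ℕ) (h : l ≠ []) : l.headD 0 ∈ l := by
  cases l with
  | nil => exact absurd rfl h
  | cons a t => simp

theorem p_FDD : Stmt_FDD := by
  intro u v huv
  have hb : ∃ b : ℕ, u[b]? ≠ v[b]? := by
    by_contra hcon
    push Not at hcon
    exact huv (List.ext_getElem? hcon)
  obtain ⟨b, hb⟩ := hb
  have hlt : b < u.length + v.length := by
    by_contra hge
    push Not at hge
    apply hb
    rw [List.getElem?_eq_none (by omega), List.getElem?_eq_none (by omega)]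
  have hmem : b ∈ (List.range (u.length + v.length)).filter
      (fun b : ℕ => decide (u[b]? ≠ v[b]?)) := by
    rw [List.mem_filter]
    exact ⟨List.mem_range.2 hlt, by simpa using hb⟩
  have hne : (List.range (u.length + v.length)).filter
      (fun b : ℕ => decide (u[b]? ≠ v[b]?)) ≠ [] := List.ne_nil_of_mem hmem
  have h2 := FDD_headD _ hne
  rw [List.mem_filter] at h2
  have h3 := h2.2
  simpa [fd] using h3

end Pool.EV
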