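import Pool.Agent.Work.MP_cb380d_ev.InterfaceA

/-! # Block FFF (helper21) -/

open Pool.IC Pool.GL Pool.TL Polynomial

namespace Pool.EV

theorem FFF_es_len (esc : Str × List ℕ × ℕ × ℕ → Str) (z : Str) (T : List ℕ) (a K : ℕ) :
    (es esc z T a K).length = z.length := by
  unfold es
  split_ifs with h
  · exact h
  · rfl

theorem FFF_head {α : Type} (l : List α) (q : α → Bool) (d x : α) (hx : x ∈ l.filter q)
    (h : ∀ y, q y = true → y = x) : (l.filter q).headD d = x := by
  rcases hl : l.filter q with _ | ⟨y, l'⟩
  · rw [hl] at hx
    simp at hx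
  · have hy : y ∈ l.filter q := by rw [hl]; simp
    rw [List.mem_filter] at hy
    simpa using h y hy.2

theorem p_FFF (hHVA : Stmt_HVA) (hKEP : Stmt_KEP) (hDEC : Stmt_DEC) (hMEM : Stmt_MEM)
    (hPAD : Stmt_PAD) (hBIT : Stmt_BIT) (hWDD : Stmt_WDD) (hSTG : Stmt_STG) (hRNI : Stmt_RNI) :
    Stmt_FFF := by
  intro g esc D t a E p hSep hE ha hlen hesc
  obtain ⟨hst, hst2⟩ := hSTG a E (by omega) hE
  have hEsc : ∀ n, Esc g esc (st a E n) (st a E n ^ t) := fun n => (hesc _ (hst n).2.1).1
  have hbits : ∀ x : Str, dcd (rn g esc (chE g (wd x (st a E x.length))) (st a E x.length)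
      (st a E x.length ^ t) (st a E x.length - 1)).2.2 = x := by
    intro x
    have hb := hBIT g esc (wd x (st a E x.length)) (st a E x.length) (st a E x.length ^ t)
      (st a E x.length - 1)
    exact (hWDD x (st a E x.length) (hst x.length).1).2.1 _ hb.1 hb.2
  have hlong : ∀ x : Str, st a E x.length ≤ 2 * (ff g esc t a E x).length := by
    intro x
    have h1 := (hWDD x (st a E x.length) (hst x.length).1).2.2
    have h2 := hPAD g esc (wd x (st a E x.length)) (st a E x.length) (st a E x.length ^ t) D
      (hEsc _) hSep
    unfold ff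
    omega
  have hshort : ∀ x : Str, 2 * (ff g esc t a E x).length < st a E x.length ^ E := by
    intro x
    have h1 := (hesc _ (hst x.length).2.1).2
    have h2 := hRNI g esc (chE g (wd x (st a E x.length))) (st a E x.length)
      (st a E x.length ^ t) (st a E x.length - 1) D (hEsc _) hSep le_rfl
    have h3 := (hHVA.1 _ _ _ h2.1).1
    have h4 := hlen (zf g esc (chE g (wd x (st a E x.length))) (st a E x.length)
      (st a E x.length ^ t))
    have h5 : (zf g esc (chE g (wd x (st a E x.length))) (st a E x.length)
        (st a E x.length ^ t)).length = st a E x.length + st a E x.length ^ t + 2 +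
          st a E x.length * st a E x.length ^ t := by
      unfold zf
      rw [FFF_es_len]
      exact h3
    rw [h5] at h4
    unfold ff
    omega
  have hdc : ∀ x : Str, dc g esc t a E (ff g esc t a E x) x.length = x := by
    intro x
    unfold dc ff
    rw [hDEC g esc (chE g (wd x (st a E x.length))) (st a E x.length)
      (st a E x.length ^ t) (st a E x.length - 1) D (hEsc _) hSep le_rfl]
    exact hbits x
  have hcong : ∀ (o : Str) (n n' : ℕ), st a E n = st a E n' →
      dc g esc t a E o n = dc g esc t a E o n' := by
    intro o n n' h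
    unfold dc
    rw [h]
  have hinj : ∀ x x' : Str, ff g esc t a E x = ff g esc t a E x' → x = x' := by
    intro x x' h
    rcases lt_trichotomy (st a E x.length) (st a E x'.length) with h1 | h1 | h1
    · have h2 := hst2 _ _ h1
      have h3 := hshort x
      have h4 := hlong x'
      rw [h] at h3
      omega
    · have h2 := hdc x
      have h3 := hdc x'
      rw [h, hcong _ _ _ h1, h3] at h2
      exact h2.symm
    · have h2 := hst2 _ _ h1
      have h3 := hshort x'
      have h4 := hlong x
      rw [h] at h4
      omega
  have hlt : ∀ x : Str, x.length < (ff g esc t a E x).length := by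
    intro x
    have h1 := hlong x
    have h2 := (hst x.length).1
    omega
  refine ⟨?_, hlt, ?_⟩
  · intro x
    have h := hMEM g esc (chE g (wd x (st a E x.length))) (st a E x.length)
      (st a E x.length ^ t) D (hEsc _) hSep
    rw [hbits x] at h
    exact h
  · intro x
    unfold fi
    apply FFF_head
    · rw [List.mem_filter]
      refine ⟨?_, by simp⟩
      rw [List.mem_map]
      exact ⟨x.length, List.mem_range.2 (by have := hlt x; omega), hdc x⟩
    · intro y hy
      exact hinj y x (by simpa using hy)

end Pool.EV

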