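import Pool.Agent.Work.MP_cb380d_ev.InterfaceG

/-! Block FI6 of THEOREM EV. -/

set_option autoImplicit false

open Pool.IC Pool.GL Pool.TL Polynomial

namespace Pool.EV

theorem FI6_strong (hMA6 : Stmt_MA6) {B A A' : Set Str} (hA : InNP B A)
    (hA' : Complete6 B A') : ∃ f, Strong B A A' f := by
  obtain ⟨h1, h2⟩ := hMA6 B A hA
  obtain ⟨g, hK, hG⟩ := hA'.2 (lang3 A) h1
  exact h2 A' g hK hG

theorem p_FI6 (hUNP : Stmt_UNP) (hUNC : Stmt_UNC) (hPIS : Stmt_PIS) (hMA6 : Stmt_MA6) :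
    Stmt_FI6 := by
  intro B
  refine ⟨fun D hD => ?_, fun A A' hA hA' => ?_, Uni B, hUNP B, hUNC B⟩
  · obtain ⟨h1, h2⟩ := hMA6 B D hD
    exact ⟨lang3 D, h1, fun A g hK hG => h2 A g hK hG⟩
  · obtain ⟨f, hf⟩ := FI6_strong hMA6 hA.1 hA'
    obtain ⟨g, hg⟩ := FI6_strong hMA6 hA'.1 hA
    exact hPIS B A A' f g hf hg

end Pool.EV
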