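import Pool.Agent.Work.MP_cb380d_ev.InterfaceC

/-! Block FIN of THEOREM EV (helper24). -/

set_option autoImplicit false

open Pool.IC Pool.GL Pool.TL Polynomial

namespace Pool.EV

theorem FIN_good (hEVA : Stmt_EVA) (hEVB : Stmt_EVB) (hEVC : Stmt_EVC) {B L A : Set Str}
    {g : Str → Str} (hK : Karp B L A g) (hG : Good B g) : Evasive B g := by
  have hg : PolyF B g := (polyFun_iff_polyF g).1 hK.1
  rcases hG with h | h | h | h
  · exact hEVA B g hg h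
  · exact hEVB B g hg h
  · exact hEVC B g hg h
  · exact h

theorem FIN_strong (hMAI : Stmt_MAI) (hEVA : Stmt_EVA) (hEVB : Stmt_EVB) (hEVC : Stmt_EVC)
    {B A A' : Set Str} (hA : InNP B A) (hA' : GoodComplete B A') : ∃ f, Strong B A A' f := by
  obtain ⟨h1, h2⟩ := hMAI B A hA
  obtain ⟨g, hK, hG⟩ := hA'.2 (lang A) h1
  exact h2 A' g hK (FIN_good hEVA hEVB hEVC hK hG)

theorem p_FIN (hMAI : Stmt_MAI) (hEVA : Stmt_EVA) (hEVB : Stmt_EVB) (hEVC : Stmt_EVC)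
    (hUNP : Stmt_UNP) (hUNC : Stmt_UNC) (hPIS : Stmt_PIS) : Stmt_FIN := by
  intro B
  refine ⟨fun D hD => ?_, fun A A' hA hA' => ?_, Uni B, hUNP B, hUNC B⟩
  · obtain ⟨h1, h2⟩ := hMAI B D hD
    exact ⟨lang D, h1, fun A g hK hG => h2 A g hK (FIN_good hEVA hEVB hEVC hK hG)⟩
  · obtain ⟨f, hf⟩ := FIN_strong hMAI hEVA hEVB hEVC hA.1 hA'
    obtain ⟨g, hg⟩ := FIN_strong hMAI hEVA hEVB hEVC hA'.1 hA
    exact hPIS B A A' f g hf hg

end Pool.EV
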