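import Pool.Agent.Work.MP_cb380d_ev.InterfaceF

/-!
Block GRC: greedy choices.
-/

open Pool.IC Pool.GL Pool.TL Polynomial

namespace Pool.EV

/-- The greedy choice. -/
def GRC_h (s : ℕ) (Φ : List ℕ → ℕ) (c : List ℕ) : ℕ :=
  ((List.range s).filter fun o => decide (Φ (c ++ [o]) ≤ Φ c)).headD 0

theorem GRC_h_lt (s : ℕ) (Φ : List ℕ → ℕ) (c : List ℕ) (hs : 0 < s) : GRC_h s Φ c < s := by
  unfold GRC_h
  rcases hL : (List.range s).filter (fun o => decide (Φ (c ++ [o]) ≤ Φ c)) with _ | ⟨o, L⟩
  · simpa using hs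
  · have h1 : o ∈ (List.range s).filter (fun o => decide (Φ (c ++ [o]) ≤ Φ c)) := by
      rw [hL]; exact List.mem_cons_self
    have h2 := List.mem_range.1 (List.mem_of_mem_filter h1)
    simpa using h2

theorem GRC_sum (Φ : List ℕ → ℕ) (c : List ℕ) : ∀ l : List ℕ, (∀ o ∈ l, Φ c < Φ (c ++ [o])) →
    l.length * (Φ c + 1) ≤ (l.map fun o => Φ (c ++ [o])).sum := by
  intro l
  induction l with
  | nil => intro _; simp
  | cons a l ih =>
    intro h
    have h1 := ih (fun o ho => h o (List.mem_cons_of_mem _ ho))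
    have h2 := h a List.mem_cons_self
    simp only [List.map_cons, List.sum_cons, List.length_cons]
    nlinarith

theorem GRC_h_le (s : ℕ) (Φ : List ℕ → ℕ) (c : List ℕ) (hs : 0 < s)
    (h : ((List.range s).map fun o => Φ (c ++ [o])).sum ≤ s * Φ c) : Φ (c ++ [GRC_h s Φ c]) ≤ Φ c := by
  unfold GRC_h
  rcases hL : (List.range s).filter (fun o => decide (Φ (c ++ [o]) ≤ Φ c)) with _ | ⟨o, L⟩
  · exfalso
    have h1 : ∀ o ∈ List.range s, Φ c < Φ (c ++ [o]) := by
      intro o ho
      by_contra hcon
      have h2 : o ∈ (List.range s).filter (fun o => decide (Φ (c ++ [o]) ≤ Φ c)) :=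
        List.mem_filter.2 ⟨ho, by simpa using Nat.le_of_not_lt hcon⟩
      rw [hL] at h2
      simp at h2
    have h3 := GRC_sum Φ c (List.range s) h1
    rw [List.length_range] at h3
    nlinarith
  · have h1 : o ∈ (List.range s).filter (fun o => decide (Φ (c ++ [o]) ≤ Φ c)) := by
      rw [hL]; exact List.mem_cons_self
    have h2 := (List.mem_filter.1 h1).2
    simpa using h2

theorem GRC_grd_succ (s : ℕ) (Φ : List ℕ → ℕ) (len : ℕ) :
    grd s Φ (len + 1) = grd s Φ len ++ [GRC_h s Φ (grd s Φ len)] := by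
  unfold grd
  rw [Function.iterate_succ_apply']
  rfl

theorem p_GRC : Stmt_GRC := by
  intro s len Φ hs
  have hlen : ∀ k, (grd s Φ k).length = k := by
    intro k
    induction k with
    | zero => rfl
    | succ k ih => rw [GRC_grd_succ, List.length_append, ih]; rfl
  have hlt : ∀ k, ∀ o ∈ grd s Φ k, o < s := by
    intro k
    induction k with
    | zero => intro o ho; simp [grd] at ho
    | succ k ih =>
      intro o ho
      rw [GRC_grd_succ, List.mem_append] at ho
      rcases ho with ho | ho
      · exact ih o ho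
      · rw [List.mem_singleton] at ho
        rw [ho]
        exact GRC_h_lt s Φ _ hs
  refine ⟨hlen len, hlt len, ?_⟩
  intro h
  have key : ∀ k, k ≤ len → Φ (grd s Φ k) ≤ Φ [] := by
    intro k
    induction k with
    | zero => intro _; exact le_refl _
    | succ k ih =>
      intro hk
      rw [GRC_grd_succ]
      refine le_trans (GRC_h_le s Φ _ hs (h _ ?_ (hlt k))) (ih (by omega))
      rw [hlen k]
      omega
  exact key len (le_refl _)

end Pool.EV
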