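import Pool.Agent.Work.MP_cb380d_ev.InterfaceG

/-! Block GRP (helper58). -/

set_option autoImplicit false

open Pool.IC Pool.GL Pool.TL Polynomial

namespace Pool.EV

theorem GRP_head (s : ℕ) (f : ℕ → Bool) : ((List.range s).filter f).headD 0 ≤ s := by
  cases h : (List.range s).filter f with
  | nil => simp
  | cons a l =>
    have h1 : a ∈ (List.range s).filter f := by rw [h]; exact List.mem_cons_self
    have h2 := List.mem_range.1 (List.mem_filter.1 h1).1
    exact h2.le

theorem p_GRP : Stmt_GRP := by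
  intro B γ _ s len Φ hs hlen hΦ
  obtain ⟨q, hq⟩ := hs.size
  have hstep : PolyF B (fun p : γ × List ℕ => p.2 ++ [((List.range (s p.1)).filter
      fun o => decide (Φ p.1 (p.2 ++ [o]) ≤ Φ p.1 p.2)).headD 0]) := by
    have h1 : PolyF B (fun p : γ × List ℕ => (List.range (s p.1)).filter
        fun o => decide (Φ p.1 (p.2 ++ [o]) ≤ Φ p.1 p.2)) := by
      refine PolyF.filter (l := fun p : γ × List ℕ => List.range (s p.1))
        (f := fun p o => decide (Φ p.1 (p.2 ++ [o]) ≤ Φ p.1 p.2)) (by fun_prop) ?_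
      have e1 : PolyF B (fun p : (γ × List ℕ) × ℕ => Φ p.1.1 (p.1.2 ++ [p.2])) :=
        hΦ.comp (g := fun p : (γ × List ℕ) × ℕ => (p.1.1, p.1.2 ++ [p.2])) (by fun_prop)
      have e2 : PolyF B (fun p : (γ × List ℕ) × ℕ => Φ p.1.1 p.1.2) :=
        hΦ.comp (g := fun p : (γ × List ℕ) × ℕ => (p.1.1, p.1.2)) (by fun_prop)
      exact PolyF.le e1 e2
    fun_prop
  refine PolyF.iterate_add (n := len) (g := fun _ => ([] : List ℕ)) (h := fun a c =>
    c ++ [((List.range (s a)).filter fun o => decide (Φ a (c ++ [o]) ≤ Φ a c)).headD 0])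
    hlen (by fun_prop) hstep (2 * q + 2) ?_
  intro a c
  have h1 := GRP_head (s a) (fun o => decide (Φ a (c ++ [o]) ≤ Φ a c))
  have h2 := hq a
  rw [sz_nat] at h2
  rw [sz_append, sz_cons, sz_nil, sz_nat, eval_add, eval_mul]
  have e3 : (2 : Polynomial ℕ).eval (sz a) = 2 := by simp
  rw [e3]
  omega

end Pool.EV
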