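import Pool.Agent.Work.MP_cb380d_ev.InterfaceA

/-!
# Block HVS: changing one block
-/

open Pool.IC Pool.GL Pool.TL Polynomial

namespace Pool.EV

theorem HVS_frm (ν K : ℕ) (y : Str) :
    frm ν K y = (un ν ++ false :: (un K ++ [false])) ++ y := by
  simp [frm]

theorem HVS_plen (ν K : ℕ) :
    (un ν ++ false :: (un K ++ [false]) : Str).length = ν + K + 2 := by
  simp [un]
  omega

theorem HVS_fr (ν K : ℕ) (z z' : Str) (hz : Fr ν K z) (hlen : z'.length = z.length)
    (h : ∀ j, j < ν + K + 2 → z'[j]? = z[j]?) : Fr ν K z' := by
  obtain ⟨y, hy, rfl⟩ := hz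
  refine ⟨z'.drop (ν + K + 2), ?_, ?_⟩
  · rw [List.length_drop, hlen, HVS_frm, List.length_append, HVS_plen, hy]
    omega
  · rw [HVS_frm]
    have h1 : z'.take (ν + K + 2) = un ν ++ false :: (un K ++ [false]) := by
      apply List.ext_getElem?
      intro j
      by_cases hj : j < ν + K + 2
      · rw [List.getElem?_take_of_lt hj, h j hj, HVS_frm, List.getElem?_append_left]
        rw [HVS_plen]
        exact hj
      · rw [List.getElem?_eq_none (by rw [List.length_take]; omega),
          List.getElem?_eq_none (by rw [HVS_plen]; omega)]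
    rw [← h1, List.take_append_drop]

theorem HVS_bool (a b : Option Bool) (ha : ∃ x, a = some x) (hb : ∃ x, b = some x)
    (h : a = some false ↔ b = some false) : a = b := by
  obtain ⟨x, rfl⟩ := ha
  obtain ⟨y, rfl⟩ := hb
  cases x <;> cases y <;> simp_all

theorem p_HVS (hHVA : Stmt_HVA) : Stmt_HVS := by
  intro ν K l z z' hz hl hzl hlen hne hag
  have hz' : Fr ν K z' := by
    apply HVS_fr ν K z z' hz hlen
    intro j hj
    apply hag
    left
    unfold lo
    exact lt_of_lt_of_le hj (Nat.le_add_right _ _)
  refine ⟨hz', ?_⟩
  obtain ⟨hL, hN, hB⟩ := hHVA.1 ν K z hz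
  obtain ⟨hL', hN', hB'⟩ := hHVA.1 ν K z' hz'
  apply List.ext_getElem?
  intro j
  by_cases hj : j < ν
  · by_cases hjl : l = j
    · subst hjl
      rw [List.getElem?_set_self (by rw [hN]; exact hl)]
      have h1 : (hv z')[l]? ≠ some false := by
        intro hc
        apply hne
        have h2 := (hB' l hl).2.1 hc
        have h3 := (hB l hl).2.1 hzl
        apply List.ext_getElem?
        intro i
        by_cases hi : lo ν K l ≤ i ∧ i < lo ν K l + K
        · rw [h2 i hi.1 hi.2, h3 i hi.1 hi.2]
        · apply hag
          omega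
      have h4 : (hv z')[l]? = some ((hv z')[l]'(by rw [hN']; exact hl)) :=
        List.getElem?_eq_getElem (by rw [hN']; exact hl)
      rw [h4] at h1 ⊢
      cases hx : (hv z')[l]'(by rw [hN']; exact hl)
      · rw [hx] at h1; exact absurd rfl h1
      · rfl
    · rw [List.getElem?_set_ne hjl]
      apply HVS_bool
      · exact ⟨_, List.getElem?_eq_getElem (by rw [hN']; exact hj)⟩
      · exact ⟨_, List.getElem?_eq_getElem (by rw [hN]; exact hj)⟩
      · rw [(hB' j hj).2, (hB j hj).2]
        have key : ∀ i, lo ν K j ≤ i → i < lo ν K j + K → z'[i]? = z[i]? := by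
          intro i h1 h2
          apply hag
          rcases lt_or_gt_of_ne hjl with h | h
          · right
            have h5 : (l + 1) * K ≤ j * K := Nat.mul_le_mul_right K h
            rw [Nat.add_mul, Nat.one_mul] at h5
            unfold lo at h1 ⊢
            omega
          · left
            have h5 : (j + 1) * K ≤ l * K := Nat.mul_le_mul_right K h
            rw [Nat.add_mul, Nat.one_mul] at h5
            unfold lo at h2 ⊢
            omega
        constructor
        · intro h i h1 h2
          rw [← key i h1 h2]
          exact h i h1 h2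
        · intro h i h1 h2
          rw [key i h1 h2]
          exact h i h1 h2
  · rw [List.getElem?_eq_none (by rw [hN']; omega),
      List.getElem?_eq_none (by rw [List.length_set, hN]; omega)]

end Pool.EV
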