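import Pool.Agent.Work.MP_cb380d_ev.InterfaceF

/-! # Block JMP -/

set_option autoImplicit false

open Pool.IC Pool.GL Pool.TL Polynomial

namespace Pool.EV

/-- Moebius inversion on finite sets. -/
theorem JMP_mob {R : Type} [AddCommGroup R] (f : Finset ℕ → R) :
    ∃ c : Finset ℕ → R, ∀ U, f U = ∑ T ∈ U.powerset, c T := by
  let c : Finset ℕ → R := fun U => Finset.strongInduction (p := fun _ => R)
    (fun s ih => f s - ∑ T ∈ s.ssubsets.attach, ih T.1 (Finset.mem_ssubsets.1 T.2)) U
  have hc : ∀ U, c U = f U - ∑ T ∈ U.ssubsets, c T := by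
    intro U
    show Finset.strongInduction (p := fun _ => R)
      (fun s ih => f s - ∑ T ∈ s.ssubsets.attach, ih T.1 (Finset.mem_ssubsets.1 T.2)) U = _
    rw [Finset.strongInduction_eq]
    congr 1
    exact Finset.sum_attach U.ssubsets c
  refine ⟨c, fun U => ?_⟩
  have h1 : U.powerset = insert U U.ssubsets := by
    ext T
    rw [Finset.mem_insert, Finset.mem_powerset, Finset.mem_ssubsets]
    constructor
    · intro h
      exact (eq_or_ssubset_of_subset h)
    · rintro (h | h)
      · exact h.subset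
      · exact h.subset
  have h2 : U ∉ U.ssubsets := by
    rw [Finset.mem_ssubsets]
    exact ssubset_irrefl U
  rw [h1, Finset.sum_insert h2, hc U]
  abel

/-- the string of length `n` with ones at `S` -/
def JMP_chr (n : ℕ) (S : Finset ℕ) : Str := (List.range n).map fun i => decide (i ∈ S)

theorem JMP_getD (n : ℕ) (S : Finset ℕ) (i : ℕ) :
    (JMP_chr n S).getD i false = (decide (i < n) && decide (i ∈ S)) := by
  unfold JMP_chr
  rw [List.getD_eq_getElem?_getD, List.getElem?_map]
  by_cases h : i < n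
  · rw [List.getElem?_range h]
    simp [h]
  · rw [List.getElem?_eq_none (by simpa using h)]
    simp [h]

theorem JMP_supp (z : Str) : JMP_chr z.length (supp z) = z := by
  refine List.ext_getElem (by simp [JMP_chr]) ?_
  intro i h1 h2
  have h3 := JMP_getD z.length (supp z) i
  rw [List.getD_eq_getElem _ _ h1] at h3
  rw [h3]
  have h4 : i ∈ supp z ↔ z[i] = true := by
    unfold supp
    rw [Finset.mem_filter, Finset.mem_range, List.getD_eq_getElem _ _ h2]
    exact and_iff_right h2
  cases hz : z[i] with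
  | true => simp [h2, h4.2 hz]
  | false =>
    have h5 : i ∉ supp z := fun h => by
      rw [h4.1 h] at hz
      exact absurd hz (by decide)
    simp [h5]

theorem p_JMP : Stmt_JMP := by
  intro m t n F hF
  obtain ⟨J, hJ, hJF⟩ := hF
  obtain ⟨c, hc⟩ := JMP_mob fun S : Finset ℕ => (((F (JMP_chr n S)).toNat : ℕ) : ZMod m)
  refine ⟨fun T => if T ⊆ J then c T else 0, fun z hz => ?_⟩
  have h1 : F z = F (JMP_chr n (supp z ∩ J)) := by
    refine hJF z _ hz (by simp [JMP_chr]) ?_
    intro i hi
    rw [JMP_getD]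
    conv_lhs => rw [← JMP_supp z]
    rw [JMP_getD, hz]
    congr 1
    rw [decide_eq_decide, Finset.mem_inter]
    exact ⟨fun h => ⟨h, hi⟩, fun h => h.1⟩
  show (((F z).toNat : ℕ) : ZMod m) = _
  rw [h1]
  have h2 := hc (supp z ∩ J)
  rw [h2, ← Finset.sum_filter]
  refine Finset.sum_congr ?_ fun _ _ => rfl
  ext T
  rw [Finset.mem_powerset, Finset.mem_filter, Finset.mem_filter, Finset.mem_powerset,
    Finset.subset_inter_iff]
  constructor
  · rintro ⟨h3, h4⟩
    exact ⟨⟨h3, (Finset.card_le_card h4).trans hJ⟩, h4⟩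
  · rintro ⟨⟨h3, -⟩, h4⟩
    exact ⟨h3, h4⟩

end Pool.EV
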