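import Pool.Agent.Work.MP_cb380d_ev.InterfaceF

/-!
# MP_cb380d_lc, CircuitReductions, block KBC: the kept offsets
-/

open Pool.IC Pool.GL Pool.TL Polynomial

set_option autoImplicit false

namespace Pool.EV

theorem KBC_pos (n : ℕ) (hn : 0 < n) (c : List ℕ) (p : ℕ) : 1 ≤ wgb n c p := by
  unfold wgb
  split_ifs <;> omega

theorem KBC_prod (n : ℕ) (c : List ℕ) (hc : c.length = n) (H : List ℕ)
    (hH : ∀ p ∈ H, p < n * n) :
    (H.map (wgb n c)).prod =
      n ^ (H.filter fun p => decide (c.getD (p / n) 0 = p % n)).length := by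
  induction H with
  | nil => simp
  | cons p H ih =>
    have h1 := ih (fun q hq => hH q (List.mem_cons_of_mem _ hq))
    have h2 : p / n < c.length := by
      rw [hc]
      exact Nat.div_lt_of_lt_mul (hH p List.mem_cons_self)
    rw [List.map_cons, List.prod_cons, h1, List.filter_cons]
    by_cases h3 : c.getD (p / n) 0 = p % n
    · have h4 : wgb n c p = n := by
        unfold wgb
        rw [if_pos h2, if_pos h3]
      rw [h4, if_pos (by simpa using h3), List.length_cons, pow_succ, mul_comm]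
    · have h4 : wgb n c p = 1 := by
        unfold wgb
        rw [if_pos h2, if_neg h3]
      rw [h4, if_neg (by simpa using h3), one_mul]

theorem KBC_le (cap : ℕ) (hcpr : ∀ l : List ℕ, (∀ x ∈ l, 1 ≤ x) → cpr cap l = min l.prod cap)
    (n : ℕ) (Hs : List (List ℕ)) :
    ptb n cap Hs [] ≤ (Hs.map fun H => 2 ^ H.length).sum := by
  unfold ptb
  refine List.sum_le_sum fun H _ => ?_
  have h1 : H.map (wgb n []) = List.replicate H.length 2 := by
    rw [List.eq_replicate_iff]
    refine ⟨by simp, fun b hb => ?_⟩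
    rw [List.mem_map] at hb
    obtain ⟨p, -, rfl⟩ := hb
    unfold wgb
    rw [if_neg (by simp)]
  rw [h1, hcpr _ (fun x hx => by rw [List.eq_of_mem_replicate hx]; omega), List.prod_replicate]
  exact min_le_left _ _

theorem p_KBC (hCPR : Stmt_CPR) (hGRC : Stmt_GRC) (hAVB : Stmt_AVB) : Stmt_KBC := by
  intro n h Hs hn hHs hsum
  have hcap : 1 ≤ n ^ h := Nat.one_le_pow _ _ hn
  have hcpr : ∀ l : List ℕ, (∀ x ∈ l, 1 ≤ x) → cpr (n ^ h) l = min l.prod (n ^ h) :=
    fun l hl => hCPR.1 _ l hcap hl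
  obtain ⟨g1, g2, g3⟩ := hGRC n n (ptb n (n ^ h) Hs) hn
  have g4 := g3 fun c _ _ => hAVB n (n ^ h) Hs c hn hcap fun H hH => (hHs H hH).1
  refine ⟨g1, g2, fun H hH => ?_⟩
  have h1 : ptb n (n ^ h) Hs (kpt n (n ^ h) Hs) < n ^ h :=
    lt_of_le_of_lt (g4.trans (KBC_le _ hcpr n Hs)) hsum
  have h2 : cpr (n ^ h) (H.map (wgb n (kpt n (n ^ h) Hs))) ≤
      ptb n (n ^ h) Hs (kpt n (n ^ h) Hs) := by
    unfold ptb
    exact List.single_le_sum (fun _ _ => Nat.zero_le _) _
      (List.mem_map.2 ⟨H, hH, rfl⟩)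
  rw [hcpr _ (fun x hx => by
    rw [List.mem_map] at hx
    obtain ⟨p, -, rfl⟩ := hx
    exact KBC_pos n hn _ p), KBC_prod n (kpt n (n ^ h) Hs) g1 H (hHs H hH).2] at h2
  by_contra h3
  have h4 : n ^ h ≤ n ^ (H.filter fun p => decide ((kpt n (n ^ h) Hs).getD (p / n) 0 = p % n)).length :=
    Nat.pow_le_pow_right hn (not_lt.1 h3)
  rw [min_eq_right h4] at h2
  omega

end Pool.EV
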