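import Pool.Agent.Work.MP_cb380d_ev.InterfaceC

/-!
# Block KDB: the number of variables is polynomial
-/

open Pool.IC Pool.GL Pool.TL Polynomial

namespace Pool.EV

theorem KDB_aux : ∀ d : ℕ, ∃ c : ℕ, 1 ≤ c ∧ ∀ m : ℕ, kd d m ≤ (c * (m + 1)) ^ c := by
  intro d
  induction d with
  | zero =>
    refine ⟨1, le_rfl, fun m => ?_⟩
    rw [kd, pow_one]
    omega
  | succ d ih =>
    obtain ⟨c, hc, h⟩ := ih
    refine ⟨c + 1 + c * d, by omega, fun m => ?_⟩
    have hA : m + 1 ≤ c * (m + 1) := Nat.le_mul_of_pos_left _ hc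
    have hA1 : 1 ≤ c * (m + 1) := by omega
    have h1 := h m
    have h2 : kd d m ^ d ≤ (c * (m + 1)) ^ (c * d) := by
      rw [pow_mul]
      exact Nat.pow_le_pow_left h1 d
    have h3 : 1 ≤ (c * (m + 1)) ^ (c * d) := Nat.one_le_pow _ _ hA1
    have h4 : m * kd d m ^ d + 1 ≤ c * (m + 1) * (c * (m + 1)) ^ (c * d) := by
      calc m * kd d m ^ d + 1 ≤ m * (c * (m + 1)) ^ (c * d) + (c * (m + 1)) ^ (c * d) :=
            Nat.add_le_add (Nat.mul_le_mul_left m h2) h3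
        _ = (m + 1) * (c * (m + 1)) ^ (c * d) := by ring
        _ ≤ _ := Nat.mul_le_mul_right _ hA
    rw [kd]
    calc kd d m * (m * kd d m ^ d + 1) ≤
        (c * (m + 1)) ^ c * (c * (m + 1) * (c * (m + 1)) ^ (c * d)) := Nat.mul_le_mul h1 h4
      _ = (c * (m + 1)) ^ (c + 1 + c * d) := by ring
      _ ≤ ((c + 1 + c * d) * (m + 1)) ^ (c + 1 + c * d) :=
        Nat.pow_le_pow_left (Nat.mul_le_mul_right _ (by omega)) _

theorem p_KDB : Stmt_KDB := by
  intro d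
  obtain ⟨c, -, h⟩ := KDB_aux d
  exact ⟨c, h⟩

end Pool.EV
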