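import Pool.Agent.Work.MP_cb380d_ev.InterfaceA

open Pool.IC Pool.GL Pool.TL Polynomial

namespace Pool.EV

theorem KEP_succ (g : Str → Str) (esc : Str × List ℕ × ℕ × ℕ → Str)
    (ch : ℕ → Str → Str → ℕ → Bool) (ν K n : ℕ) :
    rn g esc ch ν K (n + 1) = stp g esc ch ν K (rn g esc ch ν K n) n := by
  unfold rn
  rw [List.range_succ, List.foldl_append]
  rfl

theorem KEP_stp1 (g : Str → Str) (esc : Str × List ℕ × ℕ × ℕ → Str)
    (ch : ℕ → Str → Str → ℕ → Bool) (ν K : ℕ) (s : St) (l : ℕ) :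
    (stp g esc ch ν K s l).1 = es esc s.1 s.2.1 (lo ν K (l + 1)) K ∨
      (stp g esc ch ν K s l).1 = s.1 := by
  unfold stp
  dsimp only
  generalize ch l s.1 (es esc s.1 s.2.1 (lo ν K (l + 1)) K)
      (fd (g s.1) (g (es esc s.1 s.2.1 (lo ν K (l + 1)) K))) = c
  cases c
  · right; rfl
  · left; rfl

theorem KEP_step (hRNS : Stmt_RNS) (hRNI : Stmt_RNI) (g : Str → Str)
    (esc : Str × List ℕ × ℕ × ℕ → Str) (ch : ℕ → Str → Str → ℕ → Bool) (ν K n : ℕ) (D : Set Str)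
    (he : Esc g esc ν K) (hs : Sep g D) (hn : n < ν - 1) (b : ℕ)
    (hb : b ∈ (rn g esc ch ν K n).2.1) :
    (g (rn g esc ch ν K (n + 1)).1)[b]? = (g (rn g esc ch ν K n).1)[b]? ∧
      b ∈ (rn g esc ch ν K (n + 1)).2.1 := by
  obtain ⟨h1, _, _, _⟩ := hRNS g esc ch ν K n D (rn g esc ch ν K n) he hs
    (hRNI g esc ch ν K n D he hs (by omega)) hn
  rw [KEP_succ]
  refine ⟨?_, List.mem_cons_of_mem _ hb⟩
  rcases KEP_stp1 g esc ch ν K (rn g esc ch ν K n) n with h | h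
  · rw [h]
    exact h1 b hb
  · rw [h]

theorem p_KEP (hHVA : Stmt_HVA) (hRNS : Stmt_RNS) (hRNI : Stmt_RNI) : Stmt_KEP := by
  intro g esc ch ν K m D he hs hm b hb
  have key : ∀ n, m ≤ n → n ≤ ν - 1 →
      (g (rn g esc ch ν K n).1)[b]? = (g (rn g esc ch ν K m).1)[b]? ∧
        b ∈ (rn g esc ch ν K n).2.1 := by
    intro n hmn
    induction n, hmn using Nat.le_induction with
    | base => exact fun _ => ⟨rfl, hb⟩
    | succ n hmn ih =>
      intro hn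
      obtain ⟨h1, h2⟩ := ih (by omega)
      obtain ⟨h3, h4⟩ := KEP_step hRNS hRNI g esc ch ν K n D he hs (by omega) b h2
      exact ⟨h3.trans h1, h4⟩
  obtain ⟨k1, k2⟩ := key (ν - 1) hm le_rfl
  obtain ⟨i1, i2, i3, i4⟩ := hRNI g esc ch ν K (ν - 1) D he hs le_rfl
  obtain ⟨a1, a2, a3⟩ := hHVA.1 ν K _ i1
  obtain ⟨c1, c2⟩ := a3 0 he.1
  have hz : (hv (rn g esc ch ν K (ν - 1)).1)[0]? = some false := by
    rw [i2]
    rfl
  have hT : (rn g esc ch ν K (ν - 1)).2.1.length < ν := by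
    have := he.1
    omega
  obtain ⟨_, _, _, e4⟩ := he.2.2 _ _ (lo ν K 0) a1 hT c1 (c2.1 hz)
  rw [← k1]
  exact e4 b k2

end Pool.EV
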