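import Pool.Agent.Work.MP_cb380d_ev.InterfaceA

open Pool.IC Pool.GL Pool.TL Polynomial

namespace Pool.EV

theorem p_LCH (hPAR : Stmt_PAR) : Stmt_LCH := by
  intro D l z z' h0 hl h'
  obtain ⟨w, hw⟩ : ∃ w, hv z = false :: w := by
    cases h : hv z with
    | nil => rw [h] at h0; simp at h0
    | cons a w =>
      rw [h] at h0
      simp only [List.getElem?_cons_zero, Option.some.injEq] at h0
      exact ⟨w, by rw [h0]⟩
  rw [hw] at hl h'
  have hl' : w[l]? = some false := by simpa using hl
  have h'' : hv z' = false :: w.set l true := by simpa using h'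
  have hp := hPAR w l hl'
  have e1 : z ∈ lang D ↔ parity w = true := by
    simp [lang, hw]
  have e2 : z' ∈ lang D ↔ parity (w.set l true) = true := by
    simp [lang, h'']
  rw [e1, e2, hp]
  cases parity w <;> simp

end Pool.EV
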