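import Pool.Agent.Work.MP_cb380d_ev.InterfaceD

/-! # MP_cb380d_lc, THEOREM EV, block LEC: the levels (helper10) -/

open Pool.IC Pool.GL Pool.TL Polynomial

namespace Pool.EV

theorem LEC_flat {α β : Type} (n : ℕ) (f : α → List β) : ∀ (l : List α),
    (∀ x ∈ l, (f x).length = n) → ∀ (i r : ℕ) (a : α), l[i]? = some a → r < n →
    (l.flatMap f)[i * n + r]? = (f a)[r]?
  | [], _, i, r, a, h, _ => by simp at h
  | b :: l, hl, i, r, a, h, hr => by
    have hb : (f b).length = n := hl b (by simp)
    rw [List.flatMap_cons]
    rcases i with _ | i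
    · simp only [List.getElem?_cons_zero, Option.some.injEq] at h
      subst h
      rw [Nat.zero_mul, Nat.zero_add, List.getElem?_append_left (by omega)]
    · rw [List.getElem?_cons_succ] at h
      have h1 : (i + 1) * n + r = n + (i * n + r) := by rw [Nat.succ_mul]; omega
      rw [List.getElem?_append_right (by rw [hb, h1]; omega), hb, h1, Nat.add_sub_cancel_left]
      exact LEC_flat n f l (fun x hx => hl x (by simp [hx])) i r a h hr

theorem LEC_len {α β : Type} (n : ℕ) (f : α → List β) (l : List α)
    (hl : ∀ x ∈ l, (f x).length = n) : (l.flatMap f).length = l.length * n := by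
  induction l with
  | nil => simp
  | cons b l ih =>
    rw [List.flatMap_cons, List.length_append, hl b (by simp),
      ih (fun x hx => hl x (by simp [hx])), List.length_cons, Nat.succ_mul, Nat.add_comm]

theorem LEC_sum {M : Type} [AddCommMonoid M] (n : ℕ) (f : ℕ → M) :
    ((List.range n).map f).sum = ∑ t ∈ Finset.range n, f t := by
  induction n with
  | zero => simp
  | succ n ih =>
    rw [List.range_succ, List.map_append, List.sum_append, ih, Finset.sum_range_succ]
    simp

theorem LEC_split {M : Type} [AddCommMonoid M] (B n : ℕ) (f : ℕ → M) :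
    ∑ t ∈ Finset.range (B * n), f t =
      ∑ i ∈ Finset.range B, ∑ r ∈ Finset.range n, f (i * n + r) := by
  induction B with
  | zero => simp
  | succ B ih => rw [Nat.succ_mul, Finset.sum_range_add, ih, Finset.sum_range_succ]

theorem LEC_range (B i : ℕ) (h : i < B) : (List.range B)[i]? = some i := by
  rw [List.getElem?_eq_getElem (by simpa using h), List.getElem_range]

theorem LEC_blk {α : Type} (n : ℕ) (I : List α) (i r : ℕ) (a : α) (hr : r < n) :
    (blk n I i).getD r a = I.getD (i * n + r) a := by
  unfold blk
  rw [List.getD_eq_getElem?_getD, List.getD_eq_getElem?_getD, List.getElem?_take_of_lt hr,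
    List.getElem?_drop]

/-- The weighted indicator. -/
theorem LEC_ind {p : ℕ} (m : ℕ) (hm : m < p) (T : ZMod p) :
    ∑ a ∈ Finset.range (p - 1), ((a + 1 : ℕ) : ZMod p) * (if m = a + 1 then T else 0) =
      (m : ZMod p) * T := by
  rcases m with _ | m
  · rw [Finset.sum_eq_zero]
    · simp
    · intro a _
      rw [if_neg (by omega), mul_zero]
  · rw [Finset.sum_eq_single_of_mem m (by rw [Finset.mem_range]; omega)]
    · rw [if_pos rfl]
    · intro a _ ha
      rw [if_neg (by omega), mul_zero]

section step

variable {p L j : ℕ} {I : List (List ℕ)} (F : List (List ℕ) → List (Option (List ℕ)))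

theorem LEC_blen (hI : I.length = nj p L (j + 1)) (i : ℕ) (hi : i < L * (p - 1) ^ j + 1) :
    (blk (nj p L j) I i).length = nj p L j := by
  have hIB : I.length = (L * (p - 1) ^ j + 1) * nj p L j := hI
  unfold blk
  rw [List.length_take, List.length_drop, hIB]
  have h1 : (i + 1) * nj p L j ≤ (L * (p - 1) ^ j + 1) * nj p L j :=
    Nat.mul_le_mul_right _ hi
  rw [Nat.succ_mul] at h1
  omega

theorem LEC_get (hF : ∀ i < L * (p - 1) ^ j + 1,
      (F (blk (nj p L j) I i)).length = nj p L j)
    (i r : ℕ) (hi : i < L * (p - 1) ^ j + 1) (hr : r < nj p L j) :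
    (levs p L j F I).getD (i * nj p L j + r) none =
      if (levd p L j F I).getD i 0 = 0 then none
      else ((F (blk (nj p L j) I i)).getD r none).map fun c => (levd p L j F I).getD i 0 :: c := by
  unfold levs
  rw [List.getD_eq_getElem?_getD, LEC_flat (nj p L j) _ _ _ i r i (LEC_range _ _ hi) hr]
  · have h1 : r < (F (blk (nj p L j) I i)).length := by rw [hF i hi]; exact hr
    rw [List.getElem?_map, List.getD_eq_getElem _ none h1, List.getElem?_eq_getElem h1]
    rfl
  · intro x hx
    rw [List.length_map]
    exact hF x (List.mem_range.1 hx)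

theorem LEC_tsum (hI : I.length = nj p L (j + 1)) (hF : ∀ i < L * (p - 1) ^ j + 1,
      (F (blk (nj p L j) I i)).length = nj p L j) (e : ℕ) (he : e ≠ 0) (c : List ℕ) (x : ℕ) :
    tsum I (levs p L j F I) (e :: c) x = ∑ i ∈ Finset.range (L * (p - 1) ^ j + 1),
      if (levd p L j F I).getD i 0 = e then
        tsum (blk (nj p L j) I i) (F (blk (nj p L j) I i)) c x else 0 := by
  have hIB : I.length = (L * (p - 1) ^ j + 1) * nj p L j := hI
  unfold tsum
  rw [LEC_sum, hIB, LEC_split]
  refine Finset.sum_congr rfl fun i hi => ?_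
  rw [Finset.mem_range] at hi
  rw [LEC_sum, LEC_blen hI i hi]
  by_cases hd : (levd p L j F I).getD i 0 = e
  · rw [if_pos hd]
    refine Finset.sum_congr rfl fun r hr => ?_
    rw [Finset.mem_range] at hr
    rw [LEC_get F hF i r hi hr, LEC_blk _ _ _ _ _ hr, hd, if_neg he]
    congr 1
    rcases (F (blk (nj p L j) I i)).getD r none with _ | c'
    · simp
    · simp
  · rw [if_neg hd]
    apply Finset.sum_eq_zero
    intro r hr
    rw [Finset.mem_range] at hr
    rw [LEC_get F hF i r hi hr, if_neg]
    split_ifs with h0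
    · simp
    · rcases (F (blk (nj p L j) I i)).getD r none with _ | c'
      · simp
      · simp only [Option.map_some, Option.some.injEq, List.cons.injEq, not_and]
        intro h
        exact absurd h hd

theorem LEC_step (hLSC : Stmt_LSC) (hCEL : Stmt_CEL) (hp : p.Prime)
    (ih : ∀ I' : List (List ℕ), I'.length = nj p L j →
      (F I').length = nj p L j ∧ (∀ c : List ℕ, some c ∈ F I' → c ∈ cells p j) ∧
      some (List.replicate j 1) ∈ F I' ∧
      ∀ x < L, Rel p j fun c => (tsum I' (F I') c x : ZMod p))
    (hI : I.length = nj p L (j + 1)) :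
    (levs p L j F I).length = nj p L (j + 1) ∧
    (∀ c : List ℕ, some c ∈ levs p L j F I → c ∈ cells p (j + 1)) ∧
    some (List.replicate (j + 1) 1) ∈ levs p L j F I ∧
    ∀ x < L, Rel p (j + 1) fun c => (tsum I (levs p L j F I) c x : ZMod p) := by
  have hb := fun i hi => LEC_blen (p := p) (L := L) (j := j) hI i hi
  have hF : ∀ i < L * (p - 1) ^ j + 1, (F (blk (nj p L j) I i)).length = nj p L j :=
    fun i hi => (ih _ (hb i hi)).1
  obtain ⟨c1, c2, c3⟩ := hCEL p j
  set V : List (List ℕ) := (List.range (L * (p - 1) ^ j + 1)).map fun i =>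
    (cells p j).flatMap fun c => (List.range L).map fun x =>
      tsum (blk (nj p L j) I i) (F (blk (nj p L j) I i)) c x with hV
  have hVl : V.length = L * (p - 1) ^ j + 1 := by
    rw [hV, List.length_map, List.length_range]
  obtain ⟨d1, d2, d3, d4⟩ := hLSC p ((cells p j).length * L) V hp
    (by rw [hVl, c1, Nat.mul_comm]; exact Nat.lt_succ_self _)
  have hd : lsv p ((cells p j).length * L) V = levd p L j F I := rfl
  rw [hd] at d1 d2 d3 d4
  rw [hVl] at d1 d4
  have hdlt : ∀ i < L * (p - 1) ^ j + 1, (levd p L j F I).getD i 0 < p := by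
    intro i hi
    apply d2
    rw [List.getD_eq_getElem _ _ (by rw [d1]; exact hi)]
    exact List.getElem_mem _
  -- the relation found by the solver
  have hkey : ∀ c ∈ cells p j, ∀ x < L, ∑ i ∈ Finset.range (L * (p - 1) ^ j + 1),
      (((levd p L j F I).getD i 0 : ℕ) : ZMod p) *
        (tsum (blk (nj p L j) I i) (F (blk (nj p L j) I i)) c x : ZMod p) = 0 := by
    intro c hc x hx
    obtain ⟨q, hq⟩ := List.mem_iff_getElem?.1 hc
    have hql : q < (cells p j).length := (List.getElem?_eq_some_iff.1 hq).1
    have hlt : q * L + x < (cells p j).length * L := by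
      have h1 : (q + 1) * L ≤ (cells p j).length * L := Nat.mul_le_mul_right _ hql
      rw [Nat.succ_mul] at h1
      omega
    have h := d4 (q * L + x) hlt
    rw [LEC_sum] at h
    have h2 := (ZMod.natCast_eq_zero_iff _ _).2 h
    rw [Nat.cast_sum] at h2
    rw [← h2]
    refine Finset.sum_congr rfl fun i hi => ?_
    rw [Finset.mem_range] at hi
    rw [Nat.cast_mul]
    congr 2
    have h3 : V.getD i [] = (cells p j).flatMap fun c => (List.range L).map fun x =>
        tsum (blk (nj p L j) I i) (F (blk (nj p L j) I i)) c x := by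
      rw [hV, List.getD_eq_getElem?_getD, List.getElem?_map, LEC_range _ _ hi]
      rfl
    rw [h3, List.getD_eq_getElem?_getD, LEC_flat L _ _ _ q x c hq hx, List.getElem?_map,
      LEC_range _ _ hx]
    · rfl
    · intro c _
      rw [List.length_map, List.length_range]
  refine ⟨?_, ?_, ?_, ?_⟩
  · unfold levs
    rw [LEC_len (nj p L j), List.length_range]
    · rfl
    · intro i hi
      rw [List.length_map]
      exact hF i (List.mem_range.1 hi)
  · intro c' hc'
    unfold levs at hc'
    rw [List.mem_flatMap] at hc'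
    obtain ⟨i, hi, hc'⟩ := hc'
    rw [List.mem_range] at hi
    rw [List.mem_map] at hc'
    obtain ⟨o, ho, hoc⟩ := hc'
    split_ifs at hoc with h0
    rcases o with _ | c
    · simp at hoc
    · simp only [Option.map_some, Option.some.injEq] at hoc
      have hc := (ih _ (hb i hi)).2.1 c ho
      rw [c3] at hc
      rw [← hoc, (hCEL p (j + 1)).2.2]
      refine ⟨by rw [List.length_cons, hc.1], ?_⟩
      intro a ha
      rcases List.mem_cons.1 ha with h | h
      · rw [h]
        exact ⟨Nat.pos_of_ne_zero h0, hdlt i hi⟩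
      · exact hc.2 a h
  · obtain ⟨i, hi⟩ := List.mem_iff_getElem?.1 d3
    have hil : i < L * (p - 1) ^ j + 1 := by
      have := (List.getElem?_eq_some_iff.1 hi).1
      rwa [d1] at this
    have hi1 : (levd p L j F I).getD i 0 = 1 := by
      rw [List.getD_eq_getElem?_getD, hi]
      rfl
    unfold levs
    rw [List.mem_flatMap]
    refine ⟨i, List.mem_range.2 hil, ?_⟩
    rw [List.mem_map]
    refine ⟨some (List.replicate j 1), (ih _ (hb i hil)).2.2.1, ?_⟩
    rw [hi1, if_neg one_ne_zero]
    rfl
  · intro x hx l hl c' hc'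
    rw [(hCEL p (j + 1)).2.2] at hc'
    obtain ⟨hlen, hmem⟩ := hc'
    rcases c' with _ | ⟨e, c⟩
    · simp at hlen
    have hc : c ∈ cells p j := by
      rw [c3]
      refine ⟨by simpa using hlen, fun a ha => hmem a (List.mem_cons_of_mem _ ha)⟩
    have he : e ≠ 0 := (hmem e List.mem_cons_self).1.ne'
    rw [LEC_sum]
    rcases l with _ | l
    · have h1 : ∀ a ∈ Finset.range (p - 1), ((a + 1 : ℕ) : ZMod p) *
          ((tsum I (levs p L j F I) ((e :: c).set 0 (a + 1)) x : ℕ) : ZMod p) =
          ∑ i ∈ Finset.range (L * (p - 1) ^ j + 1), ((a + 1 : ℕ) : ZMod p) *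
            (if (levd p L j F I).getD i 0 = a + 1 then
              ((tsum (blk (nj p L j) I i) (F (blk (nj p L j) I i)) c x : ℕ) : ZMod p) else 0) := by
        intro a _
        rw [List.set_cons_zero, LEC_tsum F hI hF (a + 1) (Nat.succ_ne_zero a) c x, Nat.cast_sum,
          Finset.mul_sum]
        refine Finset.sum_congr rfl fun i _ => ?_
        split_ifs
        · rfl
        · rw [Nat.cast_zero]
      rw [Finset.sum_congr rfl h1, Finset.sum_comm]
      refine Eq.trans (Finset.sum_congr rfl fun i hi => ?_) (hkey c hc x hx)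
      rw [Finset.mem_range] at hi
      exact LEC_ind _ (hdlt i hi) _
    · have h1 : ∀ a ∈ Finset.range (p - 1), ((a + 1 : ℕ) : ZMod p) *
          ((tsum I (levs p L j F I) ((e :: c).set (l + 1) (a + 1)) x : ℕ) : ZMod p) =
          ∑ i ∈ Finset.range (L * (p - 1) ^ j + 1),
            (if (levd p L j F I).getD i 0 = e then
              ((a + 1 : ℕ) : ZMod p) * ((tsum (blk (nj p L j) I i) (F (blk (nj p L j) I i))
                (c.set l (a + 1)) x : ℕ) : ZMod p) else 0) := by
        intro a _
        rw [List.set_cons_succ, LEC_tsum F hI hF e he (c.set l (a + 1)) x, Nat.cast_sum,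
          Finset.mul_sum]
        refine Finset.sum_congr rfl fun i _ => ?_
        split_ifs
        · rfl
        · rw [Nat.cast_zero, mul_zero]
      rw [Finset.sum_congr rfl h1, Finset.sum_comm]
      apply Finset.sum_eq_zero
      intro i hi
      rw [Finset.mem_range] at hi
      by_cases hdi : (levd p L j F I).getD i 0 = e
      · simp only [if_pos hdi]
        have h2 := (ih _ (hb i hi)).2.2.2 x hx l (by omega) c hc
        rw [LEC_sum] at h2
        exact h2
      · simp only [if_neg hdi]
        exact Finset.sum_const_zero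

end step

/-- Block LEC. -/
theorem p_LEC (hLSC : Stmt_LSC) (hCEL : Stmt_CEL) : Stmt_LEC := by
  intro p L j I hp
  induction j generalizing I with
  | zero =>
    intro _
    refine ⟨rfl, ?_, ?_, ?_⟩
    · intro c hc
      have h : some c ∈ [some ([] : List ℕ)] := hc
      rw [List.mem_singleton, Option.some.injEq] at h
      rw [h]
      exact List.mem_singleton.2 rfl
    · exact List.mem_singleton.2 rfl
    · intro x _ l hl
      exact absurd hl (Nat.not_lt_zero l)
  | succ j ih =>
    intro hI
    exact LEC_step (lev p L j) hLSC hCEL hp ih hI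

end Pool.EV
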