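import Pool.Agent.Work.MP_cb380d_ev.InterfaceD

/-! # EvasiveReductions, block LEP: the levels in polynomial time (typed by helper88) -/

open Pool.IC Pool.GL Pool.TL Polynomial

namespace Pool.EV

/-- the block `i` -/
def LEP_b (p j : ℕ) (r : (ℕ × List (List ℕ)) × ℕ) : List (List ℕ) :=
  blk (nj p r.1.1 j) r.1.2 r.2

/-- the assignment of the block `i` -/
def LEP_A (p j : ℕ) (r : (ℕ × List (List ℕ)) × ℕ) : List (Option (List ℕ)) :=
  lev p r.1.1 j (LEP_b p j r)

theorem LEP_levd (p L j : ℕ) (I : List (List ℕ)) :
    levd p L j (lev p L j) I = lsv p ((cells p j).length * L)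
      ((List.range (L * (p - 1) ^ j + 1)).map fun i =>
        (cells p j).flatMap fun c => (List.range L).map fun x =>
          tsum (LEP_b p j ((L, I), i)) (LEP_A p j ((L, I), i)) c x) := rfl

theorem LEP_levs (p L j : ℕ) (I : List (List ℕ)) :
    lev p L (j + 1) I =
      (List.range (L * (p - 1) ^ j + 1)).flatMap fun i => (LEP_A p j ((L, I), i)).map fun o =>
        if (levd p L j (lev p L j) I).getD i 0 = 0 then none
        else if o.isSome then some ((levd p L j (lev p L j) I).getD i 0 :: o.getD []) else none := by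
  rw [lev, levs]
  congr 1
  funext i
  congr 1
  funext o
  cases o <;> rfl

theorem p_LEP (hMDV : Stmt_MDV) (hLSP : Stmt_LSP) : Stmt_LEP := by
  intro B p j hp
  obtain ⟨-, -, -, -, -, hts, -, hblk⟩ := hMDV B p
  have hlsv := hLSP B p hp
  induction j with
  | zero => exact ⟨PolyF.const _, PolyF.const _⟩
  | succ j ih =>
    obtain ⟨ihn, ihl⟩ := ih
    refine ⟨?_, ?_⟩
    · change PolyF B (fun L : ℕ => (L * (p - 1) ^ j + 1) * nj p L j)
      exact PolyF.mul (by fun_prop) ihn
    · have hb : PolyF B (LEP_b p j) :=
        PolyF.comp (f := fun q : ℕ × List (List ℕ) × ℕ => blk q.1 q.2.1 q.2.2)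
          (g := fun r : (ℕ × List (List ℕ)) × ℕ => (nj p r.1.1 j, r.1.2, r.2)) hblk
          (PolyF.pair (PolyF.comp (f := fun L : ℕ => nj p L j)
            (g := fun r : (ℕ × List (List ℕ)) × ℕ => r.1.1) ihn (by fun_prop)) (by fun_prop))
      have hA : PolyF B (LEP_A p j) :=
        PolyF.comp (f := fun q : ℕ × List (List ℕ) => lev p q.1 j q.2)
          (g := fun r : (ℕ × List (List ℕ)) × ℕ => (r.1.1, LEP_b p j r)) ihl
          (PolyF.pair (by fun_prop) hb)
      have ht : PolyF B (fun r : (((ℕ × List (List ℕ)) × ℕ) × List ℕ) × ℕ =>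
          tsum (LEP_b p j r.1.1) (LEP_A p j r.1.1) r.1.2 r.2) :=
        PolyF.comp (f := fun q : List (List ℕ) × List (Option (List ℕ)) × List ℕ × ℕ =>
            tsum q.1 q.2.1 q.2.2.1 q.2.2.2)
          (g := fun r : (((ℕ × List (List ℕ)) × ℕ) × List ℕ) × ℕ =>
            (LEP_b p j r.1.1, LEP_A p j r.1.1, r.1.2, r.2)) hts
          (PolyF.pair (PolyF.comp (f := LEP_b p j)
              (g := fun r : (((ℕ × List (List ℕ)) × ℕ) × List ℕ) × ℕ => r.1.1) hb (by fun_prop))
            (PolyF.pair (PolyF.comp (f := LEP_A p j)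
              (g := fun r : (((ℕ × List (List ℕ)) × ℕ) × List ℕ) × ℕ => r.1.1) hA (by fun_prop))
              (by fun_prop)))
      have h1 : PolyF B (fun r : ((ℕ × List (List ℕ)) × ℕ) × List ℕ =>
          (List.range r.1.1.1).map fun x =>
            tsum (LEP_b p j r.1) (LEP_A p j r.1) r.2 x) :=
        PolyF.map (l := fun r : ((ℕ × List (List ℕ)) × ℕ) × List ℕ => List.range r.1.1.1)
          (f := fun r x => tsum (LEP_b p j r.1) (LEP_A p j r.1) r.2 x) (by fun_prop) ht
      have h2 : PolyF B (fun r : (ℕ × List (List ℕ)) × ℕ =>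
          (cells p j).flatMap fun c => (List.range r.1.1).map fun x =>
            tsum (LEP_b p j r) (LEP_A p j r) c x) :=
        PolyF.flatMap (l := fun _ : (ℕ × List (List ℕ)) × ℕ => cells p j)
          (f := fun r c => (List.range r.1.1).map fun x =>
            tsum (LEP_b p j r) (LEP_A p j r) c x) (PolyF.const _) h1
      have h3 : PolyF B (fun q : ℕ × List (List ℕ) =>
          (List.range (q.1 * (p - 1) ^ j + 1)).map fun i =>
            (cells p j).flatMap fun c => (List.range q.1).map fun x =>
              tsum (LEP_b p j (q, i)) (LEP_A p j (q, i)) c x) :=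
        PolyF.map (l := fun q : ℕ × List (List ℕ) => List.range (q.1 * (p - 1) ^ j + 1))
          (f := fun q i => (cells p j).flatMap fun c => (List.range q.1).map fun x =>
              tsum (LEP_b p j (q, i)) (LEP_A p j (q, i)) c x) (by fun_prop) h2
      have h4 : PolyF B (fun q : ℕ × List (List ℕ) => levd p q.1 j (lev p q.1 j) q.2) :=
        PolyF.comp (f := fun q : ℕ × List (List ℕ) => lsv p q.1 q.2)
          (g := fun q : ℕ × List (List ℕ) => ((cells p j).length * q.1,
            (List.range (q.1 * (p - 1) ^ j + 1)).map fun i =>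
              (cells p j).flatMap fun c => (List.range q.1).map fun x =>
                tsum (LEP_b p j (q, i)) (LEP_A p j (q, i)) c x)) hlsv
          (PolyF.pair (by fun_prop) h3)
      have h5 : PolyF B (fun r : ((ℕ × List (List ℕ)) × ℕ) × Option (List ℕ) =>
          (levd p r.1.1.1 j (lev p r.1.1.1 j) r.1.1.2).getD r.1.2 0) := by
        have h6 : PolyF B (fun r : ((ℕ × List (List ℕ)) × ℕ) × Option (List ℕ) =>
            levd p r.1.1.1 j (lev p r.1.1.1 j) r.1.1.2) :=
          PolyF.comp (f := fun q : ℕ × List (List ℕ) => levd p q.1 j (lev p q.1 j) q.2)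
            (g := fun r : ((ℕ × List (List ℕ)) × ℕ) × Option (List ℕ) => r.1.1) h4 (by fun_prop)
        exact PolyF.getD (by fun_prop) h6 (PolyF.const _)
      have h7 : PolyF B (fun r : ((ℕ × List (List ℕ)) × ℕ) × Option (List ℕ) =>
          if (levd p r.1.1.1 j (lev p r.1.1.1 j) r.1.1.2).getD r.1.2 0 = 0 then none
          else if r.2.isSome then
            some ((levd p r.1.1.1 j (lev p r.1.1.1 j) r.1.1.2).getD r.1.2 0 :: r.2.getD [])
          else none) := by
        fun_prop
      have h8 : PolyF B (fun r : (ℕ × List (List ℕ)) × ℕ => (LEP_A p j r).map fun o =>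
          if (levd p r.1.1 j (lev p r.1.1 j) r.1.2).getD r.2 0 = 0 then none
          else if o.isSome then
            some ((levd p r.1.1 j (lev p r.1.1 j) r.1.2).getD r.2 0 :: o.getD [])
          else none) :=
        PolyF.map (l := LEP_A p j) (f := fun r o =>
          if (levd p r.1.1 j (lev p r.1.1 j) r.1.2).getD r.2 0 = 0 then none
          else if o.isSome then
            some ((levd p r.1.1 j (lev p r.1.1 j) r.1.2).getD r.2 0 :: o.getD [])
          else none) hA h7
      have h9 : PolyF B (fun q : ℕ × List (List ℕ) =>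
          (List.range (q.1 * (p - 1) ^ j + 1)).flatMap fun i => (LEP_A p j (q, i)).map fun o =>
          if (levd p q.1 j (lev p q.1 j) q.2).getD i 0 = 0 then none
          else if o.isSome then
            some ((levd p q.1 j (lev p q.1 j) q.2).getD i 0 :: o.getD [])
          else none) :=
        PolyF.flatMap (l := fun q : ℕ × List (List ℕ) => List.range (q.1 * (p - 1) ^ j + 1))
          (f := fun q i => (LEP_A p j (q, i)).map fun o =>
            if (levd p q.1 j (lev p q.1 j) q.2).getD i 0 = 0 then none
            else if o.isSome then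
              some ((levd p q.1 j (lev p q.1 j) q.2).getD i 0 :: o.getD [])
            else none) (by fun_prop) h8
      exact h9.congrF fun q => (LEP_levs p q.1 j q.2).symm

end Pool.EV
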