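import Pool.Agent.Work.MP_cb380d_ev.InterfaceF

/-! # Block LNI (MP_cb380d, circuits) -/

open Pool.IC Pool.GL Pool.TL Polynomial

namespace Pool.EV

theorem LNI_lead (v : Str) (a : ℕ) : lead (v ++ List.replicate a false) = lead v := by
  induction v with
  | nil => cases a <;> rfl
  | cons x v ih =>
    cases x
    · rfl
    · change lead (v ++ List.replicate a false) + 1 = lead v + 1
      rw [ih]

theorem LNI_drop (v : Str) (a j : ℕ) : ∃ b : ℕ,
    (v ++ List.replicate a false).drop j = v.drop j ++ List.replicate b false := by
  refine ⟨a - (j - v.length), ?_⟩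
  rw [List.drop_append, List.drop_replicate]

theorem LNI_rst (v : Str) (a : ℕ) : ∃ b : ℕ,
    rst (v ++ List.replicate a false) = rst v ++ List.replicate b false := by
  unfold rst
  rw [LNI_lead]
  exact LNI_drop v a _

theorem LNI_any (y : Str) (b j k : ℕ) :
    (((y ++ List.replicate b false).drop j).take k).any id = ((y.drop j).take k).any id := by
  obtain ⟨c, hc⟩ := LNI_drop y b j
  rw [hc, List.take_append, List.any_append, List.take_replicate]
  have : (List.replicate (min (k - (y.drop j).length) c) false).any id = false := by
    rw [List.any_eq_false]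
    intro x hx
    rw [List.eq_of_mem_replicate hx]
    simp
  rw [this, Bool.or_false]

theorem LNI_hv (v : Str) (a : ℕ) : hv (v ++ List.replicate a false) = hv v := by
  obtain ⟨b, hb⟩ := LNI_rst v a
  obtain ⟨c, hc⟩ := LNI_rst (rst v) b
  unfold hv
  rw [hb, hc, LNI_lead, LNI_lead]
  apply List.map_congr_left
  intro j _
  exact LNI_any _ _ _ _

theorem p_LNI : Stmt_LNI := by
  intro D v a
  unfold lang
  change (if (hv (v ++ List.replicate a false)).headD false = true then
      dcd (hv (v ++ List.replicate a false)).tail ∈ D
    else parity (hv (v ++ List.replicate a false)).tail = true) ↔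
    (if (hv v).headD false = true then dcd (hv v).tail ∈ D else parity (hv v).tail = true)
  rw [LNI_hv]

end Pool.EV
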