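import Pool.Agent.Work.MP_cb380d_ev.InterfaceD

/-! # Block LSC: linear relations modulo `p` -/

open Pool.IC Pool.GL Pool.TL Polynomial

namespace Pool.EV

theorem LSC_getD (p a : ℕ) (u v : List ℕ) (h : u.length = v.length) (t : ℕ) :
    (axp p a u v).getD t 0 = (a * u.getD t 0 + v.getD t 0) % p := by
  rw [axp, List.getD_eq_getElem?_getD, List.getD_eq_getElem?_getD, List.getD_eq_getElem?_getD,
    List.getElem?_zipWith]
  rcases lt_or_ge t u.length with hi | hi
  · have hi' : t < v.length := by omega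
    rw [List.getElem?_eq_getElem hi, List.getElem?_eq_getElem hi']
    simp
  · have hi' : v.length ≤ t := by omega
    rw [List.getElem?_eq_none hi, List.getElem?_eq_none hi']
    simp

theorem LSC_evn (n c j : ℕ) : (evn n c).getD j 0 = if j < n ∧ j = c then 1 else 0 := by
  rw [evn, List.getD_eq_getElem?_getD, List.getElem?_map]
  rcases lt_or_ge j n with hj | hj
  · rw [List.getElem?_range hj]
    simp [hj]
  · rw [List.getElem?_eq_none (by simpa using hj)]
    simp [not_lt.2 hj]

theorem LSC_cast (p : ℕ) (I : List (List ℕ)) (x : ℕ) (v : List ℕ) :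
    ((fvl p I x v : ℕ) : ZMod p) = ((List.range I.length).map fun t =>
      ((v.getD t 0 : ℕ) : ZMod p) * (((I.getD t []).getD x 0 : ℕ) : ZMod p)).sum := by
  rw [fvl, ZMod.natCast_mod, Nat.cast_list_sum, List.map_map]
  congr 1
  refine List.map_congr_left fun t _ => ?_
  simp

theorem LSC_axp (p : ℕ) (I : List (List ℕ)) (x a : ℕ) (u v : List ℕ) (h : u.length = v.length) :
    ((fvl p I x (axp p a u v) : ℕ) : ZMod p) = (a : ZMod p) * (fvl p I x u : ℕ) + (fvl p I x v : ℕ) := by
  rw [LSC_cast, LSC_cast, LSC_cast, ← List.sum_map_mul_left, ← List.sum_map_add]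
  congr 1
  refine List.map_congr_left fun t _ => ?_
  rw [LSC_getD p a u v h, ZMod.natCast_mod]
  push_cast
  ring

theorem LSC_zero (p : ℕ) (hp : 0 < p) (I : List (List ℕ)) (x : ℕ) (v : List ℕ) :
    fvl p I x v = 0 ↔ ((fvl p I x v : ℕ) : ZMod p) = 0 := by
  rw [ZMod.natCast_eq_zero_iff]
  refine ⟨fun h => h ▸ dvd_zero p, fun h => Nat.eq_zero_of_dvd_of_lt h ?_⟩
  rw [fvl]
  exact Nat.mod_lt _ hp

/-- the relation of two members -/
def LSC_rel (a b : ℕ × List ℕ) : Prop :=
  a.1 ≠ b.1 ∧ a.2.getD b.1 0 = 0 ∧ b.2.getD a.1 0 = 0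

/-- the invariant -/
def LSC_I (p : ℕ) (I : List (List ℕ)) (D : List ℕ) (V : List (ℕ × List ℕ)) : Prop :=
  (∀ a ∈ V, a.2.length = I.length ∧ (∀ e ∈ a.2, e < p) ∧ a.2.getD a.1 0 = 1 ∧
    ∀ x ∈ D, fvl p I x a.2 = 0) ∧ V.Pairwise LSC_rel ∧ I.length ≤ V.length + D.length

theorem LSC_mem_zip (p a : ℕ) (hp : 0 < p) (u v : List ℕ) : ∀ e ∈ axp p a u v, e < p := by
  intro e he
  rw [axp] at he
  obtain ⟨i, hi, rfl⟩ := List.mem_iff_getElem.1 he
  rw [List.getElem_zipWith]
  exact Nat.mod_lt _ hp

theorem LSC_filter (V : List (ℕ × List ℕ)) (hV : V.Pairwise LSC_rel) (c : ℕ) :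
    V.length ≤ (V.filter fun v => decide (v.1 ≠ c)).length + 1 := by
  have h1 := List.length_eq_length_filter_add (l := V) (fun v => decide (v.1 ≠ c))
  have h2 : (V.filter fun v => !decide (v.1 ≠ c)).length ≤ 1 := by
    have h3 : (V.filter fun v => !decide (v.1 ≠ c)).Pairwise LSC_rel := hV.filter _
    have h4 : ∀ v ∈ V.filter fun v => !decide (v.1 ≠ c), v.1 = c := by
      intro v hv
      have := (List.mem_filter.1 hv).2
      simpa using this
    match hW : V.filter fun v => !decide (v.1 ≠ c) with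
    | [] => rw [hW]; simp
    | [_] => rw [hW]; simp
    | a :: b :: t =>
      rw [hW] at h3 h4
      have h5 := (List.pairwise_cons.1 h3).1 b (by simp)
      exact absurd ((h4 a (by simp)).trans (h4 b (by simp)).symm) h5.1
  omega

theorem LSC_step (p : ℕ) (hp : p.Prime) (I : List (List ℕ)) (D : List ℕ) (V : List (ℕ × List ℕ))
    (x : ℕ) (h : LSC_I p I D V) : LSC_I p I (x :: D) (lss p (fvl p I x) V) := by
  have := Fact.mk hp
  obtain ⟨h1, h2, h3⟩ := h
  obtain ⟨B, hB⟩ : ∃ B, B = V.filter fun v => decide (fvl p I x v.2 ≠ 0) := ⟨_, rfl⟩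
  rw [lss, ← hB]
  cases B with
  | nil =>
    rw [if_pos rfl]
    refine ⟨fun a ha => ?_, h2, ?_⟩
    · obtain ⟨e1, e2, e3, e4⟩ := h1 a ha
      refine ⟨e1, e2, e3, fun y hy => ?_⟩
      rcases List.mem_cons.1 hy with rfl | hy
      · by_contra hne
        have : a ∈ V.filter fun v => decide (fvl p I y v.2 ≠ 0) := by
          rw [List.mem_filter]
          exact ⟨ha, by simpa using hne⟩
        rw [← hB] at this
        simp at this
      · exact e4 y hy
    · simp only [List.length_cons]
      omega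
  | cons u B =>
    rw [if_neg (List.cons_ne_nil u B)]
    show LSC_I p I (x :: D) ((V.filter fun v => decide (v.1 ≠ u.1)).map fun v =>
      (v.1, axp p (fvl p I x v.2 * (p - 1) * fvl p I x u.2 ^ (p - 2)) u.2 v.2))
    have hu : u ∈ V ∧ fvl p I x u.2 ≠ 0 := by
      have : u ∈ V.filter fun v => decide (fvl p I x v.2 ≠ 0) := by
        rw [← hB]
        simp
      rw [List.mem_filter] at this
      exact ⟨this.1, by simpa using this.2⟩
    obtain ⟨huV, hu0⟩ := hu
    obtain ⟨u1, u2, u3, u4⟩ := h1 u huV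
    have hsymm : Std.Symm LSC_rel := ⟨fun a b h => ⟨h.1.symm, h.2.2, h.2.1⟩⟩
    have hur : ∀ b ∈ V, b.1 ≠ u.1 → LSC_rel u b := by
      intro b hb hbu
      have hf : ∀ a ∈ V, ∀ b ∈ V, a ≠ b → LSC_rel a b :=
        fun a ha b hb hab => h2.forall ha hb hab
      exact hf u huV b hb (fun h => hbu (by rw [h]))
    have hg : ∀ (a : ℕ) (b : ℕ × List ℕ), b ∈ V → ∀ i,
        (axp p a u.2 b.2).getD i 0 = (a * u.2.getD i 0 + b.2.getD i 0) % p :=
      fun a b hb i => LSC_getD p a _ _ (by rw [u1, (h1 b hb).1]) i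
    refine ⟨fun a ha => ?_, ?_, ?_⟩
    · obtain ⟨b, hb, rfl⟩ := List.mem_map.1 ha
      obtain ⟨hbV, hbu⟩ := List.mem_filter.1 hb
      have hbu : b.1 ≠ u.1 := by simpa using hbu
      obtain ⟨e1, e2, e3, e4⟩ := h1 b hbV
      refine ⟨?_, LSC_mem_zip p _ hp.pos _ _, ?_, fun y hy => ?_⟩
      · show (axp p _ u.2 b.2).length = I.length
        rw [axp, List.length_zipWith, e1, u1, min_self]
      · show (axp p _ u.2 b.2).getD b.1 0 = 1
        rw [hg _ b hbV, (hur b hbV hbu).2.1, e3, mul_zero, zero_add, Nat.mod_eq_of_lt hp.one_lt]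
      · show fvl p I y (axp p _ u.2 b.2) = 0
        rw [LSC_zero p hp.pos, LSC_axp p I y _ _ _ (by rw [u1, e1])]
        rcases List.mem_cons.1 hy with rfl | hy
        · have hx : ((fvl p I y u.2 : ℕ) : ZMod p) ≠ 0 := fun h => hu0 ((LSC_zero p hp.pos I y u.2).2 h)
          have hpow := ZMod.pow_card_sub_one_eq_one hx
          have hp2 : p - 1 = (p - 2) + 1 := by have := hp.two_le; omega
          have hneg : ((p - 1 : ℕ) : ZMod p) = -1 := by
            rw [Nat.cast_sub hp.one_le, Nat.cast_one, CharP.cast_eq_zero, zero_sub]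
          rw [hp2, pow_succ] at hpow
          push_cast
          rw [hneg]
          linear_combination (-((fvl p I y b.2 : ℕ) : ZMod p)) * hpow
        · rw [(LSC_zero p hp.pos I y u.2).1 (u4 y hy), (LSC_zero p hp.pos I y b.2).1 (e4 y hy),
            mul_zero, zero_add]
    · rw [List.pairwise_map]
      have h5 : (V.filter fun v => decide (v.1 ≠ u.1)).Pairwise LSC_rel := h2.filter _
      refine h5.imp_of_mem ?_
      intro a b ha hb hab
      obtain ⟨haV, hau⟩ := List.mem_filter.1 ha
      obtain ⟨hbV, hbu⟩ := List.mem_filter.1 hb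
      have hau : a.1 ≠ u.1 := by simpa using hau
      have hbu : b.1 ≠ u.1 := by simpa using hbu
      refine ⟨hab.1, ?_, ?_⟩
      · show (axp p _ u.2 a.2).getD b.1 0 = 0
        rw [hg _ a haV, (hur b hbV hbu).2.1, hab.2.1, mul_zero, zero_add, Nat.zero_mod]
      · show (axp p _ u.2 b.2).getD a.1 0 = 0
        rw [hg _ b hbV, (hur a haV hau).2.1, hab.2.2, mul_zero, zero_add, Nat.zero_mod]
    · have h6 := LSC_filter V h2 u.1
      rw [List.length_map, List.length_cons]
      omega

theorem LSC_fold (p : ℕ) (hp : p.Prime) (I : List (List ℕ)) (Q : List ℕ) :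
    ∀ (D : List ℕ) (V : List (ℕ × List ℕ)), LSC_I p I D V →
    LSC_I p I (Q.reverse ++ D) (Q.foldl (fun V x => lss p (fvl p I x) V) V) := by
  induction Q with
  | nil =>
    intro D V h
    exact h
  | cons q Q ih =>
    intro D V h
    rw [List.foldl_cons, List.reverse_cons, List.append_assoc]
    exact ih (q :: D) _ (LSC_step p hp I D V q h)

theorem p_LSC : Stmt_LSC := by
  intro p L I hp hL
  have h0 : LSC_I p I [] ((List.range I.length).map fun t => (t, evn I.length t)) := by
    refine ⟨?_, ?_, by simp⟩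
    · intro a ha
      obtain ⟨c, hc, rfl⟩ := List.mem_map.1 ha
      refine ⟨by simp [evn], ?_, ?_, by simp⟩
      · intro e he
        simp only [evn, List.mem_map] at he
        obtain ⟨j, -, rfl⟩ := he
        split_ifs
        · exact hp.one_lt
        · exact hp.pos
      · show (evn I.length c).getD c 0 = 1
        rw [LSC_evn, if_pos ⟨by simpa using hc, rfl⟩]
    · rw [List.pairwise_map]
      refine List.Pairwise.imp ?_ (List.nodup_range (n := I.length))
      intro a b hab
      refine ⟨hab, ?_, ?_⟩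
      · show (evn I.length a).getD b 0 = 0
        rw [LSC_evn, if_neg (fun h => hab h.2.symm)]
      · show (evn I.length b).getD a 0 = 0
        rw [LSC_evn, if_neg (fun h => hab h.2)]
  obtain ⟨e1, e2, e3⟩ := LSC_fold p hp I (List.range L) [] _ h0
  rw [List.append_nil, List.length_reverse, List.length_range] at e3
  cases hV : (List.range L).foldl (fun V x => lss p (fvl p I x) V)
      ((List.range I.length).map fun t => (t, evn I.length t)) with
  | nil =>
    rw [hV] at e3
    simp only [List.length_nil] at e3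
    omega
  | cons a t =>
    rw [hV] at e1
    obtain ⟨f1, f2, f3, f4⟩ := e1 a List.mem_cons_self
    have hs : lsv p L I = a.2 := by rw [lsv, hV, List.headD_cons]
    rw [hs]
    refine ⟨f1, f2, ?_, fun x hx => ?_⟩
    · rw [List.getD_eq_getElem?_getD] at f3
      rcases lt_or_ge a.1 a.2.length with hi | hi
      · rw [List.getElem?_eq_getElem hi, Option.getD_some] at f3
        rw [← f3]
        exact List.getElem_mem hi
      · rw [List.getElem?_eq_none hi] at f3
        simp at f3
    · have := f4 x (by simpa using hx)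
      rw [fvl] at this
      exact Nat.dvd_of_mod_eq_zero this

end Pool.EV
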