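import Pool.Agent.Work.MP_cb380d_ev.InterfaceD

/-! # EvasiveReductions, block LSP: the linear solver modulo p in polynomial time -/

open Pool.IC Pool.GL Pool.TL Polynomial


namespace Pool.EV

/-- Size invariant along the elimination. -/
def LSP_Inv (n p : ℕ) (V : List (ℕ × List ℕ)) : Prop :=
  V.length ≤ n ∧ ∀ v ∈ V, v.1 < n ∧ v.2.length ≤ n ∧ ∀ a ∈ v.2, a ≤ p + 1

theorem LSP_szlist {α : Type} [SE α] (K : ℕ) (l : List α) (h : ∀ a ∈ l, sz a ≤ K) :
    sz l ≤ l.length * (2 * K + 2) := by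
  induction l with
  | nil => simp
  | cons a l ih =>
    have h1 := h a (by simp)
    have h2 := ih fun b hb => h b (by simp [hb])
    simp only [sz_cons, List.length_cons]
    nlinarith

theorem LSP_szV (n p : ℕ) (V : List (ℕ × List ℕ)) (h : LSP_Inv n p V) :
    sz V ≤ n * (2 * (2 * n + n * (2 * (p + 1) + 2) + 1) + 2) := by
  have h1 : sz V ≤ V.length * (2 * (2 * n + n * (2 * (p + 1) + 2) + 1) + 2) := by
    refine LSP_szlist _ V fun v hv => ?_
    obtain ⟨h1, h2, h3⟩ := h.2 v hv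
    have h4 : sz v.2 ≤ v.2.length * (2 * (p + 1) + 2) :=
      LSP_szlist (p + 1) v.2 fun a ha => by simpa using h3 a ha
    have h5 : v.2.length * (2 * (p + 1) + 2) ≤ n * (2 * (p + 1) + 2) := Nat.mul_le_mul_right _ h2
    simp only [sz_pair, sz_nat]
    omega
  exact h1.trans (Nat.mul_le_mul_right _ h.1)

theorem LSP_axp (p a : ℕ) (u v : List ℕ) (hp : 0 < p) :
    (axp p a u v).length ≤ v.length ∧ ∀ b ∈ axp p a u v, b ≤ p + 1 := by
  constructor
  · unfold axp
    rw [List.length_zipWith]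
    exact Nat.min_le_right _ _
  · intro b hb
    have key : ∀ (u v : List ℕ), ∀ b ∈ List.zipWith (fun x y => (a * x + y) % p) u v,
        b ≤ p + 1 := by
      intro u
      induction u with
      | nil => intro v b hb; simp at hb
      | cons x u ih =>
        intro v b hb
        cases v with
        | nil => simp at hb
        | cons y v =>
          simp only [List.zipWith_cons_cons, List.mem_cons] at hb
          rcases hb with rfl | hb
          · exact (Nat.mod_lt _ hp).le.trans (by omega)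
          · exact ih v b hb
    exact key u v b hb

theorem LSP_step (n p : ℕ) (hp : 0 < p) (f : List ℕ → ℕ) (V : List (ℕ × List ℕ))
    (h : LSP_Inv n p V) : LSP_Inv n p (lss p f V) := by
  unfold lss
  split_ifs with h0
  · exact h
  · refine ⟨?_, ?_⟩
    · rw [List.length_map]
      exact (List.length_filter_le _ _).trans h.1
    · intro v hv
      simp only [List.mem_map, List.mem_filter] at hv
      obtain ⟨w, ⟨hw, -⟩, rfl⟩ := hv
      obtain ⟨h1, h2, -⟩ := h.2 w hw
      obtain ⟨h4, h5⟩ := LSP_axp p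
        (f w.2 * (p - 1) * f ((V.filter fun v => decide (f v.2 ≠ 0)).headD (0, [])).2 ^ (p - 2))
        ((V.filter fun v => decide (f v.2 ≠ 0)).headD (0, [])).2 w.2 hp
      exact ⟨h1, h4.trans h2, h5⟩

theorem LSP_start (n p : ℕ) : LSP_Inv n p ((List.range n).map fun t => (t, evn n t)) := by
  refine ⟨by simp, ?_⟩
  intro v hv
  simp only [List.mem_map, List.mem_range] at hv
  obtain ⟨t, ht, rfl⟩ := hv
  refine ⟨ht, by simp [evn], ?_⟩
  intro a ha
  simp only [evn, List.mem_map] at ha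
  obtain ⟨j, -, rfl⟩ := ha
  split_ifs <;> omega

theorem LSP_fold (n p : ℕ) (hp : 0 < p) (F : ℕ → List ℕ → ℕ) (l : List ℕ)
    (V : List (ℕ × List ℕ)) (h : LSP_Inv n p V) :
    LSP_Inv n p (l.foldl (fun V x => lss p (F x) V) V) := by
  induction l generalizing V with
  | nil => exact h
  | cons a l ih => exact ih _ (LSP_step n p hp (F a) V h)

theorem LSP_len {α : Type} [SE α] (l : List α) : l.length ≤ sz l := by
  induction l with
  | nil => simp
  | cons a l ih => simp only [List.length_cons, sz_cons]; omega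

/-- The context of one step. -/
abbrev LSPc := (ℕ × List (List ℕ)) × List (ℕ × List ℕ) × ℕ

/-- The value of the functional. -/
def LSP_g (p : ℕ) (w : LSPc × List ℕ) : ℕ := fvl p w.1.1.2 w.1.2.2 w.2

/-- The members with value different from 0. -/
def LSP_P (p : ℕ) (w : LSPc) : List (ℕ × List ℕ) :=
  w.2.1.filter fun v => decide (LSP_g p (w, v.2) ≠ 0)

/-- The pivot. -/
def LSP_H (p : ℕ) (w : LSPc) : ℕ × List ℕ := (LSP_P p w).headD (0, [])

/-- The members different from the pivot. -/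
def LSP_R (p : ℕ) (w : LSPc) : List (ℕ × List ℕ) :=
  w.2.1.filter fun v => decide (v.1 ≠ (LSP_H p w).1)

/-- The new member. -/
def LSP_N (p : ℕ) (w : LSPc × (ℕ × List ℕ)) : ℕ × List ℕ :=
  (w.2.1, axp p (LSP_g p (w.1, w.2.2) * (p - 1) * LSP_g p (w.1, (LSP_H p w.1).2) ^ (p - 2))
    (LSP_H p w.1).2 w.2.2)

theorem LSP_lss (p : ℕ) (w : LSPc) : lss p (fvl p w.1.2 w.2.2) w.2.1 =
    if LSP_P p w = [] then w.2.1 else (LSP_R p w).map fun v => LSP_N p (w, v) := rfl

theorem LSP_pg {B : Set Str} {p : ℕ} (hfvl : PolyF B (fun q : List (List ℕ) × ℕ × List ℕ =>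
    fvl p q.1 q.2.1 q.2.2)) : PolyF B (LSP_g p) :=
  PolyF.comp (f := fun q : List (List ℕ) × ℕ × List ℕ => fvl p q.1 q.2.1 q.2.2)
    (g := fun w : LSPc × List ℕ => (w.1.1.2, w.1.2.2, w.2)) hfvl (by fun_prop)

theorem LSP_pP {B : Set Str} {p : ℕ} (hg : PolyF B (LSP_g p)) : PolyF B (LSP_P p) := by
  refine PolyF.filter (l := fun w : LSPc => w.2.1)
    (f := fun w v => decide (LSP_g p (w, v.2) ≠ 0)) (by fun_prop) ?_
  exact PolyF.decideNot (PolyF.natEq (PolyF.comp (f := LSP_g p)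
    (g := fun z : LSPc × (ℕ × List ℕ) => (z.1, z.2.2)) hg (by fun_prop)) (PolyF.const 0))

theorem LSP_pH {B : Set Str} {p : ℕ} (hP : PolyF B (LSP_P p)) : PolyF B (LSP_H p) :=
  PolyF.headD hP (PolyF.const _)

theorem LSP_pR {B : Set Str} {p : ℕ} (hH : PolyF B (LSP_H p)) : PolyF B (LSP_R p) := by
  refine PolyF.filter (l := fun w : LSPc => w.2.1)
    (f := fun w v => decide (v.1 ≠ (LSP_H p w).1)) (by fun_prop) ?_
  exact PolyF.decideNot (PolyF.natEq (by fun_prop) (PolyF.fst (PolyF.comp (f := LSP_H p)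
    (g := fun z : LSPc × (ℕ × List ℕ) => z.1) hH (by fun_prop))))

theorem LSP_pN {B : Set Str} {p : ℕ} (hg : PolyF B (LSP_g p)) (hH : PolyF B (LSP_H p))
    (haxp : PolyF B (fun q : ℕ × List ℕ × List ℕ => axp p q.1 q.2.1 q.2.2)) :
    PolyF B (LSP_N p) := by
  have h1 : PolyF B (fun z : LSPc × (ℕ × List ℕ) => (LSP_H p z.1).2) :=
    PolyF.snd (PolyF.comp (f := LSP_H p) (g := fun z : LSPc × (ℕ × List ℕ) => z.1) hH
      (by fun_prop))
  have h2 : PolyF B (fun z : LSPc × (ℕ × List ℕ) => LSP_g p (z.1, (LSP_H p z.1).2)) :=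
    PolyF.comp (f := LSP_g p) (g := fun z : LSPc × (ℕ × List ℕ) => (z.1, (LSP_H p z.1).2)) hg
      (PolyF.pair (by fun_prop) h1)
  have h3 : PolyF B (fun z : LSPc × (ℕ × List ℕ) => LSP_g p (z.1, z.2.2)) :=
    PolyF.comp (f := LSP_g p) (g := fun z : LSPc × (ℕ × List ℕ) => (z.1, z.2.2)) hg
      (by fun_prop)
  have h4 : PolyF B (fun z : LSPc × (ℕ × List ℕ) =>
      LSP_g p (z.1, z.2.2) * (p - 1) * LSP_g p (z.1, (LSP_H p z.1).2) ^ (p - 2)) :=
    PolyF.mul (PolyF.mul h3 (PolyF.const _)) (PolyF.pow h2 _)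
  refine PolyF.pair (by fun_prop) ?_
  exact PolyF.comp (f := fun q : ℕ × List ℕ × List ℕ => axp p q.1 q.2.1 q.2.2)
    (g := fun z : LSPc × (ℕ × List ℕ) =>
      (LSP_g p (z.1, z.2.2) * (p - 1) * LSP_g p (z.1, (LSP_H p z.1).2) ^ (p - 2),
        (LSP_H p z.1).2, z.2.2)) haxp (PolyF.pair h4 (PolyF.pair h1 (by fun_prop)))

theorem LSP_plss {B : Set Str} {p : ℕ} (hP : PolyF B (LSP_P p)) (hR : PolyF B (LSP_R p))
    (hN : PolyF B (LSP_N p)) :
    PolyF B (fun w : LSPc => lss p (fvl p w.1.2 w.2.2) w.2.1) := by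
  have h1 : PolyF B (fun w : LSPc => (LSP_R p w).map fun v => LSP_N p (w, v)) :=
    PolyF.map (l := LSP_R p) (f := fun w v => LSP_N p (w, v)) hR hN
  have h2 : PolyF B (fun w : LSPc => if LSP_P p w = [] then w.2.1
      else (LSP_R p w).map fun v => LSP_N p (w, v)) :=
    PolyF.ite' (c := fun w : LSPc => LSP_P p w = []) (PolyF.eq hP (PolyF.const []))
      (by fun_prop) h1
  exact h2.congrF fun w => (LSP_lss p w).symm

theorem LSP_pst {B : Set Str} (hevn : PolyF B (fun q : ℕ × ℕ => evn q.1 q.2)) :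
    PolyF B (fun q : ℕ × List (List ℕ) =>
      (List.range q.2.length).map fun t => (t, evn q.2.length t)) := by
  refine PolyF.map (l := fun q : ℕ × List (List ℕ) => List.range q.2.length)
    (f := fun q t => (t, evn q.2.length t)) (by fun_prop) ?_
  refine PolyF.pair (by fun_prop) ?_
  exact PolyF.comp (f := fun q : ℕ × ℕ => evn q.1 q.2)
    (g := fun q : (ℕ × List (List ℕ)) × ℕ => (q.1.2.length, q.2)) hevn (by fun_prop)

theorem LSP_pfold {B : Set Str} {p : ℕ} (hp : 0 < p)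
    (hs : PolyF B (fun w : LSPc => lss p (fvl p w.1.2 w.2.2) w.2.1))
    (h0 : PolyF B (fun q : ℕ × List (List ℕ) =>
      (List.range q.2.length).map fun t => (t, evn q.2.length t))) :
    PolyF B (fun q : ℕ × List (List ℕ) =>
      (List.range q.1).foldl (fun V x => lss p (fvl p q.2 x) V)
        ((List.range q.2.length).map fun t => (t, evn q.2.length t))) := by
  refine PolyF.foldl (l := fun q : ℕ × List (List ℕ) => List.range q.1)
    (g := fun q : ℕ × List (List ℕ) =>
      (List.range q.2.length).map fun t => (t, evn q.2.length t))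
    (h := fun q V x => lss p (fvl p q.2 x) V) (by fun_prop) h0 hs
    (X * (C 2 * (C 2 * X + X * C (2 * (p + 1) + 2) + 1) + C 2)) ?_
  intro q j _
  have h10 := LSP_szV q.2.length p _ (LSP_fold q.2.length p hp (fun x => fvl p q.2 x)
    ((List.range q.1).take j) _ (LSP_start q.2.length p))
  refine h10.trans ?_
  have h11 : q.2.length ≤ sz q := by
    have := LSP_len q.2
    have h12 : sz q = 2 * sz q.1 + sz q.2 + 1 := sz_pair q
    omega
  simp only [eval_mul, eval_add, eval_X, eval_C, eval_one]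
  gcongr

theorem p_LSP (hMDV : Stmt_MDV) : Stmt_LSP := by
  intro B p hp
  obtain ⟨-, -, haxp, hevn, hfvl, -, -, -⟩ := hMDV B p
  have hg := LSP_pg hfvl
  have hP := LSP_pP hg
  have hH := LSP_pH hP
  have h9 := LSP_pfold hp (LSP_plss hP (LSP_pR hH) (LSP_pN hg hH haxp)) (LSP_pst hevn)
  exact PolyF.snd (PolyF.headD h9 (PolyF.const ((0 : ℕ), ([] : List ℕ))))

end Pool.EV
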