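import Pool.Agent.Work.MP_cb380d_ev.InterfaceF

/-! # Block LYC -/

open Pool.IC Pool.GL Pool.TL Polynomial

namespace Pool.EV

theorem LYC_nmv (W n : ℕ) : nmv (W + 1) n = nmv W n * nmv W n := by
  unfold nmv
  rw [pow_succ, pow_mul, sq]

theorem LYC_le (W n : ℕ) (hn : 1 ≤ n) : n ≤ nmv W n := by
  unfold nmv
  exact Nat.le_self_pow (by positivity) n

theorem LYC_zero (n : ℕ) (F : List Lits) (h : ∀ T ∈ F, TOK n 0 T) (x y : Str) :
    dev x F = dev y F := by
  have key : ∀ z : Str, dev z F = F.any fun _ => true := by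
    intro z
    unfold dev
    induction F with
    | nil => rfl
    | cons T F ih =>
      have h1 : T = [] := List.length_eq_zero_iff.1 (Nat.le_zero.1 (h T List.mem_cons_self).1)
      rw [List.any_cons, List.any_cons, ih fun T' hT' => h T' (List.mem_cons_of_mem _ hT'), h1]
      rfl
  rw [key x, key y]

/-- the second case -/
theorem LYC_two (hCUB : Stmt_CUB) (hRDC : Stmt_RDC) (n N t' h : ℕ) (kb : List ℕ × Str)
    (F : List Lits) (K : List ℕ) (hK : K.length < h) (φ : Str → Str)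
    (hφl : ∀ u : Str, u.length = n → (φ u).length = N)
    (hφi : ∀ q, ∃ i : ℕ, ∀ u u' : Str, u.length = n → u'.length = n →
      u.getD i false = u'.getD i false → (φ u).getD q false = (φ u').getD q false)
    (hF : ∀ T ∈ F, ∀ l ∈ T, l.1 < N * N)
    (hJ : ∀ α ∈ cub h K, Jun t' n fun u => dev (φ u) (rdn N kb α F)) :
    Jun (h + 2 ^ h * t') n fun u => dev (plug kb (φ u)) F := by
  classical
  choose i hi using hφi
  have hJ' : ∀ α, ∃ J : Finset ℕ, α ∈ cub h K → J.card ≤ t' ∧ ∀ x y : Str, x.length = n →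
      y.length = n → (∀ i ∈ J, x.getD i false = y.getD i false) →
      dev (φ x) (rdn N kb α F) = dev (φ y) (rdn N kb α F) := by
    intro α
    by_cases hα : α ∈ cub h K
    · obtain ⟨J, h1, h2⟩ := hJ α hα
      exact ⟨J, fun _ => ⟨h1, h2⟩⟩
    · exact ⟨∅, fun h' => absurd h' hα⟩
  choose JJ hJJ using hJ'
  refine ⟨(K.map i).toFinset ∪ (cub h K).toFinset.biUnion JJ, ?_, ?_⟩
  · refine (Finset.card_union_le _ _).trans (Nat.add_le_add ?_ ?_)
    · refine (List.toFinset_card_le _).trans ?_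
      rw [List.length_map]
      exact hK.le
    · refine (Finset.card_biUnion_le_card_mul _ _ t' fun α hα => ?_).trans ?_
      · exact (hJJ α (List.mem_toFinset.1 hα)).1
      · exact Nat.mul_le_mul_right _ ((List.toFinset_card_le _).trans (hCUB.1 h K))
  · intro x y hx hy hxy
    have hq : ∀ q ∈ K, (φ x).getD q false = (φ y).getD q false := by
      intro q hq
      apply hi q x y hx hy
      apply hxy
      apply Finset.mem_union_left
      rw [List.mem_toFinset]
      exact List.mem_map_of_mem hq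
    obtain ⟨α, hα⟩ : ∃ α, α = K.map fun q => (q, (φ x).getD q false) := ⟨_, rfl⟩
    have hmem : α ∈ cub h K := by
      rw [hα]
      exact (hCUB.2.1 h K hK.le).2 (φ x)
    have hx1 : ∀ l ∈ α, (φ x).getD l.1 false = l.2 := by
      intro l hl
      rw [hα] at hl
      obtain ⟨q, -, rfl⟩ := List.mem_map.1 hl
      rfl
    have hy1 : ∀ l ∈ α, (φ y).getD l.1 false = l.2 := by
      intro l hl
      rw [hα] at hl
      obtain ⟨q, hq', rfl⟩ := List.mem_map.1 hl
      exact (hq q hq').symm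
    have e1 := hRDC N kb α F (φ x) (hφl x hx) hF hx1
    have e2 := hRDC N kb α F (φ y) (hφl y hy) hF hy1
    change dev (plug kb (φ x)) F = dev (plug kb (φ y)) F
    rw [← e1, ← e2]
    refine (hJJ α hmem).2 x y hx hy fun j hj => ?_
    apply hxy
    apply Finset.mem_union_right
    rw [Finset.mem_biUnion]
    exact ⟨α, List.mem_toFinset.2 hmem, hj⟩

theorem p_LYC (hSTC : Stmt_STC) (hCUB : Stmt_CUB) (hRDC : Stmt_RDC) (hNXC : Stmt_NXC)
    (hPHC : Stmt_PHC) : Stmt_LYC := by
  intro t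
  induction t with
  | zero =>
    intro r
    refine ⟨[], 0, 1, le_rfl, fun n _ Fs _ hFs => ⟨trivial, fun F hF => ?_⟩⟩
    exact ⟨∅, le_rfl, fun x y _ _ _ => LYC_zero _ F (hFs F hF) _ _⟩
  | succ t ih =>
    intro r
    obtain ⟨h, a1, ha1, hstc⟩ := hSTC (t + 1) (2 * r)
    obtain ⟨ps, t', a2, ha2, hps⟩ := ih (2 * r + 1)
    refine ⟨(t + 1, 2 * r, h) :: ps, h + 2 ^ h * t', max a1 a2, le_max_of_le_left ha1, ?_⟩
    intro n hn Fs hlen hFs
    obtain ⟨N, hN⟩ : ∃ N, N = nmv ps.length n := ⟨_, rfl⟩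
    have hn1 : 1 ≤ n := ha1.trans ((le_max_left _ _).trans hn)
    have hnN : n ≤ N := by
      rw [hN]
      exact LYC_le _ n hn1
    have hNN : nmv ((t + 1, 2 * r, h) :: ps).length n = N * N := by
      rw [List.length_cons, LYC_nmv, hN]
    rw [hNN] at hlen hFs
    obtain ⟨h2h, hstc'⟩ := hstc N (((le_max_left _ _).trans hn).trans hnN)
    have hlen' : Fs.length ≤ N ^ (2 * r) := by
      rw [pow_mul, sq]
      exact hlen
    obtain ⟨c1, c2, c3⟩ := hstc' Fs hlen' hFs
    obtain ⟨kb, hkb⟩ : ∃ kb, kb = stg (t + 1) (2 * r) h N Fs := ⟨_, rfl⟩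
    rw [← hkb] at c1 c2 c3
    obtain ⟨Fs', hFs'⟩ : ∃ Fs', Fs' = nxt (t + 1) (2 * r) h N kb Fs := ⟨_, rfl⟩
    obtain ⟨d1, d2⟩ := hNXC t (2 * r) h N kb Fs hFs c3
    rw [← hFs'] at d1 d2
    have d1' : Fs'.length ≤ N ^ (2 * r + 1) := by
      refine d1.trans ?_
      rw [pow_succ, mul_comm]
      exact Nat.mul_le_mul hlen' h2h
    obtain ⟨i1, i2⟩ := hps n ((le_max_right _ _).trans hn) Fs' (by rw [← hN]; exact d1')
      (by rw [← hN]; exact d2)
    have hsts : sts ((t + 1, 2 * r, h) :: ps) n Fs = kb :: sts ps n Fs' := by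
      rw [hFs', hkb, hN]
      rfl
    have hl : (sts ps n Fs').length = ps.length := hPHC.2.2.2.2 ps n Fs'
    rw [hsts]
    refine ⟨⟨?_, i1⟩, fun F hF => ?_⟩
    · rw [hl, ← hN]
      exact c1
    · have hphi : ∀ u, phi (kb :: sts ps n Fs') u = plug kb (phi (sts ps n Fs') u) := fun u => rfl
      have hφl : ∀ u : Str, u.length = n → (phi (sts ps n Fs') u).length = N := by
        intro u hu
        rw [hPHC.1, hl, hu, hN]
      simp only [hphi]
      by_cases hty : szA (t + 1) (2 * r) h N ≤ (fam F).length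
      · refine ⟨∅, Nat.zero_le _, fun x y hx hy _ => ?_⟩
        change dev (plug kb (phi (sts ps n Fs') x)) F = dev (plug kb (phi (sts ps n Fs') y)) F
        rw [c2 F hF hty _ (hφl x hx), c2 F hF hty _ (hφl y hy)]
      · refine LYC_two hCUB hRDC n N t' h kb F (kin N kb.1 (hs (szA (t + 1) (2 * r) h N) F))
          (c3 F hF) (phi (sts ps n Fs')) hφl (fun q => hPHC.2.1 _ n q)
          (fun T hT l hl => (hFs F hF T hT).2.2 l hl) fun α hα => ?_
        apply i2
        rw [hFs']
        unfold nxt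
        rw [List.mem_flatMap]
        refine ⟨F, ?_, List.mem_map_of_mem hα⟩
        rw [List.mem_filter]
        exact ⟨hF, decide_eq_true (not_le.1 hty)⟩

end Pool.EV
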