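import Pool.Agent.Work.MP_cb380d_ev.InterfaceG

set_option autoImplicit false

/-! # Block MA6: the main part -/

open Pool.IC Pool.GL Pool.TL Polynomial

namespace Pool.EV

theorem p_MA6 (hMAI : Stmt_MAI) (hEVA : Stmt_EVA) (hEVX : Stmt_EVX) (hEVC : Stmt_EVC)
    (hCNX : Stmt_CNX) (hLNI : Stmt_LNI) (hNP3 : Stmt_NP3) (hEV0 : Stmt_EV0) (hCER : Stmt_CER) :
    Stmt_MA6 := by
  intro B D hD
  refine ⟨hNP3 B D hD, fun A g hK hG => ?_⟩
  have hg : PolyF B g := (polyFun_iff_polyF g).1 hK.1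
  have key : Evasive B g → ∃ f, Strong B D A f := by
    intro hE
    have hgv : PolyF B (fun v : Str => g (true :: false :: v)) :=
      PolyF.comp (f := g) (g := fun v : Str => true :: false :: v) hg (by fun_prop)
    refine (hMAI B D hD).2 A (fun v => g (true :: false :: v))
      ⟨(polyFun_iff_polyF _).2 hgv, fun x => ?_⟩ (hEV0 B g hE)
    have hc : con (true :: false :: x) = x := hCNX.2.1 x
    show x ∈ lang D ↔ g (true :: false :: x) ∈ A
    rw [← hK.2 (true :: false :: x)]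
    show x ∈ lang D ↔ con (true :: false :: x) ∈ lang D
    rw [hc]
  rcases hG with h | h | h | h | h
  · exact key (hEVA B g hg h)
  · exact key (hEVX B g hg h)
  · exact key (hEVC B g hg h)
  · obtain ⟨φ, a, hφ, hcon, hcert⟩ := hCER B g h
    have hgφ : PolyF B (fun v : Str => g (φ v)) := PolyF.comp (f := g) (g := φ) hg hφ
    refine (hMAI B D hD).2 A (fun v => g (φ v)) ⟨(polyFun_iff_polyF _).2 hgφ, fun x => ?_⟩
      (hEVX B _ hgφ hcert)
    show x ∈ lang D ↔ g (φ x) ∈ A
    rw [← hK.2 (φ x)]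
    show x ∈ lang D ↔ con (φ x) ∈ lang D
    rw [hcon x]
    exact (hLNI D x a).symm
  · exact key h

end Pool.EV
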