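import Pool.Agent.Work.MP_cb380d_ev.InterfaceB

open Pool.IC Pool.GL Pool.TL Polynomial

namespace Pool.EV

theorem MAI_size {B : Set Str} {g : Str → Str} (hg : PolyF B g) :
    ∃ p : Polynomial ℕ, ∀ z : Str, (g z).length ≤ p.eval z.length := by
  obtain ⟨q, hq⟩ := hg.size
  refine ⟨q.comp (Polynomial.C 4 * Polynomial.X), fun z => ?_⟩
  have h := hq z
  rw [sz_str, sz_str] at h
  rw [Polynomial.eval_comp, Polynomial.eval_mul, Polynomial.eval_C, Polynomial.eval_X]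
  omega

theorem p_MAI (hFFF : Stmt_FFF) (hESC : Stmt_ESC) (hNPL : Stmt_NPL) (hPFF : Stmt_PFF) :
    Stmt_MAI := by
  intro B D hD
  refine ⟨hNPL B D hD, fun A g hK hE => ?_⟩
  have hg : PolyF B g := (polyFun_iff_polyF g).1 hK.1
  obtain ⟨p, hp⟩ := MAI_size hg
  obtain ⟨esc, t, a, E, hesc, hE2, ha, hall⟩ := hESC B g p hE
  have hsep : Sep g D := by
    intro z z' hzz' he
    have h1 := hK.2 z
    have h2 := hK.2 z'
    rw [he] at h1
    by_cases hz : z ∈ lang D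
    · exact (hzz'.1 hz) (h2.2 (h1.1 hz))
    · have hz' : z' ∈ lang D := by
        by_contra hcon
        exact hz (hzz'.2 hcon)
      exact hz (h1.2 (h2.1 hz'))
  obtain ⟨h1, h2, h3⟩ := hFFF g esc D t a E p hsep hE2 ha hp hall
  obtain ⟨hf, hf'⟩ := hPFF B g esc t a E hg hesc
  refine ⟨ff g esc t a E, ⟨(polyFun_iff_polyF _).2 hf, fun x => ?_⟩, h2, fi g esc t a E,
    (polyFun_iff_polyF _).2 hf', h3⟩
  rw [← h1 x]
  exact hK.2 _

end Pool.EV
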