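import Pool.Agent.Work.MP_cb380d_ev.InterfaceD

open Pool.IC Pool.GL Pool.TL Polynomial

namespace Pool.EV

/-- one step of the division with remainder -/
def MDV_step (m : ℕ) (s : ℕ × ℕ) : ℕ × ℕ := if s.2 + 1 = m then (s.1 + 1, 0) else (s.1, s.2 + 1)

theorem MDV_iter (m a : ℕ) : (MDV_step m)^[a] (0, 0) = (a / m, a % m) := by
  induction a with
  | zero => simp
  | succ a ih =>
    rw [Function.iterate_succ_apply', ih]
    unfold MDV_step
    rcases Nat.eq_zero_or_pos m with hm | hm
    · subst hm
      simp
    · have hd := Nat.div_add_mod a m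
      have hlt := Nat.mod_lt a hm
      by_cases h : a % m + 1 = m
      · rw [if_pos h]
        have h1 : a + 1 = m * (a / m + 1) := by
          calc a + 1 = m * (a / m) + a % m + 1 := by rw [hd]
            _ = m * (a / m) + (a % m + 1) := by ring
            _ = m * (a / m) + m := by rw [h]
            _ = m * (a / m + 1) := by ring
        rw [h1, Nat.mul_div_cancel_left _ hm, Nat.mul_mod_right]
      · rw [if_neg h]
        have h1 : a + 1 = m * (a / m) + (a % m + 1) := by
          calc a + 1 = m * (a / m) + a % m + 1 := by rw [hd]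
            _ = m * (a / m) + (a % m + 1) := by ring
        have h2 : a % m + 1 < m := by omega
        have h3 : (a + 1) / m = a / m := by
          conv_lhs => rw [h1]
          rw [Nat.mul_add_div hm, Nat.div_eq_of_lt h2, add_zero]
        have h4 : (a + 1) % m = a % m + 1 := by
          conv_lhs => rw [h1]
          rw [Nat.mul_add_mod, Nat.mod_eq_of_lt h2]
        rw [h3, h4]

theorem MDV_pair (B : Set Str) (m : ℕ) : PolyF B (fun a : ℕ => (a / m, a % m)) := by
  have h : PolyF B (fun a : ℕ => (MDV_step m)^[a] (0, 0)) := by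
    refine PolyF.iterate_add (n := fun a : ℕ => a) (g := fun _ : ℕ => ((0, 0) : ℕ × ℕ))
      (h := fun _ s => MDV_step m s) (by fun_prop) (by fun_prop) ?_ (Polynomial.C 2) ?_
    · unfold MDV_step
      fun_prop
    · intro a s
      rw [Polynomial.eval_C]
      unfold MDV_step
      split_ifs
      · simp only [sz_pair, sz_nat]
        omega
      · simp only [sz_pair, sz_nat]
        omega
  exact h.congrF fun a => MDV_iter m a

theorem MDV_zip (a p : ℕ) (u v : List ℕ) : axp p a u v =
    (List.range (u.length - (u.length - v.length))).map fun j =>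
      (a * u.getD j 0 + v.getD j 0) % p := by
  unfold axp
  refine List.ext_getElem ?_ fun i h1 h2 => ?_
  · rw [List.length_zipWith, List.length_map, List.length_range]
    omega
  · rw [List.getElem_zipWith, List.getElem_map, List.getElem_range]
    rw [List.length_zipWith] at h1
    rw [List.getD_eq_getElem _ _ (by omega), List.getD_eq_getElem _ _ (by omega)]

theorem p_MDV (hPLF : Stmt_PLF) : Stmt_MDV := by
  intro B m
  have hpair := MDV_pair B m
  have hmod : PolyF B (fun a : ℕ => a % m) := PolyF.snd hpair
  have hdiv : PolyF B (fun a : ℕ => a / m) := PolyF.fst hpair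
  refine ⟨hmod, hdiv, ?_, ?_, ?_, ?_, ?_, ?_⟩
  · have h1 : PolyF B (fun q : ℕ × List ℕ × List ℕ =>
        (List.range (q.2.1.length - (q.2.1.length - q.2.2.length))).map fun j =>
          (q.1 * q.2.1.getD j 0 + q.2.2.getD j 0) % m) := by
      refine PolyF.map (f := fun (q : ℕ × List ℕ × List ℕ) j =>
        (q.1 * q.2.1.getD j 0 + q.2.2.getD j 0) % m) (by fun_prop) ?_
      exact hmod.comp (g := fun p : (ℕ × List ℕ × List ℕ) × ℕ =>
        p.1.1 * p.1.2.1.getD p.2 0 + p.1.2.2.getD p.2 0) (by fun_prop)
    exact h1.congrF fun q => (MDV_zip q.1 m q.2.1 q.2.2).symm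
  · unfold evn
    refine PolyF.map (f := fun (q : ℕ × ℕ) j => if j = q.2 then 1 else 0) (by fun_prop) ?_
    fun_prop
  · have h1 : PolyF B (fun q : List (List ℕ) × ℕ × List ℕ =>
        ((List.range q.1.length).map fun t => q.2.2.getD t 0 * (q.1.getD t []).getD q.2.1 0).sum) := by
      refine PolyF.sum ?_
      refine PolyF.map (f := fun (q : List (List ℕ) × ℕ × List ℕ) t =>
        q.2.2.getD t 0 * (q.1.getD t []).getD q.2.1 0) (by fun_prop) ?_
      fun_prop
    exact hmod.comp h1
  · unfold tsum
    refine PolyF.sum ?_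
    refine PolyF.map (f := fun (q : List (List ℕ) × List (Option (List ℕ)) × List ℕ × ℕ) t =>
      if q.2.1.getD t none = some q.2.2.1 then (q.1.getD t []).getD q.2.2.2 0 else 0)
      (by fun_prop) ?_
    fun_prop
  · unfold ssum
    refine PolyF.sum ?_
    refine PolyF.map (f := fun (q : List (List ℕ) × List Bool × ℕ) t =>
      if q.2.1.getD t false = true then (q.1.getD t []).getD q.2.2 0 else 0) (by fun_prop) ?_
    fun_prop
  · unfold blk
    fun_prop

end Pool.EV
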