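import Pool.Agent.Work.MP_cb380d_ev.InterfaceA

open Pool.IC Pool.GL Pool.TL Polynomial

namespace Pool.EV

theorem p_MEM (hHVA : Stmt_HVA) (hHVS : Stmt_HVS) (hRNI : Stmt_RNI) : Stmt_MEM := by
  intro g esc ch ν K D hE hS
  obtain ⟨hFr, hhv, -, hT⟩ := hRNI g esc ch ν K (ν - 1) D hE hS le_rfl
  generalize hs : rn g esc ch ν K (ν - 1) = s at hFr hhv hT
  have hhv' : hv s.1 = false :: s.2.2 := by
    rw [hhv, Nat.sub_self, List.replicate_zero, List.append_nil]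
  obtain ⟨hν, hK, hesc⟩ := hE
  obtain ⟨hlen, -, hblk⟩ := hHVA.1 ν K s.1 hFr
  obtain ⟨hle, hiff⟩ := hblk 0 hν
  have h0 : (hv s.1)[0]? = some false := by rw [hhv']; rfl
  obtain ⟨h1, h2, h3, -⟩ := hesc s.1 s.2.1 (lo ν K 0) hlen (by omega) hle (hiff.1 h0)
  obtain ⟨-, h5⟩ := hHVS ν K 0 s.1 (es esc s.1 s.2.1 (lo ν K 0) K) hFr hν h0 h1 h2 h3
  have hz : zf g esc ch ν K = es esc s.1 s.2.1 (lo ν K 0) K := by rw [zf, hs]
  rw [hz]
  have h6 : hv (es esc s.1 s.2.1 (lo ν K 0) K) = true :: s.2.2 := by rw [h5, hhv']; rfl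
  show (if (hv (es esc s.1 s.2.1 (lo ν K 0) K)).headD false = true then
    dcd (hv (es esc s.1 s.2.1 (lo ν K 0) K)).tail ∈ D else
    parity (hv (es esc s.1 s.2.1 (lo ν K 0) K)).tail = true) ↔ dcd s.2.2 ∈ D
  rw [h6]
  simp

end Pool.EV
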