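import Pool.Agent.Work.MP_cb380d_ev.InterfaceC

open Pool.IC Pool.GL Pool.TL Polynomial

namespace Pool.EV

open MvPolynomial in
theorem MVP_mono {N : ℕ} (u : Fin N → ZMod 2) (s : Fin N →₀ ℕ) (a : ZMod 2) :
    ∃ Q : MvPolynomial (Fin N) (ZMod 2),
      (Q = 0 ∨ Q.totalDegree + 1 ≤ (monomial s a).totalDegree) ∧
      ∀ x : Fin N → ZMod 2, MvPolynomial.eval (x + u) (monomial s a) =
        MvPolynomial.eval x (monomial s a) + MvPolynomial.eval x Q := by
  refine MvPolynomial.induction_on_monomial (motive := fun p => ∃ Q : MvPolynomial (Fin N) (ZMod 2),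
      (Q = 0 ∨ Q.totalDegree + 1 ≤ p.totalDegree) ∧
      ∀ x : Fin N → ZMod 2, MvPolynomial.eval (x + u) p =
        MvPolynomial.eval x p + MvPolynomial.eval x Q) ?_ ?_ s a
  · intro a
    exact ⟨0, Or.inl rfl, fun x => by simp⟩
  · intro p n ⟨Q, hQ, he⟩
    by_cases hp : p = 0
    · exact ⟨0, Or.inl rfl, fun x => by simp [hp]⟩
    refine ⟨Q * MvPolynomial.X n + MvPolynomial.C (u n) * (p + Q), Or.inr ?_, ?_⟩
    · have : Fact (Nat.Prime 2) := ⟨Nat.prime_two⟩
      rw [MvPolynomial.totalDegree_mul_of_isDomain hp (MvPolynomial.X_ne_zero n),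
        MvPolynomial.totalDegree_X]
      have h1 : (Q * MvPolynomial.X n).totalDegree ≤ p.totalDegree := by
        rcases hQ with h | h
        · rw [h]; simp
        · refine (MvPolynomial.totalDegree_mul _ _).trans ?_
          have : (MvPolynomial.X n : MvPolynomial (Fin N) (ZMod 2)).totalDegree ≤ 1 := by
            rw [MvPolynomial.totalDegree_X]
          omega
      have h2 : (p + Q).totalDegree ≤ p.totalDegree := by
        refine (MvPolynomial.totalDegree_add _ _).trans ?_
        rcases hQ with h | h
        · rw [h]; simp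
        · exact max_le le_rfl (by omega)
      have h3 : (MvPolynomial.C (u n) * (p + Q)).totalDegree ≤ p.totalDegree := by
        refine (MvPolynomial.totalDegree_mul _ _).trans ?_
        rw [MvPolynomial.totalDegree_C]
        omega
      have h4 := MvPolynomial.totalDegree_add (Q * MvPolynomial.X n) (MvPolynomial.C (u n) * (p + Q))
      have h5 := max_le h1 h3
      omega
    · intro x
      rw [map_mul, he x]
      simp only [map_mul, map_add, MvPolynomial.eval_X, MvPolynomial.eval_C, Pi.add_apply]
      ring

open MvPolynomial in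
theorem MVP_step {N d : ℕ} (u : Fin N → ZMod 2) (P : MvPolynomial (Fin N) (ZMod 2))
    (hP : P.totalDegree ≤ d + 1) : ∃ Q : MvPolynomial (Fin N) (ZMod 2), Q.totalDegree ≤ d ∧
      ∀ x : Fin N → ZMod 2, MvPolynomial.eval (x + u) P =
        MvPolynomial.eval x P + MvPolynomial.eval x Q := by
  choose Q hQ he using fun s => MVP_mono u s (P.coeff s)
  refine ⟨∑ s ∈ P.support, Q s, ?_, ?_⟩
  · refine MvPolynomial.totalDegree_finsetSum_le ?_
    intro s hs
    rcases hQ s with h | h
    · rw [h]; simp
    · have h1 : (monomial s (P.coeff s)).totalDegree ≤ P.totalDegree := by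
        rw [MvPolynomial.totalDegree_monomial _ (MvPolynomial.mem_support_iff.1 hs)]
        exact MvPolynomial.le_totalDegree hs
      omega
  · intro x
    have h1 : ∀ y : Fin N → ZMod 2, MvPolynomial.eval y P =
        ∑ s ∈ P.support, MvPolynomial.eval y (monomial s (P.coeff s)) := by
      intro y
      rw [← map_sum, MvPolynomial.support_sum_monomial_coeff]
    rw [h1 (x + u), h1 x, map_sum, ← Finset.sum_add_distrib]
    exact Finset.sum_congr rfl fun s _ => he s x

theorem MVP_getD {N : ℕ} {z u : Str} (hz : z.length = N) (hu : u.length = N) (i : Fin N) :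
    (add z u).getD i false = xor (z.getD i false) (u.getD i false) := by
  have h1 : (i : ℕ) < (add z u).length := by
    unfold add
    rw [List.length_zipWith, hz, hu, min_self]
    exact i.2
  rw [List.getD_eq_getElem _ _ h1, List.getD_eq_getElem _ _ (by rw [hz]; exact i.2),
    List.getD_eq_getElem _ _ (by rw [hu]; exact i.2)]
  exact List.getElem_zipWith

theorem MVP_len {N : ℕ} {z u : Str} (hz : z.length = N) (hu : u.length = N) :
    (add z u).length = N := by
  unfold add
  rw [List.length_zipWith, hz, hu, min_self]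

theorem MVP_xor (a b : Bool) : (if xor a b then (1 : ZMod 2) else 0) =
    (if a then 1 else 0) + if b then 1 else 0 := by
  cases a <;> cases b <;> decide

theorem p_MVP : Stmt_MVP := by
  intro N d
  induction d with
  | zero =>
    rintro F ⟨P, hP, he⟩
    intro z z' hz hz'
    have h1 : P = MvPolynomial.C (P.coeff 0) :=
      MvPolynomial.totalDegree_eq_zero_iff_eq_C.1 (Nat.le_zero.1 hP)
    have h2 := he z hz
    have h3 := he z' hz'
    rw [h1, MvPolynomial.eval_C] at h2 h3
    rw [h2] at h3
    revert h3
    cases F z <;> cases F z' <;> simp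
  | succ d ih =>
    rintro F ⟨P, hP, he⟩
    intro u hu
    obtain ⟨Q, hQ, hQe⟩ := MVP_step (fun i : Fin N => if u.getD i false then (1 : ZMod 2) else 0) P hP
    refine ih _ ⟨Q, hQ, ?_⟩
    intro z hz
    have h1 := hQe (fun i : Fin N => if z.getD i false then (1 : ZMod 2) else 0)
    have h2 : ((fun i : Fin N => if z.getD i false then (1 : ZMod 2) else 0) +
        (fun i : Fin N => if u.getD i false then (1 : ZMod 2) else 0)) =
        (fun i : Fin N => if (add z u).getD i false then (1 : ZMod 2) else 0) := by
      funext i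
      rw [Pi.add_apply, MVP_getD hz hu, MVP_xor]
    rw [h2, he _ (MVP_len hz hu), he z hz] at h1
    rw [MVP_xor, h1]
    have h3 : (if F z = true then (1 : ZMod 2) else 0) + (if F z = true then (1 : ZMod 2) else 0) = 0 := by
      cases F z <;> decide
    linear_combination -h3

end Pool.EV
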