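import Pool.Agent.Work.MP_cb380d_ev.InterfaceG

/-! Block NP3 (helper55). -/

open Pool.IC Pool.GL Pool.TL Polynomial

namespace Pool.EV

theorem p_NP3 (hNPD : Stmt_NPD) (hNPE : Stmt_NPE) (hNPL : Stmt_NPL) (hCNX : Stmt_CNX)
    (hPSP : Stmt_PSP) : Stmt_NP3 := by
  intro B D hD
  obtain ⟨V, r, hV, hr, hVD⟩ := hNPD B (lang D) (hNPL B D hD)
  obtain ⟨hcon, -⟩ := hPSP B
  refine hNPE B (lang3 D) (fun p => V (p.1, con p.2)) r ?_ ?_ ?_
  · fun_prop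
  · intro y z h
    exact (hr _ _ h).trans (poly_mono r (hCNX.2.2 z))
  · intro z
    exact hVD (con z)

end Pool.EV
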