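import Pool.Agent.Work.MP_cb380d_ev.InterfaceB

/-! Block NPL (helper20). -/

open Pool.IC Pool.GL Pool.TL Polynomial

namespace Pool.EV

theorem NPL_lead (z : Str) : lead z ≤ z.length := by
  induction z with
  | nil => exact Nat.le_refl _
  | cons b l ih =>
    cases b
    · exact Nat.zero_le _
    · rw [lead, List.length_cons]; omega

theorem NPL_dcd (w : Str) : (dcd w).length ≤ w.length := by
  unfold dcd rst
  rw [List.length_take, List.length_drop]
  omega

theorem NPL_hv (z : Str) : (hv z).length ≤ z.length := by
  unfold hv
  rw [List.length_map, List.length_range]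
  exact NPL_lead z

theorem p_NPL (hPLF : Stmt_PLF) (hNPD : Stmt_NPD) (hNPE : Stmt_NPE) : Stmt_NPL := by
  intro B D hD
  obtain ⟨V, r, hV, hr, hVD⟩ := hNPD B D hD
  obtain ⟨-, -, hhv, hdcd, hpar, -⟩ := hPLF B
  refine hNPE B (lang D) (fun p => bif (hv p.2).headD false then V (p.1, dcd (hv p.2).tail) else
    (p.1.isEmpty && parity (hv p.2).tail)) r ?_ ?_ ?_
  · fun_prop
  · intro y z h
    simp only at h
    cases hh : (hv z).headD false with
    | true =>
      rw [hh, cond_true] at h
      refine (hr _ _ h).trans (poly_mono r ?_)
      refine (NPL_dcd _).trans ?_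
      rw [List.length_tail]
      have := NPL_hv z
      omega
    | false =>
      rw [hh, cond_false, Bool.and_eq_true] at h
      have h1 : y = [] := List.isEmpty_iff.1 h.1
      rw [h1]
      exact Nat.zero_le _
  · intro z
    unfold lang
    cases hh : (hv z).headD false with
    | true =>
      show (if (hv z).headD false = true then dcd (hv z).tail ∈ D
        else parity (hv z).tail = true) ↔ ∃ y, (bif (hv z).headD false then
          V (y, dcd (hv z).tail) else (y.isEmpty && parity (hv z).tail)) = true
      rw [hh, if_pos rfl, hVD]
      exact Iff.rfl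
    | false =>
      show (if (hv z).headD false = true then dcd (hv z).tail ∈ D
        else parity (hv z).tail = true) ↔ ∃ y : Str, (bif (hv z).headD false then
          V (y, dcd (hv z).tail) else (y.isEmpty && parity (hv z).tail)) = true
      rw [hh, if_neg Bool.false_ne_true]
      constructor
      · intro h
        refine ⟨[], ?_⟩
        rw [cond_false, h]
        rfl
      · rintro ⟨y, hy⟩
        rw [cond_false, Bool.and_eq_true] at hy
        exact hy.2

end Pool.EV
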