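import Pool.Agent.Work.MP_cb380d_ev.InterfaceF

/-!
# MP_cb380d_lc: block NXC
-/

open Pool.IC Pool.GL Pool.TL Polynomial

namespace Pool.EV

theorem NXC_flatMap_length {α β : Type*} (l : List α) (f : α → List β) (c : ℕ)
    (h : ∀ x ∈ l, (f x).length ≤ c) : (l.flatMap f).length ≤ c * l.length := by
  induction l with
  | nil => simp
  | cons a l ih =>
    rw [List.flatMap_cons, List.length_append, List.length_cons]
    have h1 := h a (by simp)
    have h2 := ih fun x hx => h x (by simp [hx])
    calc (f a).length + (l.flatMap f).length ≤ c + c * l.length := Nat.add_le_add h1 h2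
      _ = c * (l.length + 1) := by ring

theorem p_NXC (hCUB : Stmt_CUB) (hRDT : Stmt_RDT) : Stmt_NXC := by
  intro t r h n kb Fs hT hk
  refine ⟨?_, ?_⟩
  · unfold nxt
    refine (NXC_flatMap_length _ _ (2 ^ h) ?_).trans ?_
    · intro F _
      rw [List.length_map]
      exact hCUB.1 h _
    · exact Nat.mul_le_mul_left _ (List.length_filter_le _ _)
  · intro F hF
    unfold nxt at hF
    rw [List.mem_flatMap] at hF
    obtain ⟨F0, hF0, hF1⟩ := hF
    rw [List.mem_filter] at hF0
    obtain ⟨hF0m, hF0l⟩ := hF0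
    rw [List.mem_map] at hF1
    obtain ⟨α, hα, rfl⟩ := hF1
    have h1 : (fam F0).length < szA (t + 1) r h n := of_decide_eq_true hF0l
    exact hRDT n t (szA (t + 1) r h n) h kb α F0 (hT F0 hF0m) h1.le (hk F0 hF0m).le hα

end Pool.EV
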