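import Pool.Agent.Work.MP_cb380d_ev.InterfaceD

/-!
# Block NZB: bounds
-/

open Pool.IC Pool.GL Pool.TL Polynomial

namespace Pool.EV

/-- polynomially bounded functions -/
def NZB_P (f : ℕ → ℕ) : Prop := ∃ C : ℕ, ∀ M, f M ≤ (M + 2) ^ C

theorem NZB_const (c : ℕ) : NZB_P (fun _ => c) :=
  ⟨c, fun M => (Nat.lt_two_pow_self (n := c)).le.trans (Nat.pow_le_pow_left (by omega) c)⟩

theorem NZB_id : NZB_P (fun M => M) := ⟨1, fun M => by simp⟩

theorem NZB_mul {f g : ℕ → ℕ} (hf : NZB_P f) (hg : NZB_P g) : NZB_P (fun M => f M * g M) := by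
  obtain ⟨a, ha⟩ := hf
  obtain ⟨b, hb⟩ := hg
  refine ⟨a + b, fun M => ?_⟩
  rw [pow_add]
  exact Nat.mul_le_mul (ha M) (hb M)

theorem NZB_pow {f : ℕ → ℕ} (hf : NZB_P f) (n : ℕ) : NZB_P (fun M => f M ^ n) := by
  obtain ⟨a, ha⟩ := hf
  refine ⟨a * n, fun M => ?_⟩
  rw [pow_mul]
  exact Nat.pow_le_pow_left (ha M) n

theorem NZB_add {f g : ℕ → ℕ} (hf : NZB_P f) (hg : NZB_P g) : NZB_P (fun M => f M + g M) := by
  obtain ⟨a, ha⟩ := hf
  obtain ⟨b, hb⟩ := hg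
  refine ⟨max a b + 1, fun M => ?_⟩
  have h1 : (M + 2) ^ a ≤ (M + 2) ^ max a b := Nat.pow_le_pow_right (by omega) (le_max_left _ _)
  have h2 : (M + 2) ^ b ≤ (M + 2) ^ max a b := Nat.pow_le_pow_right (by omega) (le_max_right _ _)
  calc f M + g M ≤ (M + 2) ^ max a b + (M + 2) ^ max a b :=
        add_le_add ((ha M).trans h1) ((hb M).trans h2)
    _ = (M + 2) ^ max a b * 2 := by ring
    _ ≤ (M + 2) ^ max a b * (M + 2) := Nat.mul_le_mul_left _ (by omega)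
    _ = (M + 2) ^ (max a b + 1) := by rw [pow_succ]

theorem NZB_comp {f g : ℕ → ℕ} (hf : NZB_P f) (hg : NZB_P g) : NZB_P (fun M => f (g M)) := by
  obtain ⟨a, ha⟩ := hf
  obtain ⟨b, hb⟩ := hg
  refine ⟨(b + 2) * a, fun M => ?_⟩
  have h1 : 1 ≤ (M + 2) ^ b := Nat.one_le_pow _ _ (by omega)
  have h2 : 4 ≤ (M + 2) ^ 2 := by
    have h0 := Nat.pow_le_pow_left (show 2 ≤ M + 2 by omega) 2
    simpa using h0
  have h3 : g M + 2 ≤ (M + 2) ^ (b + 2) := by
    calc g M + 2 ≤ (M + 2) ^ b + 2 := Nat.add_le_add_right (hb M) 2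
      _ ≤ (M + 2) ^ b * 4 := by omega
      _ ≤ (M + 2) ^ b * (M + 2) ^ 2 := Nat.mul_le_mul_left _ h2
      _ = (M + 2) ^ (b + 2) := by rw [pow_add]
  calc f (g M) ≤ (g M + 2) ^ a := ha _
    _ ≤ ((M + 2) ^ (b + 2)) ^ a := Nat.pow_le_pow_left h3 a
    _ = (M + 2) ^ ((b + 2) * a) := by rw [pow_mul]

theorem NZB_nj_pos (p L j : ℕ) : 0 < nj p L j := by
  induction j with
  | zero => exact Nat.one_pos
  | succ j ih =>
    rw [nj]
    exact Nat.mul_pos (Nat.succ_pos _) ih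

theorem NZB_nj_mono (p j : ℕ) {L L' : ℕ} (h : L ≤ L') : nj p L j ≤ nj p L' j := by
  induction j with
  | zero => exact le_refl _
  | succ j ih =>
    rw [nj, nj]
    exact Nat.mul_le_mul (Nat.add_le_add_right (Nat.mul_le_mul_right _ h) 1) ih

theorem NZB_nj_P (p j : ℕ) : NZB_P (fun L => nj p L j) := by
  induction j with
  | zero => exact NZB_const 1
  | succ j ih =>
    exact NZB_mul (NZB_add (NZB_mul NZB_id (NZB_const ((p - 1) ^ j))) (NZB_const 1)) ih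

theorem NZB_nzm_pos (ps : List (ℕ × ℕ × List (List ℕ))) (L : ℕ) : 0 < nzm ps L := by
  induction ps with
  | nil => exact Nat.one_pos
  | cons q ps ih =>
    rw [nzm]
    exact Nat.mul_pos ih (NZB_nj_pos _ _ _)

theorem NZB_nzm_mono (ps : List (ℕ × ℕ × List (List ℕ))) {L L' : ℕ} (h : L ≤ L') :
    nzm ps L ≤ nzm ps L' := by
  induction ps with
  | nil => exact le_refl _
  | cons q ps ih =>
    rw [nzm, nzm]
    exact Nat.mul_le_mul ih (NZB_nj_mono _ _ h)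

theorem NZB_nzm_P (ps : List (ℕ × ℕ × List (List ℕ))) : NZB_P (fun L => nzm ps L) := by
  induction ps with
  | nil => exact NZB_const 1
  | cons q ps ih => exact NZB_mul ih (NZB_nj_P _ _)

theorem NZB_km_pos (ps : List (ℕ × ℕ × List (List ℕ))) (d M : ℕ) : 0 < km ps d M := by
  induction d with
  | zero => exact Nat.one_pos
  | succ d ih =>
    rw [km]
    exact Nat.mul_pos ih (NZB_nzm_pos _ _)

theorem NZB_km_P (ps : List (ℕ × ℕ × List (List ℕ))) (d : ℕ) : NZB_P (fun M => km ps d M) := by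
  induction d with
  | zero => exact NZB_const 1
  | succ d ih =>
    exact NZB_mul ih (NZB_comp (NZB_nzm_P ps) (NZB_mul NZB_id (NZB_pow ih d)))

theorem p_NZB : Stmt_NZB := by
  intro ps
  refine ⟨NZB_nzm_pos ps, fun L L' h => NZB_nzm_mono ps h, fun d => ⟨NZB_km_pos ps d, ?_⟩⟩
  obtain ⟨C, hC⟩ := NZB_km_P ps d
  refine ⟨max 2 C, fun M => (hC M).trans ?_⟩
  have h1 : M + 2 ≤ max 2 C * (M + 1) := by
    calc M + 2 ≤ 2 * (M + 1) := by omega
      _ ≤ max 2 C * (M + 1) := Nat.mul_le_mul_right _ (le_max_left _ _)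
  calc (M + 2) ^ C ≤ (M + 2) ^ max 2 C := Nat.pow_le_pow_right (by omega) (le_max_right _ _)
    _ ≤ (max 2 C * (M + 1)) ^ max 2 C := Nat.pow_le_pow_left h1 _

end Pool.EV
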