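import Pool.Agent.Work.MP_cb380d_ev.InterfaceA

open Pool.IC Pool.GL Pool.TL Polynomial

namespace Pool.EV

theorem PAD_succ (g : Str → Str) (esc : Str × List ℕ × ℕ × ℕ → Str)
    (ch : ℕ → Str → Str → ℕ → Bool) (ν K n : ℕ) :
    rn g esc ch ν K (n + 1) = stp g esc ch ν K (rn g esc ch ν K n) n := by
  unfold rn
  rw [List.range_succ, List.foldl_append]
  rfl

theorem PAD_mem (g : Str → Str) (esc : Str × List ℕ × ℕ × ℕ → Str)
    (ch : ℕ → Str → Str → ℕ → Bool) (ν K : ℕ) (b m n : ℕ) (hmn : m ≤ n)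
    (hb : b ∈ (rn g esc ch ν K m).2.1) : b ∈ (rn g esc ch ν K n).2.1 := by
  induction n, hmn using Nat.le_induction with
  | base => exact hb
  | succ n hmn ih =>
    rw [PAD_succ]
    exact List.mem_cons_of_mem _ ih

/-- The position recorded in step `l + 1`. -/
def PAD_b (g : Str → Str) (esc : Str × List ℕ × ℕ × ℕ → Str)
    (ch : ℕ → Str → Str → ℕ → Bool) (ν K l : ℕ) : ℕ :=
  fd (g (rn g esc ch ν K l).1)
    (g (es esc (rn g esc ch ν K l).1 (rn g esc ch ν K l).2.1 (lo ν K (l + 1)) K))

theorem PAD_bmem (g : Str → Str) (esc : Str × List ℕ × ℕ × ℕ → Str)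
    (ch : ℕ → Str → Str → ℕ → Bool) (ν K l : ℕ) :
    PAD_b g esc ch ν K l ∈ (rn g esc ch ν K (l + 1)).2.1 := by
  rw [PAD_succ]
  exact List.mem_cons_self

theorem PAD_ne (hRNS : Stmt_RNS) (hRNI : Stmt_RNI) (g : Str → Str)
    (esc : Str × List ℕ × ℕ × ℕ → Str) (ch : ℕ → Str → Str → ℕ → Bool) (ν K : ℕ) (D : Set Str)
    (he : Esc g esc ν K) (hs : Sep g D) (l l' : ℕ) (h : l < l') (hl : l' < ν - 1) :
    PAD_b g esc ch ν K l ≠ PAD_b g esc ch ν K l' := by
  obtain ⟨_, _, h3, _⟩ := hRNS g esc ch ν K l' D (rn g esc ch ν K l') he hs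
    (hRNI g esc ch ν K l' D he hs (by omega)) hl
  intro he2
  apply h3
  have := PAD_mem g esc ch ν K _ (l + 1) l' h (PAD_bmem g esc ch ν K l)
  rw [he2] at this
  exact this

theorem p_PAD (hRNS : Stmt_RNS) (hRNI : Stmt_RNI) (hKEP : Stmt_KEP) : Stmt_PAD := by
  intro g esc w ν K D he hs
  have hcard := Finset.card_le_card_of_injOn
    (s := (Finset.range (ν - 1)).filter fun l => w.getD l none = none)
    (t := Finset.range (g (zf g esc (chE g w) ν K)).length)
    (PAD_b g esc (chE g w) ν K) ?_ ?_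
  · rwa [Finset.card_range] at hcard
  · intro l hl
    have hl' := Finset.mem_filter.1 (Finset.mem_coe.1 hl)
    have hl1 : l < ν - 1 := Finset.mem_range.1 hl'.1
    have hl2 : w.getD l none = none := hl'.2
    rw [Finset.mem_coe, Finset.mem_range]
    obtain ⟨_, h2, _, _⟩ := hRNS g esc (chE g w) ν K l D (rn g esc (chE g w) ν K l) he hs
      (hRNI g esc (chE g w) ν K l D he hs (by omega)) hl1
    have hk := hKEP g esc (chE g w) ν K (l + 1) D he hs (by omega) _
      (PAD_bmem g esc (chE g w) ν K l)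
    by_contra hcon
    have hnone : (g (zf g esc (chE g w) ν K))[PAD_b g esc (chE g w) ν K l]? = none :=
      List.getElem?_eq_none (not_lt.1 hcon)
    rw [hnone, PAD_succ] at hk
    have hch : chE g w l (rn g esc (chE g w) ν K l).1
        (es esc (rn g esc (chE g w) ν K l).1 (rn g esc (chE g w) ν K l).2.1 (lo ν K (l + 1)) K)
        (fd (g (rn g esc (chE g w) ν K l).1)
          (g (es esc (rn g esc (chE g w) ν K l).1 (rn g esc (chE g w) ν K l).2.1
            (lo ν K (l + 1)) K))) =
        ((g (rn g esc (chE g w) ν K l).1)[PAD_b g esc (chE g w) ν K l]?).isNone := by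
      unfold chE
      rw [hl2]
      rfl
    have hst : (stp g esc (chE g w) ν K (rn g esc (chE g w) ν K l) l).1 =
        bif ((g (rn g esc (chE g w) ν K l).1)[PAD_b g esc (chE g w) ν K l]?).isNone then
          es esc (rn g esc (chE g w) ν K l).1 (rn g esc (chE g w) ν K l).2.1 (lo ν K (l + 1)) K
        else (rn g esc (chE g w) ν K l).1 := by
      unfold stp
      dsimp only
      rw [hch]
    rw [hst] at hk
    change (g (rn g esc (chE g w) ν K l).1)[PAD_b g esc (chE g w) ν K l]? ≠
      (g (es esc (rn g esc (chE g w) ν K l).1 (rn g esc (chE g w) ν K l).2.1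
        (lo ν K (l + 1)) K))[PAD_b g esc (chE g w) ν K l]? at h2
    cases hc : (g (rn g esc (chE g w) ν K l).1)[PAD_b g esc (chE g w) ν K l]? with
    | none =>
      rw [hc] at hk h2
      exact h2 hk
    | some c =>
      rw [hc] at hk
      rw [show (bif (some c).isNone then
          es esc (rn g esc (chE g w) ν K l).1 (rn g esc (chE g w) ν K l).2.1 (lo ν K (l + 1)) K
        else (rn g esc (chE g w) ν K l).1) = (rn g esc (chE g w) ν K l).1 from rfl, hc] at hk
      exact absurd hk (by simp)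
  · intro l hl l' hl' hll
    have h1 := Finset.mem_range.1 (Finset.mem_filter.1 (Finset.mem_coe.1 hl)).1
    have h2 := Finset.mem_range.1 (Finset.mem_filter.1 (Finset.mem_coe.1 hl')).1
    rcases lt_trichotomy l l' with h | h | h
    · exact absurd hll (PAD_ne hRNS hRNI g esc (chE g w) ν K D he hs l l' h h2)
    · exact h
    · exact absurd hll.symm (PAD_ne hRNS hRNI g esc (chE g w) ν K D he hs l' l h h1)

end Pool.EV
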