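import Pool.Agent.Work.MP_cb380d_ev.InterfaceA

/-!
# Block PAR: the parity changes when one entry changes
-/

open Pool.IC Pool.GL Pool.TL Polynomial

namespace Pool.EV

theorem PAR_foldl (c : Bool) (w : List Bool) :
    w.foldl xor c = xor c (w.foldl xor false) := by
  induction w generalizing c with
  | nil => simp
  | cons a w ih =>
    simp only [List.foldl_cons]
    rw [ih (xor c a), ih (xor false a)]
    cases c <;> cases a <;> simp

theorem PAR_cons (a : Bool) (w : List Bool) : parity (a :: w) = xor a (parity w) := by
  unfold parity
  rw [List.foldl_cons, PAR_foldl]
  cases a <;> simp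

theorem p_PAR : Stmt_PAR := by
  intro w
  induction w with
  | nil => intro l h; simp at h
  | cons a w ih =>
    intro l h
    cases l with
    | zero =>
      simp only [List.getElem?_cons_zero, Option.some.injEq] at h
      subst h
      rw [List.set_cons_zero, PAR_cons, PAR_cons]
      simp
    | succ l =>
      rw [List.getElem?_cons_succ] at h
      rw [List.set_cons_succ, PAR_cons, PAR_cons, ih l h]
      cases a <;> simp

end Pool.EV
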