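import Pool.Agent.Work.MP_cb380d_ev.InterfaceB

/-! # EvasiveReductions, block PFF: the new reduction and its inverse -/

open Pool.IC Pool.GL Pool.TL Polynomial

namespace Pool.EV

theorem p_PFF (hPLF : Stmt_PLF) (hPST : Stmt_PST) (hPSS : Stmt_PSS) : Stmt_PFF := by
  intro B g esc t a E hg hesc
  obtain ⟨-, -, -, hdcd, -, -, -, hwd, -, -, -, -, hes⟩ := hPLF B
  have hes' := hes esc hesc
  have hst := hPSS B a E
  have hcE : PolyF B (fun p : List (Option Bool) × ℕ × Str × Str × ℕ =>
      chE g p.1 p.2.1 p.2.2.1 p.2.2.2.1 p.2.2.2.2) := by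
    show PolyF B (fun p : List (Option Bool) × ℕ × Str × Str × ℕ =>
      (p.1.getD p.2.1 none).getD ((g p.2.2.1)[p.2.2.2.2]?).isNone)
    fun_prop
  have hcD : PolyF B (fun p : Str × ℕ × Str × Str × ℕ =>
      chD g p.1 p.2.1 p.2.2.1 p.2.2.2.1 p.2.2.2.2) := by
    show PolyF B (fun p : Str × ℕ × Str × Str × ℕ =>
      decide (p.1[p.2.2.2.2]? = (g p.2.2.2.1)[p.2.2.2.2]?))
    fun_prop
  have hrE := hPST B g esc hg hesc (List (Option Bool)) (chE g) hcE
  have hrD := hPST B g esc hg hesc Str (chD g) hcD
  have hpow : PolyF B (fun n : ℕ => st a E n ^ t) := PolyF.pow hst t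
  have hν : PolyF B (fun x : Str => st a E x.length) :=
    PolyF.comp (f := fun n : ℕ => st a E n) (g := fun x : Str => x.length) hst (by fun_prop)
  have hK : PolyF B (fun x : Str => st a E x.length ^ t) :=
    PolyF.comp (f := fun n : ℕ => st a E n ^ t) (g := fun x : Str => x.length) hpow (by fun_prop)
  have hw : PolyF B (fun x : Str => wd x (st a E x.length)) :=
    PolyF.comp (f := fun p : Str × ℕ => wd p.1 p.2) (g := fun x : Str => (x, st a E x.length))
      hwd (PolyF.pair (by fun_prop) hν)
  have hR : PolyF B (fun x : Str => rn g esc (chE g (wd x (st a E x.length))) (st a E x.length)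
      (st a E x.length ^ t) (st a E x.length - 1)) :=
    PolyF.comp (f := fun p : List (Option Bool) × ℕ × ℕ × ℕ =>
        rn g esc (chE g p.1) p.2.1 p.2.2.1 p.2.2.2)
      (g := fun x : Str => (wd x (st a E x.length), st a E x.length,
        st a E x.length ^ t, st a E x.length - 1)) hrE
      (PolyF.pair hw (PolyF.pair hν (PolyF.pair hK (PolyF.pred hν))))
  have hlo : PolyF B (fun x : Str => lo (st a E x.length) (st a E x.length ^ t) 0) := by
    have h1 : PolyF B (fun x : Str => st a E x.length + st a E x.length ^ t + 2) :=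
      PolyF.add (PolyF.add hν hK) (PolyF.const 2)
    refine h1.congrF fun x => ?_
    unfold lo
    ring
  have hzf : PolyF B (fun x : Str => zf g esc (chE g (wd x (st a E x.length)))
      (st a E x.length) (st a E x.length ^ t)) :=
    PolyF.comp (f := fun p : Str × List ℕ × ℕ × ℕ => es esc p.1 p.2.1 p.2.2.1 p.2.2.2)
      (g := fun x : Str =>
        ((rn g esc (chE g (wd x (st a E x.length))) (st a E x.length)
          (st a E x.length ^ t) (st a E x.length - 1)).1,
        (rn g esc (chE g (wd x (st a E x.length))) (st a E x.length)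
          (st a E x.length ^ t) (st a E x.length - 1)).2.1,
        lo (st a E x.length) (st a E x.length ^ t) 0, st a E x.length ^ t)) hes'
      (PolyF.pair (PolyF.fst hR) (PolyF.pair (PolyF.fst (PolyF.snd hR)) (PolyF.pair hlo hK)))
  have hff : PolyF B (ff g esc t a E) := PolyF.comp (f := g) hg hzf
  refine ⟨hff, ?_⟩
  have hst2 : PolyF B (fun p : Str × ℕ => st a E p.2) :=
    PolyF.comp (f := fun n : ℕ => st a E n) (g := fun p : Str × ℕ => p.2) hst (by fun_prop)
  have hpow2 : PolyF B (fun p : Str × ℕ => st a E p.2 ^ t) :=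
    PolyF.comp (f := fun n : ℕ => st a E n ^ t) (g := fun p : Str × ℕ => p.2) hpow (by fun_prop)
  have hRD : PolyF B (fun p : Str × ℕ => rn g esc (chD g p.1) (st a E p.2)
      (st a E p.2 ^ t) (st a E p.2 - 1)) :=
    PolyF.comp (f := fun p : Str × ℕ × ℕ × ℕ => rn g esc (chD g p.1) p.2.1 p.2.2.1 p.2.2.2)
      (g := fun p : Str × ℕ => (p.1, st a E p.2, st a E p.2 ^ t, st a E p.2 - 1)) hrD
      (PolyF.pair (by fun_prop) (PolyF.pair hst2 (PolyF.pair hpow2 (PolyF.pred hst2))))
  have hdc : PolyF B (fun p : Str × ℕ => dc g esc t a E p.1 p.2) :=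
    PolyF.comp (f := dcd) hdcd (PolyF.snd (PolyF.snd hRD))
  have hmap : PolyF B (fun o : Str => (List.range (o.length + 1)).map (dc g esc t a E o)) :=
    PolyF.map (l := fun o : Str => List.range (o.length + 1)) (f := fun o n => dc g esc t a E o n)
      (by fun_prop) hdc
  have hdec : PolyF B (fun p : Str × Str => decide (ff g esc t a E p.2 = p.1)) :=
    PolyF.eq (PolyF.comp (f := ff g esc t a E) (g := fun p : Str × Str => p.2) hff (by fun_prop))
      (by fun_prop)
  have hfil : PolyF B (fun o : Str => ((List.range (o.length + 1)).map (dc g esc t a E o)).filter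
      fun x => decide (ff g esc t a E x = o)) :=
    PolyF.filter (f := fun (o : Str) (x : Str) => decide (ff g esc t a E x = o)) hmap hdec
  exact PolyF.headD hfil (PolyF.const [])

end Pool.EV
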