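import Pool.Agent.Work.MP_cb380d_ev.InterfaceF

/-! # Block PHC: the composition (helper71) -/

open Pool.IC Pool.GL Pool.TL Polynomial

namespace Pool.EV

theorem PHC_nmv_succ (W n : ℕ) : nmv (W + 1) n = nmv W n * nmv W n := by
  unfold nmv
  rw [pow_succ, pow_mul, sq]

theorem PHC_nmv_add (W W' n : ℕ) : nmv (W + W') n = nmv W (nmv W' n) := by
  unfold nmv
  rw [← pow_mul, ← pow_add, add_comm]

theorem PHC_cons (kb : List ℕ × Str) (kbs : List (List ℕ × Str)) (u : Str) :
    phi (kb :: kbs) u = plug kb (phi kbs u) := rfl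

theorem PHC_len (hPLG : Stmt_PLG) (kbs : List (List ℕ × Str)) (u : Str) :
    (phi kbs u).length = nmv kbs.length u.length := by
  induction kbs with
  | nil =>
    show u.length = u.length ^ 2 ^ 0
    simp
  | cons kb kbs ih =>
    rw [PHC_cons, (hPLG kb (phi kbs u) _ rfl).1, ih, List.length_cons, PHC_nmv_succ]

theorem p_PHC (hPLG : Stmt_PLG) : Stmt_PHC := by
  refine ⟨PHC_len hPLG, ?_, ?_, ?_, ?_⟩
  · intro kbs
    induction kbs with
    | nil => exact fun n q => ⟨q, fun u u' _ _ h => h⟩
    | cons kb kbs ih =>
      intro n q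
      by_cases hq : q < nmv kbs.length n * nmv kbs.length n
      · by_cases hk : kb.1.getD (q / nmv kbs.length n) 0 = q % nmv kbs.length n
        · obtain ⟨i, hi⟩ := ih n (q / nmv kbs.length n)
          refine ⟨i, fun u u' hu hu' h => ?_⟩
          have l1 : (phi kbs u).length = nmv kbs.length n := by rw [PHC_len hPLG, hu]
          have l2 : (phi kbs u').length = nmv kbs.length n := by rw [PHC_len hPLG, hu']
          rw [PHC_cons, PHC_cons, (hPLG kb _ _ l1).2 q hq, (hPLG kb _ _ l2).2 q hq, if_pos hk,
            if_pos hk]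
          exact hi u u' hu hu' h
        · refine ⟨0, fun u u' hu hu' _ => ?_⟩
          have l1 : (phi kbs u).length = nmv kbs.length n := by rw [PHC_len hPLG, hu]
          have l2 : (phi kbs u').length = nmv kbs.length n := by rw [PHC_len hPLG, hu']
          rw [PHC_cons, PHC_cons, (hPLG kb _ _ l1).2 q hq, (hPLG kb _ _ l2).2 q hq, if_neg hk,
            if_neg hk]
      · refine ⟨0, fun u u' hu hu' _ => ?_⟩
        have l1 : (phi kbs u).length = nmv kbs.length n := by rw [PHC_len hPLG, hu]
        have l2 : (phi kbs u').length = nmv kbs.length n := by rw [PHC_len hPLG, hu']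
        rw [PHC_cons, PHC_cons, List.getD_eq_default, List.getD_eq_default]
        · rw [(hPLG kb _ _ l2).1]
          exact not_lt.1 hq
        · rw [(hPLG kb _ _ l1).1]
          exact not_lt.1 hq
  · intro k1 k2 u
    unfold phi
    rw [List.foldr_append]
  · intro k1 k2 n h1 h2
    induction k1 with
    | nil => exact h2
    | cons kb k1 ih =>
      obtain ⟨h3, h4⟩ := h1
      refine ⟨fun q => ?_, ih h4⟩
      show kb.1.getD q 0 < nmv (k1 ++ k2).length n
      rw [List.length_append, PHC_nmv_add]
      exact h3 q
  · intro ps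
    induction ps with
    | nil => exact fun n Fs => rfl
    | cons q ps ih =>
      intro n Fs
      show (_ :: sts ps n _).length = _
      rw [List.length_cons, List.length_cons, ih]

end Pool.EV
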