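import Pool.Agent.Work.MP_cb380d_ev.InterfaceB

set_option autoImplicit false

open Pool.IC Pool.GL Pool.TL Polynomial

namespace Pool.EV

theorem p_PIS (hCBA : Stmt_CBA) (hCBP : Stmt_CBP) : Stmt_PIS := by
  intro B A A' f g hf hg
  obtain ⟨⟨hfp, hfm⟩, hfl, f', hf'p, hf'⟩ := hf
  obtain ⟨⟨hgp, hgm⟩, hgl, g', hg'p, hg'⟩ := hg
  obtain ⟨h1, h2, h3⟩ := hCBA A A' f f' g g' hf' hg' hfl hgl hfm hgm
  obtain ⟨p1, p2⟩ := hCBP B f f' g g' ((polyFun_iff_polyF f).1 hfp)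
    ((polyFun_iff_polyF f').1 hf'p) ((polyFun_iff_polyF g).1 hgp)
    ((polyFun_iff_polyF g').1 hg'p) hfl hgl
  exact ⟨cbm f f' g g', cbi f f' g g', (polyFun_iff_polyF _).2 p1, (polyFun_iff_polyF _).2 p2,
    h1, h2, h3⟩

end Pool.EV
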