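import Pool.Agent.Work.MP_cb380d_ev.InterfaceF

/-! # Block PLC: the group parities of `plug` (helper71) -/

open Pool.IC Pool.GL Pool.TL Polynomial

namespace Pool.EV

theorem PLC_snoc (w : List Bool) (b : Bool) : parity (w ++ [b]) = xor (parity w) b := by
  unfold parity
  rw [List.foldl_append]
  rfl

theorem PLC_par (g : ℕ → Bool) (k : ℕ) (b : Bool) (n : ℕ) :
    parity ((List.range n).map fun o => if k = o then b else g o) =
      xor (parity ((List.range n).map fun o => if k = o then false else g o))
        (if k < n then b else false) := by
  induction n with
  | zero => simp [parity]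
  | succ n ih =>
    rw [List.range_succ, List.map_append, List.map_append, List.map_singleton,
      List.map_singleton, PLC_snoc, PLC_snoc, ih]
    by_cases hk : k = n
    · subst hk
      simp
    · have h1 : (k < n + 1) ↔ (k < n) := by omega
      simp only [hk, if_false, h1]
      rw [Bool.xor_assoc, Bool.xor_assoc, Bool.xor_comm (g n)]

theorem PLC_block (hPLG : Stmt_PLG) (kb : List ℕ × Str) (u : Str) (n : ℕ) (hu : u.length = n)
    (l : ℕ) (hl : l < n) : ((plug kb u).drop (l * n)).take n =
      (List.range n).map fun o => if kb.1.getD l 0 = o then u.getD l false else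
        kb.2.getD (l * n + o) false := by
  obtain ⟨h1, h2⟩ := hPLG kb u n hu
  have hle : l * n + n ≤ n * n := by
    calc l * n + n = (l + 1) * n := by ring
      _ ≤ n * n := Nat.mul_le_mul_right n hl
  apply List.ext_getElem
  · rw [List.length_take, List.length_drop, h1, List.length_map, List.length_range]
    omega
  · intro o ho1 ho2
    have ho : o < n := by
      rw [List.length_map, List.length_range] at ho2
      exact ho2
    have hlt : l * n + o < n * n := by omega
    have h3 := h2 (l * n + o) hlt
    have hn : 0 < n := by omega
    have h4 : (l * n + o) / n = l := by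
      rw [mul_comm, Nat.mul_add_div hn, Nat.div_eq_of_lt ho, add_zero]
    have h5 : (l * n + o) % n = o := by
      rw [mul_comm, Nat.mul_add_mod, Nat.mod_eq_of_lt ho]
    rw [h4, h5] at h3
    rw [List.getElem_take, List.getElem_drop, List.getElem_map, List.getElem_range, ← h3,
      List.getD_eq_getElem _ _ (by rw [h1]; exact hlt)]

theorem p_PLC (hPLG : Stmt_PLG) : Stmt_PLC := by
  intro kb u n hu hk
  unfold cnb add
  apply List.ext_getElem
  · rw [List.length_zipWith, List.length_map, List.length_map, List.length_range, hu, min_self]
  · intro l hl1 hl2
    have hl : l < n := by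
      rw [List.length_map, List.length_range] at hl1
      exact hl1
    rw [List.getElem_zipWith, List.getElem_map, List.getElem_map, List.getElem_range,
      PLC_block hPLG kb u n hu l hl,
      PLC_block hPLG kb (List.replicate n false) n List.length_replicate l hl,
      PLC_par (fun o => kb.2.getD (l * n + o) false) (kb.1.getD l 0) (u.getD l false) n,
      if_pos (hk l), List.getD_eq_getElem u _ (by rw [hu]; exact hl)]
    have h1 : (List.replicate n false).getD l false = false := List.getD_replicate _ hl
    rw [h1]

end Pool.EV
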