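import Pool.Agent.Work.MP_cb380d_ev.InterfaceF

/-! # Block PLG (MP_cb380d, circuits) -/

open Pool.IC Pool.GL Pool.TL Polynomial

namespace Pool.EV

theorem PLG_len {α : Type} (f : ℕ → ℕ → α) (n m : ℕ) :
    ((List.range m).flatMap fun q => (List.range n).map (f q)).length = m * n := by
  induction m with
  | zero => simp
  | succ m ih =>
    rw [List.range_succ, List.flatMap_append, List.length_append, ih]
    simp [Nat.succ_mul]

theorem PLG_get {α : Type} (f : ℕ → ℕ → α) (d : α) (n m : ℕ) : ∀ p < m * n,
    ((List.range m).flatMap fun q => (List.range n).map (f q)).getD p d = f (p / n) (p % n) := by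
  induction m with
  | zero => intro p hp; omega
  | succ m ih =>
    intro p hp
    rw [List.range_succ, List.flatMap_append]
    by_cases h : p < m * n
    · rw [List.getD_append _ _ _ _ (by rw [PLG_len]; exact h)]
      exact ih p h
    · have hn : p - m * n < n := by
        rw [Nat.succ_mul] at hp
        omega
      have hpe : p = (p - m * n) + n * m := by
        rw [Nat.mul_comm n m]
        omega
      have hdiv : p / n = m := by
        rw [hpe, Nat.add_mul_div_left _ _ (by omega), Nat.div_eq_of_lt (by simpa using hn)]
        omega
      have hmod : p % n = p - m * n := by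
        conv_lhs => rw [hpe]
        rw [Nat.add_mul_mod_self_left, Nat.mod_eq_of_lt hn]
      rw [List.getD_append_right _ _ _ _ (by rw [PLG_len]; omega), PLG_len, hdiv, hmod]
      simp only [List.flatMap_cons, List.flatMap_nil, List.append_nil]
      rw [List.getD_eq_getElem _ _ (by simpa using hn)]
      simp

theorem p_PLG : Stmt_PLG := by
  intro kb u n hu
  unfold plug
  rw [hu]
  refine ⟨PLG_len (fun q o => if kb.1.getD q 0 = o then u.getD q false
    else kb.2.getD (q * n + o) false) n n, ?_⟩
  intro p hp
  have h := PLG_get (fun q o => if kb.1.getD q 0 = o then u.getD q false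
    else kb.2.getD (q * n + o) false) false n n p hp
  refine h.trans ?_
  have h2 : p / n * n + p % n = p := by
    rw [Nat.mul_comm]
    exact Nat.div_add_mod p n
  rw [h2]

end Pool.EV
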