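import Pool.Agent.Work.MP_cb380d_ev.InterfaceF

/-!
Block PPC: the block parities of phi.
-/

open Pool.IC Pool.GL Pool.TL Polynomial

namespace Pool.EV

theorem PPC_add_assoc (x y z : Str) : add (add x y) z = add x (add y z) := by
  unfold add
  induction x generalizing y z with
  | nil => simp
  | cons a x ih =>
    cases y with
    | nil => simp
    | cons b y =>
      cases z with
      | nil => simp
      | cons c z => simp [ih]

theorem PPC_zero_add (u : Str) : ∀ n : ℕ, u.length = n → add (List.replicate n false) u = u := by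
  unfold add
  induction u with
  | nil => intro n h; simp
  | cons a u ih =>
    intro n h
    cases n with
    | zero => simp at h
    | succ n =>
      rw [List.replicate_succ, List.zipWith_cons_cons, ih n (by simpa using h)]
      simp

theorem PPC_len_plug (kb : List ℕ × Str) (x : Str) : (plug kb x).length = x.length * x.length := by
  simp [plug, List.length_flatMap]

theorem PPC_kap (W n : ℕ) : kap (W + 1) n = kap W n * nmv W n := by
  unfold kap nmv
  rw [← pow_add]
  congr 1
  have h : 1 ≤ 2 ^ W := Nat.one_le_two_pow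
  rw [pow_succ]
  omega

theorem PPC_nmv (W n : ℕ) : n * kap W n = nmv W n := by
  unfold kap nmv
  rw [← pow_succ']
  congr 1
  have h : 1 ≤ 2 ^ W := Nat.one_le_two_pow
  omega

theorem PPC_step (hPHC : Stmt_PHC) (hCNB : Stmt_CNB) (hPLC : Stmt_PLC) (kb : List ℕ × Str)
    (kbs : List (List ℕ × Str)) (n : ℕ) (u : Str) (hu : u.length = n)
    (hk : ∀ q, kb.1.getD q 0 < nmv kbs.length n) :
    cnb (kap (kbs.length + 1) n) n (phi (kb :: kbs) u) =
      add (cnb (kap kbs.length n) n (cnb (nmv kbs.length n) (nmv kbs.length n)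
        (plug kb (List.replicate (nmv kbs.length n) false)))) (cnb (kap kbs.length n) n (phi kbs u)) := by
  have h1 : (phi kbs u).length = nmv kbs.length n := by rw [hPHC.1, hu]
  have h2 : phi (kb :: kbs) u = plug kb (phi kbs u) := rfl
  rw [h2, PPC_kap, hCNB.1 (nmv kbs.length n) (kap kbs.length n) n (plug kb (phi kbs u))
    (by rw [PPC_len_plug, h1, PPC_nmv]), PPC_nmv, hPLC kb (phi kbs u) (nmv kbs.length n) h1 hk,
    hCNB.2.1 _ _ _ _ (by rw [h1]; simp [cnb])]

theorem p_PPC (hPHC : Stmt_PHC) (hCNB : Stmt_CNB) (hPLC : Stmt_PLC) : Stmt_PPC := by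
  intro kbs
  induction kbs with
  | nil =>
    intro n u hn hu _
    have h0 : kap ([] : List (List ℕ × Str)).length n = 1 := by simp [kap]
    rw [h0]
    have h1 : phi [] u = u := rfl
    have h2 : phi [] (List.replicate n false) = List.replicate n false := rfl
    rw [h1, h2, hCNB.2.2 n u hu, hCNB.2.2 n _ (by simp), PPC_zero_add u n hu]
  | cons kb kbs ih =>
    intro n u hn hu hk
    have hk' : (∀ q, kb.1.getD q 0 < nmv kbs.length n) ∧ KOK n kbs := hk
    rw [List.length_cons, PPC_step hPHC hCNB hPLC kb kbs n u hu hk'.1,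
      PPC_step hPHC hCNB hPLC kb kbs n (List.replicate n false) (by simp) hk'.1, ih n u hn hu hk'.2,
      PPC_add_assoc]

end Pool.EV
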