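import Pool.Agent.Work.MP_cb380d_ev.InterfaceF

open Pool.IC Pool.GL Pool.TL Polynomial

namespace Pool.EV

theorem PRM_bern (m j : ℕ) : m ^ (j + 1) + (j + 1) * m ^ j ≤ (m + 1) ^ (j + 1) := by
  induction j with
  | zero => simp
  | succ j ih =>
    have h1 : (m + 1) * (m ^ (j + 1) + (j + 1) * m ^ j) ≤ (m + 1) * (m + 1) ^ (j + 1) :=
      Nat.mul_le_mul_left _ ih
    have h2 : (m + 1) ^ (j + 1 + 1) = (m + 1) * (m + 1) ^ (j + 1) := by ring
    have h3 : (m + 1) * (m ^ (j + 1) + (j + 1) * m ^ j) =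
        m ^ (j + 1 + 1) + (j + 1 + 1) * m ^ (j + 1) + (j + 1) * m ^ j := by ring
    rw [h2]
    omega

theorem PRM_two (F : ℕ) (hF : 2 ≤ F) : (F - 1) ^ F * 2 ≤ F ^ F := by
  obtain ⟨m, rfl⟩ : ∃ m, F = m + 1 := ⟨F - 1, by omega⟩
  have h1 := PRM_bern m m
  have h2 : (m + 1 - 1) ^ (m + 1) * 2 = m ^ (m + 1) + m * m ^ m := by
    rw [Nat.add_sub_cancel]
    ring
  rw [h2]
  have h3 : m * m ^ m ≤ (m + 1) * m ^ m := Nat.mul_le_mul_right _ (by omega)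
  omega

theorem PRM_log (n : ℕ) (hn : 1 ≤ n) :
    n ≤ 2 ^ (Nat.log 2 n + 1) ∧ 2 ^ (Nat.log 2 n + 1) ≤ 2 * n := by
  refine ⟨(Nat.lt_pow_succ_log_self (by norm_num) n).le, ?_⟩
  have := Nat.pow_log_le_self 2 (x := n) (by omega)
  rw [pow_succ]
  omega

theorem p_PRM : Stmt_PRM := by
  intro t r
  obtain ⟨F, hF⟩ : ∃ F, F = 2 ^ (t + 1) := ⟨_, rfl⟩
  have hF2 : 2 ≤ F := by
    rw [hF, pow_succ]
    have := Nat.one_le_two_pow (n := t)
    omega
  obtain ⟨X, hX⟩ : ∃ X, X = r + t * F * r := ⟨_, rfl⟩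
  obtain ⟨h, hh⟩ : ∃ h, h = 2 * X + 2 := ⟨_, rfl⟩
  refine ⟨h, 2 ^ (t * F * (r + h) + h) + 1, Nat.le_add_left 1 _, fun n hn => ?_⟩
  obtain ⟨e, he⟩ : ∃ e, e = Nat.log 2 n + 1 := ⟨_, rfl⟩
  have hn1 : 1 ≤ n := (Nat.le_add_left 1 _).trans hn
  obtain ⟨hl1, hl2⟩ := PRM_log n hn1
  rw [← he] at hl1 hl2
  have hA : szA t r h n = F * (r * e + h) := by
    rw [szA, hF, he]
  rw [hA, ← hF]
  have hp1 : (2 : ℕ) ^ h ≤ 2 ^ (t * F * (r + h) + h) :=
    Nat.pow_le_pow_right (by norm_num) (by omega)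
  have hp2 : (2 : ℕ) ^ (t * F * (r + h)) ≤ 2 ^ (t * F * (r + h) + h) :=
    Nat.pow_le_pow_right (by norm_num) (by omega)
  refine ⟨by omega, ?_, ?_, ?_⟩
  · rw [cpA, ← hF]
    have h1 : F ^ (F * (r * e + h)) =
        (2 ^ e) ^ ((t + 1) * F * r) * 2 ^ ((t + 1) * F * h) := by
      have h2 : F ^ (F * (r * e + h)) = 2 ^ ((t + 1) * (F * (r * e + h))) := by
        generalize F * (r * e + h) = B
        rw [hF, ← pow_mul]
      rw [h2, ← pow_mul, ← pow_add]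
      congr 1
      ring
    rw [h1]
    exact Nat.mul_le_mul_right _ (Nat.pow_le_pow_left hl2 _)
  · intro m hm
    have h1 : m ≤ (2 ^ e) ^ r := hm.trans (Nat.pow_le_pow_left hl1 r)
    have h2 : ((F - 1) ^ F * 2) ^ (r * e + h) ≤ (F ^ F) ^ (r * e + h) :=
      Nat.pow_le_pow_left (PRM_two F hF2) _
    calc m * (F - 1) ^ (F * (r * e + h)) * 2 ^ h
        ≤ (2 ^ e) ^ r * (F - 1) ^ (F * (r * e + h)) * 2 ^ h :=
          Nat.mul_le_mul_right _ (Nat.mul_le_mul_right _ h1)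
      _ = ((F - 1) ^ F * 2) ^ (r * e + h) := by
          rw [mul_pow, ← pow_mul, ← pow_mul, pow_add 2 (r * e) h]
          ring
      _ ≤ (F ^ F) ^ (r * e + h) := h2
      _ = F ^ (F * (r * e + h)) := by rw [← pow_mul]
  · intro m hm
    have h1 : (2 : ℕ) ^ (t * (F * (r * e + h))) ≤ n ^ (t * F * r) * 2 ^ (t * F * (r + h)) := by
      have h2 : (2 : ℕ) ^ (t * (F * (r * e + h))) = (2 ^ e) ^ (t * F * r) * 2 ^ (t * F * h) := by
        rw [← pow_mul, ← pow_add]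
        congr 1
        ring
      have h3 : (2 ^ e) ^ (t * F * r) ≤ (2 * n) ^ (t * F * r) := Nat.pow_le_pow_left hl2 _
      calc (2 : ℕ) ^ (t * (F * (r * e + h)))
          = (2 ^ e) ^ (t * F * r) * 2 ^ (t * F * h) := h2
        _ ≤ (2 * n) ^ (t * F * r) * 2 ^ (t * F * h) := Nat.mul_le_mul_right _ h3
        _ = n ^ (t * F * r) * 2 ^ (t * F * (r + h)) := by
            rw [mul_pow, mul_add, pow_add]
            ring
    have h4 : 2 ^ (t * F * (r + h)) < n := by omega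
    have hnr : 0 < n ^ X := by positivity
    calc m * 2 ^ (t * (F * (r * e + h)))
        ≤ n ^ r * (n ^ (t * F * r) * 2 ^ (t * F * (r + h))) := Nat.mul_le_mul hm h1
      _ = n ^ X * 2 ^ (t * F * (r + h)) := by
          rw [hX, pow_add]
          ring
      _ < n ^ X * n := Nat.mul_lt_mul_of_pos_left h4 hnr
      _ = n ^ (X + 1) := by rw [pow_succ]
      _ ≤ n ^ h := Nat.pow_le_pow_right hn1 (by omega)

end Pool.EV
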