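import Pool.Agent.Work.MP_cb380d_ev.InterfaceF

set_option autoImplicit false

/-! # Block PSA: sizes -/

open Pool.IC Pool.GL Pool.TL Polynomial

namespace Pool.EV

theorem PSA_poly (p : Polynomial ℕ) : ∃ C e : ℕ, ∀ n : ℕ, 1 ≤ n → p.eval n ≤ C * n ^ e := by
  induction p using Polynomial.induction_on' with
  | add p q hp hq =>
    obtain ⟨C, e, h⟩ := hp
    obtain ⟨C', e', h'⟩ := hq
    refine ⟨C + C', e + e', fun n hn => ?_⟩
    rw [Polynomial.eval_add, add_mul]
    refine add_le_add ((h n hn).trans ?_) ((h' n hn).trans ?_)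
    · exact Nat.mul_le_mul_left C (Nat.pow_le_pow_right hn (by omega))
    · exact Nat.mul_le_mul_left C' (Nat.pow_le_pow_right hn (by omega))
  | monomial m a =>
    refine ⟨a, m, fun n _ => ?_⟩
    rw [Polynomial.eval_monomial]

theorem p_PSA : Stmt_PSA := by
  intro p
  obtain ⟨C, e, hC⟩ := PSA_poly p
  refine ⟨e + 1, C * 3 ^ e + 1, fun W n hn => ?_⟩
  have hn1 : 1 ≤ n := by omega
  have hx : n ≤ nmv W n := by
    unfold nmv
    exact Nat.le_self_pow (pow_ne_zero _ (by norm_num)) n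
  have hk : kap W n ≤ nmv W n := by
    unfold nmv kap
    exact Nat.pow_le_pow_right hn1 (Nat.sub_le _ _)
  have h3 : kap W n + 1 + nmv W n ≤ 3 * nmv W n := by omega
  have h1 : 1 ≤ kap W n + 1 + nmv W n := by omega
  calc p.eval (kap W n + 1 + nmv W n) ≤ C * (kap W n + 1 + nmv W n) ^ e := hC _ h1
    _ ≤ C * (3 * nmv W n) ^ e := Nat.mul_le_mul_left C (Nat.pow_le_pow_left h3 e)
    _ = (C * 3 ^ e) * nmv W n ^ e := by rw [mul_pow]; ring
    _ ≤ nmv W n * nmv W n ^ e := Nat.mul_le_mul_right _ (by omega)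
    _ = nmv W n ^ (e + 1) := by rw [pow_succ, mul_comm]

end Pool.EV
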