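import Pool.Agent.Work.MP_cb380d_ev.InterfaceF

/-!
# Block PSC (MP_cb380d_lc): the embedding (helper88)
-/

open Pool.IC Pool.GL Pool.TL Polynomial

namespace Pool.EV

theorem PSC_getD (κ q : ℕ) (x y : Str) (h : x.getD (q - κ - 1) false = y.getD (q - κ - 1) false) :
    (un κ ++ false :: x).getD q false = (un κ ++ false :: y).getD q false := by
  have hl : (un κ).length = κ := by simp [un]
  by_cases hq : q < κ
  · rw [List.getD_append _ _ _ _ (by rw [hl]; exact hq),
      List.getD_append _ _ _ _ (by rw [hl]; exact hq)]
  · rw [List.getD_append_right _ _ _ _ (by rw [hl]; omega),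
      List.getD_append_right _ _ _ _ (by rw [hl]; omega), hl]
    rcases Nat.eq_zero_or_pos (q - κ) with h0 | h0
    · rw [h0]; simp
    · obtain ⟨j, hj⟩ : ∃ j, q - κ = j + 1 := ⟨q - κ - 1, by omega⟩
      rw [hj]
      rw [hj] at h
      simpa using h

theorem PSC_nk (W n : ℕ) : n * kap W n = nmv W n := by
  unfold kap nmv
  rw [← pow_succ']
  congr 1
  have : 0 < 2 ^ W := by positivity
  omega

theorem PSC_addlen (x y : Str) (h : x.length = y.length) : (add x y).length = x.length := by
  unfold add
  rw [List.length_zipWith, h, min_self]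

theorem PSC_addadd : ∀ (c w : Str), c.length = w.length → add c (add w c) = w := by
  intro c
  induction c with
  | nil =>
    intro w h
    have : w = [] := by
      rw [← List.length_eq_zero_iff, ← h]; rfl
    rw [this]; rfl
  | cons b c ih =>
    intro w h
    cases w with
    | nil => simp at h
    | cons b' w =>
      have h' : c.length = w.length := by simpa using h
      have := ih w h'
      unfold add at this ⊢
      rw [List.zipWith_cons_cons, List.zipWith_cons_cons, this]
      congr 1
      cases b <;> cases b' <;> rfl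

theorem PSC_get (x y c : Str) (a M i : ℕ) (hx : x.length = M) (hy : y.length = M)
    (h : i < M → x.getD i false = y.getD i false) :
    (add (x ++ List.replicate a false) c).getD i false =
      (add (y ++ List.replicate a false) c).getD i false := by
  have h1 : (x ++ List.replicate a false)[i]? = (y ++ List.replicate a false)[i]? := by
    by_cases hi : i < M
    · rw [List.getElem?_append_left (by rw [hx]; exact hi),
        List.getElem?_append_left (by rw [hy]; exact hi)]
      have h2 := h hi
      rw [List.getD_eq_getElem?_getD, List.getD_eq_getElem?_getD,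
        List.getElem?_eq_getElem (by rw [hx]; exact hi),
        List.getElem?_eq_getElem (by rw [hy]; exact hi)] at h2
      rw [List.getElem?_eq_getElem (by rw [hx]; exact hi),
        List.getElem?_eq_getElem (by rw [hy]; exact hi)]
      simpa using h2
    · rw [List.getElem?_append_right (by rw [hx]; omega),
        List.getElem?_append_right (by rw [hy]; omega), hx, hy]
  unfold add
  rw [List.getD_eq_getElem?_getD, List.getD_eq_getElem?_getD, List.getElem?_zipWith,
    List.getElem?_zipWith, h1]

theorem p_PSC (hPHC : Stmt_PHC) (hCCC : Stmt_CCC) (hPPC : Stmt_PPC) (hCNX : Stmt_CNX)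
    (hPSA : Stmt_PSA) : Stmt_PSC := by
  intro D crc p hD hp
  obtain ⟨r, a0, hr⟩ := hPSA p
  obtain ⟨pss, t', a1, ha1, hC⟩ := hCCC D 1 r
  have key : ∀ n, a0 + a1 + 1 ≤ n → KOK n (psk pss crc n) ∧
      (psk pss crc n).length = tst pss ∧ ∀ q, Jun t' n fun u =>
        (circ (crc (kap (tst pss) n + 1 + nmv (tst pss) n))
          (un (kap (tst pss) n) ++ false :: phi (psk pss crc n) u)).getD q false := by
    intro n hn
    refine hC n (by omega) (fun x => un (kap (tst pss) n) ++ false :: x)
      (crc (kap (tst pss) n + 1 + nmv (tst pss) n)) (hD _) ?_ ?_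
    · intro L hL
      exact (hp _ L hL).trans (hr (tst pss) n (by omega))
    · intro q
      refine ⟨{q - kap (tst pss) n - 1}, by simp, fun x y _ _ h => ?_⟩
      exact PSC_getD _ _ _ _ (h _ (by simp))
  have hlen : ∀ n, a0 + a1 + 1 ≤ n → ∀ u : Str, u.length = n →
      (phi (psk pss crc n) u).length = nmv (tst pss) n := by
    intro n hn u hu
    rw [hPHC.1, (key n hn).2.1, hu]
  have hpsc : ∀ n, (psc pss crc n).length = n := by
    intro n
    simp [psc, cnb]
  have hul : ∀ (v : Str) (a : ℕ), (add (v ++ List.replicate a false)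
      (psc pss crc (v.length + a))).length = v.length + a := by
    intro v a
    rw [PSC_addlen]
    · simp
    · rw [hpsc]; simp
  have hpl : ∀ v : Str, (psi pss (a0 + a1 + 1) crc v).length =
      kap (tst pss) (v.length + (a0 + a1 + 1)) + 1 + nmv (tst pss) (v.length + (a0 + a1 + 1)) := by
    intro v
    unfold psi
    rw [List.length_append, List.length_cons, hlen _ (by omega) _ (hul v _)]
    simp only [un, List.length_replicate]
    omega
  refine ⟨pss, t', a0 + a1 + 1, ?_, hpl, ?_⟩
  · intro v
    obtain ⟨n, hn⟩ : ∃ n, n = v.length + (a0 + a1 + 1) := ⟨_, rfl⟩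
    have hn0 : 0 < n := by omega
    have hk0 : 0 < kap (tst pss) n := by
      unfold kap
      positivity
    obtain ⟨u, hu⟩ : ∃ u, u = add (v ++ List.replicate (a0 + a1 + 1) false)
      (psc pss crc n) := ⟨_, rfl⟩
    have hul' : u.length = n := by
      rw [hu, hn]
      exact hul v _
    have e1 : psi pss (a0 + a1 + 1) crc v =
        un (kap (tst pss) n) ++ false :: phi (psk pss crc n) u := by
      unfold psi
      rw [hu, hn]
    have e2 : (phi (psk pss crc n) u).length = n * kap (tst pss) n := by
      rw [hlen n (by omega) u hul', PSC_nk]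
    have e3 := hPPC (psk pss crc n) n u hn0 hul' (key n (by omega)).1
    rw [(key n (by omega)).2.1] at e3
    rw [e1, hCNX.1 _ n _ hk0 e2, e3, hu]
    have e4 : cnb (kap (tst pss) n) n (phi (psk pss crc n) (List.replicate n false)) =
        psc pss crc n := rfl
    rw [e4]
    apply PSC_addadd
    rw [hpsc, hn]
    simp
  · intro M q
    obtain ⟨n, hn⟩ : ∃ n, n = M + (a0 + a1 + 1) := ⟨_, rfl⟩
    obtain ⟨J, hJ, hJ'⟩ := (key n (by omega)).2.2 q
    refine ⟨J.filter (· < M), (Finset.card_filter_le _ _).trans hJ, fun x y hx hy h => ?_⟩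
    have e1 : ∀ v : Str, v.length = M → psi pss (a0 + a1 + 1) crc v =
        un (kap (tst pss) n) ++ false :: phi (psk pss crc n)
          (add (v ++ List.replicate (a0 + a1 + 1) false) (psc pss crc n)) := by
      intro v hv
      unfold psi
      rw [hv, hn]
    have e2 : ∀ v : Str, v.length = M → (psi pss (a0 + a1 + 1) crc v).length =
        kap (tst pss) n + 1 + nmv (tst pss) n := by
      intro v hv
      rw [hpl, hv, hn]
    have e3 : ∀ v : Str, v.length = M →
        (add (v ++ List.replicate (a0 + a1 + 1) false) (psc pss crc n)).length = n := by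
      intro v hv
      have := hul v (a0 + a1 + 1)
      rw [hv, ← hn] at this
      exact this
    show (circ (crc (psi pss (a0 + a1 + 1) crc x).length)
        (psi pss (a0 + a1 + 1) crc x)).getD q false =
      (circ (crc (psi pss (a0 + a1 + 1) crc y).length)
        (psi pss (a0 + a1 + 1) crc y)).getD q false
    rw [e2 x hx, e2 y hy, e1 x hx, e1 y hy]
    refine hJ' _ _ (e3 x hx) (e3 y hy) fun i hi => ?_
    refine PSC_get x y _ _ M i hx hy fun hiM => h i ?_
    rw [Finset.mem_filter]
    exact ⟨hi, hiM⟩

end Pool.EV
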