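import Pool.Agent.Work.MP_cb380d_ev.InterfaceG

/-! # EvasiveReductions, block PSP: the embedding and the contents -/

open Pool.IC Pool.GL Pool.TL Polynomial

namespace Pool.EV

theorem PSP_con (B : Set Str) (hlead : PolyF B lead) (hrst : PolyF B rst)
    (hpar : PolyF B parity) : PolyF B con := by
  have h1 : PolyF B (fun q : Str × ℕ => decide ((q.2 + 1) * lead q.1 ≤ (rst q.1).length)) := by
    fun_prop
  have h2 : PolyF B (fun z : Str => (List.range (rst z).length).filter fun l =>
      decide ((l + 1) * lead z ≤ (rst z).length)) :=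
    PolyF.filter (l := fun z : Str => List.range (rst z).length)
      (f := fun (z : Str) (l : ℕ) => decide ((l + 1) * lead z ≤ (rst z).length)) (by fun_prop) h1
  have h3 : PolyF B (fun q : Str × ℕ => parity (((rst q.1).drop (q.2 * lead q.1)).take
      (lead q.1))) := by
    fun_prop
  exact PolyF.map (f := fun (z : Str) (l : ℕ) =>
    parity (((rst z).drop (l * lead z)).take (lead z))) h2 h3

theorem PSP_cnb (B : Set Str) (hpar : PolyF B parity) :
    PolyF B (fun p : ℕ × ℕ × Str => cnb p.1 p.2.1 p.2.2) := by
  have h3 : PolyF B (fun q : (ℕ × ℕ × Str) × ℕ => parity ((q.1.2.2.drop (q.2 * q.1.1)).take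
      q.1.1)) := by
    fun_prop
  exact PolyF.map (l := fun p : ℕ × ℕ × Str => List.range p.2.1)
    (f := fun (p : ℕ × ℕ × Str) (l : ℕ) => parity ((p.2.2.drop (l * p.1)).take p.1))
    (by fun_prop) h3

theorem p_PSP (hPLF : Stmt_PLF) (hSSP : Stmt_SSP) (hCCP : Stmt_CCP) (hCTL : Stmt_CTL) :
    Stmt_PSP := by
  intro B
  obtain ⟨hlead, hrst, -, -, hpar, -, -, -, hadd, -, -, -, -⟩ := hPLF B
  refine ⟨PSP_con B hlead hrst hpar, ?_⟩
  intro pss a crc hcrc
  obtain ⟨hnmv, -, hphi⟩ := hSSP B
  have hkap : PolyF B (fun n : ℕ => kap (tst pss) n) :=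
    PolyF.pow (f := fun n : ℕ => n) (by fun_prop) (2 ^ tst pss - 1)
  have hn := hnmv (tst pss)
  have hG : PolyF B (fun p : ℕ × Str => (un (kap (tst pss) p.1) ++ false :: p.2 : Str)) := by
    have h1 : PolyF B (fun p : ℕ × Str => kap (tst pss) p.1) :=
      PolyF.comp (f := fun n : ℕ => kap (tst pss) n) (g := fun p : ℕ × Str => p.1) hkap
        (by fun_prop)
    show PolyF B (fun p : ℕ × Str => (List.replicate (kap (tst pss) p.1) true ++ false :: p.2 : Str))
    exact PolyF.append (PolyF.replicate h1 (PolyF.const true)) (by fun_prop)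
  have hC := hCCP B pss ℕ (fun n x => (un (kap (tst pss) n) ++ false :: x : Str)) hG
  have hcr : PolyF B (fun n : ℕ => crc (kap (tst pss) n + 1 + nmv (tst pss) n)) :=
    PolyF.comp (f := crc) hcrc (PolyF.add (PolyF.succ hkap) hn)
  have hpsk : PolyF B (psk pss crc) :=
    PolyF.comp (f := fun p : ℕ × ℕ × List (List Lits) =>
        cct pss p.2.1 ((fun n x => (un (kap (tst pss) n) ++ false :: x : Str)) p.1) p.2.2)
      (g := fun n : ℕ => (n, n, crc (kap (tst pss) n + 1 + nmv (tst pss) n))) hC
      (PolyF.pair (by fun_prop) (PolyF.pair (by fun_prop) hcr))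
  have hlen : ∀ n, (psk pss crc n).take (tst pss) = psk pss crc n := by
    intro n
    apply List.take_of_length_le
    exact (hCTL pss n _ _).le
  have hphi' : PolyF B (fun p : ℕ × Str => phi (psk pss crc p.1) p.2) := by
    have h1 : PolyF B (fun p : ℕ × Str => phi ((psk pss crc p.1).take (tst pss)) p.2) :=
      PolyF.comp (f := fun p : List (List ℕ × Str) × Str => phi (p.1.take (tst pss)) p.2)
        (g := fun p : ℕ × Str => (psk pss crc p.1, p.2)) (hphi (tst pss))
        (PolyF.pair (PolyF.comp (f := psk pss crc) hpsk (by fun_prop)) (by fun_prop))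
    exact h1.congrF fun p => by rw [hlen]
  have hpsc : PolyF B (psc pss crc) := by
    have h1 : PolyF B (fun n : ℕ => phi (psk pss crc n) (List.replicate n false)) :=
      PolyF.comp (f := fun p : ℕ × Str => phi (psk pss crc p.1) p.2)
        (g := fun n : ℕ => (n, List.replicate n false)) hphi' (by fun_prop)
    exact PolyF.comp (f := fun p : ℕ × ℕ × Str => cnb p.1 p.2.1 p.2.2)
      (g := fun n : ℕ => (kap (tst pss) n, n, phi (psk pss crc n) (List.replicate n false)))
      (PSP_cnb B hpar) (PolyF.pair hkap (PolyF.pair (by fun_prop) h1))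
  have hla : PolyF B (fun v : Str => v.length + a) := by fun_prop
  have h2 : PolyF B (fun v : Str => kap (tst pss) (v.length + a)) :=
    PolyF.comp (f := fun n : ℕ => kap (tst pss) n) hkap hla
  have h3 : PolyF B (fun v : Str => psc pss crc (v.length + a)) :=
    PolyF.comp (f := psc pss crc) hpsc hla
  have h4 : PolyF B (fun v : Str => add (v ++ List.replicate a false)
      (psc pss crc (v.length + a))) :=
    PolyF.comp (f := fun p : Str × Str => add p.1 p.2)
      (g := fun v : Str => (v ++ List.replicate a false, psc pss crc (v.length + a))) hadd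
      (PolyF.pair (by fun_prop) h3)
  have h5 : PolyF B (fun v : Str => phi (psk pss crc (v.length + a))
      (add (v ++ List.replicate a false) (psc pss crc (v.length + a)))) :=
    PolyF.comp (f := fun p : ℕ × Str => phi (psk pss crc p.1) p.2)
      (g := fun v : Str => (v.length + a, add (v ++ List.replicate a false)
        (psc pss crc (v.length + a)))) hphi' (PolyF.pair hla h4)
  show PolyF B (fun v : Str => (List.replicate (kap (tst pss) (v.length + a)) true ++ false ::
    phi (psk pss crc (v.length + a))
      (add (v ++ List.replicate a false) (psc pss crc (v.length + a))) : Str))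
  exact PolyF.append (PolyF.replicate h2 (PolyF.const true)) (PolyF.cons (PolyF.const false) h5)

end Pool.EV
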