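import Pool.Agent.Work.MP_cb380d_ev.InterfaceB

/-! Block PSS (helper78). -/

set_option autoImplicit false

open Pool.IC Pool.GL Pool.TL Polynomial

namespace Pool.EV

theorem PSS_bound (a E n k : ℕ) :
    (fun m => if m < 4 * n + 4 then m ^ E else m)^[k] a ≤ a + (4 * n + 4) ^ E := by
  induction k with
  | zero => simp
  | succ k ih =>
    rw [Function.iterate_succ_apply']
    set m := (fun m => if m < 4 * n + 4 then m ^ E else m)^[k] a with hm
    by_cases h : m < 4 * n + 4
    · simp only [h, if_true]
      have : m ^ E ≤ (4 * n + 4) ^ E := Nat.pow_le_pow_left h.le E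
      omega
    · simp only [h, if_false]
      exact ih

theorem p_PSS : Stmt_PSS := by
  intro B a E
  have hstep : PolyF B (fun p : ℕ × ℕ × Unit =>
      if p.2.1 < 4 * p.1 + 4 then p.2.1 ^ E else p.2.1) := by
    have h1 : PolyF B (fun p : ℕ × ℕ × Unit => p.2.1 ^ E) :=
      PolyF.pow (f := fun p : ℕ × ℕ × Unit => p.2.1) (by fun_prop) E
    refine PolyF.ite' (c := fun p : ℕ × ℕ × Unit => p.2.1 < 4 * p.1 + 4) ?_ h1 (by fun_prop)
    fun_prop
  have h := PolyF.foldl (B := B) (l := fun n : ℕ => TL.units (4 * n + 4)) (g := fun _ : ℕ => a)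
    (h := fun n m _ => if m < 4 * n + 4 then m ^ E else m) (by fun_prop) (by fun_prop) hstep
    (Polynomial.C a + (Polynomial.C 4 * Polynomial.X + Polynomial.C 4) ^ E) ?_
  · refine h.congrF fun n => ?_
    rw [foldl_units]
    rfl
  · intro n j hj
    have ht : (TL.units (4 * n + 4)).take j = TL.units j := by
      simp only [TL.units, List.take_replicate]
      congr 1
      simp only [length_units] at hj
      omega
    rw [ht, foldl_units, sz_nat]
    simp only [Polynomial.eval_add, Polynomial.eval_C, Polynomial.eval_pow, Polynomial.eval_mul,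
      Polynomial.eval_X, sz_nat]
    exact PSS_bound a E n j

end Pool.EV
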