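import Pool.Agent.Work.MP_cb380d_ev.InterfaceB

/-! # Block PST: the run in polynomial time -/

open Pool.IC Pool.GL Pool.TL Polynomial

namespace Pool.EV

theorem PST_es (esc : Str × List ℕ × ℕ × ℕ → Str) (z : Str) (T : List ℕ) (a K : ℕ) :
    (es esc z T a K).length = z.length := by
  unfold es
  split_ifs with h
  · exact h
  · rfl

theorem PST_fd (u v : Str) : fd u v ≤ u.length + v.length := by
  unfold fd
  cases h : (List.range (u.length + v.length)).filter fun b => decide (u[b]? ≠ v[b]?) with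
  | nil => simp
  | cons a t =>
    have h1 : a ∈ (List.range (u.length + v.length)).filter fun b => decide (u[b]? ≠ v[b]?) := by
      rw [h]
      exact List.mem_cons_self
    have h2 := (List.mem_filter.1 h1).1
    rw [List.mem_range] at h2
    simp only [List.headD_cons]
    omega

theorem PST_szT (M : ℕ) (T : List ℕ) (h : ∀ x ∈ T, x ≤ M) : sz T ≤ T.length * (2 * M + 2) := by
  induction T with
  | nil => simp
  | cons a T ih =>
    have h1 := ih fun x hx => h x (List.mem_cons_of_mem _ hx)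
    have h2 := h a List.mem_cons_self
    simp only [sz_cons, sz_nat, List.length_cons]
    rw [add_mul T.length 1 (2 * M + 2), one_mul]
    omega

theorem PST_key (g : Str → Str) (esc : Str × List ℕ × ℕ × ℕ → Str) (ch : ℕ → Str → Str → ℕ → Bool)
    (ν K L0 M : ℕ) (hM : ∀ u v : Str, u.length = L0 → v.length = L0 → fd (g u) (g v) ≤ M)
    (t : List ℕ) : ∀ s : St, s.1.length = L0 → (∀ x ∈ s.2.1, x ≤ M) →
      (t.foldl (stp g esc ch ν K) s).1.length = L0 ∧
      (∀ x ∈ (t.foldl (stp g esc ch ν K) s).2.1, x ≤ M) ∧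
      (t.foldl (stp g esc ch ν K) s).2.1.length = s.2.1.length + t.length ∧
      (t.foldl (stp g esc ch ν K) s).2.2.length = s.2.2.length + t.length := by
  induction t with
  | nil =>
    intro s h1 h2
    exact ⟨h1, h2, rfl, rfl⟩
  | cons l t ih =>
    intro s h1 h2
    rw [List.foldl_cons]
    have e1 : (stp g esc ch ν K s l).1.length = L0 := by
      unfold stp
      dsimp only
      cases ch l s.1 (es esc s.1 s.2.1 (lo ν K (l + 1)) K)
        (fd (g s.1) (g (es esc s.1 s.2.1 (lo ν K (l + 1)) K)))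
      · exact h1
      · rw [cond_true, PST_es, h1]
    have e2 : ∀ x ∈ (stp g esc ch ν K s l).2.1, x ≤ M := by
      intro x hx
      unfold stp at hx
      dsimp only at hx
      rcases List.mem_cons.1 hx with rfl | hx
      · exact hM _ _ h1 (by rw [PST_es, h1])
      · exact h2 x hx
    have e3 : (stp g esc ch ν K s l).2.1.length = s.2.1.length + 1 := by
      unfold stp
      simp
    have e4 : (stp g esc ch ν K s l).2.2.length = s.2.2.length + 1 := by
      unfold stp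
      simp
    obtain ⟨f1, f2, f3, f4⟩ := ih _ e1 e2
    refine ⟨f1, f2, ?_, ?_⟩
    · rw [f3, e3, List.length_cons]
      omega
    · rw [f4, e4, List.length_cons]
      omega

theorem PST_frm (ν K : ℕ) : (frm ν K (List.replicate (ν * K) false)).length = ν + K + 2 + ν * K := by
  simp only [frm, un, List.length_append, List.length_cons, List.length_replicate]
  omega

theorem p_PST (hPLF : Stmt_PLF) : Stmt_PST := by
  intro B g esc hg hesc γ _ ch hch
  obtain ⟨-, -, -, -, -, hfd, hfrm, -, -, -, -, -, hes⟩ := hPLF B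
  have hes := hes esc hesc
  -- the step
  have hlo : PolyF B (fun q : (γ × ℕ × ℕ × ℕ) × St × ℕ => lo q.1.2.1 q.1.2.2.1 (q.2.2 + 1)) := by
    unfold lo
    fun_prop
  have hz : PolyF B (fun q : (γ × ℕ × ℕ × ℕ) × St × ℕ =>
      es esc q.2.1.1 q.2.1.2.1 (lo q.1.2.1 q.1.2.2.1 (q.2.2 + 1)) q.1.2.2.1) :=
    PolyF.comp (f := fun p : Str × List ℕ × ℕ × ℕ => es esc p.1 p.2.1 p.2.2.1 p.2.2.2)
      (g := fun q : (γ × ℕ × ℕ × ℕ) × St × ℕ =>
        (q.2.1.1, q.2.1.2.1, lo q.1.2.1 q.1.2.2.1 (q.2.2 + 1), q.1.2.2.1)) hes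
      (PolyF.pair (by fun_prop) (PolyF.pair (by fun_prop) (PolyF.pair hlo (by fun_prop))))
  have hb : PolyF B (fun q : (γ × ℕ × ℕ × ℕ) × St × ℕ => fd (g q.2.1.1)
      (g (es esc q.2.1.1 q.2.1.2.1 (lo q.1.2.1 q.1.2.2.1 (q.2.2 + 1)) q.1.2.2.1))) :=
    PolyF.comp (f := fun p : Str × Str => fd p.1 p.2)
      (g := fun q : (γ × ℕ × ℕ × ℕ) × St × ℕ => (g q.2.1.1,
        g (es esc q.2.1.1 q.2.1.2.1 (lo q.1.2.1 q.1.2.2.1 (q.2.2 + 1)) q.1.2.2.1))) hfd
      (PolyF.pair (PolyF.comp hg (by fun_prop)) (PolyF.comp hg hz))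
  have hc : PolyF B (fun q : (γ × ℕ × ℕ × ℕ) × St × ℕ => ch q.1.1 q.2.2 q.2.1.1
      (es esc q.2.1.1 q.2.1.2.1 (lo q.1.2.1 q.1.2.2.1 (q.2.2 + 1)) q.1.2.2.1)
      (fd (g q.2.1.1)
        (g (es esc q.2.1.1 q.2.1.2.1 (lo q.1.2.1 q.1.2.2.1 (q.2.2 + 1)) q.1.2.2.1)))) :=
    PolyF.comp (f := fun p : γ × ℕ × Str × Str × ℕ =>
        ch p.1 p.2.1 p.2.2.1 p.2.2.2.1 p.2.2.2.2)
      (g := fun q : (γ × ℕ × ℕ × ℕ) × St × ℕ => (q.1.1, q.2.2, q.2.1.1,
        es esc q.2.1.1 q.2.1.2.1 (lo q.1.2.1 q.1.2.2.1 (q.2.2 + 1)) q.1.2.2.1,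
        fd (g q.2.1.1)
          (g (es esc q.2.1.1 q.2.1.2.1 (lo q.1.2.1 q.1.2.2.1 (q.2.2 + 1)) q.1.2.2.1)))) hch
      (PolyF.pair (by fun_prop) (PolyF.pair (by fun_prop) (PolyF.pair (by fun_prop)
        (PolyF.pair hz hb))))
  have hstp : PolyF B (fun q : (γ × ℕ × ℕ × ℕ) × St × ℕ =>
      stp g esc (ch q.1.1) q.1.2.1 q.1.2.2.1 q.2.1 q.2.2) := by
    unfold stp
    refine PolyF.pair (PolyF.cond hc hz (by fun_prop)) (PolyF.pair (PolyF.cons hb (by fun_prop))
      (PolyF.append (by fun_prop) (PolyF.cons hc (PolyF.const []))))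
  have hst : PolyF B (fun p : γ × ℕ × ℕ × ℕ =>
      ((frm p.2.1 p.2.2.1 (List.replicate (p.2.1 * p.2.2.1) false), [], []) : St)) :=
    PolyF.pair (PolyF.comp (f := fun p : ℕ × ℕ => frm p.1 p.2 (List.replicate (p.1 * p.2) false))
      (g := fun p : γ × ℕ × ℕ × ℕ => (p.2.1, p.2.2.1)) hfrm (by fun_prop))
      (PolyF.pair (PolyF.const []) (PolyF.const []))
  have hrange : PolyF B (fun p : γ × ℕ × ℕ × ℕ => List.range p.2.2.2) := by fun_prop
  -- the bound
  obtain ⟨q, hq⟩ := hg.size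
  unfold rn
  refine PolyF.foldl (l := fun p : γ × ℕ × ℕ × ℕ => List.range p.2.2.2)
    (h := fun p : γ × ℕ × ℕ × ℕ => stp g esc (ch p.1) p.2.1 p.2.2.1) hrange hst hstp
    (8 * (X + X + 2 + X * X) + 2 * (X * (4 * q.comp (4 * (X + X + 2 + X * X)) + 2)) + 4 * X + 2) ?_
  rintro ⟨c, ν, K, n⟩ j hj
  simp only [List.length_range] at hj
  simp only
  obtain ⟨N, hN⟩ : ∃ N, N = sz (c, ν, K, n) := ⟨_, rfl⟩
  have hNν : ν ≤ N := by rw [hN]; simp only [sz_pair, sz_nat]; omega
  have hNK : K ≤ N := by rw [hN]; simp only [sz_pair, sz_nat]; omega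
  have hNn : n ≤ N := by rw [hN]; simp only [sz_pair, sz_nat]; omega
  obtain ⟨L0, hL0⟩ : ∃ L0, L0 = ν + K + 2 + ν * K := ⟨_, rfl⟩
  have hL0N : L0 ≤ N + N + 2 + N * N := by
    have := Nat.mul_le_mul hNν hNK
    omega
  have hM : ∀ u v : Str, u.length = L0 → v.length = L0 → fd (g u) (g v) ≤ 2 * q.eval (4 * L0) := by
    intro u v hu hv
    have h1 := PST_fd (g u) (g v)
    have h2 := hq u
    have h3 := hq v
    rw [sz_str, sz_str, hu] at h2
    rw [sz_str, sz_str, hv] at h3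
    omega
  obtain ⟨f1, f2, f3, f4⟩ := PST_key g esc (ch c) ν K L0 (2 * q.eval (4 * L0)) hM
    ((List.range n).take j) (frm ν K (List.replicate (ν * K) false), [], [])
    (by rw [PST_frm, hL0]) (by simp)
  obtain ⟨r, hr⟩ : ∃ r, r = ((List.range n).take j).foldl (stp g esc (ch c) ν K)
    (frm ν K (List.replicate (ν * K) false), [], []) := ⟨_, rfl⟩
  rw [← hr] at f1 f2 f3 f4
  rw [← hr, ← hN]
  have hlen : ((List.range n).take j).length ≤ N := by
    rw [List.length_take, List.length_range]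
    omega
  simp only [List.length_nil, zero_add] at f3 f4
  have hT := PST_szT _ _ f2
  rw [f3] at hT
  have hmono : q.eval (4 * L0) ≤ q.eval (4 * (N + N + 2 + N * N)) := poly_mono q (by omega)
  have hT' : ((List.range n).take j).length * (2 * (2 * q.eval (4 * L0)) + 2) ≤
      N * (4 * q.eval (4 * (N + N + 2 + N * N)) + 2) := Nat.mul_le_mul hlen (by omega)
  rw [sz_pair, sz_pair, sz_str, sz_str, f1, f4]
  simp only [eval_add, eval_mul, eval_comp, eval_X, eval_ofNat]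
  omega

end Pool.EV
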