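import Pool.Agent.Work.MP_cb380d_ev.InterfaceG

/-!
# MP_cb380d_lc, CircuitReductions, PART G: block PTP (the potentials)
-/

open Pool.IC Pool.GL Pool.TL Polynomial

namespace Pool.EV

/-- the powers of two -/
def PTP_pw (t : ℕ) : List ℕ := (List.range (t + 1)).map fun i => 2 ^ i

theorem PTP_pw_get (t k : ℕ) : (PTP_pw t).getD (t - k) 0 = 2 ^ (t - k) := by
  unfold PTP_pw
  have h : t - k < ((List.range (t + 1)).map fun i => 2 ^ i).length := by
    rw [List.length_map, List.length_range]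
    omega
  rw [List.getD_eq_getElem _ _ h, List.getElem_map, List.getElem_range]

theorem PTP_wga (B : Set Str) (t : ℕ) : PolyF B (fun p : Str × Lits => wga t p.1 p.2) := by
  have h0 : PolyF B (fun q : (Str × Lits) × (ℕ × Bool) =>
      decide (q.2.1 < q.1.1.length) && decide (q.1.1.getD q.2.1 false ≠ q.2.2)) := by
    have h : PolyF B (fun q : (Str × Lits) × (ℕ × Bool) =>
        decide (q.2.1 < q.1.1.length) && !(decide (q.1.1.getD q.2.1 false = q.2.2))) := by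
      fun_prop
    refine h.congrF fun q => ?_
    simp
  have h1 : PolyF B (fun p : Str × Lits => p.2.any fun l =>
      decide (l.1 < p.1.length) && decide (p.1.getD l.1 false ≠ l.2)) :=
    PolyF.any (l := fun p : Str × Lits => p.2) (f := fun (p : Str × Lits) (l : ℕ × Bool) =>
      decide (l.1 < p.1.length) && decide (p.1.getD l.1 false ≠ l.2)) (by fun_prop) h0
  have h2 : PolyF B (fun p : Str × Lits =>
      (p.2.filter fun l => decide (p.1.length ≤ l.1)).length) :=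
    PolyF.length (PolyF.filter (l := fun p : Str × Lits => p.2)
      (f := fun (p : Str × Lits) (l : ℕ × Bool) => decide (p.1.length ≤ l.1)) (by fun_prop)
      (by fun_prop))
  obtain ⟨A, hA, hAe⟩ : ∃ A : Str × Lits → Bool, PolyF B A ∧ ∀ p, A p = (p.2.any fun l =>
      decide (l.1 < p.1.length) && decide (p.1.getD l.1 false ≠ l.2)) := ⟨_, h1, fun _ => rfl⟩
  obtain ⟨N, hN, hNe⟩ : ∃ N : Str × Lits → ℕ, PolyF B N ∧ ∀ p, N p =
      (p.2.filter fun l => decide (p.1.length ≤ l.1)).length := ⟨_, h2, fun _ => rfl⟩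
  have h3 : PolyF B (fun p : Str × Lits => bif A p then 0 else (PTP_pw t).getD (t - N p) 0) := by
    refine PolyF.cond hA (PolyF.const 0) (PolyF.getD ?_ (PolyF.const (PTP_pw t)) (PolyF.const 0))
    fun_prop
  refine h3.congrF fun p => ?_
  rw [PTP_pw_get, hAe, hNe]
  unfold wga
  cases (p.2.any fun l => decide (l.1 < p.1.length) && decide (p.1.getD l.1 false ≠ l.2)) <;> simp

theorem PTP_tob (B : Set Str) : PolyF B tob := by
  have h : PolyF B (fun c : List ℕ => c.map fun o => decide (o = 1)) :=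
    PolyF.map (l := fun c : List ℕ => c) (f := fun (_ : List ℕ) (o : ℕ) => decide (o = 1))
      (by fun_prop) (by fun_prop)
  exact h

theorem PTP_pta (hCPP : Stmt_CPP) (B : Set Str) (t : ℕ) :
    PolyF B (fun p : ℕ × List (List Lits) × Str => pta t p.1 p.2.1 p.2.2) := by
  have hw := PTP_wga B t
  obtain ⟨W, hW, hWe⟩ : ∃ W : Str × Lits → ℕ, PolyF B W ∧ ∀ p, W p = wga t p.1 p.2 :=
    ⟨_, hw, fun _ => rfl⟩
  obtain ⟨P, hP, hPe⟩ : ∃ P : ℕ × List ℕ → ℕ, PolyF B P ∧ ∀ p, P p = cpr p.1 p.2 :=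
    ⟨_, hCPP B, fun _ => rfl⟩
  have h1 : PolyF B (fun q : (ℕ × List (List Lits) × Str) × List Lits =>
      q.2.map fun T => 2 ^ (t + 1) - W (q.1.2.2, T)) :=
    PolyF.map (l := fun q : (ℕ × List (List Lits) × Str) × List Lits => q.2)
      (f := fun (q : (ℕ × List (List Lits) × Str) × List Lits) (T : Lits) =>
        2 ^ (t + 1) - W (q.1.2.2, T)) (by fun_prop) (by fun_prop)
  have h2 : PolyF B (fun q : (ℕ × List (List Lits) × Str) × List Lits =>
      P (q.1.1, q.2.map fun T => 2 ^ (t + 1) - W (q.1.2.2, T))) :=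
    PolyF.comp hP (PolyF.pair (by fun_prop) h1)
  have h3 : PolyF B (fun p : ℕ × List (List Lits) × Str => (p.2.1.map fun f =>
      P (p.1, f.map fun T => 2 ^ (t + 1) - W (p.2.2, T))).sum) :=
    PolyF.sum (PolyF.map (l := fun p : ℕ × List (List Lits) × Str => p.2.1)
      (f := fun (p : ℕ × List (List Lits) × Str) (f : List Lits) =>
        P (p.1, f.map fun T => 2 ^ (t + 1) - W (p.2.2, T))) (by fun_prop) h2)
  refine h3.congrF fun p => ?_
  simp only [hPe, hWe]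
  rfl

theorem PTP_wgb (hDVF : Stmt_DVF) (B : Set Str) :
    PolyF B (fun p : ℕ × List ℕ × ℕ => wgb p.1 p.2.1 p.2.2) := by
  obtain ⟨D, hD, hDe⟩ : ∃ D : ℕ × ℕ → ℕ, PolyF B D ∧ ∀ p, D p = p.1 / p.2 :=
    ⟨_, (hDVF B).1, fun _ => rfl⟩
  obtain ⟨M, hM, hMe⟩ : ∃ M : ℕ × ℕ → ℕ, PolyF B M ∧ ∀ p, M p = p.1 % p.2 :=
    ⟨_, (hDVF B).2.1, fun _ => rfl⟩
  have h : PolyF B (fun p : ℕ × List ℕ × ℕ => if D (p.2.2, p.1) < p.2.1.length then
      (if p.2.1.getD (D (p.2.2, p.1)) 0 = M (p.2.2, p.1) then p.1 else 1) else 2) := by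
    fun_prop
  refine h.congrF fun p => ?_
  simp only [hDe, hMe]
  rfl

theorem PTP_ptb (hDVF : Stmt_DVF) (hCPP : Stmt_CPP) (B : Set Str) :
    PolyF B (fun p : ℕ × ℕ × List (List ℕ) × List ℕ => ptb p.1 p.2.1 p.2.2.1 p.2.2.2) := by
  obtain ⟨W, hW, hWe⟩ : ∃ W : ℕ × List ℕ × ℕ → ℕ, PolyF B W ∧ ∀ p, W p = wgb p.1 p.2.1 p.2.2 :=
    ⟨_, PTP_wgb hDVF B, fun _ => rfl⟩
  obtain ⟨P, hP, hPe⟩ : ∃ P : ℕ × List ℕ → ℕ, PolyF B P ∧ ∀ p, P p = cpr p.1 p.2 :=
    ⟨_, hCPP B, fun _ => rfl⟩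
  have h1 : PolyF B (fun q : (ℕ × ℕ × List (List ℕ) × List ℕ) × List ℕ =>
      q.2.map fun x => W (q.1.1, q.1.2.2.2, x)) :=
    PolyF.map (l := fun q : (ℕ × ℕ × List (List ℕ) × List ℕ) × List ℕ => q.2)
      (f := fun (q : (ℕ × ℕ × List (List ℕ) × List ℕ) × List ℕ) (x : ℕ) =>
        W (q.1.1, q.1.2.2.2, x)) (by fun_prop) (by fun_prop)
  have h2 : PolyF B (fun q : (ℕ × ℕ × List (List ℕ) × List ℕ) × List ℕ =>
      P (q.1.2.1, q.2.map fun x => W (q.1.1, q.1.2.2.2, x))) :=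
    PolyF.comp hP (PolyF.pair (by fun_prop) h1)
  have h3 : PolyF B (fun p : ℕ × ℕ × List (List ℕ) × List ℕ => (p.2.2.1.map fun H =>
      P (p.2.1, H.map fun x => W (p.1, p.2.2.2, x))).sum) :=
    PolyF.sum (PolyF.map (l := fun p : ℕ × ℕ × List (List ℕ) × List ℕ => p.2.2.1)
      (f := fun (p : ℕ × ℕ × List (List ℕ) × List ℕ) (H : List ℕ) =>
        P (p.2.1, H.map fun x => W (p.1, p.2.2.2, x))) (by fun_prop) h2)
  refine h3.congrF fun p => ?_
  simp only [hPe, hWe]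
  rfl

theorem p_PTP (hDVF : Stmt_DVF) (hCPP : Stmt_CPP) (hGRP : Stmt_GRP) : Stmt_PTP := by
  intro B t
  constructor
  · obtain ⟨P, hP, hPe⟩ : ∃ P : ℕ × List (List Lits) × Str → ℕ, PolyF B P ∧
        ∀ p, P p = pta t p.1 p.2.1 p.2.2 := ⟨_, PTP_pta hCPP B t, fun _ => rfl⟩
    have htob := PTP_tob B
    have h1 : PolyF B (fun p : (ℕ × ℕ × List (List Lits)) × List ℕ =>
        P (p.1.1, p.1.2.2, tob p.2)) := by fun_prop
    have h2 := hGRP B (ℕ × ℕ × List (List Lits)) (fun _ => 2) (fun p => p.2.1 * p.2.1)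
      (fun p c => P (p.1, p.2.2, tob c)) (by fun_prop) (by fun_prop) h1
    have h3 : PolyF B (fun p : ℕ × ℕ × List (List Lits) =>
        tob (grd 2 (fun c => P (p.1, p.2.2, tob c)) (p.2.1 * p.2.1))) :=
      PolyF.comp htob h2
    refine h3.congrF fun p => ?_
    simp only [hPe]
    rfl
  · obtain ⟨P, hP, hPe⟩ : ∃ P : ℕ × ℕ × List (List ℕ) × List ℕ → ℕ, PolyF B P ∧
        ∀ p, P p = ptb p.1 p.2.1 p.2.2.1 p.2.2.2 := ⟨_, PTP_ptb hDVF hCPP B, fun _ => rfl⟩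
    have h1 : PolyF B (fun p : (ℕ × ℕ × List (List ℕ)) × List ℕ =>
        P (p.1.1, p.1.2.1, p.1.2.2, p.2)) := by fun_prop
    have h2 := hGRP B (ℕ × ℕ × List (List ℕ)) (fun p => p.1) (fun p => p.1)
      (fun p c => P (p.1, p.2.1, p.2.2, c)) (by fun_prop) (by fun_prop) h1
    refine h2.congrF fun p => ?_
    simp only [hPe]
    rfl

end Pool.EV
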