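import Pool.Agent.Work.MP_cb380d_ev.InterfaceF

open Pool.IC Pool.GL Pool.TL Polynomial

namespace Pool.EV

/-- The value of a kept or fixed variable. -/
theorem RDC_val (hPLG : Stmt_PLG) (hCUB : Stmt_CUB) (n : ℕ) (kb : List ℕ × Str) (α : Lits) (x : Str)
    (hx : x.length = n) (hα : ∀ l ∈ α, x.getD l.1 false = l.2) (p : ℕ) (hp : p < n * n) :
    (∀ c, sta n kb α p = some c → (plug kb x).getD p false = c) ∧
    (sta n kb α p = none → (plug kb x).getD p false = x.getD (p / n) false) := by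
  have hy := (hPLG kb x n hx).2 p hp
  unfold sta
  by_cases hk : kb.1.getD (p / n) 0 = p % n
  · rw [if_pos hk]
    rw [if_pos hk] at hy
    refine ⟨fun c hc => ?_, fun _ => hy⟩
    have hm := hCUB.2.2.1 α (p / n) c hc
    have := hα _ hm
    rw [hy]
    exact this
  · rw [if_neg hk]
    rw [if_neg hk] at hy
    refine ⟨fun c hc => ?_, fun h => by simp at h⟩
    rw [hy]
    exact Option.some.inj hc

/-- One term. -/
theorem RDC_term (hPLG : Stmt_PLG) (hCUB : Stmt_CUB) (n : ℕ) (kb : List ℕ × Str) (α : Lits) (x : Str)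
    (hx : x.length = n) (hα : ∀ l ∈ α, x.getD l.1 false = l.2) (T : Lits)
    (hT : ∀ l ∈ T, l.1 < n * n) :
    ((T.all fun l => decide (sta n kb α l.1 = none) || decide (sta n kb α l.1 = some l.2)) = true ∧
      tev x ((T.filter fun l => decide (sta n kb α l.1 = none)).map fun l => (l.1 / n, l.2)) = true)
      ↔ tev (plug kb x) T = true := by
  unfold tev
  simp only [List.all_eq_true, List.mem_map, List.mem_filter, decide_eq_true_eq,
    Bool.or_eq_true]
  constructor
  · rintro ⟨h1, h2⟩ l hl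
    obtain ⟨v1, v2⟩ := RDC_val hPLG hCUB n kb α x hx hα l.1 (hT l hl)
    rcases h1 l hl with h | h
    · rw [v2 h]
      exact h2 (l.1 / n, l.2) ⟨l, ⟨hl, h⟩, rfl⟩
    · exact v1 _ h
  · intro h
    constructor
    · intro l hl
      obtain ⟨v1, v2⟩ := RDC_val hPLG hCUB n kb α x hx hα l.1 (hT l hl)
      rcases hs : sta n kb α l.1 with _ | c
      · left; rfl
      · right
        have := v1 c hs
        rw [h l hl] at this
        rw [this]
    · rintro l' ⟨l, ⟨hl, hn⟩, rfl⟩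
      obtain ⟨v1, v2⟩ := RDC_val hPLG hCUB n kb α x hx hα l.1 (hT l hl)
      show x.getD (l.1 / n) false = l.2
      rw [← v2 hn]
      exact h l hl

theorem p_RDC (hPLG : Stmt_PLG) (hCUB : Stmt_CUB) : Stmt_RDC := by
  intro n kb α F x hx hF hα
  rw [Bool.eq_iff_iff]
  unfold dev rdn
  simp only [List.any_eq_true, List.mem_map, List.mem_filter]
  constructor
  · rintro ⟨T', ⟨T, ⟨hT, h1⟩, rfl⟩, h2⟩
    exact ⟨T, hT, (RDC_term hPLG hCUB n kb α x hx hα T (hF T hT)).1 ⟨h1, h2⟩⟩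
  · rintro ⟨T, hT, h⟩
    obtain ⟨h1, h2⟩ := (RDC_term hPLG hCUB n kb α x hx hα T (hF T hT)).2 h
    exact ⟨_, ⟨T, ⟨hT, h1⟩, rfl⟩, h2⟩

end Pool.EV
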