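import Pool.Agent.Work.MP_cb380d_ev.InterfaceF

open Pool.IC Pool.GL Pool.TL Polynomial

namespace Pool.EV

theorem RDT_kept (n : ℕ) (kb : List ℕ × Str) (α : Lits) (p : ℕ) (h : sta n kb α p = none) :
    kb.1.getD (p / n) 0 = p % n := by
  unfold sta at h
  by_contra hk
  rw [if_neg hk] at h
  exact absurd h (by simp)

/-- RDT -/
theorem p_RDT (h1 : Stmt_FAM) (h2 : Stmt_CUB) : Stmt_RDT := by
  intro n t A h kb α F hF hA hK hα T' hT'
  obtain ⟨-, c2, -, c4, -⟩ := h2
  have hfst : α.map Prod.fst = kin n kb.1 (hs A F) := (c2 h _ hK).1 α hα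
  unfold rdn at hT'
  rw [List.mem_map] at hT'
  obtain ⟨T, hT, rfl⟩ := hT'
  rw [List.mem_filter] at hT
  obtain ⟨hTF, -⟩ := hT
  obtain ⟨t1, t2, t3⟩ := hF T hTF
  obtain ⟨-, -, -, -, -, f6⟩ := h1 (n * n) (t + 1) A F hF
  refine ⟨?_, ?_, ?_⟩
  · rw [List.length_map]
    rcases f6 hA T hTF with h0 | ⟨l, hl, hlH⟩
    · rw [h0]
      simp
    · have hlt : (T.filter fun l => decide (sta n kb α l.1 = none)).length < T.length := by
        rw [List.length_filter_lt_length_iff_exists]
        refine ⟨l, hl, ?_⟩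
        rw [decide_eq_true_iff]
        unfold sta
        by_cases hk : kb.1.getD (l.1 / n) 0 = l.1 % n
        · rw [if_pos hk]
          apply c4
          rw [hfst]
          unfold kin
          rw [List.mem_filter, List.mem_range]
          refine ⟨Nat.div_lt_of_lt_mul (t3 l hl), ?_⟩
          rw [List.any_eq_true]
          refine ⟨l.1, hlH, ?_⟩
          rw [decide_eq_true_iff, hk]
          exact (Nat.div_add_mod' l.1 n).symm
        · rw [if_neg hk]
          simp
      omega
  · rw [List.map_map]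
    have hnd : T.Nodup := List.Nodup.of_map _ t2
    refine List.Nodup.map_on ?_ (hnd.filter _)
    intro x hx y hy hxy
    rw [List.mem_filter, decide_eq_true_iff] at hx hy
    have hxy' : x.1 / n = y.1 / n := hxy
    have hx1 := RDT_kept n kb α x.1 hx.2
    have hy1 := RDT_kept n kb α y.1 hy.2
    have e : x.1 = y.1 := by
      rw [← Nat.div_add_mod' x.1 n, ← Nat.div_add_mod' y.1 n, ← hx1, ← hy1, hxy']
    exact List.inj_on_of_nodup_map t2 hx.1 hy.1 e
  · intro l hl
    rw [List.mem_map] at hl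
    obtain ⟨l', hl', rfl⟩ := hl
    rw [List.mem_filter] at hl'
    exact Nat.div_lt_of_lt_mul (t3 l' hl'.1)

end Pool.EV
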