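import Pool.Agent.Work.MP_cb380d_ev.InterfaceF

/-!
# Block RLC: the relevant places
-/

set_option autoImplicit false

open Pool.IC Pool.GL Pool.TL Polynomial

namespace Pool.EV

theorem RLC_sbs (n : ℕ) : ∀ (t : ℕ) (A : List ℕ), A.length ≤ t → (∀ i ∈ A, i < n) → A ∈ sbs t n := by
  intro t
  induction t with
  | zero =>
    intro A hA _
    have h : A = [] := List.length_eq_zero_iff.mp (Nat.le_zero.mp hA)
    rw [h]
    simp [sbs]
  | succ t ih =>
    intro A hA hn
    cases A with
    | nil => simp [sbs]
    | cons a A =>
      rw [sbs]
      refine List.mem_cons_of_mem _ ?_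
      rw [List.mem_flatMap]
      refine ⟨a, List.mem_range.mpr (hn a (List.mem_cons_self)), ?_⟩
      rw [List.mem_map]
      exact ⟨A, ih A (by simpa using hA) (fun i hi => hn i (List.mem_cons_of_mem _ hi)), rfl⟩

theorem RLC_chr_length (n : ℕ) (A : List ℕ) : (chr n A).length = n := by
  simp [chr]

theorem RLC_chr_getD (n : ℕ) (A : List ℕ) (i : ℕ) (hi : i < n) :
    (chr n A).getD i false = decide (i ∈ A) := by
  rw [List.getD_eq_getElem _ _ (by rw [RLC_chr_length]; exact hi)]
  simp only [chr, List.getElem_map, List.getElem_range]
  by_cases h : i ∈ A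
  · rw [decide_eq_true h, List.any_eq_true]
    exact ⟨i, h, by simp⟩
  · rw [decide_eq_false h, List.any_eq_false]
    intro j hj
    simp only [decide_eq_true_eq]
    rintro rfl
    exact h hj

theorem RLC_getD_ge (x : Str) (i : ℕ) (h : x.length ≤ i) : x.getD i false = false := by
  rw [List.getD_eq_default _ _ h]

theorem RLC_ext (n : ℕ) (x y : Str) (hx : x.length = n) (hy : y.length = n)
    (h : ∀ i < n, x.getD i false = y.getD i false) : x = y := by
  refine List.ext_getElem (by rw [hx, hy]) ?_
  intro i h1 h2
  have := h i (by rw [← hx]; exact h1)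
  rwa [List.getD_eq_getElem _ _ h1, List.getD_eq_getElem _ _ h2] at this

theorem RLC_mod_getD (x : Str) (a i : ℕ) (hi : i < x.length) :
    (x.modify a not).getD i false = if a = i then !(x.getD i false) else x.getD i false := by
  have h1 : i < (x.modify a not).length := by rw [List.length_modify]; exact hi
  rw [List.getD_eq_getElem _ _ h1, List.getD_eq_getElem _ _ hi, List.getElem_modify]

theorem RLC_core (t n : ℕ) (G : Str → Bool) (J : Finset ℕ) (hJ : J.card ≤ t) (D : Finset ℕ) :
    (∀ a ∈ D, a ∉ rel t n G) → ∀ P : Finset ℕ, P ⊆ J → (∀ i ∈ P, i < n) →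
    G (chr n P.toList) = G (chr n (P \ D).toList) := by
  induction D using Finset.induction_on with
  | empty =>
    intro _ P _ _
    rw [Finset.sdiff_empty]
  | insert a D ha ih =>
    intro hD P hP hPn
    rw [ih (fun b hb => hD b (Finset.mem_insert_of_mem hb)) P hP hPn]
    by_cases haP : a ∈ P \ D
    · have hset : P \ insert a D = (P \ D).erase a := by
        ext i
        simp only [Finset.mem_sdiff, Finset.mem_insert, Finset.mem_erase]
        tauto
      rw [hset]
      set P' := P \ D with hP'
      have han : a < n := hPn a (Finset.mem_sdiff.mp haP).1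
      have hmem : (P'.erase a).toList ∈ sbs t n := by
        apply RLC_sbs
        · rw [Finset.length_toList]
          refine le_trans (Finset.card_le_card ?_) hJ
          exact (Finset.erase_subset _ _).trans (Finset.sdiff_subset.trans hP)
        · intro i hi
          rw [Finset.mem_toList] at hi
          exact hPn i (Finset.mem_sdiff.mp (Finset.mem_of_mem_erase hi)).1
      have hrel := hD a (Finset.mem_insert_self a D)
      have heq : G (chr n (P'.erase a).toList) = G ((chr n (P'.erase a).toList).modify a not) := by
        by_contra hne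
        apply hrel
        rw [rel, List.mem_filter]
        refine ⟨List.mem_range.mpr han, ?_⟩
        rw [List.any_eq_true]
        exact ⟨_, hmem, decide_eq_true hne⟩
      rw [heq]
      congr 1
      refine RLC_ext n _ _ (RLC_chr_length _ _) (by rw [List.length_modify, RLC_chr_length]) ?_
      intro i hi
      rw [RLC_mod_getD _ _ _ (by rw [RLC_chr_length]; exact hi), RLC_chr_getD _ _ _ hi,
        RLC_chr_getD _ _ _ hi]
      by_cases hai : a = i
      · subst hai
        simp [haP]
      · rw [if_neg hai]
        congr 1
        simp [Ne.symm hai]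
    · have hset : P \ insert a D = P \ D := by
        ext i
        simp only [Finset.mem_sdiff, Finset.mem_insert] at haP ⊢
        constructor
        · rintro ⟨h1, h2⟩
          exact ⟨h1, fun h => h2 (Or.inr h)⟩
        · rintro ⟨h1, h2⟩
          refine ⟨h1, ?_⟩
          rintro (h | h)
          · subst h
            exact haP ⟨h1, h2⟩
          · exact h2 h
      rw [hset]

theorem p_RLC : Stmt_RLC := by
  intro t n G hJun
  obtain ⟨J, hJ, hG⟩ := hJun
  have hnd : (rel t n G).Nodup := (List.nodup_range).filter _
  have hlt : ∀ i ∈ rel t n G, i < n := by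
    intro i hi
    rw [rel, List.mem_filter] at hi
    exact List.mem_range.mp hi.1
  have hsub : ∀ i ∈ rel t n G, i ∈ J := by
    intro i hi
    have hin := hlt i hi
    rw [rel, List.mem_filter, List.any_eq_true] at hi
    obtain ⟨-, A, -, hA⟩ := hi
    rw [decide_eq_true_eq] at hA
    by_contra hiJ
    apply hA
    refine hG _ _ (RLC_chr_length _ _) (by rw [List.length_modify, RLC_chr_length]) ?_
    intro j hj
    have hij : i ≠ j := fun h => hiJ (h ▸ hj)
    by_cases hjn : j < n
    · rw [RLC_mod_getD _ _ _ (by rw [RLC_chr_length]; exact hjn), if_neg hij]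
    · rw [RLC_getD_ge _ _ (by rw [RLC_chr_length]; exact not_lt.mp hjn),
        RLC_getD_ge _ _ (by rw [List.length_modify, RLC_chr_length]; exact not_lt.mp hjn)]
  refine ⟨?_, hnd, hlt, ?_⟩
  · rw [← List.toFinset_card_of_nodup hnd]
    refine le_trans (Finset.card_le_card ?_) hJ
    intro i hi
    rw [List.mem_toFinset] at hi
    exact hsub i hi
  · -- the main statement
    have key : ∀ x : Str, x.length = n →
        G x = G (chr n ((J.filter fun i => i < n ∧ x.getD i false = true ∧ i ∈ rel t n G)).toList) := by
      intro x hx
      set P : Finset ℕ := J.filter fun i => i < n ∧ x.getD i false = true with hP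
      have h1 : G x = G (chr n P.toList) := by
        refine hG _ _ hx (RLC_chr_length _ _) ?_
        intro i hi
        by_cases hin : i < n
        · rw [RLC_chr_getD _ _ _ hin]
          simp only [Finset.mem_toList, hP, Finset.mem_filter, hi, hin, true_and]
          cases x.getD i false <;> simp
        · rw [RLC_getD_ge _ _ (by rw [hx]; exact not_lt.mp hin),
            RLC_getD_ge _ _ (by rw [RLC_chr_length]; exact not_lt.mp hin)]
      have h2 := RLC_core t n G J hJ (P.filter fun i => i ∉ rel t n G)
        (fun a ha => (Finset.mem_filter.mp ha).2) P (Finset.filter_subset _ _)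
        (fun i hi => (Finset.mem_filter.mp hi).2.1)
      rw [h1, h2]
      congr 3
      ext i
      simp only [hP, Finset.mem_sdiff, Finset.mem_filter]
      tauto
    intro x y hx hy hxy
    rw [key x hx, key y hy]
    congr 3
    ext i
    simp only [Finset.mem_filter]
    constructor
    · rintro ⟨h1, h2, h3, h4⟩
      exact ⟨h1, h2, by rw [← hxy i h4]; exact h3, h4⟩
    · rintro ⟨h1, h2, h3, h4⟩
      exact ⟨h1, h2, by rw [hxy i h4]; exact h3, h4⟩

end Pool.EV
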