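import Pool.Agent.Work.MP_cb380d_ev.InterfaceG

/-! # CircuitReductions, block RLP: relevant places in polynomial time -/

open Pool.IC Pool.GL Pool.TL Polynomial

namespace Pool.EV

theorem RLP_sbs (B : Set Str) (t : ℕ) : PolyF B (fun n : ℕ => sbs t n) := by
  induction t with
  | zero => exact PolyF.const [[]]
  | succ t ih =>
    have h1 : PolyF B (fun p : ℕ × ℕ => (sbs t p.1).map fun A => p.2 :: A) :=
      PolyF.map (l := fun p : ℕ × ℕ => sbs t p.1) (f := fun p A => p.2 :: A)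
        (PolyF.comp (f := fun n : ℕ => sbs t n) (g := fun p : ℕ × ℕ => p.1) ih (by fun_prop))
        (by fun_prop)
    exact PolyF.cons (PolyF.const []) (PolyF.flatMap (l := fun n : ℕ => List.range n)
      (f := fun n i => (sbs t n).map fun A => i :: A) (by fun_prop) h1)

theorem RLP_chr (B : Set Str) : PolyF B (fun p : ℕ × List ℕ => chr p.1 p.2) := by
  have h1 : PolyF B (fun q : (ℕ × List ℕ) × ℕ => q.1.2.any fun j => decide (j = q.2)) :=
    PolyF.any (l := fun q : (ℕ × List ℕ) × ℕ => q.1.2) (f := fun q j => decide (j = q.2))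
      (by fun_prop) (by fun_prop)
  exact PolyF.map (l := fun p : ℕ × List ℕ => List.range p.1)
    (f := fun p i => p.2.any fun j => decide (j = i)) (by fun_prop) h1

theorem RLP_pnt (B : Set Str) (hlku : PolyF B (fun p : Lits × ℕ => lku p.1 p.2)) :
    PolyF B (fun p : ℕ × Lits => pnt p.1 p.2) := by
  have h1 : PolyF B (fun q : (ℕ × Lits) × ℕ => decide (lku q.1.2 q.2 = some true)) :=
    PolyF.eq (PolyF.comp (f := fun p : Lits × ℕ => lku p.1 p.2)
      (g := fun q : (ℕ × Lits) × ℕ => (q.1.2, q.2)) hlku (by fun_prop)) (PolyF.const (some true))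
  exact PolyF.map (l := fun p : ℕ × Lits => List.range p.1)
    (f := fun p i => decide (lku p.2 i = some true)) (by fun_prop) h1

theorem RLP_mod (z : Str) (v : ℕ) : z.modify v not =
    (List.range z.length).map fun j => if j = v then !(z.getD j false) else z.getD j false := by
  apply List.ext_getElem
  · simp
  · intro i h1 h2
    have h3 : i < z.length := by simpa using h1
    simp only [List.getElem_map, List.getElem_range, List.getElem_modify]
    rw [List.getD_eq_getElem _ _ h3]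
    by_cases h : i = v
    · rw [if_pos h, if_pos h.symm]
    · rw [if_neg h, if_neg (fun h' => h h'.symm)]

theorem RLP_modify (B : Set Str) : PolyF B (fun p : Str × ℕ => p.1.modify p.2 not) := by
  have h : PolyF B (fun p : Str × ℕ => (List.range p.1.length).map fun j =>
      if j = p.2 then !(p.1.getD j false) else p.1.getD j false) :=
    PolyF.map (l := fun p : Str × ℕ => List.range p.1.length)
      (f := fun (p : Str × ℕ) (j : ℕ) =>
        if j = p.2 then !(p.1.getD j false) else p.1.getD j false) (by fun_prop) (by fun_prop)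
  exact h.congrF fun p => (RLP_mod p.1 p.2).symm

theorem RLP_rel (B : Set Str) (t : ℕ) {δ : Type} [SE δ] (G : δ → Str → Bool)
    (hG : PolyF B (fun p : δ × Str => G p.1 p.2)) :
    PolyF B (fun p : δ × ℕ => rel t p.2 (G p.1)) := by
  have h0 : PolyF B (fun q : ((δ × ℕ) × ℕ) × List ℕ => chr q.1.1.2 q.2) :=
    PolyF.comp (f := fun p : ℕ × List ℕ => chr p.1 p.2)
      (g := fun q : ((δ × ℕ) × ℕ) × List ℕ => (q.1.1.2, q.2)) (RLP_chr B) (by fun_prop)
  have h1 : PolyF B (fun q : ((δ × ℕ) × ℕ) × List ℕ => G q.1.1.1 (chr q.1.1.2 q.2)) :=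
    PolyF.comp (f := fun p : δ × Str => G p.1 p.2)
      (g := fun q : ((δ × ℕ) × ℕ) × List ℕ => (q.1.1.1, chr q.1.1.2 q.2)) hG
      (PolyF.pair (by fun_prop) h0)
  have h2 : PolyF B (fun q : ((δ × ℕ) × ℕ) × List ℕ => (chr q.1.1.2 q.2).modify q.1.2 not) :=
    PolyF.comp (f := fun p : Str × ℕ => p.1.modify p.2 not)
      (g := fun q : ((δ × ℕ) × ℕ) × List ℕ => (chr q.1.1.2 q.2, q.1.2)) (RLP_modify B)
      (PolyF.pair h0 (by fun_prop))
  have h3 : PolyF B (fun q : ((δ × ℕ) × ℕ) × List ℕ =>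
      G q.1.1.1 ((chr q.1.1.2 q.2).modify q.1.2 not)) :=
    PolyF.comp (f := fun p : δ × Str => G p.1 p.2)
      (g := fun q : ((δ × ℕ) × ℕ) × List ℕ => (q.1.1.1, (chr q.1.1.2 q.2).modify q.1.2 not)) hG
      (PolyF.pair (by fun_prop) h2)
  have h4 : PolyF B (fun q : ((δ × ℕ) × ℕ) × List ℕ =>
      decide (G q.1.1.1 (chr q.1.1.2 q.2) ≠ G q.1.1.1 ((chr q.1.1.2 q.2).modify q.1.2 not))) :=
    PolyF.decideNot (PolyF.boolEq h1 h3)
  have h5 : PolyF B (fun q : (δ × ℕ) × ℕ => (sbs t q.1.2).any fun A =>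
      decide (G q.1.1 (chr q.1.2 A) ≠ G q.1.1 ((chr q.1.2 A).modify q.2 not))) :=
    PolyF.any (l := fun q : (δ × ℕ) × ℕ => sbs t q.1.2)
      (f := fun q A => decide (G q.1.1 (chr q.1.2 A) ≠ G q.1.1 ((chr q.1.2 A).modify q.2 not)))
      (PolyF.comp (f := fun n : ℕ => sbs t n) (g := fun q : (δ × ℕ) × ℕ => q.1.2) (RLP_sbs B t)
        (by fun_prop)) h4
  exact PolyF.filter (l := fun p : δ × ℕ => List.range p.2)
    (f := fun p i => (sbs t p.2).any fun A =>
      decide (G p.1 (chr p.2 A) ≠ G p.1 ((chr p.2 A).modify i not))) (by fun_prop) h5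

theorem p_RLP (hRNP : Stmt_RNP) : Stmt_RLP := by
  intro B t γ _ G hG
  obtain ⟨-, hcub, hlku, -⟩ := hRNP B
  have h1 : PolyF B (fun p : (γ × ℕ) × Str => (G p.1.1 p.2).getD p.1.2 false) :=
    PolyF.getD (by fun_prop) (PolyF.comp (f := fun p : γ × Str => G p.1 p.2)
      (g := fun p : (γ × ℕ) × Str => (p.1.1, p.2)) hG (by fun_prop)) (by fun_prop)
  have h2 := RLP_rel B t (fun (d : γ × ℕ) (x : Str) => (G d.1 x).getD d.2 false) h1
  have h3 : PolyF B (fun q : ((γ × ℕ × List Lits) × Lits) × (ℕ × Bool) =>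
      cub t (rel t q.1.1.2.1 fun x => (G q.1.1.1 x).getD q.2.1 false)) :=
    PolyF.comp (f := fun K : List ℕ => cub t K)
      (g := fun q : ((γ × ℕ × List Lits) × Lits) × (ℕ × Bool) =>
        rel t q.1.1.2.1 fun x => (G q.1.1.1 x).getD q.2.1 false) (hcub t)
      (PolyF.comp (f := fun p : (γ × ℕ) × ℕ => rel t p.2 fun x => (G p.1.1 x).getD p.1.2 false)
        (g := fun q : ((γ × ℕ × List Lits) × Lits) × (ℕ × Bool) =>
          ((q.1.1.1, q.2.1), q.1.1.2.1)) h2 (by fun_prop))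
  have h4 : PolyF B (fun q : (((γ × ℕ × List Lits) × Lits) × (ℕ × Bool)) × Lits =>
      pnt q.1.1.1.2.1 q.2) :=
    PolyF.comp (f := fun p : ℕ × Lits => pnt p.1 p.2)
      (g := fun q : (((γ × ℕ × List Lits) × Lits) × (ℕ × Bool)) × Lits =>
        (q.1.1.1.2.1, q.2)) (RLP_pnt B hlku) (by fun_prop)
  have h5 : PolyF B (fun q : (((γ × ℕ × List Lits) × Lits) × (ℕ × Bool)) × Lits =>
      G q.1.1.1.1 (pnt q.1.1.1.2.1 q.2)) :=
    PolyF.comp (f := fun p : γ × Str => G p.1 p.2)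
      (g := fun q : (((γ × ℕ × List Lits) × Lits) × (ℕ × Bool)) × Lits =>
        (q.1.1.1.1, pnt q.1.1.1.2.1 q.2)) hG (PolyF.pair (by fun_prop) h4)
  have h6 : PolyF B (fun q : (((γ × ℕ × List Lits) × Lits) × (ℕ × Bool)) × Lits =>
      xor ((G q.1.1.1.1 (pnt q.1.1.1.2.1 q.2)).getD q.1.2.1 false) q.1.2.2) :=
    PolyF.xor (PolyF.getD (by fun_prop) h5 (by fun_prop)) (by fun_prop)
  have h7 : PolyF B (fun q : ((γ × ℕ × List Lits) × Lits) × (ℕ × Bool) =>
      (cub t (rel t q.1.1.2.1 fun x => (G q.1.1.1 x).getD q.2.1 false)).filter fun α =>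
        xor ((G q.1.1.1 (pnt q.1.1.2.1 α)).getD q.2.1 false) q.2.2) :=
    PolyF.filter (l := fun q : ((γ × ℕ × List Lits) × Lits) × (ℕ × Bool) =>
        cub t (rel t q.1.1.2.1 fun x => (G q.1.1.1 x).getD q.2.1 false))
      (f := fun q α => xor ((G q.1.1.1 (pnt q.1.1.2.1 α)).getD q.2.1 false) q.2.2) h3 h6
  have h8 : PolyF B (fun q : (γ × ℕ × List Lits) × Lits => q.2.flatMap fun l =>
      (cub t (rel t q.1.2.1 fun x => (G q.1.1 x).getD l.1 false)).filter fun α =>
        xor ((G q.1.1 (pnt q.1.2.1 α)).getD l.1 false) l.2) :=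
    PolyF.flatMap (l := fun q : (γ × ℕ × List Lits) × Lits => q.2)
      (f := fun q l => (cub t (rel t q.1.2.1 fun x => (G q.1.1 x).getD l.1 false)).filter fun α =>
        xor ((G q.1.1 (pnt q.1.2.1 α)).getD l.1 false) l.2) (by fun_prop) h7
  exact PolyF.map (l := fun p : γ × ℕ × List Lits => p.2.2)
    (f := fun p gt => gt.flatMap fun l =>
      (cub t (rel t p.2.1 fun x => (G p.1 x).getD l.1 false)).filter fun α =>
        xor ((G p.1 (pnt p.2.1 α)).getD l.1 false) l.2) (by fun_prop) h8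

end Pool.EV
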