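import Pool.Agent.Work.MP_cb380d_ev.InterfaceA

open Pool.IC Pool.GL Pool.TL Polynomial

namespace Pool.EV

/-- RNI: all states. -/
theorem p_RNI (hHVA : Stmt_HVA) (hRNS : Stmt_RNS) : Stmt_RNI := by
  intro g esc ch ν K n D hE hS
  have hν : 0 < ν := hE.1
  induction n with
  | zero =>
    intro _
    obtain ⟨h1, h2⟩ := hHVA.2 ν K
    have hr : rn g esc ch ν K 0 = (frm ν K (List.replicate (ν * K) false), [], []) := by
      simp [rn]
    refine ⟨?_, ?_, ?_, ?_⟩
    · rw [hr]; exact h1
    · rw [hr]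
      show hv (frm ν K (List.replicate (ν * K) false)) = _
      rw [h2]
      obtain ⟨m, rfl⟩ : ∃ m, ν = m + 1 := ⟨ν - 1, by omega⟩
      simp [List.replicate_succ]
    · rw [hr]; rfl
    · rw [hr]; rfl
  | succ n ih =>
    intro hn
    have hI : Inv ν K n (rn g esc ch ν K n) := ih (by omega)
    have hr : rn g esc ch ν K (n + 1) = stp g esc ch ν K (rn g esc ch ν K n) n := by
      simp [rn, List.range_succ, List.foldl_append]
    rw [hr]
    exact (hRNS g esc ch ν K n D (rn g esc ch ν K n) hE hS hI (by omega)).2.2.2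

end Pool.EV
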