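import Pool.Agent.Work.MP_cb380d_ev.InterfaceG

/-! # CircuitReductions, block RNP: restrictions in polynomial time -/

open Pool.IC Pool.GL Pool.TL Polynomial

namespace Pool.EV

theorem RNP_plug (B : Set Str) : PolyF B (fun p : (List ℕ × Str) × Str => plug p.1 p.2) := by
  have h1 : PolyF B (fun r : ((List ℕ × Str) × Str) × ℕ =>
      (List.range r.1.2.length).map fun o =>
        if r.1.1.1.getD r.2 0 = o then r.1.2.getD r.2 false
        else r.1.1.2.getD (r.2 * r.1.2.length + o) false) :=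
    PolyF.map (l := fun r : ((List ℕ × Str) × Str) × ℕ => List.range r.1.2.length)
      (f := fun r o => if r.1.1.1.getD r.2 0 = o then r.1.2.getD r.2 false
        else r.1.1.2.getD (r.2 * r.1.2.length + o) false) (by fun_prop) (by fun_prop)
  exact PolyF.flatMap (l := fun p : (List ℕ × Str) × Str => List.range p.2.length)
    (f := fun p q => (List.range p.2.length).map fun o =>
      if p.1.1.getD q 0 = o then p.2.getD q false
      else p.1.2.getD (q * p.2.length + o) false) (by fun_prop) h1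

theorem RNP_cub (B : Set Str) (h : ℕ) : PolyF B (fun K : List ℕ => cub h K) := by
  induction h with
  | zero => exact PolyF.const [[]]
  | succ h ih =>
    have h1 : PolyF B (fun K : List ℕ => cub h K.tail) :=
      PolyF.comp (f := fun K : List ℕ => cub h K) (g := fun K : List ℕ => K.tail) ih
        (by fun_prop)
    have h2 : PolyF B (fun K : List ℕ => (cub h K.tail).flatMap fun α =>
        [(K.headD 0, false) :: α, (K.headD 0, true) :: α]) :=
      PolyF.flatMap (l := fun K : List ℕ => cub h K.tail)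
        (f := fun K α => [(K.headD 0, false) :: α, (K.headD 0, true) :: α]) h1 (by fun_prop)
    have h3 : PolyF B (fun K : List ℕ => if K.isEmpty = true then ([[]] : List Lits) else
        (cub h K.tail).flatMap fun α => [(K.headD 0, false) :: α, (K.headD 0, true) :: α]) :=
      PolyF.ite' (by fun_prop) (PolyF.const [[]]) h2
    exact h3

theorem RNP_lku (B : Set Str) : PolyF B (fun p : Lits × ℕ => lku p.1 p.2) := by
  have h1 : PolyF B (fun p : Lits × ℕ => p.1.filter fun l => decide (l.1 = p.2)) :=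
    PolyF.filter (l := fun p : Lits × ℕ => p.1) (f := fun p l => decide (l.1 = p.2))
      (by fun_prop) (by fun_prop)
  have h2 : PolyF B (fun p : Lits × ℕ =>
      (p.1.filter fun l => decide (l.1 = p.2)).map fun l => l.2) :=
    PolyF.map (l := fun p : Lits × ℕ => p.1.filter fun l => decide (l.1 = p.2))
      (f := fun _ l => l.2) h1 (by fun_prop)
  exact PolyF.headOpt h2

/-- block RNP -/
theorem p_RNP (h1 : Stmt_DVF) (h2 : Stmt_TFP) (h3 : Stmt_STP) : Stmt_RNP := by
  intro B
  obtain ⟨hdiv, hmod, -, -⟩ := h1 B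
  obtain ⟨-, -, -, hfam, hhs, -, -, -⟩ := h2 B
  refine ⟨RNP_plug B, RNP_cub B, RNP_lku B, ?_⟩
  intro t r h
  obtain ⟨hsz, -⟩ := h3 B t r h
  -- the value of a variable
  have hdiv' : PolyF B (fun p : ℕ × (List ℕ × Str) × Lits × ℕ => p.2.2.2 / p.1) :=
    PolyF.comp (f := fun p : ℕ × ℕ => p.1 / p.2)
      (g := fun p : ℕ × (List ℕ × Str) × Lits × ℕ => (p.2.2.2, p.1)) hdiv (by fun_prop)
  have hmod' : PolyF B (fun p : ℕ × (List ℕ × Str) × Lits × ℕ => p.2.2.2 % p.1) :=
    PolyF.comp (f := fun p : ℕ × ℕ => p.1 % p.2)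
      (g := fun p : ℕ × (List ℕ × Str) × Lits × ℕ => (p.2.2.2, p.1)) hmod (by fun_prop)
  have hlk : PolyF B (fun p : ℕ × (List ℕ × Str) × Lits × ℕ => lku p.2.2.1 (p.2.2.2 / p.1)) :=
    PolyF.comp (f := fun p : Lits × ℕ => lku p.1 p.2)
      (g := fun p : ℕ × (List ℕ × Str) × Lits × ℕ => (p.2.2.1, p.2.2.2 / p.1)) (RNP_lku B)
      (PolyF.pair (by fun_prop) hdiv')
  have hgd : PolyF B (fun p : ℕ × (List ℕ × Str) × Lits × ℕ =>
      p.2.1.1.getD (p.2.2.2 / p.1) 0) :=
    PolyF.getD hdiv' (by fun_prop) (by fun_prop)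
  have hsta : PolyF B (fun p : ℕ × (List ℕ × Str) × Lits × ℕ =>
      sta p.1 p.2.1 p.2.2.1 p.2.2.2) :=
    PolyF.ite' (c := fun p : ℕ × (List ℕ × Str) × Lits × ℕ =>
      p.2.1.1.getD (p.2.2.2 / p.1) 0 = p.2.2.2 % p.1) (PolyF.natEq hgd hmod') hlk
      (by fun_prop)
  -- the restriction
  have hn : PolyF B (fun q : (ℕ × (List ℕ × Str) × Lits × List Lits) × Lits => q.2.filter
      fun l => decide (sta q.1.1 q.1.2.1 q.1.2.2.1 l.1 = none)) := by
    have a1 : PolyF B (fun s : ((ℕ × (List ℕ × Str) × Lits × List Lits) × Lits) × (ℕ × Bool) =>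
        sta s.1.1.1 s.1.1.2.1 s.1.1.2.2.1 s.2.1) :=
      PolyF.comp (f := fun p : ℕ × (List ℕ × Str) × Lits × ℕ => sta p.1 p.2.1 p.2.2.1 p.2.2.2)
        (g := fun s : ((ℕ × (List ℕ × Str) × Lits × List Lits) × Lits) × (ℕ × Bool) =>
          (s.1.1.1, s.1.1.2.1, s.1.1.2.2.1, s.2.1)) hsta (by fun_prop)
    exact PolyF.filter (l := fun q : (ℕ × (List ℕ × Str) × Lits × List Lits) × Lits => q.2)
      (f := fun q l => decide (sta q.1.1 q.1.2.1 q.1.2.2.1 l.1 = none)) (by fun_prop)
      (PolyF.eq a1 (PolyF.const none))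
  have ha : PolyF B (fun q : (ℕ × (List ℕ × Str) × Lits × List Lits) × Lits => q.2.all
      fun l => decide (sta q.1.1 q.1.2.1 q.1.2.2.1 l.1 = none) ||
        decide (sta q.1.1 q.1.2.1 q.1.2.2.1 l.1 = some l.2)) := by
    have a1 : PolyF B (fun s : ((ℕ × (List ℕ × Str) × Lits × List Lits) × Lits) × (ℕ × Bool) =>
        sta s.1.1.1 s.1.1.2.1 s.1.1.2.2.1 s.2.1) :=
      PolyF.comp (f := fun p : ℕ × (List ℕ × Str) × Lits × ℕ => sta p.1 p.2.1 p.2.2.1 p.2.2.2)
        (g := fun s : ((ℕ × (List ℕ × Str) × Lits × List Lits) × Lits) × (ℕ × Bool) =>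
          (s.1.1.1, s.1.1.2.1, s.1.1.2.2.1, s.2.1)) hsta (by fun_prop)
    have a2 : PolyF B (fun s : ((ℕ × (List ℕ × Str) × Lits × List Lits) × Lits) × (ℕ × Bool) =>
        decide (sta s.1.1.1 s.1.1.2.1 s.1.1.2.2.1 s.2.1 = none)) :=
      PolyF.eq a1 (PolyF.const none)
    have a3 : PolyF B (fun s : ((ℕ × (List ℕ × Str) × Lits × List Lits) × Lits) × (ℕ × Bool) =>
        decide (sta s.1.1.1 s.1.1.2.1 s.1.1.2.2.1 s.2.1 = some s.2.2)) :=
      PolyF.eq a1 (by fun_prop)
    exact PolyF.all (l := fun q : (ℕ × (List ℕ × Str) × Lits × List Lits) × Lits => q.2)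
      (f := fun q l => decide (sta q.1.1 q.1.2.1 q.1.2.2.1 l.1 = none) ||
        decide (sta q.1.1 q.1.2.1 q.1.2.2.1 l.1 = some l.2)) (by fun_prop) (by fun_prop)
  have hdv : PolyF B (fun s : ((ℕ × (List ℕ × Str) × Lits × List Lits) × Lits) × (ℕ × Bool) =>
      (s.2.1 / s.1.1.1, s.2.2)) :=
    PolyF.pair (PolyF.comp (f := fun p : ℕ × ℕ => p.1 / p.2)
      (g := fun s : ((ℕ × (List ℕ × Str) × Lits × List Lits) × Lits) × (ℕ × Bool) =>
        (s.2.1, s.1.1.1)) hdiv (by fun_prop)) (by fun_prop)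
  have hrdn : PolyF B (fun p : ℕ × (List ℕ × Str) × Lits × List Lits =>
      rdn p.1 p.2.1 p.2.2.1 p.2.2.2) :=
    PolyF.map (l := fun p : ℕ × (List ℕ × Str) × Lits × List Lits =>
        p.2.2.2.filter fun T => T.all fun l =>
          decide (sta p.1 p.2.1 p.2.2.1 l.1 = none) ||
            decide (sta p.1 p.2.1 p.2.2.1 l.1 = some l.2))
      (f := fun p T => (T.filter fun l => decide (sta p.1 p.2.1 p.2.2.1 l.1 = none)).map
        fun l => (l.1 / p.1, l.2))
      (PolyF.filter (l := fun p : ℕ × (List ℕ × Str) × Lits × List Lits => p.2.2.2)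
        (f := fun p T => T.all fun l =>
          decide (sta p.1 p.2.1 p.2.2.1 l.1 = none) ||
            decide (sta p.1 p.2.1 p.2.2.1 l.1 = some l.2)) (by fun_prop) ha)
      (PolyF.map (l := fun q : (ℕ × (List ℕ × Str) × Lits × List Lits) × Lits => q.2.filter
          fun l => decide (sta q.1.1 q.1.2.1 q.1.2.2.1 l.1 = none))
        (f := fun q l => (l.1 / q.1.1, l.2)) hn hdv)
  -- the kept groups
  have hkin : PolyF B (fun p : ℕ × List ℕ × List ℕ => kin p.1 p.2.1 p.2.2) := by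
    have a1 : PolyF B (fun q : (ℕ × List ℕ × List ℕ) × ℕ =>
        q.1.2.2.any fun p => decide (p = q.2 * q.1.1 + q.1.2.1.getD q.2 0)) :=
      PolyF.any (l := fun q : (ℕ × List ℕ × List ℕ) × ℕ => q.1.2.2)
        (f := fun q p => decide (p = q.2 * q.1.1 + q.1.2.1.getD q.2 0)) (by fun_prop)
        (by fun_prop)
    exact PolyF.filter (l := fun p : ℕ × List ℕ × List ℕ => List.range p.1)
      (f := fun p q => p.2.2.any fun v => decide (v = q * p.1 + p.2.1.getD q 0)) (by fun_prop) a1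
  -- the next stage
  have b1 : PolyF B (fun q : (ℕ × (List ℕ × Str) × List (List Lits)) × List Lits =>
      szA t r h q.1.1) :=
    PolyF.comp (f := fun n : ℕ => szA t r h n)
      (g := fun q : (ℕ × (List ℕ × Str) × List (List Lits)) × List Lits => q.1.1) hsz
      (by fun_prop)
  have b2 : PolyF B (fun q : (ℕ × (List ℕ × Str) × List (List Lits)) × List Lits => fam q.2) :=
    PolyF.comp (f := fam)
      (g := fun q : (ℕ × (List ℕ × Str) × List (List Lits)) × List Lits => q.2) hfam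
      (by fun_prop)
  have b3 : PolyF B (fun q : (ℕ × (List ℕ × Str) × List (List Lits)) × List Lits =>
      decide ((fam q.2).length < szA t r h q.1.1)) := by fun_prop
  have b4 : PolyF B (fun q : (ℕ × (List ℕ × Str) × List (List Lits)) × List Lits =>
      hs (szA t r h q.1.1) q.2) :=
    PolyF.comp (f := fun p : ℕ × List Lits => hs p.1 p.2)
      (g := fun q : (ℕ × (List ℕ × Str) × List (List Lits)) × List Lits =>
        (szA t r h q.1.1, q.2)) hhs (PolyF.pair b1 (by fun_prop))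
  have b5 : PolyF B (fun q : (ℕ × (List ℕ × Str) × List (List Lits)) × List Lits =>
      kin q.1.1 q.1.2.1.1 (hs (szA t r h q.1.1) q.2)) :=
    PolyF.comp (f := fun p : ℕ × List ℕ × List ℕ => kin p.1 p.2.1 p.2.2)
      (g := fun q : (ℕ × (List ℕ × Str) × List (List Lits)) × List Lits =>
        (q.1.1, q.1.2.1.1, hs (szA t r h q.1.1) q.2)) hkin
      (PolyF.pair (by fun_prop) (PolyF.pair (by fun_prop) b4))
  have b6 : PolyF B (fun q : (ℕ × (List ℕ × Str) × List (List Lits)) × List Lits =>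
      cub h (kin q.1.1 q.1.2.1.1 (hs (szA t r h q.1.1) q.2))) :=
    PolyF.comp (f := fun K : List ℕ => cub h K)
      (g := fun q : (ℕ × (List ℕ × Str) × List (List Lits)) × List Lits =>
        kin q.1.1 q.1.2.1.1 (hs (szA t r h q.1.1) q.2)) (RNP_cub B h) b5
  have b7 : PolyF B (fun s : ((ℕ × (List ℕ × Str) × List (List Lits)) × List Lits) × Lits =>
      rdn s.1.1.1 s.1.1.2.1 s.2 s.1.2) :=
    PolyF.comp (f := fun p : ℕ × (List ℕ × Str) × Lits × List Lits =>
        rdn p.1 p.2.1 p.2.2.1 p.2.2.2)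
      (g := fun s : ((ℕ × (List ℕ × Str) × List (List Lits)) × List Lits) × Lits =>
        (s.1.1.1, s.1.1.2.1, s.2, s.1.2)) hrdn (by fun_prop)
  have b8 : PolyF B (fun q : (ℕ × (List ℕ × Str) × List (List Lits)) × List Lits =>
      (cub h (kin q.1.1 q.1.2.1.1 (hs (szA t r h q.1.1) q.2))).map
        fun α => rdn q.1.1 q.1.2.1 α q.2) :=
    PolyF.map (l := fun q : (ℕ × (List ℕ × Str) × List (List Lits)) × List Lits =>
        cub h (kin q.1.1 q.1.2.1.1 (hs (szA t r h q.1.1) q.2)))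
      (f := fun q α => rdn q.1.1 q.1.2.1 α q.2) b6 b7
  exact PolyF.flatMap (l := fun p : ℕ × (List ℕ × Str) × List (List Lits) =>
      p.2.2.filter fun F => decide ((fam F).length < szA t r h p.1))
    (f := fun p F => (cub h (kin p.1 p.2.1.1 (hs (szA t r h p.1) F))).map
      fun α => rdn p.1 p.2.1 α F)
    (PolyF.filter (l := fun p : ℕ × (List ℕ × Str) × List (List Lits) => p.2.2)
      (f := fun p F => decide ((fam F).length < szA t r h p.1)) (by fun_prop) b3) b8

end Pool.EV
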