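import Pool.Agent.Work.MP_cb380d_ev.InterfaceA

/-!
# MP_cb380d_lc, EvasiveReductions: block RNS (one step)
-/

open Pool.IC Pool.GL Pool.TL Polynomial

namespace Pool.EV

theorem RNS_set (w : List Bool) (n m : ℕ) (hw : w.length = n) :
    (false :: (w ++ List.replicate (m + 1) false)).set (n + 1) true =
      false :: ((w ++ [true]) ++ List.replicate m false) := by
  subst hw
  rw [List.set_cons_succ, List.replicate_succ, List.set_append_right _ _ (le_refl _)]
  simp

theorem RNS_bit (w : List Bool) (n m : ℕ) (hw : w.length = n) :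
    (false :: (w ++ List.replicate (m + 1) false))[n + 1]? = some false := by
  subst hw
  rw [List.getElem?_cons_succ, List.replicate_succ, List.getElem?_append_right (le_refl _)]
  simp

theorem p_RNS (hHVA : Stmt_HVA) (hHVS : Stmt_HVS) (hLCH : Stmt_LCH) (hFDD : Stmt_FDD) :
    Stmt_RNS := by
  intro g esc ch ν K n D s hEsc hSep hInv hn
  obtain ⟨hFr, hhv, hbl, hTl⟩ := hInv
  obtain ⟨m, hm⟩ : ∃ m, ν - 1 - n = m + 1 := ⟨ν - 1 - n - 1, by omega⟩
  have hm' : ν - 1 - (n + 1) = m := by omega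
  rw [hm] at hhv
  have hbit : (hv s.1)[n + 1]? = some false := by
    rw [hhv]; exact RNS_bit _ _ _ hbl
  have hbit0 : (hv s.1)[0]? = some false := by
    rw [hhv]; rfl
  obtain ⟨hν, hK, hE⟩ := hEsc
  obtain ⟨hlen, -, hblk⟩ := hHVA.1 ν K s.1 hFr
  obtain ⟨hle, hiff⟩ := hblk (n + 1) (by omega)
  have hzero := hiff.1 hbit
  obtain ⟨e1, e2, e3, e4⟩ := hE s.1 s.2.1 (lo ν K (n + 1)) hlen (by omega) hle hzero
  obtain ⟨hFr', hhv'⟩ := hHVS ν K (n + 1) s.1 (es esc s.1 s.2.1 (lo ν K (n + 1)) K) hFr (by omega)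
    hbit e1 e2 e3
  have hne := hSep _ _ (hLCH D n s.1 _ hbit0 hbit hhv')
  have hfd := hFDD _ _ hne
  refine ⟨e4, hfd, ?_, ?_⟩
  · intro hmem
    exact hfd (e4 _ hmem).symm
  · unfold Inv stp
    rw [hm']
    refine ⟨?_, ?_, ?_, ?_⟩
    · dsimp only
      cases ch n s.1 (es esc s.1 s.2.1 (lo ν K (n + 1)) K)
        (fd (g s.1) (g (es esc s.1 s.2.1 (lo ν K (n + 1)) K)))
      · exact hFr
      · exact hFr'
    · dsimp only
      cases ch n s.1 (es esc s.1 s.2.1 (lo ν K (n + 1)) K)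
        (fd (g s.1) (g (es esc s.1 s.2.1 (lo ν K (n + 1)) K)))
      · simp only [cond_false]
        rw [hhv, List.replicate_succ]
        simp
      · simp only [cond_true]
        rw [hhv', hhv]
        exact RNS_set _ _ _ hbl
    · simp [hbl]
    · simp [hTl]

end Pool.EV
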