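import Pool.Agent.Work.MP_cb380d_ev.InterfaceD
import Pool.Agent.Work.MP_cb380d_ev.B_CMB

set_option autoImplicit false

/-! # MP_cb380d_lc, THEOREM EV, block RS1 (helper65): differences of polynomials modulo m -/

open Pool.IC Pool.GL Pool.TL Polynomial

namespace Pool.EV

theorem RS1_mem (z : Str) (i : ℕ) : i ∈ supp z ↔ z.getD i false = true := by
  unfold supp
  rw [Finset.mem_filter, Finset.mem_range]
  constructor
  · exact fun h => h.2
  · intro h
    refine ⟨?_, h⟩
    by_contra h1
    rw [List.getD_eq_default _ _ (by omega)] at h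
    exact absurd h (by decide)

theorem RS1_add {N : ℕ} {z u : Str} (hz : z.length = N) (hu : u.length = N)
    (h : Disjoint (supp z) (supp u)) : supp (add z u) = supp z ∪ supp u := by
  ext i
  rw [Finset.mem_union, RS1_mem, RS1_mem, RS1_mem, CMB_getD hz hu]
  have h1 : ¬ (z.getD i false = true ∧ u.getD i false = true) := by
    rintro ⟨h2, h3⟩
    exact Finset.disjoint_left.1 h ((RS1_mem z i).2 h2) ((RS1_mem u i).2 h3)
  revert h1
  cases z.getD i false <;> cases u.getD i false <;> simp

theorem RS1_len {N : ℕ} {z u : Str} (hz : z.length = N) (hu : u.length = N) :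
    (add z u).length = N := by
  unfold add
  rw [List.length_zipWith, hz, hu, min_self]

theorem p_RS1 : Stmt_RS1 := by
  classical
  intro m R D F c hm hF t
  induction t with
  | nil =>
    intro z hz _ _ _
    rw [List.length_nil, dmn, hF z hz]
    simp
  | cons v t ih =>
    intro z hz hv hp hd
    rw [List.pairwise_cons] at hp
    have hvR : v.length = R := hv v List.mem_cons_self
    have hzv : Disjoint (supp z) (supp v) := hd v List.mem_cons_self
    have hadd := RS1_add hz hvR hzv
    have h1 := ih (add z v) (RS1_len hz hvR) (fun w hw => hv w (List.mem_cons_of_mem _ hw)) hp.2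
      (fun w hw => by
        rw [hadd, Finset.disjoint_union_left]
        exact ⟨hd w (List.mem_cons_of_mem _ hw), hp.1 w hw⟩)
    have h2 := ih z hz (fun w hw => hv w (List.mem_cons_of_mem _ hw)) hp.2
      (fun w hw => hd w (List.mem_cons_of_mem _ hw))
    rw [List.length_cons, dmn, List.tail_cons, List.headD_cons]
    push_cast
    rw [h1, h2, hadd, List.foldr_cons]
    have hm1 : ((m - 1 : ℕ) : ZMod m) = -1 := by
      rw [Nat.cast_sub hm]
      simp
    rw [hm1]
    obtain ⟨S, hS⟩ : ∃ S : Finset ℕ, S = t.foldr (fun v s => supp v ∪ s) ∅ := ⟨_, rfl⟩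
    rw [← hS]
    have hSv : Disjoint S (supp v) := by
      rw [hS, Finset.disjoint_left]
      intro x hx hxv
      have : ∃ w ∈ t, x ∈ supp w := by
        clear h1 h2 ih hF hp hd hS hv
        induction t with
        | nil => simp at hx
        | cons w t ih' =>
          rw [List.foldr_cons, Finset.mem_union] at hx
          rcases hx with hx | hx
          · exact ⟨w, List.mem_cons_self, hx⟩
          · obtain ⟨w', hw', h'⟩ := ih' hx
            exact ⟨w', List.mem_cons_of_mem _ hw', h'⟩
      obtain ⟨w, hw, hxw⟩ := this
      exact Finset.disjoint_left.1 (hp.1 w hw) hxv hxw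
    have hU : supp z ∪ (supp v ∪ S) = supp z ∪ supp v ∪ S := by rw [Finset.union_assoc]
    rw [hU]
    -- split the big sum
    have hsplit : ((supp z ∪ supp v ∪ S).powerset.filter
        (fun T => T.card ≤ D ∧ ∀ w ∈ t, ¬ Disjoint T (supp w))) =
        ((supp z ∪ supp v ∪ S).powerset.filter
          (fun T => T.card ≤ D ∧ ∀ w ∈ v :: t, ¬ Disjoint T (supp w))) ∪
        ((supp z ∪ S).powerset.filter
          (fun T => T.card ≤ D ∧ ∀ w ∈ t, ¬ Disjoint T (supp w))) := by
      ext T
      simp only [Finset.mem_union, Finset.mem_filter, Finset.mem_powerset, List.forall_mem_cons]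
      constructor
      · rintro ⟨hT, hc, ht⟩
        by_cases h : Disjoint T (supp v)
        · right
          refine ⟨?_, hc, ht⟩
          intro x hx
          have h3 := hT hx
          rw [Finset.mem_union, Finset.mem_union] at h3
          rw [Finset.mem_union]
          rcases h3 with (h3 | h3) | h3
          · exact Or.inl h3
          · exact absurd h3 (Finset.disjoint_left.1 h hx)
          · exact Or.inr h3
        · exact Or.inl ⟨hT, hc, h, ht⟩
      · rintro (⟨hT, hc, _, ht⟩ | ⟨hT, hc, ht⟩)
        · exact ⟨hT, hc, ht⟩
        · refine ⟨?_, hc, ht⟩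
          intro x hx
          have h3 := hT hx
          rw [Finset.mem_union] at h3
          rw [Finset.mem_union, Finset.mem_union]
          rcases h3 with h3 | h3
          · exact Or.inl (Or.inl h3)
          · exact Or.inr h3
    have hdis : Disjoint ((supp z ∪ supp v ∪ S).powerset.filter
          (fun T => T.card ≤ D ∧ ∀ w ∈ v :: t, ¬ Disjoint T (supp w)))
        ((supp z ∪ S).powerset.filter
          (fun T => T.card ≤ D ∧ ∀ w ∈ t, ¬ Disjoint T (supp w))) := by
      rw [Finset.disjoint_left]
      intro T h3 h4
      simp only [Finset.mem_filter, Finset.mem_powerset, List.forall_mem_cons] at h3 h4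
      apply h3.2.2.1
      rw [Finset.disjoint_left]
      intro x hx hxv
      have h5 := h4.1 hx
      rw [Finset.mem_union] at h5
      rcases h5 with h5 | h5
      · exact Finset.disjoint_left.1 hzv h5 hxv
      · exact Finset.disjoint_left.1 hSv h5 hxv
    rw [hsplit, Finset.sum_union hdis]
    ring

end Pool.EV
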