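import Pool.Agent.Work.MP_cb380d_ev.InterfaceD

/-!
# Block RS2: additivity of the top difference
-/

open Pool.IC Pool.GL Pool.TL Polynomial

namespace Pool.EV

/-- union of the supports -/
def RS2_S (t : List Str) : Finset ℕ := t.foldr (fun v s => supp v ∪ s) ∅

theorem RS2_cons (v : Str) (t : List Str) : RS2_S (v :: t) = supp v ∪ RS2_S t := rfl

theorem RS2_mem (t : List Str) (i : ℕ) : i ∈ RS2_S t ↔ ∃ v ∈ t, i ∈ supp v := by
  induction t with
  | nil => simp [RS2_S]
  | cons v t ih => rw [RS2_cons, Finset.mem_union, ih]; simp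

theorem RS2_count (T : Finset ℕ) (t : List Str)
    (hp : t.Pairwise (fun u v => Disjoint (supp u) (supp v)))
    (hm : ∀ v ∈ t, ¬ Disjoint T (supp v)) : t.length ≤ (T ∩ RS2_S t).card := by
  induction t with
  | nil => simp
  | cons v t ih =>
    rw [List.pairwise_cons] at hp
    have h1 := ih hp.2 (fun w hw => hm w (List.mem_cons_of_mem _ hw))
    have h2 : ¬ Disjoint T (supp v) := hm v List.mem_cons_self
    have hd : Disjoint (T ∩ supp v) (T ∩ RS2_S t) := by
      rw [Finset.disjoint_left]
      intro i hi hj
      rw [Finset.mem_inter] at hi hj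
      obtain ⟨w, hw, hiw⟩ := (RS2_mem t i).1 hj.2
      exact Finset.disjoint_left.1 (hp.1 w hw) hi.2 hiw
    have h3 : 0 < (T ∩ supp v).card := by
      rw [Finset.card_pos, Finset.nonempty_iff_ne_empty]
      intro h
      exact h2 (Finset.disjoint_iff_inter_eq_empty.2 h)
    rw [RS2_cons, Finset.inter_union_distrib_left, Finset.card_union_of_disjoint hd,
      List.length_cons]
    omega

theorem RS2_supp_zero (R : ℕ) : supp (List.replicate R false) = ∅ := by
  unfold supp
  rw [Finset.filter_eq_empty_iff]
  intro i _
  simp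

theorem RS2_supp_ev (R v : ℕ) (hv : v < R) : supp (ev R v) = {v} := by
  unfold supp
  ext i
  rw [Finset.mem_filter, Finset.mem_range, Finset.mem_singleton]
  constructor
  · rintro ⟨h1, h2⟩
    have h3 : i < R := by simpa [ev] using h1
    simpa [ev, List.getD_eq_getElem?_getD, h3] using h2
  · rintro rfl
    refine ⟨by simpa [ev] using hv, ?_⟩
    simp [ev, List.getD_eq_getElem?_getD, hv]

theorem p_RS2 (hRS1 : Stmt_RS1) : Stmt_RS2 := by
  intro m R d F hm hF u t htl hul htR hp
  obtain ⟨c, hc⟩ := hF
  have hz : (List.replicate R false : Str).length = R := List.length_replicate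
  have hpc := List.pairwise_cons.1 hp
  have hLHS := hRS1 m R (d + 1) F c hm hc (u :: t) (List.replicate R false) hz
    (by
      intro v hv
      rcases List.mem_cons.1 hv with h | h
      · rw [h]; exact hul
      · exact htR v h) hp
    (by intro v _; rw [RS2_supp_zero]; exact Finset.disjoint_empty_left _)
  have hlen : (u :: t).length = d + 1 := by rw [List.length_cons, htl]
  rw [hlen] at hLHS
  have hR : ∀ v ∈ supp u, v < R := by
    intro v hv
    unfold supp at hv
    rw [Finset.mem_filter, Finset.mem_range, hul] at hv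
    exact hv.1
  have hRHS : ∀ v ∈ supp u,
      (dmn m F (d + 1) (ev R v :: t) (List.replicate R false) : ZMod m) =
      ∑ T ∈ ({v} ∪ RS2_S t).powerset.filter
        (fun T => T.card ≤ d + 1 ∧ ∀ w ∈ ev R v :: t, ¬ Disjoint T (supp w)), c T := by
    intro v hv
    have hvR := hR v hv
    have h := hRS1 m R (d + 1) F c hm hc (ev R v :: t) (List.replicate R false) hz
      (by
        intro w hw
        rcases List.mem_cons.1 hw with h | h
        · rw [h]; simp [ev]
        · exact htR w h)
      (by
        rw [List.pairwise_cons]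
        refine ⟨?_, hpc.2⟩
        intro w hw
        rw [RS2_supp_ev R v hvR, Finset.disjoint_singleton_left]
        exact fun h => Finset.disjoint_left.1 (hpc.1 w hw) hv h)
      (by intro v _; rw [RS2_supp_zero]; exact Finset.disjoint_empty_left _)
    have hlen' : (ev R v :: t).length = d + 1 := by rw [List.length_cons, htl]
    rw [hlen'] at h
    rw [h, RS2_supp_zero, Finset.empty_union]
    have h2 : (ev R v :: t).foldr (fun v s => supp v ∪ s) ∅ = {v} ∪ RS2_S t := by
      rw [List.foldr_cons, RS2_supp_ev R v hvR]
      rfl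
    rw [h2]
  rw [hLHS, Finset.sum_congr rfl hRHS, RS2_supp_zero, Finset.empty_union]
  have h2 : (u :: t).foldr (fun v s => supp v ∪ s) ∅ = supp u ∪ RS2_S t := rfl
  rw [h2]
  have hdS : Disjoint (supp u) (RS2_S t) := by
    rw [Finset.disjoint_left]
    intro i hi hj
    obtain ⟨w, hw, hiw⟩ := (RS2_mem t i).1 hj
    exact Finset.disjoint_left.1 (hpc.1 w hw) hi hiw
  rw [← Finset.sum_biUnion]
  · apply Finset.sum_congr ?_ (fun _ _ => rfl)
    ext T
    rw [Finset.mem_filter, Finset.mem_powerset, Finset.mem_biUnion]
    constructor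
    · rintro ⟨hT1, hT2, hT3⟩
      have h3 : ¬ Disjoint T (supp u) := hT3 u List.mem_cons_self
      have h4 : ∀ w ∈ t, ¬ Disjoint T (supp w) := fun w hw => hT3 w (List.mem_cons_of_mem _ hw)
      have h5 := RS2_count T t hpc.2 h4
      have h6 : Disjoint (T ∩ supp u) (T ∩ RS2_S t) := by
        rw [Finset.disjoint_left]
        intro i hi hj
        rw [Finset.mem_inter] at hi hj
        exact Finset.disjoint_left.1 hdS hi.2 hj.2
      have h7 : (T ∩ supp u).card + (T ∩ RS2_S t).card ≤ T.card := by
        rw [← Finset.card_union_of_disjoint h6, ← Finset.inter_union_distrib_left]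
        exact Finset.card_le_card Finset.inter_subset_left
      have h8 : (T ∩ supp u).card ≤ 1 := by omega
      obtain ⟨v, hvT, hvu⟩ := Finset.not_disjoint_iff.1 h3
      refine ⟨v, hvu, ?_⟩
      rw [Finset.mem_filter, Finset.mem_powerset]
      refine ⟨?_, hT2, ?_⟩
      · intro i hi
        rcases Finset.mem_union.1 (hT1 hi) with h | h
        · have : i = v := Finset.card_le_one.1 h8 i (Finset.mem_inter.2 ⟨hi, h⟩) v
            (Finset.mem_inter.2 ⟨hvT, hvu⟩)
          rw [this]
          exact Finset.mem_union_left _ (Finset.mem_singleton_self v)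
        · exact Finset.mem_union_right _ h
      · intro w hw
        rcases List.mem_cons.1 hw with h | h
        · rw [h, RS2_supp_ev R v (hR v hvu), Finset.not_disjoint_iff]
          exact ⟨v, hvT, Finset.mem_singleton_self v⟩
        · exact h4 w h
    · rintro ⟨v, hvu, hT⟩
      rw [Finset.mem_filter, Finset.mem_powerset] at hT
      obtain ⟨hT1, hT2, hT3⟩ := hT
      have hvT : v ∈ T := by
        have h := hT3 (ev R v) List.mem_cons_self
        rw [RS2_supp_ev R v (hR v hvu), Finset.not_disjoint_iff] at h
        obtain ⟨a, ha, ha'⟩ := h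
        rw [Finset.mem_singleton] at ha'
        rwa [← ha']
      refine ⟨?_, hT2, ?_⟩
      · intro i hi
        rcases Finset.mem_union.1 (hT1 hi) with h | h
        · rw [Finset.mem_singleton] at h
          rw [h]
          exact Finset.mem_union_left _ hvu
        · exact Finset.mem_union_right _ h
      · intro w hw
        rcases List.mem_cons.1 hw with h | h
        · rw [h, Finset.not_disjoint_iff]
          exact ⟨v, hvT, hvu⟩
        · exact hT3 w (List.mem_cons_of_mem _ h)
  · intro v hv w hw hvw
    rw [Function.onFun, Finset.disjoint_left]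
    intro T hT1 hT2
    rw [Finset.mem_filter, Finset.mem_powerset] at hT1 hT2
    have hwT : w ∈ T := by
      have h := hT2.2.2 (ev R w) List.mem_cons_self
      rw [RS2_supp_ev R w (hR w hw), Finset.not_disjoint_iff] at h
      obtain ⟨a, ha, ha'⟩ := h
      rw [Finset.mem_singleton] at ha'
      rwa [← ha']
    rcases Finset.mem_union.1 (hT1.1 hwT) with h | h
    · exact hvw (Finset.mem_singleton.1 h).symm
    · exact Finset.disjoint_left.1 hdS hw h

end Pool.EV
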