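import Pool.Agent.Work.MP_cb380d_ev.InterfaceD
import Pool.Agent.Work.MP_cb380d_ev.B_CMB

set_option autoImplicit false

/-! # MP_cb380d_lc, THEOREM EV, block RS3: lowering the degree -/

open Pool.IC Pool.GL Pool.TL Polynomial

namespace Pool.EV

theorem RS3_mem (z : Str) (i : ℕ) : i ∈ supp z ↔ i < z.length ∧ z.getD i false = true := by
  unfold supp
  rw [Finset.mem_filter, Finset.mem_range]

theorem RS3_zero (R : ℕ) : supp (List.replicate R false) = ∅ := by
  ext i
  rw [RS3_mem]
  simp only [List.length_replicate, Finset.notMem_empty, iff_false, not_and]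
  intro h
  rw [List.getD_eq_getElem _ _ (by simpa using h)]
  simp

theorem RS3_foldr (t : List Str) (x : ℕ) :
    x ∈ t.foldr (fun v s => supp v ∪ s) ∅ ↔ ∃ v ∈ t, x ∈ supp v := by
  induction t with
  | nil => simp
  | cons v t ih =>
    rw [List.foldr_cons, Finset.mem_union, ih]
    simp

theorem RS3_sld (d : ℕ) : ∀ (U : List Str) (l : List ℕ), l.length = d →
    l.Pairwise (fun a b => b < a) → (∀ a ∈ l, a < U.length) →
    l.map (fun a => U.getD a []) ∈ sld d U := by
  induction d with
  | zero =>
    intro U l hl _ _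
    have : l = [] := List.length_eq_zero_iff.1 hl
    subst this
    simp [sld]
  | succ d ih =>
    intro U l hl hp hU
    obtain _ | ⟨a, l'⟩ := l
    · simp at hl
    · rw [List.pairwise_cons] at hp
      have ha : a < U.length := hU a (by simp)
      have h1 := ih (U.take a) l' (by simpa using hl) hp.2 (fun b hb => by
        rw [List.length_take]
        exact lt_min (hp.1 b hb) (hU b (by simp [hb])))
      have h2 : l'.map (fun b => (U.take a).getD b []) = l'.map (fun b => U.getD b []) := by
        apply List.map_congr_left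
        intro b hb
        have hba := hp.1 b hb
        simp [List.getD_eq_getElem?_getD, List.getElem?_take, hba]
      rw [h2] at h1
      simp only [sld, List.mem_flatMap, List.mem_range, List.mem_map, List.map_cons]
      exact ⟨a, ha, _, h1, rfl⟩

theorem RS3_sort (A : Finset ℕ) : ∃ l : List ℕ, l.length = A.card ∧
    l.Pairwise (fun a b => b < a) ∧ ∀ a, a ∈ l ↔ a ∈ A := by
  induction A using Finset.induction_on_max with
  | empty => exact ⟨[], by simp, List.Pairwise.nil, by simp⟩
  | insert a A hA ih =>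
    obtain ⟨l, h1, h2, h3⟩ := ih
    have ha : a ∉ A := fun h => lt_irrefl _ (hA a h)
    refine ⟨a :: l, ?_, ?_, ?_⟩
    · rw [List.length_cons, h1, Finset.card_insert_of_notMem ha]
    · rw [List.pairwise_cons]
      exact ⟨fun b hb => hA b ((h3 b).1 hb), h2⟩
    · intro b
      rw [List.mem_cons, Finset.mem_insert, h3]

theorem p_RS3 (hRS1 : Stmt_RS1) (hCMS : Stmt_CMS) : Stmt_RS3 := by
  classical
  intro m R d F U hm hF hU hD hz
  obtain ⟨c, hc⟩ := hF
  obtain ⟨S, hS⟩ : ∃ S : ℕ → Finset ℕ, S = fun a => supp (U.getD a []) := ⟨_, rfl⟩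
  have hdis : ∀ a < U.length, ∀ b < U.length, a ≠ b → Disjoint (S a) (S b) := by
    intro a ha b hb hab
    rw [hS, Finset.disjoint_left]
    intro x hx hx'
    have h1 := ((RS3_mem _ _).1 hx).2
    have h2 := ((RS3_mem _ _).1 hx').2
    rw [hD a ha b hb hab x h1] at h2
    exact absurd h2 (by simp)
  obtain ⟨f, hf⟩ : ∃ f : Finset ℕ → Finset (Finset ℕ), f = fun A =>
      (A.biUnion S).powerset.filter (fun T => T.card ≤ d + 1 ∧ ∀ a ∈ A, ¬ Disjoint T (S a)) :=
    ⟨_, rfl⟩
  -- large sets
  have hbig : ∀ A : Finset ℕ, (∀ a ∈ A, a < U.length) → d + 1 < A.card → f A = ∅ := by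
    intro A hA hcard
    rw [hf]
    rw [Finset.filter_eq_empty_iff]
    rintro T hT ⟨h1, h2⟩
    have h3 : ∀ a ∈ A, ∃ x ∈ T, x ∈ S a := fun a ha => Finset.not_disjoint_iff.1 (h2 a ha)
    choose! g hg using h3
    have h4 : A.card ≤ T.card := by
      apply Finset.card_le_card_of_injOn g (fun a ha => (hg a ha).1)
      intro a ha b hb hab
      by_contra hne
      exact Finset.disjoint_left.1 (hdis a (hA a ha) b (hA b hb) hne) (hg a ha).2
        (by rw [hab]; exact (hg b hb).2)
    omega
  -- sets of size d + 1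
  have hmid : ∀ A : Finset ℕ, (∀ a ∈ A, a < U.length) → A.card = d + 1 →
      ∑ T ∈ f A, c T = 0 := by
    intro A hA hcard
    obtain ⟨l, h1, h2, h3⟩ := RS3_sort A
    have hl : ∀ a ∈ l, a < U.length := fun a ha => hA a ((h3 a).1 ha)
    have h4 := RS3_sld (d + 1) U l (by omega) h2 hl
    have h5 := hz _ h4
    have h6 := hRS1 m R (d + 1) F c hm hc (l.map fun a => U.getD a []) (List.replicate R false)
      (by simp) (by
        intro v hv
        obtain ⟨a, ha, rfl⟩ := List.mem_map.1 hv
        rw [List.getD_eq_getElem _ _ (hl a ha)]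
        exact hU _ (List.getElem_mem _)) (by
        rw [List.pairwise_map]
        refine h2.imp_of_mem ?_
        intro a b ha hb hab
        have := hdis a (hl a ha) b (hl b hb) (by omega)
        rw [hS] at this
        exact this) (by
        intro v _
        rw [RS3_zero]
        exact Finset.disjoint_empty_left _)
    rw [List.length_map, h1, hcard, h5, RS3_zero, Finset.empty_union] at h6
    rw [h6]
    apply Finset.sum_congr _ fun _ _ => rfl
    rw [hf]
    have h7 : A.biUnion S = (l.map fun a => U.getD a []).foldr (fun v s => supp v ∪ s) ∅ := by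
      ext x
      rw [RS3_foldr, Finset.mem_biUnion]
      constructor
      · rintro ⟨a, ha, hx⟩
        refine ⟨U.getD a [], List.mem_map.2 ⟨a, (h3 a).2 ha, rfl⟩, ?_⟩
        rw [hS] at hx
        exact hx
      · rintro ⟨v, hv, hx⟩
        obtain ⟨a, ha, rfl⟩ := List.mem_map.1 hv
        refine ⟨a, (h3 a).1 ha, ?_⟩
        rw [hS]
        exact hx
    ext T
    simp only [h7, Finset.mem_filter]
    apply and_congr_right
    intro _
    apply and_congr_right
    intro _
    constructor
    · intro h v hv
      obtain ⟨a, ha, rfl⟩ := List.mem_map.1 hv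
      have := h a ((h3 a).1 ha)
      rw [hS] at this
      exact this
    · intro h a ha
      rw [hS]
      exact h _ (List.mem_map.2 ⟨a, (h3 a).2 ha, rfl⟩)
  refine ⟨fun A => ∑ T ∈ f A, c T, ?_⟩
  intro s hs
  have hlen := (p_CMB R U hU).1 s
  rw [hc _ hlen, hCMS R U s hU hD hs]
  have hsA : ∀ a ∈ supp s, a < U.length := fun a ha => by
    rw [← hs]
    exact ((RS3_mem _ _).1 ha).1
  have e0 : ((supp s).biUnion fun a => supp (U.getD a [])) = (supp s).biUnion S := by rw [hS]
  rw [e0]
  -- grouping
  have hmaps : ∀ T ∈ ((supp s).biUnion S).powerset.filter (fun T => T.card ≤ d + 1),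
      (supp s).filter (fun a => ¬ Disjoint T (S a)) ∈ (supp s).powerset := by
    intro T _
    rw [Finset.mem_powerset]
    exact Finset.filter_subset _ _
  rw [← Finset.sum_fiberwise_of_maps_to hmaps]
  have hfib : ∀ A ∈ (supp s).powerset,
      (((supp s).biUnion S).powerset.filter (fun T => T.card ≤ d + 1)).filter
        (fun T => (supp s).filter (fun a => ¬ Disjoint T (S a)) = A) = f A := by
    intro A hA
    rw [Finset.mem_powerset] at hA
    rw [hf]
    ext T
    simp only [Finset.mem_filter, Finset.mem_powerset]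
    constructor
    · rintro ⟨⟨h1, h2⟩, h3⟩
      refine ⟨?_, h2, ?_⟩
      · intro x hx
        obtain ⟨a, ha, hxa⟩ := Finset.mem_biUnion.1 (h1 hx)
        rw [Finset.mem_biUnion]
        refine ⟨a, ?_, hxa⟩
        rw [← h3, Finset.mem_filter]
        exact ⟨ha, Finset.not_disjoint_iff.2 ⟨x, hx, hxa⟩⟩
      · intro a ha
        rw [← h3, Finset.mem_filter] at ha
        exact ha.2
    · rintro ⟨h1, h2, h3⟩
      refine ⟨⟨h1.trans (Finset.biUnion_subset_biUnion_of_subset_left _ hA), h2⟩, ?_⟩
      ext a
      rw [Finset.mem_filter]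
      constructor
      · rintro ⟨h4, h5⟩
        obtain ⟨x, hx, hxa⟩ := Finset.not_disjoint_iff.1 h5
        obtain ⟨b, hb, hxb⟩ := Finset.mem_biUnion.1 (h1 hx)
        by_cases hab : a = b
        · rw [hab]
          exact hb
        · exact absurd hxb (Finset.disjoint_left.1 (hdis a (hsA a h4) b (hsA b (hA hb)) hab) hxa)
      · intro ha
        exact ⟨hA ha, h3 a ha⟩
  rw [Finset.sum_congr rfl fun A hA => by rw [hfib A hA]]
  symm
  apply Finset.sum_subset (Finset.filter_subset _ _)
  intro A hA hA'
  rw [Finset.mem_filter, not_and, not_le] at hA'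
  have h1 := hA' hA
  have h2 : ∀ a ∈ A, a < U.length := fun a ha => hsA a (Finset.mem_powerset.1 hA ha)
  rcases Nat.lt_or_ge (d + 1) A.card with h3 | h3
  · rw [hbig A h2 h3, Finset.sum_empty]
  · exact hmid A h2 (by omega)

end Pool.EV
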