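import Pool.Agent.Work.MP_cb380d_ev.InterfaceE
import Pool.Agent.Work.MP_cb380d_ev.B_CMB

set_option autoImplicit false

/-! # MP_cb380d_lc, THEOREM EV, block RS4 (helper54): restriction to combinations -/

open Pool.IC Pool.GL Pool.TL Polynomial

namespace Pool.EV

theorem RS4_mem (z : Str) (i : ℕ) : i ∈ supp z ↔ z.getD i false = true := by
  unfold supp
  rw [Finset.mem_filter, Finset.mem_range]
  constructor
  · exact fun h => h.2
  · intro h
    refine ⟨?_, h⟩
    by_contra h1
    rw [List.getD_eq_default _ _ (by omega)] at h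
    exact absurd h (by decide)

theorem RS4_add {N : ℕ} {z u : Str} (hz : z.length = N) (hu : u.length = N)
    (h : Disjoint (supp z) (supp u)) : supp (add z u) = supp z ∪ supp u := by
  ext i
  rw [Finset.mem_union, RS4_mem, RS4_mem, RS4_mem, CMB_getD hz hu]
  have h1 : ¬ (z.getD i false = true ∧ u.getD i false = true) := by
    rintro ⟨h2, h3⟩
    exact Finset.disjoint_left.1 h ((RS4_mem z i).2 h2) ((RS4_mem u i).2 h3)
  revert h1
  cases z.getD i false <;> cases u.getD i false <;> simp

theorem p_RS4 (hCMS : Stmt_CMS) : Stmt_RS4 := by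
  classical
  intro m N d Φ U z hF hz hU hD hZ
  obtain ⟨c, hc⟩ := hF
  obtain ⟨S, hS⟩ : ∃ S : ℕ → Finset ℕ, S = fun a => supp (U.getD a []) := ⟨_, rfl⟩
  obtain ⟨Z, hZd⟩ : ∃ Z : Finset ℕ, Z = supp z := ⟨_, rfl⟩
  have hdis : ∀ a < U.length, ∀ b < U.length, a ≠ b → Disjoint (S a) (S b) := by
    intro a ha b hb hab
    rw [hS, Finset.disjoint_left]
    intro x hx hx'
    have h1 := (RS4_mem _ _).1 hx
    have h2 := (RS4_mem _ _).1 hx'
    rw [hD a ha b hb hab x h1] at h2
    exact absurd h2 (by decide)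
  have hdisZ : ∀ a < U.length, Disjoint Z (S a) := by
    intro a ha
    rw [hZd, hS]
    show Disjoint (supp z) (supp (U.getD a []))
    rw [List.getD_eq_getElem _ _ ha]
    exact hZ _ (List.getElem_mem _)
  obtain ⟨f, hf⟩ : ∃ f : Finset ℕ → Finset (Finset ℕ), f = fun A =>
      (Z ∪ A.biUnion S).powerset.filter (fun T => T.card ≤ d ∧ ∀ a ∈ A, ¬ Disjoint T (S a)) :=
    ⟨_, rfl⟩
  -- large sets
  have hbig : ∀ A : Finset ℕ, (∀ a ∈ A, a < U.length) → d < A.card → f A = ∅ := by
    intro A hA hcard
    rw [hf]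
    rw [Finset.filter_eq_empty_iff]
    rintro T hT ⟨h1, h2⟩
    have h3 : ∀ a ∈ A, ∃ x ∈ T, x ∈ S a := fun a ha => Finset.not_disjoint_iff.1 (h2 a ha)
    choose! g hg using h3
    have h4 : A.card ≤ T.card := by
      apply Finset.card_le_card_of_injOn g (fun a ha => (hg a ha).1)
      intro a ha b hb hab
      by_contra hne
      exact Finset.disjoint_left.1 (hdis a (hA a ha) b (hA b hb) hne) (hg a ha).2
        (by rw [hab]; exact (hg b hb).2)
    omega
  refine ⟨fun A => ∑ T ∈ f A, c T, ?_⟩
  intro s hs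
  have hlen := (p_CMB N U hU).1 s
  have hsA : ∀ a ∈ supp s, a < U.length := fun a ha => by
    rw [← hs]
    by_contra h1
    have h2 := (RS4_mem _ _).1 ha
    rw [List.getD_eq_default _ _ (by omega)] at h2
    exact absurd h2 (by decide)
  have e0 : supp (cmb N U s) = (supp s).biUnion S := by
    rw [hCMS N U s hU hD hs, hS]
  have hdz : Disjoint (supp z) (supp (cmb N U s)) := by
    rw [e0, Finset.disjoint_biUnion_right]
    intro a ha
    have := hdisZ a (hsA a ha)
    rwa [hZd] at this
  rw [hc _ (CMB_len hz hlen), RS4_add hz hlen hdz, e0, ← hZd]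
  -- grouping
  have hmaps : ∀ T ∈ (Z ∪ (supp s).biUnion S).powerset.filter (fun T => T.card ≤ d),
      (supp s).filter (fun a => ¬ Disjoint T (S a)) ∈ (supp s).powerset := by
    intro T _
    rw [Finset.mem_powerset]
    exact Finset.filter_subset _ _
  rw [← Finset.sum_fiberwise_of_maps_to hmaps]
  have hfib : ∀ A ∈ (supp s).powerset,
      ((Z ∪ (supp s).biUnion S).powerset.filter (fun T => T.card ≤ d)).filter
        (fun T => (supp s).filter (fun a => ¬ Disjoint T (S a)) = A) = f A := by
    intro A hA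
    rw [Finset.mem_powerset] at hA
    rw [hf]
    ext T
    simp only [Finset.mem_filter, Finset.mem_powerset]
    constructor
    · rintro ⟨⟨h1, h2⟩, h3⟩
      refine ⟨?_, h2, ?_⟩
      · intro x hx
        rcases Finset.mem_union.1 (h1 hx) with hxZ | hxS
        · exact Finset.mem_union_left _ hxZ
        · obtain ⟨a, ha, hxa⟩ := Finset.mem_biUnion.1 hxS
          refine Finset.mem_union_right _ (Finset.mem_biUnion.2 ⟨a, ?_, hxa⟩)
          rw [← h3, Finset.mem_filter]
          exact ⟨ha, Finset.not_disjoint_iff.2 ⟨x, hx, hxa⟩⟩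
      · intro a ha
        rw [← h3, Finset.mem_filter] at ha
        exact ha.2
    · rintro ⟨h1, h2, h3⟩
      refine ⟨⟨h1.trans (Finset.union_subset_union_right
        (Finset.biUnion_subset_biUnion_of_subset_left _ hA)), h2⟩, ?_⟩
      ext a
      rw [Finset.mem_filter]
      constructor
      · rintro ⟨h4, h5⟩
        obtain ⟨x, hx, hxa⟩ := Finset.not_disjoint_iff.1 h5
        rcases Finset.mem_union.1 (h1 hx) with hxZ | hxS
        · exact absurd hxa (Finset.disjoint_left.1 (hdisZ a (hsA a h4)) hxZ)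
        · obtain ⟨b, hb, hxb⟩ := Finset.mem_biUnion.1 hxS
          by_cases hab : a = b
          · rw [hab]
            exact hb
          · exact absurd hxb (Finset.disjoint_left.1 (hdis a (hsA a h4) b (hsA b (hA hb)) hab) hxa)
      · intro ha
        exact ⟨hA ha, h3 a ha⟩
  rw [Finset.sum_congr rfl fun A hA => by rw [hfib A hA]]
  symm
  apply Finset.sum_subset (Finset.filter_subset _ _)
  intro A hA hA'
  rw [Finset.mem_filter, not_and, not_le] at hA'
  have h1 := hA' hA
  have h2 : ∀ a ∈ A, a < U.length := fun a ha => hsA a (Finset.mem_powerset.1 hA ha)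
  rw [hbig A h2 h1, Finset.sum_empty]

end Pool.EV
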