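import Pool.Agent.Work.MP_cb380d_ev.InterfaceG

/-! Block SBD of THEOREM EV: sizes. -/

set_option autoImplicit false

open Pool.IC Pool.GL Pool.TL Polynomial

namespace Pool.EV

theorem SBD_size (W n : ℕ) : kap W n + 1 + nmv W n ≤ 3 * (n + 1) ^ 2 ^ W := by
  unfold kap nmv
  have h1 : n ^ (2 ^ W - 1) ≤ (n + 1) ^ 2 ^ W :=
    (Nat.pow_le_pow_left (Nat.le_succ n) _).trans
      (Nat.pow_le_pow_right (Nat.succ_pos n) (Nat.sub_le _ _))
  have h2 : n ^ 2 ^ W ≤ (n + 1) ^ 2 ^ W := Nat.pow_le_pow_left (Nat.le_succ n) _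
  have h3 : 1 ≤ (n + 1) ^ 2 ^ W := Nat.one_le_pow _ _ (Nat.succ_pos n)
  omega

theorem p_SBD : Stmt_SBD := by
  intro s W a hs e
  obtain ⟨C, hC⟩ := hs (e * 2 ^ W)
  have hc : 2 ^ W ≠ 0 := (Nat.two_pow_pos W).ne'
  refine ⟨(4 * C + 1) * (a + 1), fun M => ?_⟩
  have h1 := hC (kap W (M + a) + 1 + nmv W (M + a))
  have h2 := SBD_size W (M + a)
  have h3 : 1 ≤ (M + a + 1) ^ 2 ^ W := Nat.one_le_pow _ _ (Nat.succ_pos _)
  have h4 : C * (kap W (M + a) + 1 + nmv W (M + a)) + C ≤ (4 * C + 1) * (M + a + 1) ^ 2 ^ W := by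
    nlinarith
  have h5 : 4 * C + 1 ≤ (4 * C + 1) ^ 2 ^ W := Nat.le_self_pow hc _
  have h6 : (s (kap W (M + a) + 1 + nmv W (M + a)) ^ e) ^ 2 ^ W ≤
      ((4 * C + 1) * (M + a + 1)) ^ 2 ^ W := by
    rw [← pow_mul, mul_pow]
    exact h1.trans (h4.trans (Nat.mul_le_mul_right _ h5))
  have h7 := (Nat.pow_le_pow_iff_left hc).1 h6
  refine h7.trans ?_
  have h8 : M + a + 1 ≤ (a + 1) * M + (a + 1) := by nlinarith [Nat.zero_le (a * M)]
  calc (4 * C + 1) * (M + a + 1) ≤ (4 * C + 1) * ((a + 1) * M + (a + 1)) :=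
        Nat.mul_le_mul_left _ h8
    _ = (4 * C + 1) * (a + 1) * M + (4 * C + 1) * (a + 1) := by ring

end Pool.EV
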