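import Pool.Agent.Work.MP_cb380d_ev.InterfaceB

/-! # EvasiveReductions, block SLP: the solver in polynomial time -/

open Pool.IC Pool.GL Pool.TL Polynomial

namespace Pool.EV

theorem SLP_filter {α : Type} [SE α] (f : α → Bool) (V : List α) :
    sz (V.filter fun v => !(f v)) + sz (V.filter fun v => f v) = sz V := by
  induction V with
  | nil => rfl
  | cons a l ih =>
    simp only [List.filter_cons]
    cases h : f a
    · simp only [Bool.not_false, if_true, sz_cons, Bool.false_eq_true, if_false]
      omega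
    · simp only [Bool.not_true, Bool.false_eq_true, if_false, if_true, sz_cons]
      omega

theorem SLP_map (p : Str) (V : List (ℕ × Str)) :
    sz (V.map fun v => (v.1, add v.2 p)) ≤ sz V := by
  induction V with
  | nil => simp
  | cons a l ih =>
    have h : (add a.2 p).length ≤ a.2.length := by
      unfold add
      rw [List.length_zipWith]
      exact Nat.min_le_left _ _
    simp only [List.map_cons, sz_cons, sz_pair, sz_nat, sz_str]
    omega

theorem SLP_tail {α : Type} [SE α] (V : List α) : sz V.tail ≤ sz V := by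
  cases V with
  | nil => simp
  | cons a l =>
    simp only [List.tail_cons, sz_cons]
    omega

theorem SLP_sz (f : Str → Bool) (V : List (ℕ × Str)) : sz (slvs f V) ≤ sz V := by
  unfold slvs
  rw [sz_append]
  have h1 := SLP_filter (fun v : ℕ × Str => f v.2) V
  have h2 := SLP_map (((V.filter fun v => f v.2).headD (0, [])).2) (V.filter fun v => f v.2).tail
  have h3 := SLP_tail (V.filter fun v => f v.2)
  omega

theorem p_SLP (hPLF : Stmt_PLF) : Stmt_SLP := by
  intro B γ δ _ _ R Q F hR hQ hF
  obtain ⟨-, -, -, -, -, -, -, -, hadd, -, -, hev, -⟩ := hPLF B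
  have hF1 : PolyF B (fun p : (δ × List (ℕ × Str) × γ) × (ℕ × Str) =>
      F p.1.1 p.1.2.2 p.2.2) :=
    PolyF.comp (f := fun p : δ × γ × Str => F p.1 p.2.1 p.2.2)
      (g := fun p : (δ × List (ℕ × Str) × γ) × (ℕ × Str) => (p.1.1, p.1.2.2, p.2.2)) hF
      (by fun_prop)
  have h1 : PolyF B (fun p : δ × List (ℕ × Str) × γ =>
      p.2.1.filter fun v => !(F p.1 p.2.2 v.2)) :=
    PolyF.filter (l := fun p : δ × List (ℕ × Str) × γ => p.2.1)
      (f := fun p v => !(F p.1 p.2.2 v.2)) (by fun_prop) (PolyF.not hF1)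
  have h2 : PolyF B (fun p : δ × List (ℕ × Str) × γ =>
      p.2.1.filter fun v => F p.1 p.2.2 v.2) :=
    PolyF.filter (l := fun p : δ × List (ℕ × Str) × γ => p.2.1)
      (f := fun p v => F p.1 p.2.2 v.2) (by fun_prop) hF1
  have h3 : PolyF B (fun q : (δ × List (ℕ × Str) × γ) × (ℕ × Str) =>
      (((q.1.2.1.filter fun v => F q.1.1 q.1.2.2 v.2).headD ((0 : ℕ), ([] : Str))).2)) :=
    PolyF.snd (PolyF.headD (PolyF.comp (f := fun p : δ × List (ℕ × Str) × γ =>
      p.2.1.filter fun v => F p.1 p.2.2 v.2)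
      (g := fun q : (δ × List (ℕ × Str) × γ) × (ℕ × Str) => q.1) h2 (by fun_prop))
      (PolyF.const _))
  have h4 : PolyF B (fun q : (δ × List (ℕ × Str) × γ) × (ℕ × Str) =>
      (q.2.1, add q.2.2 (((q.1.2.1.filter fun v => F q.1.1 q.1.2.2 v.2).headD
        ((0 : ℕ), ([] : Str))).2))) :=
    PolyF.pair (by fun_prop)
      (PolyF.comp (f := fun p : Str × Str => add p.1 p.2)
        (g := fun q : (δ × List (ℕ × Str) × γ) × (ℕ × Str) =>
          (q.2.2, (((q.1.2.1.filter fun v => F q.1.1 q.1.2.2 v.2).headD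
            ((0 : ℕ), ([] : Str))).2))) hadd (PolyF.pair (by fun_prop) h3))
  have h5 : PolyF B (fun p : δ × List (ℕ × Str) × γ => slvs (F p.1 p.2.2) p.2.1) := by
    have h6 : PolyF B (fun p : δ × List (ℕ × Str) × γ =>
        ((p.2.1.filter fun v => F p.1 p.2.2 v.2).tail.map fun v =>
          (v.1, add v.2 (((p.2.1.filter fun v => F p.1 p.2.2 v.2).headD (0, [])).2)))) :=
      PolyF.map (l := fun p : δ × List (ℕ × Str) × γ =>
          (p.2.1.filter fun v => F p.1 p.2.2 v.2).tail)
        (f := fun p v =>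
          (v.1, add v.2 (((p.2.1.filter fun v => F p.1 p.2.2 v.2).headD (0, [])).2)))
        (PolyF.tail h2) h4
    exact PolyF.append h1 h6
  have h7 : PolyF B (fun x : δ => (List.range (R x)).map fun c => (c, ev (R x) c)) := by
    refine PolyF.map (l := fun x : δ => List.range (R x)) (f := fun x c => (c, ev (R x) c))
      (by fun_prop) ?_
    refine PolyF.pair (by fun_prop) ?_
    exact PolyF.comp (f := fun p : ℕ × ℕ => ev p.1 p.2) (g := fun p : δ × ℕ => (R p.1, p.2))
      hev (by fun_prop)
  have h8 := PolyF.foldl_add (l := Q) (g := fun x : δ => (List.range (R x)).map fun c =>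
    (c, ev (R x) c)) (h := fun x V q => slvs (F x q) V) hQ h7 h5 0
    (fun a s b _ => by
      have := SLP_sz (F a b) s
      simpa using this)
  exact PolyF.snd (PolyF.headD h8 (PolyF.const ((0 : ℕ), ([] : Str))))

end Pool.EV
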