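import Pool.Agent.Work.MP_cb380d_ev.InterfaceB

/-! # Block SLV: the solver -/

open Pool.IC Pool.GL Pool.TL Polynomial

namespace Pool.EV

theorem SLV_add_getD (z u : Str) (h : z.length = u.length) (i : ℕ) :
    (add z u).getD i false = xor (z.getD i false) (u.getD i false) := by
  rw [add, List.getD_eq_getElem?_getD, List.getD_eq_getElem?_getD, List.getD_eq_getElem?_getD,
    List.getElem?_zipWith]
  rcases lt_or_ge i z.length with hi | hi
  · have hi' : i < u.length := by omega
    rw [List.getElem?_eq_getElem hi, List.getElem?_eq_getElem hi']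
    simp
  · have hi' : u.length ≤ i := by omega
    rw [List.getElem?_eq_none hi, List.getElem?_eq_none hi']
    simp

theorem SLV_ev (R c j : ℕ) : (ev R c).getD j false = decide (j < R ∧ j = c) := by
  rw [ev, List.getD_eq_getElem?_getD, List.getElem?_map]
  rcases lt_or_ge j R with hj | hj
  · rw [List.getElem?_range hj]
    simp [hj]
  · rw [List.getElem?_eq_none (by simpa using hj)]
    simp [hj]

/-- the relation of two members -/
def SLV_rel (a b : ℕ × Str) : Prop := a.2.getD b.1 false = false ∧ b.2.getD a.1 false = false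

/-- the invariant -/
def SLV_I {γ : Type} (R : ℕ) (F : γ → Str → Bool) (D : List γ) (V : List (ℕ × Str)) : Prop :=
  (∀ a ∈ V, a.2.length = R ∧ a.2.getD a.1 false = true ∧ ∀ q ∈ D, F q a.2 = false) ∧
    V.Pairwise SLV_rel ∧ R ≤ V.length + D.length

theorem SLV_step {γ : Type} (R : ℕ) (F : γ → Str → Bool) (D : List γ) (V : List (ℕ × Str)) (q0 : γ)
    (hadd : ∀ q ∈ q0 :: D, ∀ u v : Str, u.length = R → v.length = R →
      F q (add u v) = xor (F q u) (F q v)) (h : SLV_I R F D V) :
    SLV_I R F (q0 :: D) (slvs (F q0) V) := by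
  obtain ⟨h1, h2, h3⟩ := h
  obtain ⟨good, hgood⟩ : ∃ g, g = V.filter fun v => !(F q0 v.2) := ⟨_, rfl⟩
  obtain ⟨bad, hbad⟩ : ∃ g, g = V.filter fun v => F q0 v.2 := ⟨_, rfl⟩
  have hperm : (bad ++ good).Perm V := by
    rw [hbad, hgood]
    exact List.filter_append_perm (fun v => F q0 v.2) V
  have hsymm : ∀ {a b : ℕ × Str}, SLV_rel a b → SLV_rel b a := fun h => ⟨h.2, h.1⟩
  have h2' : (bad ++ good).Pairwise SLV_rel := (hperm.pairwise_iff hsymm).2 h2
  obtain ⟨hb, hg, hbg⟩ := List.pairwise_append.1 h2'
  have hlen : bad.length + good.length = V.length := by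
    rw [← List.length_append]
    exact hperm.length_eq
  have memg : ∀ a ∈ good, a ∈ V ∧ F q0 a.2 = false := by
    intro a ha
    rw [hgood, List.mem_filter] at ha
    exact ⟨ha.1, by simpa using ha.2⟩
  have memb : ∀ a ∈ bad, a ∈ V ∧ F q0 a.2 = true := by
    intro a ha
    rw [hbad, List.mem_filter] at ha
    exact ⟨ha.1, by simpa using ha.2⟩
  have hs : slvs (F q0) V = good ++ (bad.tail.map fun v => (v.1, add v.2 ((bad.headD (0, [])).2))) := by
    rw [slvs, ← hgood, ← hbad]
  rw [hs]
  cases hbc : bad with
  | nil =>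
    rw [hbc] at hlen
    simp only [List.tail_nil, List.map_nil, List.append_nil]
    refine ⟨fun a ha => ?_, hg, ?_⟩
    · obtain ⟨e1, e2, e3⟩ := h1 a (memg a ha).1
      refine ⟨e1, e2, fun q hq => ?_⟩
      rcases List.mem_cons.1 hq with rfl | hq
      · exact (memg a ha).2
      · exact e3 q hq
    · simp only [List.length_nil, List.length_cons] at hlen ⊢
      omega
  | cons p t =>
    rw [hbc] at hlen hb hbg memb
    simp only [List.tail_cons, List.headD_cons]
    obtain ⟨hpt, ht⟩ := List.pairwise_cons.1 hb
    obtain ⟨hpV, hpF⟩ := memb p List.mem_cons_self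
    obtain ⟨hp1, hp2, hp3⟩ := h1 p hpV
    have hbt : ∀ b ∈ t, b ∈ V ∧ F q0 b.2 = true := fun b hb => memb b (List.mem_cons_of_mem _ hb)
    have hgd : ∀ b ∈ t, ∀ i, (add b.2 p.2).getD i false = xor (b.2.getD i false) (p.2.getD i false) :=
      fun b hb i => SLV_add_getD _ _ (by rw [(h1 b (hbt b hb).1).1, hp1]) i
    refine ⟨fun a ha => ?_, List.pairwise_append.2 ⟨hg, ?_, ?_⟩, ?_⟩
    · rcases List.mem_append.1 ha with ha | ha
      · obtain ⟨e1, e2, e3⟩ := h1 a (memg a ha).1
        refine ⟨e1, e2, fun q hq => ?_⟩
        rcases List.mem_cons.1 hq with rfl | hq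
        · exact (memg a ha).2
        · exact e3 q hq
      · obtain ⟨b, hb, rfl⟩ := List.mem_map.1 ha
        obtain ⟨e1, e2, e3⟩ := h1 b (hbt b hb).1
        refine ⟨?_, ?_, fun q hq => ?_⟩
        · show (add b.2 p.2).length = R
          rw [add, List.length_zipWith, e1, hp1, min_self]
        · show (add b.2 p.2).getD b.1 false = true
          rw [hgd b hb, e2, (hpt b hb).1]
          rfl
        · show F q (add b.2 p.2) = false
          rw [hadd q hq _ _ e1 hp1]
          rcases List.mem_cons.1 hq with rfl | hq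
          · rw [(hbt b hb).2, hpF]
            rfl
          · rw [e3 q hq, hp3 q hq]
            rfl
    · rw [List.pairwise_map]
      refine ht.imp_of_mem ?_
      intro a b ha hb hab
      refine ⟨?_, ?_⟩
      · show (add a.2 p.2).getD b.1 false = false
        rw [hgd a ha, hab.1, (hpt b hb).1]
        rfl
      · show (add b.2 p.2).getD a.1 false = false
        rw [hgd b hb, hab.2, (hpt a ha).1]
        rfl
    · intro a ha b hb
      obtain ⟨c, hc, rfl⟩ := List.mem_map.1 hb
      have r1 := hbg c (List.mem_cons_of_mem _ hc) a ha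
      have r2 := hbg p List.mem_cons_self a ha
      refine ⟨r1.2, ?_⟩
      show (add c.2 p.2).getD a.1 false = false
      rw [hgd c hc, r1.1, r2.1]
      rfl
    · simp only [List.length_append, List.length_map, List.length_cons] at hlen ⊢
      omega

theorem SLV_fold {γ : Type} (R : ℕ) (F : γ → Str → Bool) (Q : List γ) :
    ∀ (D : List γ) (V : List (ℕ × Str)), (∀ q, q ∈ Q ∨ q ∈ D → ∀ u v : Str, u.length = R →
      v.length = R → F q (add u v) = xor (F q u) (F q v)) → SLV_I R F D V →
    SLV_I R F (Q.reverse ++ D) (Q.foldl (fun V q => slvs (F q) V) V) := by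
  induction Q with
  | nil =>
    intro D V _ h
    exact h
  | cons q Q ih =>
    intro D V hadd h
    rw [List.foldl_cons, List.reverse_cons, List.append_assoc]
    refine ih (q :: D) _ ?_ (SLV_step R F D V q ?_ h)
    · rintro q' (hq | hq)
      · exact hadd q' (Or.inl (List.mem_cons_of_mem _ hq))
      · rcases List.mem_cons.1 hq with rfl | hq
        · exact hadd q' (Or.inl List.mem_cons_self)
        · exact hadd q' (Or.inr hq)
    · intro q' hq
      rcases List.mem_cons.1 hq with rfl | hq
      · exact hadd q' (Or.inl List.mem_cons_self)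
      · exact hadd q' (Or.inr hq)

theorem p_SLV : Stmt_SLV := by
  intro γ R Q F hadd hQ
  have h0 : SLV_I R F [] ((List.range R).map fun c => (c, ev R c)) := by
    refine ⟨?_, ?_, by simp⟩
    · intro a ha
      obtain ⟨c, hc, rfl⟩ := List.mem_map.1 ha
      refine ⟨by simp [ev], ?_, by simp⟩
      show (ev R c).getD c false = true
      rw [SLV_ev]
      simpa using hc
    · rw [List.pairwise_map]
      refine List.Pairwise.imp ?_ (List.nodup_range (n := R))
      intro a b hab
      refine ⟨?_, ?_⟩
      · show (ev R a).getD b false = false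
        rw [SLV_ev]
        simpa using fun _ h => hab h.symm
      · show (ev R b).getD a false = false
        rw [SLV_ev]
        simpa using fun _ h => hab h
  have h1 := SLV_fold R F Q [] _ (by
    rintro q (hq | hq)
    · exact hadd q hq
    · exact absurd hq (by simp)) h0
  obtain ⟨e1, e2, e3⟩ := h1
  rw [List.append_nil, List.length_reverse] at e3
  cases hV : Q.foldl (fun V q => slvs (F q) V) ((List.range R).map fun c => (c, ev R c)) with
  | nil =>
    rw [hV] at e3
    simp only [List.length_nil] at e3
    omega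
  | cons a t =>
    rw [hV] at e1
    obtain ⟨f1, f2, f3⟩ := e1 a List.mem_cons_self
    have hs : slv R Q F = a.2 := by rw [slv, hV, List.headD_cons]
    rw [hs]
    refine ⟨f1, ?_, fun q hq => f3 q (by simpa using hq)⟩
    rw [List.getD_eq_getElem?_getD] at f2
    rcases lt_or_ge a.1 a.2.length with hi | hi
    · rw [List.getElem?_eq_getElem hi, Option.getD_some] at f2
      rw [← f2]
      exact List.getElem_mem hi
    · rw [List.getElem?_eq_none hi] at f2
      simp at f2

end Pool.EV
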