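import Pool.Agent.Work.MP_cb380d_ev.InterfaceD

set_option autoImplicit false

/-!
# Block SMC: correctness of the solver modulo m
-/

open Pool.IC Pool.GL Pool.TL Polynomial

namespace Pool.EV

theorem SMC_ev_length (R c : ℕ) : (ev R c).length = R := by
  unfold ev
  simp

theorem SMC_disj (G r : ℕ) (U : List Str) (h1 : U.length = r)
    (h3 : ∀ a < r, (∃ j, a * G ≤ j ∧ j < (a + 1) * G ∧ (U.getD a []).getD j false = true) ∧
      ∀ j, j < a * G ∨ (a + 1) * G ≤ j → (U.getD a []).getD j false = false) : Disj U := by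
  intro a ha b hb hab j hj
  rw [h1] at ha hb
  have h4 : ¬ (j < a * G ∨ (a + 1) * G ≤ j) := by
    intro h
    rw [(h3 a ha).2 j h] at hj
    exact absurd hj (by decide)
  push Not at h4
  refine (h3 b hb).2 j ?_
  rcases lt_or_gt_of_ne hab with h | h
  · left
    have : (a + 1) * G ≤ b * G := Nat.mul_le_mul_right G h
    omega
  · right
    have : (b + 1) * G ≤ a * G := Nat.mul_le_mul_right G h
    omega

theorem p_SMC (hCMB : Stmt_CMB) (_hNZB : Stmt_NZB) (hRS3 : Stmt_RS3) (hDMC : Stmt_DMC) :
    Stmt_SMC := by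
  intro ps m d
  induction d with
  | zero =>
    intro F M R hX hp hm hR hF
    refine ⟨SMC_ev_length R 0, ?_, fun i hi => ?_⟩
    · show true ∈ (List.range R).map fun j => decide (j = 0)
      rw [List.mem_map]
      exact ⟨0, List.mem_range.2 hR, by simp⟩
    · obtain ⟨c, hc⟩ := hF i hi
      have e : ∀ z : Str, (supp z).powerset.filter (fun T => T.card ≤ 0) = {∅} := by
        intro z
        ext T
        simp only [Finset.mem_filter, Finset.mem_powerset, Finset.mem_singleton,
          Nat.le_zero, Finset.card_eq_zero]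
        constructor
        · intro h
          exact h.2
        · intro h
          exact ⟨by rw [h]; exact Finset.empty_subset _, h⟩
      change F i (ev R 0) ≡ F i (List.replicate R false) [MOD m]
      rw [← ZMod.natCast_eq_natCast_iff, hc _ (SMC_ev_length R 0), hc _ (by simp), e, e]
  | succ d ih =>
    intro F M R hX hp hm hR hF
    obtain ⟨r, hr⟩ : ∃ r, r = km ps d M := ⟨_, rfl⟩
    obtain ⟨G, hG⟩ : ∃ G, G = nzm ps (M * r ^ d) := ⟨_, rfl⟩
    obtain ⟨U, hU⟩ : ∃ U, U = dirm ps F m d M R G r := ⟨_, rfl⟩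
    have hR' : r * G ≤ R := by
      rw [hG, hr]
      exact hR
    obtain ⟨h1, h2, h3, h4⟩ := hDMC ps F m d M R G r hX hp hm hF (by rw [hG]) hR'
    rw [← hU] at h1 h2 h3 h4
    obtain ⟨c1, c2, c3, c4, c5⟩ := hCMB R U h2
    have hdis : Disj U := SMC_disj G r U h1 h3
    have hd : ∀ i < M, IsModPoly m r d (fun s => F i (cmb R U s)) := by
      intro i hi
      have h := hRS3 m R d (F i) U hm (hF i hi) h2 hdis (h4 i hi)
      rw [h1] at h
      exact h
    obtain ⟨i1, i2, i3⟩ := ih (fun i s => F i (cmb R U s)) M r hX hp hm (by rw [hr]) hd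
    have e : solm ps m (d + 1) F M R =
        cmb R U (solm ps m d (fun i s => F i (cmb R U s)) M r) := by
      rw [hU, hG, hr]
      rfl
    rw [e]
    refine ⟨c1 _, c5 G _ (fun a ha => h3 a (by rwa [h1] at ha)) (by rw [i1, h1]) i2,
      fun i hi => ?_⟩
    have h5 := i3 i hi
    have h6 : cmb R U (List.replicate r false) = List.replicate R false := by
      rw [← h1]
      exact c4
    simp only [h6] at h5
    exact h5

end Pool.EV
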