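import Pool.Agent.Work.MP_cb380d_ev.InterfaceD

/-! Block SMP of THEOREM EV, part D (helper9). -/

set_option autoImplicit false

open Pool.IC Pool.GL Pool.TL Polynomial

namespace Pool.EV

theorem SMP_ev (B : Set Str) : PolyF B (fun p : ℕ × ℕ => ev p.1 p.2) := by
  unfold ev
  refine PolyF.map (l := fun p : ℕ × ℕ => List.range p.1)
    (f := fun (p : ℕ × ℕ) (j : ℕ) => decide (j = p.2)) (by fun_prop) (by fun_prop)

theorem p_SMP (hCBF : Stmt_CBF) (hZMP : Stmt_ZMP) (hDMP : Stmt_DMP) : Stmt_SMP := by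
  intro B ps hps m d
  induction d with
  | zero =>
    intro γ _ F _
    have h : PolyF B (fun p : γ × ℕ × ℕ => ev p.2.2 0) :=
      PolyF.comp (f := fun p : ℕ × ℕ => ev p.1 p.2) (g := fun p : γ × ℕ × ℕ => (p.2.2, 0))
        (SMP_ev B) (by fun_prop)
    exact h
  | succ d ih =>
    intro γ _ F hF
    obtain ⟨hnz, -, hkm⟩ := hZMP B ps hps
    have hkd1 : PolyF B (fun p : γ × ℕ × ℕ => km ps d p.2.1) :=
      PolyF.comp (f := fun m : ℕ => km ps d m) (g := fun p : γ × ℕ × ℕ => p.2.1) (hkm d)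
        (by fun_prop)
    have hkd2 : PolyF B (fun p : γ × ℕ × ℕ => km ps d p.2.1 ^ d) := PolyF.pow hkd1 d
    have hG : PolyF B (fun p : γ × ℕ × ℕ => nzm ps (p.2.1 * km ps d p.2.1 ^ d)) :=
      PolyF.comp (f := fun L : ℕ => nzm ps L)
        (g := fun p : γ × ℕ × ℕ => p.2.1 * km ps d p.2.1 ^ d) hnz (by fun_prop)
    have hU : PolyF B (fun p : γ × ℕ × ℕ =>
        dirm ps (F p.1) m d p.2.1 p.2.2 (nzm ps (p.2.1 * km ps d p.2.1 ^ d)) (km ps d p.2.1)) :=
      PolyF.comp (f := fun p : γ × ℕ × ℕ × ℕ × ℕ =>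
          dirm ps (F p.1) m d p.2.1 p.2.2.1 p.2.2.2.1 p.2.2.2.2)
        (g := fun p : γ × ℕ × ℕ => (p.1, p.2.1, p.2.2, nzm ps (p.2.1 * km ps d p.2.1 ^ d),
          km ps d p.2.1))
        (hDMP B ps hps γ F m d hF) (by fun_prop)
    have hcmb := hCBF B
    have hF' : PolyF B (fun p : (γ × ℕ × List Str) × ℕ × Str =>
        F p.1.1 p.2.1 (cmb p.1.2.1 p.1.2.2 p.2.2)) := by
      have h0 : PolyF B (fun p : (γ × ℕ × List Str) × ℕ × Str =>
          cmb p.1.2.1 p.1.2.2 p.2.2) :=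
        PolyF.comp (f := fun p : ℕ × List Str × Str => cmb p.1 p.2.1 p.2.2)
          (g := fun p : (γ × ℕ × List Str) × ℕ × Str => (p.1.2.1, p.1.2.2, p.2.2))
          hcmb (by fun_prop)
      exact PolyF.comp (f := fun p : γ × ℕ × Str => F p.1 p.2.1 p.2.2)
        (g := fun p : (γ × ℕ × List Str) × ℕ × Str =>
          (p.1.1, p.2.1, cmb p.1.2.1 p.1.2.2 p.2.2)) hF (by fun_prop)
    have h1 := ih (γ × ℕ × List Str) (fun c i s => F c.1 i (cmb c.2.1 c.2.2 s)) hF'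
    have h2 : PolyF B (fun p : γ × ℕ × ℕ =>
        solm ps m d (fun i s => F p.1 i (cmb p.2.2
          (dirm ps (F p.1) m d p.2.1 p.2.2 (nzm ps (p.2.1 * km ps d p.2.1 ^ d))
            (km ps d p.2.1)) s))
          p.2.1 (km ps d p.2.1)) :=
      PolyF.comp (f := fun p : (γ × ℕ × List Str) × ℕ × ℕ =>
          solm ps m d (fun i s => F p.1.1 i (cmb p.1.2.1 p.1.2.2 s)) p.2.1 p.2.2)
        (g := fun p : γ × ℕ × ℕ => ((p.1, p.2.2,
          dirm ps (F p.1) m d p.2.1 p.2.2 (nzm ps (p.2.1 * km ps d p.2.1 ^ d))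
            (km ps d p.2.1)),
          p.2.1, km ps d p.2.1)) h1 (by fun_prop)
    have h3 := PolyF.comp (f := fun p : ℕ × List Str × Str => cmb p.1 p.2.1 p.2.2)
      (g := fun p : γ × ℕ × ℕ => (p.2.2,
        dirm ps (F p.1) m d p.2.1 p.2.2 (nzm ps (p.2.1 * km ps d p.2.1 ^ d)) (km ps d p.2.1),
        solm ps m d (fun i s => F p.1 i (cmb p.2.2
          (dirm ps (F p.1) m d p.2.1 p.2.2 (nzm ps (p.2.1 * km ps d p.2.1 ^ d))
            (km ps d p.2.1)) s))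
          p.2.1 (km ps d p.2.1))) hcmb (by fun_prop)
    exact h3

end Pool.EV
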