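import Pool.Agent.Work.MP_cb380d_ev.InterfaceC

open Pool.IC Pool.GL Pool.TL Polynomial

namespace Pool.EV

theorem SOL_ev_length (R c : ℕ) : (ev R c).length = R := by
  unfold ev
  simp

theorem SOL_step (hDTZ : Stmt_DTZ) (hDAF : Stmt_DAF) (R r d G : ℕ) (F : Str → Bool)
    (U : List Str) (hlen : U.length = r) (hUR : ∀ v ∈ U, v.length = R)
    (c1 : ∀ s, (cmb R U s).length = R)
    (c2 : ∀ s s', s.length = U.length → s'.length = U.length →
      cmb R U (add s s') = add (cmb R U s) (cmb R U s'))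
    (c3 : ∀ j < U.length, cmb R U (ev U.length j) = U.getD j [])
    (c4 : cmb R U (List.replicate U.length false) = List.replicate R false)
    (hF : DegLE R (d + 1) F)
    (h4 : ∀ a < r, ∀ js : List ℕ, js.length = d → (∀ j ∈ js, j < a) →
      dv F (U.getD a [] :: js.map fun j => U.getD j []) (List.replicate R false) = false) :
    DegLE r d (fun s => F (cmb R U s)) := by
  subst hlen
  obtain ⟨k1, k2⟩ := hDAF U.length R F (cmb R U) (cmb R U) (fun s _ => c1 s) (fun s _ => c1 s)
    (fun s u hs hu => c2 s u hs hu)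
  refine hDTZ U.length d _ (k1 (d + 1) hF) (fun a ha js hjs hlt => ?_)
  rw [k2 (ev U.length a :: js.map (ev U.length)) (List.replicate U.length false) (by
    intro v hv
    rw [List.mem_cons, List.mem_map] at hv
    rcases hv with h | ⟨j, -, h⟩
    · rw [h]
      exact SOL_ev_length _ _
    · rw [← h]
      exact SOL_ev_length _ _) (by simp), c4, List.map_cons, c3 a ha, List.map_map]
  have e : js.map (cmb R U ∘ ev U.length) = js.map fun j => U.getD j [] := by
    refine List.map_congr_left fun j hj => ?_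
    exact c3 j ((hlt j hj).trans ha)
  rw [e]
  exact h4 a ha js hjs hlt

theorem p_SOL (hDTZ : Stmt_DTZ) (hDAF : Stmt_DAF) (hCMB : Stmt_CMB) (hDIR : Stmt_DIR) :
    Stmt_SOL := by
  intro d
  induction d with
  | zero =>
    intro F m R hR hF
    refine ⟨SOL_ev_length R 0, ?_, fun i hi => hF i hi _ _ (SOL_ev_length R 0) (by simp)⟩
    show true ∈ (List.range R).map fun j => decide (j = 0)
    rw [List.mem_map]
    exact ⟨0, List.mem_range.2 hR, by simp⟩
  | succ d ih =>
    intro F m R hR hF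
    obtain ⟨r, hr⟩ : ∃ r, r = kd d m := ⟨_, rfl⟩
    obtain ⟨G, hG⟩ : ∃ G, G = m * r ^ d + 1 := ⟨_, rfl⟩
    obtain ⟨U, hU⟩ : ∃ U, U = dir F d m R G r := ⟨_, rfl⟩
    have hR' : r * G ≤ R := by
      rw [hG, hr]
      exact hR
    obtain ⟨h1, h2, h3, h4⟩ := hDIR F d m R G r hF (by rw [hG]; omega) hR'
    rw [← hU] at h1 h2 h3 h4
    obtain ⟨c1, c2, c3, c4, c5⟩ := hCMB R U h2
    have hd : ∀ i < m, DegLE r d (fun s => F i (cmb R U s)) := fun i hi =>
      SOL_step hDTZ hDAF R r d G (F i) U h1 h2 c1 c2 c3 c4 (hF i hi) (h4 i hi)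
    obtain ⟨i1, i2, i3⟩ := ih (fun i s => F i (cmb R U s)) m r (by rw [hr]) hd
    have e : sol (d + 1) F m R = cmb R U (sol d (fun i s => F i (cmb R U s)) m r) := by
      rw [hU, hG, hr]
      rfl
    rw [e]
    refine ⟨c1 _, c5 G _ (fun a ha => h3 a (by rwa [h1] at ha)) (by rw [i1, h1]) i2,
      fun i hi => ?_⟩
    have h5 := i3 i hi
    rw [← h1, c4] at h5
    rw [h1] at h5
    exact h5

end Pool.EV
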