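import Pool.Agent.Work.MP_cb380d_ev.InterfaceC

/-! Block SOP (helper78). -/

set_option autoImplicit false

open Pool.IC Pool.GL Pool.TL Polynomial

namespace Pool.EV

theorem p_SOP (hPLF : Stmt_PLF) (hDVP : Stmt_DVP) (hCBF : Stmt_CBF) (hDRP : Stmt_DRP) :
    Stmt_SOP := by
  intro B d
  induction d with
  | zero =>
    intro γ _ F _
    have hev : PolyF B (fun p : ℕ × ℕ => ev p.1 p.2) := (hPLF B).2.2.2.2.2.2.2.2.2.2.2.1
    have h : PolyF B (fun p : γ × ℕ × ℕ => ev p.2.2 0) :=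
      PolyF.comp (f := fun p : ℕ × ℕ => ev p.1 p.2) (g := fun p : γ × ℕ × ℕ => (p.2.2, 0))
        hev (by fun_prop)
    exact h
  | succ d ih =>
    intro γ _ F hF
    have hkd : PolyF B (fun m : ℕ => kd d m) :=
      (hDVP B Unit (fun _ _ => false) d (by fun_prop)).2.2
    have hkd1 : PolyF B (fun p : γ × ℕ × ℕ => kd d p.2.1) :=
      PolyF.comp (f := fun m : ℕ => kd d m) (g := fun p : γ × ℕ × ℕ => p.2.1) hkd (by fun_prop)
    have hkd2 : PolyF B (fun p : γ × ℕ × ℕ => kd d p.2.1 ^ d) := PolyF.pow hkd1 d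
    have hU : PolyF B (fun p : γ × ℕ × ℕ =>
        dir (F p.1) d p.2.1 p.2.2 (p.2.1 * kd d p.2.1 ^ d + 1) (kd d p.2.1)) :=
      PolyF.comp (f := fun p : γ × ℕ × ℕ × ℕ × ℕ =>
          dir (F p.1) d p.2.1 p.2.2.1 p.2.2.2.1 p.2.2.2.2)
        (g := fun p : γ × ℕ × ℕ => (p.1, p.2.1, p.2.2, p.2.1 * kd d p.2.1 ^ d + 1, kd d p.2.1))
        (hDRP B γ F d hF) (by fun_prop)
    have hcmb := hCBF B
    have hF' : PolyF B (fun p : (γ × ℕ × List Str) × ℕ × Str =>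
        F p.1.1 p.2.1 (cmb p.1.2.1 p.1.2.2 p.2.2)) := by
      have h0 : PolyF B (fun p : (γ × ℕ × List Str) × ℕ × Str =>
          cmb p.1.2.1 p.1.2.2 p.2.2) :=
        PolyF.comp (f := fun p : ℕ × List Str × Str => cmb p.1 p.2.1 p.2.2)
          (g := fun p : (γ × ℕ × List Str) × ℕ × Str => (p.1.2.1, p.1.2.2, p.2.2))
          hcmb (by fun_prop)
      exact PolyF.comp (f := fun p : γ × ℕ × Str => F p.1 p.2.1 p.2.2)
        (g := fun p : (γ × ℕ × List Str) × ℕ × Str =>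
          (p.1.1, p.2.1, cmb p.1.2.1 p.1.2.2 p.2.2)) hF (by fun_prop)
    have h1 := ih (γ × ℕ × List Str) (fun c i s => F c.1 i (cmb c.2.1 c.2.2 s)) hF'
    have h2 : PolyF B (fun p : γ × ℕ × ℕ =>
        sol d (fun i s => F p.1 i (cmb p.2.2
          (dir (F p.1) d p.2.1 p.2.2 (p.2.1 * kd d p.2.1 ^ d + 1) (kd d p.2.1)) s))
          p.2.1 (kd d p.2.1)) :=
      PolyF.comp (f := fun p : (γ × ℕ × List Str) × ℕ × ℕ =>
          sol d (fun i s => F p.1.1 i (cmb p.1.2.1 p.1.2.2 s)) p.2.1 p.2.2)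
        (g := fun p : γ × ℕ × ℕ => ((p.1, p.2.2,
          dir (F p.1) d p.2.1 p.2.2 (p.2.1 * kd d p.2.1 ^ d + 1) (kd d p.2.1)),
          p.2.1, kd d p.2.1)) h1 (by fun_prop)
    have h3 := PolyF.comp (f := fun p : ℕ × List Str × Str => cmb p.1 p.2.1 p.2.2)
      (g := fun p : γ × ℕ × ℕ => (p.2.2,
        dir (F p.1) d p.2.1 p.2.2 (p.2.1 * kd d p.2.1 ^ d + 1) (kd d p.2.1),
        sol d (fun i s => F p.1 i (cmb p.2.2
          (dir (F p.1) d p.2.1 p.2.2 (p.2.1 * kd d p.2.1 ^ d + 1) (kd d p.2.1)) s))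
          p.2.1 (kd d p.2.1))) hcmb (by fun_prop)
    exact h3

end Pool.EV
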