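import Pool.Agent.Work.MP_cb380d_ev.InterfaceG

/-!
# MP_cb380d_lc, block SSP: all stages of a layer in polynomial time
-/

open Pool.IC Pool.GL Pool.TL Polynomial

namespace Pool.EV

theorem SSP_sts (h1 : Stmt_STP) (h2 : Stmt_RNP) (B : Set Str) (ps : List (ℕ × ℕ × ℕ)) :
    PolyF B (fun p : ℕ × List (List Lits) => sts ps p.1 p.2) := by
  induction ps with
  | nil =>
    have h : PolyF B (fun _ : ℕ × List (List Lits) => ([] : List (List ℕ × Str))) := by fun_prop
    exact h.congrF fun p => by simp [sts]
  | cons q ps ih =>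
    have hs := (h1 B q.1 q.2.1 q.2.2).2
    have hn := (h2 B).2.2.2 q.1 q.2.1 q.2.2
    have hm : PolyF B (fun p : ℕ × List (List Lits) => nmv ps.length p.1) := by
      unfold nmv
      exact PolyF.pow (by fun_prop) _
    have hs' : PolyF B (fun p : ℕ × List (List Lits) =>
        stg q.1 q.2.1 q.2.2 (nmv ps.length p.1) p.2) := by
      have h : PolyF B (fun p : ℕ × List (List Lits) => (nmv ps.length p.1, p.2)) := by fun_prop
      exact hs.comp h
    have hn' : PolyF B (fun p : ℕ × List (List Lits) =>
        nxt q.1 q.2.1 q.2.2 (nmv ps.length p.1)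
          (stg q.1 q.2.1 q.2.2 (nmv ps.length p.1) p.2) p.2) := by
      have h : PolyF B (fun p : ℕ × List (List Lits) => (nmv ps.length p.1,
        (stg q.1 q.2.1 q.2.2 (nmv ps.length p.1) p.2), p.2)) := by fun_prop
      exact hn.comp h
    have hi : PolyF B (fun p : ℕ × List (List Lits) =>
        sts ps p.1 (nxt q.1 q.2.1 q.2.2 (nmv ps.length p.1)
          (stg q.1 q.2.1 q.2.2 (nmv ps.length p.1) p.2) p.2)) := by
      have h : PolyF B (fun p : ℕ × List (List Lits) => (p.1, nxt q.1 q.2.1 q.2.2
        (nmv ps.length p.1) (stg q.1 q.2.1 q.2.2 (nmv ps.length p.1) p.2) p.2)) := by fun_prop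
      exact ih.comp h
    have hf : PolyF B (fun p : ℕ × List (List Lits) =>
        stg q.1 q.2.1 q.2.2 (nmv ps.length p.1) p.2 ::
        sts ps p.1 (nxt q.1 q.2.1 q.2.2 (nmv ps.length p.1)
          (stg q.1 q.2.1 q.2.2 (nmv ps.length p.1) p.2) p.2)) := by fun_prop
    exact hf.congrF fun p => by simp [sts]

theorem SSP_phi (h2 : Stmt_RNP) (B : Set Str) (W : ℕ) :
    PolyF B (fun p : List (List ℕ × Str) × Str => phi (p.1.take W) p.2) := by
  induction W with
  | zero =>
    have h : PolyF B (fun p : List (List ℕ × Str) × Str => p.2) := by fun_prop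
    exact h.congrF fun p => by simp [phi]
  | succ W ih =>
    have hp := (h2 B).1
    have hi : PolyF B (fun p : List (List ℕ × Str) × Str => phi (p.1.tail.take W) p.2) := by
      have h : PolyF B (fun p : List (List ℕ × Str) × Str => (p.1.tail, p.2)) := by fun_prop
      exact ih.comp h
    have hg : PolyF B (fun p : List (List ℕ × Str) × Str =>
        plug (p.1.headD ([], [])) (phi (p.1.tail.take W) p.2)) := by
      have h : PolyF B (fun p : List (List ℕ × Str) × Str =>
        (p.1.headD ([], []), phi (p.1.tail.take W) p.2)) := by fun_prop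
      exact hp.comp h
    have hf : PolyF B (fun p : List (List ℕ × Str) × Str => bif p.1.isEmpty then p.2 else
        plug (p.1.headD ([], [])) (phi (p.1.tail.take W) p.2)) := by fun_prop
    refine hf.congrF fun p => ?_
    obtain ⟨l, u⟩ := p
    cases l with
    | nil => simp [phi]
    | cons kb kbs => simp [phi]

theorem p_SSP (h1 : Stmt_STP) (h2 : Stmt_RNP) : Stmt_SSP := by
  intro B
  refine ⟨fun W => ?_, SSP_sts h1 h2 B, SSP_phi h2 B⟩
  unfold nmv
  exact PolyF.pow (by fun_prop) _

end Pool.EV
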