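import Pool.Agent.Work.MP_cb380d_ev.InterfaceF

/-!
# MP_cb380d_lc, CircuitReductions, PART F: block STC (one stage)
-/

open Pool.IC Pool.GL Pool.TL Polynomial

namespace Pool.EV

theorem STC_sum (l : List ℕ) (c : ℕ) (h : ∀ x ∈ l, x ≤ c) : l.sum ≤ l.length * c := by
  have := List.sum_le_card_nsmul l c h
  rwa [smul_eq_mul] at this

theorem STC_cnt {α : Type} (l : List α) (P : α → Bool) (w : α → ℕ)
    (h : ∀ T ∈ l, P T = true → 1 ≤ w T) : (l.filter P).length ≤ (l.map w).sum := by
  induction l with
  | nil => simp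
  | cons T l ih =>
    have ih' := ih fun T' hT' => h T' (List.mem_cons_of_mem _ hT')
    rw [List.map_cons, List.sum_cons, List.filter_cons]
    by_cases hP : P T = true
    · rw [if_pos hP, List.length_cons]
      have := h T List.mem_cons_self hP
      omega
    · rw [if_neg hP]
      omega

theorem STC_ex {α : Type} (l : List α) (P Q : α → Bool) {h : ℕ} (h1 : h ≤ (l.filter P).length)
    (h2 : (l.filter Q).length < h) : ∃ T ∈ l, P T = true ∧ Q T = false := by
  by_contra hcon
  push Not at hcon
  have h3 : l.countP P ≤ l.countP Q := by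
    apply List.countP_mono_left
    intro T hT hP
    have := hcon T hT hP
    simpa using this
  rw [List.countP_eq_length_filter, List.countP_eq_length_filter] at h3
  omega

theorem STC_mod {n q o : ℕ} (ho : o < n) : (q * n + o) / n = q ∧ (q * n + o) % n = o := by
  have hn : 0 < n := by omega
  constructor
  · rw [mul_comm, Nat.mul_add_div hn, Nat.div_eq_of_lt ho, add_zero]
  · rw [mul_comm, Nat.mul_add_mod, Nat.mod_eq_of_lt ho]

theorem STC_kin (n : ℕ) (c H : List ℕ) (hc : ∀ q, c.getD q 0 < n) :
    (kin n c H).length ≤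
      (H.filter fun p => decide (c.getD (p / n) 0 = p % n)).length := by
  have hnd : ((kin n c H).map fun q => q * n + c.getD q 0).Nodup := by
    apply List.Nodup.map_on
    · intro x _ y _ hxy
      have h1 := (STC_mod (q := x) (hc x)).1
      have h2 := (STC_mod (q := y) (hc y)).1
      rw [← h1, hxy, h2]
    · exact List.nodup_range.filter _
  have hsub : ((kin n c H).map fun q => q * n + c.getD q 0) ⊆
      H.filter fun p => decide (c.getD (p / n) 0 = p % n) := by
    intro p hp
    rw [List.mem_map] at hp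
    obtain ⟨q, hq, rfl⟩ := hp
    unfold kin at hq
    rw [List.mem_filter, List.any_eq_true] at hq
    obtain ⟨-, p, hpH, hpe⟩ := hq
    rw [decide_eq_true_eq] at hpe
    rw [List.mem_filter, decide_eq_true_eq, ← hpe]
    refine ⟨hpH, ?_⟩
    obtain ⟨h1, h2⟩ := STC_mod (q := q) (hc q)
    rw [hpe, h1, h2]
  have h3 := (hnd.subperm hsub).length_le
  rwa [List.length_map] at h3

theorem p_STC (hFAM : Stmt_FAM) (hBTC : Stmt_BTC) (hKBC : Stmt_KBC) (hPRM : Stmt_PRM)
    (hPLG : Stmt_PLG) : Stmt_STC := by
  intro t r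
  obtain ⟨h, a, ha, hP⟩ := hPRM t r
  refine ⟨h, a, ha, fun n hn => ?_⟩
  obtain ⟨hP1, hP2, hP3, hP4⟩ := hP n hn
  refine ⟨hP1, fun Fs hFs hT => ?_⟩
  have hn0 : 0 < n := by omega
  obtain ⟨A, hA⟩ : ∃ A, A = szA t r h n := ⟨_, rfl⟩
  obtain ⟨fams, hfams⟩ : ∃ fams, fams = (Fs.filter fun F =>
      decide (szA t r h n ≤ (fam F).length)).map fun F => (fam F).take (szA t r h n) := ⟨_, rfl⟩
  have hK := hKBC n h (Fs.map (hs (szA t r h n))) hn0
    (by
      intro H hH
      rw [List.mem_map] at hH
      obtain ⟨F, hF, rfl⟩ := hH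
      obtain ⟨-, -, f3, -, f5, -⟩ := hFAM (n * n) t (szA t r h n) F (hT F hF)
      exact ⟨f3, f5⟩)
    (by
      have h1 : (((Fs.map (hs (szA t r h n))).map fun H => 2 ^ H.length)).sum ≤
          ((Fs.map (hs (szA t r h n))).map fun H => 2 ^ H.length).length *
            2 ^ (t * szA t r h n) := by
        apply STC_sum
        intro x hx
        rw [List.mem_map] at hx
        obtain ⟨H, hH, rfl⟩ := hx
        rw [List.mem_map] at hH
        obtain ⟨F, hF, rfl⟩ := hH
        obtain ⟨-, -, -, f4, -, -⟩ := hFAM (n * n) t (szA t r h n) F (hT F hF)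
        exact Nat.pow_le_pow_right (by norm_num) f4
      rw [List.length_map, List.length_map] at h1
      exact lt_of_le_of_lt h1 (hP4 _ hFs))
  obtain ⟨k1, k2, k3⟩ := hK
  have hc : ∀ q, (stg t r h n Fs).1.getD q 0 < n := by
    intro q
    change (kpt n (n ^ h) (Fs.map (hs (szA t r h n)))).getD q 0 < n
    by_cases hq : q < (kpt n (n ^ h) (Fs.map (hs (szA t r h n)))).length
    · rw [List.getD_eq_getElem _ _ hq]
      exact k2 _ (List.getElem_mem hq)
    · rw [List.getD_eq_default _ _ (by omega)]
      exact hn0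
  have hlt : ∀ F ∈ Fs, ((hs (szA t r h n) F).filter fun p =>
      decide ((stg t r h n Fs).1.getD (p / n) 0 = p % n)).length < h := by
    intro F hF
    exact k3 _ (List.mem_map.2 ⟨F, hF, rfl⟩)
  refine ⟨hc, ?_, ?_⟩
  · intro F hF hAF u hu
    have hlen : fams.length ≤ n ^ r := by
      rw [hfams, List.length_map]
      exact le_trans (List.length_filter_le _ _) hFs
    have hB := hBTC t (cpA t r h n) n h (szA t r h n) fams
      (by
        intro f hf
        rw [hfams, List.mem_map] at hf
        obtain ⟨G, hG, rfl⟩ := hf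
        rw [List.mem_filter, decide_eq_true_eq] at hG
        obtain ⟨f1, f2, -, -, -, -⟩ := hFAM (n * n) t (szA t r h n) G (hT G hG.1)
        refine ⟨?_, f2.sublist (List.take_sublist _ _), ?_⟩
        · rw [List.length_take]
          omega
        · intro T hTm
          exact hT G hG.1 T (f1 T (List.mem_of_mem_take hTm)))
      hP2 (hP3 _ hlen)
    obtain ⟨-, b2⟩ := hB
    have hbs : bts t (cpA t r h n) n fams = (stg t r h n Fs).2 := by
      rw [hfams]
      rfl
    rw [hbs] at b2
    have hfm : (fam F).take (szA t r h n) ∈ fams := by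
      rw [hfams, List.mem_map]
      refine ⟨F, ?_, rfl⟩
      rw [List.mem_filter, decide_eq_true_eq]
      exact ⟨hF, hAF⟩
    have h1 := b2 _ hfm
    -- the terms with a kept variable
    have h2 : (((fam F).take (szA t r h n)).filter fun T => T.any fun l =>
        decide ((stg t r h n Fs).1.getD (l.1 / n) 0 = l.1 % n)).length < h := by
      refine lt_of_le_of_lt ?_ (hlt F hF)
      unfold hs
      rw [List.filter_flatMap, List.length_flatMap]
      refine STC_cnt _ _ _ ?_
      intro T _ hTP
      rw [List.any_eq_true] at hTP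
      obtain ⟨l, hl, hlk⟩ := hTP
      have h3 : l.1 ∈ (T.map Prod.fst).filter fun p =>
          decide ((stg t r h n Fs).1.getD (p / n) 0 = p % n) := by
        rw [List.mem_filter]
        exact ⟨List.mem_map.2 ⟨l, hl, rfl⟩, hlk⟩
      exact List.length_pos_of_mem h3
    obtain ⟨T, hTm, hT1, hT2⟩ := STC_ex _ _ _ h1 h2
    obtain ⟨f1, -, -, -, -, -⟩ := hFAM (n * n) t (szA t r h n) F (hT F hF)
    have hTF : T ∈ F := f1 T (List.mem_of_mem_take hTm)
    unfold dev
    rw [List.any_eq_true]
    refine ⟨T, hTF, ?_⟩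
    unfold tev at hT1 ⊢
    rw [List.all_eq_true] at hT1 ⊢
    intro l hl
    have h4 := hT1 l hl
    rw [decide_eq_true_eq] at h4 ⊢
    have h5 : ¬ ((stg t r h n Fs).1.getD (l.1 / n) 0 = l.1 % n) := by
      rw [List.any_eq_false] at hT2
      have := hT2 l hl
      simpa using this
    rw [(hPLG (stg t r h n Fs) u n hu).2 l.1 ((hT F hF T hTF).2.2 l hl), if_neg h5]
    exact h4
  · intro F hF
    exact lt_of_le_of_lt (STC_kin n _ _ hc) (hlt F hF)

end Pool.EV
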