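import Pool.Agent.Work.MP_cb380d_ev.InterfaceA

open Pool.IC Pool.GL Pool.TL Polynomial

namespace Pool.EV

/-- The unbounded iteration. -/
def STG_nu (a E k : ℕ) : ℕ := (fun m : ℕ => m ^ E)^[k] a

theorem STG_nu_zero (a E : ℕ) : STG_nu a E 0 = a := rfl

theorem STG_nu_succ (a E k : ℕ) : STG_nu a E (k + 1) = STG_nu a E k ^ E := by
  unfold STG_nu
  rw [Function.iterate_succ_apply']

theorem STG_lt_pow (m E : ℕ) (hm : 2 ≤ m) (hE : 2 ≤ E) : m < m ^ E := by
  have h1 : m ^ 2 ≤ m ^ E := Nat.pow_le_pow_right (by omega) hE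
  nlinarith

theorem STG_nu_ge (a E : ℕ) (ha : 2 ≤ a) (hE : 2 ≤ E) (k : ℕ) : k + 2 ≤ STG_nu a E k := by
  induction k with
  | zero => rw [STG_nu_zero]; omega
  | succ k ih =>
    rw [STG_nu_succ]
    have := STG_lt_pow (STG_nu a E k) E (by omega) hE
    omega

theorem STG_nu_strict (a E : ℕ) (ha : 2 ≤ a) (hE : 2 ≤ E) : StrictMono (STG_nu a E) := by
  apply strictMono_nat_of_lt_succ
  intro k
  rw [STG_nu_succ]
  exact STG_lt_pow _ E (by have := STG_nu_ge a E ha hE k; omega) hE

theorem STG_it (a E M : ℕ) (k : ℕ) : ∃ j ≤ k,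
    (fun m : ℕ => if m < M then m ^ E else m)^[k] a = STG_nu a E j ∧
    (j = k ∨ M ≤ STG_nu a E j) ∧ ∀ i < j, STG_nu a E i < M := by
  induction k with
  | zero => exact ⟨0, le_refl _, rfl, Or.inl rfl, fun i hi => absurd hi (by omega)⟩
  | succ k ih =>
    obtain ⟨j, hj, h1, h2, h3⟩ := ih
    rw [Function.iterate_succ_apply', h1]
    by_cases hM : STG_nu a E j < M
    · have hjk : j = k := by
        rcases h2 with h2 | h2
        · exact h2
        · omega
      subst hjk
      refine ⟨j + 1, le_refl _, ?_, Or.inl rfl, ?_⟩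
      · simp only [hM, if_true]
        rw [STG_nu_succ]
      · intro i hi
        rcases Nat.lt_or_ge i j with h | h
        · exact h3 i h
        · have : i = j := by omega
          rw [this]; exact hM
    · refine ⟨j, by omega, ?_, Or.inr (by omega), h3⟩
      simp only [hM, if_false]

theorem STG_st (a E n : ℕ) (ha : 2 ≤ a) (hE : 2 ≤ E) : ∃ j, st a E n = STG_nu a E j ∧
    4 * n + 4 ≤ STG_nu a E j ∧ ∀ i < j, STG_nu a E i < 4 * n + 4 := by
  obtain ⟨j, _, h1, h2, h3⟩ := STG_it a E (4 * n + 4) (4 * n + 4)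
  refine ⟨j, h1, ?_, h3⟩
  rcases h2 with h2 | h2
  · have := STG_nu_ge a E ha hE j
    omega
  · exact h2

theorem p_STG : Stmt_STG := by
  intro a E ha hE
  constructor
  · intro n
    obtain ⟨j, h1, h2, h3⟩ := STG_st a E n ha hE
    rw [h1]
    refine ⟨h2, ?_, ?_⟩
    · have := (STG_nu_strict a E ha hE).monotone (Nat.zero_le j)
      rwa [STG_nu_zero] at this
    · cases j with
      | zero => rw [STG_nu_zero]; exact Nat.le_add_right _ _
      | succ i =>
        rw [STG_nu_succ]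
        have h4 := h3 i (by omega)
        calc STG_nu a E i ^ E ≤ (4 * n + 4) ^ E := Nat.pow_le_pow_left h4.le E
          _ ≤ a + (4 * n + 4) ^ E := Nat.le_add_left _ _
  · intro n n' h
    obtain ⟨j, h1, _, _⟩ := STG_st a E n ha hE
    obtain ⟨j', h1', _, _⟩ := STG_st a E n' ha hE
    rw [h1, h1'] at h
    rw [h1, h1']
    have hlt := (STG_nu_strict a E ha hE).lt_iff_lt.1 h
    rw [← STG_nu_succ]
    exact (STG_nu_strict a E ha hE).monotone hlt

end Pool.EV
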