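import Pool.Agent.Work.MP_cb380d_ev.InterfaceG

/-! # Block STP (MP_cb380d_lc, helper95) -/

open Pool.IC Pool.GL Pool.TL Polynomial

namespace Pool.EV

theorem STP_szA (B : Set Str) (hlog : PolyF B (fun n : ℕ => Nat.log 2 n)) (t r h : ℕ) :
    PolyF B (fun n : ℕ => szA t r h n) := by
  have h1 : PolyF B (fun n : ℕ => r * (Nat.log 2 n + 1) + h) :=
    PolyF.add (PolyF.mul (PolyF.const r) (PolyF.comp (f := fun m : ℕ => m + 1) (by fun_prop) hlog))
      (PolyF.const h)
  exact PolyF.mul (PolyF.const (2 ^ (t + 1))) h1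

theorem STP_cpA (B : Set Str) (t r h : ℕ) : PolyF B (fun n : ℕ => cpA t r h n) := by
  have h1 : PolyF B (fun n : ℕ => (2 * n) ^ ((t + 1) * 2 ^ (t + 1) * r)) :=
    PolyF.pow (f := fun n : ℕ => 2 * n) (by fun_prop) _
  exact PolyF.mul h1 (PolyF.const (2 ^ ((t + 1) * 2 ^ (t + 1) * h)))

/-- block STP -/
theorem p_STP (h1 : Stmt_DVF) (h2 : Stmt_TFP) (h3 : Stmt_PTP) : Stmt_STP := by
  intro B t r h
  obtain ⟨-, -, -, hlog⟩ := h1 B
  obtain ⟨-, -, -, hfam, hhs, -, -, -⟩ := h2 B
  obtain ⟨hbts, hkpt⟩ := h3 B t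
  have hsz := STP_szA B hlog t r h
  have hcp := STP_cpA B t r h
  refine ⟨hsz, ?_⟩
  -- the sets
  have a1 : PolyF B (fun q : (ℕ × List (List Lits)) × List Lits => hs (szA t r h q.1.1) q.2) :=
    PolyF.comp (f := fun p : ℕ × List Lits => hs p.1 p.2)
      (g := fun q : (ℕ × List (List Lits)) × List Lits => (szA t r h q.1.1, q.2)) hhs
      (PolyF.pair (PolyF.comp (f := fun n : ℕ => szA t r h n)
        (g := fun q : (ℕ × List (List Lits)) × List Lits => q.1.1) hsz (by fun_prop))
        (by fun_prop))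
  have a2 : PolyF B (fun p : ℕ × List (List Lits) => p.2.map (hs (szA t r h p.1))) :=
    PolyF.map (l := fun p : ℕ × List (List Lits) => p.2)
      (f := fun (p : ℕ × List (List Lits)) (F : List Lits) => hs (szA t r h p.1) F)
      (by fun_prop) a1
  have a3 : PolyF B (fun p : ℕ × List (List Lits) => p.1 ^ h) :=
    PolyF.pow (f := fun p : ℕ × List (List Lits) => p.1) (by fun_prop) h
  have a4 : PolyF B (fun p : ℕ × List (List Lits) =>
      kpt p.1 (p.1 ^ h) (p.2.map (hs (szA t r h p.1)))) :=
    PolyF.comp (f := fun p : ℕ × ℕ × List (List ℕ) => kpt p.1 p.2.1 p.2.2)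
      (g := fun p : ℕ × List (List Lits) => (p.1, p.1 ^ h, p.2.map (hs (szA t r h p.1)))) hkpt
      (PolyF.pair (by fun_prop) (PolyF.pair a3 a2))
  -- the families
  have b1 : PolyF B (fun q : (ℕ × List (List Lits)) × List Lits =>
      decide (szA t r h q.1.1 ≤ (fam q.2).length)) := by
    have c1 : PolyF B (fun q : (ℕ × List (List Lits)) × List Lits => szA t r h q.1.1) :=
      PolyF.comp (f := fun n : ℕ => szA t r h n)
        (g := fun q : (ℕ × List (List Lits)) × List Lits => q.1.1) hsz (by fun_prop)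
    have c2 : PolyF B (fun q : (ℕ × List (List Lits)) × List Lits => fam q.2) :=
      PolyF.comp (f := fam) (g := fun q : (ℕ × List (List Lits)) × List Lits => q.2) hfam
        (by fun_prop)
    fun_prop
  have b2 : PolyF B (fun p : ℕ × List (List Lits) =>
      p.2.filter fun F => decide (szA t r h p.1 ≤ (fam F).length)) :=
    PolyF.filter (l := fun p : ℕ × List (List Lits) => p.2)
      (f := fun (p : ℕ × List (List Lits)) (F : List Lits) =>
        decide (szA t r h p.1 ≤ (fam F).length)) (by fun_prop) b1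
  have b3 : PolyF B (fun q : (ℕ × List (List Lits)) × List Lits =>
      (fam q.2).take (szA t r h q.1.1)) := by
    have c1 : PolyF B (fun q : (ℕ × List (List Lits)) × List Lits => szA t r h q.1.1) :=
      PolyF.comp (f := fun n : ℕ => szA t r h n)
        (g := fun q : (ℕ × List (List Lits)) × List Lits => q.1.1) hsz (by fun_prop)
    have c2 : PolyF B (fun q : (ℕ × List (List Lits)) × List Lits => fam q.2) :=
      PolyF.comp (f := fam) (g := fun q : (ℕ × List (List Lits)) × List Lits => q.2) hfam
        (by fun_prop)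
    exact PolyF.take c1 c2
  have b4 : PolyF B (fun p : ℕ × List (List Lits) =>
      (p.2.filter fun F => decide (szA t r h p.1 ≤ (fam F).length)).map
        fun F => (fam F).take (szA t r h p.1)) :=
    PolyF.map (l := fun p : ℕ × List (List Lits) =>
        p.2.filter fun F => decide (szA t r h p.1 ≤ (fam F).length))
      (f := fun (p : ℕ × List (List Lits)) (F : List Lits) => (fam F).take (szA t r h p.1)) b2 b3
  have b5 : PolyF B (fun p : ℕ × List (List Lits) => cpA t r h p.1) :=
    PolyF.comp (f := fun n : ℕ => cpA t r h n)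
      (g := fun p : ℕ × List (List Lits) => p.1) hcp (by fun_prop)
  have b6 : PolyF B (fun p : ℕ × List (List Lits) => bts t (cpA t r h p.1) p.1
      ((p.2.filter fun F => decide (szA t r h p.1 ≤ (fam F).length)).map
        fun F => (fam F).take (szA t r h p.1))) :=
    PolyF.comp (f := fun p : ℕ × ℕ × List (List Lits) => bts t p.1 p.2.1 p.2.2)
      (g := fun p : ℕ × List (List Lits) => (cpA t r h p.1, p.1,
        (p.2.filter fun F => decide (szA t r h p.1 ≤ (fam F).length)).map
          fun F => (fam F).take (szA t r h p.1))) hbts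
      (PolyF.pair b5 (PolyF.pair (by fun_prop) b4))
  exact PolyF.pair a4 b6

end Pool.EV
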