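import Pool.Agent.Work.MP_cb380d_ev.InterfaceD

/-!
# MP_cb380d_lc, EvasiveReductions, block SUB: restriction of a polynomial to an interval
-/

open Pool.IC Pool.GL Pool.TL Polynomial

namespace Pool.EV

theorem SUB_length_add (u v : Str) (h : v.length = u.length) : (add u v).length = u.length := by
  unfold add
  rw [List.length_zipWith, h, min_self]

theorem SUB_getD_add (u v : Str) (h : v.length = u.length) (i : ℕ) :
    (add u v).getD i false = xor (u.getD i false) (v.getD i false) := by
  induction u generalizing v i with
  | nil =>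
    have hv : v = [] := List.length_eq_zero_iff.1 h
    subst hv
    simp [add]
  | cons a u ih =>
    cases v with
    | nil => simp at h
    | cons b v =>
      have h' : v.length = u.length := by simpa using h
      cases i with
      | zero => simp [add]
      | succ i =>
        have := ih v h' i
        unfold add at this ⊢
        simpa using this

theorem SUB_length_plc (R p : ℕ) (v : Str) : (plc R p v).length = R := by
  unfold plc
  rw [List.length_map, List.length_range]

theorem SUB_getD_plc (R p : ℕ) (v : Str) (i : ℕ) (hi : i < R) :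
    (plc R p v).getD i false = if p ≤ i then v.getD (i - p) false else false := by
  unfold plc
  rw [List.getD_eq_getElem?_getD, List.getElem?_map, List.getElem?_range hi]
  rfl

theorem SUB_mem_supp (z : Str) (i : ℕ) : i ∈ supp z ↔ z.getD i false = true := by
  unfold supp
  rw [Finset.mem_filter, Finset.mem_range]
  constructor
  · exact fun h => h.2
  · intro h
    refine ⟨?_, h⟩
    by_contra hcon
    rw [List.getD_eq_default _ _ (by omega)] at h
    exact Bool.false_ne_true h

theorem SUB_supp (N a K : ℕ) (z v : Str) (hz : z.length = N) (hv : v.length = K)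
    (haK : a + K ≤ N) (h0 : ∀ j, a ≤ j → j < a + K → z[j]? = some false) :
    supp (add z (plc N a v)) = supp z ∪ (supp v).image (fun i => i + a) := by
  have hl : (plc N a v).length = z.length := by rw [SUB_length_plc, hz]
  ext i
  rw [SUB_mem_supp, Finset.mem_union, Finset.mem_image, SUB_getD_add _ _ hl, SUB_mem_supp]
  by_cases hiN : i < N
  · rw [SUB_getD_plc _ _ _ _ hiN]
    by_cases hai : a ≤ i
    · rw [if_pos hai]
      by_cases hiK : i < a + K
      · have hz0 : z.getD i false = false := by
          rw [List.getD_eq_getElem?_getD, h0 i hai hiK]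
          rfl
        rw [hz0, Bool.false_xor]
        constructor
        · intro h
          exact Or.inr ⟨i - a, (SUB_mem_supp v _).2 h, by omega⟩
        · rintro (h | ⟨j, hj, hji⟩)
          · exact absurd h Bool.false_ne_true
          · have : i - a = j := by omega
            rw [this]
            exact (SUB_mem_supp v j).1 hj
      · have hv0 : v.getD (i - a) false = false := List.getD_eq_default _ _ (by omega)
        rw [hv0, Bool.xor_false]
        constructor
        · exact Or.inl
        · rintro (h | ⟨j, hj, hji⟩)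
          · exact h
          · have h1 : i - a = j := by omega
            have h2 := (SUB_mem_supp v j).1 hj
            rw [← h1, hv0] at h2
            exact absurd h2 Bool.false_ne_true
    · rw [if_neg hai, Bool.xor_false]
      constructor
      · exact Or.inl
      · rintro (h | ⟨j, hj, hji⟩)
        · exact h
        · omega
  · have h1 : z.getD i false = false := List.getD_eq_default _ _ (by omega)
    have h2 : (plc N a v).getD i false = false :=
      List.getD_eq_default _ _ (by rw [SUB_length_plc]; omega)
    rw [h1, h2]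
    constructor
    · intro h
      exact absurd h Bool.false_ne_true
    · rintro (h | ⟨j, hj, hji⟩)
      · exact absurd h Bool.false_ne_true
      · have h3 := (SUB_mem_supp v j).1 hj
        rw [List.getD_eq_default _ _ (by omega)] at h3
        exact absurd h3 Bool.false_ne_true

theorem SUB_sum {M : Type} [AddCommMonoid M] (P Q : Finset ℕ) (a d : ℕ) (c : Finset ℕ → M)
    (hd : ∀ i ∈ Q, i + a ∉ P) :
    ∑ T ∈ (P ∪ Q.image (fun i => i + a)).powerset.filter (fun T => T.card ≤ d), c T =
      ∑ A ∈ Q.powerset.filter (fun A => A.card ≤ d),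
        ∑ S ∈ P.powerset.filter (fun S => S.card + A.card ≤ d),
          c (S ∪ A.image (fun i => i + a)) := by
  have hinj : Function.Injective (fun i : ℕ => i + a) := fun x y h => Nat.add_right_cancel h
  have hdis : ∀ S A : Finset ℕ, S ⊆ P → A ⊆ Q → Disjoint S (A.image (fun i => i + a)) := by
    intro S A hS hA
    rw [Finset.disjoint_left]
    intro x hx hx2
    obtain ⟨i, hi, rfl⟩ := Finset.mem_image.1 hx2
    exact hd i (hA hi) (hS hx)
  have hcard : ∀ S A : Finset ℕ, S ⊆ P → A ⊆ Q →
      (S ∪ A.image (fun i => i + a)).card = S.card + A.card := by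
    intro S A hS hA
    rw [Finset.card_union_of_disjoint (hdis S A hS hA), Finset.card_image_of_injective _ hinj]
  rw [Finset.sum_sigma']
  refine Finset.sum_bij' (fun T _ => (⟨Q.filter (fun i => i + a ∈ T), T.filter (fun i => i ∈ P)⟩ :
      (_ : Finset ℕ) × Finset ℕ)) (fun q _ => q.2 ∪ q.1.image (fun i => i + a)) ?_ ?_ ?_ ?_ ?_
  · intro T hT
    rw [Finset.mem_filter, Finset.mem_powerset] at hT
    have hrec : T.filter (fun i => i ∈ P) ∪ (Q.filter (fun i => i + a ∈ T)).image
        (fun i => i + a) = T := by
      ext x
      rw [Finset.mem_union, Finset.mem_filter, Finset.mem_image]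
      constructor
      · rintro (h | ⟨i, hi, rfl⟩)
        · exact h.1
        · exact (Finset.mem_filter.1 hi).2
      · intro hx
        rcases Finset.mem_union.1 (hT.1 hx) with h | h
        · exact Or.inl ⟨hx, h⟩
        · obtain ⟨i, hi, rfl⟩ := Finset.mem_image.1 h
          exact Or.inr ⟨i, Finset.mem_filter.2 ⟨hi, hx⟩, rfl⟩
    have hS : T.filter (fun i => i ∈ P) ⊆ P := fun x hx => (Finset.mem_filter.1 hx).2
    have hA : Q.filter (fun i => i + a ∈ T) ⊆ Q := Finset.filter_subset _ _
    have hc := hcard _ _ hS hA
    rw [hrec] at hc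
    rw [Finset.mem_sigma]
    refine ⟨Finset.mem_filter.2 ⟨Finset.mem_powerset.2 hA, ?_⟩,
      Finset.mem_filter.2 ⟨Finset.mem_powerset.2 hS, ?_⟩⟩
    · have := hT.2
      show (Q.filter (fun i => i + a ∈ T)).card ≤ d
      omega
    · have := hT.2
      show (T.filter (fun i => i ∈ P)).card + (Q.filter (fun i => i + a ∈ T)).card ≤ d
      omega
  · rintro ⟨A, S⟩ hq
    rw [Finset.mem_sigma] at hq
    obtain ⟨h1, h2⟩ := hq
    have hA := (Finset.mem_powerset.1 (Finset.mem_filter.1 h1).1)
    have hS := (Finset.mem_powerset.1 (Finset.mem_filter.1 h2).1)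
    have h3 := (Finset.mem_filter.1 h2).2
    refine Finset.mem_filter.2 ⟨Finset.mem_powerset.2 ?_, ?_⟩
    · exact Finset.union_subset_union hS (Finset.image_subset_image hA)
    · show (S ∪ A.image (fun i => i + a)).card ≤ d
      rw [hcard S A hS hA]
      exact h3
  · intro T hT
    rw [Finset.mem_filter, Finset.mem_powerset] at hT
    show T.filter (fun i => i ∈ P) ∪ (Q.filter (fun i => i + a ∈ T)).image
        (fun i => i + a) = T
    ext x
    rw [Finset.mem_union, Finset.mem_filter, Finset.mem_image]
    constructor
    · rintro (h | ⟨i, hi, rfl⟩)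
      · exact h.1
      · exact (Finset.mem_filter.1 hi).2
    · intro hx
      rcases Finset.mem_union.1 (hT.1 hx) with h | h
      · exact Or.inl ⟨hx, h⟩
      · obtain ⟨i, hi, rfl⟩ := Finset.mem_image.1 h
        exact Or.inr ⟨i, Finset.mem_filter.2 ⟨hi, hx⟩, rfl⟩
  · rintro ⟨A, S⟩ hq
    rw [Finset.mem_sigma] at hq
    obtain ⟨h1, h2⟩ := hq
    have hA : A ⊆ Q := (Finset.mem_powerset.1 (Finset.mem_filter.1 h1).1)
    have hS : S ⊆ P := (Finset.mem_powerset.1 (Finset.mem_filter.1 h2).1)
    have e1 : Q.filter (fun i => i + a ∈ S ∪ A.image (fun i => i + a)) = A := by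
      ext i
      rw [Finset.mem_filter, Finset.mem_union, Finset.mem_image]
      constructor
      · rintro ⟨hi, h | ⟨j, hj, hji⟩⟩
        · exact absurd (hS h) (hd i hi)
        · have : j = i := Nat.add_right_cancel hji
          rw [← this]
          exact hj
      · intro hi
        exact ⟨hA hi, Or.inr ⟨i, hi, rfl⟩⟩
    have e2 : (S ∪ A.image (fun i => i + a)).filter (fun i => i ∈ P) = S := by
      ext x
      rw [Finset.mem_filter, Finset.mem_union, Finset.mem_image]
      constructor
      · rintro ⟨h | ⟨j, hj, rfl⟩, hx⟩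
        · exact h
        · exact absurd hx (hd j (hA hj))
      · intro hx
        exact ⟨Or.inl hx, hS hx⟩
    show (⟨Q.filter (fun i => i + a ∈ S ∪ A.image (fun i => i + a)),
      (S ∪ A.image (fun i => i + a)).filter (fun i => i ∈ P)⟩ : (_ : Finset ℕ) × Finset ℕ) = ⟨A, S⟩
    rw [e1, e2]
  · intro T hT
    rw [Finset.mem_filter, Finset.mem_powerset] at hT
    show c T = c (T.filter (fun i => i ∈ P) ∪ (Q.filter (fun i => i + a ∈ T)).image
        (fun i => i + a))
    congr 1
    symm
    ext x
    rw [Finset.mem_union, Finset.mem_filter, Finset.mem_image]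
    constructor
    · rintro (h | ⟨i, hi, rfl⟩)
      · exact h.1
      · exact (Finset.mem_filter.1 hi).2
    · intro hx
      rcases Finset.mem_union.1 (hT.1 hx) with h | h
      · exact Or.inl ⟨hx, h⟩
      · obtain ⟨i, hi, rfl⟩ := Finset.mem_image.1 h
        exact Or.inr ⟨i, Finset.mem_filter.2 ⟨hi, hx⟩, rfl⟩

theorem p_SUB : Stmt_SUB := by
  intro m N d a K Φ z hΦ hz haK h0
  obtain ⟨c, hc⟩ := hΦ
  refine ⟨fun A => ∑ S ∈ (supp z).powerset.filter (fun S => S.card + A.card ≤ d),
    c (S ∪ A.image (fun i => i + a)), ?_⟩
  intro v hv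
  have hl : (plc N a v).length = z.length := by rw [SUB_length_plc, hz]
  have h1 := hc (add z (plc N a v)) (by rw [SUB_length_add _ _ hl, hz])
  rw [h1, SUB_supp N a K z v hz hv haK h0]
  refine SUB_sum (supp z) (supp v) a d c ?_
  intro i hi hi2
  have h3 := (SUB_mem_supp v i).1 hi
  have h4 : i < K := by
    by_contra hcon
    rw [List.getD_eq_default _ _ (by omega)] at h3
    exact Bool.false_ne_true h3
  have h5 := (SUB_mem_supp z (i + a)).1 hi2
  rw [List.getD_eq_getElem?_getD, h0 (i + a) (by omega) (by omega)] at h5
  exact Bool.false_ne_true h5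

end Pool.EV
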