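import Pool.Agent.Work.MP_cb380d_ev.InterfaceG

set_option autoImplicit false

/-! # Block TFP: terms and circuits -/

open Pool.IC Pool.GL Pool.TL Polynomial

namespace Pool.EV

theorem TFP_tev (B : Set Str) : PolyF B (fun p : Str × Lits => tev p.1 p.2) := by
  have h : PolyF B (fun q : (Str × Lits) × (ℕ × Bool) =>
      decide (q.1.1.getD q.2.1 false = q.2.2)) := by fun_prop
  exact PolyF.all (l := fun p : Str × Lits => p.2)
    (f := fun (p : Str × Lits) (l : ℕ × Bool) => decide (p.1.getD l.1 false = l.2))
    (by fun_prop) h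

theorem TFP_dev (B : Set Str) : PolyF B (fun p : Str × List Lits => dev p.1 p.2) := by
  have h : PolyF B (fun q : (Str × List Lits) × Lits => tev q.1.1 q.2) :=
    PolyF.comp (f := fun p : Str × Lits => tev p.1 p.2)
      (g := fun q : (Str × List Lits) × Lits => (q.1.1, q.2)) (TFP_tev B) (by fun_prop)
  exact PolyF.any (l := fun p : Str × List Lits => p.2)
    (f := fun (p : Str × List Lits) (T : Lits) => tev p.1 T) (by fun_prop) h

theorem TFP_dsj (B : Set Str) : PolyF B (fun p : Lits × Lits => dsj p.1 p.2) := by
  have h0 : PolyF B (fun q : ((Lits × Lits) × (ℕ × Bool)) × (ℕ × Bool) =>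
      decide (q.1.2.1 ≠ q.2.1)) := by
    have h00 : PolyF B (fun q : ((Lits × Lits) × (ℕ × Bool)) × (ℕ × Bool) =>
        !(decide (q.1.2.1 = q.2.1))) := by fun_prop
    refine h00.congrF fun q => ?_
    simp
  have h1 : PolyF B (fun q : (Lits × Lits) × (ℕ × Bool) =>
      q.1.2.all fun l' => decide (q.2.1 ≠ l'.1)) :=
    PolyF.all (l := fun q : (Lits × Lits) × (ℕ × Bool) => q.1.2)
      (f := fun (q : (Lits × Lits) × (ℕ × Bool)) (l' : ℕ × Bool) => decide (q.2.1 ≠ l'.1))
      (by fun_prop) h0
  exact PolyF.all (l := fun p : Lits × Lits => p.1)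
    (f := fun (p : Lits × Lits) (l : ℕ × Bool) => p.2.all fun l' => decide (l.1 ≠ l'.1))
    (by fun_prop) h1

theorem TFP_fam (B : Set Str) : PolyF B fam := by
  have h0 : PolyF B (fun q : (List Lits × List Lits × Lits) × Lits => dsj q.1.2.2 q.2) :=
    PolyF.comp (f := fun p : Lits × Lits => dsj p.1 p.2)
      (g := fun q : (List Lits × List Lits × Lits) × Lits => (q.1.2.2, q.2)) (TFP_dsj B)
      (by fun_prop)
  have h1 : PolyF B (fun q : List Lits × List Lits × Lits => q.2.1.all (dsj q.2.2)) :=
    PolyF.all (l := fun q : List Lits × List Lits × Lits => q.2.1)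
      (f := fun (q : List Lits × List Lits × Lits) (T : Lits) => dsj q.2.2 T) (by fun_prop) h0
  have h2 : PolyF B (fun q : List Lits × List Lits × Lits =>
      if q.2.1.all (dsj q.2.2) = true then q.2.1 ++ [q.2.2] else q.2.1) := by
    have h3 : PolyF B (fun q : List Lits × List Lits × Lits =>
        decide (q.2.1.all (dsj q.2.2) = true)) := by
      refine h1.congrF fun q => ?_
      generalize q.2.1.all (dsj q.2.2) = b
      cases b <;> rfl
    exact PolyF.ite' h3 (by fun_prop) (by fun_prop)
  have h4 : PolyF B (fun F : List Lits =>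
      F.foldl (fun acc T => if acc.all (dsj T) = true then acc ++ [T] else acc) []) := by
    refine PolyF.foldl_add (l := fun F : List Lits => F) (g := fun _ => ([] : List Lits))
      (h := fun _ acc T => if acc.all (dsj T) = true then acc ++ [T] else acc)
      (by fun_prop) (by fun_prop) h2 (X + 2) ?_
    intro F acc T hT
    have h5 := sz_le_of_mem hT
    simp only [eval_add, eval_X, eval_ofNat]
    split_ifs
    · rw [sz_append, sz_cons, sz_nil]
      omega
    · omega
  exact h4

theorem TFP_hs (B : Set Str) : PolyF B (fun p : ℕ × List Lits => hs p.1 p.2) := by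
  have h1 : PolyF B (fun p : ℕ × List Lits => fam p.2) :=
    PolyF.comp (f := fam) (g := fun p : ℕ × List Lits => p.2) (TFP_fam B) (by fun_prop)
  have h2 : PolyF B (fun q : (ℕ × List Lits) × Lits => q.2.map Prod.fst) :=
    PolyF.map (l := fun q : (ℕ × List Lits) × Lits => q.2)
      (f := fun (_ : (ℕ × List Lits) × Lits) (l : ℕ × Bool) => l.1) (by fun_prop) (by fun_prop)
  exact PolyF.flatMap (l := fun p : ℕ × List Lits => (fam p.2).take p.1)
    (f := fun (_ : ℕ × List Lits) (T : Lits) => T.map Prod.fst) (by fun_prop) h2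

theorem TFP_lay (B : Set Str) : PolyF B (fun p : List Lits × List Bool => lay p.1 p.2) := by
  have h0 : PolyF B (fun q : ((List Lits × List Bool) × Lits) × (ℕ × Bool) =>
      xor (q.1.1.2.getD q.2.1 false) q.2.2) := by fun_prop
  have h1 : PolyF B (fun q : (List Lits × List Bool) × Lits =>
      q.2.any fun l => xor (q.1.2.getD l.1 false) l.2) :=
    PolyF.any (l := fun q : (List Lits × List Bool) × Lits => q.2)
      (f := fun (q : (List Lits × List Bool) × Lits) (l : ℕ × Bool) =>
        xor (q.1.2.getD l.1 false) l.2) (by fun_prop) h0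
  exact PolyF.map (l := fun p : List Lits × List Bool => p.1)
    (f := fun (p : List Lits × List Bool) (gt : Lits) =>
      gt.any fun l => xor (p.2.getD l.1 false) l.2) (by fun_prop) h1

theorem TFP_circ_sz (C : List (List Lits)) (z : List Bool) (t : List (List Lits))
    (ht : ∀ L ∈ t, L ∈ C) :
    sz (t.foldl (fun cur L => lay L cur) z) ≤ sz C + sz z := by
  induction t using List.reverseRecOn with
  | nil => simp
  | append_singleton u L _ =>
    rw [List.foldl_append]
    simp only [List.foldl_cons, List.foldl_nil]
    have h1 : (lay L (u.foldl (fun cur L => lay L cur) z)).length = L.length := by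
      simp [lay]
    have h2 := sz_le_of_mem (ht L (by simp))
    have h3 := length_le_sz L
    have h4 := sz_str (lay L (u.foldl (fun cur L => lay L cur) z))
    rw [h4, h1]
    omega

theorem TFP_circ (B : Set Str) :
    PolyF B (fun p : List (List Lits) × List Bool => circ p.1 p.2) := by
  have h1 : PolyF B (fun q : (List (List Lits) × List Bool) × List Bool × List Lits =>
      lay q.2.2 q.2.1) :=
    PolyF.comp (f := fun p : List Lits × List Bool => lay p.1 p.2)
      (g := fun q : (List (List Lits) × List Bool) × List Bool × List Lits => (q.2.2, q.2.1))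
      (TFP_lay B) (by fun_prop)
  refine PolyF.foldl (l := fun p : List (List Lits) × List Bool => p.1)
    (g := fun p : List (List Lits) × List Bool => p.2)
    (h := fun (_ : List (List Lits) × List Bool) (cur : List Bool) (L : List Lits) => lay L cur)
    (by fun_prop) (by fun_prop) h1 X ?_
  intro p j _
  have h2 := TFP_circ_sz p.1 p.2 (p.1.take j) (fun L hL => List.mem_of_mem_take hL)
  rw [eval_X, sz_pair]
  omega

theorem TFP_cnt (B : Set Str) : PolyF B (fun p : List Bool × List Bool => cnt p.1 p.2) := by
  have h1 : PolyF B (fun p : List Bool × List Bool =>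
      (List.range p.1.length).filter fun i => p.1.getD i false && p.2.getD i false) :=
    PolyF.filter (l := fun p : List Bool × List Bool => List.range p.1.length)
      (f := fun (p : List Bool × List Bool) (i : ℕ) => p.1.getD i false && p.2.getD i false)
      (by fun_prop) (by fun_prop)
  exact PolyF.length h1

theorem p_TFP : Stmt_TFP := fun B =>
  ⟨TFP_tev B, TFP_dev B, TFP_dsj B, TFP_fam B, TFP_hs B, TFP_lay B, TFP_circ B, TFP_cnt B⟩

end Pool.EV
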