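import Pool.Agent.Work.MP_cb380d_ev.InterfaceA

set_option autoImplicit false

/-! # Block THR: the parameters -/

open Pool.IC Pool.GL Pool.TL Polynomial

namespace Pool.EV

theorem THR_poly (p : Polynomial ℕ) : ∃ C e : ℕ, ∀ n : ℕ, 1 ≤ n → p.eval n ≤ C * n ^ e := by
  induction p using Polynomial.induction_on' with
  | add p q hp hq =>
    obtain ⟨C, e, h⟩ := hp
    obtain ⟨C', e', h'⟩ := hq
    refine ⟨C + C', e + e', fun n hn => ?_⟩
    rw [Polynomial.eval_add, add_mul]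
    refine add_le_add ((h n hn).trans ?_) ((h' n hn).trans ?_)
    · exact Nat.mul_le_mul_left C (Nat.pow_le_pow_right hn (by omega))
    · exact Nat.mul_le_mul_left C' (Nat.pow_le_pow_right hn (by omega))
  | monomial m a =>
    refine ⟨a, m, fun n _ => ?_⟩
    rw [Polynomial.eval_monomial]

theorem p_THR : Stmt_THR := by
  intro c k p hk
  obtain ⟨C, e, hC⟩ := THR_poly p
  set t := 2 * (c * k) + 2 * k + 1 with ht
  refine ⟨t, 2 * c + 2 * C + 5, e * (t + 2) + 2, by omega, by omega, ?_⟩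
  intro ν hν
  have hν5 : 5 ≤ ν := by omega
  have hν1 : 1 ≤ ν := by omega
  set K := ν ^ t with hK
  have hKν : ν ≤ K := by
    calc ν = ν ^ 1 := (pow_one ν).symm
      _ ≤ ν ^ t := Nat.pow_le_pow_right hν1 (by omega)
  have hK0 : 0 < K := by omega
  have hN : ν + K + 2 + ν * K ≤ ν ^ 2 * K := by
    have h1 : ν + K + 2 + ν * K ≤ (3 + ν) * K := by
      rw [add_mul]
      have : 2 ≤ K := by omega
      omega
    have h2 : 3 + ν ≤ ν ^ 2 := by nlinarith
    exact h1.trans (Nat.mul_le_mul_right K h2)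
  have hc : c * (ν + 1) ≤ ν ^ 2 := by
    have h1 : c * (ν + 1) ≤ c * (2 * ν) := Nat.mul_le_mul_left c (by omega)
    have h2 : 2 * c ≤ ν := by omega
    calc c * (ν + 1) ≤ c * (2 * ν) := h1
      _ = (2 * c) * ν := by ring
      _ ≤ ν * ν := Nat.mul_le_mul_right ν h2
      _ = ν ^ 2 := by ring
  refine ⟨hK0, ?_, ?_⟩
  · obtain ⟨j, rfl⟩ : ∃ j, k = j + 1 := ⟨k - 1, by omega⟩
    rw [Nat.add_sub_cancel]
    calc (c * (ν + 1)) ^ (c * (j + 1)) * (ν + K + 2 + ν * K) ^ j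
        ≤ (ν ^ 2) ^ (c * (j + 1)) * (ν ^ 2 * K) ^ j :=
          Nat.mul_le_mul (Nat.pow_le_pow_left hc _) (Nat.pow_le_pow_left hN _)
      _ = ν ^ (2 * (c * (j + 1)) + 2 * j) * K ^ j := by
          rw [mul_pow, ← pow_mul, ← pow_mul, pow_add]
          ring
      _ < K * K ^ j := by
          apply Nat.mul_lt_mul_of_pos_right _ (pow_pos hK0 j)
          exact Nat.pow_lt_pow_right (by omega) (by omega)
      _ = K ^ (j + 1) := by rw [pow_succ, mul_comm]
  · have hN1 : 1 ≤ ν + K + 2 + ν * K := by omega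
    have h3 := hC _ hN1
    have h4 : (ν + K + 2 + ν * K) ^ e ≤ ν ^ (e * (t + 2)) := by
      calc (ν + K + 2 + ν * K) ^ e ≤ (ν ^ 2 * K) ^ e := Nat.pow_le_pow_left hN e
        _ = ν ^ (e * (t + 2)) := by
          rw [hK, ← pow_add, ← pow_mul]
          congr 1
          ring
    have h5 : 0 < ν ^ (e * (t + 2)) := pow_pos (by omega) _
    calc 2 * p.eval (ν + K + 2 + ν * K) ≤ 2 * (C * (ν + K + 2 + ν * K) ^ e) :=
          Nat.mul_le_mul_left 2 h3
      _ ≤ 2 * (C * ν ^ (e * (t + 2))) := Nat.mul_le_mul_left 2 (Nat.mul_le_mul_left C h4)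
      _ = (2 * C) * ν ^ (e * (t + 2)) := by ring
      _ < ν * ν ^ (e * (t + 2)) := Nat.mul_lt_mul_of_pos_right (by omega) h5
      _ = ν ^ (e * (t + 2) + 1) := by rw [pow_succ, mul_comm]
      _ ≤ ν ^ (e * (t + 2) + 2) := Nat.pow_le_pow_right hν1 (by omega)

end Pool.EV
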