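import Pool.Agent.Work.MP_cb380d_ev.InterfaceB
import Pool.Agent.Work.MP_af7a01_gl.B_COD

/-!
# Block UNC (helper41): the universal set is complete under reductions of sensitivity at most 1
-/

open Classical Pool.IC Pool.GL Pool.TL Polynomial

namespace Pool.EV

/-- a reduction of the form `z ↦ s ++ z` where `s` depends only on the length -/
theorem UNC_sens (s : ℕ → Str) (z : Str) (b : ℕ) :
    ((Finset.range z.length).filter fun v =>
      (s (z.modify v not).length ++ z.modify v not)[b]? ≠ (s z.length ++ z)[b]?).card ≤ 1 := by
  rw [Finset.card_le_one]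
  have key : ∀ v, (s (z.modify v not).length ++ z.modify v not)[b]? ≠ (s z.length ++ z)[b]? →
      v = b - (s z.length).length := by
    intro v hv
    by_contra hne
    apply hv
    rw [List.length_modify]
    by_cases hb : b < (s z.length).length
    · rw [List.getElem?_append_left hb, List.getElem?_append_left hb]
    · rw [List.getElem?_append_right (by omega), List.getElem?_append_right (by omega),
        List.getElem?_modify]
      simp [hne]
  intro v hv v' hv'
  rw [key v (Finset.mem_filter.1 hv).2, key v' (Finset.mem_filter.1 hv').2]

theorem p_UNC : Stmt_UNC := by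
  rintro B L ⟨M, q, r, V, hout, hlen, hL⟩
  have hP : ∀ n, (q.comp (r + X) + r).eval n = q.eval (r.eval n + n) + r.eval n := by
    intro n
    simp [eval_comp]
  set P := q.comp (r + X) + r with hPdef
  refine ⟨fun z => pr (un (P.eval z.length)) (pr (code M) z), ⟨?_, ?_⟩, ?_⟩
  · rw [polyFun_iff]
    exact lib.pair (una {B} P _ lib.idn) (lib.pair (lib.const _) lib.idn)
  · intro z
    rw [hL z]
    show (∃ y, (y, z) ∈ V) ↔ ∃ y : Str, y.length ≤ (fs (pr (un (P.eval z.length))
      (pr (code M) z))).length ∧ out B (dec (fs (sn (pr (un (P.eval z.length))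
        (pr (code M) z))))) [] y (sn (sn (pr (un (P.eval z.length)) (pr (code M) z))))
        (fs (pr (un (P.eval z.length)) (pr (code M) z))).length = some [true]
    rw [fs_pr, sn_pr, fs_pr, sn_pr, p_COD, List.length_replicate, hP]
    constructor
    · rintro ⟨y, hy⟩
      have h1 := hlen y z hy
      have h2 := hout y z
      rw [decide_eq_true hy] at h2
      refine ⟨y, by omega, out_mono h2 ?_⟩
      have h3 : q.eval (y.length + z.length) ≤ q.eval (r.eval z.length + z.length) :=
        poly_mono q (by omega)
      omega
    · rintro ⟨y, -, hy⟩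
      have h1 := out_det (hout y z) hy
      exact ⟨y, of_decide_eq_true (List.cons.inj h1).1⟩
  · intro z b
    have h1 : ∀ z : Str, pr (un (P.eval z.length)) (pr (code M) z) =
        (fun n : ℕ => mark (un (P.eval n)) ++ false :: (mark (code M) ++ [false])) z.length ++ z := by
      intro z
      simp [pr]
    have h2 := UNC_sens (fun n : ℕ => mark (un (P.eval n)) ++ false :: (mark (code M) ++ [false])) z b
    simp only [h1]
    exact h2

end Pool.EV
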