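import Pool.Agent.Work.MP_cb380d_ev.InterfaceB

/-!
# Block UNP (helper12): the universal set is in NP
-/

open Classical Pool.IC Pool.GL Pool.TL Polynomial

namespace Pool.EV

theorem UNP_opt (o : Option Str) : opt o = [true, true] ↔ o = some [true] := by
  cases o with
  | none => simp [opt]
  | some o => simp [opt]

theorem p_UNP (hNPE : Stmt_NPE) : Stmt_UNP := by
  intro B
  obtain ⟨R, hR, hRs⟩ := run
  have hid : FP {B} (fun _ (x : Str) => x) := lib.idn
  have hy : FP {B} (fun _ (x : Str) => fs x) := lib.fst hid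
  have he : FP {B} (fun _ (x : Str) => sn x) := lib.snd hid
  have hw : FP {B} (fun _ (x : Str) => fs (sn x)) := lib.fst he
  have hc : FP {B} (fun _ (x : Str) => fs (sn (sn x))) := lib.fst (lib.snd he)
  have hx : FP {B} (fun _ (x : Str) => sn (sn (sn x))) := lib.snd (lib.snd he)
  have harg : FP {B} (fun _ (x : Str) =>
      pr (fs (sn x)) (pr (fs (sn (sn x))) (pr [] (pr (fs x) (sn (sn (sn x))))))) :=
    lib.pair hw (lib.pair hc (lib.pair (lib.const _) (lib.pair hy hx)))
  have hR' : FP {B} R := hR.mono (Set.subset_univ _)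
  have h1 : FP {B} (fun B' (x : Str) => R B'
      (pr (fs (sn x)) (pr (fs (sn (sn x))) (pr [] (pr (fs x) (sn (sn (sn x)))))))) :=
    lib.comp harg hR'
  have h2 := ((tls {B}).2.2 _ _ h1 (lib.const [true, true])).1
  have h3 := ((tls {B}).2.2 _ _ hw hy).2.1
  have h3' : FP {B} (fun (_ : Set Str) (x : Str) =>
      [@decide ((fs (sn x)).length < (fs x).length) (propDecidable _)]) :=
    h3.congr fun _ _ _ => congrArg (fun b : Bool => [b]) (decide_eq_decide.2 Iff.rfl)
  have h2' : FP {B} (fun (B' : Set Str) (x : Str) => [@decide (R B'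
      (pr (fs (sn x)) (pr (fs (sn (sn x))) (pr [] (pr (fs x) (sn (sn (sn x))))))) =
        [true, true]) (propDecidable _)]) :=
    h2.congr fun _ _ _ => congrArg (fun b : Bool => [b]) (decide_eq_decide.2 Iff.rfl)
  have h4 : FP {B} (fun (_ : Set Str) (x : Str) =>
      [@decide (¬ (fs (sn x)).length < (fs x).length) (propDecidable _)]) :=
    ((tls {B}).1 _ _ h3' h3').2.2.congr fun _ _ _ => congrArg (fun b : Bool => [b]) (decide_eq_decide.2 Iff.rfl)
  have h5 := ((tls {B}).1 _ _ h4 h2').1
  have key : ∀ y e : Str,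
      (¬ (fs (sn (pr y e))).length < (fs (pr y e)).length ∧
        R B (pr (fs (sn (pr y e))) (pr (fs (sn (sn (pr y e)))) (pr [] (pr (fs (pr y e))
          (sn (sn (sn (pr y e)))))))) = [true, true]) ↔
      (y.length ≤ (fs e).length ∧
        out B (dec (fs (sn e))) [] y (sn (sn e)) (fs e).length = some [true]) := by
    intro y e
    simp only [fs_pr, sn_pr, hRs, UNP_opt, not_lt]
  have h6 : FP {B} (fun _ (x : Str) => [decide (¬ (fs (sn x)).length < (fs x).length ∧
        R B (pr (fs (sn x)) (pr (fs (sn (sn x))) (pr [] (pr (fs x)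
          (sn (sn (sn x))))))) = [true, true])]) :=
    h5.congr (fun B' hB' x => by
      rw [Set.mem_singleton_iff.1 hB']
      exact congrArg (fun b : Bool => [b]) (decide_eq_decide.2 Iff.rfl))
  have h7 : PolyF B (fun p : Raw × Raw => decide (p.1.s.length ≤ (fs p.2.s).length ∧
      out B (dec (fs (sn p.2.s))) [] p.1.s (sn (sn p.2.s)) (fs p.2.s).length = some [true])) := by
    refine PolyF.mk ⟨_, h6, fun a => ?_⟩
    show [decide _] = [decide _]
    congr 1
    exact decide_eq_decide.mpr (key a.1.s a.2.s)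
  have h8 : PolyF B (fun p : Str × Str => ((⟨p.1⟩ : Raw), (⟨p.2⟩ : Raw))) :=
    PolyF.pair (PolyF.toRaw (by fun_prop)) (PolyF.toRaw (by fun_prop))
  have h9 : PolyF B (fun p : Str × Str => decide (p.1.length ≤ (fs p.2).length ∧
      out B (dec (fs (sn p.2))) [] p.1 (sn (sn p.2)) (fs p.2).length = some [true])) :=
    PolyF.comp h7 h8
  refine hNPE B (Uni B) (fun p => decide (p.1.length ≤ (fs p.2).length ∧
      out B (dec (fs (sn p.2))) [] p.1 (sn (sn p.2)) (fs p.2).length = some [true])) X h9 ?_ ?_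
  · intro y z h
    have h' := (of_decide_eq_true h).1
    rw [eval_X]
    exact h'.trans (length_fs z)
  · intro z
    constructor
    · rintro ⟨y, hy⟩
      exact ⟨y, decide_eq_true hy⟩
    · rintro ⟨y, hy⟩
      exact ⟨y, of_decide_eq_true hy⟩

end Pool.EV
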