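import Pool.Agent.Work.MP_cb380d_ev.InterfaceE

/-!
# MP_cb380d_lc, EvasiveReductions, block UPF: the vectors of even parity in polynomial time
-/

open Pool.IC Pool.GL Pool.TL Polynomial

namespace Pool.EV

theorem UPF_par_foldl (z : Str) (S : List ℕ) : ∀ acc : Bool,
    S.foldl (fun (acc : Bool) i => xor (z.getD i false) acc) acc = xor (par z S) acc := by
  induction S with
  | nil =>
    intro acc
    show acc = xor false acc
    cases acc <;> rfl
  | cons i S ih =>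
    intro acc
    rw [List.foldl_cons, ih]
    show xor (par z S) (xor (z.getD i false) acc) = xor (xor (z.getD i false) (par z S)) acc
    generalize z.getD i false = a1
    generalize par z S = a2
    cases a1 <;> cases a2 <;> cases acc <;> rfl

theorem UPF_par_poly (B : Set Str) : PolyF B (fun p : Str × List ℕ => par p.1 p.2) := by
  have h : PolyF B (fun p : Str × List ℕ =>
      p.2.foldl (fun (acc : Bool) i => xor (p.1.getD i false) acc) false) := by
    refine PolyF.foldl_add (l := fun p : Str × List ℕ => p.2) (g := fun _ => false)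
      (h := fun (p : Str × List ℕ) (acc : Bool) i => xor (p.1.getD i false) acc)
      (by fun_prop) (by fun_prop) (by fun_prop) 0 ?_
    intro a s b _
    simp
  refine h.congrF fun p => ?_
  rw [UPF_par_foldl]
  cases par p.1 p.2 <;> rfl

theorem p_UPF (hPLF : Stmt_PLF) (hSLP : Stmt_SLP) : Stmt_UPF := by
  intro B
  obtain ⟨-, -, -, -, -, -, -, -, -, hplc, -, -, -⟩ := hPLF B
  have hpar := UPF_par_poly B
  have hF : PolyF B (fun p : ((ℕ × ℕ × ℕ × ℕ × List (List ℕ)) × ℕ) × List ℕ × Str =>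
      par (plc p.1.1.1 (p.1.1.2.1 + p.1.2 * p.1.1.2.2.1) p.2.2) p.2.1) := by
    refine PolyF.comp (f := fun p : Str × List ℕ => par p.1 p.2)
      (g := fun p : ((ℕ × ℕ × ℕ × ℕ × List (List ℕ)) × ℕ) × List ℕ × Str =>
        (plc p.1.1.1 (p.1.1.2.1 + p.1.2 * p.1.1.2.2.1) p.2.2, p.2.1)) hpar
      (PolyF.pair ?_ (by fun_prop))
    exact PolyF.comp (f := fun p : ℕ × ℕ × Str => plc p.1 p.2.1 p.2.2)
      (g := fun p : ((ℕ × ℕ × ℕ × ℕ × List (List ℕ)) × ℕ) × List ℕ × Str =>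
        (p.1.1.1, p.1.1.2.1 + p.1.2 * p.1.1.2.2.1, p.2.2)) hplc (by fun_prop)
  have hS := hSLP B (List ℕ) ((ℕ × ℕ × ℕ × ℕ × List (List ℕ)) × ℕ) (fun x => x.1.2.2.1)
    (fun x => x.1.2.2.2.2)
    (fun x S v => par (plc x.1.1 (x.1.2.1 + x.2 * x.1.2.2.1) v) S) (by fun_prop) (by fun_prop) hF
  have hP : PolyF B (fun p : (ℕ × ℕ × ℕ × ℕ × List (List ℕ)) × ℕ =>
      plc p.1.1 (p.1.2.1 + p.2 * p.1.2.2.1) (slv p.1.2.2.1 p.1.2.2.2.2
        (fun S v => par (plc p.1.1 (p.1.2.1 + p.2 * p.1.2.2.1) v) S))) :=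
    PolyF.comp (f := fun p : ℕ × ℕ × Str => plc p.1 p.2.1 p.2.2)
      (g := fun p : (ℕ × ℕ × ℕ × ℕ × List (List ℕ)) × ℕ =>
        (p.1.1, p.1.2.1 + p.2 * p.1.2.2.1, slv p.1.2.2.1 p.1.2.2.2.2
          (fun S v => par (plc p.1.1 (p.1.2.1 + p.2 * p.1.2.2.1) v) S))) hplc
      (PolyF.pair (by fun_prop) (PolyF.pair (by fun_prop) hS))
  exact PolyF.map (l := fun q : ℕ × ℕ × ℕ × ℕ × List (List ℕ) => List.range q.2.2.2.1)
    (f := fun (q : ℕ × ℕ × ℕ × ℕ × List (List ℕ)) (i : ℕ) =>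
      plc q.1 (q.2.1 + i * q.2.2.1) (slv q.2.2.1 q.2.2.2.2
        (fun S v => par (plc q.1 (q.2.1 + i * q.2.2.1) v) S))) (by fun_prop) hP

end Pool.EV
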