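import Pool.Agent.Work.MP_cb380d_ev.InterfaceE

/-!
# MP_cb380d_lc, EvasiveReductions, block UST: the vectors of even parity
-/

open Pool.IC Pool.GL Pool.TL Polynomial

namespace Pool.EV

theorem UST_length_add (u v : Str) (h : v.length = u.length) : (add u v).length = u.length := by
  unfold add
  rw [List.length_zipWith, h, min_self]

theorem UST_getD_add (u v : Str) (h : v.length = u.length) (i : ℕ) :
    (add u v).getD i false = xor (u.getD i false) (v.getD i false) := by
  induction u generalizing v i with
  | nil =>
    have hv : v = [] := List.length_eq_zero_iff.1 h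
    subst hv
    simp [add]
  | cons a u ih =>
    cases v with
    | nil => simp at h
    | cons b v =>
      have h' : v.length = u.length := by simpa using h
      cases i with
      | zero => simp [add]
      | succ i =>
        have := ih v h' i
        unfold add at this ⊢
        simpa using this

theorem UST_length_plc (R p : ℕ) (v : Str) : (plc R p v).length = R := by
  unfold plc
  rw [List.length_map, List.length_range]

theorem UST_getD_plc (R p : ℕ) (v : Str) (i : ℕ) (hi : i < R) :
    (plc R p v).getD i false = if p ≤ i then v.getD (i - p) false else false := by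
  unfold plc
  rw [List.getD_eq_getElem?_getD, List.getElem?_map, List.getElem?_range hi]
  rfl

theorem UST_plc_add (R p : ℕ) (u v : Str) (h : v.length = u.length) :
    plc R p (add u v) = add (plc R p u) (plc R p v) := by
  unfold plc
  unfold add
  rw [List.zipWith_map_left, List.zipWith_map_right, List.zipWith_self]
  refine List.map_congr_left fun j _ => ?_
  have h1 := UST_getD_add u v h (j - p)
  unfold add at h1
  by_cases hj : p ≤ j
  · rw [if_pos hj, if_pos hj, if_pos hj, h1]
  · rw [if_neg hj, if_neg hj, if_neg hj]
    rfl

theorem UST_par_add (u v : Str) (h : v.length = u.length) (S : List ℕ) :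
    par (add u v) S = xor (par u S) (par v S) := by
  induction S with
  | nil => rfl
  | cons i S ih =>
    show xor ((add u v).getD i false) (par (add u v) S) =
      xor (xor (u.getD i false) (par u S)) (xor (v.getD i false) (par v S))
    rw [ih, UST_getD_add u v h]
    generalize u.getD i false = a1
    generalize v.getD i false = a2
    generalize par u S = a3
    generalize par v S = a4
    cases a1 <;> cases a2 <;> cases a3 <;> cases a4 <;> rfl

/-- a placed vector is supported in its group -/
theorem UST_plc_supp (N p G : ℕ) (d : Str) (hd : d.length = G) (j : ℕ)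
    (hj : (plc N p d).getD j false = true) : j < N ∧ p ≤ j ∧ j < p + G := by
  have hjN : j < N := by
    by_contra hcon
    rw [List.getD_eq_default _ _ (by rw [UST_length_plc]; omega)] at hj
    exact Bool.noConfusion hj
  rw [UST_getD_plc _ _ _ _ hjN] at hj
  by_cases hp : p ≤ j
  · rw [if_pos hp] at hj
    refine ⟨hjN, hp, ?_⟩
    by_contra hcon
    rw [List.getD_eq_default _ _ (by omega)] at hj
    exact Bool.noConfusion hj
  · rw [if_neg hp] at hj
    exact Bool.noConfusion hj

theorem UST_par_replicate (N : ℕ) (S : List ℕ) : par (List.replicate N false) S = false := by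
  induction S with
  | nil => rfl
  | cons i S ih =>
    show xor ((List.replicate N false).getD i false) (par (List.replicate N false) S) = false
    rw [ih]
    by_cases hi : i < N
    · rw [List.getD_eq_getElem _ _ (by simpa using hi), List.getElem_replicate]
      rfl
    · rw [List.getD_eq_default _ _ (by simpa using Nat.not_lt.1 hi)]
      rfl

/-- parities of combinations -/
theorem UST_par_cmb (N : ℕ) (U : List Str) (s : Str) (S : List ℕ) (hU : ∀ v ∈ U, v.length = N)
    (hS : ∀ v ∈ U, par v S = false) : ∀ n ≤ U.length,
    ((List.range n).foldl (fun z j => if s.getD j false then add z (U.getD j []) else z)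
      (List.replicate N false)).length = N ∧
    par ((List.range n).foldl (fun z j => if s.getD j false then add z (U.getD j []) else z)
      (List.replicate N false)) S = false := by
  intro n
  induction n with
  | zero =>
    intro _
    refine ⟨by simp, ?_⟩
    exact UST_par_replicate N S
  | succ n ih =>
    intro hn
    obtain ⟨h1, h2⟩ := ih (by omega)
    rw [List.range_succ, List.foldl_append]
    obtain ⟨w, hw⟩ : ∃ w : Str, w = (List.range n).foldl
      (fun z j => if s.getD j false then add z (U.getD j []) else z)
      (List.replicate N false) := ⟨_, rfl⟩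
    rw [← hw] at h1 h2 ⊢
    show ((if s.getD n false then add w (U.getD n []) else w) : Str).length = N ∧
      par (if s.getD n false then add w (U.getD n []) else w) S = false
    have hmem : U.getD n [] ∈ U := by
      rw [List.getD_eq_getElem _ _ (by omega)]
      exact List.getElem_mem _
    by_cases h : s.getD n false = true
    · rw [if_pos h]
      have hl : (U.getD n []).length = w.length := by rw [hU _ hmem, h1]
      refine ⟨by rw [UST_length_add _ _ hl, h1], ?_⟩
      rw [UST_par_add _ _ hl, h2, hS _ hmem]
      rfl
    · rw [if_neg h]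
      exact ⟨h1, h2⟩

theorem UST_mem_supp (z : Str) (j : ℕ) : j ∈ supp z ↔ z.getD j false = true := by
  unfold supp
  rw [Finset.mem_filter, Finset.mem_range]
  constructor
  · exact fun h => h.2
  · intro h
    refine ⟨?_, h⟩
    by_contra hcon
    rw [List.getD_eq_default _ _ (by omega)] at h
    exact Bool.noConfusion h

theorem p_UST (hSLV : Stmt_SLV) : Stmt_UST := by
  intro N a G r P hPG hN
  -- the members
  have hslv : ∀ i : ℕ, (slv G P fun S v => par (plc N (a + i * G) v) S).length = G ∧
      true ∈ (slv G P fun S v => par (plc N (a + i * G) v) S) ∧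
      ∀ q ∈ P, par (plc N (a + i * G) (slv G P fun S v => par (plc N (a + i * G) v) S)) q =
        false := by
    intro i
    refine hSLV (List ℕ) G P (fun S v => par (plc N (a + i * G) v) S) ?_ hPG
    intro q _ u v hu hv
    show par (plc N (a + i * G) (add u v)) q =
      xor (par (plc N (a + i * G) u) q) (par (plc N (a + i * G) v) q)
    rw [UST_plc_add _ _ u v (by rw [hu, hv]), UST_par_add]
    rw [UST_length_plc, UST_length_plc]
  have hlen : (usets N a G r P).length = r := by
    unfold usets
    rw [List.length_map, List.length_range]
  have hget : ∀ i < r, (usets N a G r P).getD i [] =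
      plc N (a + i * G) (slv G P fun S v => par (plc N (a + i * G) v) S) := by
    intro i hi
    unfold usets
    rw [List.getD_eq_getElem?_getD, List.getElem?_map, List.getElem?_range hi]
    rfl
  have hmem : ∀ v ∈ usets N a G r P, ∃ i < r, v =
      plc N (a + i * G) (slv G P fun S v => par (plc N (a + i * G) v) S) := by
    intro v hv
    unfold usets at hv
    rw [List.mem_map] at hv
    obtain ⟨i, hi, hv⟩ := hv
    exact ⟨i, List.mem_range.1 hi, hv.symm⟩
  have hbd : ∀ i < r, a + i * G + G ≤ a + r * G := by
    intro i hi
    have : (i + 1) * G ≤ r * G := Nat.mul_le_mul_right _ hi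
    rw [Nat.succ_mul] at this
    omega
  refine ⟨hlen, ?_, ?_, ?_⟩
  · intro v hv
    obtain ⟨i, hi, rfl⟩ := hmem v hv
    obtain ⟨h1, h2, h3⟩ := hslv i
    obtain ⟨d, hd⟩ : ∃ d : Str, d = slv G P fun S v => par (plc N (a + i * G) v) S := ⟨_, rfl⟩
    rw [← hd] at h1 h2 h3 ⊢
    have hb := hbd i hi
    refine ⟨UST_length_plc _ _ _, ?_, ?_⟩
    · obtain ⟨t, ht, ht2⟩ := List.getElem_of_mem h2
      refine ⟨a + i * G + t, ?_⟩
      rw [UST_mem_supp, UST_getD_plc _ _ _ _ (by omega), if_pos (Nat.le_add_right _ t),
        Nat.add_sub_cancel_left, List.getD_eq_getElem _ _ ht, ht2]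
    · intro j hj
      rw [UST_mem_supp] at hj
      obtain ⟨-, h4, h5⟩ := UST_plc_supp _ _ _ _ h1 _ hj
      omega
  · intro b hb c hc hbc j hj
    rw [hlen] at hb hc
    rw [hget b hb] at hj
    rw [hget c hc]
    by_contra hcon
    rw [Bool.not_eq_false] at hcon
    obtain ⟨-, h4, h5⟩ := UST_plc_supp _ _ _ _ (hslv b).1 _ hj
    obtain ⟨-, h6, h7⟩ := UST_plc_supp _ _ _ _ (hslv c).1 _ hcon
    rcases Nat.lt_or_gt_of_ne hbc with h | h
    · have : (b + 1) * G ≤ c * G := Nat.mul_le_mul_right _ h
      rw [Nat.succ_mul] at this
      omega
    · have : (c + 1) * G ≤ b * G := Nat.mul_le_mul_right _ h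
      rw [Nat.succ_mul] at this
      omega
  · intro z s S hz hS
    have hU : ∀ v ∈ usets N a G r P, v.length = N := by
      intro v hv
      obtain ⟨i, -, rfl⟩ := hmem v hv
      exact UST_length_plc _ _ _
    have hUS : ∀ v ∈ usets N a G r P, par v S = false := by
      intro v hv
      obtain ⟨i, -, rfl⟩ := hmem v hv
      exact (hslv i).2.2 S hS
    obtain ⟨h1, h2⟩ := UST_par_cmb N (usets N a G r P) s S hU hUS _ le_rfl
    have h3 : par (cmb N (usets N a G r P) s) S = false := h2
    have h4 : (cmb N (usets N a G r P) s).length = N := h1
    rw [UST_par_add _ _ (by rw [h4, hz]), h3, Bool.xor_false]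

end Pool.EV
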