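import Pool.Agent.Work.MP_cb380d_ev.InterfaceA

open Pool.IC Pool.GL Pool.TL Polynomial

namespace Pool.EV

theorem WDD_un (n : ℕ) : un n = List.replicate n true := rfl

theorem WDD_lead (n : ℕ) (y : Str) : lead (List.replicate n true ++ false :: y) = n := by
  induction n with
  | zero => rfl
  | succ n ih =>
    rw [List.replicate_succ, List.cons_append]
    show lead (List.replicate n true ++ false :: y) + 1 = n + 1
    rw [ih]

theorem WDD_rst (n : ℕ) (y : Str) : rst (List.replicate n true ++ false :: y) = y := by
  unfold rst
  rw [WDD_lead, List.drop_append, List.length_replicate]
  have h1 : n + 1 - n = 1 := by omega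
  rw [h1, List.drop_succ_cons, List.drop_zero, List.drop_eq_nil_of_le (by simp), List.nil_append]

theorem WDD_dcd (x r : Str) :
    dcd (List.replicate x.length true ++ false :: (x ++ r)) = x := by
  unfold dcd
  rw [WDD_rst, WDD_lead, List.take_left]

theorem p_WDD : Stmt_WDD := by
  intro x ν hν
  have hlen : ((un x.length ++ false :: x).map some).length = 2 * x.length + 1 := by
    rw [WDD_un]
    simp only [List.length_map, List.length_append, List.length_replicate, List.length_cons]
    omega
  refine ⟨?_, ?_, ?_⟩
  · unfold wd
    rw [List.length_append, hlen, List.length_replicate]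
    omega
  · intro v hv h
    have hu : (un x.length ++ false :: x).length = 2 * x.length + 1 := by
      rw [← hlen, List.length_map]
    have h1 : v.take (2 * x.length + 1) = un x.length ++ false :: x := by
      apply List.ext_getElem?
      intro l
      rcases Nat.lt_or_ge l (2 * x.length + 1) with hl | hl
      · rw [List.getElem?_take_of_lt hl]
        have hl' : l < (un x.length ++ false :: x).length := by rw [hu]; exact hl
        have h2 := h l ((un x.length ++ false :: x)[l]) (by omega) (by
          unfold wd
          rw [List.getElem?_append_left (by rw [hlen]; exact hl), List.getElem?_map,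
            List.getElem?_eq_getElem hl']
          rfl)
        rw [h2, List.getElem?_eq_getElem hl']
      · rw [List.getElem?_eq_none (by rw [List.length_take]; omega),
          List.getElem?_eq_none (by rw [hu]; exact hl)]
    have h2 : v = List.replicate x.length true ++ false :: (x ++ v.drop (2 * x.length + 1)) := by
      conv_lhs => rw [← List.take_append_drop (2 * x.length + 1) v, h1, WDD_un]
      simp only [List.append_assoc, List.cons_append]
    rw [h2]
    exact WDD_dcd _ _
  · have hsub : Finset.Ico (2 * x.length + 1) (ν - 1) ⊆
        (Finset.range (ν - 1)).filter fun l => (wd x ν).getD l none = none := by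
      intro l hl
      rw [Finset.mem_Ico] at hl
      rw [Finset.mem_filter, Finset.mem_range]
      refine ⟨hl.2, ?_⟩
      unfold wd
      rw [List.getD_eq_getElem?_getD, List.getElem?_append_right (by rw [hlen]; exact hl.1),
        List.getElem?_replicate]
      split_ifs <;> rfl
    have hc := Finset.card_le_card hsub
    rw [Nat.card_Ico] at hc
    omega

end Pool.EV
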