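import Pool.Agent.Work.MP_cb380d_ev.InterfaceD
import Mathlib.FieldTheory.ChevalleyWarning

/-! # Block XEA: the universal set of cells, first part -/

open Pool.IC Pool.GL Pool.TL Polynomial

namespace Pool.EV

/-- a family with the relations which vanishes at the cells without the entry one is zero -/
theorem XEA_inj (hCEL : Stmt_CEL) (p k : ℕ) (hp : p.Prime) (T : List ℕ → ZMod p) (hT : Rel p k T)
    (h0 : ∀ c ∈ cells p k, 1 ∉ c → T c = 0) : ∀ n : ℕ, ∀ c ∈ cells p k, c.count 1 = n → T c = 0 := by
  obtain ⟨-, -, hmem⟩ := hCEL p k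
  intro n
  induction n with
  | zero =>
    intro c hc hn
    exact h0 c hc (List.count_eq_zero.1 hn)
  | succ n ih =>
    intro c hc hn
    obtain ⟨hlen, hc'⟩ := (hmem c).1 hc
    have h1 : 1 ∈ c := by
      rw [← List.count_pos_iff]
      omega
    obtain ⟨l, hl, hcl⟩ := List.mem_iff_getElem.1 h1
    have hrel := hT l (by omega) c hc
    obtain ⟨m, hm⟩ : ∃ m, p - 1 = m + 1 := ⟨p - 2, by have := hp.two_le; omega⟩
    rw [hm, List.range_succ_eq_map, List.map_cons, List.sum_cons, List.map_map] at hrel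
    have hset : c.set l (0 + 1) = c := by
      have : c.set l (c)[l] = c := List.set_getElem_self hl
      rw [hcl] at this
      simpa using this
    have htail : (List.map ((fun a => ((a + 1 : ℕ) : ZMod p) * T (c.set l (a + 1))) ∘ Nat.succ)
        (List.range m)).sum = 0 := by
      apply List.sum_eq_zero
      intro x hx
      obtain ⟨a, ha, rfl⟩ := List.mem_map.1 hx
      rw [List.mem_range] at ha
      have hcell : c.set l (Nat.succ a + 1) ∈ cells p k := by
        rw [hmem]
        refine ⟨by rw [List.length_set, hlen], fun b hb => ?_⟩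
        rcases List.mem_or_eq_of_mem_set hb with hb | rfl
        · exact hc' b hb
        · exact ⟨by omega, by omega⟩
      have hcount : (c.set l (Nat.succ a + 1)).count 1 = n := by
        rw [List.count_set hl, hcl, hn]
        simp
      show ((Nat.succ a + 1 : ℕ) : ZMod p) * T (c.set l (Nat.succ a + 1)) = 0
      rw [ih _ hcell hcount, mul_zero]
    rw [htail, hset] at hrel
    simpa using hrel

/-- the number of cells without the entry one -/
theorem XEA_card (hCEL : Stmt_CEL) (p k : ℕ) :
    Fintype.card {c : {c : List ℕ // c ∈ (cells p k).toFinset} // 1 ∉ c.1} ≤ (p - 2) ^ k := by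
  obtain ⟨-, -, hmem⟩ := hCEL p k
  have hc : ∀ c : {c : {c : List ℕ // c ∈ (cells p k).toFinset} // 1 ∉ c.1},
      c.1.1.length = k ∧ ∀ a ∈ c.1.1, 1 < a ∧ a < p := by
    intro c
    have h1 := (hmem c.1.1).1 (List.mem_toFinset.1 c.1.2)
    refine ⟨h1.1, fun a ha => ?_⟩
    have h2 := h1.2 a ha
    have h3 : a ≠ 1 := by
      rintro rfl
      exact c.2 ha
    omega
  let f : {c : {c : List ℕ // c ∈ (cells p k).toFinset} // 1 ∉ c.1} → (Fin k → Fin (p - 2)) :=
    fun c i => ⟨c.1.1[i.1]'(by rw [(hc c).1]; exact i.2) - 2, by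
      have := (hc c).2 _ (List.getElem_mem (l := c.1.1) (n := i.1) (by rw [(hc c).1]; exact i.2))
      omega⟩
  have hf : Function.Injective f := by
    intro c c' h
    apply Subtype.ext
    apply Subtype.ext
    refine List.ext_getElem (by rw [(hc c).1, (hc c').1]) fun i h1 h2 => ?_
    have hi : i < k := by rw [← (hc c).1]; exact h1
    have h3 := congrArg Fin.val (congrFun h ⟨i, hi⟩)
    have h4 := (hc c).2 _ (List.getElem_mem h1)
    have h5 := (hc c').2 _ (List.getElem_mem h2)
    have h6 : c.1.1[i] - 2 = c'.1.1[i] - 2 := h3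
    omega
  refine (Fintype.card_le_of_injective f hf).trans (le_of_eq ?_)
  simp

/-- the restrictions to the cells of the families with the relations -/
def XEA_W (p k : ℕ) : Submodule (ZMod p) ({c : List ℕ // c ∈ (cells p k).toFinset} → ZMod p) where
  carrier := {t | ∃ T, Rel p k T ∧ ∀ c, t c = T c.1}
  zero_mem' := ⟨fun _ => 0, fun l _ c _ => by
    apply List.sum_eq_zero
    intro x hx
    obtain ⟨a, _, rfl⟩ := List.mem_map.1 hx
    exact mul_zero _, fun c => rfl⟩
  add_mem' := by
    rintro t t' ⟨T, hT, h⟩ ⟨T', hT', h'⟩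
    refine ⟨fun c => T c + T' c, fun l hl c hc => ?_, fun c => ?_⟩
    · have h1 := hT l hl c hc
      have h2 := hT' l hl c hc
      simp only [mul_add]
      rw [List.sum_map_add, h1, h2, add_zero]
    · rw [Pi.add_apply, h, h']
  smul_mem' := by
    rintro z t ⟨T, hT, h⟩
    refine ⟨fun c => z * T c, fun l hl c hc => ?_, fun c => ?_⟩
    · have h1 := hT l hl c hc
      have h2 : (fun a => ((a + 1 : ℕ) : ZMod p) * (z * T (c.set l (a + 1)))) =
          fun a => z * (((a + 1 : ℕ) : ZMod p) * T (c.set l (a + 1))) := by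
        funext a
        ring
      rw [h2, List.sum_map_mul_left, h1, mul_zero]
    · rw [Pi.smul_apply, h, smul_eq_mul]

theorem p_XEA (hCEL : Stmt_CEL) : Stmt_XEA := by
  intro p hp
  have : Fact p.Prime := ⟨hp⟩
  have hp2 := hp.two_le
  -- the choice of `k`
  obtain ⟨k, hk⟩ : ∃ k : ℕ, (p - 1) * (p - 2) ^ k < (p - 1) ^ k := by
    have hpos : (0 : ℝ) < ((p - 1 : ℕ) : ℝ) := by
      have : 0 < p - 1 := by omega
      exact_mod_cast this
    have hlt : (((p - 2 : ℕ) : ℝ) / ((p - 1 : ℕ) : ℝ)) < 1 := by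
      rw [div_lt_one hpos]
      have : p - 2 < p - 1 := by omega
      exact_mod_cast this
    obtain ⟨k, hk⟩ := exists_pow_lt_of_lt_one (show (0 : ℝ) < 1 / ((p - 1 : ℕ) : ℝ) by positivity)
      hlt
    refine ⟨k, ?_⟩
    rw [div_pow, div_lt_div_iff₀ (by positivity) hpos, one_mul] at hk
    have hk' : (((p - 2) ^ k * (p - 1) : ℕ) : ℝ) < (((p - 1) ^ k : ℕ) : ℝ) := by
      push_cast
      exact hk
    rw [mul_comm]
    exact_mod_cast hk'
  obtain ⟨hcard, hnd, hmem⟩ := hCEL p k
  -- the dimension
  have hdim : Module.finrank (ZMod p) (XEA_W p k) ≤ (p - 2) ^ k := by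
    let res : XEA_W p k →ₗ[ZMod p]
        ({c : {c : List ℕ // c ∈ (cells p k).toFinset} // 1 ∉ c.1} → ZMod p) :=
      (LinearMap.funLeft (ZMod p) (ZMod p)
        (fun c : {c : {c : List ℕ // c ∈ (cells p k).toFinset} // 1 ∉ c.1} => c.1)).comp
        (XEA_W p k).subtype
    have hres : Function.Injective res := by
      rw [← LinearMap.ker_eq_bot, LinearMap.ker_eq_bot']
      rintro ⟨t, T, hT, ht⟩ h
      apply Subtype.ext
      funext c
      show t c = 0
      rw [ht]
      refine XEA_inj hCEL p k hp T hT ?_ _ c.1 (List.mem_toFinset.1 c.2) rfl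
      intro c' hc' h1
      have h2 := congrFun h ⟨⟨c', List.mem_toFinset.2 hc'⟩, h1⟩
      have h3 : t ⟨c', List.mem_toFinset.2 hc'⟩ = 0 := h2
      rw [ht] at h3
      exact h3
    have h1 := LinearMap.finrank_le_finrank_of_injective hres
    rw [Module.finrank_fintype_fun_eq_card] at h1
    exact h1.trans (XEA_card hCEL p k)
  -- the polynomials
  let b := Module.finBasis (ZMod p) (XEA_W p k)
  let f : Fin (Module.finrank (ZMod p) (XEA_W p k)) →
      MvPolynomial {c : List ℕ // c ∈ (cells p k).toFinset} (ZMod p) :=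
    fun i => ∑ c, MvPolynomial.C ((b i).1 c) * MvPolynomial.X c ^ (p - 1)
  have hdeg : ∀ i, (f i).totalDegree ≤ p - 1 := by
    intro i
    refine MvPolynomial.totalDegree_finsetSum_le fun c _ => ?_
    refine (MvPolynomial.totalDegree_mul _ _).trans ?_
    rw [MvPolynomial.totalDegree_C, zero_add, MvPolynomial.totalDegree_X_pow]
  have hsum : (∑ i, (f i).totalDegree) <
      Fintype.card {c : List ℕ // c ∈ (cells p k).toFinset} := by
    have h1 : (∑ i, (f i).totalDegree) ≤ ∑ _i : Fin (Module.finrank (ZMod p) (XEA_W p k)), (p - 1) :=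
      Finset.sum_le_sum fun i _ => hdeg i
    rw [Finset.sum_const, Finset.card_univ, Fintype.card_fin, smul_eq_mul] at h1
    have h2 : Fintype.card {c : List ℕ // c ∈ (cells p k).toFinset} = (p - 1) ^ k := by
      rw [Fintype.card_coe, List.toFinset_card_of_nodup hnd, hcard]
    rw [h2]
    calc (∑ i, (f i).totalDegree) ≤ Module.finrank (ZMod p) (XEA_W p k) * (p - 1) := h1
      _ ≤ (p - 2) ^ k * (p - 1) := Nat.mul_le_mul_right _ hdim
      _ < (p - 1) ^ k := by rw [mul_comm]; exact hk
  have hdvd := char_dvd_card_solutions_of_fintype_sum_lt (K := ZMod p) p hsum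
  -- a nonzero solution
  have heval : ∀ (s : {c : List ℕ // c ∈ (cells p k).toFinset} → ZMod p) i,
      MvPolynomial.eval s (f i) = ∑ c, (b i).1 c * s c ^ (p - 1) := by
    intro s i
    simp only [f, map_sum, map_mul, map_pow, MvPolynomial.eval_C, MvPolynomial.eval_X]
  obtain ⟨s, hs, hs0⟩ : ∃ s : {c : List ℕ // c ∈ (cells p k).toFinset} → ZMod p,
      (∀ i, MvPolynomial.eval s (f i) = 0) ∧ s ≠ 0 := by
    have hz : ∀ i, MvPolynomial.eval (0 : {c : List ℕ // c ∈ (cells p k).toFinset} → ZMod p)
        (f i) = 0 := by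
      intro i
      rw [heval]
      refine Finset.sum_eq_zero fun c _ => ?_
      rw [Pi.zero_apply, zero_pow (by omega), mul_zero]
    have h1 : 1 < Fintype.card {x : {c : List ℕ // c ∈ (cells p k).toFinset} → ZMod p //
        ∀ i, MvPolynomial.eval x (f i) = 0} := by
      have h2 : 0 < Fintype.card {x : {c : List ℕ // c ∈ (cells p k).toFinset} → ZMod p //
          ∀ i, MvPolynomial.eval x (f i) = 0} := Fintype.card_pos_iff.2 ⟨⟨0, hz⟩⟩
      have h3 := Nat.le_of_dvd h2 (by convert hdvd)
      omega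
    obtain ⟨y, hy⟩ := Fintype.exists_ne_of_one_lt_card h1 ⟨0, hz⟩
    refine ⟨y.1, y.2, fun h => hy (Subtype.ext h)⟩
  let s' : List ℕ → ZMod p := fun c => if h : c ∈ (cells p k).toFinset then s ⟨c, h⟩ else 0
  have hs' : ∀ c : {c : List ℕ // c ∈ (cells p k).toFinset}, s' c.1 = s c := by
    intro c
    simp only [s', dif_pos c.2]
  -- all families
  let φ : ({c : List ℕ // c ∈ (cells p k).toFinset} → ZMod p) →ₗ[ZMod p] ZMod p :=
    { toFun := fun t => ∑ c, t c * s c ^ (p - 1)
      map_add' := fun t t' => by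
        simp only [Pi.add_apply, add_mul, Finset.sum_add_distrib]
      map_smul' := fun z t => by
        simp only [Pi.smul_apply, smul_eq_mul, RingHom.id_apply, Finset.mul_sum, mul_assoc] }
  have hφ : φ.comp (XEA_W p k).subtype = 0 := by
    refine b.ext fun i => ?_
    show ∑ c, (b i).1 c * s c ^ (p - 1) = 0
    rw [← heval]
    exact hs i
  refine ⟨k, (cells p k).filter fun c => decide (s' c ≠ 0), hnd.filter _, ?_, ?_, ?_⟩
  · obtain ⟨c, hc⟩ := Function.ne_iff.1 hs0
    have h1 : c.1 ∈ (cells p k).filter fun c => decide (s' c ≠ 0) := by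
      rw [List.mem_filter]
      refine ⟨List.mem_toFinset.1 c.2, ?_⟩
      rw [decide_eq_true_eq, hs']
      exact hc
    exact List.ne_nil_of_mem h1
  · intro c hc
    exact (List.mem_filter.1 hc).1
  · intro T hT
    have h1 : φ (fun c => T c.1) = 0 := by
      have := congrFun (congrArg DFunLike.coe hφ) ⟨fun c => T c.1, T, hT, fun c => rfl⟩
      exact this
    have h2 : ∑ c : {c : List ℕ // c ∈ (cells p k).toFinset}, T c.1 * s' c.1 ^ (p - 1) = 0 := by
      simp only [hs']
      exact h1
    rw [Finset.sum_coe_sort (cells p k).toFinset (fun c => T c * s' c ^ (p - 1))] at h2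
    rw [← List.sum_toFinset T (hnd.filter _), List.toFinset_filter, Finset.sum_filter]
    refine Eq.trans (Finset.sum_congr rfl fun c _ => ?_) h2
    by_cases h : s' c = 0
    · rw [h, zero_pow (by omega), mul_zero]
      simp
    · rw [ZMod.pow_card_sub_one_eq_one h, mul_one]
      simp [h]

end Pool.EV
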