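import Pool.Agent.Work.MP_cb380d_ev.InterfaceD

/-! Block XEX (helper69): the universal set of cells with (1, .., 1). -/

set_option autoImplicit false

open Pool.IC Pool.GL Pool.TL Polynomial

namespace Pool.EV

theorem XEX_unit {p b : ℕ} (hp : p.Prime) (h0 : 0 < b) (h1 : b < p) :
    (b * b ^ (p - 2)) % p = 1 := by
  haveI : Fact p.Prime := ⟨hp⟩
  have h2 := hp.two_le
  have h3 : b * b ^ (p - 2) = b ^ (p - 1) := by
    rw [← pow_succ']
    congr 1
    omega
  have h4 : ((b : ℕ) : ZMod p) ≠ 0 := by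
    intro h
    rw [ZMod.natCast_eq_zero_iff] at h
    exact absurd (Nat.le_of_dvd h0 h) (by omega)
  have h5 : ((b ^ (p - 1) : ℕ) : ZMod p) = ((1 : ℕ) : ZMod p) := by
    push_cast
    exact ZMod.pow_card_sub_one_eq_one h4
  have h6 := (ZMod.natCast_eq_natCast_iff' _ _ _).1 h5
  rw [h3, h6]
  exact Nat.mod_eq_of_lt (by omega)

theorem XEX_inv {p u v a : ℕ} (huv : (u * v) % p = 1) (ha : a < p) :
    (a * u % p) * v % p = a := by
  have h : (a * u % p) * v % p = a * ((u * v) % p) % p := by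
    rw [Nat.mod_mul_mod, mul_assoc, Nat.mul_mod_mod]
  rw [h, huv, mul_one, Nat.mod_eq_of_lt ha]

theorem XEX_pos {p u v a : ℕ} (huv : (u * v) % p = 1) (h0 : 0 < a) (ha : a < p) :
    0 < a * u % p := by
  rcases Nat.eq_zero_or_pos (a * u % p) with h | h
  · have h1 := XEX_inv huv ha
    rw [h] at h1
    simp at h1
    omega
  · exact h

theorem XEX_sum {p : ℕ} (n : ℕ) (f : ℕ → ZMod p) :
    ((List.range n).map f).sum = ∑ i ∈ Finset.range n, f i := by
  induction n with
  | zero => simp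
  | succ n ih => rw [List.range_succ, Finset.sum_range_succ, ← ih]; simp

/-- Division by the list `b`. -/
def XEX_tau (p : ℕ) (b c : List ℕ) : List ℕ :=
  List.zipWith (fun x y => (x * y ^ (p - 2)) % p) c b

theorem XEX_tau_set (p : ℕ) : ∀ (b c : List ℕ) (l x : ℕ), b.length = c.length → l < c.length →
    XEX_tau p b (c.set l x) = (XEX_tau p b c).set l ((x * (b.getD l 0) ^ (p - 2)) % p)
  | [], c, l, x, h, hl => by
      simp at h
      omega
  | y :: b, [], l, x, h, hl => by simp at h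
  | y :: b, z :: c, 0, x, h, hl => by simp [XEX_tau]
  | y :: b, z :: c, l + 1, x, h, hl => by
      have h1 := XEX_tau_set p b c l x (by simpa using h) (by simpa using hl)
      simp only [XEX_tau, List.set_cons_succ, List.zipWith_cons_cons, List.getD_cons_succ] at h1 ⊢
      rw [h1]

theorem XEX_tau_cells {p k : ℕ} (hp : p.Prime) : ∀ (b c : List ℕ), b.length = k → c.length = k →
    (∀ a ∈ b, 0 < a ∧ a < p) → (∀ a ∈ c, 0 < a ∧ a < p) →
    (XEX_tau p b c).length = k ∧ ∀ a ∈ XEX_tau p b c, 0 < a ∧ a < p := by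
  intro b c hb hc hb' hc'
  refine ⟨by simp [XEX_tau, hb, hc], ?_⟩
  intro a ha
  rw [XEX_tau, List.mem_iff_getElem] at ha
  obtain ⟨i, hi, rfl⟩ := ha
  simp only [List.length_zipWith] at hi
  rw [List.getElem_zipWith]
  have h1 := hb' _ (List.getElem_mem (l := b) (n := i) (by omega))
  have h2 := hc' _ (List.getElem_mem (l := c) (n := i) (by omega))
  refine ⟨?_, Nat.mod_lt _ hp.pos⟩
  refine XEX_pos (v := b[i]'(by omega)) ?_ h2.1 h2.2
  rw [mul_comm]
  exact XEX_unit hp h1.1 h1.2

theorem XEX_tau_inj {p : ℕ} (hp : p.Prime) : ∀ (b c c' : List ℕ), b.length = c.length →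
    b.length = c'.length → (∀ a ∈ b, 0 < a ∧ a < p) → (∀ a ∈ c, 0 < a ∧ a < p) →
    (∀ a ∈ c', 0 < a ∧ a < p) → XEX_tau p b c = XEX_tau p b c' → c = c'
  | [], c, c', h, h', _, _, _, _ => by
      have h1 : c = [] := List.length_eq_zero_iff.1 (by simpa using h.symm)
      have h2 : c' = [] := List.length_eq_zero_iff.1 (by simpa using h'.symm)
      rw [h1, h2]
  | y :: b, [], c', h, h', _, _, _, _ => by simp at h
  | y :: b, z :: c, [], h, h', _, _, _, _ => by simp at h'
  | y :: b, z :: c, z' :: c', h, h', hb, hc, hc', he => by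
      simp only [XEX_tau, List.zipWith_cons_cons, List.cons.injEq] at he
      have h1 := XEX_tau_inj hp b c c' (by simpa using h) (by simpa using h')
        (fun a ha => hb a (List.mem_cons_of_mem _ ha)) (fun a ha => hc a (List.mem_cons_of_mem _ ha))
        (fun a ha => hc' a (List.mem_cons_of_mem _ ha)) he.2
      have hy := hb y List.mem_cons_self
      have hz := hc z List.mem_cons_self
      have hz' := hc' z' List.mem_cons_self
      have hu : (y ^ (p - 2) * y) % p = 1 := by
        rw [mul_comm]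
        exact XEX_unit hp hy.1 hy.2
      have h2 := XEX_inv hu hz.2
      have h3 := XEX_inv hu hz'.2
      rw [he.1, h3] at h2
      rw [h1, h2]

theorem XEX_tau_self {p : ℕ} (hp : p.Prime) : ∀ b : List ℕ, (∀ a ∈ b, 0 < a ∧ a < p) →
    XEX_tau p b b = List.replicate b.length 1
  | [], _ => by simp [XEX_tau]
  | y :: b, hb => by
      have h1 := XEX_tau_self hp b fun a ha => hb a (List.mem_cons_of_mem _ ha)
      have hy := hb y List.mem_cons_self
      simp only [XEX_tau, List.zipWith_cons_cons, List.length_cons, List.replicate_succ] at h1 ⊢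
      rw [h1, XEX_unit hp hy.1 hy.2]

theorem XEX_rel (hCEL : Stmt_CEL) {p k : ℕ} (hp : p.Prime) (b : List ℕ) (hb : b ∈ cells p k)
    (T : List ℕ → ZMod p) (hT : Rel p k T) : Rel p k fun c => T (XEX_tau p b c) := by
  intro l hl c hc
  obtain ⟨hb1, hb2⟩ := ((hCEL p k).2.2 b).1 hb
  obtain ⟨hc1, hc2⟩ := ((hCEL p k).2.2 c).1 hc
  have hlb : l < b.length := by omega
  have hy : 0 < b.getD l 0 ∧ b.getD l 0 < p := by
    rw [List.getD_eq_getElem _ _ hlb]
    exact hb2 _ (List.getElem_mem _)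
  set y := b.getD l 0 with hydef
  have hu : (y * y ^ (p - 2)) % p = 1 := XEX_unit hp hy.1 hy.2
  have hu' : (y ^ (p - 2) * y) % p = 1 := by rw [mul_comm]; exact hu
  have htc : XEX_tau p b c ∈ cells p k := by
    rw [(hCEL p k).2.2]
    exact XEX_tau_cells hp b c hb1 hc1 hb2 hc2
  have h1 := hT l hl _ htc
  rw [XEX_sum] at h1 ⊢
  have h2 : ∑ i ∈ Finset.range (p - 1), ((i + 1 : ℕ) : ZMod p) *
      T (XEX_tau p b (c.set l (i + 1))) =
      ∑ i ∈ Finset.range (p - 1), (y : ZMod p) * (((i + 1 : ℕ) : ZMod p) *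
      T ((XEX_tau p b c).set l (i + 1))) := by
    refine Finset.sum_nbij' (fun i => (i + 1) * y ^ (p - 2) % p - 1)
      (fun i => (i + 1) * y % p - 1) ?_ ?_ ?_ ?_ ?_
    · intro i hi
      rw [Finset.mem_range] at hi ⊢
      have h3 := XEX_pos (a := i + 1) hu' (by omega) (by omega)
      have h4 := Nat.mod_lt ((i + 1) * y ^ (p - 2)) hp.pos
      omega
    · intro i hi
      rw [Finset.mem_range] at hi ⊢
      have h3 := XEX_pos (a := i + 1) hu (by omega) (by omega)
      have h4 := Nat.mod_lt ((i + 1) * y) hp.pos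
      omega
    · intro i hi
      rw [Finset.mem_range] at hi
      have h3 := XEX_pos (a := i + 1) hu' (by omega) (by omega)
      have h4 := XEX_inv (a := i + 1) hu' (by omega)
      rw [Nat.sub_add_cancel h3, h4, Nat.add_sub_cancel]
    · intro i hi
      rw [Finset.mem_range] at hi
      have h3 := XEX_pos (a := i + 1) hu (by omega) (by omega)
      have h4 := XEX_inv (a := i + 1) hu (by omega)
      rw [Nat.sub_add_cancel h3, h4, Nat.add_sub_cancel]
    · intro i hi
      rw [Finset.mem_range] at hi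
      have h3 := XEX_pos (a := i + 1) hu' (by omega) (by omega)
      have h4 := XEX_inv (a := i + 1) hu' (by omega)
      rw [Nat.sub_add_cancel h3, XEX_tau_set p b c l (i + 1) (by omega) (by omega), ← hydef,
        ← mul_assoc]
      congr 1
      rw [← Nat.cast_mul, ZMod.natCast_eq_natCast_iff', mul_comm y, h4]
      exact Nat.mod_eq_of_lt (by omega)
  rw [h2, ← Finset.mul_sum, h1, mul_zero]

theorem p_XEX (hCEL : Stmt_CEL) (hXEA : Stmt_XEA) : Stmt_XEX := by
  intro p hp
  obtain ⟨k, X, hX1, hX2, hX3, hX4⟩ := hXEA p hp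
  obtain ⟨b, hb⟩ := List.exists_mem_of_ne_nil X hX2
  have hbc := hX3 b hb
  obtain ⟨hb1, hb2⟩ := ((hCEL p k).2.2 b).1 hbc
  refine ⟨k, X.map (XEX_tau p b), hp, ?_, ?_, ?_, ?_⟩
  · refine List.Nodup.map_on ?_ hX1
    intro c hc c' hc' h
    obtain ⟨h1, h2⟩ := ((hCEL p k).2.2 c).1 (hX3 c hc)
    obtain ⟨h3, h4⟩ := ((hCEL p k).2.2 c').1 (hX3 c' hc')
    exact XEX_tau_inj hp b c c' (by omega) (by omega) hb2 h2 h4 h
  · intro c hc
    simp only [List.mem_map] at hc
    obtain ⟨d, hd, rfl⟩ := hc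
    obtain ⟨h1, h2⟩ := ((hCEL p k).2.2 d).1 (hX3 d hd)
    simp only
    rw [(hCEL p k).2.2]
    exact XEX_tau_cells hp b d hb1 h1 hb2 h2
  · simp only [List.mem_map]
    exact ⟨b, hb, by rw [XEX_tau_self hp b hb2, hb1]⟩
  · intro T hT
    have h := hX4 _ (XEX_rel hCEL hp b hbc T hT)
    simp only [List.map_map]
    exact h

end Pool.EV
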