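import Pool.Agent.Work.MP_cb380d_ev.InterfaceD

set_option autoImplicit false

/-!
# Block ZMC: zero-sum sets modulo m
-/

open Pool.IC Pool.GL Pool.TL Polynomial

namespace Pool.EV

theorem ZMC_sum (f : ℕ → ℕ) (N : ℕ) :
    ((List.range N).map f).sum = ∑ t ∈ Finset.range N, f t := by
  induction N with
  | zero => simp
  | succ N ih =>
    rw [List.range_succ, List.map_append, List.sum_append, ih, Finset.sum_range_succ]
    simp

theorem ZMC_getD_map {α : Type} (f : ℕ → α) (K i : ℕ) (hi : i < K) (d : α) :
    ((List.range K).map f).getD i d = f i := by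
  rw [List.getD_eq_getElem _ _ (by simpa using hi)]
  simp

theorem ZMC_split (g : ℕ → ℕ) (n K : ℕ) :
    ∑ t ∈ Finset.range (K * n), g t =
      ∑ i ∈ Finset.range K, ∑ s ∈ Finset.range n, g (i * n + s) := by
  induction K with
  | zero => simp
  | succ K ih =>
    rw [Nat.succ_mul, Finset.sum_range_succ, ← ih, Finset.sum_range_add]

theorem ZMC_flat_length (n K : ℕ) (f : ℕ → List Bool) (hf : ∀ i < K, (f i).length = n) :
    ((List.range K).flatMap f).length = K * n := by
  induction K with
  | zero => simp
  | succ K ih =>
    rw [List.range_succ, List.flatMap_append, List.length_append,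
      ih (fun i hi => hf i (by omega))]
    simp only [List.flatMap_cons, List.flatMap_nil, List.append_nil]
    rw [hf K (by omega), Nat.succ_mul]

theorem ZMC_flat_getD (n K : ℕ) (f : ℕ → List Bool) (hf : ∀ i < K, (f i).length = n) :
    ∀ i < K, ∀ s < n, ((List.range K).flatMap f).getD (i * n + s) false = (f i).getD s false := by
  induction K with
  | zero =>
    intro i hi
    omega
  | succ K ih =>
    intro i hi s hs
    have hl := ZMC_flat_length n K f (fun i hi => hf i (by omega))
    rw [List.range_succ, List.flatMap_append]
    simp only [List.flatMap_cons, List.flatMap_nil, List.append_nil]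
    rcases Nat.lt_succ_iff_lt_or_eq.mp hi with h | h
    · have h1 : i * n + s < K * n := by
        have : (i + 1) * n ≤ K * n := Nat.mul_le_mul_right n h
        rw [Nat.succ_mul] at this
        omega
      rw [List.getD_append _ _ _ _ (by rw [hl]; exact h1)]
      exact ih (fun i hi => hf i (by omega)) i h s hs
    · subst h
      rw [List.getD_append_right _ _ _ _ (by rw [hl]; omega), hl]
      congr 1
      omega

theorem ZMC_blk_length {α : Type} (n K : ℕ) (I : List α) (hI : K * n ≤ I.length) (i : ℕ)
    (hi : i < K) : (blk n I i).length = n := by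
  unfold blk
  rw [List.length_take, List.length_drop]
  have : (i + 1) * n ≤ K * n := Nat.mul_le_mul_right n hi
  rw [Nat.succ_mul] at this
  omega

theorem ZMC_blk_getD (n : ℕ) (I : List (List ℕ)) (i s : ℕ) (hs : s < n) :
    (blk n I i).getD s [] = I.getD (i * n + s) [] := by
  unfold blk
  rw [List.getD_eq_getElem?_getD, List.getD_eq_getElem?_getD, List.getElem?_take_of_lt hs,
    List.getElem?_drop]

theorem p_ZMC (hZSC : Stmt_ZSC) : Stmt_ZMC := by
  intro ps
  induction ps with
  | nil =>
    intro L I _ _
    refine ⟨rfl, List.mem_singleton.mpr rfl, fun x hx => ?_⟩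
    rw [List.map_nil, List.prod_nil]
    exact one_dvd _
  | cons q ps ih =>
    intro L I hX hI
    obtain ⟨n, hn⟩ : ∃ n, n = nj q.1 L q.2.1 := ⟨_, rfl⟩
    obtain ⟨K, hK⟩ : ∃ K, K = nzm ps L := ⟨_, rfl⟩
    have hI' : K * n ≤ I.length := by
      rw [hK, hn]
      exact hI
    obtain ⟨sel, hsel⟩ : ∃ sel : ℕ → List Bool,
      sel = fun i => zsp q.1 L q.2.1 q.2.2 (blk n I i) := ⟨_, rfl⟩
    have hZ : ∀ i < K, (sel i).length = n ∧ true ∈ sel i ∧
        ∀ x < L, q.1 ∣ ssum (blk n I i) (sel i) x := by
      intro i hi
      have h := hZSC q.1 L q.2.1 q.2.2 (blk n I i) (hX q (List.mem_cons_self))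
        (by rw [ZMC_blk_length n K I hI' i hi, hn])
      rw [← hn] at h
      rw [hsel]
      exact h
    obtain ⟨J, hJ⟩ : ∃ J : List (List ℕ), J = (List.range K).map fun i =>
      (List.range L).map fun x => ssum (blk n I i) (sel i) x / q.1 := ⟨_, rfl⟩
    have hJl : J.length = K := by
      rw [hJ]
      simp
    obtain ⟨h1, h2, h3⟩ := ih L J (fun q' hq' => hX q' (List.mem_cons_of_mem _ hq'))
      (by rw [hJl, hK])
    obtain ⟨S, hS⟩ : ∃ S, S = zsm ps L J := ⟨_, rfl⟩
    rw [← hS] at h1 h2 h3
    rw [← hK] at h1
    obtain ⟨f, hf⟩ : ∃ f : ℕ → List Bool, f = fun i => if S.getD i false = true then sel i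
      else List.replicate n false := ⟨_, rfl⟩
    have hfl : ∀ i < K, (f i).length = n := by
      intro i hi
      rw [hf]
      show (if S.getD i false = true then sel i else List.replicate n false).length = n
      split_ifs
      · exact (hZ i hi).1
      · simp
    have e : zsm (q :: ps) L I = (List.range K).flatMap f := by
      rw [hf, hS, hJ, hsel, hK, hn]
      rfl
    have hlen : ((List.range K).flatMap f).length = K * n := ZMC_flat_length n K f hfl
    rw [e]
    refine ⟨?_, ?_, ?_⟩
    · rw [hlen, hK, hn]
      rfl
    · obtain ⟨i, hi, hiS⟩ := List.getElem_of_mem h2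
      rw [h1] at hi
      rw [List.mem_flatMap]
      refine ⟨i, List.mem_range.mpr hi, ?_⟩
      rw [hf]
      show true ∈ (if S.getD i false = true then sel i else List.replicate n false)
      rw [if_pos]
      · exact (hZ i hi).2.1
      · rw [List.getD_eq_getElem _ _ (by rw [h1]; exact hi)]
        exact hiS
    · intro x hx
      have hmain : ssum I ((List.range K).flatMap f) x = q.1 * ssum J S x := by
        unfold ssum
        rw [ZMC_sum, ZMC_sum, hJl]
        have e1 : ∑ t ∈ Finset.range I.length,
            (if ((List.range K).flatMap f).getD t false = true then (I.getD t []).getD x 0 else 0) =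
            ∑ t ∈ Finset.range (K * n),
            (if ((List.range K).flatMap f).getD t false = true then (I.getD t []).getD x 0 else 0) := by
          symm
          refine Finset.sum_subset (Finset.range_subset_range.mpr hI') fun t _ ht => ?_
          rw [Finset.mem_range, not_lt] at ht
          rw [List.getD_eq_default _ _ (by rw [hlen]; exact ht)]
          simp
        rw [e1, ZMC_split, Finset.mul_sum]
        refine Finset.sum_congr rfl fun i hi => ?_
        rw [Finset.mem_range] at hi
        have e2 : ∀ s ∈ Finset.range n,
            (if ((List.range K).flatMap f).getD (i * n + s) false = true then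
              (I.getD (i * n + s) []).getD x 0 else 0) =
            (if S.getD i false = true then
              (if (sel i).getD s false = true then ((blk n I i).getD s []).getD x 0 else 0)
              else 0) := by
          intro s hs
          rw [Finset.mem_range] at hs
          rw [ZMC_flat_getD n K f hfl i hi s hs, ZMC_blk_getD n I i s hs, hf]
          show (if (if S.getD i false = true then sel i
            else List.replicate n false).getD s false = true then
              (I.getD (i * n + s) []).getD x 0 else 0) = _
          split_ifs with a b c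
          · rfl
          · rfl
          · rw [List.getD_eq_getElem?_getD, List.getElem?_replicate] at c
            simp [hs] at c
          · rfl
        rw [Finset.sum_congr rfl e2]
        by_cases hSi : S.getD i false = true
        · simp only [hSi, if_true]
          have e3 : (J.getD i []).getD x 0 = ssum (blk n I i) (sel i) x / q.1 := by
            rw [hJ, ZMC_getD_map _ K i hi, ZMC_getD_map _ L x hx]
          rw [e3, Nat.mul_div_cancel' ((hZ i hi).2.2 x hx)]
          unfold ssum
          rw [ZMC_sum, ZMC_blk_length n K I hI' i hi]
        · simp only [hSi]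
          simp
      rw [hmain, List.map_cons, List.prod_cons]
      exact Nat.mul_dvd_mul_left _ (h3 x hx)

end Pool.EV
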