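import Pool.Agent.Work.MP_cb380d_ev.InterfaceD

/-! # EvasiveReductions, block ZMP: zero-sum sets in polynomial time -/

open Pool.IC Pool.GL Pool.TL Polynomial

namespace Pool.EV

theorem ZMP_mem (B : Set Str) (X : List (List ℕ)) :
    PolyF B (fun o : Option (List ℕ) => decide (o ∈ X.map some)) := by
  induction X with
  | nil => exact (PolyF.const false).congrF (fun o => by simp)
  | cons c X ih =>
    have h : PolyF B (fun o : Option (List ℕ) =>
        (decide (o = some c) || decide (o ∈ X.map some))) := by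
      refine PolyF.or ?_ ih
      fun_prop
    refine h.congrF (fun o => ?_)
    rw [List.map_cons]
    by_cases h1 : o = some c <;> by_cases h2 : o ∈ X.map some <;> simp [h1, h2]

theorem ZMP_zsp (hLEP : Stmt_LEP) (B : Set Str) (p k : ℕ) (hp : 0 < p) (X : List (List ℕ)) :
    PolyF B (fun q : ℕ × List (List ℕ) => zsp p q.1 k X q.2) := by
  unfold zsp
  exact PolyF.map (l := fun q : ℕ × List (List ℕ) => lev p q.1 k q.2)
    (f := fun _ o => decide (o ∈ X.map some)) ((hLEP B p k hp).2)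
    (PolyF.comp (f := fun o : Option (List ℕ) => decide (o ∈ X.map some))
      (g := fun r : (ℕ × List (List ℕ)) × Option (List ℕ) => r.2) (ZMP_mem B X) (by fun_prop))

theorem ZMP_nzm (hLEP : Stmt_LEP) (B : Set Str) (ps : List (ℕ × ℕ × List (List ℕ)))
    (hps : ∀ q ∈ ps, 0 < q.1) : PolyF B (fun L : ℕ => nzm ps L) := by
  induction ps with
  | nil => exact PolyF.const 1
  | cons q ps ih =>
    have h1 := ih fun q' hq' => hps q' (List.mem_cons_of_mem _ hq')
    have h2 := (hLEP B q.1 q.2.1 (hps q List.mem_cons_self)).1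
    change PolyF B (fun L : ℕ => nzm ps L * nj q.1 L q.2.1)
    fun_prop

theorem ZMP_W (hMDV : Stmt_MDV) (hLEP : Stmt_LEP) (B : Set Str) (p k : ℕ) (hp : 0 < p)
    (X : List (List ℕ)) (N : ℕ → ℕ) (hN : PolyF B N) :
    PolyF B (fun q : (ℕ × List (List ℕ)) × ℕ => blk (nj p q.1.1 k) q.1.2 q.2) ∧
    PolyF B (fun q : (ℕ × List (List ℕ)) × ℕ =>
      zsp p q.1.1 k X (blk (nj p q.1.1 k) q.1.2 q.2)) ∧
    PolyF B (fun q : ℕ × List (List ℕ) =>
      (List.range (N q.1)).map fun i => (List.range q.1).map fun x =>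
        ssum (blk (nj p q.1 k) q.2 i) (zsp p q.1 k X (blk (nj p q.1 k) q.2 i)) x / p) := by
  obtain ⟨-, hdiv, -, -, -, -, hssum, hblk0⟩ := hMDV B p
  have hnj := (hLEP B p k hp).1
  have hnj' : PolyF B (fun q : (ℕ × List (List ℕ)) × ℕ => nj p q.1.1 k) :=
    PolyF.comp (f := fun L : ℕ => nj p L k) (g := fun q : (ℕ × List (List ℕ)) × ℕ => q.1.1)
      hnj (by fun_prop)
  have hblk : PolyF B (fun q : (ℕ × List (List ℕ)) × ℕ => blk (nj p q.1.1 k) q.1.2 q.2) :=
    PolyF.comp (f := fun q : ℕ × List (List ℕ) × ℕ => blk q.1 q.2.1 q.2.2)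
      (g := fun q : (ℕ × List (List ℕ)) × ℕ => (nj p q.1.1 k, q.1.2, q.2)) hblk0
      (PolyF.pair hnj' (by fun_prop))
  have hz : PolyF B (fun q : (ℕ × List (List ℕ)) × ℕ =>
      zsp p q.1.1 k X (blk (nj p q.1.1 k) q.1.2 q.2)) :=
    PolyF.comp (f := fun q : ℕ × List (List ℕ) => zsp p q.1 k X q.2)
      (g := fun q : (ℕ × List (List ℕ)) × ℕ => (q.1.1, blk (nj p q.1.1 k) q.1.2 q.2))
      (ZMP_zsp hLEP B p k hp X) (PolyF.pair (by fun_prop) hblk)
  refine ⟨hblk, hz, ?_⟩
  have hs : PolyF B (fun r : ((ℕ × List (List ℕ)) × ℕ) × ℕ =>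
      ssum (blk (nj p r.1.1.1 k) r.1.1.2 r.1.2)
        (zsp p r.1.1.1 k X (blk (nj p r.1.1.1 k) r.1.1.2 r.1.2)) r.2 / p) := by
    refine PolyF.comp (f := fun a : ℕ => a / p)
      (g := fun r : ((ℕ × List (List ℕ)) × ℕ) × ℕ => ssum (blk (nj p r.1.1.1 k) r.1.1.2 r.1.2)
        (zsp p r.1.1.1 k X (blk (nj p r.1.1.1 k) r.1.1.2 r.1.2)) r.2) hdiv ?_
    refine PolyF.comp (f := fun q : List (List ℕ) × List Bool × ℕ => ssum q.1 q.2.1 q.2.2)
      (g := fun r : ((ℕ × List (List ℕ)) × ℕ) × ℕ => (blk (nj p r.1.1.1 k) r.1.1.2 r.1.2,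
        zsp p r.1.1.1 k X (blk (nj p r.1.1.1 k) r.1.1.2 r.1.2), r.2)) hssum ?_
    refine PolyF.pair ?_ (PolyF.pair ?_ (by fun_prop))
    · exact PolyF.comp (f := fun q : (ℕ × List (List ℕ)) × ℕ => blk (nj p q.1.1 k) q.1.2 q.2)
        (g := fun r : ((ℕ × List (List ℕ)) × ℕ) × ℕ => r.1) hblk (by fun_prop)
    · exact PolyF.comp (f := fun q : (ℕ × List (List ℕ)) × ℕ =>
        zsp p q.1.1 k X (blk (nj p q.1.1 k) q.1.2 q.2))
        (g := fun r : ((ℕ × List (List ℕ)) × ℕ) × ℕ => r.1) hz (by fun_prop)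
  refine PolyF.map (l := fun q : ℕ × List (List ℕ) => List.range (N q.1))
    (f := fun q i => (List.range q.1).map fun x =>
        ssum (blk (nj p q.1 k) q.2 i) (zsp p q.1 k X (blk (nj p q.1 k) q.2 i)) x / p)
    (by fun_prop) ?_
  exact PolyF.map (l := fun q : (ℕ × List (List ℕ)) × ℕ => List.range q.1.1)
    (f := fun q x => ssum (blk (nj p q.1.1 k) q.1.2 q.2)
      (zsp p q.1.1 k X (blk (nj p q.1.1 k) q.1.2 q.2)) x / p) (by fun_prop) hs

theorem ZMP_zsm (hMDV : Stmt_MDV) (hLEP : Stmt_LEP) (B : Set Str)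
    (ps : List (ℕ × ℕ × List (List ℕ))) (hps : ∀ q ∈ ps, 0 < q.1) :
    PolyF B (fun q : ℕ × List (List ℕ) => zsm ps q.1 q.2) := by
  induction ps with
  | nil => exact PolyF.const [true]
  | cons s ps ih =>
    obtain ⟨p, k, X⟩ := s
    have hps' : ∀ q ∈ ps, 0 < q.1 := fun q' hq' => hps q' (List.mem_cons_of_mem _ hq')
    have h1 := ih hps'
    have hp : 0 < p := hps (p, k, X) List.mem_cons_self
    have hn := ZMP_nzm hLEP B ps hps'
    obtain ⟨hblk, hz, hW⟩ := ZMP_W hMDV hLEP B p k hp X (fun L => nzm ps L) hn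
    have hnj := (hLEP B p k hp).1
    have hnj' : PolyF B (fun q : (ℕ × List (List ℕ)) × ℕ => nj p q.1.1 k) :=
      PolyF.comp (f := fun L : ℕ => nj p L k) (g := fun q : (ℕ × List (List ℕ)) × ℕ => q.1.1)
        hnj (by fun_prop)
    have hR : PolyF B (fun q : ℕ × List (List ℕ) => zsm ps q.1
        ((List.range (nzm ps q.1)).map fun i => (List.range q.1).map fun x =>
          ssum (blk (nj p q.1 k) q.2 i) (zsp p q.1 k X (blk (nj p q.1 k) q.2 i)) x / p)) :=
      PolyF.comp (f := fun q : ℕ × List (List ℕ) => zsm ps q.1 q.2)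
        (g := fun q : ℕ × List (List ℕ) => (q.1,
          (List.range (nzm ps q.1)).map fun i => (List.range q.1).map fun x =>
          ssum (blk (nj p q.1 k) q.2 i) (zsp p q.1 k X (blk (nj p q.1 k) q.2 i)) x / p))
        h1 (PolyF.pair (by fun_prop) hW)
    refine PolyF.flatMap (l := fun q : ℕ × List (List ℕ) => List.range (nzm ps q.1))
      (f := fun q i => if (zsm ps q.1
        ((List.range (nzm ps q.1)).map fun i => (List.range q.1).map fun x =>
          ssum (blk (nj p q.1 k) q.2 i)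
            (zsp p q.1 k X (blk (nj p q.1 k) q.2 i)) x / p)).getD i false = true
        then zsp p q.1 k X (blk (nj p q.1 k) q.2 i)
        else List.replicate (nj p q.1 k) false) ?_ ?_
    · fun_prop
    · refine PolyF.ite' ?_ hz ?_
      · have hR' : PolyF B (fun q : (ℕ × List (List ℕ)) × ℕ => zsm ps q.1.1
          ((List.range (nzm ps q.1.1)).map fun i => (List.range q.1.1).map fun x =>
            ssum (blk (nj p q.1.1 k) q.1.2 i)
              (zsp p q.1.1 k X (blk (nj p q.1.1 k) q.1.2 i)) x / p)) :=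
          PolyF.comp (f := fun q : ℕ × List (List ℕ) => zsm ps q.1
            ((List.range (nzm ps q.1)).map fun i => (List.range q.1).map fun x =>
              ssum (blk (nj p q.1 k) q.2 i) (zsp p q.1 k X (blk (nj p q.1 k) q.2 i)) x / p))
            (g := fun q : (ℕ × List (List ℕ)) × ℕ => q.1) hR (by fun_prop)
        exact PolyF.eq (PolyF.getD (by fun_prop) hR' (by fun_prop)) (PolyF.const true)
      · exact PolyF.replicate hnj' (by fun_prop)

theorem p_ZMP (hMDV : Stmt_MDV) (hLEP : Stmt_LEP) : Stmt_ZMP := by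
  intro B ps hps
  have hn := ZMP_nzm hLEP B ps hps
  refine ⟨hn, ZMP_zsm hMDV hLEP B ps hps, fun d => ?_⟩
  induction d with
  | zero => exact PolyF.const 1
  | succ d ih =>
    have h1 : PolyF B (fun M : ℕ => km ps d M ^ d) := PolyF.pow ih d
    have h2 : PolyF B (fun M : ℕ => M * km ps d M ^ d) := by fun_prop
    have h3 : PolyF B (fun M : ℕ => nzm ps (M * km ps d M ^ d)) :=
      PolyF.comp (f := fun L : ℕ => nzm ps L) (g := fun M : ℕ => M * km ps d M ^ d) hn h2
    change PolyF B (fun M : ℕ => km ps d M * nzm ps (M * km ps d M ^ d))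
    fun_prop

end Pool.EV
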