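import Pool.Agent.Work.MP_cb380d_ev.InterfaceD

open Pool.IC Pool.GL Pool.TL Polynomial

namespace Pool.EV

theorem ZSC_swap (n : ℕ) (A : List (Option (List ℕ))) (w : ℕ → ℕ) (X : List (List ℕ))
    (hX : X.Nodup) :
    (X.map fun c => ((List.range n).map fun t =>
      if A.getD t none = some c then w t else 0).sum).sum =
    ((List.range n).map fun t => if A.getD t none ∈ X.map some then w t else 0).sum := by
  induction X with
  | nil => simp
  | cons c X ih =>
    rw [List.nodup_cons] at hX
    rw [List.map_cons, List.sum_cons, ih hX.2, ← List.sum_map_add]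
    congr 1
    refine List.map_congr_left fun t _ => ?_
    by_cases h1 : A.getD t none = some c
    · have h2 : A.getD t none ∉ X.map some := by
        rw [h1]
        intro hmem
        rw [List.mem_map] at hmem
        obtain ⟨c', hc', he⟩ := hmem
        exact hX.1 (by rw [← Option.some.inj he]; exact hc')
      rw [if_pos h1, if_neg h2, if_pos (by rw [h1, List.map_cons]; exact List.mem_cons_self),
        add_zero]
    · by_cases h2 : A.getD t none ∈ X.map some
      · rw [if_neg h1, if_pos h2, if_pos (by rw [List.map_cons]; exact List.mem_cons_of_mem _ h2),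
          zero_add]
      · rw [if_neg h1, if_neg h2, if_neg (by
          rw [List.map_cons, List.mem_cons]
          rintro (h | h)
          · exact h1 h
          · exact h2 h)]

theorem p_ZSC (_hCEL : Stmt_CEL) (hLEC : Stmt_LEC) : Stmt_ZSC := by
  intro p L k X I hX hI
  obtain ⟨hp, hnd, hcells, hone, hsum⟩ := hX
  obtain ⟨h1, h2, h3, h4⟩ := hLEC p L k I hp hI
  have hlen : (zsp p L k X I).length = nj p L k := by
    unfold zsp
    rw [List.length_map, h1]
  refine ⟨hlen, ?_, fun x hx => ?_⟩
  · unfold zsp
    rw [List.mem_map]
    refine ⟨_, h3, ?_⟩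
    rw [decide_eq_true_iff]
    exact List.mem_map.2 ⟨_, hone, rfl⟩
  · have h5 := hsum _ (h4 x hx)
    have h6 : ssum I (zsp p L k X I) x = (X.map fun c => tsum I (lev p L k I) c x).sum := by
      unfold tsum
      rw [ZSC_swap I.length (lev p L k I) (fun t => (I.getD t []).getD x 0) X hnd]
      unfold ssum
      congr 1
      refine List.map_congr_left fun t ht => ?_
      have ht' : t < (lev p L k I).length := by
        rw [h1, ← hI]
        exact List.mem_range.1 ht
      have e : (zsp p L k X I).getD t false = decide ((lev p L k I).getD t none ∈ X.map some) := by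
        unfold zsp
        rw [List.getD_eq_getElem _ _ (by rw [List.length_map]; exact ht'), List.getElem_map,
          List.getD_eq_getElem _ _ ht']
      rw [e]
      simp only [decide_eq_true_eq]
    have h7 : (((X.map fun c => tsum I (lev p L k I) c x).sum : ℕ) : ZMod p) = 0 := by
      rw [Nat.cast_list_sum, List.map_map]
      exact h5
    rw [h6]
    exact (ZMod.natCast_eq_zero_iff _ _).1 h7

end Pool.EV
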