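import Pool.Agent.Work.OracleTyped_h80.Lib2

/-!
# MP_cb380d_lc, EvasiveReductions: definitions

Model of computation: `Pool/Agent/Work/OracleCmd_h91/Cmd.lean`; `PolyFun`, `Karp`, `InNP`:
`Pool/Agent/Work/MP_cb380d_h91/Model.lean`; encodings `se` of lists, numbers (unary) and pairs and
`PolyF B f` (`f` is computed in polynomial time relative to `B` on the encodings):
`Pool/Agent/Work/OracleTyped_h80/Base.lean`. `z[b]?` is the symbol number `b` of the string `z`
(`none` behind the end).
-/

open Pool.IC Pool.GL Pool.TL Polynomial

namespace Pool.EV

/-! ### The notions of the theorem -/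

/-- `f` is a length-increasing polynomial-time reduction of `D` to `A` with a polynomial-time
computable left inverse (so `f` is one-one and p-invertible), all relative to `B`. -/
def Strong (B D A : Set Str) (f : Str → Str) : Prop :=
  Karp B D A f ∧ (∀ x : Str, x.length < (f x).length) ∧
    ∃ f' : Str → Str, PolyFun B f' ∧ ∀ x, f' (f x) = x

/-- For all strings `z` of length `N` and all `b` at most `C N ^ (1 - 1/k)` of the `N` flips of one
bit of `z` change the symbol number `b` of `g z`. -/
def LowSensitivity (g : Str → Str) : Prop :=
  ∃ C k : ℕ, 0 < k ∧ ∀ (z : Str) (b : ℕ),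
    ((Finset.range z.length).filter fun v => (g (z.modify v not))[b]? ≠ (g z)[b]?).card ^ k ≤
      C * z.length ^ (k - 1)

/-- The parity (sum modulo 2) of the bits of `z` at the positions in the list. -/
def par (z : Str) : List ℕ → Bool
  | [] => false
  | i :: S => xor (z.getD i false) (par z S)

/-- From `z` and `b` one computes in polynomial time a list of at most `C |z| ^ (1 - 1/k)` lists of
positions, such that the parities of `z` on these lists determine the symbol number `b` of `g`. -/
def ParityCertificates (B : Set Str) (g : Str → Str) : Prop :=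
  ∃ (C k : ℕ) (cert : Str × ℕ → List (List ℕ)), 0 < k ∧ PolyF B cert ∧ ∀ (z : Str) (b : ℕ),
    (cert (z, b)).length ^ k ≤ C * z.length ^ (k - 1) ∧
    ∀ z' : Str, z'.length = z.length → (∀ S ∈ cert (z, b), par z' S = par z S) →
      (g z')[b]? = (g z)[b]?

/-- On the strings of length `N` the function `F` is a polynomial of degree at most `d` over the
field with two elements in the bits. -/
def IsPoly (N d : ℕ) (F : Str → Bool) : Prop :=
  ∃ P : MvPolynomial (Fin N) (ZMod 2), P.totalDegree ≤ d ∧ ∀ z : Str, z.length = N →
    MvPolynomial.eval (fun i : Fin N => if z.getD i false then (1 : ZMod 2) else 0) P =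
      if F z then 1 else 0

/-- All symbols of `g z` are given by polynomials of bounded degree over the field with two
elements in the bits of `z`, for every length of `z` (two indicator functions: not behind the
end, and equal to 1). -/
def BoundedDegree (g : Str → Str) : Prop :=
  ∃ d : ℕ, ∀ N b : ℕ, IsPoly N d (fun z => ((g z)[b]?).isSome) ∧
    IsPoly N d (fun z => (g z).getD b false)

/-- There is a polynomial-time procedure `esc` which, given a string `z` of length `N`, a list `T`
of positions and an interval of `K` positions on which `z` is zero,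
`(c (|T| + 1)) ^ c N ^ (1 - 1/k) < K`, finds a string of length `N` different from `z` only inside
of the interval, such that the symbols of `g` at all positions in `T` do not change. -/
def Evasive (B : Set Str) (g : Str → Str) : Prop :=
  ∃ (c k : ℕ) (esc : Str × List ℕ × ℕ × ℕ → Str), 0 < k ∧ PolyF B esc ∧
    ∀ (z : Str) (T : List ℕ) (a K : ℕ), a + K ≤ z.length →
      (∀ j, a ≤ j → j < a + K → z[j]? = some false) →
      (c * (T.length + 1)) ^ (c * k) * z.length ^ (k - 1) < K ^ k →
      (esc (z, T, a, K)).length = z.length ∧ esc (z, T, a, K) ≠ z ∧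
      (∀ j, j < a ∨ a + K ≤ j → (esc (z, T, a, K))[j]? = z[j]?) ∧
      ∀ b ∈ T, (g (esc (z, T, a, K)))[b]? = (g z)[b]?

/-- The four kinds of reductions. -/
def Good (B : Set Str) (g : Str → Str) : Prop :=
  LowSensitivity g ∨ ParityCertificates B g ∨ BoundedDegree g ∨ Evasive B g

/-- `A` is complete for NP relative to `B` under reductions of the four kinds (the kind and the
constants may depend on the reduced set). -/
def GoodComplete (B A : Set Str) : Prop :=
  InNP B A ∧ ∀ L : Set Str, InNP B L → ∃ g : Str → Str, Karp B L A g ∧ Good B g

/-- `A` and `A'` are p-isomorphic relative to `B`. -/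
def PIso (B A A' : Set Str) : Prop :=
  ∃ h h' : Str → Str, PolyFun B h ∧ PolyFun B h' ∧ (∀ x, h' (h x) = x) ∧ (∀ x, h (h' x) = x) ∧
    ∀ x, x ∈ A ↔ h x ∈ A'

/-! ### The language -/

/-- Number of leading ones. -/
def lead : Str → ℕ
  | [] => 0
  | false :: _ => 0
  | true :: l => lead l + 1

/-- What follows the first zero. -/
def rst (z : Str) : Str := z.drop (lead z + 1)

/-- `ν` blocks of length `K` (contents `y`). -/
def frm (ν K : ℕ) (y : Str) : Str := un ν ++ false :: (un K ++ false :: y)

/-- Which blocks are not zero? -/
def hv (z : Str) : List Bool :=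
  (List.range (lead z)).map fun j =>
    (((rst (rst z)).drop (j * lead (rst z))).take (lead (rst z))).any id

/-- Parity of the number of ones. -/
def parity (w : List Bool) : Bool := w.foldl xor false

/-- Self-delimiting decoding: `dcd (1^|x| 0 x r) = x`. -/
def dcd (w : Str) : Str := (rst w).take (lead w)

/-- The language `L_D`. -/
def lang (D : Set Str) : Set Str :=
  {z | if (hv z).headD false = true then dcd (hv z).tail ∈ D else parity (hv z).tail = true}

/-- `z` consists of `ν` blocks of length `K`. -/
def Fr (ν K : ℕ) (z : Str) : Prop := ∃ y : Str, y.length = ν * K ∧ z = frm ν K y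

/-- Start of block `l`. -/
def lo (ν K l : ℕ) : ℕ := ν + K + 2 + l * K

/-! ### The embedding -/

/-- The first position where the strings differ. -/
def fd (u v : Str) : ℕ :=
  ((List.range (u.length + v.length)).filter fun b => decide (u[b]? ≠ v[b]?)).headD 0

/-- The procedure `esc` made length preserving. -/
def es (esc : Str × List ℕ × ℕ × ℕ → Str) (z : Str) (T : List ℕ) (a K : ℕ) : Str :=
  if (esc (z, T, a, K)).length = z.length then esc (z, T, a, K) else z

/-- States: current string, recorded positions (last one first), bits so far. -/
abbrev St := Str × List ℕ × List Bool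

/-- One step (block `l + 1`); `ch` decides whether the block is changed. -/
def stp (g : Str → Str) (esc : Str × List ℕ × ℕ × ℕ → Str) (ch : ℕ → Str → Str → ℕ → Bool)
    (ν K : ℕ) (s : St) (l : ℕ) : St :=
  (bif ch l s.1 (es esc s.1 s.2.1 (lo ν K (l + 1)) K)
      (fd (g s.1) (g (es esc s.1 s.2.1 (lo ν K (l + 1)) K))) then
      es esc s.1 s.2.1 (lo ν K (l + 1)) K else s.1,
    fd (g s.1) (g (es esc s.1 s.2.1 (lo ν K (l + 1)) K)) :: s.2.1,
    s.2.2 ++ [ch l s.1 (es esc s.1 s.2.1 (lo ν K (l + 1)) K)
      (fd (g s.1) (g (es esc s.1 s.2.1 (lo ν K (l + 1)) K)))])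

/-- The state after `n` steps. -/
def rn (g : Str → Str) (esc : Str × List ℕ × ℕ × ℕ → Str) (ch : ℕ → Str → Str → ℕ → Bool)
    (ν K n : ℕ) : St :=
  (List.range n).foldl (stp g esc ch ν K) (frm ν K (List.replicate (ν * K) false), [], [])

/-- The final string: all data blocks and then block 0. -/
def zf (g : Str → Str) (esc : Str × List ℕ × ℕ × ℕ → Str) (ch : ℕ → Str → Str → ℕ → Bool)
    (ν K : ℕ) : Str :=
  es esc (rn g esc ch ν K (ν - 1)).1 (rn g esc ch ν K (ν - 1)).2.1 (lo ν K 0) K

/-- The choices of the encoder for the word `w` (`none`: a bit such that the recorded symbol is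
not behind the end). -/
def chE (g : Str → Str) (w : List (Option Bool)) (l : ℕ) (z _z' : Str) (b : ℕ) : Bool :=
  (w.getD l none).getD ((g z)[b]?).isNone

/-- The choices of the decoder for the output `o`. -/
def chD (g : Str → Str) (o : Str) (_l : ℕ) (_z z' : Str) (b : ℕ) : Bool :=
  decide (o[b]? = (g z')[b]?)

/-- The word for `x`: self-delimiting code and padding. -/
def wd (x : Str) (ν : ℕ) : List (Option Bool) :=
  (un x.length ++ false :: x).map some ++ List.replicate (ν - 2 - 2 * x.length) none

/-- The procedure `esc` works for all states. -/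
def Esc (g : Str → Str) (esc : Str × List ℕ × ℕ × ℕ → Str) (ν K : ℕ) : Prop :=
  0 < ν ∧ 0 < K ∧ ∀ (z : Str) (T : List ℕ) (a : ℕ), z.length = ν + K + 2 + ν * K → T.length < ν →
    a + K ≤ z.length → (∀ j, a ≤ j → j < a + K → z[j]? = some false) →
    (es esc z T a K).length = z.length ∧ es esc z T a K ≠ z ∧
    (∀ j, j < a ∨ a + K ≤ j → (es esc z T a K)[j]? = z[j]?) ∧
    ∀ b ∈ T, (g (es esc z T a K))[b]? = (g z)[b]?

/-- `g` separates strings of different status. -/
def Sep (g : Str → Str) (D : Set Str) : Prop :=
  ∀ z z' : Str, (z ∈ lang D ↔ z' ∉ lang D) → g z ≠ g z'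

/-- The invariant after `n` steps. -/
def Inv (ν K n : ℕ) (s : St) : Prop :=
  Fr ν K s.1 ∧ hv s.1 = false :: (s.2.2 ++ List.replicate (ν - 1 - n) false) ∧
    s.2.2.length = n ∧ s.2.1.length = n

/-! ### Stages -/

/-- The number of blocks for inputs of length `n`. -/
def st (a E n : ℕ) : ℕ := (fun m => if m < 4 * n + 4 then m ^ E else m)^[4 * n + 4] a

/-- The new reduction. -/
def ff (g : Str → Str) (esc : Str × List ℕ × ℕ × ℕ → Str) (t a E : ℕ) (x : Str) : Str :=
  g (zf g esc (chE g (wd x (st a E x.length))) (st a E x.length) (st a E x.length ^ t))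

/-- Decoding of the output `o` at the stage for inputs of length `n`. -/
def dc (g : Str → Str) (esc : Str × List ℕ × ℕ × ℕ → Str) (t a E : ℕ) (o : Str) (n : ℕ) : Str :=
  dcd (rn g esc (chD g o) (st a E n) (st a E n ^ t) (st a E n - 1)).2.2

/-- The inverse of the new reduction. -/
def fi (g : Str → Str) (esc : Str × List ℕ × ℕ × ℕ → Str) (t a E : ℕ) (o : Str) : Str :=
  (((List.range (o.length + 1)).map (dc g esc t a E o)).filter
    fun x => decide (ff g esc t a E x = o)).headD []

/-! ### Linear algebra over the field with two elements -/

/-- Sum of vectors. -/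
def add (z u : Str) : Str := List.zipWith xor z u

/-- Unit vector. -/
def ev (R c : ℕ) : Str := (List.range R).map fun j => decide (j = c)

/-- One step of the solver: eliminate with the functional `f`. Members of the list: (private
coordinate, vector). -/
def slvs (f : Str → Bool) (V : List (ℕ × Str)) : List (ℕ × Str) :=
  (V.filter fun v => !(f v.2)) ++
    ((V.filter fun v => f v.2).tail.map fun v =>
      (v.1, add v.2 (((V.filter fun v => f v.2).headD (0, [])).2)))

/-- The solver: a vector on which all the functionals `F q`, `q` in the list `Q`, vanish. -/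
def slv {γ : Type} (R : ℕ) (Q : List γ) (F : γ → Str → Bool) : Str :=
  ((Q.foldl (fun V q => slvs (F q) V) ((List.range R).map fun c => (c, ev R c))).headD (0, [])).2

/-- All derivatives of order `d + 1` vanish on the strings of length `N`. -/
def DegLE (N : ℕ) : ℕ → (Str → Bool) → Prop
  | 0, F => ∀ z z' : Str, z.length = N → z'.length = N → F z = F z'
  | d + 1, F => ∀ u : Str, u.length = N → DegLE N d (fun z => xor (F (add z u)) (F z))

/-- The derivative of `F` in the directions of the list. -/
def dv (F : Str → Bool) : List Str → Str → Bool
  | [], z => F z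
  | u :: t, z => xor (dv F t (add z u)) (dv F t z)

/-- The same for the first `d` directions (missing directions: `[]`). -/
def dvn (F : Str → Bool) : ℕ → List Str → Str → Bool
  | 0, _, z => F z
  | d + 1, t, z => xor (dvn F d t.tail (add z (t.headD []))) (dvn F d t.tail z)

/-- All lists of length `d` with entries in `U`. -/
def tup (U : List Str) : ℕ → List (List Str)
  | 0 => [[]]
  | d + 1 => U.flatMap fun u => (tup U d).map fun t => u :: t

/-- Linear combination of the vectors in `U` (of length `R`) with coefficients `s`. -/
def cmb (R : ℕ) (U : List Str) (s : Str) : Str :=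
  (List.range U.length).foldl (fun z j => if s.getD j false then add z (U.getD j []) else z)
    (List.replicate R false)

/-- `v` placed at position `p` of a zero vector of length `R`. -/
def plc (R p : ℕ) (v : Str) : Str :=
  (List.range R).map fun j => if p ≤ j then v.getD (j - p) false else false

/-- One step of the construction of good directions: given `U`, a vector in the group number
`U.length` (groups of size `G`) on which all derivatives of the functions `F i`, `i < m`, in `d`
directions of `U` and this direction vanish. -/
def dirs (F : ℕ → Str → Bool) (d m R G : ℕ) (U : List Str) : List Str :=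
  U ++ [plc R (U.length * G) (slv G
    ((List.range m).flatMap fun i => (tup U d).map fun t => (i, t))
    (fun q v => dvn (F q.1) (d + 1) (plc R (U.length * G) v :: q.2) (List.replicate R false)))]

/-- The good directions. -/
def dir (F : ℕ → Str → Bool) (d m R G r : ℕ) : List Str :=
  (dirs F d m R G)^[r] []

/-- The number of variables needed for `m` functions of degree at most `d`. -/
def kd : ℕ → ℕ → ℕ
  | 0, _ => 1
  | d + 1, m => kd d m * (m * kd d m ^ d + 1)

/-- A nonzero vector of length `R` on which the functions `F i`, `i < m`, of degree at most `d`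
have the same values as on the zero vector. -/
def sol : ℕ → (ℕ → Str → Bool) → ℕ → ℕ → Str
  | 0, _, _, R => ev R 0
  | d + 1, F, m, R =>
    cmb R (dir F d m R (m * kd d m ^ d + 1) (kd d m))
      (sol d (fun i s => F i (cmb R (dir F d m R (m * kd d m ^ d + 1) (kd d m)) s)) m (kd d m))

/-! ### The universal set -/

/-- The universal set relative to `B`: strings `pr w (pr c x)` such that the program with code `c`
outputs `[true]` on `x` and some witness `y` with `|y| ≤ |w|` within `|w|` steps. -/
def Uni (B : Set Str) : Set Str :=
  {e | ∃ y : Str, y.length ≤ (fs e).length ∧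
    out B (dec (fs (sn e))) [] y (sn (sn e)) (fs e).length = some [true]}

/-! ### Cantor-Bernstein -/

/-- One backward step: from side `true` (domain of `f`) use the inverse of `g`, from side `false`
use the inverse of `f`; `none` if there is no preimage. -/
def bck (f f' g g' : Str → Str) (s : Bool × Str) : Option (Bool × Str) :=
  if s.1 = true then (if g (g' s.2) = s.2 then some (false, g' s.2) else none)
  else (if f (f' s.2) = s.2 then some (true, f' s.2) else none)

/-- The side where the chain of predecessors ends. -/
def side (f f' g g' : Str → Str) : ℕ → Bool × Str → Bool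
  | 0, s => s.1
  | n + 1, s => match bck f f' g g' s with
    | none => s.1
    | some s' => side f f' g g' n s'

/-- The bijection. -/
def cbm (f f' g g' : Str → Str) (x : Str) : Str :=
  if side f f' g g' (x.length + 1) (true, x) = true then f x else g' x

/-- Its inverse. -/
def cbi (f f' g g' : Str → Str) (y : Str) : Str :=
  if side f f' g g' (y.length + 1) (false, y) = true then f' y else g y

end Pool.EV
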