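import Pool.Agent.Work.MP_cb380d_ev.InterfaceC

/-!
# MP_cb380d_lc, EvasiveReductions: definitions for polynomials modulo m
-/

open Pool.IC Pool.GL Pool.TL Polynomial

namespace Pool.EV

/-- The set of positions of the ones. -/
def supp (z : Str) : Finset ℕ := (Finset.range z.length).filter fun i => z.getD i false = true

/-- On the strings of length `N` the function `Φ` is modulo `m` a polynomial of degree at most `d`
in the bits: `Φ z = ∑ c T ∏_{i ∈ T} z_i` modulo `m`, sum over the sets `T` with at most `d`
elements. -/
def IsModPoly (m N d : ℕ) (Φ : Str → ℕ) : Prop :=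
  ∃ c : Finset ℕ → ZMod m, ∀ z : Str, z.length = N →
    (Φ z : ZMod m) = ∑ T ∈ (supp z).powerset.filter (fun T => T.card ≤ d), c T

/-- For some constants `m > 0` and `d`: from `z` and `b` one computes in polynomial time a list of
`|z| ^ o(1)` names of polynomials of degree at most `d` in the bits, such that the values modulo
`m` of these polynomials at `z` determine the symbol number `b` of `g`. -/
def ModularCertificates (B : Set Str) (g : Str → Str) : Prop :=
  ∃ (m d : ℕ) (s : ℕ → ℕ) (cert : Str × ℕ → List Str) (Φ : Str × Str → ℕ), 0 < m ∧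
    PolyF B cert ∧ PolyF B Φ ∧ (∀ e : ℕ, ∃ C : ℕ, ∀ N : ℕ, s N ^ e ≤ C * N + C) ∧
    (∀ (q : Str) (N : ℕ), IsModPoly m N d fun z => Φ (q, z)) ∧ ∀ (z : Str) (b : ℕ),
      (cert (z, b)).length ≤ s z.length ∧ ∀ z' : Str, z'.length = z.length →
        (∀ q ∈ cert (z, b), Φ (q, z') ≡ Φ (q, z) [MOD m]) → (g z')[b]? = (g z)[b]?

/-! ### Linear relations modulo a prime -/

/-- `a u + v` modulo `p`. -/
def axp (p a : ℕ) (u v : List ℕ) : List ℕ := List.zipWith (fun x y => (a * x + y) % p) u v

/-- Unit vector. -/
def evn (n t : ℕ) : List ℕ := (List.range n).map fun j => if j = t then 1 else 0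

/-- The coordinate `x` of the combination of the vectors in `I` with coefficients `v`. -/
def fvl (p : ℕ) (I : List (List ℕ)) (x : ℕ) (v : List ℕ) : ℕ :=
  ((List.range I.length).map fun t => v.getD t 0 * (I.getD t []).getD x 0).sum % p

/-- One step of the elimination with the functional `f`. -/
def lss (p : ℕ) (f : List ℕ → ℕ) (V : List (ℕ × List ℕ)) : List (ℕ × List ℕ) :=
  if (V.filter fun v => decide (f v.2 ≠ 0)) = [] then V
  else (V.filter fun v => decide (v.1 ≠ ((V.filter fun v => decide (f v.2 ≠ 0)).headD (0, [])).1)).map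
    fun v => (v.1, axp p
      (f v.2 * (p - 1) * f ((V.filter fun v => decide (f v.2 ≠ 0)).headD (0, [])).2 ^ (p - 2))
      ((V.filter fun v => decide (f v.2 ≠ 0)).headD (0, [])).2 v.2)

/-- Coefficients of a linear relation modulo `p` of the vectors in `I` (of length `L`). -/
def lsv (p L : ℕ) (I : List (List ℕ)) : List ℕ :=
  (((List.range L).foldl (fun V x => lss p (fvl p I x) V)
    ((List.range I.length).map fun t => (t, evn I.length t))).headD (0, [])).2

/-! ### Zero-sum sets modulo a prime -/

/-- The lists of length `j` with entries in `1, .., p - 1`. -/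
def cells (p : ℕ) : ℕ → List (List ℕ)
  | 0 => [[]]
  | j + 1 => (List.range (p - 1)).flatMap fun a => (cells p j).map fun c => (a + 1) :: c

/-- The number of vectors needed for level `j`. -/
def nj (p L : ℕ) : ℕ → ℕ
  | 0 => 1
  | j + 1 => (L * (p - 1) ^ j + 1) * nj p L j

/-- Block number `i` of length `n`. -/
def blk {α : Type} (n : ℕ) (I : List α) (i : ℕ) : List α := (I.drop (i * n)).take n

/-- Coordinate `x` of the sum of the vectors in cell `c`. -/
def tsum (I : List (List ℕ)) (A : List (Option (List ℕ))) (c : List ℕ) (x : ℕ) : ℕ :=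
  ((List.range I.length).map fun t =>
    if A.getD t none = some c then (I.getD t []).getD x 0 else 0).sum

/-- The coefficients found at level `j + 1`, if `F` is the procedure of level `j`. -/
def levd (p L j : ℕ) (F : List (List ℕ) → List (Option (List ℕ))) (I : List (List ℕ)) : List ℕ :=
  lsv p ((cells p j).length * L) ((List.range (L * (p - 1) ^ j + 1)).map fun i =>
    (cells p j).flatMap fun c => (List.range L).map fun x =>
      tsum (blk (nj p L j) I i) (F (blk (nj p L j) I i)) c x)

/-- Level `j + 1`, if `F` is the procedure of level `j`. -/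
def levs (p L j : ℕ) (F : List (List ℕ) → List (Option (List ℕ))) (I : List (List ℕ)) :
    List (Option (List ℕ)) :=
  (List.range (L * (p - 1) ^ j + 1)).flatMap fun i => (F (blk (nj p L j) I i)).map fun o =>
    if (levd p L j F I).getD i 0 = 0 then none
    else o.map fun c => (levd p L j F I).getD i 0 :: c

/-- Assignment of cells (lists of length `j`) to vectors. -/
def lev (p L : ℕ) : ℕ → List (List ℕ) → List (Option (List ℕ))
  | 0, _ => [some []]
  | j + 1, I => levs p L j (lev p L j) I

/-- The relations of a family of numbers indexed by the cells. -/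
def Rel (p k : ℕ) (T : List ℕ → ZMod p) : Prop :=
  ∀ l < k, ∀ c ∈ cells p k,
    ((List.range (p - 1)).map fun a => ((a + 1 : ℕ) : ZMod p) * T (c.set l (a + 1))).sum = 0

/-- `(p, k, X)` is good: `p` is prime, `X` is a set of cells containing `(1, .., 1)`, and the sum
over `X` vanishes for all families with the relations. -/
def XGood (q : ℕ × ℕ × List (List ℕ)) : Prop :=
  q.1.Prime ∧ q.2.2.Nodup ∧ (∀ c ∈ q.2.2, c ∈ cells q.1 q.2.1) ∧
    List.replicate q.2.1 1 ∈ q.2.2 ∧
    ∀ T : List ℕ → ZMod q.1, Rel q.1 q.2.1 T → (q.2.2.map T).sum = 0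

/-- Zero-sum set modulo `p`. -/
def zsp (p L k : ℕ) (X : List (List ℕ)) (I : List (List ℕ)) : List Bool :=
  (lev p L k I).map fun o => decide (o ∈ X.map some)

/-- Coordinate `x` of the sum of the selected vectors. -/
def ssum (I : List (List ℕ)) (s : List Bool) (x : ℕ) : ℕ :=
  ((List.range I.length).map fun t => if s.getD t false = true then (I.getD t []).getD x 0 else 0).sum

/-- The number of vectors needed. -/
def nzm : List (ℕ × ℕ × List (List ℕ)) → ℕ → ℕ
  | [], _ => 1
  | q :: ps, L => nzm ps L * nj q.1 L q.2.1

/-- Zero-sum set modulo the product of the primes in the list. -/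
def zsm : List (ℕ × ℕ × List (List ℕ)) → ℕ → List (List ℕ) → List Bool
  | [], _, _ => [true]
  | q :: ps, L, I => (List.range (nzm ps L)).flatMap fun i =>
      if (zsm ps L ((List.range (nzm ps L)).map fun i => (List.range L).map fun x =>
          ssum (blk (nj q.1 L q.2.1) I i)
            (zsp q.1 L q.2.1 q.2.2 (blk (nj q.1 L q.2.1) I i)) x / q.1)).getD i false = true
      then zsp q.1 L q.2.1 q.2.2 (blk (nj q.1 L q.2.1) I i)
      else List.replicate (nj q.1 L q.2.1) false

/-! ### Functions of bounded degree modulo m -/

/-- Differences of order `n` modulo `m` in the first `n` directions of the list. -/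
def dmn (m : ℕ) (F : Str → ℕ) : ℕ → List Str → Str → ℕ
  | 0, _, z => F z
  | n + 1, t, z => dmn m F n t.tail (add z (t.headD [])) + (m - 1) * dmn m F n t.tail z

/-- The sublists of length `d` of the list, with decreasing positions. -/
def sld : ℕ → List Str → List (List Str)
  | 0, _ => [[]]
  | d + 1, U => (List.range U.length).flatMap fun a =>
      (sld d (U.take a)).map fun t => U.getD a [] :: t

/-- One step of the construction of good directions. -/
def dims (ps : List (ℕ × ℕ × List (List ℕ))) (F : ℕ → Str → ℕ) (m d M R G : ℕ) (U : List Str) :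
    List Str :=
  U ++ [plc R (U.length * G) (zsm ps (M * (sld d U).length)
    ((List.range G).map fun v => (List.range M).flatMap fun i => (sld d U).map fun t =>
      dmn m (F i) (d + 1) (ev R (U.length * G + v) :: t) (List.replicate R false) % m))]

/-- The good directions. -/
def dirm (ps : List (ℕ × ℕ × List (List ℕ))) (F : ℕ → Str → ℕ) (m d M R G r : ℕ) : List Str :=
  (dims ps F m d M R G)^[r] []

/-- The number of variables needed for `M` functions of degree at most `d`. -/
def km (ps : List (ℕ × ℕ × List (List ℕ))) : ℕ → ℕ → ℕ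
  | 0, _ => 1
  | d + 1, M => km ps d M * nzm ps (M * km ps d M ^ d)

/-- A nonzero vector of length `R` on which the functions `F i`, `i < M`, of degree at most `d`
have the same values modulo `m` as on the zero vector. -/
def solm (ps : List (ℕ × ℕ × List (List ℕ))) (m : ℕ) : ℕ → (ℕ → Str → ℕ) → ℕ → ℕ → Str
  | 0, _, _, R => ev R 0
  | d + 1, F, M, R =>
    cmb R (dirm ps F m d M R (nzm ps (M * km ps d M ^ d)) (km ps d M))
      (solm ps m d (fun i s => F i (cmb R
        (dirm ps F m d M R (nzm ps (M * km ps d M ^ d)) (km ps d M)) s)) M (km ps d M))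

/-- The five kinds of reductions. -/
def Good5 (B : Set Str) (g : Str → Str) : Prop :=
  LowSensitivity g ∨ ParityCertificates B g ∨ BoundedDegree g ∨ ModularCertificates B g ∨
    Evasive B g

/-- `A` is complete for NP relative to `B` under reductions of the five kinds (the kind and the
constants may depend on the reduced set). -/
def Complete5 (B A : Set Str) : Prop :=
  InNP B A ∧ ∀ L : Set Str, InNP B L → ∃ g : Str → Str, Karp B L A g ∧ Good5 B g

/-- The vectors are pairwise disjoint. -/
def Disj (U : List Str) : Prop :=
  ∀ a < U.length, ∀ b < U.length, a ≠ b → ∀ j, (U.getD a []).getD j false = true →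
    (U.getD b []).getD j false = false

end Pool.EV
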