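import Pool.Agent.Work.MP_cb380d_ev.InterfaceD

/-!
# MP_cb380d_lc, EvasiveReductions: certificates of parities and polynomials modulo m
-/

open Pool.IC Pool.GL Pool.TL Polynomial

namespace Pool.EV

/-- For some constants `m > 0`, `d`, `C`, `k > 0`: from `z` (of length `N`) and `b` one computes in
polynomial time a list of at most `C N ^ (1 - 1/k)` lists of positions and a list of `N ^ o(1)`
names of polynomials of degree at most `d` in the bits, such that the parities of `z` on these lists
and the values modulo `m` of these polynomials at `z` determine the symbol number `b` of `g`. -/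
def Certificates (B : Set Str) (g : Str → Str) : Prop :=
  ∃ (m d C k : ℕ) (s : ℕ → ℕ) (sets : Str × ℕ → List (List ℕ)) (names : Str × ℕ → List Str)
    (Φ : Str × Str → ℕ), 0 < m ∧ 0 < k ∧ PolyF B sets ∧ PolyF B names ∧ PolyF B Φ ∧
    (∀ e : ℕ, ∃ C' : ℕ, ∀ N : ℕ, s N ^ e ≤ C' * N + C') ∧
    (∀ (q : Str) (N : ℕ), IsModPoly m N d fun z => Φ (q, z)) ∧ ∀ (z : Str) (b : ℕ),
      (sets (z, b)).length ^ k ≤ C * z.length ^ (k - 1) ∧
      (names (z, b)).length ≤ s z.length ∧
      ∀ z' : Str, z'.length = z.length → (∀ S ∈ sets (z, b), par z' S = par z S) →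
        (∀ q ∈ names (z, b), Φ (q, z') ≡ Φ (q, z) [MOD m]) → (g z')[b]? = (g z)[b]?

/-- The four kinds of reductions. -/
def Good4 (B : Set Str) (g : Str → Str) : Prop :=
  LowSensitivity g ∨ Certificates B g ∨ BoundedDegree g ∨ Evasive B g

/-- `A` is complete for NP relative to `B` under reductions of the four kinds (the kind and the
constants may depend on the reduced set). -/
def Complete4 (B A : Set Str) : Prop :=
  InNP B A ∧ ∀ L : Set Str, InNP B L → ∃ g : Str → Str, Karp B L A g ∧ Good4 B g

/-- In each of the `r` groups of size `G` behind position `a` a nonzero vector of even parity on all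
lists in `P`. -/
def usets (N a G r : ℕ) (P : List (List ℕ)) : List Str :=
  (List.range r).map fun i => plc N (a + i * G) (slv G P fun S v => par (plc N (a + i * G) v) S)

end Pool.EV
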