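import Pool.Agent.Work.MP_cb380d_ev.InterfaceE

/-!
# MP_cb380d_lc, CircuitReductions: definitions for constant-depth circuits with modular gates
-/

open Pool.IC Pool.GL Pool.TL Polynomial

namespace Pool.EV

/-! ### Circuits -/

/-- Lists of pairs (number of a variable or gate, Boolean value). -/
abbrev Lits := List (ℕ × Bool)

/-- The values of a layer of gates, given the values `cur` of the layer before. A gate is a list of
pairs `(q, s)`; its value is the disjunction of the values of the gates number `q` of the layer
before, negated if `s` is true. -/
def lay (L : List Lits) (cur : List Bool) : List Bool :=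
  L.map fun gt => gt.any fun l => xor (cur.getD l.1 false) l.2

/-- The values of the last layer of the circuit `C` (list of layers) on the input `z`. -/
def circ (C : List (List Lits)) (z : List Bool) : List Bool :=
  C.foldl (fun cur L => lay L cur) z

/-- The number of places where both lists are true. -/
def cnt (q w : List Bool) : ℕ :=
  ((List.range q.length).filter fun i => q.getD i false && w.getD i false).length

/-- For some constants `m > 0` and `D`: `crc N` is a circuit with `D` layers, computed in polynomial
time from `N` (in unary); from `z` and `b` one computes in polynomial time a list of `|z| ^ o(1)`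
sets of gates of the last layer of `crc |z|`, such that the numbers modulo `m` of true gates in these
sets determine the symbol number `b` of `g`. -/
def ModularCircuits (B : Set Str) (g : Str → Str) : Prop :=
  ∃ (m D : ℕ) (s : ℕ → ℕ) (crc : ℕ → List (List Lits)) (sets : Str × ℕ → List (List Bool)),
    0 < m ∧ PolyF B crc ∧ PolyF B sets ∧ (∀ e : ℕ, ∃ C : ℕ, ∀ N : ℕ, s N ^ e ≤ C * N + C) ∧
    (∀ N : ℕ, (crc N).length = D) ∧ ∀ (z : Str) (b : ℕ),
      (sets (z, b)).length ≤ s z.length ∧ ∀ z' : Str, z'.length = z.length →
        (∀ q ∈ sets (z, b), cnt q (circ (crc z.length) z') ≡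
          cnt q (circ (crc z.length) z) [MOD m]) →
        (g z')[b]? = (g z)[b]?

/-- The five kinds of reductions. -/
def Good6 (B : Set Str) (g : Str → Str) : Prop :=
  LowSensitivity g ∨ Certificates B g ∨ BoundedDegree g ∨ ModularCircuits B g ∨ Evasive B g

/-- `A` is complete for NP relative to `B` under reductions of the five kinds (the kind and the
constants may depend on the reduced set). -/
def Complete6 (B A : Set Str) : Prop :=
  InNP B A ∧ ∀ L : Set Str, InNP B L → ∃ g : Str → Str, Karp B L A g ∧ Good6 B g

/-- On the strings of length `n` the function `F` depends on at most `t` places. -/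
def Jun (t n : ℕ) (F : Str → Bool) : Prop :=
  ∃ J : Finset ℕ, J.card ≤ t ∧ ∀ x y : Str, x.length = n → y.length = n →
    (∀ i ∈ J, x.getD i false = y.getD i false) → F x = F y

/-! ### Terms -/

/-- Value of a term (conjunction of the conditions `x_i = c` for its members `(i, c)`). -/
def tev (x : Str) (T : Lits) : Bool := T.all fun l => decide (x.getD l.1 false = l.2)

/-- Value of a disjunction of terms. -/
def dev (x : Str) (F : List Lits) : Bool := F.any (tev x)

/-- At most `t` members, different variables, all `< n`. -/
def TOK (n t : ℕ) (T : Lits) : Prop := T.length ≤ t ∧ (T.map Prod.fst).Nodup ∧ ∀ l ∈ T, l.1 < n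

/-- No common variable. -/
def dsj (T T' : Lits) : Bool := T.all fun l => T'.all fun l' => decide (l.1 ≠ l'.1)

/-- A maximal family of pairwise disjoint terms. -/
def fam (F : List Lits) : List Lits :=
  F.foldl (fun acc T => if acc.all (dsj T) = true then acc ++ [T] else acc) []

/-- The variables of the first `A` terms of the family. -/
def hs (A : ℕ) (F : List Lits) : List ℕ := ((fam F).take A).flatMap fun T => T.map Prod.fst

/-! ### Greedy choices -/

/-- Product, capped. -/
def cpr (cap : ℕ) (l : List ℕ) : ℕ := l.foldl (fun a x => min (a * x) cap) 1

/-- `len` numbers `< s`, every time the first one which does not increase `Φ`. -/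
def grd (s : ℕ) (Φ : List ℕ → ℕ) (len : ℕ) : List ℕ :=
  (fun c => c ++ [((List.range s).filter fun o => decide (Φ (c ++ [o]) ≤ Φ c)).headD 0])^[len] []

/-- `2 ^ t` times the probability that the term is true, if the first bits are `b`. -/
def wga (t : ℕ) (b : Str) (T : Lits) : ℕ :=
  if (T.any fun l => decide (l.1 < b.length) && decide (b.getD l.1 false ≠ l.2)) = true then 0
  else 2 ^ (t - (T.filter fun l => decide (b.length ≤ l.1)).length)

/-- The potential for the bits. -/
def pta (t cap : ℕ) (fs : List (List Lits)) (b : Str) : ℕ :=
  (fs.map fun f => cpr cap (f.map fun T => 2 ^ (t + 1) - wga t b T)).sum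

/-- Numbers as bits. -/
def tob (c : List ℕ) : Str := c.map fun o => decide (o = 1)

/-- The bits. -/
def bts (t cap n : ℕ) (fs : List (List Lits)) : Str :=
  tob (grd 2 (fun c => pta t cap fs (tob c)) (n * n))

/-- The weight of the variable `p` (group `p / n`, offset `p % n`), if the first kept offsets are
`c`. -/
def wgb (n : ℕ) (c : List ℕ) (p : ℕ) : ℕ :=
  if p / n < c.length then (if c.getD (p / n) 0 = p % n then n else 1) else 2

/-- The potential for the kept offsets. -/
def ptb (n cap : ℕ) (Hs : List (List ℕ)) (c : List ℕ) : ℕ :=
  (Hs.map fun H => cpr cap (H.map (wgb n c))).sum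

/-- The kept offsets. -/
def kpt (n cap : ℕ) (Hs : List (List ℕ)) : List ℕ := grd n (ptb n cap Hs) n

/-- The size of the families. -/
def szA (t r h n : ℕ) : ℕ := 2 ^ (t + 1) * (r * (Nat.log 2 n + 1) + h)

/-- An upper bound of `2 ^ ((t + 1) * szA t r h n)`. -/
def cpA (t r h n : ℕ) : ℕ :=
  (2 * n) ^ ((t + 1) * 2 ^ (t + 1) * r) * 2 ^ ((t + 1) * 2 ^ (t + 1) * h)

/-- One stage for disjunctions of terms with `n * n` variables: kept offsets of the `n` groups, bits
for the variables which are not kept. -/
def stg (t r h n : ℕ) (Fs : List (List Lits)) : List ℕ × Str :=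
  (kpt n (n ^ h) (Fs.map (hs (szA t r h n))),
    bts t (cpA t r h n) n ((Fs.filter fun F => decide (szA t r h n ≤ (fam F).length)).map
      fun F => (fam F).take (szA t r h n)))

/-- `n` groups of `n` bits, `n = u.length`: `u` at the kept offsets, bits elsewhere. -/
def plug (kb : List ℕ × Str) (u : Str) : Str :=
  (List.range u.length).flatMap fun q => (List.range u.length).map fun o =>
    if kb.1.getD q 0 = o then u.getD q false else kb.2.getD (q * u.length + o) false

/-! ### Restrictions -/

/-- The groups `q < n` whose kept variable is in `H`. -/
def kin (n : ℕ) (c : List ℕ) (H : List ℕ) : List ℕ :=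
  (List.range n).filter fun q => H.any fun p => decide (p = q * n + c.getD q 0)

/-- All assignments of the first `h` members of `K`. -/
def cub : ℕ → List ℕ → List Lits
  | 0, _ => [[]]
  | h + 1, K => if K.isEmpty = true then [[]] else
      (cub h K.tail).flatMap fun α => [(K.headD 0, false) :: α, (K.headD 0, true) :: α]

/-- The value of the variable `q` in an assignment. -/
def lku (α : Lits) (q : ℕ) : Option Bool := ((α.filter fun l => decide (l.1 = q)).map Prod.snd).head?

/-- The value of the variable `p` if the kept variables have the assignment `α` (variables of `α`: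
numbers of groups). -/
def sta (n : ℕ) (kb : List ℕ × Str) (α : Lits) (p : ℕ) : Option Bool :=
  if kb.1.getD (p / n) 0 = p % n then lku α (p / n) else some (kb.2.getD p false)

/-- The restriction of a disjunction of terms. -/
def rdn (n : ℕ) (kb : List ℕ × Str) (α : Lits) (F : List Lits) : List Lits :=
  (F.filter fun T => T.all fun l =>
    decide (sta n kb α l.1 = none) || decide (sta n kb α l.1 = some l.2)).map fun T =>
      (T.filter fun l => decide (sta n kb α l.1 = none)).map fun l => (l.1 / n, l.2)

/-- The disjunctions for the next stage. -/
def nxt (t r h n : ℕ) (kb : List ℕ × Str) (Fs : List (List Lits)) : List (List Lits) :=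
  (Fs.filter fun F => decide ((fam F).length < szA t r h n)).flatMap fun F =>
    (cub h (kin n kb.1 (hs (szA t r h n) F))).map fun α => rdn n kb α F

/-- The number of variables before `W` stages, if `n` variables are left at the end. -/
def nmv (W n : ℕ) : ℕ := n ^ 2 ^ W

/-- The stages with parameters `(t, r, h)`. -/
def sts : List (ℕ × ℕ × ℕ) → ℕ → List (List Lits) → List (List ℕ × Str)
  | [], _, _ => []
  | q :: ps, n, Fs => stg q.1 q.2.1 q.2.2 (nmv ps.length n) Fs :: sts ps n
      (nxt q.1 q.2.1 q.2.2 (nmv ps.length n) (stg q.1 q.2.1 q.2.2 (nmv ps.length n) Fs) Fs)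

/-- The composition of the maps `plug`, the first stage is the last map. -/
def phi (kbs : List (List ℕ × Str)) (u : Str) : Str := kbs.foldr plug u

/-! ### The layers -/

/-- All lists of length at most `t` of numbers `< n`. -/
def sbs : ℕ → ℕ → List (List ℕ)
  | 0, _ => [[]]
  | t + 1, n => [] :: (List.range n).flatMap fun i => (sbs t n).map fun A => i :: A

/-- The string of length `n` with ones at the places in `A`. -/
def chr (n : ℕ) (A : List ℕ) : Str := (List.range n).map fun i => A.any fun j => decide (j = i)

/-- The places `i < n` such that `G` changes with the bit `i` at some string with at most `t`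
ones. -/
def rel (t n : ℕ) (G : Str → Bool) : List ℕ :=
  (List.range n).filter fun i => (sbs t n).any fun A =>
    decide (G (chr n A) ≠ G ((chr n A).modify i not))

/-- The string of length `n` with ones at the places with value `true` in `α`. -/
def pnt (n : ℕ) (α : Lits) : Str := (List.range n).map fun i => decide (lku α i = some true)

/-- The gates of a layer as disjunctions of terms, if all gates of the layer before depend on at
most `t` of the `n` variables and have the values `G x`. -/
def dnl (t n : ℕ) (G : Str → List Bool) (L : List Lits) : List (List Lits) :=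
  L.map fun gt => gt.flatMap fun l =>
    (cub t (rel t n fun x => (G x).getD l.1 false)).filter fun α =>
      xor ((G (pnt n α)).getD l.1 false) l.2

/-- The total number of stages. -/
def tst (pss : List (ℕ × List (ℕ × ℕ × ℕ))) : ℕ := (pss.map fun q => q.2.length).sum

/-- All stages for all layers of the circuit `C`, if `G x` are the values of the gates before. -/
def cct : List (ℕ × List (ℕ × ℕ × ℕ)) → ℕ → (Str → List Bool) → List (List Lits) →
    List (List ℕ × Str)
  | [], _, _, _ => []
  | q :: pss, n, G, C =>
      sts q.2 (nmv (tst pss) n) (dnl q.1 (nmv q.2.length (nmv (tst pss) n)) G (C.headD [])) ++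
      cct pss n (fun u => lay (C.headD []) (G (phi (sts q.2 (nmv (tst pss) n)
        (dnl q.1 (nmv q.2.length (nmv (tst pss) n)) G (C.headD []))) u))) C.tail

/-! ### The language and the embedding -/

/-- The parities of the first `n` blocks of length `κ`. -/
def cnb (κ n : ℕ) (y : Str) : Str := (List.range n).map fun l => parity ((y.drop (l * κ)).take κ)

/-- The contents of `1^κ 0 y`: the parities of the blocks of length `κ` of `y`. -/
def con (z : Str) : Str :=
  ((List.range (rst z).length).filter fun l =>
    decide ((l + 1) * lead z ≤ (rst z).length)).map fun l =>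
      parity (((rst z).drop (l * lead z)).take (lead z))

/-- The strings whose contents are in `lang D`. -/
def lang3 (D : Set Str) : Set Str := {z | con z ∈ lang D}

/-- The length of the blocks. -/
def kap (W n : ℕ) : ℕ := n ^ (2 ^ W - 1)

/-- The stages for the strings with `n` blocks. -/
def psk (pss : List (ℕ × List (ℕ × ℕ × ℕ))) (crc : ℕ → List (List Lits)) (n : ℕ) :
    List (List ℕ × Str) :=
  cct pss n (fun x => un (kap (tst pss) n) ++ false :: x)
    (crc (kap (tst pss) n + 1 + nmv (tst pss) n))

/-- The shift. -/
def psc (pss : List (ℕ × List (ℕ × ℕ × ℕ))) (crc : ℕ → List (List Lits)) (n : ℕ) : Str :=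
  cnb (kap (tst pss) n) n (phi (psk pss crc n) (List.replicate n false))

/-- The embedding: contents `v` and `a` zeros. -/
def psi (pss : List (ℕ × List (ℕ × ℕ × ℕ))) (a : ℕ) (crc : ℕ → List (List Lits)) (v : Str) : Str :=
  un (kap (tst pss) (v.length + a)) ++ false :: phi (psk pss crc (v.length + a))
    (add (v ++ List.replicate a false) (psc pss crc (v.length + a)))

/-- The kept offsets are in the range, for all stages (`n` variables are left at the end). -/
def KOK (n : ℕ) : List (List ℕ × Str) → Prop
  | [] => True
  | kb :: kbs => (∀ q, kb.1.getD q 0 < nmv kbs.length n) ∧ KOK n kbs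

end Pool.EV
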