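import Pool.Agent.Work.MP_cb380d_ev.B_P2I
import Pool.Agent.Work.MP_cb380d_ev.B_NPE
import Pool.Agent.Work.MP_cb380d_ev.B_UNP
import Pool.Agent.Work.MP_cb380d_ev.B_UNC
import Pool.Agent.Work.MP_cb380d_ev.B_CBA
import Pool.Agent.Work.MP_cb380d_ev.B_CBP
import Pool.Agent.Work.MP_cb380d_ev.B_PIS
import Pool.Agent.Work.MP_cb380d_ev.B_HVA
import Pool.Agent.Work.MP_cb380d_ev.B_HVS
import Pool.Agent.Work.MP_cb380d_ev.B_PAR
import Pool.Agent.Work.MP_cb380d_ev.B_LCH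
import Pool.Agent.Work.MP_cb380d_ev.B_FDD
import Pool.Agent.Work.MP_cb380d_ev.B_RNS
import Pool.Agent.Work.MP_cb380d_ev.B_RNI
import Pool.Agent.Work.MP_cb380d_ev.B_KEP
import Pool.Agent.Work.MP_cb380d_ev.B_DEC
import Pool.Agent.Work.MP_cb380d_ev.B_MEM
import Pool.Agent.Work.MP_cb380d_ev.B_PAD
import Pool.Agent.Work.MP_cb380d_ev.B_BIT
import Pool.Agent.Work.MP_cb380d_ev.B_WDD
import Pool.Agent.Work.MP_cb380d_ev.B_STG
import Pool.Agent.Work.MP_cb380d_ev.B_FFF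
import Pool.Agent.Work.MP_cb380d_ev.B_THR
import Pool.Agent.Work.MP_cb380d_ev.B_ESC
import Pool.Agent.Work.MP_cb380d_ev.B_PLF
import Pool.Agent.Work.MP_cb380d_ev.B_NPD
import Pool.Agent.Work.MP_cb380d_ev.B_NPL
import Pool.Agent.Work.MP_cb380d_ev.B_PST
import Pool.Agent.Work.MP_cb380d_ev.B_PSS
import Pool.Agent.Work.MP_cb380d_ev.B_PFF
import Pool.Agent.Work.MP_cb380d_ev.B_MAI
import Pool.Agent.Work.MP_cb380d_ev.B_EVA
import Pool.Agent.Work.MP_cb380d_ev.B_CBF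
import Pool.Agent.Work.MP_cb380d_ev.B_CMB
import Pool.Agent.Work.MP_cb380d_ev.B_CEL
import Pool.Agent.Work.MP_cb380d_ev.B_XEA
import Pool.Agent.Work.MP_cb380d_ev.B_XEX
import Pool.Agent.Work.MP_cb380d_ev.B_FAC
import Pool.Agent.Work.MP_cb380d_ev.B_NZB
import Pool.Agent.Work.MP_cb380d_ev.B_RS1
import Pool.Agent.Work.MP_cb380d_ev.B_CMS
import Pool.Agent.Work.MP_cb380d_ev.B_RS3
import Pool.Agent.Work.MP_cb380d_ev.B_LSC
import Pool.Agent.Work.MP_cb380d_ev.B_LEC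
import Pool.Agent.Work.MP_cb380d_ev.B_ZSC
import Pool.Agent.Work.MP_cb380d_ev.B_ZMC
import Pool.Agent.Work.MP_cb380d_ev.B_RS2
import Pool.Agent.Work.MP_cb380d_ev.B_DMC
import Pool.Agent.Work.MP_cb380d_ev.B_SMC
import Pool.Agent.Work.MP_cb380d_ev.B_MDV
import Pool.Agent.Work.MP_cb380d_ev.B_LSP
import Pool.Agent.Work.MP_cb380d_ev.B_LEP
import Pool.Agent.Work.MP_cb380d_ev.B_ZMP
import Pool.Agent.Work.MP_cb380d_ev.B_DMP
import Pool.Agent.Work.MP_cb380d_ev.B_SMP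
import Pool.Agent.Work.MP_cb380d_ev.B_SLV
import Pool.Agent.Work.MP_cb380d_ev.B_UST
import Pool.Agent.Work.MP_cb380d_ev.B_SLP
import Pool.Agent.Work.MP_cb380d_ev.B_UPF
import Pool.Agent.Work.MP_cb380d_ev.B_RS4
import Pool.Agent.Work.MP_cb380d_ev.B_EVX
import Pool.Agent.Work.MP_cb380d_ev.B_MVP
import Pool.Agent.Work.MP_cb380d_ev.B_DAF
import Pool.Agent.Work.MP_cb380d_ev.B_DV1
import Pool.Agent.Work.MP_cb380d_ev.B_DV2
import Pool.Agent.Work.MP_cb380d_ev.B_DTZ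
import Pool.Agent.Work.MP_cb380d_ev.B_DIR
import Pool.Agent.Work.MP_cb380d_ev.B_SOL
import Pool.Agent.Work.MP_cb380d_ev.B_KDB
import Pool.Agent.Work.MP_cb380d_ev.B_DVP
import Pool.Agent.Work.MP_cb380d_ev.B_DRP
import Pool.Agent.Work.MP_cb380d_ev.B_SOP
import Pool.Agent.Work.MP_cb380d_ev.B_EVC
import Pool.Agent.Work.MP_cb380d_ev.B_CNX
import Pool.Agent.Work.MP_cb380d_ev.B_LNI
import Pool.Agent.Work.MP_cb380d_ev.B_DVF
import Pool.Agent.Work.MP_cb380d_ev.B_TFP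
import Pool.Agent.Work.MP_cb380d_ev.B_CPP
import Pool.Agent.Work.MP_cb380d_ev.B_GRP
import Pool.Agent.Work.MP_cb380d_ev.B_PTP
import Pool.Agent.Work.MP_cb380d_ev.B_STP
import Pool.Agent.Work.MP_cb380d_ev.B_RNP
import Pool.Agent.Work.MP_cb380d_ev.B_SSP
import Pool.Agent.Work.MP_cb380d_ev.B_RLP
import Pool.Agent.Work.MP_cb380d_ev.B_PLG
import Pool.Agent.Work.MP_cb380d_ev.B_PHC
import Pool.Agent.Work.MP_cb380d_ev.B_CCP
import Pool.Agent.Work.MP_cb380d_ev.B_CTL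
import Pool.Agent.Work.MP_cb380d_ev.B_PSP
import Pool.Agent.Work.MP_cb380d_ev.B_NP3
import Pool.Agent.Work.MP_cb380d_ev.B_EV0
import Pool.Agent.Work.MP_cb380d_ev.B_JMP
import Pool.Agent.Work.MP_cb380d_ev.B_CNT
import Pool.Agent.Work.MP_cb380d_ev.B_FAM
import Pool.Agent.Work.MP_cb380d_ev.B_CPR
import Pool.Agent.Work.MP_cb380d_ev.B_GRC
import Pool.Agent.Work.MP_cb380d_ev.B_AVA
import Pool.Agent.Work.MP_cb380d_ev.B_BTC
import Pool.Agent.Work.MP_cb380d_ev.B_AVB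
import Pool.Agent.Work.MP_cb380d_ev.B_KBC
import Pool.Agent.Work.MP_cb380d_ev.B_PRM
import Pool.Agent.Work.MP_cb380d_ev.B_STC
import Pool.Agent.Work.MP_cb380d_ev.B_CUB
import Pool.Agent.Work.MP_cb380d_ev.B_RDC
import Pool.Agent.Work.MP_cb380d_ev.B_RDT
import Pool.Agent.Work.MP_cb380d_ev.B_NXC
import Pool.Agent.Work.MP_cb380d_ev.B_LYC
import Pool.Agent.Work.MP_cb380d_ev.B_RLC
import Pool.Agent.Work.MP_cb380d_ev.B_DNC
import Pool.Agent.Work.MP_cb380d_ev.B_CCC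
import Pool.Agent.Work.MP_cb380d_ev.B_CNB
import Pool.Agent.Work.MP_cb380d_ev.B_PLC
import Pool.Agent.Work.MP_cb380d_ev.B_PPC
import Pool.Agent.Work.MP_cb380d_ev.B_PSA
import Pool.Agent.Work.MP_cb380d_ev.B_PSC
import Pool.Agent.Work.MP_cb380d_ev.B_SBD
import Pool.Agent.Work.MP_cb380d_ev.B_CER
import Pool.Agent.Work.MP_cb380d_ev.B_MA6
import Pool.Agent.Work.MP_cb380d_ev.B_FI6

/-!
# MP_cb380d_lc, CircuitReductions: assembly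
-/

open Pool.IC Pool.GL Pool.TL Polynomial

namespace Pool.EV

theorem t_P2I : Stmt_P2I := p_P2I
theorem t_NPE : Stmt_NPE := p_NPE t_P2I
theorem t_UNP : Stmt_UNP := p_UNP t_NPE
theorem t_UNC : Stmt_UNC := p_UNC
theorem t_CBA : Stmt_CBA := p_CBA
theorem t_CBP : Stmt_CBP := p_CBP
theorem t_PIS : Stmt_PIS := p_PIS t_CBA t_CBP
theorem t_HVA : Stmt_HVA := p_HVA
theorem t_HVS : Stmt_HVS := p_HVS t_HVA
theorem t_PAR : Stmt_PAR := p_PAR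
theorem t_LCH : Stmt_LCH := p_LCH t_PAR
theorem t_FDD : Stmt_FDD := p_FDD
theorem t_RNS : Stmt_RNS := p_RNS t_HVA t_HVS t_LCH t_FDD
theorem t_RNI : Stmt_RNI := p_RNI t_HVA t_RNS
theorem t_KEP : Stmt_KEP := p_KEP t_HVA t_RNS t_RNI
theorem t_DEC : Stmt_DEC := p_DEC t_RNS t_RNI t_KEP
theorem t_MEM : Stmt_MEM := p_MEM t_HVA t_HVS t_RNI
theorem t_PAD : Stmt_PAD := p_PAD t_RNS t_RNI t_KEP
theorem t_BIT : Stmt_BIT := p_BIT
theorem t_WDD : Stmt_WDD := p_WDD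
theorem t_STG : Stmt_STG := p_STG
theorem t_FFF : Stmt_FFF := p_FFF t_HVA t_KEP t_DEC t_MEM t_PAD t_BIT t_WDD t_STG t_RNI
theorem t_THR : Stmt_THR := p_THR
theorem t_ESC : Stmt_ESC := p_ESC t_THR
theorem t_PLF : Stmt_PLF := p_PLF
theorem t_NPD : Stmt_NPD := p_NPD
theorem t_NPL : Stmt_NPL := p_NPL t_PLF t_NPD t_NPE
theorem t_PST : Stmt_PST := p_PST t_PLF
theorem t_PSS : Stmt_PSS := p_PSS
theorem t_PFF : Stmt_PFF := p_PFF t_PLF t_PST t_PSS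
theorem t_MAI : Stmt_MAI := p_MAI t_FFF t_ESC t_NPL t_PFF
theorem t_EVA : Stmt_EVA := p_EVA t_PLF
theorem t_CBF : Stmt_CBF := p_CBF t_PLF
theorem t_CMB : Stmt_CMB := p_CMB
theorem t_CEL : Stmt_CEL := p_CEL
theorem t_XEA : Stmt_XEA := p_XEA t_CEL
theorem t_XEX : Stmt_XEX := p_XEX t_CEL t_XEA
theorem t_FAC : Stmt_FAC := p_FAC t_XEX
theorem t_NZB : Stmt_NZB := p_NZB
theorem t_RS1 : Stmt_RS1 := p_RS1
theorem t_CMS : Stmt_CMS := p_CMS t_CMB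
theorem t_RS3 : Stmt_RS3 := p_RS3 t_RS1 t_CMS
theorem t_LSC : Stmt_LSC := p_LSC
theorem t_LEC : Stmt_LEC := p_LEC t_LSC t_CEL
theorem t_ZSC : Stmt_ZSC := p_ZSC t_CEL t_LEC
theorem t_ZMC : Stmt_ZMC := p_ZMC t_ZSC
theorem t_RS2 : Stmt_RS2 := p_RS2 t_RS1
theorem t_DMC : Stmt_DMC := p_DMC t_ZMC t_NZB t_RS2
theorem t_SMC : Stmt_SMC := p_SMC t_CMB t_NZB t_RS3 t_DMC
theorem t_MDV : Stmt_MDV := p_MDV t_PLF
theorem t_LSP : Stmt_LSP := p_LSP t_MDV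
theorem t_LEP : Stmt_LEP := p_LEP t_MDV t_LSP
theorem t_ZMP : Stmt_ZMP := p_ZMP t_MDV t_LEP
theorem t_DMP : Stmt_DMP := p_DMP t_PLF t_MDV t_ZMP
theorem t_SMP : Stmt_SMP := p_SMP t_CBF t_ZMP t_DMP
theorem t_SLV : Stmt_SLV := p_SLV
theorem t_UST : Stmt_UST := p_UST t_SLV
theorem t_SLP : Stmt_SLP := p_SLP t_PLF
theorem t_UPF : Stmt_UPF := p_UPF t_PLF t_SLP
theorem t_RS4 : Stmt_RS4 := p_RS4 t_CMS
theorem t_EVX : Stmt_EVX := p_EVX t_PLF t_CBF t_CMB t_FAC t_NZB t_SMC t_ZMP t_SMP t_CMS t_UST t_UPF t_RS4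
theorem t_MVP : Stmt_MVP := p_MVP
theorem t_DAF : Stmt_DAF := p_DAF
theorem t_DV1 : Stmt_DV1 := p_DV1
theorem t_DV2 : Stmt_DV2 := p_DV2 t_DV1
theorem t_DTZ : Stmt_DTZ := p_DTZ t_DV1 t_DV2
theorem t_DIR : Stmt_DIR := p_DIR t_SLV t_DV1 t_DV2
theorem t_SOL : Stmt_SOL := p_SOL t_DTZ t_DAF t_CMB t_DIR
theorem t_KDB : Stmt_KDB := p_KDB
theorem t_DVP : Stmt_DVP := p_DVP t_PLF
theorem t_DRP : Stmt_DRP := p_DRP t_PLF t_SLP t_DVP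
theorem t_SOP : Stmt_SOP := p_SOP t_PLF t_DVP t_CBF t_DRP
theorem t_EVC : Stmt_EVC := p_EVC t_PLF t_MVP t_DAF t_SOL t_KDB t_SOP
theorem t_CNX : Stmt_CNX := p_CNX
theorem t_LNI : Stmt_LNI := p_LNI
theorem t_DVF : Stmt_DVF := p_DVF
theorem t_TFP : Stmt_TFP := p_TFP
theorem t_CPP : Stmt_CPP := p_CPP t_DVF
theorem t_GRP : Stmt_GRP := p_GRP
theorem t_PTP : Stmt_PTP := p_PTP t_DVF t_CPP t_GRP
theorem t_STP : Stmt_STP := p_STP t_DVF t_TFP t_PTP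
theorem t_RNP : Stmt_RNP := p_RNP t_DVF t_TFP t_STP
theorem t_SSP : Stmt_SSP := p_SSP t_STP t_RNP
theorem t_RLP : Stmt_RLP := p_RLP t_RNP
theorem t_PLG : Stmt_PLG := p_PLG
theorem t_PHC : Stmt_PHC := p_PHC t_PLG
theorem t_CCP : Stmt_CCP := p_CCP t_TFP t_SSP t_RLP t_PHC
theorem t_CTL : Stmt_CTL := p_CTL t_PHC
theorem t_PSP : Stmt_PSP := p_PSP t_PLF t_SSP t_CCP t_CTL
theorem t_NP3 : Stmt_NP3 := p_NP3 t_NPD t_NPE t_NPL t_CNX t_PSP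
theorem t_EV0 : Stmt_EV0 := p_EV0
theorem t_JMP : Stmt_JMP := p_JMP
theorem t_CNT : Stmt_CNT := p_CNT t_JMP
theorem t_FAM : Stmt_FAM := p_FAM
theorem t_CPR : Stmt_CPR := p_CPR
theorem t_GRC : Stmt_GRC := p_GRC
theorem t_AVA : Stmt_AVA := p_AVA t_CPR
theorem t_BTC : Stmt_BTC := p_BTC t_CPR t_GRC t_AVA
theorem t_AVB : Stmt_AVB := p_AVB t_CPR
theorem t_KBC : Stmt_KBC := p_KBC t_CPR t_GRC t_AVB
theorem t_PRM : Stmt_PRM := p_PRM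
theorem t_STC : Stmt_STC := p_STC t_FAM t_BTC t_KBC t_PRM t_PLG
theorem t_CUB : Stmt_CUB := p_CUB
theorem t_RDC : Stmt_RDC := p_RDC t_PLG t_CUB
theorem t_RDT : Stmt_RDT := p_RDT t_FAM t_CUB
theorem t_NXC : Stmt_NXC := p_NXC t_CUB t_RDT
theorem t_LYC : Stmt_LYC := p_LYC t_STC t_CUB t_RDC t_NXC t_PHC
theorem t_RLC : Stmt_RLC := p_RLC
theorem t_DNC : Stmt_DNC := p_DNC t_CUB t_RLC
theorem t_CCC : Stmt_CCC := p_CCC t_PHC t_LYC t_DNC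
theorem t_CNB : Stmt_CNB := p_CNB
theorem t_PLC : Stmt_PLC := p_PLC t_PLG
theorem t_PPC : Stmt_PPC := p_PPC t_PHC t_CNB t_PLC
theorem t_PSA : Stmt_PSA := p_PSA
theorem t_PSC : Stmt_PSC := p_PSC t_PHC t_CCC t_PPC t_CNX t_PSA
theorem t_SBD : Stmt_SBD := p_SBD
theorem t_CER : Stmt_CER := p_CER t_TFP t_CNT t_PSC t_PSP t_SBD
theorem t_MA6 : Stmt_MA6 := p_MA6 t_MAI t_EVA t_EVX t_EVC t_CNX t_LNI t_NP3 t_EV0 t_CER
theorem t_FI6 : Stmt_FI6 := p_FI6 t_UNP t_UNC t_PIS t_MA6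

end Pool.EV
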