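import Pool.Agent.Work.MP_cb380d_ev.Defs

/-!
# MP_cb380d_lc, EvasiveReductions, PART A: the strings, the run, the stages (pure mathematics)

Block `X`: file `Pool/Agent/Work/MP_cb380d_ev/B_X.lean`, `import ...MP_cb380d_ev.InterfaceA`,
`open Pool.IC Pool.GL Pool.TL Polynomial`, `namespace Pool.EV`, `theorem p_X (hY : Stmt_Y) .. :
Stmt_X` with exactly the blocks of the column `uses` (in this order) as hypotheses; auxiliary
lemmas with prefix `X_`. `un n = List.replicate n true`.
-/

open Pool.IC Pool.GL Pool.TL Polynomial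

namespace Pool.EV

/-- HVA (150). Frames. Proof. `lead (un n ++ false :: y) = n`, `rst (un n ++ false :: y) = y`
(induction on `n`; `List.drop_append`), so for `z = frm ν K y`: `lead z = ν`,
`rst z = un K ++ false :: y`, `lead (rst z) = K`, `rst (rst z) = y`, and `hv z` is the list of the
`((y.drop (j * K)).take K).any id`, `j < ν`. The length is clear. Entry `l` of `hv z` is `false`
iff all entries of block `l` are `false`: `z[lo ν K l + i]? = y[l * K + i]?` for all `i` (
`List.getElem?_append_right`), `y.length = ν * K` and `l * K + K ≤ ν * K`. For the start: all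
entries of `List.replicate (ν * K) false` are `false`. -/
def Stmt_HVA : Prop := (∀ (ν K : ℕ) (z : Str), Fr ν K z →
    z.length = ν + K + 2 + ν * K ∧ (hv z).length = ν ∧
    ∀ l < ν, lo ν K l + K ≤ z.length ∧ ((hv z)[l]? = some false ↔
      ∀ j, lo ν K l ≤ j → j < lo ν K l + K → z[j]? = some false)) ∧
  ∀ ν K : ℕ, Fr ν K (frm ν K (List.replicate (ν * K) false)) ∧
    hv (frm ν K (List.replicate (ν * K) false)) = List.replicate ν false

/-- HVS (180), uses HVA. Changing one block. Proof. Let `z = frm ν K y`. `z'` agrees with `z` on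
the positions `< ν + K + 2 ≤ lo ν K l`, so `z' = frm ν K y'` with `y' = z'.drop (ν + K + 2)` (
`z' = z'.take (ν+K+2) ++ z'.drop (ν+K+2)` and `z'.take (ν+K+2) = z.take (ν+K+2) =
un ν ++ false :: (un K ++ [false])`; use `List.ext_getElem?`), `y'.length = ν * K`. For `j ≠ l`
the blocks `j` of `y` and `y'` agree, so the entries `j` of `hv` agree. For `l`: block `l` of `z`
is zero by HVA and `z' ≠ z`, so some position of block `l` differs (all other positions agree), where
`z'` is `true`: entry `l` of `hv z'` is `true` (by the equivalence of HVA for `z'`). Conclude by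
`List.ext_getElem?`. -/
def Stmt_HVS : Prop := ∀ (ν K l : ℕ) (z z' : Str), Fr ν K z → l < ν → (hv z)[l]? = some false →
  z'.length = z.length → z' ≠ z →
  (∀ j, j < lo ν K l ∨ lo ν K l + K ≤ j → z'[j]? = z[j]?) →
  Fr ν K z' ∧ hv z' = (hv z).set l true

/-- PAR (60). Parity. Proof. `parity (a ++ b) = xor (parity a) (parity b)` (
`List.foldl_append` and `foldl xor c w = xor c (foldl xor false w)` by induction); `w.set l true`
differs from `w` in one entry; induction on `w` generalizing `l`, with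
`parity (a :: w) = xor a (parity w)`. -/
def Stmt_PAR : Prop := ∀ (w : List Bool) (l : ℕ), w[l]? = some false →
  parity (w.set l true) = !(parity w)

/-- LCH (60), uses PAR. The status changes. Proof. `hv z = false :: w` and
`hv z' = (false :: w).set (l + 1) true = false :: w.set l true` with `w[l]? = some false`. Both
heads are `false`, so membership is the parity of the tails (unfold `lang`), use PAR. -/
def Stmt_LCH : Prop := ∀ (D : Set Str) (l : ℕ) (z z' : Str), (hv z)[0]? = some false →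
  (hv z)[l + 1]? = some false → hv z' = (hv z).set (l + 1) true → (z ∈ lang D ↔ z' ∉ lang D)

/-- FDD (60). The first difference. Proof. If `u ≠ v` there is `b` with `u[b]? ≠ v[b]?` (
`List.ext_getElem?`), and `b < u.length + v.length` (otherwise both are `none`). So the filtered
list is not empty and its head is a member. -/
def Stmt_FDD : Prop := ∀ u v : Str, u ≠ v → u[fd u v]? ≠ v[fd u v]?

/-- RNS (200), uses HVA, HVS, LCH, FDD. One step. Proof. Let `z = s.1`, `T = s.2.1` (length
`n < ν - 1`), `z' = es esc z T (lo ν K (n + 1)) K`. Entry `n + 1` of `hv z` is `false` (it is entry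
`n` of `s.2.2 ++ replicate (ν - 1 - n) false`, `s.2.2.length = n`, `n < ν - 1`), so block `n + 1` is
zero by HVA and `Esc` applies (`T.length = n < ν`). HVS: `Fr ν K z'` and `hv z' =
(hv z).set (n + 1) true`. LCH: the statuses differ, `Sep`: `g z ≠ g z'`, FDD: the symbols at
`b = fd (g z) (g z')` differ. `b ∉ T` because the symbols in `T` agree. The new state has string
`z'` or `z`, positions `b :: T`, bits `s.2.2 ++ [c]`, where `c` is `true` iff the string is `z'`;
`(false :: (w ++ replicate (m + 1) false)).set (n + 1) true = false :: ((w ++ [true]) ++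
replicate m false)` with `w.length = n`, `m + 1 = ν - 1 - n`. -/
def Stmt_RNS : Prop := ∀ (g : Str → Str) (esc : Str × List ℕ × ℕ × ℕ → Str)
  (ch : ℕ → Str → Str → ℕ → Bool) (ν K n : ℕ) (D : Set Str) (s : St), Esc g esc ν K → Sep g D →
  Inv ν K n s → n < ν - 1 →
  (∀ b ∈ s.2.1, (g (es esc s.1 s.2.1 (lo ν K (n + 1)) K))[b]? = (g s.1)[b]?) ∧
  (g s.1)[fd (g s.1) (g (es esc s.1 s.2.1 (lo ν K (n + 1)) K))]? ≠
    (g (es esc s.1 s.2.1 (lo ν K (n + 1)) K))[fd (g s.1)
      (g (es esc s.1 s.2.1 (lo ν K (n + 1)) K))]? ∧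
  fd (g s.1) (g (es esc s.1 s.2.1 (lo ν K (n + 1)) K)) ∉ s.2.1 ∧
  Inv ν K (n + 1) (stp g esc ch ν K s n)

/-- RNI (60), uses HVA, RNS. All states. Proof. Induction on `n`: `rn .. (n + 1) =
stp .. (rn .. n) n` by `List.range_succ`, `List.foldl_append`. Start by HVA (`Esc` gives `0 < ν`:
`replicate ν false = false :: replicate (ν - 1) false`). -/
def Stmt_RNI : Prop := ∀ (g : Str → Str) (esc : Str × List ℕ × ℕ × ℕ → Str)
  (ch : ℕ → Str → Str → ℕ → Bool) (ν K n : ℕ) (D : Set Str), Esc g esc ν K → Sep g D →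
  n ≤ ν - 1 → Inv ν K n (rn g esc ch ν K n)

/-- KEP (150), uses HVA, RNS, RNI. The recorded symbols do not change any more. Proof. (1) Step:
for `n < ν - 1` the string of state `n + 1` is that of state `n` or the escaped one, so by RNS the
symbols in the list `T_n` of state `n` agree for both strings. (2) `T_n ⊆ T_(n+1)`. So for
`m ≤ n ≤ ν - 1` all symbols in `T_m` agree for the strings of the states `m` and `n` (induction on
`n`). (3) The last escape (block 0, zero by `Inv` and HVA) keeps the symbols in `T_(ν - 1) ⊇ T_m`. -/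
def Stmt_KEP : Prop := ∀ (g : Str → Str) (esc : Str × List ℕ × ℕ × ℕ → Str)
  (ch : ℕ → Str → Str → ℕ → Bool) (ν K m : ℕ) (D : Set Str), Esc g esc ν K → Sep g D →
  m ≤ ν - 1 → ∀ b ∈ (rn g esc ch ν K m).2.1,
    (g (zf g esc ch ν K))[b]? = (g (rn g esc ch ν K m).1)[b]?

/-- DEC (120), uses RNS, RNI, KEP. Decoding. Proof. Induction on `n`, `o = g (zf g esc ch ν K)`. In
step `n + 1` both runs have the same state `s` and the same `z'`, `b`. Let `c` be the choice of
`ch`; state `n + 1` of the run with `ch` has string `z'` if `c` and `s.1` otherwise, and contains `b`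
in its list, so by KEP `o[b]?` is the symbol of `g` of that string; it is equal to `(g z')[b]?` iff
`c = true` by RNS (the symbols of `s.1` and `z'` at `b` differ). So `chD` makes the same choice. -/
def Stmt_DEC : Prop := ∀ (g : Str → Str) (esc : Str × List ℕ × ℕ × ℕ → Str)
  (ch : ℕ → Str → Str → ℕ → Bool) (ν K n : ℕ) (D : Set Str), Esc g esc ν K → Sep g D →
  n ≤ ν - 1 → rn g esc (chD g (g (zf g esc ch ν K))) ν K n = rn g esc ch ν K n

/-- MEM (80), uses HVA, HVS, RNI. The final string. Proof. State `ν - 1`: `hv s.1 = false :: bits`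
(`Inv` with `n = ν - 1`), so block 0 is zero, `Esc` and HVS (with `l = 0`) give
`hv (zf ..) = true :: bits`; unfold `lang`. -/
def Stmt_MEM : Prop := ∀ (g : Str → Str) (esc : Str × List ℕ × ℕ × ℕ → Str)
  (ch : ℕ → Str → Str → ℕ → Bool) (ν K : ℕ) (D : Set Str), Esc g esc ν K → Sep g D →
  (zf g esc ch ν K ∈ lang D ↔ dcd (rn g esc ch ν K (ν - 1)).2.2 ∈ D)

/-- PAD (180), uses RNS, RNI, KEP. The output is long. Proof. Let `b_l` be the position recorded in
step `l + 1` (`l < ν - 1`). The `b_l` are distinct (RNS: `b ∉ T`, the list of state `n` consists of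
`b_0, .., b_(n-1)`; so the list of state `ν - 1` has no duplicates). If `w.getD l none = none` then
the chosen string at step `l + 1` has a symbol `≠ none` at `b_l`: the choice is
`((g z)[b]?).isNone`; if it is `false` the string is `z` and `(g z)[b]? ≠ none`; if it is `true` the
string is `z'` and `(g z')[b]? ≠ (g z)[b]? = none`. By KEP (state `l + 1`) the symbol of the output
at `b_l` is not `none`: `b_l < |g (zf ..)|`. So `l ↦ b_l` is injective from
`{l < ν - 1 | w.getD l none = none}` into `Finset.range |g (zf ..)|`. -/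
def Stmt_PAD : Prop := ∀ (g : Str → Str) (esc : Str × List ℕ × ℕ × ℕ → Str)
  (w : List (Option Bool)) (ν K : ℕ) (D : Set Str), Esc g esc ν K → Sep g D →
  ((Finset.range (ν - 1)).filter fun l => w.getD l none = none).card ≤
    (g (zf g esc (chE g w) ν K)).length

/-- BIT (80). The bits of the encoder are those of the word. Proof. Induction on `n`: the list of
bits of state `n` has length `n` and entry `l < n` is the choice in step `l + 1`, which is `c` if
`w[l]? = some (some c)`. -/
def Stmt_BIT : Prop := ∀ (g : Str → Str) (esc : Str × List ℕ × ℕ × ℕ → Str)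
  (w : List (Option Bool)) (ν K n : ℕ), (rn g esc (chE g w) ν K n).2.2.length = n ∧
  ∀ (l : ℕ) (c : Bool), l < n → w[l]? = some (some c) →
    (rn g esc (chE g w) ν K n).2.2[l]? = some c

/-- WDD (100). The word of `x`. Proof. Length: `(2 |x| + 1) + (ν - 2 - 2 |x|)`. If a list `v` has
the entries of `un |x| ++ false :: x` at the positions `≤ 2 |x|` then
`v = un |x| ++ false :: (x ++ r)` for some `r` (`r = v.drop (2 |x| + 1)`), `lead v = |x|`,
`rst v = x ++ r`, so `dcd v = x`. The number of `none`: exactly the positions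
`2 |x| + 1 ≤ l < ν - 1`. -/
def Stmt_WDD : Prop := ∀ (x : Str) (ν : ℕ), 4 * x.length + 4 ≤ ν →
  (wd x ν).length = ν - 1 ∧
  (∀ v : List Bool, v.length = ν - 1 → (∀ (l : ℕ) (c : Bool), l < ν - 1 →
    (wd x ν)[l]? = some (some c) → v[l]? = some c) → dcd v = x) ∧
  ν ≤ 2 * ((Finset.range (ν - 1)).filter fun l => (wd x ν).getD l none = none).card

/-- STG (120). The stages. Proof. Let `φ m = if m < M then m ^ E else m`, `M = 4 n + 4`, and
`nu k = (· ^ E)^[k] a`, `nu k ≥ k + 2` (`E ≥ 2`, `a ≥ 2`: `m ^ 2 ≥ m + 1`...). `φ^[k] a = nu j`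
with `j ≤ k`, and either `j = k` or `nu j ≥ M` (induction on `k`). After `M` steps: `nu M ≥ M` or
`nu j ≥ M`, in both cases `st a E n ≥ M`, and `st a E n = nu j` where `j` is the least index with
`nu j ≥ M` (all earlier values are `< M`). (2) `j` minimal: `j = 0` or `nu (j - 1) < M`, so
`st a E n ≤ max a (M ^ E)`. (3) If `st a E n < st a E n'`, with indices `j < j'` (`nu` is strictly
increasing), then `(nu j) ^ E = nu (j + 1) ≤ nu j'`. -/
def Stmt_STG : Prop := ∀ a E : ℕ, 2 ≤ a → 2 ≤ E → (∀ n, 4 * n + 4 ≤ st a E n ∧ a ≤ st a E n ∧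
    st a E n ≤ a + (4 * n + 4) ^ E) ∧
  ∀ n n', st a E n < st a E n' → st a E n ^ E ≤ st a E n'

/-- THR (180). The parameters. Proof. `t = 2 c k + 2 k + 1`. For `ν ≥ max (2 c) 5` and `K = ν ^ t`:
`c (ν + 1) ≤ 2 c ν ≤ ν ^ 2`, `ν + K + 2 + ν K ≤ 5 ν K ≤ ν ^ 2 K`, so the left side is at most
`ν ^ (2 c k) (ν ^ 2 K) ^ (k - 1) ≤ ν ^ (2 c k + 2 (k - 1)) K ^ (k - 1) < K K ^ (k - 1) = K ^ k`.
For a polynomial `p` there are `C`, `e` with `p.eval n ≤ C n ^ e` for `n ≥ 1` (induction on the
polynomial, or `Polynomial.eval_eq_sum` with `e` = degree and `C` = sum of coefficients); with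
`n ≤ ν ^ (t + 2)`: `2 p.eval n ≤ 2 C ν ^ (e (t + 2)) < ν ^ (e (t + 2) + 1)` for `ν > 2 C`; take
`E = e (t + 2) + 2`, `a = 2 c + 2 C + 5`. -/
def Stmt_THR : Prop := ∀ (c k : ℕ) (p : Polynomial ℕ), 0 < k → ∃ t a E : ℕ, 2 ≤ E ∧ 5 ≤ a ∧
  ∀ ν : ℕ, a ≤ ν → 0 < ν ^ t ∧
    (c * (ν + 1)) ^ (c * k) * (ν + ν ^ t + 2 + ν * ν ^ t) ^ (k - 1) < (ν ^ t) ^ k ∧
    2 * p.eval (ν + ν ^ t + 2 + ν * ν ^ t) < ν ^ E

/-- FFF (200), uses HVA, KEP, DEC, MEM, PAD, BIT, WDD, STG, RNI. The new reduction. Hypotheses: `Esc` and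
the bound of the output length at all stages. Proof. Let `ν = st a E |x|`, `K = ν ^ t`,
`w = wd x ν`. (1) Reduction: MEM, and `dcd bits = x` by BIT (`n = ν - 1`) and WDD; so
`zf ∈ lang D ↔ x ∈ D`. (2) Length: WDD (third part), PAD: `ν ≤ 2 |ff x|`, and
`ν ≥ 4 |x| + 4`. (3) `dc (ff x) |x| = x`: DEC with `n = ν - 1`, then as in (1). (4) `ff` is
injective: let `ff x = ff x'`. If the stages are equal, then `x = dc (ff x) |x| = dc (ff x') |x'| =
x'` (`dc` depends on `n` only through the stage). If `st |x| < st |x'|` (the other case is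
symmetric): `2 |ff x| ≤ 2 p(N) < ν ^ E ≤ st |x'| ≤ 2 |ff x'|`, where `N` is the length of
`zf` (its length is that of `Fr`: by `Esc` the last string has the length of the string of state
`ν - 1`, `Inv`, HVA), a contradiction. (5) `fi (ff x) = x`: `|x| < |ff x|`, so `x = dc (ff x) |x|` is
a member of the filtered list; its head `x''` satisfies `ff x'' = ff x`, so `x'' = x` by (4). -/
def Stmt_FFF : Prop := ∀ (g : Str → Str) (esc : Str × List ℕ × ℕ × ℕ → Str) (D : Set Str)
  (t a E : ℕ) (p : Polynomial ℕ), Sep g D → 2 ≤ E → 5 ≤ a → (∀ z : Str, (g z).length ≤ p.eval z.length) →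
  (∀ ν, a ≤ ν → Esc g esc ν (ν ^ t) ∧ 2 * p.eval (ν + ν ^ t + 2 + ν * ν ^ t) < ν ^ E) →
  (∀ x, (zf g esc (chE g (wd x (st a E x.length))) (st a E x.length) (st a E x.length ^ t) ∈
    lang D ↔ x ∈ D)) ∧ (∀ x, x.length < (ff g esc t a E x).length) ∧
  ∀ x, fi g esc t a E (ff g esc t a E x) = x

/-- ESC (80), uses THR. From `Evasive` to `Esc`. Proof. `es esc z T a K = esc (z, T, a, K)` because
the length is right. The hypothesis of `Evasive`: `T.length + 1 ≤ ν + 1`, monotonicity. -/
def Stmt_ESC : Prop := ∀ (B : Set Str) (g : Str → Str) (p : Polynomial ℕ), Evasive B g →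
  ∃ (esc : Str × List ℕ × ℕ × ℕ → Str) (t a E : ℕ), PolyF B esc ∧ 2 ≤ E ∧ 5 ≤ a ∧
    ∀ ν, a ≤ ν → Esc g esc ν (ν ^ t) ∧ 2 * p.eval (ν + ν ^ t + 2 + ν * ν ^ t) < ν ^ E

end Pool.EV
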