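import Pool.Agent.Work.MP_cb380d_ev.InterfaceA

/-!
# MP_cb380d_lc, EvasiveReductions, PART B: complexity

Block `X`: file `Pool/Agent/Work/MP_cb380d_ev/B_X.lean`, `import ...MP_cb380d_ev.InterfaceB`,
`open Pool.IC Pool.GL Pool.TL Polynomial`, `namespace Pool.EV`, `theorem p_X (hY : Stmt_Y) .. :
Stmt_X` with exactly the blocks of the column `uses` (in this order) as hypotheses; auxiliary
lemmas with prefix `X_`.

THE TYPED LAYER (`Pool/Agent/Work/OracleTyped_h80/{Base,Lib,Lib2}.lean`, namespace `Pool.TL`):
`PolyF B f` for `f : α → β` with `[SE α] [SE β]` (instances: `Unit`, `Bool`, `ℕ` (unary), `α × β`,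
`List α`, `Option α`, `Raw` = strings encoded by themselves). `fun_prop` proves it for: identity,
constants, composition, pairs, `.1`, `.2`, `cond`/`bif` and `if` (`PolyF.ite'`, condition
`PolyF B (fun a => decide (c a))`), `! && ||`, `xor`, `∧ ∨ ¬` inside of `decide`, `n + 1`, `n - 1`,
`+ - *` on `ℕ`, `≤ < =` on `ℕ`, equality on all encoded types (`PolyF.eq`), `::`, `tail`, `headD`,
`head?`, `isEmpty`, `reverse`, `++`, `length`, `drop`, `take`, `getD`, `l[n]?`, `List.range`,
`List.replicate`, `Option.isSome/isNone/getD/some`, `Polynomial.eval`, `PolyF.toRaw`,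
`PolyF.ofRaw`. By hand (`refine PolyF.map (f := fun a b => ..) ?_ ?_` etc.): `map`, `flatMap`,
`filter`, `all`, `any`, `foldl` (polynomial bound along the fold), `foldl_add` (every step adds at
most `K.eval (sz a)`), `iterate_add`, `pow`, `sum`; `PolyF.congrF` changes the function,
`PolyF.size` gives the polynomial bound of `sz (f a)`. `sz` is the length of the encoding; simp
lemmas `sz_pair`, `sz_cons`, `sz_nat`, `sz_append`, ..; `sz_str : sz z = 4 * z.length`.
`polyFun_iff_polyF : PolyFun B f ↔ PolyF B f`, `PolyF.raw_iff`, `polyFun_iff : PolyFun B f ↔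
FP {B} (fun _ => f)`, `PolyF.out`/`PolyF.mk` (the definition). Raw level: `lib : Lib`, `tls`, `una`,
`run : Stmt_RUN` (clocked universal simulation), `lst` (see MP_af7a01_gl/InterfaceA.lean).
Given a hypothesis `hg : PolyF B g`, `fun_prop` uses it for `fun a => g (..)`.
-/

open Pool.IC Pool.GL Pool.TL Polynomial

namespace Pool.EV

/-- PLF (180). The basic functions. Proof. `lead`: `foldl` over `z` with state (count, still in the
leading ones?). `rst`, `dcd` by `fun_prop`. `hv`: `map` over `List.range (lead z)`, inner `any` with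
`PolyF.any` (`id`). `parity`: `foldl_add` (state `Bool`, size 1). `fd`: `filter` over `List.range`,
`headD`. `frm ν K (List.replicate (ν * K) false)` with `un n = List.replicate n true`. `es`, `wd`.
`add`: `List.zipWith xor z u = (List.range (min |z| |u|)).map fun j => xor (z.getD j false)
(u.getD j false)` (`min` as `a - (a - b)`). `plc`. `z.modify v not` =
`(List.range z.length).map fun j => if j = v then !(z.getD j false) else z.getD j false`. -/
def Stmt_PLF : Prop := ∀ B : Set Str, PolyF B lead ∧ PolyF B rst ∧ PolyF B hv ∧ PolyF B dcd ∧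
  PolyF B parity ∧ PolyF B (fun p : Str × Str => fd p.1 p.2) ∧
  PolyF B (fun p : ℕ × ℕ => frm p.1 p.2 (List.replicate (p.1 * p.2) false)) ∧
  PolyF B (fun p : Str × ℕ => wd p.1 p.2) ∧ PolyF B (fun p : Str × Str => add p.1 p.2) ∧
  PolyF B (fun p : ℕ × ℕ × Str => plc p.1 p.2.1 p.2.2) ∧
  PolyF B (fun p : Str × ℕ => p.1.modify p.2 not) ∧ PolyF B (fun p : ℕ × ℕ => ev p.1 p.2) ∧
  (∀ esc : Str × List ℕ × ℕ × ℕ → Str, PolyF B esc →
    PolyF B (fun p : Str × List ℕ × ℕ × ℕ => es esc p.1 p.2.1 p.2.2.1 p.2.2.2))

/-- NPD (120). From `InNP` to the typed form. Proof. Let `M, q, r, V` be as in `InNP`. By `run`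
there is `R` in `FP Set.univ` (hence `FP {B}`: `FP.mono`, see `MP_af7a01_gl/Base.lean`) with
`R B (pr w (pr (code M) (pr [] (pr y z)))) = opt (out B (dec (code M)) [] y z w.length)`,
`dec (code M) = M` (`p_COD`, import `Pool.Agent.Work.MP_af7a01_gl.B_COD`). With
`w = un (q.eval (|y| + |z|))` (`una` applied to the string `y ++ z`) this is
`true :: [decide ((y, z) ∈ V)]`. So the function of `(y, z) : Raw × Raw` with value
`(R ..).tail` is `[decide ((y, z) ∈ V)] = se (decide ..)`: `PolyF B (fun p : Raw × Raw =>
decide ((p.1.s, p.2.s) ∈ V))` (classical `decide`), and by `PolyF.toRaw` the same on `Str × Str`. -/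
def Stmt_NPD : Prop := ∀ B L : Set Str, InNP B L →
  ∃ (V : Str × Str → Bool) (r : Polynomial ℕ), PolyF B V ∧
    (∀ y z, V (y, z) = true → y.length ≤ r.eval z.length) ∧ ∀ z, z ∈ L ↔ ∃ y, V (y, z) = true

/-- P2I (150). Two input stacks. Proof. As block PAI of MP_af7a01_gl (`B_PAI.lean`): start: `y` on
stack 1, `z` on stack 2. Program: `mv 1 4` (stack 4 = reverse of `y`); `push 2 false`; loop on
stack 4 putting `mark y` in front of stack 2 (`push 2 b; push 2 true`); now stack 2 is `pr y z`
and all other stacks are empty; then the clean program of `F` (`tTOC`) with base 2, output on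
stack 3. Conclude with `out_of_exec`, `out_mono`; time `≤ 20 (|y| + |z|) + 20 +
q_F (2 |y| + |z| + 1)`. -/
def Stmt_P2I : Prop := ∀ (B : Set Str) (F : Str → Str), FP {B} (fun _ => F) →
  ∃ (M : Cmd) (q : Polynomial ℕ), ∀ y z : Str,
    out B M [] y z (q.eval (y.length + z.length)) = some (F (pr y z))

/-- NPE (80), uses P2I. From the typed form to `InNP`. Proof. `PolyF B (fun p : Raw × Raw =>
V (p.1.s, p.2.s))` (`fun_prop`, `PolyF.ofRaw`), so there is `F` in `FP {B}` with
`F (pr y z) = [V (y, z)]`; P2I; the set of pairs is `{p | V p = true}`. -/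
def Stmt_NPE : Prop := ∀ (B L : Set Str) (V : Str × Str → Bool) (r : Polynomial ℕ), PolyF B V →
  (∀ y z, V (y, z) = true → y.length ≤ r.eval z.length) → (∀ z, z ∈ L ↔ ∃ y, V (y, z) = true) →
  InNP B L

/-- NPL (100), uses PLF, NPD, NPE. The language is in NP. Proof. With `V, r` for `D` take
`V' (y, z) = if (hv z).headD false = true then V (y, dcd (hv z).tail) else
(decide (y = []) && parity (hv z).tail)`. Witness length: `|dcd w| ≤ |w| ≤ |hv z| = lead z ≤ |z|`
and monotonicity of `r` (`poly_mono`). -/
def Stmt_NPL : Prop := ∀ B D : Set Str, InNP B D → InNP B (lang D)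

/-- PST (250), uses PLF. The run in polynomial time. Proof. `PolyF.foldl` over `List.range n` with
context `p = (c, ν, K, n)`, start `(frm .., [], [])`, step `stp`. The step is in `PolyF` (`PLF`,
`hg`, `hesc`, `hch`; introduce the context `(p, s, l)`; prove first that `z' = es ..`, then
`b = fd (g z) (g z')`, then the choice are in `PolyF` as functions of `(p, s, l)`). Bound along the
fold: the string always has the length of the start string (`es` preserves the length), the list
of positions has at most `j` entries, each `fd u v ≤ |u| + |v| ≤ 2 q` where `q` bounds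
`|g z|` for strings of the start length (`PolyF.size hg`, `sz_str`, `length_le_sz`), the bits have
size `4 j`. The start length `ν + K + 2 + ν K` is bounded by a polynomial in `sz p`
(`PolyF.size` of the start function). -/
def Stmt_PST : Prop := ∀ (B : Set Str) (g : Str → Str) (esc : Str × List ℕ × ℕ × ℕ → Str),
  PolyF B g → PolyF B esc → ∀ (γ : Type) [SE γ] (ch : γ → ℕ → Str → Str → ℕ → Bool),
  PolyF B (fun p : γ × ℕ × Str × Str × ℕ => ch p.1 p.2.1 p.2.2.1 p.2.2.2.1 p.2.2.2.2) →
  PolyF B (fun p : γ × ℕ × ℕ × ℕ => rn g esc (ch p.1) p.2.1 p.2.2.1 p.2.2.2)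

/-- PSS (120). The stages in polynomial time. Proof. `PolyF.foldl` over `units (4 n + 4)` (
`foldl_units`), step `m ↦ if m < 4 n + 4 then m ^ E else m` (`PolyF.pow`), all values are
`≤ a + (4 n + 4) ^ E` (induction: a value `< 4 n + 4` gives `≤ (4 n + 4) ^ E`, otherwise no
change). -/
def Stmt_PSS : Prop := ∀ (B : Set Str) (a E : ℕ), PolyF B (fun n : ℕ => st a E n)

/-- PFF (180), uses PLF, PST, PSS. The new reduction and its inverse. Proof. `chE g w l z z' b =
(w.getD l none).getD ((g z)[b]?).isNone` with `γ = List (Option Bool)`, `chD g o l z z' b =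
decide (o[b]? = (g z')[b]?)` with `γ = Str`. Compose PST with `x ↦ (wd x ν, ν, ν ^ t, ν - 1)`,
`ν = st a E x.length` (`PolyF.pow`). `fi`: `map`, `filter`, `headD`. -/
def Stmt_PFF : Prop := ∀ (B : Set Str) (g : Str → Str) (esc : Str × List ℕ × ℕ × ℕ → Str)
  (t a E : ℕ), PolyF B g → PolyF B esc → PolyF B (ff g esc t a E) ∧ PolyF B (fi g esc t a E)

/-- MAI (100), uses FFF, ESC, NPL, PFF. The theorem for evasive reductions. Proof. `g` is in
`PolyFun`, hence (`polyFun_iff_polyF`) in `PolyF`, `PolyF.size` and `sz_str` give a polynomial `p`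
with `|g z| ≤ p |z|`. `Sep g D`: if `g z = g z'` then `z ∈ lang D ↔ g z ∈ A ↔ g z' ∈ A ↔
z' ∈ lang D`. ESC gives `esc, t, a, E`. FFF and PFF: `f = ff g esc t a E`, `f' = fi g esc t a E`;
`x ∈ D ↔ zf .. ∈ lang D ↔ g (zf ..) = ff x ∈ A`. -/
def Stmt_MAI : Prop := ∀ B D : Set Str, InNP B D → InNP B (lang D) ∧
  ∀ (A : Set Str) (g : Str → Str), Karp B (lang D) A g → Evasive B g → ∃ f, Strong B D A f

/-- EVA (200), uses PLF. Low sensitivity. Proof. `c = C + 1`, the same `k`. `esc (z, T, a, K) =
z.modify v not` where `v` is the head (default `a`) of the list of the `v` in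
`(List.range K).map (a + ·)` such that `(g (z.modify v not))[b]? = (g z)[b]?` for all `b` in `T`
(`filter`, `all`). Counting: if there is no such `v`, the `K` positions of the interval are
covered by the sets of LowSensitivity for `b ∈ T`, so `K ≤ ∑ b ∈ T, card ≤ |T| s` for the
largest `card = s` (or: some `b` has `K ≤ |T| card`), `K ^ k ≤ |T| ^ k C N ^ (k - 1) <`
contradiction, since `C |T| ^ k ≤ (c (|T| + 1)) ^ (c k)`. The new string differs from `z` exactly at
`v < z.length`. -/
def Stmt_EVA : Prop := ∀ (B : Set Str) (g : Str → Str), PolyF B g → LowSensitivity g → Evasive B g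

/-- SLV (200). The solver. Proof. Invariant of the list `V` after the functionals `Q'`: all vectors
have length `R`; the first components are distinct (`Nodup` of `V.map Prod.fst`) and `< R`; for
`(c, v), (c', v') ∈ V`: `v.getD c false = true` and `v.getD c' false = false` for `c' ≠ c`;
`F q v = false` for `q ∈ Q'`; `R ≤ |V| + |Q'|`. Start: unit vectors. Step: if `bad = V.filter (F q)`
is empty nothing changes; otherwise `p` = head of `bad`, the others of `bad` are replaced by
`v + p`: coordinate `c` of `v + p` is `true xor false`, coordinate `c'` of another one is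
`false xor false` (the pivot is removed); additivity gives `F q (v + p) = false` and preserves the
earlier functionals. `V.filter good ++ bad` has the length of `V`. At the end `|V| ≥ R - |Q| > 0`,
so the head is a member. -/
def Stmt_SLV : Prop := ∀ (γ : Type) (R : ℕ) (Q : List γ) (F : γ → Str → Bool),
  (∀ q ∈ Q, ∀ u v : Str, u.length = R → v.length = R → F q (add u v) = xor (F q u) (F q v)) →
  Q.length < R → (slv R Q F).length = R ∧ true ∈ slv R Q F ∧ ∀ q ∈ Q, F q (slv R Q F) = false

/-- SLP (180), uses PLF. The solver in polynomial time. Proof. `foldl_add` over `Q x` with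
`K = 0`: `sz (slvs f V) ≤ sz V` for all `V` (`filter` splits the size, `tail` and `add` do not
increase it: `(add v p).length ≤ v.length`). The step `(x, V, q) ↦ slvs (F x q) V`: two `filter`s,
`tail`, `map` with the pivot computed from the same context. -/
def Stmt_SLP : Prop := ∀ (B : Set Str) (γ δ : Type) [SE γ] [SE δ] (R : δ → ℕ) (Q : δ → List γ)
  (F : δ → γ → Str → Bool), PolyF B R → PolyF B Q →
  PolyF B (fun p : δ × γ × Str => F p.1 p.2.1 p.2.2) → PolyF B (fun x => slv (R x) (Q x) (F x))

/-- EVB (200), uses PLF, SLV, SLP. Parity certificates. Proof. `c = C + 1`, the same `k`;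
`esc (z, T, a, K) = add z (plc z.length a (slv K (T.flatMap fun b => cert (z, b)) fun S v =>
par (plc z.length a v) S))`. The functionals are additive: `plc N a (add u v) =
add (plc N a u) (plc N a v)` for `|u| = |v| = K`, `a + K ≤ N`, and `par (add z u) S =
xor (par z S) (par u S)` for `|u| = |z|`. Number of lists: `|Q| ≤ ∑ b ∈ T, |cert (z, b)| < K`, as in
EVA (for some `b`: `|Q| ≤ |T| |cert (z, b)|`). So for `δ = slv ..`: `par z' S = par z S` for all
`S ∈ cert (z, b)`, `b ∈ T`; `z' ≠ z` and the changes are inside the interval. `par` in `PolyF`: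
`foldl` with `xor` over the reversed list, or over the list (commutativity). -/
def Stmt_EVB : Prop := ∀ (B : Set Str) (g : Str → Str), PolyF B g → ParityCertificates B g →
  Evasive B g

/-- UNP (100), uses NPE. The universal set is in NP. Proof. `V (y, e) = decide (|y| ≤ |fs e|) &&
decide (R B (pr (fs e) (pr (fs (sn e)) (pr [] (pr y (sn (sn e)))))) = opt (some [true]))` with `R`
from `run`; `r = X`. -/
def Stmt_UNP : Prop := ∀ B : Set Str, InNP B (Uni B)

/-- UNC (180). The universal set is complete under reductions of sensitivity at most 1. Proof.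
`M, q, r, V` of `L`; `P n = q.eval (r.eval n + n) + r.eval n`; `g z = pr (un (P |z|))
(pr (code M) z)`. `z ∈ L`: witness `y`, `|y| ≤ r |z|`, `out B M [] y z (q (|y| + |z|)) =
some [true]`, `out_mono`. Conversely, if `out B M [] y z (P |z|) = some [true]` then with the value
`some [decide ((y, z) ∈ V)]` of `InNP` (`out_det` or `out_mono` to the maximum of the times)
`(y, z) ∈ V`. `g` is `PolyFun` (`una`, `lib`). Sensitivity: `g z = s ++ z` where `s` depends only
on `|z|`, `(z.modify v not).length = z.length`, and `(g (z.modify v not))[b]? ≠ (g z)[b]?` only if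
`b = s.length + v`: at most one `v`. -/
def Stmt_UNC : Prop := ∀ B L : Set Str, InNP B L → ∃ g : Str → Str, Karp B L (Uni B) g ∧
  ∀ (z : Str) (b : ℕ),
    ((Finset.range z.length).filter fun v => (g (z.modify v not))[b]? ≠ (g z)[b]?).card ≤ 1

/-- CBA (200). Cantor-Bernstein along chains. Proof. `bck` decreases the length of the string
(`g y = x` gives `|y| < |x|`). So `side n s` does not depend on `n ≥ |s.2| + 1` (or `≥ |s.2|`)
(induction). `side (|f x| + 1) (false, f x) = side (|x| + 1) (true, x)` because
`bck (false, f x) = some (true, x)`; `side (|g y| + 1) (true, g y) = side (|y| + 1) (false, y)`.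
If the side of `x` is `true`: `cbm x = f x`, its side is `true`, `cbi (f x) = f' (f x) = x`. If it is
`false` then the chain of `(true, x)` does not end at once: `x = g y`, `y = g' x`, `cbm x = y`, side
of `y` is `false`, `cbi y = g y = x`. Symmetric for `cbm (cbi y) = y`. Membership: `x ∈ A ↔
f x ∈ A'`, and for `x = g y`: `y ∈ A' ↔ g y ∈ A`. -/
def Stmt_CBA : Prop := ∀ (A A' : Set Str) (f f' g g' : Str → Str), (∀ x, f' (f x) = x) →
  (∀ y, g' (g y) = y) → (∀ x, x.length < (f x).length) → (∀ y, y.length < (g y).length) →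
  (∀ x, x ∈ A ↔ f x ∈ A') → (∀ y, y ∈ A' ↔ g y ∈ A) →
  (∀ x, cbi f f' g g' (cbm f f' g g' x) = x) ∧ (∀ y, cbm f f' g g' (cbi f f' g g' y) = y) ∧
  ∀ x, x ∈ A ↔ cbm f f' g g' x ∈ A'

/-- CBP (150). The same in polynomial time. Proof. `side n s = ((fun s => (bck .. s).getD s)^[n]
s).1` (if `bck s = none` nothing changes any more). `PolyF.iterate_add` with `K = 0`: if
`g (g' s.2) = s.2` then `|g' s.2| < |s.2|` by the length condition, so the size does not increase
(`sz_str`). -/
def Stmt_CBP : Prop := ∀ (B : Set Str) (f f' g g' : Str → Str), PolyF B f → PolyF B f' →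
  PolyF B g → PolyF B g' → (∀ x, x.length < (f x).length) → (∀ y, y.length < (g y).length) →
  PolyF B (cbm f f' g g') ∧ PolyF B (cbi f f' g g')

/-- PIS (60), uses CBA, CBP. Proof. `polyFun_iff_polyF`. -/
def Stmt_PIS : Prop := ∀ (B A A' : Set Str) (f g : Str → Str), Strong B A A' f →
  Strong B A' A g → PIso B A A'

end Pool.EV
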