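import Pool.Agent.Work.MP_cb380d_ev.InterfaceB

/-!
# MP_cb380d_lc, EvasiveReductions, PART C: functions of bounded degree over F_2; final theorem

Block `X`: file `Pool/Agent/Work/MP_cb380d_ev/B_X.lean`, `import ...MP_cb380d_ev.InterfaceC`,
`open Pool.IC Pool.GL Pool.TL Polynomial`, `namespace Pool.EV`, `theorem p_X (hY : Stmt_Y) .. :
Stmt_X` with exactly the blocks of the column `uses` (in this order) as hypotheses; auxiliary
lemmas with prefix `X_`. For the typed layer see the header of InterfaceB.

Vectors are strings of a fixed length; `add` is the sum of vectors (`zipWith xor`), so for vectors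
of the same length it is associative, commutative, `add u u` is the zero vector
`List.replicate N false`, and `(add u v).getD i false = xor (u.getD i false) (v.getD i false)`.
-/

open Pool.IC Pool.GL Pool.TL Polynomial

namespace Pool.EV

/-- MVP (200). Polynomials and derivatives. Proof. Let `x_z i = if z.getD i false then 1 else 0`;
`x_(add z u) = x_z + x_u` in `ZMod 2` for `|z| = |u| = N`. (1) For a polynomial `P` of total degree
`≤ d + 1` and a point `u` there is `Q` of total degree `≤ d` with
`eval (x + u) P - eval x P = eval x Q` for all `x`. By linearity (`P` is the sum of its monomials,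
all of degree `≤ totalDegree`) it is enough to treat products of variables; claim for monomials
`M` of degree `e ≥ 0`: there is `Q_M` with `totalDegree Q_M ≤ e - 1` (`Q_M = 0` for `e = 0`) and
`M (x + u) = M x + Q_M x`: induction, `(X i) M`: `Q = X i * Q_M + C (u i) * (M + Q_M)`. (2) `d = 0`:
`P` is constant (`MvPolynomial.totalDegree_eq_zero_iff_eq_C`), so `F` is constant. (3) Induction
on `d`: `xor (F (add z u)) (F z)` is given by `Q` (in `ZMod 2`: `a + b = a - b`, and the value is
`1` iff exactly one of the two is `true`). -/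
def Stmt_MVP : Prop := ∀ (N d : ℕ) (F : Str → Bool), IsPoly N d F → DegLE N d F

/-- DV1 (150). Derivatives. Proof. (1) Commutation: `xor (dv F t (add z u)) (dv F t z) =
dv (fun z => xor (F (add z u)) (F z)) t z` for vectors of length `N` (induction on `t`,
`add (add z v) u = add (add z u) v`). (2) Induction on `n`, generalizing `F`, with (1). (3)
Induction on `t`. -/
def Stmt_DV1 : Prop := (∀ (N : ℕ) (F : Str → Bool) (t : List Str) (u z : Str), (∀ v ∈ t, v.length = N) →
    u.length = N → z.length = N →
    dv (fun z => xor (F (add z u)) (F z)) t z = dv F (u :: t) z) ∧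
  (∀ (N n : ℕ) (F : Str → Bool), DegLE N n F ↔ ∀ t : List Str, t.length = n →
    (∀ v ∈ t, v.length = N) → ∀ z z' : Str, z.length = N → z'.length = N →
      dv F t z = dv F t z') ∧
  ∀ (F : Str → Bool) (t : List Str) (z : Str), dvn F t.length t z = dv F t z

/-- DV2 (150), uses DV1. More on derivatives. Proof. (1) Permutations: induction on `List.Perm`,
the swap is commutation (`dv F (u :: v :: t) z` is a sum of four values, symmetric in `u, v`).
(2) `dv F (u :: u :: t) z`: the values at `z + u + u = z` cancel. (3) With `G = dv F t`: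
`G (z + u + v) + G z = (G ((z + v) + u) + G (z + v)) + (G (z + v) + G z)`, and
`dv F (u :: t)` is constant by DV1 (2), because `(u :: t).length = d + 1`. -/
def Stmt_DV2 : Prop := (∀ (N : ℕ) (F : Str → Bool) (t t' : List Str) (z : Str), t.Perm t' →
    (∀ v ∈ t, v.length = N) → z.length = N → dv F t z = dv F t' z) ∧
  (∀ (N : ℕ) (F : Str → Bool) (t : List Str) (u z : Str), (∀ v ∈ t, v.length = N) → u.length = N →
    z.length = N → dv F (u :: u :: t) z = false) ∧
  ∀ (N d : ℕ) (F : Str → Bool) (t : List Str) (u v z : Str), DegLE N (d + 1) F → t.length = d →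
    (∀ v ∈ t, v.length = N) → u.length = N → v.length = N → z.length = N →
    dv F (add u v :: t) z = xor (dv F (u :: t) z) (dv F (v :: t) z)

/-- DTZ (220), uses DV1, DV2. Lowering the degree. Proof. Let `T t = dv G t 0` for lists `t` of
`d + 1` vectors; by DV1 (2) this is also `dv G t z` for all `z`. `T` is symmetric, additive in
every argument, and `0` if two arguments agree (DV2). (1) `T t = false` if all entries of `t` are
unit vectors `ev r j`, `j < r`: let `a` be the largest index; permute its occurrences to the front;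
if there are two of them use DV2 (2), if there is one use the hypothesis. (2) `T t = false` if at
most `k` entries are not unit vectors, induction on `k`: permute a bad entry `u` to the front; `u`
is a sum of unit vectors (induction on the number of ones of `u`, the zero vector is
`add v v`, or `T (0 :: t) = T (add 0 0 :: t) = false`), use additivity. (3) So
`dv G (u :: t) z = false` for `t.length = d`, i.e. `dv G t (add z u) = dv G t z`; with
`u = add z z'` this is DV1 (2) for `n = d`. -/
def Stmt_DTZ : Prop := ∀ (r d : ℕ) (G : Str → Bool), DegLE r (d + 1) G →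
  (∀ a < r, ∀ js : List ℕ, js.length = d → (∀ j ∈ js, j < a) →
    dv G (ev r a :: js.map (ev r)) (List.replicate r false) = false) → DegLE r d G

/-- DAF (100). Affine substitutions. Proof. (1) Induction on `n`: the derivative of `F ∘ φ` in the
direction `u` at `s` is the derivative of `F` in the direction `ψ u` at `φ s`. (2) Induction on
`t`. `DegLE r n` only concerns strings of length `r` (first prove: if `F s = F' s` for all `s` of
length `r` then `DegLE r n F ↔ DegLE r n F'`, induction on `n`). -/
def Stmt_DAF : Prop := ∀ (r R : ℕ) (F : Str → Bool) (φ ψ : Str → Str),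
  (∀ s, s.length = r → (φ s).length = R) → (∀ s, s.length = r → (ψ s).length = R) →
  (∀ s u, s.length = r → u.length = r → φ (add s u) = add (φ s) (ψ u)) →
  (∀ n, DegLE R n F → DegLE r n (fun s => F (φ s))) ∧
  ∀ (t : List Str) (s : Str), (∀ v ∈ t, v.length = r) → s.length = r →
    dv (fun s => F (φ s)) t s = dv F (t.map ψ) (φ s)

/-- CMB (180). Linear combinations. Proof. Coordinate `i` of `cmb R U s` is the `xor` over
`j < U.length` of `s.getD j false && (U.getD j []).getD i false` (induction along the fold over
`List.range`, all partial results have length `R`). Everything follows coordinatewise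
(`List.ext_getElem?` or `List.ext_getElem` with `getD`). Last statement: let
`s.getD a false = true`, and `j` a position in the group `a` where `U[a]` is `true`; all other
`U[b]` are `false` there. -/
def Stmt_CMB : Prop := ∀ (R : ℕ) (U : List Str), (∀ v ∈ U, v.length = R) →
  (∀ s, (cmb R U s).length = R) ∧
  (∀ s s', s.length = U.length → s'.length = U.length →
    cmb R U (add s s') = add (cmb R U s) (cmb R U s')) ∧
  (∀ j < U.length, cmb R U (ev U.length j) = U.getD j []) ∧
  cmb R U (List.replicate U.length false) = List.replicate R false ∧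
  ∀ (G : ℕ) (s : Str), (∀ a < U.length, (∃ j, a * G ≤ j ∧ j < (a + 1) * G ∧
      (U.getD a []).getD j false = true) ∧
      ∀ j, j < a * G ∨ (a + 1) * G ≤ j → (U.getD a []).getD j false = false) →
    s.length = U.length → true ∈ s → true ∈ cmb R U s

/-- DIR (250), uses SLV, DV1, DV2. The good directions. Proof. Induction on `r` (state after `a`
steps: `U.length = a`; `Function.iterate_succ_apply'`; `G` and the bound `m * r ^ d < G` are kept
for the final `r`, so generalize: for all `a ≤ r`). New vector: `plc R (a * G) δ`, `δ = slv G Q _`,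
`|Q| = m * a ^ d < G` (`(tup U d).length = U.length ^ d`). The functionals are additive on vectors
of length `G`: `dvn (F i) (d + 1) (plc R p v :: t) 0 = dv (F i) (plc R p v :: t) 0` (DV1 (3),
members of `tup U d` have length `d` and entries in `U`), `plc R p (add u v) = add (plc R p u)
(plc R p v)` (as `p + G ≤ R`), DV2 (3). SLV: `|δ| = G`, `true ∈ δ`, all functionals vanish. The
entries of `plc R p δ` outside of `[p, p + G)` are `false`. For `js` with entries `< a`:
`js.map (U.getD · []) ∈ tup U_a d` where `U_a` is the state after `a` steps (a prefix of the final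
list, so `getD j` agrees for `j < a`). -/
def Stmt_DIR : Prop := ∀ (F : ℕ → Str → Bool) (d m R G r : ℕ), (∀ i < m, DegLE R (d + 1) (F i)) →
  m * r ^ d < G → r * G ≤ R → (dir F d m R G r).length = r ∧
  (∀ v ∈ dir F d m R G r, v.length = R) ∧
  (∀ a < r, (∃ j, a * G ≤ j ∧ j < (a + 1) * G ∧
      ((dir F d m R G r).getD a []).getD j false = true) ∧
      ∀ j, j < a * G ∨ (a + 1) * G ≤ j → ((dir F d m R G r).getD a []).getD j false = false) ∧
  ∀ i < m, ∀ a < r, ∀ js : List ℕ, js.length = d → (∀ j ∈ js, j < a) →
    dv (F i) ((dir F d m R G r).getD a [] :: js.map fun j => (dir F d m R G r).getD j [])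
      (List.replicate R false) = false

/-- SOL (200), uses DTZ, DAF, CMB, DIR. Correctness. Proof. Induction on `d`, generalizing `F, m, R`.
`d = 0`: `F i` is constant, `ev R 0` has the entry `true` at 0 (`R ≥ 1`). `d + 1`: `r = kd d m`,
`G = m * r ^ d + 1`, `r * G = kd (d + 1) m ≤ R`, `U = dir F d m R G r` (DIR). The functions
`F' i s = F i (cmb R U s)` have `DegLE r (d + 1)` (DAF with `φ = ψ = cmb R U`, CMB) and by DAF (2),
CMB `dv (F' i) (ev r a :: js.map (ev r)) 0 = dv (F i) (U[a] :: js.map U[·]) 0 = false`, so
`DegLE r d (F' i)` by DTZ. Induction hypothesis for `F'`, `R = r`; `cmb R U s ≠ 0` by CMB (last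
statement), `cmb R U 0 = 0`. (`sol` uses `F i (cmb ..)` for all `i`; only `i < m` matter.) -/
def Stmt_SOL : Prop := ∀ (d : ℕ) (F : ℕ → Str → Bool) (m R : ℕ), kd d m ≤ R →
  (∀ i < m, DegLE R d (F i)) → (sol d F m R).length = R ∧ true ∈ sol d F m R ∧
    ∀ i < m, F i (sol d F m R) = F i (List.replicate R false)

/-- KDB (80). Proof. Induction on `d`: if `kd d m ≤ (c (m + 1)) ^ c` then `kd (d + 1) m ≤
(c (m + 1)) ^ c * ((m + 1) * (c (m + 1)) ^ (c d) + 1) ≤ (c' (m + 1)) ^ c'` with
`c' = c + c d + 3` or so (`c ≥ 1`). -/
def Stmt_KDB : Prop := ∀ d : ℕ, ∃ c : ℕ, ∀ m : ℕ, kd d m ≤ (c * (m + 1)) ^ c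

/-- DVP (120), uses PLF. Proof. (1) `dvn` by induction on `n` (`headD`, `tail`, `add`). (2) `tup`
by induction on `d` (`flatMap`, `map`). (3) `kd d` by induction on `d` (`PolyF.pow`). -/
def Stmt_DVP : Prop := ∀ (B : Set Str) (γ : Type) [SE γ] (F : γ → Str → Bool) (n : ℕ),
  PolyF B (fun p : γ × Str => F p.1 p.2) →
  PolyF B (fun p : γ × List Str × Str => dvn (F p.1) n p.2.1 p.2.2) ∧
  PolyF B (fun U : List Str => tup U n) ∧ PolyF B (fun m : ℕ => kd n m)

/-- CBF (120), uses PLF. Proof. `foldl` over `List.range U.length`; all partial results have length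
`≤ R` (`add` does not increase the length), `sz_str`. -/
def Stmt_CBF : Prop := ∀ B : Set Str, PolyF B (fun p : ℕ × List Str × Str => cmb p.1 p.2.1 p.2.2)

/-- DRP (200), uses PLF, SLP, DVP. Proof. `dir` is an iteration (`PolyF.iterate_add`, context
`p = (c, m, R, G, r)`); every step appends one vector of length `R` (`plc` has length `R`), so the
size grows by `8 R + 2`. The step `(p, U) ↦ dirs (F c) d m R G U` is in `PolyF`: SLP with
`δ = (γ × ℕ × ℕ × ℕ × ℕ) × List Str` for `(p, U)`, `γ = ℕ × List Str` for `(i, t)`, list
`(List.range m).flatMap fun i => (tup U d).map fun t => (i, t)` (DVP (2)), functional by DVP (1)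
(with `γ × ℕ` for `γ` there). -/
def Stmt_DRP : Prop := ∀ (B : Set Str) (γ : Type) [SE γ] (F : γ → ℕ → Str → Bool) (d : ℕ),
  PolyF B (fun p : γ × ℕ × Str => F p.1 p.2.1 p.2.2) →
  PolyF B (fun p : γ × ℕ × ℕ × ℕ × ℕ =>
    dir (F p.1) d p.2.1 p.2.2.1 p.2.2.2.1 p.2.2.2.2)

/-- SOP (180), uses PLF, DVP, CBF, DRP. Proof. Induction on `d`, generalizing `γ` and `F`. `d + 1`:
let `U p` be the list of directions for `p = (c, m, R)` (DRP composed with `kd d m`, DVP (3)). The
functions `F' (c, R, U) i s = F c i (cmb R U s)` on the context `γ' = γ × ℕ × List Str` are in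
`PolyF` (CBF), so by the induction hypothesis `(c', m, R') ↦ sol d (F' c') m R'` is; compose. -/
def Stmt_SOP : Prop := ∀ (B : Set Str) (d : ℕ) (γ : Type) [SE γ] (F : γ → ℕ → Str → Bool),
  PolyF B (fun p : γ × ℕ × Str => F p.1 p.2.1 p.2.2) →
  PolyF B (fun p : γ × ℕ × ℕ => sol d (F p.1) p.2.1 p.2.2)

/-- EVC (220), uses PLF, MVP, DAF, SOL, KDB, SOP. Bounded degree. Proof. `k = 1`, `c` such that
`kd d (2 n) < (c (n + 1)) ^ c` (from KDB, enlarge). `esc (z, T, a, K) = add z (plc z.length a
(sol d (F (z, T, a)) (2 * T.length) K))` where, with `z_v = add z (plc z.length a v)`,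
`F (z, T, a) i v = if i < T.length then ((g z_v)[T.getD i 0]?).isSome else
(g z_v).getD (T.getD (i - T.length) 0) false`. In `PolyF` by SOP (`γ = Str × List ℕ × ℕ`).
`DegLE N d` (MVP) gives `DegLE K d` for the functions of `v` by DAF with
`φ v = add z (plc N a v)`, `ψ v = plc N a v` (`plc N a (add v u) = add (plc N a v) (plc N a u)` for
`a + K ≤ N`). SOL: `δ` with the same values as `v = 0`, where `z_0 = z`. The symbol `s[b]?` is
determined by `(s[b]?).isSome` and `s.getD b false`. `z_δ ≠ z` (a coordinate `a + j` with
`δ.getD j false = true`) and the changes are in `[a, a + K)`. -/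
def Stmt_EVC : Prop := ∀ (B : Set Str) (g : Str → Str), PolyF B g → BoundedDegree g → Evasive B g

/-- FIN (80), uses MAI, EVA, EVB, EVC, UNP, UNC, PIS. The theorem. Proof. (1) `L = lang D`, MAI;
`Good` implies `Evasive` (`g` is in `PolyF` by `polyFun_iff_polyF`). (2) Apply (1) to `D = A` and the
reduction of `lang A` to `A'`, and conversely; PIS. (3) `Uni B`. -/
def Stmt_FIN : Prop := ∀ B : Set Str,
  (∀ D : Set Str, InNP B D → ∃ L : Set Str, InNP B L ∧
    ∀ (A : Set Str) (g : Str → Str), Karp B L A g → Good B g → ∃ f, Strong B D A f) ∧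
  (∀ A A' : Set Str, GoodComplete B A → GoodComplete B A' → PIso B A A') ∧
  ∃ A : Set Str, InNP B A ∧ ∀ L : Set Str, InNP B L → ∃ g : Str → Str, Karp B L A g ∧
    ∀ (z : Str) (b : ℕ),
      ((Finset.range z.length).filter fun v => (g (z.modify v not))[b]? ≠ (g z)[b]?).card ≤ 1

end Pool.EV
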