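import Pool.Agent.Work.MP_cb380d_ev.Defs2

/-!
# MP_cb380d_lc, EvasiveReductions, PART D: polynomials modulo m (arbitrary fixed m)

Block `X`: file `Pool/Agent/Work/MP_cb380d_ev/B_X.lean`, `import ...MP_cb380d_ev.InterfaceD`,
`open Pool.IC Pool.GL Pool.TL Polynomial`, `namespace Pool.EV`, `theorem p_X (hY : Stmt_Y) .. :
Stmt_X` with exactly the blocks of the column `uses` (in this order) as hypotheses; auxiliary
lemmas with prefix `X_`. For the typed layer `PolyF` see the header of InterfaceB.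
-/

open Pool.IC Pool.GL Pool.TL Polynomial

namespace Pool.EV

/-- LSC (220). Linear relations modulo `p`. Proof. Compare block SLV (`B_SLV.lean`). Invariant of
the list `V` after the coordinates `x' < x`: the first components are distinct and `< n`,
`n = I.length`; the vectors have length `n` and entries `< p`; for `(c, v), (c', v') ∈ V`:
`v.getD c 0 = 1` and `v.getD c' 0 = 0` for `c' ≠ c`; `fvl p I x' v = 0` for `x' < x`;
`n ≤ |V| + x`. Step with pivot `u`, `f u ≠ 0` (so `f u ^ (p - 1) = 1` modulo `p`, `f u < p`): for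
`v ↦ axp p (f v * (p - 1) * f u ^ (p - 2)) u v` the functional has the value `f v + f v (p - 1)
f u ^ (p - 1) ≡ p f v ≡ 0`; coordinate `c` of `axp ..` is `(λ * 0 + 1) % p = 1`; the other private
coordinates stay 0; earlier functionals stay 0 (additivity modulo `p`: work with casts to
`ZMod p`). Exactly one member is removed. At the end `|V| ≥ n - L > 0`. -/
def Stmt_LSC : Prop := ∀ (p L : ℕ) (I : List (List ℕ)), p.Prime → L < I.length →
  (lsv p L I).length = I.length ∧ (∀ a ∈ lsv p L I, a < p) ∧ 1 ∈ lsv p L I ∧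
  ∀ x < L, p ∣ ((List.range I.length).map fun t =>
    (lsv p L I).getD t 0 * (I.getD t []).getD x 0).sum

/-- CEL (60). Cells. Proof. Induction on `j`. -/
def Stmt_CEL : Prop := ∀ p j : ℕ, (cells p j).length = (p - 1) ^ j ∧ (cells p j).Nodup ∧
  ∀ c : List ℕ, c ∈ cells p j ↔ c.length = j ∧ ∀ a ∈ c, 0 < a ∧ a < p

/-- LEC (300), uses LSC, CEL. The levels. Proof. Induction on `j`. `j = 0`: `I` has one member,
`Rel p 0` is empty. `j + 1`: `B = L * (p - 1) ^ j + 1` blocks of length `n = nj p L j`,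
`A_i = lev p L j (blk n I i)` (induction hypothesis), `d = levd ..`: LSC for the `B` vectors of
length `L * (p - 1) ^ j` (CEL), the coordinate of the pair (cell number, `x`) of the list
`flatMap` is at position `(cell number) * L + x`: so for all `c ∈ cells p j`, `x < L`:
`∑ i, d_i T_i(c, x) ≡ 0` with `T_i(c, x) = tsum (blk n I i) A_i c x`. The result is the
concatenation of `B` lists of length `n`; for a cell `e :: c` with `0 < e`:
`tsum I A (e :: c) x = ∑ i with d_i = e, T_i(c, x)` (split the sum over `t < B n` into blocks).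
Relation 0: `∑ e (e + 1) T((e + 1) :: c) = ∑ i, d_i T_i(c)` (`d_i < p`; the terms with `d_i = 0`
vanish). Relation `l + 1` for a cell `e :: c`: `(e :: c).set (l + 1) a = e :: c.set l a`, sum the
relations of the blocks with `d_i = e`. Members: `d_i :: c` with `0 < d_i < p`. `1 ∈ d`: for
`d_i = 1` the block `i` contains `some (1 :: replicate j 1)`. -/
def Stmt_LEC : Prop := ∀ (p L j : ℕ) (I : List (List ℕ)), p.Prime → I.length = nj p L j →
  (lev p L j I).length = nj p L j ∧ (∀ c : List ℕ, some c ∈ lev p L j I → c ∈ cells p j) ∧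
  some (List.replicate j 1) ∈ lev p L j I ∧
  ∀ x < L, Rel p j fun c => (tsum I (lev p L j I) c x : ZMod p)

/-- XEA (250), uses CEL. The universal set of cells, first part: without `(1, .., 1)`. Proof. Let
`C = cells p k`, `C' = {c ∈ C | all entries are ≥ 2}`, `|C'| = (p - 2) ^ k`. (1) For families `T`
with the relations: `T c = ∑ c' ∈ C', K c c' T c'` with `K c c' = ∏ l, κ (c l) (c' l)`,
`κ a b = [a = b]` for `a ≥ 2`, `κ 1 b = - b`: eliminate the entries `1` one coordinate after the
other with the relation `T(.. 1 ..) = - ∑ b ≥ 2, b T(.. b ..)` (induction on the number of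
coordinates treated, or on `k` by splitting off the first entry: `Rel p (k+1) T` gives
`Rel p k (fun c => T (a :: c))` for every `a` and the relation in direction 0). (2) Choose `k` with
`(p - 1) * (p - 2) ^ k < (p - 1) ^ k` (exists: `((p - 1) / (p - 2)) ^ k` is unbounded; for `p = 2`
take `k = 1`). Chevalley-Warning (`char_dvd_card_solutions_of_fintype_sum_lt` in
`Mathlib/FieldTheory/ChevalleyWarning.lean`) for the polynomials `∑ c ∈ C, K c c' (X c) ^ (p - 1)`,
`c' ∈ C'`, in the variables `c ∈ C`: the number of common zeros is divisible by `p`, `0` is one, so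
there is another one `s`. `X = {c | s c ≠ 0}` (as a sublist of `cells p k`): `s c ^ (p - 1) = 1` on
`X` and `0` elsewhere, so `∑ c ∈ X, K c c' = 0` for all `c' ∈ C'`, and `∑ c ∈ X, T c =
∑ c', (∑ c ∈ X, K c c') T c' = 0`. -/
def Stmt_XEA : Prop := ∀ p : ℕ, p.Prime → ∃ (k : ℕ) (X : List (List ℕ)), X.Nodup ∧ X ≠ [] ∧
  (∀ c ∈ X, c ∈ cells p k) ∧ ∀ T : List ℕ → ZMod p, Rel p k T → (X.map T).sum = 0

/-- XEX (150), uses CEL, XEA. The universal set with `(1, .., 1)`. Proof. Translation: let
`c₀ ∈ X` (XEA), and for a cell `c` let `τ c` be the list of the `(c l * (c₀ l) ^ (p - 2)) % p`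
(division by `c₀` in `ZMod p`): a bijection of `cells p k` with `τ c₀ = (1, .., 1)` and inverse
`σ c` = list of the `(c l * c₀ l) % p`. `X' = X.map τ`. For a family `T` with the relations the
family `T ∘ τ` has the relations: in direction `l`, `∑ a, a T(τ (c.set l a)) =
c₀ l * ∑ b, b T((τ c).set l b)` by the substitution `b = a / c₀ l` (bijection of `1, .., p - 1`).
(Only values of `T` at cells matter.) -/
def Stmt_XEX : Prop := ∀ p : ℕ, p.Prime → ∃ (k : ℕ) (X : List (List ℕ)), XGood (p, k, X)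

/-- ZSC (150), uses CEL, LEC. Zero-sum sets modulo a prime. Proof. `ssum I (zsp ..) x =
∑ c ∈ X, tsum I (lev ..) c x` (every `t` with `lev .. t = some c`, `c ∈ X`, is counted exactly
once as `X` has no duplicates); LEC and `XGood`. `true ∈ zsp` because `some (replicate k 1)` is a
member of `lev`. -/
def Stmt_ZSC : Prop := ∀ (p L k : ℕ) (X : List (List ℕ)) (I : List (List ℕ)), XGood (p, k, X) →
  I.length = nj p L k → (zsp p L k X I).length = nj p L k ∧ true ∈ zsp p L k X I ∧
  ∀ x < L, p ∣ ssum I (zsp p L k X I) x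

/-- ZMC (200), uses ZSC. Zero-sum sets modulo `m`. Proof. Induction on `ps`, generalizing `I`.
`q :: ps`: `n = nj q.1 L q.2.1`, block `i < nzm ps L` has length `n` (as `nzm ps L * n ≤ |I|`),
`sel_i = zsp ..` (ZSC), `S_i x = ssum (blk n I i) sel_i x / q.1`, `q.1 * S_i x = ssum ..`.
Induction hypothesis for the list of the `S_i`: selection `R`. The result selects in block `i`
the set `sel_i` if `R_i` and nothing otherwise: `ssum I result x = ∑ i ∈ R, ssum (blk n I i) sel_i x
= q.1 * ∑ i ∈ R, S_i x` is divisible by `q.1 * m'`. -/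
def Stmt_ZMC : Prop := ∀ (ps : List (ℕ × ℕ × List (List ℕ))) (L : ℕ) (I : List (List ℕ)),
  (∀ q ∈ ps, XGood q) → nzm ps L ≤ I.length →
  (zsm ps L I).length = nzm ps L ∧ true ∈ zsm ps L I ∧
  ∀ x < L, (ps.map fun q => q.1).prod ∣ ssum I (zsm ps L I) x

/-- FAC (40), uses XEX. Every modulus. Proof. `m.primeFactorsList` and a choice of `k, X` for every
prime. -/
def Stmt_FAC : Prop := ∀ m : ℕ, 0 < m → ∃ ps : List (ℕ × ℕ × List (List ℕ)),
  (∀ q ∈ ps, XGood q) ∧ (ps.map fun q => q.1).prod = m

/-- NZB (150). Bounds. Proof. `nj p L j` is a polynomial in `L` of degree `j` with nonnegative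
coefficients; so `nj`, `nzm` are monotone in `L`, positive and polynomially bounded. The class of
functions `f : ℕ → ℕ` with `f M ≤ (C (M + 1)) ^ C` for some `C` contains the constants and the
identity and is closed under sums, products, powers and composition. Induction on `ps`, on `d`. -/
def Stmt_NZB : Prop := ∀ ps : List (ℕ × ℕ × List (List ℕ)),
  (∀ L, 0 < nzm ps L) ∧ (∀ L L', L ≤ L' → nzm ps L ≤ nzm ps L') ∧
  ∀ d, (∀ M, 0 < km ps d M) ∧ ∃ C : ℕ, ∀ M, km ps d M ≤ (C * (M + 1)) ^ C

/-- RS1 (200). Differences of polynomials modulo `m`. Proof. Induction on `t`, generalizing `z`.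
`dmn m F (n + 1) (v :: t) z = dmn m F n t (add z v) + (m - 1) dmn m F n t z`, in `ZMod m` a
difference; `supp (add z v) = supp z ∪ supp v` (disjoint). The sets `T` for `add z v` and not for
`z`: those which meet `supp v`. (Split the sum over `T ⊆ supp z ∪ supp v ∪ ..` into those
disjoint from `supp v`, which are the `T ⊆ supp z ∪ ..`, and the others.) -/
def Stmt_RS1 : Prop := ∀ (m R D : ℕ) (F : Str → ℕ) (c : Finset ℕ → ZMod m), 0 < m →
  (∀ z : Str, z.length = R →
    (F z : ZMod m) = ∑ T ∈ (supp z).powerset.filter (fun T => T.card ≤ D), c T) →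
  ∀ (t : List Str) (z : Str), z.length = R → (∀ v ∈ t, v.length = R) →
    t.Pairwise (fun u v => Disjoint (supp u) (supp v)) → (∀ v ∈ t, Disjoint (supp z) (supp v)) →
    (dmn m F t.length t z : ZMod m) =
      ∑ T ∈ (supp z ∪ t.foldr (fun v s => supp v ∪ s) ∅).powerset.filter
        (fun T => T.card ≤ D ∧ ∀ v ∈ t, ¬ Disjoint T (supp v)), c T

/-- RS2 (150), uses RS1. Additivity of the top difference. Proof. By RS1 (with `D = d + 1`, base
the zero vector) the left side is the sum of the `c T` over the sets `T` of at most `d + 1`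
elements inside of the union which meet all of the `d + 1` disjoint sets: `T` has exactly one
element in each of them. Group by the element `v` in `supp u`. (`supp (ev R v) = {v}`.) -/
def Stmt_RS2 : Prop := ∀ (m R d : ℕ) (F : Str → ℕ), 0 < m → IsModPoly m R (d + 1) F →
  ∀ (u : Str) (t : List Str), t.length = d → u.length = R → (∀ v ∈ t, v.length = R) →
    (u :: t).Pairwise (fun u v => Disjoint (supp u) (supp v)) →
    (dmn m F (d + 1) (u :: t) (List.replicate R false) : ZMod m) =
      ∑ v ∈ supp u, (dmn m F (d + 1) (ev R v :: t) (List.replicate R false) : ZMod m)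

/-- CMS (100), uses CMB. Supports of combinations. Proof. Coordinate `i` of `cmb R U s` is the
`xor` over the `a` with `s a` of `U[a] i` (see `B_CMB.lean` for the coordinate lemma), at most one
of them is `true`. -/
def Stmt_CMS : Prop := ∀ (R : ℕ) (U : List Str) (s : Str), (∀ v ∈ U, v.length = R) → Disj U →
  s.length = U.length →
  supp (cmb R U s) = (supp s).biUnion fun a => supp (U.getD a [])

/-- RS3 (220), uses RS1, CMS. Lowering the degree. Proof. Let `c` be the coefficients of `F`. For a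
set `A` of indices `< r` let `c' A = ∑ c T` over the `T ⊆ ⋃ a ∈ A, supp U[a]` with `|T| ≤ d + 1`
which meet `supp U[a]` for all `a ∈ A`. Grouping the `T` by the set `A` of the indices `a` with
`T ∩ supp U[a] ≠ ∅` (CMS): `F (cmb R U s) = ∑ A ⊆ supp s, c' A`. Since `|A| ≤ |T|`, `c' A = 0` for
`|A| > d + 1`; for `|A| = d + 1` it is `dmn m F (d + 1) t 0` (RS1) for the list `t` of the `U[a]`,
`a ∈ A` in decreasing order, a member of `sld (d + 1) U`, so it is `0` by hypothesis. (`sld` by
induction: `sld (d + 1) U` contains the lists `U[a] :: t'`, `t' ∈ sld d (U.take a)`.) -/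
def Stmt_RS3 : Prop := ∀ (m R d : ℕ) (F : Str → ℕ) (U : List Str), 0 < m →
  IsModPoly m R (d + 1) F → (∀ v ∈ U, v.length = R) → Disj U →
  (∀ t ∈ sld (d + 1) U, (dmn m F (d + 1) t (List.replicate R false) : ZMod m) = 0) →
  IsModPoly m U.length d (fun s => F (cmb R U s))

/-- DMC (250), uses ZMC, NZB, RS2. The good directions. Proof. As block DIR (`B_DIR.lean`):
induction on the number `a ≤ r` of steps. New vector: `plc R (a * G) δ` with
`δ = zsm ps L I`, `L = M * |sld d U_a| ≤ M * r ^ d` (`|sld d U| ≤ |U| ^ d`), `|I| = G ≥ nzm ps L`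
(NZB monotone), `|δ| = nzm ps L ≤ G`. Its support is `{a * G + v | δ v}`, not empty, inside of the
group `a`. For `i < M`, `t ∈ sld d U_a` (a list of `d` different members of `U_a`, pairwise
disjoint, and disjoint from the group `a`) with position `x` in the `flatMap` list (`I v` has entry
`x` equal to `dmn .. (ev R (a * G + v) :: t) 0 % m`): RS2 and ZMC give
`dmn .. (plc R (a * G) δ :: t) 0 = ssum I δ x = 0` in `ZMod m`. Every member of `sld (d + 1) U` is
`U[a] :: t` with `t ∈ sld d (U.take a)`, `U.take a = U_a`. -/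
def Stmt_DMC : Prop := ∀ (ps : List (ℕ × ℕ × List (List ℕ))) (F : ℕ → Str → ℕ) (m d M R G r : ℕ),
  (∀ q ∈ ps, XGood q) → (ps.map fun q => q.1).prod = m → 0 < m →
  (∀ i < M, IsModPoly m R (d + 1) (F i)) → nzm ps (M * r ^ d) ≤ G → r * G ≤ R →
  (dirm ps F m d M R G r).length = r ∧ (∀ v ∈ dirm ps F m d M R G r, v.length = R) ∧
  (∀ a < r, (∃ j, a * G ≤ j ∧ j < (a + 1) * G ∧
      ((dirm ps F m d M R G r).getD a []).getD j false = true) ∧
    ∀ j, j < a * G ∨ (a + 1) * G ≤ j → ((dirm ps F m d M R G r).getD a []).getD j false = false) ∧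
  ∀ i < M, ∀ t ∈ sld (d + 1) (dirm ps F m d M R G r),
    (dmn m (F i) (d + 1) t (List.replicate R false) : ZMod m) = 0

/-- SMC (180), uses CMB, NZB, RS3, DMC. Correctness. Proof. As block SOL (`B_SOL.lean`): induction
on `d`, generalizing `F, M, R`. `d = 0`: `F i` is constant modulo `m`. `d + 1`: `r = km ps d M`,
`G = nzm ps (M * r ^ d)`, `r * G = km ps (d + 1) M ≤ R`. DMC; the directions are disjoint (different
groups), RS3: the functions `F i (cmb R U s)` have degree `≤ d`. Induction hypothesis with `R = r`,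
CMB for `cmb ≠ 0` and `cmb R U 0 = 0`. -/
def Stmt_SMC : Prop := ∀ (ps : List (ℕ × ℕ × List (List ℕ))) (m d : ℕ) (F : ℕ → Str → ℕ)
  (M R : ℕ), (∀ q ∈ ps, XGood q) → (ps.map fun q => q.1).prod = m → 0 < m → km ps d M ≤ R →
  (∀ i < M, IsModPoly m R d (F i)) →
  (solm ps m d F M R).length = R ∧ true ∈ solm ps m d F M R ∧
    ∀ i < M, F i (solm ps m d F M R) ≡ F i (List.replicate R false) [MOD m]

/-- MDV (120), uses PLF. Arithmetic in polynomial time. Proof. `a % m` and `a / m` for a constant
`m`: iteration of `(q, r) ↦ if r + 1 = m then (q + 1, 0) else (q, r + 1)`, `a` times, start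
`(0, 0)` (`iterate_add`; `m = 0`: `a % 0 = a`, `a / 0 = 0`; for `m > 0` the value after `a` steps is
`(a / m, a % m)`). `axp`: `zipWith` as a `map` over `List.range (min ..)`. `evn`, `fvl`, `tsum`,
`ssum`, `blk`: `PolyF.map`, `PolyF.sum`. -/
def Stmt_MDV : Prop := ∀ (B : Set Str) (m : ℕ), PolyF B (fun a : ℕ => a % m) ∧
  PolyF B (fun a : ℕ => a / m) ∧
  PolyF B (fun q : ℕ × List ℕ × List ℕ => axp m q.1 q.2.1 q.2.2) ∧
  PolyF B (fun q : ℕ × ℕ => evn q.1 q.2) ∧
  PolyF B (fun q : List (List ℕ) × ℕ × List ℕ => fvl m q.1 q.2.1 q.2.2) ∧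
  PolyF B (fun q : List (List ℕ) × List (Option (List ℕ)) × List ℕ × ℕ =>
    tsum q.1 q.2.1 q.2.2.1 q.2.2.2) ∧
  PolyF B (fun q : List (List ℕ) × List Bool × ℕ => ssum q.1 q.2.1 q.2.2) ∧
  PolyF B (fun q : ℕ × List (List ℕ) × ℕ => blk q.1 q.2.1 q.2.2)

/-- LSP (200), uses MDV. The solver in polynomial time (`p` constant). Proof. `PolyF.foldl` over
`List.range L`, context `q = (L, I)`. The step is in `PolyF`. Bound along the fold: at most `n`
members, first components `< n`, vectors of length `≤ n` with entries `≤ p + 1` (`n = I.length`).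
`f u ^ (p - 2)`: `PolyF.pow`. -/
def Stmt_LSP : Prop := ∀ (B : Set Str) (p : ℕ), 0 < p →
  PolyF B (fun q : ℕ × List (List ℕ) => lsv p q.1 q.2)

/-- LEP (220), uses MDV, LSP. The levels in polynomial time (`p`, `j` constant). Proof. Induction on
`j`. `nj p L j` by `fun_prop` and induction (`(p - 1) ^ j` is a constant, `cells p j` is a constant
list). `levd` and `levs` with `F = lev p L j` (induction hypothesis): `map`, `flatMap`, `LSP`. -/
def Stmt_LEP : Prop := ∀ (B : Set Str) (p j : ℕ), 0 < p → PolyF B (fun L : ℕ => nj p L j) ∧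
  PolyF B (fun q : ℕ × List (List ℕ) => lev p q.1 j q.2)

/-- ZMP (200), uses MDV, LEP. Zero-sum sets in polynomial time (`ps` constant). Proof. `zsp`:
`map` with the constant list `X.map some` (membership in a constant list: `PolyF.any` with equality,
or induction on the list). Induction on `ps`. -/
def Stmt_ZMP : Prop := ∀ (B : Set Str) (ps : List (ℕ × ℕ × List (List ℕ))), (∀ q ∈ ps, 0 < q.1) →
  PolyF B (fun L : ℕ => nzm ps L) ∧ PolyF B (fun q : ℕ × List (List ℕ) => zsm ps q.1 q.2) ∧
  ∀ d, PolyF B (fun M : ℕ => km ps d M)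

/-- DMP (250), uses PLF, MDV, ZMP. The directions in polynomial time. Proof. (1) `dmn m (F c) n t z`
by induction on `n`. (2) `sld d U` by induction on `d`. (3) `dirm` is an iteration
(`PolyF.iterate_add`, context `p = (c, M, R, G, r)`), every step appends one vector of length `R`;
compare block DRP (`B_DRP.lean`). -/
def Stmt_DMP : Prop := ∀ (B : Set Str) (ps : List (ℕ × ℕ × List (List ℕ))), (∀ q ∈ ps, 0 < q.1) →
  ∀ (γ : Type) [SE γ] (F : γ → ℕ → Str → ℕ) (m d : ℕ),
  PolyF B (fun p : γ × ℕ × Str => F p.1 p.2.1 p.2.2) →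
  PolyF B (fun p : γ × ℕ × ℕ × ℕ × ℕ => dirm ps (F p.1) m d p.2.1 p.2.2.1 p.2.2.2.1 p.2.2.2.2)

/-- SMP (180), uses CBF, ZMP, DMP. Proof. As block SOP (`B_SOP.lean`): induction on `d`,
generalizing `γ` and `F`, context `γ' = γ × ℕ × List Str`. -/
def Stmt_SMP : Prop := ∀ (B : Set Str) (ps : List (ℕ × ℕ × List (List ℕ))), (∀ q ∈ ps, 0 < q.1) →
  ∀ (m d : ℕ) (γ : Type) [SE γ] (F : γ → ℕ → Str → ℕ),
  PolyF B (fun p : γ × ℕ × Str => F p.1 p.2.1 p.2.2) →
  PolyF B (fun p : γ × ℕ × ℕ => solm ps m d (F p.1) p.2.1 p.2.2)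

/-- SUB (150). Restriction to an interval. Proof. Let `c` be the coefficients of `Φ`, `z` of length
`N` with zeros on `[a, a + K)`. `supp (add z (plc N a v)) = supp z ∪ (supp v shifted by a)` for
`|v| = K` (disjoint union). Coefficients of the restricted function: `c' A = ∑ c (S ∪ (A + a))`
over `S ⊆ supp z` with `|S| + |A| ≤ d`. Every `T ⊆ supp z ∪ (supp v + a)` is uniquely
`S ∪ (A + a)`. -/
def Stmt_SUB : Prop := ∀ (m N d a K : ℕ) (Φ : Str → ℕ) (z : Str), IsModPoly m N d Φ →
  z.length = N → a + K ≤ N → (∀ j, a ≤ j → j < a + K → z[j]? = some false) →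
  IsModPoly m K d (fun v => Φ (add z (plc N a v)))

/-- EVM (250), uses PLF, FAC, NZB, SMC, SMP, SUB. Modular certificates. Proof. `ps` from FAC,
`km ps d M ≤ (C₀ (M + 1)) ^ C₀` from NZB. `esc (z, T, a, K) = add z (plc z.length a δ)`,
`δ = solm ps m d (fun i v => Φ (Q.getD i [], add z (plc z.length a v))) Q.length K` with
`Q = T.flatMap fun b => cert (z, b)`; in `PolyF` by SMP with `γ = Str × List Str × ℕ` for
`(z, Q, a)`. SUB gives the degree. `|Q| ≤ |T| s N`. Constants: `k = 2`. `(km ps d |Q|) ^ 2 ≤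
(C₀ (|T| + 1)) ^ (2 C₀) (s N + 1) ^ (2 C₀)`, and `(s N + 1) ^ (2 C₀) ≤ 2 ^ (2 C₀) (s N ^ (2 C₀) + 1)
≤ C₁ N` for `N ≥ 1` (hypothesis on `s` with `e = 2 C₀`); so with `c` large (for example
`c = C₀ + C₁ + 1`: `(c (|T| + 1)) ^ (2 c) ≥ C₁ (C₀ (|T| + 1)) ^ (2 C₀)`) the hypothesis of `Evasive`
gives `km ps d |Q| < K`. `z' = z_δ`: `Φ (q, z') ≡ Φ (q, z)` for `q ∈ Q`, so the symbols in `T` agree;
`z' ≠ z`, changes only in the interval. -/
def Stmt_EVM : Prop := ∀ (B : Set Str) (g : Str → Str), PolyF B g → ModularCertificates B g →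
  Evasive B g

/-- FI5 (80), uses MAI, EVA, EVB, EVC, EVM, UNP, UNC, PIS. The theorem. Proof. As block FIN
(`B_FIN.lean`). -/
def Stmt_FI5 : Prop := ∀ B : Set Str,
  (∀ D : Set Str, InNP B D → ∃ L : Set Str, InNP B L ∧
    ∀ (A : Set Str) (g : Str → Str), Karp B L A g → Good5 B g → ∃ f, Strong B D A f) ∧
  (∀ A A' : Set Str, Complete5 B A → Complete5 B A' → PIso B A A') ∧
  ∃ A : Set Str, InNP B A ∧ ∀ L : Set Str, InNP B L → ∃ g : Str → Str, Karp B L A g ∧
    ∀ (z : Str) (b : ℕ),
      ((Finset.range z.length).filter fun v => (g (z.modify v not))[b]? ≠ (g z)[b]?).card ≤ 1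

end Pool.EV
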