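import Pool.Agent.Work.MP_cb380d_ev.Defs3

/-!
# MP_cb380d_lc, EvasiveReductions, PART E: certificates of parities and polynomials modulo m

Block `X`: file `Pool/Agent/Work/MP_cb380d_ev/B_X.lean`, `import ...MP_cb380d_ev.InterfaceE`,
`open Pool.IC Pool.GL Pool.TL Polynomial`, `namespace Pool.EV`, `theorem p_X (hY : Stmt_Y) .. :
Stmt_X` with exactly the blocks of the column `uses` (in this order) as hypotheses; auxiliary
lemmas with prefix `X_`.
-/

open Pool.IC Pool.GL Pool.TL Polynomial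

namespace Pool.EV

/-- UST (150), uses SLV. The vectors of even parity. Proof. Member `i` is `plc N (a + i * G) δ`
with `δ = slv G P _`; the functionals are additive (`plc` and `par` are additive, see
`B_EVB.lean`); `P.length < G`; SLV. The support is inside of `[a + i * G, a + (i + 1) * G)`, not
empty; different groups are disjoint. `par (add z u) S = xor (par z S) (par u S)` for vectors of
length `N`; the vector `cmb N U s` is a sum of members of `U` (or zero), so its parities vanish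
(induction along the fold in `cmb`, all partial results of length `N`). -/
def Stmt_UST : Prop := ∀ (N a G r : ℕ) (P : List (List ℕ)), P.length < G → a + r * G ≤ N →
  (usets N a G r P).length = r ∧ (∀ v ∈ usets N a G r P, v.length = N ∧ (supp v).Nonempty ∧
    ∀ j ∈ supp v, a ≤ j ∧ j < a + r * G) ∧ Disj (usets N a G r P) ∧
  ∀ (z s : Str) (S : List ℕ), z.length = N → S ∈ P →
    par (add z (cmb N (usets N a G r P) s)) S = par z S

/-- UPF (120), uses PLF, SLP. Proof. `map` over `List.range r` with SLP (`δ` = context and `i`,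
`γ = List ℕ`); `par` in `PolyF` (see `B_EVB.lean`). -/
def Stmt_UPF : Prop := ∀ B : Set Str,
  PolyF B (fun q : ℕ × ℕ × ℕ × ℕ × List (List ℕ) =>
    usets q.1 q.2.1 q.2.2.1 q.2.2.2.1 q.2.2.2.2)

/-- RS4 (200), uses CMS. Restriction to combinations of disjoint vectors. Proof. Let `c` be the
coefficients of `Φ`. `supp (add z (cmb N U s)) = supp z ∪ ⋃ a ∈ supp s, supp U[a]` (CMS, disjoint
union). For a set `A` of indices let `c' A = ∑ c T` over the `T ⊆ supp z ∪ ⋃ a ∈ A, supp U[a]` with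
`|T| ≤ d` which meet `supp U[a]` for all `a ∈ A`. Grouping the `T` by the set of the indices `a` with
`T ∩ supp U[a] ≠ ∅`: `Φ = ∑ A ⊆ supp s, c' A`, and `c' A = 0` if `|A| > d` since `|A| ≤ |T|`. -/
def Stmt_RS4 : Prop := ∀ (m N d : ℕ) (Φ : Str → ℕ) (U : List Str) (z : Str), IsModPoly m N d Φ →
  z.length = N → (∀ v ∈ U, v.length = N) → Disj U → (∀ v ∈ U, Disjoint (supp z) (supp v)) →
  IsModPoly m U.length d (fun s => Φ (add z (cmb N U s)))

/-- EVX (300), uses PLF, CBF, CMB, FAC, NZB, SMC, ZMP, SMP, CMS, UST, UPF, RS4. Certificates. Proof. `ps` from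
FAC. For `(z, T, a, K)`, `N = z.length`, let `P = T.flatMap fun b => sets (z, b)`,
`Q = T.flatMap fun b => names (z, b)`, `G = P.length + 1`, `r = km ps d Q.length`,
`U = usets N a G r P`, `σ = solm ps m d (fun i s => Φ (Q.getD i [], add z (cmb N U s))) Q.length r`,
`esc = add z (cmb N U σ)`. In `PolyF` by UPF, CBF, ZMP (`km`),
SMP with `γ = Str × List Str × List Str` for
`(z, Q, U)`. If `r * G ≤ K`: UST (the interval is zero in `z`, so `supp z` is disjoint from the
members of `U`), RS4: the functions of `s` have degree `≤ d` modulo `m` in `r = U.length` variables;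
SMC: `σ ≠ 0`, the values modulo `m` are those for `s = 0`, where `add z (cmb N U 0) = z`. CMS:
`supp (cmb N U σ)` is not empty and inside of the interval. The parities for `S ∈ P` are those of
`z` (UST), so the symbols in `T` agree. Constants: `k' = 2 k`. `(P.length + 1) ^ k ≤
2 ^ k (|T| ^ k C N ^ (k - 1) + 1) ≤ C₂ (|T| + 1) ^ k N ^ (k - 1)` (`N ≥ 1` as `K > 0`;
`P.length ≤ |T| |sets (z, b)|` for some `b ∈ T`), `r ^ (2 k) ≤ (C₀ (|T| s N + 1)) ^ (2 k C₀) ≤
(C₀ (|T| + 1)) ^ (2 k C₀) (s N + 1) ^ (2 k C₀) ≤ (C₀ (|T| + 1)) ^ (2 k C₀) C₁ N` (hypothesis on `s`,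
as in EVM). So `(r G) ^ (2 k) ≤ C₂ ^ 2 C₁ (C₀ (|T| + 1)) ^ (2 k C₀) (|T| + 1) ^ (2 k) N ^ (2 k - 1)
≤ (c (|T| + 1)) ^ (2 k c) N ^ (2 k - 1) < K ^ (2 k)` for a large `c` (for example
`c = C₀ + C₁ + C₂ + 2`, using `c ^ (2 k c) ≥ c ^ (2 k C₀ + 2 k + 2)..`). -/
def Stmt_EVX : Prop := ∀ (B : Set Str) (g : Str → Str), PolyF B g → Certificates B g → Evasive B g

/-- FI4 (80), uses MAI, EVA, EVX, EVC, UNP, UNC, PIS. The theorem. Proof. As block FIN
(`B_FIN.lean`). -/
def Stmt_FI4 : Prop := ∀ B : Set Str,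
  (∀ D : Set Str, InNP B D → ∃ L : Set Str, InNP B L ∧
    ∀ (A : Set Str) (g : Str → Str), Karp B L A g → Good4 B g → ∃ f, Strong B D A f) ∧
  (∀ A A' : Set Str, Complete4 B A → Complete4 B A' → PIso B A A') ∧
  ∃ A : Set Str, InNP B A ∧ ∀ L : Set Str, InNP B L → ∃ g : Str → Str, Karp B L A g ∧
    ∀ (z : Str) (b : ℕ),
      ((Finset.range z.length).filter fun v => (g (z.modify v not))[b]? ≠ (g z)[b]?).card ≤ 1

end Pool.EV
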