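import Pool.Agent.Work.MP_cb380d_ev.Defs4

/-!
# MP_cb380d_lc, CircuitReductions, PART F: constant-depth circuits (pure mathematics)

Block `X`: file `Pool/Agent/Work/MP_cb380d_ev/B_X.lean`, `import ...MP_cb380d_ev.InterfaceF`,
`open Pool.IC Pool.GL Pool.TL Polynomial`, `namespace Pool.EV`, `theorem p_X (hY : Stmt_Y) .. :
Stmt_X` with exactly the blocks of the column `uses` (in this order) as hypotheses; auxiliary
lemmas with prefix `X_`. `un n = List.replicate n true`, `add = List.zipWith xor`,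
`parity w = w.foldl xor false`.

Overview. A disjunction of terms (conjunctions of at most `t` literals) in `n * n` variables, which
are divided into `n` groups of `n` variables. One stage keeps one variable of each group (offsets
`kb.1`) and sets the others to the bits `kb.2`: `plug kb u` is the input for the values `u` of the
kept variables. If the terms contain a large disjoint family (type I) then the disjunction becomes
constant `true`; otherwise less than `h` kept variables are among the variables of a maximal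
disjoint family, and for every assignment of these the remaining terms have at most `t - 1`
literals. The kept offsets and the bits are found by the method of conditional expectations.
-/

open Pool.IC Pool.GL Pool.TL Polynomial

namespace Pool.EV

/-- FAM (150). The disjoint family. Proof. Invariant of the fold over a prefix `F'` of `F`: the
members of `acc` are members of `F'`, pairwise disjoint (`dsj` is symmetric: `dsj T T' = true` iff
`l.1 ≠ l'.1` for all `l ∈ T`, `l' ∈ T'`), and every `T ∈ F'` is `[]` or meets a member of `acc` (if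
it is appended: itself, `dsj T T = false` for `T ≠ []`). `hs A F` is the concatenation of the lists
of variables of at most `A` of these terms: `Nodup` as they are disjoint and each has different
variables. If `(fam F).length ≤ A` then `take A` is everything. -/
def Stmt_FAM : Prop := ∀ (n t A : ℕ) (F : List Lits), (∀ T ∈ F, TOK n t T) →
  (∀ T ∈ fam F, T ∈ F) ∧ (fam F).Pairwise (fun T T' => dsj T T' = true) ∧
  (hs A F).Nodup ∧ (hs A F).length ≤ t * A ∧ (∀ p ∈ hs A F, p < n) ∧
  ((fam F).length ≤ A → ∀ T ∈ F, T = [] ∨ ∃ l ∈ T, l.1 ∈ hs A F)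

/-- CPR (80). The capped product. Proof. (1) Generalize the start: for `1 ≤ a ≤ cap` the fold from
`a` is `min (a * l.prod) cap` (products of numbers `≥ 1`). (2) The fold from `a ≤ c ^ k` with
`c ^ (k + l.length) ≤ cap` is `a * l.prod`. -/
def Stmt_CPR : Prop := (∀ (cap : ℕ) (l : List ℕ), 1 ≤ cap → (∀ x ∈ l, 1 ≤ x) →
    cpr cap l = min l.prod cap) ∧
  ∀ (cap c : ℕ) (l : List ℕ), 1 ≤ c → (∀ x ∈ l, x ≤ c) → c ^ l.length ≤ cap → cpr cap l = l.prod

/-- GRC (80). Greedy choices. Proof. Induction on `len` (`Function.iterate_succ_apply'`). The head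
of a filtered list of `List.range s` (default 0) is `< s`. If the average of `Φ (c ++ [o])` is
`≤ Φ c` then some `o < s` has `Φ (c ++ [o]) ≤ Φ c`, the filtered list is not empty and its head has
this property. -/
def Stmt_GRC : Prop := ∀ (s len : ℕ) (Φ : List ℕ → ℕ), 0 < s → (grd s Φ len).length = len ∧
  (∀ o ∈ grd s Φ len, o < s) ∧ ((∀ c : List ℕ, c.length < len → (∀ o ∈ c, o < s) →
    ((List.range s).map fun o => Φ (c ++ [o])).sum ≤ s * Φ c) → Φ (grd s Φ len) ≤ Φ [])

/-- AVA (200), uses CPR. The potential of the bits is a martingale. Proof. CPR (2) with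
`c = 2 ^ (t + 1)`: every summand is the product `∏ (2 ^ (t + 1) - wga t b T)` over `T ∈ f`. Let
`p = b.length`. At most one term `T` of `f` contains the variable `p` (disjoint), the weights of the
others do not change (`l.1 < p + 1` iff `l.1 < p` for `l.1 ≠ p`; `(b ++ [o]).getD` agrees below
`p`). If `T` contains `(p, v)` (exactly one member with variable `p`) and is not violated by `b` and
has `k ≥ 1` members with variable `≥ p` (`k ≤ t`), then the weights are `2 ^ (t - k)` before,
`2 ^ (t - k + 1)` for the new bit `v` and `0` for the other one; if it is violated all are `0`. So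
`wga (b ++ [false]) + wga (b ++ [true]) = 2 wga b` and `wga ≤ 2 ^ t`. -/
def Stmt_AVA : Prop := ∀ (t cap : ℕ) (fs : List (List Lits)) (b : Str),
  (∀ f ∈ fs, f.Pairwise (fun T T' => dsj T T' = true) ∧ (2 ^ (t + 1)) ^ f.length ≤ cap ∧
    ∀ T ∈ f, T.length ≤ t ∧ (T.map Prod.fst).Nodup) →
  pta t cap fs (b ++ [false]) + pta t cap fs (b ++ [true]) ≤ 2 * pta t cap fs b

/-- BTC (200), uses CPR, GRC, AVA. The bits. Proof. GRC with `s = 2`, `len = n * n`: the list of
choices `c` has length `n * n`, `pta (tob c) ≤ pta []`. `wga t [] T = 2 ^ (t - T.length) ≥ 1`, so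
`pta [] ≤ fs.length * (2 ^ (t + 1) - 1) ^ A`. For `b` of length `n * n` and a term with variables
`< n * n` the weight is `2 ^ t` if `tev b T = true` and `0` otherwise, so the summand of `f` is
`2 ^ ((t + 1) A - k)`, `k` = number of true terms in `f`. Hence `2 ^ ((t + 1) A - k) 2 ^ h ≤
2 ^ ((t + 1) A)`, `h ≤ k` (`k ≤ A`). -/
def Stmt_BTC : Prop := ∀ (t cap n h A : ℕ) (fs : List (List Lits)),
  (∀ f ∈ fs, f.length = A ∧ f.Pairwise (fun T T' => dsj T T' = true) ∧
    ∀ T ∈ f, TOK (n * n) t T) →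
  (2 ^ (t + 1)) ^ A ≤ cap → fs.length * (2 ^ (t + 1) - 1) ^ A * 2 ^ h ≤ (2 ^ (t + 1)) ^ A →
  (bts t cap n fs).length = n * n ∧
    ∀ f ∈ fs, h ≤ (f.filter fun T => tev (bts t cap n fs) T).length

/-- AVB (200), uses CPR. The potential of the kept offsets is a supermartingale. Proof. CPR (1):
the summand is `min (∏ p ∈ H, wgb n c p) cap`. Let `j = c.length`. Split `H` into the `p` with
`p / n = j` (`r` of them, with different offsets `p % n`, as `H.Nodup`) and the others, whose
weights do not change (product `R`). For the new offset `o`: product `R n` if `o` is an offset of a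
member (exactly one) and `R` otherwise, the sum over `o < n` is `R (r n + (n - r)) ≤ R n (r + 1) ≤
n R 2 ^ r`. `min` is concave: `∑ min x_o cap ≤ min (∑ x_o) (n cap) ≤ n min (R 2 ^ r) cap`. -/
def Stmt_AVB : Prop := ∀ (n cap : ℕ) (Hs : List (List ℕ)) (c : List ℕ), 0 < n → 1 ≤ cap →
  (∀ H ∈ Hs, H.Nodup) → ((List.range n).map fun o => ptb n cap Hs (c ++ [o])).sum ≤
    n * ptb n cap Hs c

/-- KBC (150), uses CPR, GRC, AVB. The kept offsets. Proof. GRC with `s = len = n`:
`ptb n (n ^ h) Hs c ≤ ptb n (n ^ h) Hs [] ≤ ∑ 2 ^ H.length < n ^ h`. For `c` of length `n` and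
`p < n * n` the weight is `n` if `p` is kept and `1` otherwise, so (CPR (1)) for every `H`:
`min (n ^ k) (n ^ h) < n ^ h`, `k` = number of kept `p ∈ H`. -/
def Stmt_KBC : Prop := ∀ (n h : ℕ) (Hs : List (List ℕ)), 0 < n →
  (∀ H ∈ Hs, H.Nodup ∧ ∀ p ∈ H, p < n * n) → (Hs.map fun H => 2 ^ H.length).sum < n ^ h →
  (kpt n (n ^ h) Hs).length = n ∧ (∀ o ∈ kpt n (n ^ h) Hs, o < n) ∧
  ∀ H ∈ Hs, (H.filter fun p => decide ((kpt n (n ^ h) Hs).getD (p / n) 0 = p % n)).length < h

/-- PRM (180). The parameters. Proof. Let `F = 2 ^ (t + 1) ≥ 2`, `X = r + t F r`, `h = 2 X + 2`,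
`a = 2 ^ (t F (r + h) + h) + 1`, `λ = Nat.log 2 n + 1`, `A = F (r λ + h)`; `n < 2 ^ λ ≤ 2 n`. (2)
`F ^ A = (2 ^ λ) ^ ((t + 1) F r) 2 ^ ((t + 1) F h)`. (3) `(F - 1) ^ F * 2 ≤ F ^ F` (Bernoulli:
`(1 + 1 / (F - 1)) ^ F ≥ 1 + F / (F - 1) ≥ 2`, in the form `(F - 1) ^ F + F (F - 1) ^ (F - 1) ≤
F ^ F`, `one_add_mul_le_pow` or `add_pow_le_pow_mul_pow_of_sq_le_sq`.., by induction), so
`(F - 1) ^ A 2 ^ (r λ + h) ≤ F ^ A` and `m ≤ n ^ r ≤ 2 ^ (r λ)`. (4) `2 ^ (t A) =
(2 ^ λ) ^ (t F r) 2 ^ (t F h) ≤ n ^ (t F r) 2 ^ (t F (r + h))`, so `m 2 ^ (t A) ≤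
n ^ X 2 ^ (t F (r + h)) < n ^ X n ≤ n ^ h`. -/
def Stmt_PRM : Prop := ∀ t r : ℕ, ∃ h a : ℕ, 1 ≤ a ∧ ∀ n : ℕ, a ≤ n → 2 ^ h ≤ n ∧
  (2 ^ (t + 1)) ^ szA t r h n ≤ cpA t r h n ∧
  (∀ m : ℕ, m ≤ n ^ r → m * (2 ^ (t + 1) - 1) ^ szA t r h n * 2 ^ h ≤
    (2 ^ (t + 1)) ^ szA t r h n) ∧
  ∀ m : ℕ, m ≤ n ^ r → m * 2 ^ (t * szA t r h n) < n ^ h

/-- PLG (120). The map `plug`. Proof. A `flatMap` over `List.range n` of lists of length `n`: entry
`p` is entry `p % n` of the list number `p / n`; `p / n * n + p % n = p`. -/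
def Stmt_PLG : Prop := ∀ (kb : List ℕ × Str) (u : Str) (n : ℕ), u.length = n →
  (plug kb u).length = n * n ∧ ∀ p < n * n, (plug kb u).getD p false =
    if kb.1.getD (p / n) 0 = p % n then u.getD (p / n) false else kb.2.getD p false

/-- STC (250), uses FAM, BTC, KBC, PRM, PLG. One stage. Proof. `h, a` from PRM, `A = szA t r h n`.
Kept offsets: KBC for the lists `hs A F`, `F ∈ Fs` (FAM: `Nodup`, members `< n * n`, at most `t A`
members, so `∑ 2 ^ (hs A F).length ≤ Fs.length * 2 ^ (t A) < n ^ h`). `kin n c (hs A F)`: the map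
`q ↦ q * n + c.getD q 0` is injective into the kept members of `hs A F` (offsets `< n`), so its
length is `< h`. Bits: BTC for the families of exactly `A` terms (`pairwise`: sublist of `fam F`).
Type I: at least `h` of the `A` terms are true for the bits, less than `h` of the `A` disjoint terms
contain a kept variable, so one of them is true for the bits and has no kept variable; by PLG it is
true at `plug kb u`, and it is a member of `F`. -/
def Stmt_STC : Prop := ∀ t r : ℕ, ∃ h a : ℕ, 1 ≤ a ∧ ∀ n : ℕ, a ≤ n → 2 ^ h ≤ n ∧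
  ∀ Fs : List (List Lits), Fs.length ≤ n ^ r → (∀ F ∈ Fs, ∀ T ∈ F, TOK (n * n) t T) →
    (∀ q, (stg t r h n Fs).1.getD q 0 < n) ∧
    (∀ F ∈ Fs, szA t r h n ≤ (fam F).length → ∀ u : Str, u.length = n →
      dev (plug (stg t r h n Fs) u) F = true) ∧
    ∀ F ∈ Fs, (kin n (stg t r h n Fs).1 (hs (szA t r h n) F)).length < h

/-- CUB (100). Assignments. Proof. (1), (2), (3) induction on `h`. (4)-(6): unfold `lku`; the head
of `(α.filter ..).map snd`. In (6) `α.filter (·.1 = q)` has at most one member. -/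
def Stmt_CUB : Prop := (∀ (h : ℕ) (K : List ℕ), (cub h K).length ≤ 2 ^ h) ∧
  (∀ (h : ℕ) (K : List ℕ), K.length ≤ h → (∀ α ∈ cub h K, α.map Prod.fst = K) ∧
    ∀ x : Str, (K.map fun q => (q, x.getD q false)) ∈ cub h K) ∧
  (∀ (α : Lits) (q : ℕ) (c : Bool), lku α q = some c → (q, c) ∈ α) ∧
  (∀ (α : Lits) (q : ℕ), q ∈ α.map Prod.fst → lku α q ≠ none) ∧
  ∀ (α : Lits) (q : ℕ) (c : Bool), (α.map Prod.fst).Nodup → (q, c) ∈ α → lku α q = some c

/-- RDC (200), uses PLG, CUB. Restrictions. Proof. Let `y = plug kb x` (PLG). For a literal `l` with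
`l.1 < n * n`: if `sta n kb α l.1 = some c` then `y.getD l.1 false = c` (not kept: the bit; kept:
`(l.1 / n, c) ∈ α` by CUB, so `c = x.getD (l.1 / n) false`); if it is `none` then `l.1` is kept and
`y.getD l.1 false = x.getD (l.1 / n) false`. So a term with a literal `l` with `sta = some c`,
`c ≠ l.2` is false at `y`, and another one has at `y` the value of its restriction at `x`. -/
def Stmt_RDC : Prop := ∀ (n : ℕ) (kb : List ℕ × Str) (α : Lits) (F : List Lits) (x : Str),
  x.length = n → (∀ T ∈ F, ∀ l ∈ T, l.1 < n * n) → (∀ l ∈ α, x.getD l.1 false = l.2) →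
  dev x (rdn n kb α F) = dev (plug kb x) F

/-- RDT (180), uses FAM, CUB. The restricted terms are shorter. Proof. Let `K = kin n kb.1 (hs A F)`,
`α.map fst = K` (CUB). `T ∈ F`, `T ≠ []`: by FAM some `l ∈ T` has `l.1 ∈ hs A F`. If `l.1` is kept
(`kb.1.getD (l.1 / n) 0 = l.1 % n`) then `l.1 / n ∈ K` (`l.1 = l.1 / n * n + l.1 % n`,
`l.1 / n < n`), so `sta ≠ none` by CUB; if it is not kept then `sta ≠ none` too. So the filter
removes `l`. The variables `l.1 / n` of the remaining ones are different, because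
`l.1 = l.1 / n * n + kb.1.getD (l.1 / n) 0`, and `< n`. -/
def Stmt_RDT : Prop := ∀ (n t A h : ℕ) (kb : List ℕ × Str) (α : Lits) (F : List Lits),
  (∀ T ∈ F, TOK (n * n) (t + 1) T) → (fam F).length ≤ A →
  (kin n kb.1 (hs A F)).length ≤ h → α ∈ cub h (kin n kb.1 (hs A F)) →
  ∀ T ∈ rdn n kb α F, TOK n t T

/-- NXC (120), uses CUB, RDT. The next disjunctions. Proof. Length of a `flatMap` of lists of length
`≤ 2 ^ h` (CUB); RDT with `A = szA (t + 1) r h n`. -/
def Stmt_NXC : Prop := ∀ (t r h n : ℕ) (kb : List ℕ × Str) (Fs : List (List Lits)),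
  (∀ F ∈ Fs, ∀ T ∈ F, TOK (n * n) (t + 1) T) →
  (∀ F ∈ Fs, (kin n kb.1 (hs (szA (t + 1) r h n) F)).length < h) →
  (nxt (t + 1) r h n kb Fs).length ≤ 2 ^ h * Fs.length ∧
  ∀ F ∈ nxt (t + 1) r h n kb Fs, ∀ T ∈ F, TOK n t T

/-- PHC (120), uses PLG. The composition. Proof. Induction on `kbs`; `nmv (W + 1) n =
nmv W n * nmv W n`. A position `q < N * N` of `plug kb x` depends only on `x.getD (q / N) false`
(PLG), the positions `≥ N * N` are `false`. (3) `List.foldr_append`. (4) `KOK` of a concatenation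
(induction on `k1`; `nmv (W + W') n = nmv W (nmv W' n)`). -/
def Stmt_PHC : Prop := (∀ (kbs : List (List ℕ × Str)) (u : Str),
    (phi kbs u).length = nmv kbs.length u.length) ∧
  (∀ (kbs : List (List ℕ × Str)) (n q : ℕ), ∃ i : ℕ, ∀ u u' : Str, u.length = n →
    u'.length = n → u.getD i false = u'.getD i false →
    (phi kbs u).getD q false = (phi kbs u').getD q false) ∧
  (∀ (k1 k2 : List (List ℕ × Str)) (u : Str), phi (k1 ++ k2) u = phi k1 (phi k2 u)) ∧
  (∀ (k1 k2 : List (List ℕ × Str)) (n : ℕ), KOK (nmv k2.length n) k1 → KOK n k2 →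
    KOK n (k1 ++ k2)) ∧
  ∀ (ps : List (ℕ × ℕ × ℕ)) (n : ℕ) (Fs : List (List Lits)), (sts ps n Fs).length = ps.length

/-- LYC (250), uses STC, CUB, RDC, NXC, PHC. All stages for one layer. Proof. Induction on `t`,
generalizing `r`. `t = 0`: `ps = []`, `t' = 0`, all terms are `[]`, `dev x F` does not depend on
`x`. `t + 1`: `h, a1` from STC for `(t + 1, 2 r)`; `ps, t', a2` from the induction hypothesis for
`(t, 2 r + 1)`; parameters `(t + 1, 2 r, h) :: ps`, `a = max a1 a2`, new `t'`: `h + 2 ^ h t'`. Let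
`N = nmv ps.length n ≥ n ≥ a` (`n ≥ 1`), `kb = stg ..` the first stage: `Fs.length ≤ (N N) ^ r =
N ^ (2 r)`. NXC: the next list `Fs'` has at most `2 ^ h N ^ (2 r) ≤ N ^ (2 r + 1)` members, with
terms `TOK N t`. Let `φ = phi (sts ps n Fs')`, so that `phi (kb :: ..) u = plug kb (φ u)`. For
`F ∈ Fs` of type I (`szA .. ≤ (fam F).length`) the value is `true`. Otherwise let `K = kin ..`
(`K.length < h`); `J` = the `i q` (from PHC (2) for `φ` and `q`), `q ∈ K`, and the sets for
`rdn N kb α F ∈ Fs'`, `α ∈ cub h K`. If `u, u'` agree on `J` then `φ u`, `φ u'` agree on `K`; let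
`α = K.map fun q => (q, (φ u).getD q false) ∈ cub h K`; RDC for `φ u` and for `φ u'`. `KOK`: STC
and induction. -/
def Stmt_LYC : Prop := ∀ t r : ℕ, ∃ (ps : List (ℕ × ℕ × ℕ)) (t' a : ℕ), 1 ≤ a ∧ ∀ n : ℕ, a ≤ n →
  ∀ Fs : List (List Lits), Fs.length ≤ nmv ps.length n ^ r →
    (∀ F ∈ Fs, ∀ T ∈ F, TOK (nmv ps.length n) t T) → KOK n (sts ps n Fs) ∧
    ∀ F ∈ Fs, Jun t' n (fun u => dev (phi (sts ps n Fs) u) F)

/-- RLC (200). The relevant places. Proof. Let `J` be as in `Jun`. (1) `i ∈ rel t n G` implies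
`i ∈ J` (otherwise `G` does not change with the bit `i`). So `rel` (a sublist of `List.range n`) has
at most `t` members. (2) Let `x, y` agree on `rel`. Replace `x` and `y` by their restrictions to
`J ∩ {0, .., n - 1}` (other bits `false`): `G` does not change. Now change `x` into `y` bit by bit;
all strings on the way have their ones in `J`, so they are `chr n A` with `A` a list of at most `t`
numbers `< n` (`A ∈ sbs t n`: all lists of length `≤ t` with entries `< n`), and only bits
`i ∉ rel` are changed: `G` does not change. (Induction on the number of differences.) -/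
def Stmt_RLC : Prop := ∀ (t n : ℕ) (G : Str → Bool), Jun t n G → (rel t n G).length ≤ t ∧
  (rel t n G).Nodup ∧ (∀ i ∈ rel t n G, i < n) ∧ ∀ x y : Str, x.length = n → y.length = n →
    (∀ i ∈ rel t n G, x.getD i false = y.getD i false) → G x = G y

/-- DNC (200), uses CUB, RLC. The gates as disjunctions of terms. Proof. For a literal `l` let
`R = rel t n (fun x => (G x).getD l.1 false)` (RLC). For `α ∈ cub t R`: `α.map fst = R` (CUB), so
`TOK n t α`. For `x` of length `n`: the term `α` is true at `x` iff `α = R.map fun q =>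
(q, x.getD q false)`, and then `pnt n α` agrees with `x` on `R` (CUB (6)), so `G (pnt n α)` and
`G x` agree at `l.1`. -/
def Stmt_DNC : Prop := ∀ (t n : ℕ) (G : Str → List Bool) (L : List Lits),
  (∀ q, Jun t n fun x => (G x).getD q false) → (∀ F ∈ dnl t n G L, ∀ T ∈ F, TOK n t T) ∧
  ∀ x : Str, x.length = n → (dnl t n G L).map (dev x) = lay L (G x)

/-- CCC (250), uses PHC, LYC, DNC. The circuit. Proof. Induction on `D`, generalizing `t, r`.
`D = 0`: `pss = []`, `t' = t`, `a = 1` (`nmv 0 n = n`, `phi [] u = u`, `circ [] c = c`). `D + 1`: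
`ps, t1, a1` from LYC for `(t, r)`, `pss, t', a2` from the induction hypothesis for
`(D, t1, r 2 ^ ps.length)`; take `(t, ps) :: pss`, `max a1 a2`. `tst ((t, ps) :: pss) =
ps.length + tst pss`. Let `n1 = nmv (tst pss) n ≥ n`, `n0 = nmv ps.length n1 = nmv (tst ..) n`,
`C = L :: C'`, `Fs = dnl t n0 G L` (length `L.length ≤ n0 ^ r`, DNC), `kbs = sts ps n1 Fs`,
`G' u = lay L (G (phi kbs u))`. For `|u| = n1`: `G' u = Fs.map (dev (phi kbs u))` (DNC, PHC (1)), so
by LYC every entry is `Jun t1 n1` (entries behind the end are `false`). `n0 ^ r =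
n1 ^ (r 2 ^ ps.length)`. Induction hypothesis for `G'`, `C'`; PHC (3), (4), (5). -/
def Stmt_CCC : Prop := ∀ D t r : ℕ, ∃ (pss : List (ℕ × List (ℕ × ℕ × ℕ))) (t' a : ℕ), 1 ≤ a ∧
  ∀ n : ℕ, a ≤ n → ∀ (G : Str → List Bool) (C : List (List Lits)), C.length = D →
    (∀ L ∈ C, L.length ≤ nmv (tst pss) n ^ r) →
    (∀ q, Jun t (nmv (tst pss) n) fun x => (G x).getD q false) →
    KOK n (cct pss n G C) ∧ (cct pss n G C).length = tst pss ∧
    ∀ q, Jun t' n fun u => (circ C (G (phi (cct pss n G C) u))).getD q false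

/-- CNB (180). Block parities. Proof. `parity (a ++ b) = xor (parity a) (parity b)`; a block of
length `s * κ` is the concatenation of `s` blocks of length `κ`; the entry `l` of
`cnb s n (cnb κ (n * s) y)` is the parity of the list of the parities of the blocks number
`l * s + j`, `j < s`. (2) `parity (add a b) = xor (parity a) (parity b)` for lists of equal length;
`drop` and `take` of `zipWith`. -/
def Stmt_CNB : Prop := (∀ (κ s n : ℕ) (y : Str), y.length = n * s * κ →
    cnb (s * κ) n y = cnb s n (cnb κ (n * s) y)) ∧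
  (∀ (κ n : ℕ) (y y' : Str), y.length = y'.length →
    cnb κ n (add y y') = add (cnb κ n y) (cnb κ n y')) ∧
  ∀ (n : ℕ) (y : Str), y.length = n → cnb 1 n y = y

/-- PLC (150), uses PLG. The group parities of `plug`. Proof. Entry `q` of the left side is the
parity of the list over `o < n` of `if kb.1.getD q 0 = o then u.getD q false else
kb.2.getD (q * n + o) false`; exactly one offset `o < n` is kept, so it is the parity for
`u = 0` xor `u.getD q false` (split the range at the kept offset, or: change of one entry). -/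
def Stmt_PLC : Prop := ∀ (kb : List ℕ × Str) (u : Str) (n : ℕ), u.length = n →
  (∀ q, kb.1.getD q 0 < n) →
  cnb n n (plug kb u) = add (cnb n n (plug kb (List.replicate n false))) u

/-- PPC (180), uses PHC, CNB, PLC. The block parities of `phi`. Proof. Induction on `kbs`. `[]`:
`kap 0 n = 1`, CNB (3), `add (replicate n false) u = u`. `kb :: kbs`: `N = nmv kbs.length n =
n * kap kbs.length n` (`n > 0`), `kap (W + 1) n = kap W n * N`, `x = phi kbs u` of length `N`. CNB
(1) with `κ = N`, `s = kap W n`: `cnb (kap W n * N) n (plug kb x) = cnb (kap W n) n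
(cnb N N (plug kb x)) = cnb (kap W n) n (add c x)` (PLC) `= add (cnb .. c) (cnb (kap W n) n x)`
(CNB (2)) `= add (cnb .. c) (add (cnb .. (phi kbs 0)) u)` (induction). For `u = 0` it is
`add (cnb .. c) (cnb .. (phi kbs 0))`. Associativity of `add`. -/
def Stmt_PPC : Prop := ∀ (kbs : List (List ℕ × Str)) (n : ℕ) (u : Str), 0 < n → u.length = n →
  KOK n kbs → cnb (kap kbs.length n) n (phi kbs u) =
    add (cnb (kap kbs.length n) n (phi kbs (List.replicate n false))) u

/-- CNX (120). The contents. Proof. `lead (un κ ++ false :: y) = κ`, `rst (..) = y` (see block HVA,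
`B_HVA.lean`). For `|y| = n κ`, `κ > 0`: the `l < |y|` with `(l + 1) κ ≤ n κ` are the `l < n`; the
filter of `List.range` is `List.range n` (`n ≤ n κ`). (2) `κ = 1`. (3) `(rst z).length ≤ z.length`.
-/
def Stmt_CNX : Prop := (∀ (κ n : ℕ) (y : Str), 0 < κ → y.length = n * κ →
    con (un κ ++ false :: y) = cnb κ n y) ∧ (∀ v : Str, con (true :: false :: v) = v) ∧
  ∀ z : Str, (con z).length ≤ z.length

/-- LNI (100). Zeros at the end. Proof. `lead (v ++ 0^a) = lead v`; `rst (v ++ 0^a) = rst v ++ 0^a'`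
(`a' = a` or, if `v` has no zero, `a' = a - 1` with `rst v = []`); so `rst (rst (v ++ 0^a)) =
rst (rst v) ++ 0^b`; blocks: `((y ++ 0^b).drop j).take k` contains a one iff `(y.drop j).take k`
does. So `hv (v ++ 0^a) = hv v`. -/
def Stmt_LNI : Prop := ∀ (D : Set Str) (v : Str) (a : ℕ),
  v ++ List.replicate a false ∈ lang D ↔ v ∈ lang D

/-- JMP (200). Functions of few places are polynomials. Proof. For a finite set `S` let `f S` be the
value (in `ZMod m`) of `F` at the string of length `n` with ones at `S ∩ {0, .., n - 1}`;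
`F z = f (supp z)`. Möbius inversion: `c T = ∑ S ⊆ T, (-1) ^ (|T| - |S|) f S`,
`f U = ∑ T ⊆ U, c T`. If `T ⊄ J` (`i ∈ T \ J`) then `c T = 0`: the terms for `S` and `S ∪ {i}`
cancel (`i ∉ S`). So only `T ⊆ J` with `|T| ≤ t` contribute. (Alternative without inversion:
induction on `|J|`, `f (U) = f (U \ {i}) + [i ∈ U] (f (U ∪ {i}) - f (U \ {i}))`.) -/
def Stmt_JMP : Prop := ∀ (m t n : ℕ) (F : Str → Bool), Jun t n F →
  IsModPoly m n t (fun z => (F z).toNat)

/-- CNT (100), uses JMP. Numbers of true gates. Proof. `cnt q (W z) = ∑ i < q.length,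
(q.getD i false && (W z).getD i false).toNat`; sums of functions with `IsModPoly m n t` (add the
coefficients), the zero function. -/
def Stmt_CNT : Prop := ∀ (m t n : ℕ) (q : List Bool) (W : Str → List Bool),
  (∀ i, Jun t n fun z => (W z).getD i false) → IsModPoly m n t (fun z => cnt q (W z))

/-- PSA (120). Sizes. Proof. `kap W n ≤ nmv W n` (`n ≥ 1`), `x = nmv W n ≥ n`,
`p.eval (kap W n + 1 + x) ≤ p.eval (3 x) ≤ C (3 x) ^ e ≤ x ^ (e + 1)` for `x ≥ C 3 ^ e` (see the
proof of block THR, `B_THR.lean`, for `p.eval n ≤ C n ^ e`). -/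
def Stmt_PSA : Prop := ∀ p : Polynomial ℕ, ∃ r a : ℕ, ∀ W n : ℕ, a ≤ n →
  p.eval (kap W n + 1 + nmv W n) ≤ nmv W n ^ r

/-- PSC (200), uses PHC, CCC, PPC, CNX, PSA. The embedding. Proof. `r, a0` from PSA;
`pss, t', a1` from CCC for `(D, 1, r)`; `a = a0 + a1 + 1`. Let `|v| = M`, `n = M + a`,
`κ = kap (tst pss) n`, `kbs = psk pss crc n` (of length `tst pss`, `KOK`),
`G x = un κ ++ false :: x` (each entry depends on at most one bit of `x`), `c = psc pss crc n`,
`u = add (v ++ 0^a) c` of length `n`. (1) `con (psi v) = cnb κ n (phi kbs u)` (CNX,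
`|phi kbs u| = nmv (tst pss) n = n κ`) `= add c u` (PPC) `= v ++ 0^a`. (2) Length: PHC. (3)
`circ (crc |psi v|) (psi v) = circ (crc ..) (G (phi kbs u))`; by CCC it is `Jun t' n` as function of
`u`; as function of `v` it depends on the places `J ∩ {0, .., M - 1}` (`u.getD i false =
xor (v.getD i false) (c.getD i false)` for `i < M`, and `u.getD i false` does not depend on `v` for
`i ≥ M`). -/
def Stmt_PSC : Prop := ∀ (D : ℕ) (crc : ℕ → List (List Lits)) (p : Polynomial ℕ),
  (∀ N, (crc N).length = D) → (∀ N, ∀ L ∈ crc N, L.length ≤ p.eval N) →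
  ∃ (pss : List (ℕ × List (ℕ × ℕ × ℕ))) (t' a : ℕ),
    (∀ v : Str, con (psi pss a crc v) = v ++ List.replicate a false) ∧
    (∀ v : Str, (psi pss a crc v).length =
      kap (tst pss) (v.length + a) + 1 + nmv (tst pss) (v.length + a)) ∧
    ∀ M q : ℕ, Jun t' M fun v =>
      (circ (crc (psi pss a crc v).length) (psi pss a crc v)).getD q false

end Pool.EV
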