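import Pool.Agent.Work.MP_cb380d_ev.InterfaceF

/-!
# MP_cb380d_lc, CircuitReductions, PART G: complexity; final theorem

Block `X`: file `Pool/Agent/Work/MP_cb380d_ev/B_X.lean`, `import ...MP_cb380d_ev.InterfaceG`,
`open Pool.IC Pool.GL Pool.TL Polynomial`, `namespace Pool.EV`, `theorem p_X (hY : Stmt_Y) .. :
Stmt_X` with exactly the blocks of the column `uses` (in this order) as hypotheses; auxiliary
lemmas with prefix `X_`. For the typed layer `PolyF` (fun_prop) see the header of InterfaceB.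
-/

open Pool.IC Pool.GL Pool.TL Polynomial

namespace Pool.EV

/-- DVF (120). Division. Proof. For `n > 0`: `p / n` is the length of
`(List.range p).filter fun i => decide ((i + 1) * n ≤ p)`; `p / 0 = 0`; `p % n = p - n * (p / n)`.
`min a b = a - (a - b)`. `Nat.log 2 n`: the iteration of `(x, k) ↦ if 2 * x ≤ n then (2 * x, k + 1)
else (x, k)`, `n` times from `(1, 0)` (`iterate_add` or `foldl` with the bound `x ≤ n + 1`); after
`j` steps `x = 2 ^ k`, `k = min j (Nat.log 2 n)`; `Nat.log 2 n ≤ n`. -/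
def Stmt_DVF : Prop := ∀ B : Set Str, PolyF B (fun p : ℕ × ℕ => p.1 / p.2) ∧
  PolyF B (fun p : ℕ × ℕ => p.1 % p.2) ∧ PolyF B (fun p : ℕ × ℕ => min p.1 p.2) ∧
  PolyF B (fun n : ℕ => Nat.log 2 n)

/-- TFP (150). Terms and circuits. Proof. `all`, `any`; `fam`: `PolyF.foldl` over `F`, every step
adds at most the term (`foldl_add` with the size of the term, or the bound `sz acc ≤ 3 sz F`: the
list `acc` is a sublist of `F`); `circ`: `foldl`, the value after a step has length
`L.length ≤ sz C`. -/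
def Stmt_TFP : Prop := ∀ B : Set Str, PolyF B (fun p : Str × Lits => tev p.1 p.2) ∧
  PolyF B (fun p : Str × List Lits => dev p.1 p.2) ∧ PolyF B (fun p : Lits × Lits => dsj p.1 p.2) ∧
  PolyF B fam ∧ PolyF B (fun p : ℕ × List Lits => hs p.1 p.2) ∧
  PolyF B (fun p : List Lits × List Bool => lay p.1 p.2) ∧
  PolyF B (fun p : List (List Lits) × List Bool => circ p.1 p.2) ∧
  PolyF B (fun p : List Bool × List Bool => cnt p.1 p.2)

/-- CPP (60), uses DVF. The capped product. Proof. `PolyF.foldl`, all values are `≤ cap + 1`. -/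
def Stmt_CPP : Prop := ∀ B : Set Str, PolyF B (fun p : ℕ × List ℕ => cpr p.1 p.2)

/-- GRP (100). Greedy choices. Proof. `PolyF.iterate_add`: every step appends one number, which is
`0` or a member of `List.range (s c)`. -/
def Stmt_GRP : Prop := ∀ (B : Set Str) (γ : Type) [SE γ] (s len : γ → ℕ) (Φ : γ → List ℕ → ℕ),
  PolyF B s → PolyF B len → PolyF B (fun p : γ × List ℕ => Φ p.1 p.2) →
  PolyF B (fun c : γ => grd (s c) (Φ c) (len c))

/-- PTP (180), uses DVF, CPP, GRP. Potentials (`t` constant). Proof. `2 ^ (t - k)` is the entry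
`t - k` of the constant list `(List.range (t + 1)).map (2 ^ ·)`. `map`, `filter`, `any`, `PolyF.sum`.
Then GRP. -/
def Stmt_PTP : Prop := ∀ (B : Set Str) (t : ℕ),
  PolyF B (fun p : ℕ × ℕ × List (List Lits) => bts t p.1 p.2.1 p.2.2) ∧
  PolyF B (fun p : ℕ × ℕ × List (List ℕ) => kpt p.1 p.2.1 p.2.2)

/-- STP (120), uses DVF, TFP, PTP. One stage (`t, r, h` constant). Proof. `szA`, `cpA` by `fun_prop`
and `PolyF.pow`; `filter`, `map`. -/
def Stmt_STP : Prop := ∀ (B : Set Str) (t r h : ℕ), PolyF B (fun n : ℕ => szA t r h n) ∧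
  PolyF B (fun p : ℕ × List (List Lits) => stg t r h p.1 p.2)

/-- RNP (180), uses DVF, TFP, STP. Restrictions (`t, r, h` constant). Proof. `plug`: `flatMap`,
`map`. `cub h` by induction on `h`. `lku`, `sta`, `rdn`, `nxt`: `filter`, `map`, `all`,
`flatMap`. -/
def Stmt_RNP : Prop := ∀ B : Set Str, PolyF B (fun p : (List ℕ × Str) × Str => plug p.1 p.2) ∧
  (∀ h, PolyF B (fun K : List ℕ => cub h K)) ∧ PolyF B (fun p : Lits × ℕ => lku p.1 p.2) ∧
  ∀ t r h, PolyF B (fun p : ℕ × (List ℕ × Str) × List (List Lits) => nxt t r h p.1 p.2.1 p.2.2)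

/-- SSP (150), uses STP, RNP. All stages of a layer (`ps`, `W` constant). Proof. `nmv W n`:
`PolyF.pow`. `sts ps`: induction on `ps`. `phi (kbs.take W) u`: induction on `W`:
`phi (kbs.take (W + 1)) u = if kbs.isEmpty then u else plug (kbs.headD ([], [])) (phi (kbs.tail.take W)
u)`. -/
def Stmt_SSP : Prop := ∀ B : Set Str, (∀ W, PolyF B (fun n : ℕ => nmv W n)) ∧
  (∀ ps, PolyF B (fun p : ℕ × List (List Lits) => sts ps p.1 p.2)) ∧
  ∀ W, PolyF B (fun p : List (List ℕ × Str) × Str => phi (p.1.take W) p.2)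

/-- RLP (180), uses RNP. Relevant places (`t` constant). Proof. `sbs t n` by induction on `t`;
`chr`, `pnt`: `map`, `any`; `(chr n A).modify i not` as in block PLF (`B_PLF.lean`), for example
as `(List.range n).map fun j => if j = i then !(..) else ..`; `rel` with a context; `dnl` with a
context. -/
def Stmt_RLP : Prop := ∀ (B : Set Str) (t : ℕ) (γ : Type) [SE γ] (G : γ → Str → List Bool),
  PolyF B (fun p : γ × Str => G p.1 p.2) →
  PolyF B (fun p : γ × ℕ × List Lits => dnl t p.2.1 (G p.1) p.2.2)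

/-- CCP (180), uses TFP, SSP, RLP, PHC. All stages (`pss` constant). Proof. Induction on `pss`,
generalizing `γ` and `G`. `q :: pss`: `kbs (c, n, C) = sts q.2 (nmv (tst pss) n) (dnl q.1 .. (G c)
(C.headD []))` is in `PolyF` (RLP, SSP). The function `G' (c, L, kbs) u = lay L (G c (phi kbs u))`
is in `PolyF` if `phi kbs u` is replaced by `phi (kbs.take q.2.length) u` (SSP), which is the same
for `kbs` of length `q.2.length` (PHC (5)); induction hypothesis with
`γ' = γ × List Lits × List (List ℕ × Str)`. -/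
def Stmt_CCP : Prop := ∀ (B : Set Str) (pss : List (ℕ × List (ℕ × ℕ × ℕ))) (γ : Type) [SE γ]
  (G : γ → Str → List Bool), PolyF B (fun p : γ × Str => G p.1 p.2) →
  PolyF B (fun p : γ × ℕ × List (List Lits) => cct pss p.2.1 (G p.1) p.2.2)

/-- CTL (60), uses PHC. Length. Proof. Induction on `pss`. -/
def Stmt_CTL : Prop := ∀ (pss : List (ℕ × List (ℕ × ℕ × ℕ))) (n : ℕ) (G : Str → List Bool)
  (C : List (List Lits)), (cct pss n G C).length = tst pss

/-- PSP (180), uses PLF, SSP, CCP, CTL. The embedding and the contents. Proof. `kap W n`: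
`PolyF.pow`. `psk pss crc n`: CCP with `γ = ℕ` for `n`, `G n x = un (kap .. n) ++ false :: x`. `phi`
with `take (tst pss)` (CTL). `cnb`, `con`: `map`, `filter`, `drop`, `take`, `parity` (PLF). -/
def Stmt_PSP : Prop := ∀ B : Set Str, PolyF B con ∧
  ∀ (pss : List (ℕ × List (ℕ × ℕ × ℕ))) (a : ℕ) (crc : ℕ → List (List Lits)), PolyF B crc →
    PolyF B (psi pss a crc)

/-- NP3 (80), uses NPD, NPE, NPL, CNX, PSP. The language is in NP. Proof. `lang D` is in NP (NPL);
`V, r` for `lang D` (NPD); `V' (y, z) = V (y, con z)`, `|y| ≤ r |con z| ≤ r |z|` (CNX (3)); NPE. -/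
def Stmt_NP3 : Prop := ∀ B D : Set Str, InNP B D → InNP B (lang3 D)

/-- EV0 (150). Proof. `esc' (z, T, a, K) = (esc (true :: false :: z, T, a + 2, K)).drop 2`, `k' = k`,
`c' = c + 3`. `K > 0` because `_ < K ^ k` and `k > 0`, so `1 ≤ K ≤ |z|`, `|z| + 2 ≤ 3 |z|`,
`(c (|T| + 1)) ^ (c k) (|z| + 2) ^ (k - 1) ≤ (c (|T| + 1)) ^ (c k) 3 ^ (k - 1) |z| ^ (k - 1) ≤
(c' (|T| + 1)) ^ (c' k) |z| ^ (k - 1)`. The string `esc (..)` agrees with `true :: false :: z` outside
of the interval, in particular it starts with `true, false`. -/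
def Stmt_EV0 : Prop := ∀ (B : Set Str) (g : Str → Str), Evasive B g →
  Evasive B (fun v => g (true :: false :: v))

/-- SBD (120). Sizes. Proof. `n = M + a`; the argument of `s` is `≤ 3 (M + a + 1) ^ (2 ^ W) ≤
(c (M + 1)) ^ c` with `c = 3 + a + 2 ^ W` or so, `c ≥ 1`. Hypothesis with `e c`: `(s N ^ e) ^ c =
s N ^ (e c) ≤ C N + C ≤ C ((c (M + 1)) ^ c + 1) ≤ (2 (C + 1) c (M + 1)) ^ c`, so `s N ^ e ≤
2 (C + 1) c (M + 1)`. -/
def Stmt_SBD : Prop := ∀ (s : ℕ → ℕ) (W a : ℕ),
  (∀ e : ℕ, ∃ C : ℕ, ∀ N : ℕ, s N ^ e ≤ C * N + C) →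
  ∀ e : ℕ, ∃ C : ℕ, ∀ M : ℕ, s (kap W (M + a) + 1 + nmv W (M + a)) ^ e ≤ C * M + C

/-- CER (250), uses TFP, CNT, PSC, PSP, SBD. The composition has certificates. Proof. `m, D, s, crc,
sets` for `g`; `PolyF.size` of `crc` gives a polynomial `p` with `sz (crc N) ≤ p.eval (sz N) =
p.eval N`, so `L.length ≤ p.eval N` for `L ∈ crc N` (`length_le_sz` and the size of a member). PSC:
`pss, t', a`. `Certificates B (fun v => g (psi pss a crc v))` with: `m`, `d = t'`, `C = 0`, `k = 1`,
`s' M = s (kap (tst pss) (M + a) + 1 + nmv (tst pss) (M + a))` (SBD), no parities (`[]`),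
`names (v, b) = sets (psi v, b)`, `Φ (q, v) = cnt q (circ (crc (psi v).length) (psi v))` (CNT with
`W v = circ ..`, PSC (3); TFP, PSP). If `v'` has the length of `v` then `psi v'` has the length of
`psi v` (PSC (2)). -/
def Stmt_CER : Prop := ∀ (B : Set Str) (g : Str → Str), ModularCircuits B g →
  ∃ (φ : Str → Str) (a : ℕ), PolyF B φ ∧ (∀ v : Str, con (φ v) = v ++ List.replicate a false) ∧
    Certificates B (fun v => g (φ v))

/-- MA6 (150), uses MAI, EVA, EVX, EVC, CNX, LNI, NP3, EV0, CER. The main part. Proof. If `g` has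
one of the kinds low sensitivity, certificates, bounded degree, evasive, then it is evasive (`g` is
in `PolyF` by `polyFun_iff_polyF`), so `g' v = g (true :: false :: v)` is evasive (EV0), and
`con (true :: false :: v) = v` (CNX), so `g'` is a reduction of `lang D` to `A`. If `g` has
modular circuits: CER, `g' v = g (φ v)` has certificates, so it is evasive by EVX (`g'` is in
`PolyF`), and `v ∈ lang D ↔ v ++ 0^a ∈ lang D ↔ φ v ∈ lang3 D ↔ g' v ∈ A` by LNI. Now MAI. -/
def Stmt_MA6 : Prop := ∀ B D : Set Str, InNP B D → InNP B (lang3 D) ∧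
  ∀ (A : Set Str) (g : Str → Str), Karp B (lang3 D) A g → Good6 B g → ∃ f, Strong B D A f

/-- FI6 (80), uses UNP, UNC, PIS, MA6. The theorem. Proof. As block FIN (`B_FIN.lean`), with
`L = lang3 D`. -/
def Stmt_FI6 : Prop := ∀ B : Set Str,
  (∀ D : Set Str, InNP B D → ∃ L : Set Str, InNP B L ∧
    ∀ (A : Set Str) (g : Str → Str), Karp B L A g → Good6 B g → ∃ f, Strong B D A f) ∧
  (∀ A A' : Set Str, Complete6 B A → Complete6 B A' → PIso B A A') ∧
  ∃ A : Set Str, InNP B A ∧ ∀ L : Set Str, InNP B L → ∃ g : Str → Str, Karp B L A g ∧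
    ∀ (z : Str) (b : ℕ),
      ((Finset.range z.length).filter fun v => (g (z.modify v not))[b]? ≠ (g z)[b]?).card ≤ 1

end Pool.EV
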